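import Mathlib

/-!
# The Mellin transform of the fractional part of `1 / t`
-/

set_option autoImplicit false

open MeasureTheory Complex Set Filter Topology Asymptotics

namespace Pool.Agent.NBL

/-- the fractional part of `1 / t` for `t < 1` -/
noncomputable def f1 (t : ℝ) : ℂ := if t < 1 then ((Int.fract t⁻¹ : ℝ) : ℂ) else 0

lemma f1_norm (t : ℝ) : ‖f1 t‖ ≤ 1 := by
  unfold f1
  split_ifs
  · rw [norm_real, Real.norm_of_nonneg (Int.fract_nonneg _)]
    exact (Int.fract_lt_one _).le
  · simp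

lemma f1_meas : Measurable f1 := by
  unfold f1
  refine Measurable.ite (measurableSet_lt measurable_id measurable_const) ?_ measurable_const
  exact measurable_ofReal.comp (measurable_fract.comp measurable_inv)

lemma f1_loc : LocallyIntegrableOn f1 (Ioi 0) := by
  refine LocallyIntegrable.locallyIntegrableOn ?_ _
  refine (locallyIntegrable_const (1 : ℝ)).mono f1_meas.aestronglyMeasurable ?_
  exact Eventually.of_forall fun t => by simpa using f1_norm t

lemma f1_top (a : ℝ) : f1 =O[atTop] (fun t : ℝ => t ^ (-a)) := by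
  refine (isBigO_zero _ _).congr' ?_ EventuallyEq.rfl
  filter_upwards [eventually_ge_atTop (1 : ℝ)] with t ht
  simp [f1, not_lt.2 ht]

lemma f1_bot : f1 =O[𝓝[>] 0] (fun t : ℝ => t ^ (-(0 : ℝ))) := by
  simp only [neg_zero, Real.rpow_zero]
  exact IsBigO.of_bound 1 (Eventually.of_forall fun t => by simpa using f1_norm t)

lemma f1_conv {s : ℂ} (hs : 0 < s.re) : MellinConvergent f1 s :=
  mellinConvergent_of_isBigO_rpow f1_loc (f1_top (s.re + 1)) (by linarith) f1_bot hs

lemma f1_diff {s : ℂ} (hs : 0 < s.re) : DifferentiableAt ℂ (mellin f1) s :=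
  mellin_differentiableAt_of_isBigO_rpow f1_loc (f1_top (s.re + 1)) (by linarith) f1_bot hs

/-- the series region -/
lemma f1_big {s : ℂ} (hs : 1 < s.re) : mellin f1 s = 1 / (s - 1) - riemannZeta s / s := by
  have hs0 : s ≠ 0 := by
    rintro rfl
    simp at hs
    linarith
  have hs1 : s - 1 ≠ 0 := by
    intro h
    have : s = 1 := by linear_combination h
    rw [this] at hs
    simp at hs
  -- pass to the variable `x = 1 / t`
  have e1 : mellin f1 s = ∫ x in Ioi (1 : ℝ), ((Int.fract x : ℝ) : ℂ) * (x : ℂ) ^ (-(s + 1)) := by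
    have h1 : mellin (fun t => (fun x : ℝ => if 1 < x then ((Int.fract x : ℝ) : ℂ) else 0) t⁻¹) s
        = mellin (fun x : ℝ => if 1 < x then ((Int.fract x : ℝ) : ℂ) else 0) (-s) :=
      mellin_comp_inv (fun x : ℝ => if 1 < x then ((Int.fract x : ℝ) : ℂ) else 0) s
    have h2 : mellin f1 s
        = mellin (fun t => (fun x : ℝ => if 1 < x then ((Int.fract x : ℝ) : ℂ) else 0) t⁻¹) s := by
      unfold mellin
      refine setIntegral_congr_fun measurableSet_Ioi fun t ht => ?_
      have ht' : (0 : ℝ) < t := ht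
      simp only [f1]
      congr 1
      have : t < 1 ↔ 1 < t⁻¹ := by
        rw [one_lt_inv₀ ht']
      simp only [this]
    rw [h2, h1, mellin]
    have h3 : ∀ x : ℝ, (x : ℂ) ^ (-s - 1) • (if 1 < x then ((Int.fract x : ℝ) : ℂ) else 0) =
        (Ioi (1 : ℝ)).indicator (fun x : ℝ => ((Int.fract x : ℝ) : ℂ) * (x : ℂ) ^ (-(s + 1))) x := by
      intro x
      by_cases hx : 1 < x
      · rw [indicator_of_mem (show x ∈ Ioi (1 : ℝ) from hx), if_pos hx, smul_eq_mul, mul_comm]
        congr 2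
        ring
      · rw [indicator_of_notMem (show x ∉ Ioi (1 : ℝ) from hx), if_neg hx, smul_zero]
    simp_rw [h3]
    rw [setIntegral_indicator measurableSet_Ioi]
    congr 2
    ext x
    simp only [mem_inter_iff, mem_Ioi]
    constructor
    · exact fun h => h.2
    · exact fun h => ⟨by linarith, h⟩
  -- the zeta function
  have e2 : riemannZeta s = s * ∫ t in Ioi (1 : ℝ), ((⌊t⌋₊ : ℝ) : ℂ) * (t : ℂ) ^ (-(s + 1)) := by
    have h1 := LSeries_eq_mul_integral' (fun _ => (1 : ℂ)) (r := 1) (by norm_num) hs ?_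
    · have h2 : LSeries (fun _ => (1 : ℂ)) s = riemannZeta s := LSeries_one_eq_riemannZeta hs
      rw [← h2, h1]
      congr 2
      ext t
      simp
    · simp only [norm_one, Finset.sum_const, Nat.card_Icc, Nat.add_sub_cancel, nsmul_eq_mul, mul_one,
        Real.rpow_one]
      exact isBigO_refl _ _
  have hint1 : IntegrableOn (fun t : ℝ => (t : ℂ) * (t : ℂ) ^ (-(s + 1))) (Ioi 1) := by
    have h1 : IntegrableOn (fun t : ℝ => (t : ℂ) ^ (-s)) (Ioi 1) :=
      integrableOn_Ioi_cpow_of_lt (by simp; linarith) one_pos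
    refine h1.congr_fun (fun t ht => ?_) measurableSet_Ioi
    have ht' : (0 : ℝ) < t := by
      have : (1 : ℝ) < t := ht
      linarith
    have ht0 : (t : ℂ) ≠ 0 := by exact_mod_cast ht'.ne'
    simp only
    rw [show -(s + 1) = -s - 1 by ring, cpow_sub _ _ ht0, cpow_one]
    field_simp
  have hint2 : IntegrableOn (fun t : ℝ => ((Int.fract t : ℝ) : ℂ) * (t : ℂ) ^ (-(s + 1))) (Ioi 1) := by
    have h1 : IntegrableOn (fun t : ℝ => (t : ℂ) ^ (-(s + 1))) (Ioi 1) :=
      integrableOn_Ioi_cpow_of_lt (by simp; linarith) one_pos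
    refine Integrable.bdd_mul (c := 1) h1 ?_ ?_
    · exact (measurable_ofReal.comp measurable_fract).aestronglyMeasurable
    · refine Eventually.of_forall fun t => ?_
      rw [norm_real, Real.norm_of_nonneg (Int.fract_nonneg _)]
      exact (Int.fract_lt_one _).le
  have e3 : ∫ t in Ioi (1 : ℝ), (t : ℂ) * (t : ℂ) ^ (-(s + 1)) = 1 / (s - 1) := by
    have h1 : ∫ t in Ioi (1 : ℝ), (t : ℂ) * (t : ℂ) ^ (-(s + 1)) =
        ∫ t in Ioi (1 : ℝ), (t : ℂ) ^ (-s) := by
      refine setIntegral_congr_fun measurableSet_Ioi fun t ht => ?_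
      have ht' : (0 : ℝ) < t := by
        have : (1 : ℝ) < t := ht
        linarith
      have ht0 : (t : ℂ) ≠ 0 := by exact_mod_cast ht'.ne'
      rw [show -(s + 1) = -s - 1 by ring, cpow_sub _ _ ht0, cpow_one]
      field_simp
    rw [h1, integral_Ioi_cpow_of_lt (by simp; linarith) one_pos]
    simp only [ofReal_one, one_cpow]
    rw [show -s + 1 = -(s - 1) by ring, neg_div_neg_eq]
  have e4 : ∫ t in Ioi (1 : ℝ), ((⌊t⌋₊ : ℝ) : ℂ) * (t : ℂ) ^ (-(s + 1)) =
      (∫ t in Ioi (1 : ℝ), (t : ℂ) * (t : ℂ) ^ (-(s + 1))) -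
        ∫ t in Ioi (1 : ℝ), ((Int.fract t : ℝ) : ℂ) * (t : ℂ) ^ (-(s + 1)) := by
    rw [← integral_sub hint1 hint2]
    refine setIntegral_congr_fun measurableSet_Ioi fun t ht => ?_
    have ht' : (1 : ℝ) < t := ht
    have h1 : ((⌊t⌋₊ : ℝ)) = t - Int.fract t := by
      rw [Int.fract]
      have := natCast_floor_eq_intCast_floor (R := ℝ) (a := t) (by linarith)
      rw [this]
      ring
    rw [h1]
    push_cast
    ring
  rw [e1]
  rw [e4, e3] at e2
  rw [e2]
  field_simp
  ring

/-- the whole half plane, by uniqueness of analytic functions -/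
lemma f1_all {s : ℂ} (hs : 0 < s.re) : s * (s - 1) * mellin f1 s = s - riemannZeta₁ s := by
  have hU : IsOpen {z : ℂ | 0 < z.re} := isOpen_lt continuous_const continuous_re
  have hconv : Convex ℝ {z : ℂ | 0 < z.re} := convex_halfSpace_re_gt 0
  have hf : AnalyticOnNhd ℂ (fun z => z * (z - 1) * mellin f1 z) {z : ℂ | 0 < z.re} := by
    refine DifferentiableOn.analyticOnNhd (fun z hz => ?_) hU
    have h1 : DifferentiableAt ℂ (mellin f1) z := f1_diff hz
    exact DifferentiableAt.differentiableWithinAt (by fun_prop)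
  have hg : AnalyticOnNhd ℂ (fun z => z - riemannZeta₁ z) {z : ℂ | 0 < z.re} := by
    refine DifferentiableOn.analyticOnNhd (fun z _ => ?_) hU
    exact DifferentiableAt.differentiableWithinAt (by fun_prop)
  have h2 : (2 : ℂ) ∈ {z : ℂ | 0 < z.re} := by simp
  have heq : (fun z => z * (z - 1) * mellin f1 z) =ᶠ[𝓝 (2 : ℂ)] (fun z => z - riemannZeta₁ z) := by
    have hV : IsOpen {z : ℂ | 1 < z.re} := isOpen_lt continuous_const continuous_re
    filter_upwards [hV.mem_nhds (show (2 : ℂ) ∈ {z : ℂ | 1 < z.re} by simp)] with z hz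
    have hz' : 1 < z.re := hz
    have hz1 : z ≠ 1 := by
      rintro rfl
      simp at hz'
    have hz0 : z ≠ 0 := by
      rintro rfl
      simp at hz'
      linarith
    have hz2 : z - 1 ≠ 0 := sub_ne_zero.2 hz1
    rw [f1_big hz', riemannZeta_eq_inv_sub_mul hz1]
    field_simp
  exact (hf.eqOn_of_preconnected_of_eventuallyEq hg hconv.isPreconnected h2 heq) hs

/-- the tail `1 / t` -/
noncomputable def f2 (t : ℝ) : ℂ := if 1 < t then (t : ℂ)⁻¹ else 0

lemma f2_mellin {s : ℂ} (hs : s.re < 1) :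
    MellinConvergent f2 s ∧ mellin f2 s = 1 / (1 - s) := by
  have h3 : ∀ t : ℝ, (t : ℂ) ^ (s - 1) • f2 t =
      (Ioi (1 : ℝ)).indicator (fun t : ℝ => (t : ℂ) ^ (s - 2)) t := by
    intro t
    by_cases ht : 1 < t
    · rw [indicator_of_mem (show t ∈ Ioi (1 : ℝ) from ht), f2, if_pos ht, smul_eq_mul]
      have ht0 : (t : ℂ) ≠ 0 := by
        have : (0 : ℝ) < t := by linarith
        exact_mod_cast this.ne'
      rw [show s - 2 = (s - 1) - 1 by ring, cpow_sub (s - 1) 1 ht0, cpow_one, div_eq_mul_inv]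
    · rw [indicator_of_notMem (show t ∉ Ioi (1 : ℝ) from ht), f2, if_neg ht, smul_zero]
  have hint : IntegrableOn (fun t : ℝ => (t : ℂ) ^ (s - 2)) (Ioi 1) :=
    integrableOn_Ioi_cpow_of_lt (by simp; linarith) one_pos
  have hset : Ioi (0 : ℝ) ∩ Ioi 1 = Ioi 1 := by
    ext x
    simp only [mem_inter_iff, mem_Ioi]
    constructor
    · exact fun h => h.2
    · exact fun h => ⟨by linarith, h⟩
  constructor
  · unfold MellinConvergent
    have h4 : (fun t : ℝ => (t : ℂ) ^ (s - 1) • f2 t) =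
      (Ioi (1 : ℝ)).indicator (fun t : ℝ => (t : ℂ) ^ (s - 2)) := funext h3
    rw [h4, IntegrableOn, integrable_indicator_iff measurableSet_Ioi, IntegrableOn,
      Measure.restrict_restrict measurableSet_Ioi, inter_comm, hset]
    exact hint
  · unfold mellin
    simp_rw [h3]
    rw [setIntegral_indicator measurableSet_Ioi, hset,
      integral_Ioi_cpow_of_lt (by simp; linarith) one_pos]
    simp only [ofReal_one, one_cpow]
    rw [show s - 2 + 1 = -(1 - s) by ring, neg_div_neg_eq]

/-- the fractional part of `1 / t` -/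
lemma fract_mellin {s : ℂ} (h0 : 0 < s.re) (h1 : s.re < 1) :
    mellin (fun t : ℝ => ((Int.fract (1 / t) : ℝ) : ℂ)) s = -(riemannZeta s / s) := by
  have hsum : mellin (fun t : ℝ => ((Int.fract (1 / t) : ℝ) : ℂ)) s = mellin f1 s + mellin f2 s := by
    rw [← (hasMellin_add (f1_conv h0) (f2_mellin h1).1).2]
    unfold mellin
    refine setIntegral_congr_fun measurableSet_Ioi fun t ht => ?_
    have ht' : (0 : ℝ) < t := ht
    simp only [f1, f2]
    congr 1
    rcases lt_trichotomy t 1 with h | h | h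
    · rw [if_pos h, if_neg (by linarith)]
      simp
    · subst h
      simp
    · rw [if_neg (by linarith), if_pos h]
      have : Int.fract (1 / t) = t⁻¹ := by
        rw [one_div]
        exact Int.fract_eq_self.2 ⟨by positivity, inv_lt_one_of_one_lt₀ h⟩
      rw [this]
      push_cast
      ring
  have hs0 : s ≠ 0 := by
    rintro rfl
    simp at h0
  have hs1 : s ≠ 1 := by
    rintro rfl
    simp at h1
  have hs2 : s - 1 ≠ 0 := sub_ne_zero.2 hs1
  have hs3 : 1 - s ≠ 0 := sub_ne_zero.2 hs1.symm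
  have h5 := f1_all h0
  have h6 : mellin f1 s = (s - riemannZeta₁ s) / (s * (s - 1)) := by
    field_simp
    linear_combination h5
  rw [hsum, h6, (f2_mellin h1).2, riemannZeta_eq_inv_sub_mul hs1]
  have : (1 : ℂ) / (1 - s) = - (1 / (s - 1)) := by
    rw [← neg_sub s 1, one_div, one_div, inv_neg]
  rw [this]
  field_simp
  ring

/-- the Nyman–Beurling function `t ↦ {1 / (k t)}` -/
noncomputable def nb (k : ℕ) (t : ℝ) : ℂ := ((Int.fract (1 / (k * t)) : ℝ) : ℂ)

lemma nb_mellin {k : ℕ} (hk : 0 < k) {s : ℂ} (h0 : 0 < s.re) (h1 : s.re < 1) :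
    mellin (nb k) s = -((k : ℂ) ^ (-s) * riemannZeta s / s) := by
  have hk' : (0 : ℝ) < k := by exact_mod_cast hk
  have e : mellin (nb k) s =
      mellin (fun t => (fun t : ℝ => ((Int.fract (1 / t) : ℝ) : ℂ)) ((k : ℝ) * t)) s := rfl
  rw [e, mellin_comp_mul_left (fun t : ℝ => ((Int.fract (1 / t) : ℝ) : ℂ)) s hk',
    fract_mellin h0 h1, smul_eq_mul]
  push_cast
  ring

/-- the indicator function of `(0, 1 / k]` -/
noncomputable def ch (k : ℕ) (t : ℝ) : ℂ := if t ≤ 1 / k then 1 else 0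

lemma ch_mellin {k : ℕ} (hk : 0 < k) {s : ℂ} (h0 : 0 < s.re) :
    mellin (ch k) s = (k : ℂ) ^ (-s) / s := by
  have hk' : (0 : ℝ) < k := by exact_mod_cast hk
  have hs0 : s ≠ 0 := by
    rintro rfl
    simp at h0
  have h3 : ∀ t : ℝ, (t : ℂ) ^ (s - 1) • ch k t =
      (Iic (1 / (k : ℝ))).indicator (fun t : ℝ => (t : ℂ) ^ (s - 1)) t := by
    intro t
    by_cases ht : t ≤ 1 / k
    · rw [indicator_of_mem (show t ∈ Iic (1 / (k : ℝ)) from ht), ch, if_pos ht, smul_eq_mul, mul_one]
    · rw [indicator_of_notMem (show t ∉ Iic (1 / (k : ℝ)) from ht), ch, if_neg ht, smul_zero]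
  unfold mellin
  simp_rw [h3]
  rw [setIntegral_indicator measurableSet_Iic, Ioi_inter_Iic,
    ← intervalIntegral.integral_of_le (by positivity), integral_cpow (Or.inl (by simp; linarith))]
  simp only [sub_add_cancel]
  rw [ofReal_zero, zero_cpow hs0, sub_zero]
  congr 1
  push_cast
  rw [one_div, Complex.inv_cpow _ _ (by
    rw [Complex.natCast_arg]; exact Real.pi_pos.ne), cpow_neg]

end Pool.Agent.NBL
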