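import Mathlib
import Pool.Agent.NBL.Mel
import Pool.Agent.H25.Plancherel

/-!
# Plancherel's theorem for the Mellin transform
-/

set_option autoImplicit false

open MeasureTheory Complex Set Filter Topology Asymptotics FourierTransform
open scoped ENNReal

namespace Pool.Agent.NBL

/-- admissible functions -/
def Adm (g : ℝ → ℂ) : Prop :=
  Measurable g ∧ ∃ M : ℝ, 0 ≤ M ∧ ∀ t : ℝ, 0 < t → ‖g t‖ ≤ M * min 1 (1 / t)

lemma Adm.zero : Adm (fun _ => 0) :=
  ⟨measurable_const, 0, le_rfl, fun t _ => by simp⟩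

lemma Adm.add {g h : ℝ → ℂ} (hg : Adm g) (hh : Adm h) : Adm (fun t => g t + h t) := by
  obtain ⟨m1, M1, p1, b1⟩ := hg
  obtain ⟨m2, M2, p2, b2⟩ := hh
  refine ⟨m1.add m2, M1 + M2, by positivity, fun t ht => ?_⟩
  calc ‖g t + h t‖ ≤ ‖g t‖ + ‖h t‖ := norm_add_le _ _
    _ ≤ M1 * min 1 (1 / t) + M2 * min 1 (1 / t) := add_le_add (b1 t ht) (b2 t ht)
    _ = (M1 + M2) * min 1 (1 / t) := by ring

lemma Adm.mul {g : ℝ → ℂ} (hg : Adm g) (c : ℂ) : Adm (fun t => c * g t) := by
  obtain ⟨m1, M1, p1, b1⟩ := hg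
  refine ⟨m1.const_mul c, ‖c‖ * M1, by positivity, fun t ht => ?_⟩
  rw [norm_mul, mul_assoc]
  exact mul_le_mul_of_nonneg_left (b1 t ht) (norm_nonneg _)

lemma Adm.sum {ι : Type*} (s : Finset ι) {g : ι → ℝ → ℂ} (hg : ∀ i ∈ s, Adm (g i)) :
    Adm (fun t => ∑ i ∈ s, g i t) := by
  classical
  induction s using Finset.induction_on with
  | empty => simpa using Adm.zero
  | insert a s ha ih =>
    have h1 := (hg a (Finset.mem_insert_self a s)).add
      (ih fun i hi => hg i (Finset.mem_insert_of_mem hi))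
    refine cast ?_ h1
    congr 1
    funext t
    rw [Finset.sum_insert ha]

lemma adm_nb {k : ℕ} (hk : 0 < k) : Adm (nb k) := by
  have hk' : (1 : ℝ) ≤ k := by exact_mod_cast hk
  refine ⟨?_, 1, zero_le_one, fun t ht => ?_⟩
  · unfold nb
    exact measurable_ofReal.comp (measurable_fract.comp
      (measurable_const.div (measurable_const.mul measurable_id)))
  · unfold nb
    rw [norm_real, Real.norm_of_nonneg (Int.fract_nonneg _), one_mul]
    refine le_min (Int.fract_lt_one _).le ?_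
    have h1 : Int.fract (1 / (k * t)) ≤ 1 / (k * t) := by
      rw [Int.fract]
      have : (0 : ℝ) ≤ (⌊1 / ((k : ℝ) * t)⌋ : ℝ) := by
        have : (0 : ℤ) ≤ ⌊1 / ((k : ℝ) * t)⌋ := Int.floor_nonneg.2 (by positivity)
        exact_mod_cast this
      linarith
    refine h1.trans ?_
    apply one_div_le_one_div_of_le ht
    nlinarith

lemma adm_ch {k : ℕ} (hk : 0 < k) : Adm (ch k) := by
  have hk' : (1 : ℝ) ≤ k := by exact_mod_cast hk
  refine ⟨?_, 1, zero_le_one, fun t ht => ?_⟩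
  · unfold ch
    exact Measurable.ite (measurableSet_le measurable_id measurable_const) measurable_const
      measurable_const
  · unfold ch
    rw [one_mul]
    split_ifs with h
    · have h1 : t ≤ 1 := h.trans (by rw [div_le_one (by linarith)]; exact hk')
      have h2 : 1 ≤ 1 / t := by rw [le_div_iff₀ ht]; linarith
      rw [min_eq_left h2]
      simp
    · simp only [norm_zero]
      positivity

lemma Adm.norm_le {g : ℝ → ℂ} (hg : Adm g) :
    ∃ M : ℝ, 0 ≤ M ∧ ∀ t : ℝ, 0 < t → ‖g t‖ ≤ M ∧ ‖g t‖ ≤ M * (1 / t) := by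
  obtain ⟨_, M, hM, hb⟩ := hg
  refine ⟨M, hM, fun t ht => ⟨(hb t ht).trans ?_, (hb t ht).trans ?_⟩⟩
  · calc M * min 1 (1 / t) ≤ M * 1 := mul_le_mul_of_nonneg_left (min_le_left _ _) hM
      _ = M := mul_one M
  · exact mul_le_mul_of_nonneg_left (min_le_right _ _) hM

lemma Adm.conv {g : ℝ → ℂ} (hg : Adm g) {s : ℂ} (h0 : 0 < s.re) (h1 : s.re < 1) :
    MellinConvergent g s := by
  obtain ⟨M, hM, hb⟩ := hg.norm_le
  have hloc : LocallyIntegrableOn g (Ioi 0) := by
    rw [locallyIntegrableOn_iff isOpen_Ioi.isLocallyClosed]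
    intro K hK hKc
    refine Measure.integrableOn_of_bounded (M := M) hKc.measure_lt_top.ne
      hg.1.aestronglyMeasurable ?_
    filter_upwards [ae_restrict_mem hKc.measurableSet] with t ht
    exact (hb t (hK ht)).1
  refine mellinConvergent_of_isBigO_rpow (a := 1) (b := 0) hloc ?_ h1 ?_ h0
  · refine IsBigO.of_bound M ?_
    filter_upwards [eventually_gt_atTop (0 : ℝ)] with t ht
    rw [Real.rpow_neg_one, Real.norm_of_nonneg (by positivity : (0 : ℝ) ≤ t⁻¹), ← one_div]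
    exact (hb t ht).2
  · simp only [neg_zero, Real.rpow_zero]
    refine IsBigO.of_bound M ?_
    filter_upwards [self_mem_nhdsWithin] with t ht
    simpa using (hb t ht).1

lemma mellin_sum {ι : Type*} (s : Finset ι) (c : ι → ℂ) {g : ι → ℝ → ℂ} (hg : ∀ i ∈ s, Adm (g i))
    {z : ℂ} (h0 : 0 < z.re) (h1 : z.re < 1) :
    mellin (fun t => ∑ i ∈ s, c i * g i t) z = ∑ i ∈ s, c i * mellin (g i) z := by
  classical
  induction s using Finset.induction_on with
  | empty => simp [mellin]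
  | insert a s ha ih =>
    have hg' : ∀ i ∈ s, Adm (g i) := fun i hi => hg i (Finset.mem_insert_of_mem hi)
    have ha' := hg a (Finset.mem_insert_self a s)
    have e : (fun t => ∑ i ∈ insert a s, c i * g i t) =
        fun t => c a * g a t + ∑ i ∈ s, c i * g i t := by
      funext t
      rw [Finset.sum_insert ha]
    rw [e, (hasMellin_add ((ha'.mul (c a)).conv h0 h1)
      ((Adm.sum s fun i hi => (hg' i hi).mul (c i)).conv h0 h1)).2, Finset.sum_insert ha, ih hg']
    congr 1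
    exact mellin_const_smul (g a) z (c a)

/-- the function on the additive group -/
noncomputable def phi (g : ℝ → ℂ) (u : ℝ) : ℂ := Real.exp (-(1 / 2) * u) • g (Real.exp (-u))

lemma phi_meas {g : ℝ → ℂ} (hg : Measurable g) : Measurable (phi g) := by
  unfold phi
  exact (Real.measurable_exp.comp (measurable_const.mul measurable_id)).smul
    (hg.comp (Real.measurable_exp.comp measurable_neg))

lemma phi_bound {g : ℝ → ℂ} {M : ℝ} (hb : ∀ t : ℝ, 0 < t → ‖g t‖ ≤ M ∧ ‖g t‖ ≤ M * (1 / t))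
    (u : ℝ) : ‖phi g u‖ ≤ M * Real.exp (-(1 / 2) * |u|) := by
  unfold phi
  rw [norm_smul, Real.norm_of_nonneg (Real.exp_pos _).le]
  obtain ⟨h1, h2⟩ := hb (Real.exp (-u)) (Real.exp_pos _)
  have hM : 0 ≤ M := (norm_nonneg _).trans h1
  rcases le_total 0 u with hu | hu
  · rw [abs_of_nonneg hu, mul_comm]
    exact mul_le_mul_of_nonneg_right h1 (Real.exp_pos _).le
  · rw [abs_of_nonpos hu]
    calc Real.exp (-(1 / 2) * u) * ‖g (Real.exp (-u))‖
        ≤ Real.exp (-(1 / 2) * u) * (M * (1 / Real.exp (-u))) :=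
          mul_le_mul_of_nonneg_left h2 (Real.exp_pos _).le
      _ = M * Real.exp (-(1 / 2) * -u) := by
          have e : (1 : ℝ) / Real.exp (-u) = Real.exp u := by
            rw [Real.exp_neg, one_div, inv_inv]
          rw [e, mul_comm, mul_assoc, ← Real.exp_add]
          congr 2
          ring

lemma integrable_exp_abs : Integrable (fun u : ℝ => Real.exp (-(1 / 2) * |u|)) := by
  rw [← integrableOn_univ, ← Iic_union_Ioi (a := (0 : ℝ)), integrableOn_union]
  constructor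
  · refine (integrableOn_exp_mul_Iic (a := 1 / 2) (by norm_num) 0).congr_fun (fun u hu => ?_)
      measurableSet_Iic
    have hu' : u ≤ 0 := hu
    simp only [abs_of_nonpos hu']
    congr 1
    ring
  · refine (integrableOn_exp_mul_Ioi (a := -(1 / 2)) (by norm_num) 0).congr_fun (fun u hu => ?_)
      measurableSet_Ioi
    have hu' : 0 < u := hu
    simp only [abs_of_pos hu']

lemma phi_int {g : ℝ → ℂ} (hg : Adm g) : Integrable (phi g) := by
  obtain ⟨M, hM, hb⟩ := hg.norm_le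
  refine (integrable_exp_abs.const_mul M).mono' (phi_meas hg.1).aestronglyMeasurable ?_
  exact Eventually.of_forall fun u => phi_bound hb u

lemma phi_memLp {g : ℝ → ℂ} (hg : Adm g) : MemLp (phi g) 2 := by
  obtain ⟨M, hM, hb⟩ := hg.norm_le
  rw [memLp_two_iff_integrable_sq_norm (phi_meas hg.1).aestronglyMeasurable]
  refine ((phi_int hg).norm.const_mul M).mono'
    ((phi_meas hg.1).norm.pow_const 2).aestronglyMeasurable ?_
  refine Eventually.of_forall fun u => ?_
  rw [Real.norm_of_nonneg (by positivity), sq]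
  refine mul_le_mul_of_nonneg_right ((phi_bound hb u).trans ?_) (norm_nonneg _)
  have : Real.exp (-(1 / 2) * |u|) ≤ 1 := by
    rw [Real.exp_le_one_iff]
    have := abs_nonneg u
    linarith
  nlinarith

lemma sq_eLpNorm {α : Type*} [MeasurableSpace α] (μ : Measure α) (f : α → ℂ) :
    eLpNorm f 2 μ ^ 2 = ∫⁻ x, ‖f x‖ₑ ^ 2 ∂μ := by
  have h := eLpNorm_nnreal_pow_eq_lintegral (μ := μ) (f := f) (p := 2) two_ne_zero
  simpa using h

lemma lint_phi (g : ℝ → ℂ) :
    ∫⁻ t in Ioi (0 : ℝ), ‖g t‖ₑ ^ 2 = ∫⁻ u, ‖phi g u‖ₑ ^ 2 := by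
  have himg : Real.exp ∘ Neg.neg '' univ = Ioi (0 : ℝ) := by
    rw [Set.image_comp, Set.image_univ_of_surjective neg_surjective, Set.image_univ,
      Real.range_exp]
  rw [← himg, lintegral_image_eq_lintegral_abs_deriv_mul (f' := fun x => -Real.exp (-x))
    MeasurableSet.univ (fun x _ => mul_neg_one (Real.exp (-x)) ▸
      ((Real.hasDerivAt_exp (-x)).comp x (hasDerivAt_neg x)).hasDerivWithinAt)
    (Real.exp_injective.injOn.comp neg_injective.injOn (univ.mapsTo_univ _)),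
    Measure.restrict_univ]
  refine lintegral_congr fun u => ?_
  unfold phi
  rw [enorm_smul, mul_pow, abs_neg, abs_of_pos (Real.exp_pos _)]
  congr 1
  rw [Real.enorm_eq_ofReal (Real.exp_pos _).le, ← ENNReal.ofReal_pow (Real.exp_pos _).le,
    ← Real.exp_nat_mul]
  congr 2
  push_cast
  ring

lemma Adm.memLp {g : ℝ → ℂ} (hg : Adm g) : MemLp g 2 (volume.restrict (Ioi 0)) := by
  refine ⟨hg.1.aestronglyMeasurable, ?_⟩
  have h1 : eLpNorm g 2 (volume.restrict (Ioi 0)) ^ 2 < ∞ := by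
    rw [sq_eLpNorm, lint_phi, ← sq_eLpNorm]
    exact ENNReal.pow_lt_top (phi_memLp hg).2
  exact lt_top_iff_ne_top.2 fun h => by simp [h] at h1

/-- Plancherel's theorem for the Mellin transform -/
theorem plancherel {g : ℝ → ℂ} (hg : Adm g) :
    ∫⁻ t in Ioi (0 : ℝ), ‖g t‖ₑ ^ 2 =
      ENNReal.ofReal (1 / (2 * Real.pi)) * ∫⁻ τ : ℝ, ‖mellin g (1 / 2 + τ * I)‖ₑ ^ 2 := by
  have h1 := Pool.Agent.H25.Plancherel.eLpNorm_fourier_eq (phi_int hg) (phi_memLp hg)
  have h2 : ∫⁻ v, ‖𝓕 (phi g) v‖ₑ ^ 2 = ∫⁻ u, ‖phi g u‖ₑ ^ 2 := by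
    rw [← sq_eLpNorm, ← sq_eLpNorm, h1]
  have h3 : ∫⁻ t in Ioi (0 : ℝ), ‖g t‖ₑ ^ 2 = ∫⁻ u, ‖phi g u‖ₑ ^ 2 := lint_phi g
  have h4 : ∀ τ : ℝ, mellin g (1 / 2 + τ * I) = 𝓕 (phi g) (τ / (2 * Real.pi)) := by
    intro τ
    rw [mellin_eq_fourier]
    have e1 : ((1 / 2 + τ * I : ℂ)).re = 1 / 2 := by simp
    have e2 : ((1 / 2 + τ * I : ℂ)).im = τ := by simp
    rw [e1, e2]
    rfl
  rw [h3, ← h2]
  simp_rw [h4]
  have hcont : Measurable (fun v : ℝ => ‖𝓕 (phi g) v‖ₑ ^ 2) := by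
    have : Continuous (𝓕 (phi g)) := by
      have := VectorFourier.fourierIntegral_continuous (V := ℝ) (W := ℝ)
        Real.continuous_fourierChar (L := innerₗ ℝ) continuous_inner (phi_int hg)
      exact this
    exact this.measurable.enorm.pow_const 2
  have hpi : (0 : ℝ) < 2 * Real.pi := by positivity
  have h5 : ∫⁻ τ : ℝ, ‖𝓕 (phi g) (τ / (2 * Real.pi))‖ₑ ^ 2 =
      ENNReal.ofReal (2 * Real.pi) * ∫⁻ v, ‖𝓕 (phi g) v‖ₑ ^ 2 := by
    have e : ∫⁻ τ : ℝ, ‖𝓕 (phi g) (τ / (2 * Real.pi))‖ₑ ^ 2 =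
        ∫⁻ v, ‖𝓕 (phi g) v‖ₑ ^ 2 ∂(Measure.map (fun τ : ℝ => τ * (2 * Real.pi)⁻¹) volume) := by
      rw [lintegral_map hcont (by fun_prop)]
      rfl
    rw [e, Real.map_volume_mul_right (by positivity), lintegral_smul_measure, inv_inv,
      abs_of_pos hpi, smul_eq_mul]
  rw [h5, ← mul_assoc, ← ENNReal.ofReal_mul (by positivity)]
  rw [show 1 / (2 * Real.pi) * (2 * Real.pi) = 1 by field_simp]
  simp

end Pool.Agent.NBL
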