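import Mathlib

/-!
# Nyman–Beurling functions and the growth of the zeta function: definitions
-/

set_option autoImplicit false

open MeasureTheory Set

namespace Pool.Agent.NBL

/-- `ζ(1/2 + it) = O(|t| ^ (A + ε))` for every `ε > 0`; for `A = 0` the Lindelöf hypothesis -/
def Mu (A : ℝ) : Prop :=
  ∀ ε : ℝ, 0 < ε → ∃ C : ℝ, ∀ t : ℝ,
    ‖riemannZeta (1 / 2 + t * Complex.I)‖ ≤ C * (1 + |t|) ^ (A + ε)

/-- the difference of two consecutive Nyman–Beurling functions -/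
noncomputable def h (n : ℕ) (t : ℝ) : ℝ :=
  Int.fract (1 / (n * t)) - Int.fract (1 / ((n + 1) * t))

/-- the functions `n ^ (1 - B) h_n`, `B > A`, have the Bessel property in `L²(0, ∞)` -/
def Bessel (A : ℝ) : Prop :=
  ∀ B : ℝ, A < B → ∃ C : ℝ, ∀ N : ℕ, 1 ≤ N → ∀ a : ℕ → ℂ,
    ∫ t in Ioi (0 : ℝ), ‖∑ n ∈ Finset.Ico N (2 * N), a n * (h n t : ℂ)‖ ^ 2 ≤
      C * (N : ℝ) ^ (2 * B - 2) * ∑ n ∈ Finset.Ico N (2 * N), ‖a n‖ ^ 2

/-- alternating sums of the fractional parts `{m / k i}` for all increasing sequences `k` -/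
def Alternating (A : ℝ) : Prop :=
  ∀ B : ℝ, A < B → B < 1 / 2 → ∃ C : ℝ, ∀ k : ℕ → ℕ, StrictMono k → 0 < k 0 → ∀ r M : ℕ,
    ∑ m ∈ Finset.Icc 1 M,
        (∑ i ∈ Finset.range r, (-1 : ℝ) ^ i * Int.fract ((m : ℝ) / k i)) ^ 2 / (m : ℝ) ^ 2 ≤
      C * (k 0 : ℝ) ^ (2 * B - 1)

end Pool.Agent.NBL
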