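import Mathlib

/-!
# A mean value theorem with Gaussian weight
-/

set_option autoImplicit false

open MeasureTheory Complex Set Filter Topology
open scoped ENNReal ComplexConjugate

namespace Pool.Agent.NBL

/-- the theta constant -/
noncomputable def thS : ℝ := ∑' d : ℤ, Real.exp (-(d : ℝ) ^ 2 / 16)

lemma thS_summable : Summable fun d : ℤ => Real.exp (-(d : ℝ) ^ 2 / 16) := by
  have h0 : Summable fun n : ℕ => Real.exp (-((n : ℝ)) ^ 2 / 16) := by
    have hg : Summable fun n : ℕ => Real.exp (-(1 / 16)) ^ n :=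
      summable_geometric_of_lt_one (Real.exp_pos _).le (by rw [Real.exp_lt_one_iff]; norm_num)
    refine Summable.of_nonneg_of_le (fun n => (Real.exp_pos _).le) (fun n => ?_) hg
    rw [← Real.exp_nat_mul]
    apply Real.exp_le_exp.2
    have : (n : ℝ) ≤ (n : ℝ) ^ 2 := by
      rcases Nat.eq_zero_or_pos n with h | h
      · simp [h]
      · have : (1 : ℝ) ≤ n := by exact_mod_cast h
        nlinarith
    linarith
  refine Summable.of_nat_of_neg ?_ ?_
  · simpa using h0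
  · simpa using h0

lemma thS_row (s : Finset ℕ) (j : ℕ) :
    ∑ k ∈ s, Real.exp (-((j : ℝ) - k) ^ 2 / 16) ≤ thS := by
  have hinj : Function.Injective (fun k : ℕ => (j : ℤ) - k) := by
    intro a b h
    simp only at h
    omega
  have h1 : ∑ k ∈ s, Real.exp (-((j : ℝ) - k) ^ 2 / 16) =
      ∑ d ∈ s.map ⟨_, hinj⟩, Real.exp (-(d : ℝ) ^ 2 / 16) := by
    rw [Finset.sum_map]
    refine Finset.sum_congr rfl fun k _ => ?_
    simp
  rw [h1]
  exact thS_summable.sum_le_tsum _ fun d _ => (Real.exp_pos _).le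

lemma thS_pos : 0 < thS := by
  have := thS_row {0} 0
  simp at this
  linarith

lemma gauss_pair {T : ℝ} (hT : 0 < T) (w : ℝ) :
    Integrable (fun t : ℝ => cexp (((w * t : ℝ) : ℂ) * I) * ((Real.exp (-(t / T) ^ 2) : ℝ) : ℂ)) ∧
    ‖∫ t : ℝ, cexp (((w * t : ℝ) : ℂ) * I) * ((Real.exp (-(t / T) ^ 2) : ℝ) : ℂ)‖ =
      √Real.pi * T * Real.exp (-(T * w) ^ 2 / 4) := by
  have hb : 0 < ((1 / T ^ 2 : ℝ) : ℂ).re := by
    rw [ofReal_re]
    positivity
  have e : ∀ t : ℝ, cexp (((w * t : ℝ) : ℂ) * I) * ((Real.exp (-(t / T) ^ 2) : ℝ) : ℂ) =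
      cexp (I * w * t) * cexp (-((1 / T ^ 2 : ℝ) : ℂ) * t ^ 2) := by
    intro t
    push_cast
    congr 2
    · ring
    · field_simp
  constructor
  · have h1 : Integrable (fun t : ℝ => Real.exp (-(t / T) ^ 2)) := by
      have : Integrable (fun t : ℝ => Real.exp (-(1 / T ^ 2) * t ^ 2)) :=
        integrable_exp_neg_mul_sq (by positivity)
      refine this.congr (Eventually.of_forall fun t => ?_)
      simp only
      congr 1
      field_simp
    refine Integrable.mono' h1 (by fun_prop) (Eventually.of_forall fun t => ?_)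
    rw [norm_mul, norm_exp_ofReal_mul_I, one_mul, norm_real, Real.norm_of_nonneg (Real.exp_pos _).le]
  · simp_rw [e]
    rw [fourierIntegral_gaussian hb, norm_mul]
    have e1 : ((Real.pi : ℂ) / ((1 / T ^ 2 : ℝ) : ℂ)) ^ (1 / 2 : ℂ) =
        (((Real.pi * T ^ 2) ^ (1 / 2 : ℝ) : ℝ) : ℂ) := by
      rw [ofReal_cpow (by positivity)]
      push_cast
      congr 1
      field_simp
    rw [e1, norm_real, Real.norm_of_nonneg (by positivity), ← Real.sqrt_eq_rpow,
      Real.sqrt_mul Real.pi_pos.le, Real.sqrt_sq hT.le]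
    congr 1
    have e2 : (-(w : ℂ) ^ 2 / (4 * ((1 / T ^ 2 : ℝ) : ℂ))) = ((-(T * w) ^ 2 / 4 : ℝ) : ℂ) := by
      push_cast
      field_simp
    rw [e2, norm_exp_ofReal]

/-- Gaussian mean value theorem -/
theorem gauss_mean {s : Finset ℕ} {b : ℕ → ℂ} {lam : ℕ → ℝ} {T : ℝ} (hT : 0 < T)
    (hsep : ∀ j ∈ s, ∀ k ∈ s, |(j : ℝ) - k| ≤ 2 * T * |lam j - lam k|) :
    Integrable (fun t : ℝ => ‖∑ k ∈ s, b k * cexp (((lam k * t : ℝ) : ℂ) * I)‖ ^ 2 *
      Real.exp (-(t / T) ^ 2)) ∧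
    ∫ t : ℝ, ‖∑ k ∈ s, b k * cexp (((lam k * t : ℝ) : ℂ) * I)‖ ^ 2 * Real.exp (-(t / T) ^ 2) ≤
      √Real.pi * T * thS * ∑ k ∈ s, ‖b k‖ ^ 2 := by
  set F : ℝ → ℂ := fun t => ∑ k ∈ s, b k * cexp (((lam k * t : ℝ) : ℂ) * I) with hF
  have hexp : ∀ t : ℝ, ((‖F t‖ ^ 2 * Real.exp (-(t / T) ^ 2) : ℝ) : ℂ) =
      ∑ j ∈ s, ∑ k ∈ s, (b j * conj (b k)) *
        (cexp ((((lam j - lam k) * t : ℝ) : ℂ) * I) * ((Real.exp (-(t / T) ^ 2) : ℝ) : ℂ)) := by
    intro t
    have h1 : ((‖F t‖ ^ 2 : ℝ) : ℂ) = F t * conj (F t) := by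
      rw [mul_conj, normSq_eq_norm_sq]
    rw [ofReal_mul, h1]
    simp only [hF, map_sum]
    rw [Finset.sum_mul_sum, Finset.sum_mul]
    refine Finset.sum_congr rfl fun j _ => ?_
    rw [Finset.sum_mul]
    refine Finset.sum_congr rfl fun k _ => ?_
    rw [map_mul, ← exp_conj, map_mul, conj_I, conj_ofReal]
    have : cexp ((((lam j - lam k) * t : ℝ) : ℂ) * I) =
        cexp (((lam j * t : ℝ) : ℂ) * I) * cexp (((lam k * t : ℝ) : ℂ) * -I) := by
      rw [← Complex.exp_add]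
      congr 1
      push_cast
      ring
    rw [this]
    ring
  have hint : Integrable (fun t : ℝ => ((‖F t‖ ^ 2 * Real.exp (-(t / T) ^ 2) : ℝ) : ℂ)) := by
    simp_rw [hexp]
    refine integrable_finsetSum _ fun j _ => integrable_finsetSum _ fun k _ => ?_
    exact (gauss_pair hT _).1.const_mul _
  have hint' : Integrable (fun t : ℝ => ‖F t‖ ^ 2 * Real.exp (-(t / T) ^ 2)) := by
    have := hint.re
    refine this.congr (Eventually.of_forall fun t => ?_)
    exact ofReal_re _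
  refine ⟨hint', ?_⟩
  have hval : ((∫ t : ℝ, ‖F t‖ ^ 2 * Real.exp (-(t / T) ^ 2) : ℝ) : ℂ) =
      ∑ j ∈ s, ∑ k ∈ s, (b j * conj (b k)) * ∫ t : ℝ,
        (cexp ((((lam j - lam k) * t : ℝ) : ℂ) * I) * ((Real.exp (-(t / T) ^ 2) : ℝ) : ℂ)) := by
    rw [← integral_complex_ofReal]
    simp_rw [hexp]
    rw [integral_finsetSum _ fun j _ => integrable_finsetSum _ fun k _ =>
      (gauss_pair hT _).1.const_mul _]
    refine Finset.sum_congr rfl fun j _ => ?_
    rw [integral_finsetSum _ fun k _ => (gauss_pair hT _).1.const_mul _]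
    refine Finset.sum_congr rfl fun k _ => ?_
    rw [integral_const_mul]
  have hle : ∫ t : ℝ, ‖F t‖ ^ 2 * Real.exp (-(t / T) ^ 2) ≤
      ∑ j ∈ s, ∑ k ∈ s, ‖b j‖ * ‖b k‖ *
        (√Real.pi * T * Real.exp (-((j : ℝ) - k) ^ 2 / 16)) := by
    have h0 : 0 ≤ ∫ t : ℝ, ‖F t‖ ^ 2 * Real.exp (-(t / T) ^ 2) :=
      integral_nonneg fun t => by positivity
    calc ∫ t : ℝ, ‖F t‖ ^ 2 * Real.exp (-(t / T) ^ 2)
        = ‖((∫ t : ℝ, ‖F t‖ ^ 2 * Real.exp (-(t / T) ^ 2) : ℝ) : ℂ)‖ := by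
          rw [norm_real, Real.norm_of_nonneg h0]
      _ ≤ _ := by
          rw [hval]
          refine (norm_sum_le _ _).trans (Finset.sum_le_sum fun j hj => ?_)
          refine (norm_sum_le _ _).trans (Finset.sum_le_sum fun k hk => ?_)
          rw [norm_mul, norm_mul, norm_conj, (gauss_pair hT _).2]
          refine mul_le_mul_of_nonneg_left ?_ (by positivity)
          refine mul_le_mul_of_nonneg_left ?_ (by positivity)
          apply Real.exp_le_exp.2
          have h1 := hsep j hj k hk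
          have h2 : ((j : ℝ) - k) ^ 2 ≤ (2 * T * |lam j - lam k|) ^ 2 := by
            rw [← sq_abs ((j : ℝ) - k)]
            exact pow_le_pow_left₀ (abs_nonneg _) h1 2
          rw [mul_pow, sq_abs, mul_pow] at h2
          have h3 : (T * (lam j - lam k)) ^ 2 = T ^ 2 * (lam j - lam k) ^ 2 := mul_pow _ _ _
          rw [h3]
          linarith
  refine hle.trans ?_
  have hsym : ∀ j ∈ s, ∀ k ∈ s, ‖b j‖ * ‖b k‖ *
        (√Real.pi * T * Real.exp (-((j : ℝ) - k) ^ 2 / 16)) ≤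
      (√Real.pi * T / 2) * (‖b j‖ ^ 2 * Real.exp (-((j : ℝ) - k) ^ 2 / 16)) +
      (√Real.pi * T / 2) * (‖b k‖ ^ 2 * Real.exp (-((k : ℝ) - j) ^ 2 / 16)) := by
    intro j _ k _
    have h1 : ‖b j‖ * ‖b k‖ ≤ (‖b j‖ ^ 2 + ‖b k‖ ^ 2) / 2 := by nlinarith [sq_nonneg (‖b j‖ - ‖b k‖)]
    have h2 : ((k : ℝ) - j) ^ 2 = ((j : ℝ) - k) ^ 2 := by ring
    rw [h2]
    calc ‖b j‖ * ‖b k‖ * (√Real.pi * T * Real.exp (-((j : ℝ) - k) ^ 2 / 16))
        ≤ (‖b j‖ ^ 2 + ‖b k‖ ^ 2) / 2 * (√Real.pi * T * Real.exp (-((j : ℝ) - k) ^ 2 / 16)) :=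
          mul_le_mul_of_nonneg_right h1 (by positivity)
      _ = _ := by ring
  refine (Finset.sum_le_sum fun j hj => Finset.sum_le_sum fun k hk => hsym j hj k hk).trans ?_
  simp_rw [Finset.sum_add_distrib]
  have hA : ∑ j ∈ s, ∑ k ∈ s, (√Real.pi * T / 2) *
      (‖b j‖ ^ 2 * Real.exp (-((j : ℝ) - k) ^ 2 / 16)) ≤
      (√Real.pi * T / 2) * (thS * ∑ k ∈ s, ‖b k‖ ^ 2) := by
    rw [Finset.mul_sum, Finset.mul_sum]
    refine Finset.sum_le_sum fun j _ => ?_
    rw [← Finset.mul_sum, ← Finset.mul_sum]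
    refine mul_le_mul_of_nonneg_left ?_ (by positivity)
    rw [mul_comm thS]
    exact mul_le_mul_of_nonneg_left (thS_row s j) (by positivity)
  have hB : ∑ j ∈ s, ∑ k ∈ s, (√Real.pi * T / 2) *
      (‖b k‖ ^ 2 * Real.exp (-((k : ℝ) - j) ^ 2 / 16)) ≤
      (√Real.pi * T / 2) * (thS * ∑ k ∈ s, ‖b k‖ ^ 2) := by
    rw [Finset.sum_comm]
    exact hA
  calc _ ≤ (√Real.pi * T / 2) * (thS * ∑ k ∈ s, ‖b k‖ ^ 2) +
        (√Real.pi * T / 2) * (thS * ∑ k ∈ s, ‖b k‖ ^ 2) := add_le_add hA hB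
    _ = √Real.pi * T * thS * ∑ k ∈ s, ‖b k‖ ^ 2 := by ring

lemma log_sep {N : ℕ} (hN : 1 ≤ N) {T : ℝ} (hT : (N : ℝ) ≤ T) :
    ∀ j ∈ Finset.Icc N (2 * N), ∀ k ∈ Finset.Icc N (2 * N),
      |(j : ℝ) - k| ≤ 2 * T * |-Real.log j - -Real.log k| := by
  have hN' : (1 : ℝ) ≤ N := by exact_mod_cast hN
  have main : ∀ j k : ℕ, N ≤ j → j ≤ k → k ≤ 2 * N →
      (k : ℝ) - j ≤ 2 * T * (Real.log k - Real.log j) := by
    intro j k h1 h2 h3
    have h1' : (N : ℝ) ≤ j := by exact_mod_cast h1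
    have h2' : (j : ℝ) ≤ k := by exact_mod_cast h2
    have h3' : (k : ℝ) ≤ 2 * N := by exact_mod_cast h3
    have hj : (0 : ℝ) < j := by linarith
    have hk : (0 : ℝ) < k := by linarith
    have h4 := Real.one_sub_inv_le_log_of_pos (div_pos hk hj)
    rw [Real.log_div hk.ne' hj.ne', inv_div] at h4
    have h5 : ((k : ℝ) - j) / (2 * T) ≤ 1 - j / k := by
      have : (1 : ℝ) - j / k = (k - j) / k := by field_simp
      rw [this]
      apply div_le_div_of_nonneg_left (by linarith) hk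
      linarith
    have hT0 : 0 < 2 * T := by linarith
    calc (k : ℝ) - j = 2 * T * (((k : ℝ) - j) / (2 * T)) := by
          rw [mul_div_cancel₀ _ hT0.ne']
      _ ≤ 2 * T * (Real.log k - Real.log j) := mul_le_mul_of_nonneg_left (h5.trans h4) hT0.le
  intro j hj k hk
  rw [Finset.mem_Icc] at hj hk
  rcases le_total j k with h | h
  · have h1 := main j k hj.1 h hk.2
    have h2 : (j : ℝ) ≤ k := by exact_mod_cast h
    have h3 : Real.log j ≤ Real.log k := Real.log_le_log (by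
      have : (N : ℝ) ≤ j := by exact_mod_cast hj.1
      linarith) h2
    rw [abs_sub_comm, abs_of_nonneg (by linarith : (0 : ℝ) ≤ k - j),
      show -Real.log j - -Real.log k = Real.log k - Real.log j by ring,
      abs_of_nonneg (by linarith)]
    exact h1
  · have h1 := main k j hk.1 h hj.2
    have h2 : (k : ℝ) ≤ j := by exact_mod_cast h
    have h3 : Real.log k ≤ Real.log j := Real.log_le_log (by
      have : (N : ℝ) ≤ k := by exact_mod_cast hk.1
      linarith) h2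
    rw [abs_of_nonneg (by linarith : (0 : ℝ) ≤ j - k),
      show -Real.log j - -Real.log k = -(Real.log j - Real.log k) by ring, abs_neg,
      abs_of_nonneg (by linarith)]
    exact h1

/-- the constant of the mean value theorem -/
noncomputable def Kmv : ℝ := Real.exp 1 * (√Real.pi * thS)

lemma Kmv_pos : 0 < Kmv := by
  unfold Kmv
  have := thS_pos
  positivity

/-- mean value theorem for Dirichlet polynomials on long intervals -/
theorem mean_value {N : ℕ} (hN : 1 ≤ N) {T : ℝ} (hT : (N : ℝ) ≤ T) (c : ℕ → ℂ) :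
    ∫⁻ t in Icc (-T) T, ‖∑ k ∈ Finset.Icc N (2 * N), c k * (k : ℂ) ^ (-(1 / 2 + t * I))‖ₑ ^ 2 ≤
      ENNReal.ofReal (Kmv * T * ((1 / N) * ∑ k ∈ Finset.Icc N (2 * N), ‖c k‖ ^ 2)) := by
  have hN' : (1 : ℝ) ≤ N := by exact_mod_cast hN
  have hT0 : 0 < T := by linarith
  set s := Finset.Icc N (2 * N) with hs
  set b : ℕ → ℂ := fun k => c k * ((k : ℝ) ^ (-(1 / 2) : ℝ) : ℝ) with hb
  set F : ℝ → ℂ := fun t => ∑ k ∈ s, b k * cexp (((-Real.log k * t : ℝ) : ℂ) * I) with hF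
  have hFeq : ∀ t : ℝ, ∑ k ∈ s, c k * (k : ℂ) ^ (-(1 / 2 + t * I)) = F t := by
    intro t
    refine Finset.sum_congr rfl fun k hk => ?_
    rw [hs, Finset.mem_Icc] at hk
    have hk0 : (0 : ℝ) < k := by
      have : (N : ℝ) ≤ k := by exact_mod_cast hk.1
      linarith
    have hk1 : (k : ℂ) ≠ 0 := by exact_mod_cast hk0.ne'
    simp only [hb]
    rw [mul_assoc]
    congr 1
    rw [show (-(1 / 2 + t * I) : ℂ) = ((-(1 / 2) : ℝ) : ℂ) + ((-t : ℝ) : ℂ) * I by push_cast; ring,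
      cpow_add _ _ hk1]
    congr 1
    · rw [ofReal_cpow hk0.le]
      push_cast
      rfl
    · rw [cpow_def_of_ne_zero hk1, ← natCast_log]
      congr 1
      push_cast
      ring
  obtain ⟨hi, hg⟩ := gauss_mean (s := s) (b := b) (lam := fun k => -Real.log k) hT0
    (log_sep hN hT)
  have hFc : Continuous F := by
    simp only [hF]
    fun_prop
  have h1 : ∫⁻ t in Icc (-T) T, ‖∑ k ∈ s, c k * (k : ℂ) ^ (-(1 / 2 + t * I))‖ₑ ^ 2 ≤
      ∫⁻ t, ENNReal.ofReal (Real.exp 1 * (‖F t‖ ^ 2 * Real.exp (-(t / T) ^ 2))) := by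
    refine (setLIntegral_mono' (g := fun t => ENNReal.ofReal (Real.exp 1 * (‖F t‖ ^ 2 *
      Real.exp (-(t / T) ^ 2)))) measurableSet_Icc fun t ht => ?_).trans
      (setLIntegral_le_lintegral _ _)
    rw [hFeq, ← ofReal_norm, ← ENNReal.ofReal_pow (norm_nonneg _)]
    apply ENNReal.ofReal_le_ofReal
    have h2 : 1 ≤ Real.exp 1 * Real.exp (-(t / T) ^ 2) := by
      rw [← Real.exp_add]
      apply Real.one_le_exp
      have : (t / T) ^ 2 ≤ 1 := by
        rw [sq_le_one_iff_abs_le_one, abs_div, abs_of_pos hT0, div_le_one hT0, abs_le]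
        exact ht
      linarith
    nlinarith [sq_nonneg ‖F t‖]
  refine h1.trans ?_
  rw [← ofReal_integral_eq_lintegral_ofReal (hi.const_mul _)
    (Eventually.of_forall fun t => by positivity)]
  apply ENNReal.ofReal_le_ofReal
  rw [integral_const_mul]
  have hsum : ∑ k ∈ s, ‖b k‖ ^ 2 ≤ (1 / N) * ∑ k ∈ s, ‖c k‖ ^ 2 := by
    rw [Finset.mul_sum]
    refine Finset.sum_le_sum fun k hk => ?_
    rw [hs, Finset.mem_Icc] at hk
    have hk0 : (N : ℝ) ≤ k := by exact_mod_cast hk.1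
    have hk1 : (0 : ℝ) < k := by linarith
    simp only [hb]
    rw [norm_mul, mul_pow, norm_real, Real.norm_of_nonneg (by positivity), ← Real.rpow_natCast,
      ← Real.rpow_natCast, ← Real.rpow_mul hk1.le, mul_comm]
    norm_num
    rw [Real.rpow_neg_one]
    apply mul_le_mul_of_nonneg_right _ (by positivity)
    exact inv_anti₀ (by linarith) hk0
  have hth := thS_pos
  calc Real.exp 1 * ∫ t : ℝ, ‖F t‖ ^ 2 * Real.exp (-(t / T) ^ 2)
      ≤ Real.exp 1 * (√Real.pi * T * thS * ∑ k ∈ s, ‖b k‖ ^ 2) :=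
        mul_le_mul_of_nonneg_left hg (Real.exp_pos _).le
    _ ≤ Real.exp 1 * (√Real.pi * T * thS * ((1 / N) * ∑ k ∈ s, ‖c k‖ ^ 2)) := by
        refine mul_le_mul_of_nonneg_left ?_ (Real.exp_pos _).le
        exact mul_le_mul_of_nonneg_left hsum (by positivity)
    _ = Kmv * T * ((1 / N) * ∑ k ∈ s, ‖c k‖ ^ 2) := by
        unfold Kmv
        ring

end Pool.Agent.NBL
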