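import Mathlib
import Pool.Agent.NBL.Adm
import Pool.Agent.NBL.Mean

/-!
# The upper bound
-/

set_option autoImplicit false

open MeasureTheory Complex Set Filter Topology
open scoped ENNReal

namespace Pool.Agent.NBL

/-- the Dirichlet polynomial on the critical line -/
noncomputable def Dp (s : Finset ℕ) (c : ℕ → ℂ) (t : ℝ) : ℂ :=
  ∑ k ∈ s, c k * (k : ℂ) ^ (-(1 / 2 + t * I))

lemma mellin_nb_sum {s : Finset ℕ} (hs : ∀ k ∈ s, 0 < k) (c : ℕ → ℂ) (t : ℝ) :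
    mellin (fun x => ∑ k ∈ s, c k * nb k x) (1 / 2 + t * I) =
      -(riemannZeta (1 / 2 + t * I) * (Dp s c t / (1 / 2 + t * I))) := by
  have h0 : 0 < (1 / 2 + t * I : ℂ).re := by simp
  have h1 : (1 / 2 + t * I : ℂ).re < 1 := by simp; norm_num
  rw [mellin_sum s c (fun k hk => adm_nb (hs k hk)) h0 h1, Dp]
  rw [Finset.sum_div, Finset.mul_sum, ← Finset.sum_neg_distrib]
  refine Finset.sum_congr rfl fun k hk => ?_
  rw [nb_mellin (hs k hk) h0 h1]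
  ring

lemma mellin_ch_sum {s : Finset ℕ} (hs : ∀ k ∈ s, 0 < k) (c : ℕ → ℂ) (t : ℝ) :
    mellin (fun x => ∑ k ∈ s, c k * ch k x) (1 / 2 + t * I) = Dp s c t / (1 / 2 + t * I) := by
  have h0 : 0 < (1 / 2 + t * I : ℂ).re := by simp
  have h1 : (1 / 2 + t * I : ℂ).re < 1 := by simp; norm_num
  rw [mellin_sum s c (fun k hk => adm_ch (hs k hk)) h0 h1, Dp]
  rw [Finset.sum_div]
  refine Finset.sum_congr rfl fun k hk => ?_
  rw [ch_mellin (hs k hk) h0]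
  ring

lemma adm_nb_sum {s : Finset ℕ} (hs : ∀ k ∈ s, 0 < k) (c : ℕ → ℂ) :
    Adm (fun x => ∑ k ∈ s, c k * nb k x) :=
  Adm.sum s fun k hk => (adm_nb (hs k hk)).mul (c k)

lemma adm_ch_sum {s : Finset ℕ} (hs : ∀ k ∈ s, 0 < k) (c : ℕ → ℂ) :
    Adm (fun x => ∑ k ∈ s, c k * ch k x) :=
  Adm.sum s fun k hk => (adm_ch (hs k hk)).mul (c k)

lemma half_norm (t : ℝ) : |t| ≤ ‖(1 / 2 + t * I : ℂ)‖ ∧ 1 / 2 ≤ ‖(1 / 2 + t * I : ℂ)‖ ∧
    ‖(1 / 2 + t * I : ℂ)‖ ≤ 1 / 2 + |t| := by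
  refine ⟨?_, ?_, ?_⟩
  · have := abs_im_le_norm (1 / 2 + t * I : ℂ)
    simpa using this
  · have := abs_re_le_norm (1 / 2 + t * I : ℂ)
    simpa using this
  · refine (norm_add_le _ _).trans ?_
    simp

lemma enorm_sq (z : ℂ) : ‖z‖ₑ ^ 2 = ENNReal.ofReal (‖z‖ ^ 2) := by
  rw [← ofReal_norm, ← ENNReal.ofReal_pow (norm_nonneg _)]

theorem upper {B C : ℝ} (hB0 : 0 ≤ B) (hB : B < 1 / 2) (hC : 0 ≤ C)
    (hz : ∀ t : ℝ, ‖riemannZeta (1 / 2 + t * I)‖ ≤ C * (1 + |t|) ^ B) :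
    ∃ K : ℝ, 0 ≤ K ∧ ∀ N : ℕ, 1 ≤ N → ∀ c : ℕ → ℂ,
      ∫⁻ t in Ioi (0 : ℝ), ‖∑ k ∈ Finset.Icc N (2 * N), c k * nb k t‖ₑ ^ 2 ≤
        ENNReal.ofReal K * (ENNReal.ofReal ((N : ℝ) ^ (2 * B)) *
          (∫⁻ t in Ioi (0 : ℝ), ‖∑ k ∈ Finset.Icc N (2 * N), c k * ch k t‖ₑ ^ 2) +
          ENNReal.ofReal ((N : ℝ) ^ (2 * B - 2) * ∑ k ∈ Finset.Icc N (2 * N), ‖c k‖ ^ 2)) := by
  set q : ℝ := (2 : ℝ) ^ (2 * B - 1) with hq
  have hq0 : 0 < q := by positivity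
  have hq1 : q < 1 := Real.rpow_lt_one_of_one_lt_of_neg (by norm_num) (by linarith)
  have hK := Kmv_pos
  refine ⟨2 * C ^ 2 + 8 * C ^ 2 * Kmv * (1 / (1 - q)), by
    have : 0 ≤ 1 / (1 - q) := by
      apply div_nonneg zero_le_one
      linarith
    positivity, ?_⟩
  intro N hN c
  have hN' : (1 : ℝ) ≤ N := by exact_mod_cast hN
  have hN0 : (0 : ℝ) < N := by linarith
  set s := Finset.Icc N (2 * N) with hs
  have hspos : ∀ k ∈ s, 0 < k := by
    intro k hk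
    rw [hs, Finset.mem_Icc] at hk
    omega
  set G : ℝ → ℂ := fun x => ∑ k ∈ s, c k * nb k x with hG
  set F : ℝ → ℂ := fun x => ∑ k ∈ s, c k * ch k x with hF
  set X : ℝ := (1 / N) * ∑ k ∈ s, ‖c k‖ ^ 2 with hX
  have hX0 : 0 ≤ X := by positivity
  have hGp := plancherel (adm_nb_sum hspos c)
  have hFp := plancherel (adm_ch_sum hspos c)
  change ∫⁻ t in Ioi (0 : ℝ), ‖G t‖ₑ ^ 2 ≤ ENNReal.ofReal _ * (ENNReal.ofReal ((N : ℝ) ^ (2 * B)) *
          (∫⁻ t in Ioi (0 : ℝ), ‖F t‖ₑ ^ 2) + _)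
  change ∫⁻ t in Ioi (0 : ℝ), ‖G t‖ₑ ^ 2 = _ at hGp
  change ∫⁻ t in Ioi (0 : ℝ), ‖F t‖ₑ ^ 2 = _ at hFp
  set Φ : ℝ → ℝ≥0∞ := fun t => ‖mellin G (1 / 2 + t * I)‖ₑ ^ 2 with hΦ
  set Ψ : ℝ → ℝ≥0∞ := fun t => ‖mellin F (1 / 2 + t * I)‖ₑ ^ 2 with hΨ
  -- the pointwise bounds
  have hΦ1 : ∀ t : ℝ, Φ t = ‖riemannZeta (1 / 2 + t * I)‖ₑ ^ 2 * Ψ t := by
    intro t
    simp only [hΦ, hΨ, hG, hF]
    rw [mellin_nb_sum hspos, mellin_ch_sum hspos, enorm_neg, enorm_mul, mul_pow]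
  have hlow : ∀ t ∈ Icc (-(N : ℝ)) N, Φ t ≤ ENNReal.ofReal (2 * C ^ 2 * (N : ℝ) ^ (2 * B)) * Ψ t := by
    intro t ht
    rw [hΦ1]
    refine mul_le_mul_left ?_ _
    rw [enorm_sq]
    apply ENNReal.ofReal_le_ofReal
    have h1 : |t| ≤ N := abs_le.2 ht
    have h2 : ‖riemannZeta (1 / 2 + t * I)‖ ≤ C * (2 * N) ^ B :=
      (hz t).trans (mul_le_mul_of_nonneg_left
        (Real.rpow_le_rpow (by positivity) (by linarith) hB0) hC)
    calc ‖riemannZeta (1 / 2 + t * I)‖ ^ 2 ≤ (C * (2 * N) ^ B) ^ 2 :=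
          pow_le_pow_left₀ (norm_nonneg _) h2 2
      _ = C ^ 2 * (2 : ℝ) ^ (2 * B) * (N : ℝ) ^ (2 * B) := by
          rw [mul_pow, ← Real.rpow_natCast, ← Real.rpow_natCast ((2 * (N : ℝ)) ^ B),
            ← Real.rpow_mul (by positivity), Real.mul_rpow (by norm_num) hN0.le]
          push_cast
          rw [mul_comm B 2]
          ring
      _ ≤ C ^ 2 * 2 * (N : ℝ) ^ (2 * B) := by
          have h3 : (2 : ℝ) ^ (2 * B) ≤ 2 := by
            calc (2 : ℝ) ^ (2 * B) ≤ (2 : ℝ) ^ (1 : ℝ) :=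
                  Real.rpow_le_rpow_of_exponent_le (by norm_num) (by linarith)
              _ = 2 := Real.rpow_one 2
          gcongr
      _ = 2 * C ^ 2 * (N : ℝ) ^ (2 * B) := by ring
  set Bl : ℕ → Set ℝ := fun j => {t : ℝ | 2 ^ j * (N : ℝ) ≤ |t| ∧ |t| ≤ 2 ^ (j + 1) * N} with hBl
  have hBlm : ∀ j, MeasurableSet (Bl j) := by
    intro j
    exact (measurableSet_le measurable_const continuous_abs.measurable).inter
      (measurableSet_le continuous_abs.measurable measurable_const)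
  have hcover : (univ : Set ℝ) ⊆ Icc (-(N : ℝ)) N ∪ ⋃ j, Bl j := by
    intro t _
    by_cases ht : |t| ≤ N
    · exact Or.inl (abs_le.1 ht)
    · right
      rw [not_le] at ht
      have h1 : 1 ≤ |t| / N := by rw [le_div_iff₀ hN0]; linarith
      obtain ⟨n, hn1, hn2⟩ := exists_nat_pow_near h1 (one_lt_two)
      rw [mem_iUnion]
      refine ⟨n, ?_, ?_⟩
      · rwa [le_div_iff₀ hN0] at hn1
      · rw [div_lt_iff₀ hN0] at hn2
        exact hn2.le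
  have hblock : ∀ j : ℕ, ∫⁻ t in Bl j, Φ t ≤
      ENNReal.ofReal (8 * C ^ 2 * Kmv * X * (N : ℝ) ^ (2 * B - 1) * q ^ j) := by
    intro j
    set T : ℝ := 2 ^ (j + 1) * N with hT
    have hTN : (N : ℝ) ≤ T := by
      have : (1 : ℝ) ≤ 2 ^ (j + 1) := one_le_pow₀ (by norm_num)
      nlinarith
    have hT0 : 0 < T := by linarith
    have h1 : ∀ t ∈ Bl j, Φ t ≤ ENNReal.ofReal (8 * C ^ 2 * T ^ (2 * B - 2)) * ‖Dp s c t‖ₑ ^ 2 := by
      intro t ht
      obtain ⟨ht1, ht2⟩ := ht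
      have ht3 : T / 2 ≤ |t| := by
        rw [hT, pow_succ]
        linarith
      simp only [hΦ, hG]
      rw [mellin_nb_sum hspos, enorm_neg, enorm_sq, enorm_sq, ← ENNReal.ofReal_mul (by positivity)]
      apply ENNReal.ofReal_le_ofReal
      rw [norm_mul, norm_div]
      have h2 : ‖riemannZeta (1 / 2 + t * I)‖ ≤ C * (2 * T) ^ B :=
        (hz t).trans (mul_le_mul_of_nonneg_left
          (Real.rpow_le_rpow (by positivity) (by linarith) hB0) hC)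
      have h3 := (half_norm t).1
      have h4 : 0 < ‖(1 / 2 + t * I : ℂ)‖ := by linarith
      calc (‖riemannZeta (1 / 2 + t * I)‖ * (‖Dp s c t‖ / ‖(1 / 2 + t * I : ℂ)‖)) ^ 2
          ≤ (C * (2 * T) ^ B * (‖Dp s c t‖ / (T / 2))) ^ 2 := by
            apply pow_le_pow_left₀ (by positivity)
            apply mul_le_mul h2 _ (by positivity) (by positivity)
            exact div_le_div_of_nonneg_left (norm_nonneg _) (by positivity) (ht3.trans h3)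
        _ = 4 * C ^ 2 * (2 : ℝ) ^ (2 * B) * (T ^ (2 * B) / T ^ 2) * ‖Dp s c t‖ ^ 2 := by
            have e : ((2 * T) ^ B) ^ 2 = (2 : ℝ) ^ (2 * B) * T ^ (2 * B) := by
              rw [← Real.rpow_natCast, ← Real.rpow_mul (by positivity),
                Real.mul_rpow (by norm_num) hT0.le]
              push_cast
              rw [mul_comm B 2]
            rw [mul_pow, mul_pow, e]
            field_simp
            ring
        _ = 4 * C ^ 2 * (2 : ℝ) ^ (2 * B) * T ^ (2 * B - 2) * ‖Dp s c t‖ ^ 2 := by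
            rw [Real.rpow_sub hT0, Real.rpow_two]
        _ ≤ 4 * C ^ 2 * 2 * T ^ (2 * B - 2) * ‖Dp s c t‖ ^ 2 := by
            have h3 : (2 : ℝ) ^ (2 * B) ≤ 2 := by
              calc (2 : ℝ) ^ (2 * B) ≤ (2 : ℝ) ^ (1 : ℝ) :=
                    Real.rpow_le_rpow_of_exponent_le (by norm_num) (by linarith)
                _ = 2 := Real.rpow_one 2
            gcongr
        _ = 8 * C ^ 2 * T ^ (2 * B - 2) * ‖Dp s c t‖ ^ 2 := by ring
    have hsub : Bl j ⊆ Icc (-T) T := fun t ht => abs_le.1 ht.2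
    calc ∫⁻ t in Bl j, Φ t
        ≤ ∫⁻ t in Bl j, ENNReal.ofReal (8 * C ^ 2 * T ^ (2 * B - 2)) * ‖Dp s c t‖ₑ ^ 2 :=
          setLIntegral_mono' (hBlm j) h1
      _ ≤ ∫⁻ t in Icc (-T) T, ENNReal.ofReal (8 * C ^ 2 * T ^ (2 * B - 2)) * ‖Dp s c t‖ₑ ^ 2 :=
          lintegral_mono_set hsub
      _ = ENNReal.ofReal (8 * C ^ 2 * T ^ (2 * B - 2)) * ∫⁻ t in Icc (-T) T, ‖Dp s c t‖ₑ ^ 2 := by
          rw [lintegral_const_mul' _ _ ENNReal.ofReal_ne_top]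
      _ ≤ ENNReal.ofReal (8 * C ^ 2 * T ^ (2 * B - 2)) * ENNReal.ofReal (Kmv * T * X) := by
          gcongr
          exact mean_value hN hTN c
      _ = ENNReal.ofReal (8 * C ^ 2 * T ^ (2 * B - 2) * (Kmv * T * X)) := by
          rw [← ENNReal.ofReal_mul (by positivity)]
      _ ≤ ENNReal.ofReal (8 * C ^ 2 * Kmv * X * (N : ℝ) ^ (2 * B - 1) * q ^ j) := by
          apply ENNReal.ofReal_le_ofReal
          have e1 : T ^ (2 * B - 2) * T = T ^ (2 * B - 1) := by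
            rw [← Real.rpow_add_one hT0.ne']
            congr 1
            ring
          have e2 : T ^ (2 * B - 1) = q ^ (j + 1) * (N : ℝ) ^ (2 * B - 1) := by
            rw [hT, Real.mul_rpow (by positivity) hN0.le, hq, ← Real.rpow_natCast,
              ← Real.rpow_natCast, ← Real.rpow_mul (by norm_num), ← Real.rpow_mul (by norm_num)]
            congr 2
            ring
          calc 8 * C ^ 2 * T ^ (2 * B - 2) * (Kmv * T * X)
              = 8 * C ^ 2 * Kmv * X * (T ^ (2 * B - 2) * T) := by ring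
            _ = 8 * C ^ 2 * Kmv * X * (q ^ (j + 1) * (N : ℝ) ^ (2 * B - 1)) := by rw [e1, e2]
            _ ≤ 8 * C ^ 2 * Kmv * X * (q ^ j * (N : ℝ) ^ (2 * B - 1)) := by
                have : q ^ (j + 1) ≤ q ^ j := pow_le_pow_of_le_one hq0.le hq1.le (Nat.le_succ j)
                gcongr
            _ = _ := by ring
  have hfin : ∫⁻ t, Φ t ≤ ENNReal.ofReal (2 * C ^ 2 * (N : ℝ) ^ (2 * B)) * (∫⁻ t, Ψ t) +
      ENNReal.ofReal (8 * C ^ 2 * Kmv * X * (N : ℝ) ^ (2 * B - 1) * (1 / (1 - q))) := by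
    calc ∫⁻ t, Φ t = ∫⁻ t in univ, Φ t := by rw [Measure.restrict_univ]
      _ ≤ ∫⁻ t in Icc (-(N : ℝ)) N ∪ ⋃ j, Bl j, Φ t := lintegral_mono_set hcover
      _ ≤ (∫⁻ t in Icc (-(N : ℝ)) N, Φ t) + ∫⁻ t in ⋃ j, Bl j, Φ t := lintegral_union_le _ _ _
      _ ≤ (∫⁻ t in Icc (-(N : ℝ)) N, Φ t) + ∑' j, ∫⁻ t in Bl j, Φ t := by
          gcongr
          exact lintegral_iUnion_le _ _
      _ ≤ _ := by
          refine add_le_add ?_ ?_
          · calc ∫⁻ t in Icc (-(N : ℝ)) N, Φ t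
                ≤ ∫⁻ t in Icc (-(N : ℝ)) N, ENNReal.ofReal (2 * C ^ 2 * (N : ℝ) ^ (2 * B)) * Ψ t :=
                  setLIntegral_mono' measurableSet_Icc hlow
              _ ≤ ∫⁻ t, ENNReal.ofReal (2 * C ^ 2 * (N : ℝ) ^ (2 * B)) * Ψ t :=
                  setLIntegral_le_lintegral _ _
              _ = _ := by rw [lintegral_const_mul' _ _ ENNReal.ofReal_ne_top]
          · refine (ENNReal.tsum_le_tsum hblock).trans ?_
            rw [← ENNReal.ofReal_tsum_of_nonneg (fun j => by positivity)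
              ((summable_geometric_of_lt_one hq0.le hq1).mul_left _), tsum_mul_left,
              tsum_geometric_of_lt_one hq0.le hq1, one_div]
  have hpi : (0 : ℝ) < 1 / (2 * Real.pi) := by positivity
  have hpi1 : 1 / (2 * Real.pi) ≤ 1 := by
    rw [div_le_one (by positivity)]
    have := Real.pi_gt_three
    linarith
  rw [hGp]
  have hq2 : 0 ≤ 1 / (1 - q) := by
    apply div_nonneg zero_le_one
    linarith
  calc ENNReal.ofReal (1 / (2 * Real.pi)) * ∫⁻ t, Φ t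
      ≤ ENNReal.ofReal (1 / (2 * Real.pi)) *
        (ENNReal.ofReal (2 * C ^ 2 * (N : ℝ) ^ (2 * B)) * (∫⁻ t, Ψ t) +
      ENNReal.ofReal (8 * C ^ 2 * Kmv * X * (N : ℝ) ^ (2 * B - 1) * (1 / (1 - q)))) := by
        gcongr
    _ = ENNReal.ofReal (2 * C ^ 2 * (N : ℝ) ^ (2 * B)) * (∫⁻ t in Ioi (0 : ℝ), ‖F t‖ₑ ^ 2) +
        ENNReal.ofReal (1 / (2 * Real.pi)) *
        ENNReal.ofReal (8 * C ^ 2 * Kmv * X * (N : ℝ) ^ (2 * B - 1) * (1 / (1 - q))) := by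
        rw [hFp, mul_add]
        ring
    _ ≤ ENNReal.ofReal (2 * C ^ 2 * (N : ℝ) ^ (2 * B)) * (∫⁻ t in Ioi (0 : ℝ), ‖F t‖ₑ ^ 2) +
        ENNReal.ofReal (8 * C ^ 2 * Kmv * X * (N : ℝ) ^ (2 * B - 1) * (1 / (1 - q))) := by
        gcongr
        rw [← ENNReal.ofReal_mul hpi.le]
        apply ENNReal.ofReal_le_ofReal
        exact mul_le_of_le_one_left (by positivity) hpi1
    _ ≤ _ := by
        have hK0 : 0 ≤ 2 * C ^ 2 + 8 * C ^ 2 * Kmv * (1 / (1 - q)) := by positivity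
        rw [mul_add]
        refine add_le_add ?_ ?_
        · rw [← mul_assoc, ← ENNReal.ofReal_mul hK0]
          gcongr
          have : 0 ≤ 8 * C ^ 2 * Kmv * (1 / (1 - q)) := by positivity
          linarith
        · rw [← ENNReal.ofReal_mul hK0]
          apply ENNReal.ofReal_le_ofReal
          have e1 : X * (N : ℝ) ^ (2 * B - 1) = (N : ℝ) ^ (2 * B - 2) * ∑ k ∈ s, ‖c k‖ ^ 2 := by
            rw [hX, show 2 * B - 2 = 2 * B - 1 - 1 by ring, Real.rpow_sub_one hN0.ne' (2 * B - 1)]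
            ring
          have : 0 ≤ 2 * C ^ 2 * ((N : ℝ) ^ (2 * B - 2) * ∑ k ∈ s, ‖c k‖ ^ 2) := by positivity
          calc 8 * C ^ 2 * Kmv * X * (N : ℝ) ^ (2 * B - 1) * (1 / (1 - q))
              = 8 * C ^ 2 * Kmv * (1 / (1 - q)) * (X * (N : ℝ) ^ (2 * B - 1)) := by ring
            _ = 8 * C ^ 2 * Kmv * (1 / (1 - q)) *
                ((N : ℝ) ^ (2 * B - 2) * ∑ k ∈ s, ‖c k‖ ^ 2) := by rw [e1]
            _ ≤ _ := by nlinarith

end Pool.Agent.NBL
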