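import Mathlib
import Pool.Agent.NBL.Defs
import Pool.Agent.NBL.Upper

/-!
# From the growth of zeta to the Bessel property
-/

set_option autoImplicit false

open MeasureTheory Complex Set Filter Topology
open scoped ENNReal

namespace Pool.Agent.NBL

/-- the coefficients after summation by parts -/
noncomputable def cc (N : ℕ) (a : ℕ → ℂ) (k : ℕ) : ℂ :=
  (if k < 2 * N then a k else 0) - (if N < k then a (k - 1) else 0)

lemma abel {N : ℕ} (hN : 1 ≤ N) (a u : ℕ → ℂ) :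
    ∑ n ∈ Finset.Ico N (2 * N), a n * (u n - u (n + 1)) =
      ∑ k ∈ Finset.Icc N (2 * N), cc N a k * u k := by
  have e0 : Finset.Icc N (2 * N) = Finset.Ico N (2 * N + 1) := by
    ext k
    simp only [Finset.mem_Icc, Finset.mem_Ico]
    omega
  have e1 : ∑ k ∈ Finset.Icc N (2 * N), (if k < 2 * N then a k else 0) * u k =
      ∑ n ∈ Finset.Ico N (2 * N), a n * u n := by
    rw [e0, Finset.sum_Ico_succ_top (by omega)]
    rw [if_neg (lt_irrefl _), zero_mul, add_zero]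
    refine Finset.sum_congr rfl fun k hk => ?_
    rw [Finset.mem_Ico] at hk
    rw [if_pos hk.2]
  have e2 : ∑ k ∈ Finset.Icc N (2 * N), (if N < k then a (k - 1) else 0) * u k =
      ∑ n ∈ Finset.Ico N (2 * N), a n * u (n + 1) := by
    rw [e0, Finset.sum_eq_sum_Ico_succ_bot (by omega)]
    rw [if_neg (lt_irrefl _), zero_mul, zero_add,
      ← Finset.sum_Ico_add' (fun k => (if N < k then a (k - 1) else 0) * u k) N (2 * N) 1]
    refine Finset.sum_congr rfl fun k hk => ?_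
    rw [Finset.mem_Ico] at hk
    rw [if_pos (by omega), Nat.add_sub_cancel]
  simp only [cc, sub_mul, mul_sub, Finset.sum_sub_distrib]
  rw [e1, e2]

lemma cc_norm {N : ℕ} (hN : 1 ≤ N) (a : ℕ → ℂ) :
    ∑ k ∈ Finset.Icc N (2 * N), ‖cc N a k‖ ^ 2 ≤
      4 * ∑ n ∈ Finset.Ico N (2 * N), ‖a n‖ ^ 2 := by
  have e0 : Finset.Icc N (2 * N) = Finset.Ico N (2 * N + 1) := by
    ext k
    simp only [Finset.mem_Icc, Finset.mem_Ico]
    omega
  have e1 : ∑ k ∈ Finset.Icc N (2 * N), ‖(if k < 2 * N then a k else 0)‖ ^ 2 =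
      ∑ n ∈ Finset.Ico N (2 * N), ‖a n‖ ^ 2 := by
    rw [e0, Finset.sum_Ico_succ_top (by omega)]
    rw [if_neg (lt_irrefl _)]
    simp only [norm_zero, ne_eq, OfNat.ofNat_ne_zero, not_false_eq_true, zero_pow, add_zero]
    refine Finset.sum_congr rfl fun k hk => ?_
    rw [Finset.mem_Ico] at hk
    rw [if_pos hk.2]
  have e2 : ∑ k ∈ Finset.Icc N (2 * N), ‖(if N < k then a (k - 1) else 0)‖ ^ 2 =
      ∑ n ∈ Finset.Ico N (2 * N), ‖a n‖ ^ 2 := by
    rw [e0, Finset.sum_eq_sum_Ico_succ_bot (by omega)]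
    rw [if_neg (lt_irrefl _)]
    simp only [norm_zero, ne_eq, OfNat.ofNat_ne_zero, not_false_eq_true, zero_pow, zero_add]
    rw [← Finset.sum_Ico_add' (fun k => ‖(if N < k then a (k - 1) else 0)‖ ^ 2) N (2 * N) 1]
    refine Finset.sum_congr rfl fun k hk => ?_
    rw [Finset.mem_Ico] at hk
    rw [if_pos (by omega), Nat.add_sub_cancel]
  calc ∑ k ∈ Finset.Icc N (2 * N), ‖cc N a k‖ ^ 2
      ≤ ∑ k ∈ Finset.Icc N (2 * N), (2 * ‖(if k < 2 * N then a k else 0)‖ ^ 2 +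
          2 * ‖(if N < k then a (k - 1) else 0)‖ ^ 2) := by
        refine Finset.sum_le_sum fun k _ => ?_
        have h1 := norm_sub_le (if k < 2 * N then a k else 0) (if N < k then a (k - 1) else 0)
        have h2 : ‖cc N a k‖ ≤ ‖(if k < 2 * N then a k else 0)‖ +
          ‖(if N < k then a (k - 1) else 0)‖ := h1
        nlinarith [sq_nonneg (‖(if k < 2 * N then a k else 0)‖ -
          ‖(if N < k then a (k - 1) else 0)‖), norm_nonneg (cc N a k),
          norm_nonneg (if k < 2 * N then a k else 0), norm_nonneg (if N < k then a (k - 1) else 0)]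
    _ = 4 * ∑ n ∈ Finset.Ico N (2 * N), ‖a n‖ ^ 2 := by
        rw [Finset.sum_add_distrib, ← Finset.mul_sum, ← Finset.mul_sum, e1, e2]
        ring

lemma h_cast {n : ℕ} (t : ℝ) : (h n t : ℂ) = nb n t - nb (n + 1) t := by
  unfold h nb
  push_cast
  rfl

lemma G_eq {N : ℕ} (hN : 1 ≤ N) (a : ℕ → ℂ) (t : ℝ) :
    ∑ n ∈ Finset.Ico N (2 * N), a n * (h n t : ℂ) =
      ∑ k ∈ Finset.Icc N (2 * N), cc N a k * nb k t := by
  simp_rw [h_cast]
  exact abel hN a fun k => nb k t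

lemma ch_floor {k : ℕ} (hk : 0 < k) {t : ℝ} (ht : 0 < t) :
    ch k t = if k ≤ ⌊1 / t⌋₊ then 1 else 0 := by
  unfold ch
  have hk' : (0 : ℝ) < k := by exact_mod_cast hk
  have : t ≤ 1 / k ↔ k ≤ ⌊1 / t⌋₊ := by
    rw [Nat.le_floor_iff (by positivity), le_div_iff₀ hk', le_div_iff₀ ht, mul_comm]
  simp only [this]

/-- the step function of a Bessel sum -/
lemma F_norm {N : ℕ} (hN : 1 ≤ N) (a : ℕ → ℂ) :
    ∫⁻ t in Ioi (0 : ℝ), ‖∑ k ∈ Finset.Icc N (2 * N), cc N a k * ch k t‖ₑ ^ 2 ≤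
      ENNReal.ofReal ((N : ℝ) ^ (-2 : ℝ) * ∑ n ∈ Finset.Ico N (2 * N), ‖a n‖ ^ 2) := by
  have hN' : (0 : ℝ) < N := by exact_mod_cast hN
  have hpt : ∀ t : ℝ, 0 < t → ‖∑ k ∈ Finset.Icc N (2 * N), cc N a k * ch k t‖ₑ ^ 2 ≤
      ∑ n ∈ Finset.Ico N (2 * N), ENNReal.ofReal (‖a n‖ ^ 2) *
        (Ioc (1 / ((n : ℝ) + 1)) (1 / n)).indicator (fun _ => (1 : ℝ≥0∞)) t := by
    intro t ht
    rw [← abel hN a fun k => ch k t]
    have hdiff : ∀ n ∈ Finset.Ico N (2 * N), a n * (ch n t - ch (n + 1) t) =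
        if n = ⌊1 / t⌋₊ then a n else 0 := by
      intro n hn
      rw [Finset.mem_Ico] at hn
      rw [ch_floor (by omega) ht, ch_floor (by omega) ht]
      by_cases h1 : n = ⌊1 / t⌋₊
      · rw [if_pos h1, if_pos (by omega), if_neg (by omega)]
        ring
      · rw [if_neg h1]
        by_cases h2 : n ≤ ⌊1 / t⌋₊
        · rw [if_pos h2, if_pos (by omega)]
          ring
        · rw [if_neg h2, if_neg (by omega)]
          ring
    rw [Finset.sum_congr rfl hdiff, Finset.sum_ite_eq']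
    split_ifs with h1
    · refine le_trans ?_ (Finset.single_le_sum (f := fun n => ENNReal.ofReal (‖a n‖ ^ 2) *
        (Ioc (1 / ((n : ℝ) + 1)) (1 / n)).indicator (fun _ => (1 : ℝ≥0∞)) t)
        (fun i _ => zero_le) h1)
      rw [Finset.mem_Ico] at h1
      have hm : (0 : ℝ) < (⌊1 / t⌋₊ : ℝ) := by
        have : 0 < ⌊1 / t⌋₊ := by omega
        exact_mod_cast this
      have h2 : t ∈ Ioc (1 / ((⌊1 / t⌋₊ : ℝ) + 1)) (1 / (⌊1 / t⌋₊ : ℝ)) := by
        constructor
        · rw [div_lt_iff₀ (by positivity)]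
          have := Nat.lt_floor_add_one (1 / t)
          rw [div_lt_iff₀ ht] at this
          linarith
        · rw [le_div_iff₀ hm]
          have := Nat.floor_le (show 0 ≤ 1 / t by positivity)
          rw [le_div_iff₀ ht] at this
          linarith
      rw [indicator_of_mem h2, mul_one, enorm_sq]
    · simp
  calc ∫⁻ t in Ioi (0 : ℝ), ‖∑ k ∈ Finset.Icc N (2 * N), cc N a k * ch k t‖ₑ ^ 2
      ≤ ∫⁻ t in Ioi (0 : ℝ), ∑ n ∈ Finset.Ico N (2 * N), ENNReal.ofReal (‖a n‖ ^ 2) *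
        (Ioc (1 / ((n : ℝ) + 1)) (1 / n)).indicator (fun _ => (1 : ℝ≥0∞)) t :=
        setLIntegral_mono' measurableSet_Ioi hpt
    _ ≤ ∫⁻ t, ∑ n ∈ Finset.Ico N (2 * N), ENNReal.ofReal (‖a n‖ ^ 2) *
        (Ioc (1 / ((n : ℝ) + 1)) (1 / n)).indicator (fun _ => (1 : ℝ≥0∞)) t :=
        setLIntegral_le_lintegral _ _
    _ = ∑ n ∈ Finset.Ico N (2 * N), ENNReal.ofReal (‖a n‖ ^ 2) *
          ENNReal.ofReal (1 / n - 1 / ((n : ℝ) + 1)) := by
        rw [lintegral_finsetSum _ fun n _ => (measurable_const.indicator measurableSet_Ioc).const_mul _]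
        refine Finset.sum_congr rfl fun n _ => ?_
        rw [lintegral_const_mul _ (measurable_const.indicator measurableSet_Ioc),
          lintegral_indicator measurableSet_Ioc, setLIntegral_const, one_mul, Real.volume_Ioc]
    _ = ENNReal.ofReal (∑ n ∈ Finset.Ico N (2 * N), ‖a n‖ ^ 2 * (1 / n - 1 / ((n : ℝ) + 1))) := by
        rw [ENNReal.ofReal_sum_of_nonneg]
        · refine Finset.sum_congr rfl fun n _ => ?_
          rw [ENNReal.ofReal_mul (by positivity)]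
        · intro n hn
          rw [Finset.mem_Ico] at hn
          have hn' : (0 : ℝ) < n := by
            have : 0 < n := by omega
            exact_mod_cast this
          have h1 : 1 / ((n : ℝ) + 1) ≤ 1 / n := one_div_le_one_div_of_le hn' (by linarith)
          have : 0 ≤ 1 / (n : ℝ) - 1 / ((n : ℝ) + 1) := by linarith
          positivity
    _ ≤ _ := by
        apply ENNReal.ofReal_le_ofReal
        rw [Finset.mul_sum]
        refine Finset.sum_le_sum fun n hn => ?_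
        rw [Finset.mem_Ico] at hn
        have hn1 : (N : ℝ) ≤ n := by exact_mod_cast hn.1
        have hn' : (0 : ℝ) < n := by linarith
        rw [mul_comm ((N : ℝ) ^ (-2 : ℝ))]
        refine mul_le_mul_of_nonneg_left ?_ (by positivity)
        rw [Real.rpow_neg hN'.le, Real.rpow_two, div_sub_div _ _ hn'.ne' (by positivity), ← one_div]
        rw [show (1 : ℝ) * (n + 1) - n * 1 = 1 by ring]
        apply one_div_le_one_div_of_le (by positivity)
        nlinarith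

lemma integral_le_of_lintegral {G : ℝ → ℂ} (hG : Measurable G) {R : ℝ} (hR : 0 ≤ R)
    (h : ∫⁻ t in Ioi (0 : ℝ), ‖G t‖ₑ ^ 2 ≤ ENNReal.ofReal R) :
    ∫ t in Ioi (0 : ℝ), ‖G t‖ ^ 2 ≤ R := by
  rw [integral_eq_lintegral_of_nonneg_ae (Eventually.of_forall fun t => by positivity)
    (hG.norm.pow_const 2).aestronglyMeasurable]
  simp_rw [enorm_sq] at h
  exact ENNReal.toReal_le_of_le_ofReal hR h

theorem bessel_of_mu {A : ℝ} (hA : 0 ≤ A) (hA1 : A < 1 / 2) (hMu : Mu A) : Bessel A := by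
  intro B hB
  set B' : ℝ := min B ((A + 1 / 2) / 2) with hB'
  have hB1 : A < B' := lt_min hB (by linarith)
  have hB2 : B' < 1 / 2 := lt_of_le_of_lt (min_le_right _ _) (by linarith)
  have hB3 : B' ≤ B := min_le_left _ _
  obtain ⟨C, hC⟩ := hMu (B' - A) (by linarith)
  rw [show A + (B' - A) = B' by ring] at hC
  have hC0 : 0 ≤ C := by
    have := (norm_nonneg _).trans (hC 0)
    simpa using this
  obtain ⟨K, hK0, hK⟩ := upper (by linarith) hB2 hC0 hC
  refine ⟨5 * K, fun N hN a => ?_⟩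
  have hN' : (1 : ℝ) ≤ N := by exact_mod_cast hN
  have hspos : ∀ k ∈ Finset.Icc N (2 * N), 0 < k := by
    intro k hk
    rw [Finset.mem_Icc] at hk
    omega
  set X : ℝ := ∑ n ∈ Finset.Ico N (2 * N), ‖a n‖ ^ 2 with hX
  have hX0 : 0 ≤ X := by positivity
  simp_rw [G_eq hN]
  refine integral_le_of_lintegral (adm_nb_sum hspos _).1 (by positivity) ?_
  refine (hK N hN (cc N a)).trans ?_
  have h1 : ENNReal.ofReal ((N : ℝ) ^ (2 * B')) *
          (∫⁻ t in Ioi (0 : ℝ), ‖∑ k ∈ Finset.Icc N (2 * N), cc N a k * ch k t‖ₑ ^ 2) ≤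
      ENNReal.ofReal ((N : ℝ) ^ (2 * B' - 2) * X) := by
    calc _ ≤ ENNReal.ofReal ((N : ℝ) ^ (2 * B')) * ENNReal.ofReal ((N : ℝ) ^ (-2 : ℝ) * X) := by
          gcongr
          exact F_norm hN a
      _ = ENNReal.ofReal ((N : ℝ) ^ (2 * B' - 2) * X) := by
          rw [← ENNReal.ofReal_mul (by positivity), ← mul_assoc, ← Real.rpow_add (by linarith)]
          congr 2
  have h2 : ENNReal.ofReal ((N : ℝ) ^ (2 * B' - 2) *
      ∑ k ∈ Finset.Icc N (2 * N), ‖cc N a k‖ ^ 2) ≤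
      ENNReal.ofReal ((N : ℝ) ^ (2 * B' - 2) * (4 * X)) := by
    apply ENNReal.ofReal_le_ofReal
    exact mul_le_mul_of_nonneg_left (cc_norm hN a) (by positivity)
  refine (mul_le_mul_right (add_le_add h1 h2) _).trans ?_
  rw [← ENNReal.ofReal_add (by positivity) (by positivity), ← ENNReal.ofReal_mul hK0]
  apply ENNReal.ofReal_le_ofReal
  have h3 : (N : ℝ) ^ (2 * B' - 2) ≤ (N : ℝ) ^ (2 * B - 2) :=
    Real.rpow_le_rpow_of_exponent_le hN' (by linarith)
  calc K * ((N : ℝ) ^ (2 * B' - 2) * X + (N : ℝ) ^ (2 * B' - 2) * (4 * X))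
      = 5 * K * (N : ℝ) ^ (2 * B' - 2) * X := by ring
    _ ≤ 5 * K * (N : ℝ) ^ (2 * B - 2) * X := by gcongr

end Pool.Agent.NBL
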