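import Mathlib
import Pool.Agent.NBL.Defs
import Pool.Agent.NBL.BesselA

/-!
# Sums over integers and integrals; alternating sums
-/

set_option autoImplicit false

open MeasureTheory Complex Set Filter Topology
open scoped ENNReal

namespace Pool.Agent.NBL

/-- alternating sums of antitone sequences -/
lemma alt_bound (r : ℕ) : ∀ u : ℕ → ℝ, Antitone u → (∀ i, 0 ≤ u i) →
    0 ≤ ∑ i ∈ Finset.range r, (-1 : ℝ) ^ i * u i ∧
      ∑ i ∈ Finset.range r, (-1 : ℝ) ^ i * u i ≤ u 0 := by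
  induction r with
  | zero => intro u _ h0; simpa using h0 0
  | succ r ih =>
    intro u hu h0
    have h1 := ih (fun i => u (i + 1)) (fun i j hij => hu (by omega)) (fun i => h0 _)
    rw [Finset.sum_range_succ']
    have e : ∑ i ∈ Finset.range r, (-1 : ℝ) ^ (i + 1) * u (i + 1) =
        -∑ i ∈ Finset.range r, (-1 : ℝ) ^ i * u (i + 1) := by
      rw [← Finset.sum_neg_distrib]
      refine Finset.sum_congr rfl fun i _ => ?_
      rw [pow_succ]
      ring
    rw [e]
    have h2 : u 1 ≤ u 0 := hu (by omega)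
    simp only [zero_add] at h1
    simp only [pow_zero, one_mul]
    constructor
    · linarith [h1.2]
    · linarith [h1.1]

/-- the value of the fractional part between two integers -/
lemma nb_local {k : ℕ} (hk : 0 < k) {t : ℝ} (ht : 0 < t) :
    Int.fract (1 / (k * t)) =
      Int.fract ((⌊1 / t⌋₊ : ℝ) / k) + (1 / t - ⌊1 / t⌋₊) * (1 / k) := by
  have hk' : (0 : ℝ) < k := by exact_mod_cast hk
  have h1 : (1 : ℝ) / (k * t) = 1 / t / k := by
    field_simp
  have h2 : ∀ y : ℝ, 0 ≤ y → Int.fract y = y - ⌊y⌋₊ := by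
    intro y hy
    rw [Int.fract, natCast_floor_eq_intCast_floor (R := ℝ) hy]
  rw [h1, h2 _ (by positivity), h2 _ (by positivity), Nat.floor_div_natCast,
    Nat.floor_div_eq_div (K := ℝ)]
  ring

/-- the sum at the integer `m` -/
noncomputable def As (s : Finset ℕ) (σ : ℕ → ℝ) (k : ℕ → ℕ) (m : ℕ) : ℝ :=
  ∑ i ∈ s, σ i * Int.fract ((m : ℝ) / k i)

/-- the linear coefficient -/
noncomputable def Ss (s : Finset ℕ) (σ : ℕ → ℝ) (k : ℕ → ℕ) : ℝ :=
  ∑ i ∈ s, σ i * (1 / k i)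

/-- the function of `t` -/
noncomputable def Gs (s : Finset ℕ) (σ : ℕ → ℝ) (k : ℕ → ℕ) (t : ℝ) : ℝ :=
  ∑ i ∈ s, σ i * Int.fract (1 / (k i * t))

lemma Gs_local {s : Finset ℕ} {σ : ℕ → ℝ} {k : ℕ → ℕ} (hk : ∀ i ∈ s, 0 < k i) {t : ℝ}
    (ht : 0 < t) :
    Gs s σ k t = As s σ k ⌊1 / t⌋₊ + (1 / t - ⌊1 / t⌋₊) * Ss s σ k := by
  unfold Gs As Ss
  rw [Finset.mul_sum, ← Finset.sum_add_distrib]
  refine Finset.sum_congr rfl fun i hi => ?_
  rw [nb_local (hk i hi) ht]
  ring

/-- the interval `(1 / (m + 1), 1 / m]` -/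
def Im (m : ℕ) : Set ℝ := Ioc (1 / ((m : ℝ) + 1)) (1 / m)

lemma Im_floor {m : ℕ} (hm : 0 < m) {t : ℝ} (ht : t ∈ Im m) : 0 < t ∧ ⌊1 / t⌋₊ = m := by
  have hm' : (0 : ℝ) < m := by exact_mod_cast hm
  obtain ⟨h1, h2⟩ := ht
  have h0 : 0 < t := lt_trans (by positivity) h1
  refine ⟨h0, ?_⟩
  rw [Nat.floor_eq_iff (by positivity)]
  rw [div_lt_iff₀ (by positivity)] at h1
  rw [le_div_iff₀ hm'] at h2
  constructor
  · rw [le_div_iff₀ h0]
    linarith
  · rw [div_lt_iff₀ h0]
    linarith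

lemma Im_vol {m : ℕ} (hm : 0 < m) :
    volume (Im m) = ENNReal.ofReal (1 / ((m : ℝ) * (m + 1))) := by
  have hm' : (0 : ℝ) < m := by exact_mod_cast hm
  unfold Im
  rw [Real.volume_Ioc]
  congr 1
  field_simp
  ring

lemma Gs_meas (s : Finset ℕ) (σ : ℕ → ℝ) (k : ℕ → ℕ) : Measurable (Gs s σ k) := by
  unfold Gs
  refine Finset.measurable_sum _ fun i _ => ?_
  exact (measurable_fract.comp (measurable_const.div (measurable_const.mul measurable_id))).const_mul _

/-- the sum is bounded by the integral -/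
lemma sum_le_int {s : Finset ℕ} {σ : ℕ → ℝ} {k : ℕ → ℕ} (hk : ∀ i ∈ s, 0 < k i) {R : ℝ}
    (hR : 0 ≤ R) (hint : ∫⁻ t in Ioi (0 : ℝ), ENNReal.ofReal (Gs s σ k t ^ 2) ≤ ENNReal.ofReal R)
    (M : ℕ) :
    ∑ m ∈ Finset.Icc 1 M, As s σ k m ^ 2 / (m : ℝ) ^ 2 ≤ 4 * R + 4 * Ss s σ k ^ 2 := by
  set S := Ss s σ k with hS
  -- each term
  have hterm : ∀ m ∈ Finset.Icc 1 M, ENNReal.ofReal (As s σ k m ^ 2 / (m : ℝ) ^ 2) ≤
      4 * (∫⁻ t in Im m, ENNReal.ofReal (Gs s σ k t ^ 2)) +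
        ENNReal.ofReal (4 * S ^ 2 * (1 / ((m : ℝ) * (m + 1)))) := by
    intro m hm
    rw [Finset.mem_Icc] at hm
    have hm0 : 0 < m := by omega
    have hm1 : (1 : ℝ) ≤ m := by exact_mod_cast hm.1
    have h1 : ∀ t ∈ Im m, ENNReal.ofReal (As s σ k m ^ 2) ≤
        2 * ENNReal.ofReal (Gs s σ k t ^ 2) + ENNReal.ofReal (2 * S ^ 2) := by
      intro t ht
      obtain ⟨h0, hfl⟩ := Im_floor hm0 ht
      have hG := Gs_local hk h0 (σ := σ)
      rw [hfl, ← hS] at hG
      have hx1 : 0 ≤ 1 / t - m := by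
        rw [← hfl]
        linarith [Nat.floor_le (show 0 ≤ 1 / t by positivity)]
      have hx2 : 1 / t - m ≤ 1 := by
        rw [← hfl]
        linarith [Nat.lt_floor_add_one (1 / t)]
      rw [show (2 : ℝ≥0∞) = ENNReal.ofReal 2 by simp, ← ENNReal.ofReal_mul (by norm_num),
        ← ENNReal.ofReal_add (by positivity) (by positivity)]
      apply ENNReal.ofReal_le_ofReal
      have h2 : As s σ k m = Gs s σ k t - (1 / t - m) * S := by linarith
      rw [h2]
      have h3 : ((1 / t - m) * S) ^ 2 ≤ S ^ 2 := by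
        rw [mul_pow]
        exact mul_le_of_le_one_left (by positivity) (pow_le_one₀ hx1 hx2)
      nlinarith [sq_nonneg (Gs s σ k t + (1 / t - m) * S)]
    have h2 : ENNReal.ofReal (As s σ k m ^ 2) * volume (Im m) ≤
        2 * (∫⁻ t in Im m, ENNReal.ofReal (Gs s σ k t ^ 2)) +
          ENNReal.ofReal (2 * S ^ 2) * volume (Im m) := by
      calc ENNReal.ofReal (As s σ k m ^ 2) * volume (Im m)
          = ∫⁻ t in Im m, ENNReal.ofReal (As s σ k m ^ 2) := by rw [setLIntegral_const]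
        _ ≤ ∫⁻ t in Im m, (2 * ENNReal.ofReal (Gs s σ k t ^ 2) + ENNReal.ofReal (2 * S ^ 2)) :=
            setLIntegral_mono' measurableSet_Ioc h1
        _ = _ := by
            rw [lintegral_add_right _ measurable_const, lintegral_const_mul' _ _ (by simp),
              setLIntegral_const]
    have h3 : ENNReal.ofReal (As s σ k m ^ 2 / (m : ℝ) ^ 2) ≤
        2 * (ENNReal.ofReal (As s σ k m ^ 2) * volume (Im m)) := by
      rw [Im_vol hm0, ← ENNReal.ofReal_mul (by positivity),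
        show (2 : ℝ≥0∞) = ENNReal.ofReal 2 by simp, ← ENNReal.ofReal_mul (by norm_num)]
      apply ENNReal.ofReal_le_ofReal
      have h4 : 1 / (m : ℝ) ^ 2 ≤ 2 * (1 / ((m : ℝ) * (m + 1))) := by
        rw [← mul_div_assoc, mul_one, div_le_div_iff₀ (by positivity) (by positivity)]
        nlinarith
      have h5 := mul_le_mul_of_nonneg_left h4 (sq_nonneg (As s σ k m))
      calc As s σ k m ^ 2 / (m : ℝ) ^ 2 = As s σ k m ^ 2 * (1 / (m : ℝ) ^ 2) := by ring
        _ ≤ _ := h5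
        _ = _ := by ring
    refine h3.trans ((mul_le_mul_right h2 2).trans (le_of_eq ?_))
    rw [mul_add, ← mul_assoc, Im_vol hm0, ← ENNReal.ofReal_mul (by positivity)]
    congr 1
    · norm_num
    · rw [show (2 : ℝ≥0∞) = ENNReal.ofReal 2 by simp, ← ENNReal.ofReal_mul (by norm_num)]
      congr 1
      ring
  -- the telescoping sum
  have htel : ∑ m ∈ Finset.Icc 1 M, (1 / ((m : ℝ) * (m + 1))) ≤ 1 := by
    have e : ∀ M : ℕ, ∑ m ∈ Finset.Icc 1 M, (1 / ((m : ℝ) * (m + 1))) = 1 - 1 / ((M : ℝ) + 1) := by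
      intro M
      induction M with
      | zero => simp
      | succ M ih =>
        rw [Finset.sum_Icc_succ_top (by omega), ih]
        push_cast
        field_simp
        ring
    rw [e M]
    have : 0 ≤ 1 / ((M : ℝ) + 1) := by positivity
    linarith
  have hdisj : ∑ m ∈ Finset.Icc 1 M, ∫⁻ t in Im m, ENNReal.ofReal (Gs s σ k t ^ 2) ≤
      ∫⁻ t in Ioi (0 : ℝ), ENNReal.ofReal (Gs s σ k t ^ 2) := by
    rw [← lintegral_biUnion_finset]
    · refine lintegral_mono_set ?_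
      intro t ht
      simp only [mem_iUnion] at ht
      obtain ⟨m, hm, ht⟩ := ht
      have hm' : 0 < m := (Finset.mem_Icc.1 hm).1
      exact (Im_floor hm' ht).1
    · intro m hm n hn hmn
      rw [Function.onFun, Set.disjoint_left]
      intro t ht1 ht2
      have hm' : 0 < m := (Finset.mem_Icc.1 hm).1
      have hn' : 0 < n := (Finset.mem_Icc.1 hn).1
      exact hmn ((Im_floor hm' ht1).2.symm.trans (Im_floor hn' ht2).2)
    · intro m _
      exact measurableSet_Ioc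
  have hall : ENNReal.ofReal (∑ m ∈ Finset.Icc 1 M, As s σ k m ^ 2 / (m : ℝ) ^ 2) ≤
      ENNReal.ofReal (4 * R + 4 * S ^ 2) := by
    rw [ENNReal.ofReal_sum_of_nonneg fun m _ => by positivity]
    refine (Finset.sum_le_sum hterm).trans ?_
    rw [Finset.sum_add_distrib, ← Finset.mul_sum, ENNReal.ofReal_add (by positivity)
      (by positivity)]
    refine add_le_add ?_ ?_
    · rw [ENNReal.ofReal_mul (by norm_num)]
      refine mul_le_mul ?_ (hdisj.trans hint) (by positivity) (by positivity)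
      simp
    · rw [← ENNReal.ofReal_sum_of_nonneg fun m _ => by positivity]
      apply ENNReal.ofReal_le_ofReal
      rw [← Finset.mul_sum]
      exact mul_le_of_le_one_right (by positivity) htel
  exact (ENNReal.ofReal_le_ofReal_iff (by positivity)).1 hall

/-- the integral is bounded by the sum -/
lemma int_le_sum {s : Finset ℕ} {σ : ℕ → ℝ} {k : ℕ → ℕ} (hk : ∀ i ∈ s, 0 < k i) {R : ℝ}
    (hR : 0 ≤ R) (hsum : ∀ M : ℕ, ∑ m ∈ Finset.Icc 1 M, As s σ k m ^ 2 / (m : ℝ) ^ 2 ≤ R) :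
    ∫⁻ t in Ioi (0 : ℝ), ENNReal.ofReal (Gs s σ k t ^ 2) ≤
      ENNReal.ofReal (2 * R + 3 * Ss s σ k ^ 2) := by
  set S := Ss s σ k with hS
  have hterm : ∀ m : ℕ, 0 < m → ∫⁻ t in Im m, ENNReal.ofReal (Gs s σ k t ^ 2) ≤
      ENNReal.ofReal (2 * (As s σ k m ^ 2 / (m : ℝ) ^ 2) + 2 * S ^ 2 * (1 / ((m : ℝ) * (m + 1)))) := by
    intro m hm0
    have hm1 : (1 : ℝ) ≤ m := by exact_mod_cast hm0
    have h1 : ∀ t ∈ Im m, ENNReal.ofReal (Gs s σ k t ^ 2) ≤
        ENNReal.ofReal (2 * As s σ k m ^ 2 + 2 * S ^ 2) := by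
      intro t ht
      obtain ⟨h0, hfl⟩ := Im_floor hm0 ht
      have hG := Gs_local hk h0 (σ := σ)
      rw [hfl, ← hS] at hG
      have hx1 : 0 ≤ 1 / t - m := by
        rw [← hfl]
        linarith [Nat.floor_le (show 0 ≤ 1 / t by positivity)]
      have hx2 : 1 / t - m ≤ 1 := by
        rw [← hfl]
        linarith [Nat.lt_floor_add_one (1 / t)]
      apply ENNReal.ofReal_le_ofReal
      rw [hG]
      have h3 : ((1 / t - m) * S) ^ 2 ≤ S ^ 2 := by
        rw [mul_pow]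
        exact mul_le_of_le_one_left (by positivity) (pow_le_one₀ hx1 hx2)
      nlinarith [sq_nonneg (As s σ k m - (1 / t - m) * S)]
    calc ∫⁻ t in Im m, ENNReal.ofReal (Gs s σ k t ^ 2)
        ≤ ∫⁻ t in Im m, ENNReal.ofReal (2 * As s σ k m ^ 2 + 2 * S ^ 2) :=
          setLIntegral_mono' measurableSet_Ioc h1
      _ = ENNReal.ofReal ((2 * As s σ k m ^ 2 + 2 * S ^ 2) * (1 / ((m : ℝ) * (m + 1)))) := by
          rw [setLIntegral_const, Im_vol hm0, ← ENNReal.ofReal_mul (by positivity)]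
      _ ≤ _ := by
          apply ENNReal.ofReal_le_ofReal
          have h4 : 1 / ((m : ℝ) * (m + 1)) ≤ 1 / (m : ℝ) ^ 2 := by
            apply one_div_le_one_div_of_le (by positivity)
            nlinarith
          have h5 := mul_le_mul_of_nonneg_left h4 (sq_nonneg (As s σ k m))
          calc (2 * As s σ k m ^ 2 + 2 * S ^ 2) * (1 / ((m : ℝ) * (m + 1)))
              = 2 * (As s σ k m ^ 2 * (1 / ((m : ℝ) * (m + 1)))) +
                2 * S ^ 2 * (1 / ((m : ℝ) * (m + 1))) := by ring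
            _ ≤ 2 * (As s σ k m ^ 2 * (1 / (m : ℝ) ^ 2)) +
                2 * S ^ 2 * (1 / ((m : ℝ) * (m + 1))) := by linarith
            _ = _ := by ring
  have htop : ∫⁻ t in Ioi (1 : ℝ), ENNReal.ofReal (Gs s σ k t ^ 2) ≤ ENNReal.ofReal (S ^ 2) := by
    have h1 : ∀ t ∈ Ioi (1 : ℝ), ENNReal.ofReal (Gs s σ k t ^ 2) ≤
        ENNReal.ofReal (S ^ 2 * t ^ (-2 : ℝ)) := by
      intro t ht
      have ht1 : (1 : ℝ) < t := ht
      have ht0 : (0 : ℝ) < t := by linarith
      have hfl : ⌊1 / t⌋₊ = 0 := by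
        rw [Nat.floor_eq_zero, div_lt_one ht0]
        exact ht1
      have hG := Gs_local hk ht0 (σ := σ)
      have hA0 : As s σ k 0 = 0 := by
        unfold As
        simp
      rw [hfl, hA0, ← hS] at hG
      rw [hG, Real.rpow_neg ht0.le, Real.rpow_two]
      apply ENNReal.ofReal_le_ofReal
      apply le_of_eq
      push_cast
      field_simp
      ring
    have hi : IntegrableOn (fun t : ℝ => S ^ 2 * t ^ (-2 : ℝ)) (Ioi 1) :=
      (integrableOn_Ioi_rpow_of_lt (by norm_num) one_pos).const_mul _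
    calc ∫⁻ t in Ioi (1 : ℝ), ENNReal.ofReal (Gs s σ k t ^ 2)
        ≤ ∫⁻ t in Ioi (1 : ℝ), ENNReal.ofReal (S ^ 2 * t ^ (-2 : ℝ)) :=
          setLIntegral_mono' measurableSet_Ioi h1
      _ = ENNReal.ofReal (∫ t in Ioi (1 : ℝ), S ^ 2 * t ^ (-2 : ℝ)) := by
          rw [ofReal_integral_eq_lintegral_ofReal hi]
          filter_upwards [ae_restrict_mem measurableSet_Ioi] with t ht
          have ht1 : (1 : ℝ) < t := ht
          have ht0 : (0 : ℝ) < t := by linarith
          positivity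
      _ = ENNReal.ofReal (S ^ 2) := by
          rw [integral_const_mul, integral_Ioi_rpow_of_lt (by norm_num) one_pos]
          norm_num
  have hcover : Ioi (0 : ℝ) ⊆ Ioi 1 ∪ ⋃ m : ℕ, Im (m + 1) := by
    intro t ht
    have ht0 : (0 : ℝ) < t := ht
    by_cases h1 : 1 < t
    · exact Or.inl h1
    · right
      rw [not_lt] at h1
      rw [mem_iUnion]
      have h2 : 1 ≤ 1 / t := by rw [le_div_iff₀ ht0]; linarith
      have h3 : 1 ≤ ⌊1 / t⌋₊ := by rw [Nat.one_le_floor_iff]; exact h2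
      refine ⟨⌊1 / t⌋₊ - 1, ?_⟩
      rw [Nat.sub_add_cancel h3]
      have hm : (0 : ℝ) < (⌊1 / t⌋₊ : ℝ) := by exact_mod_cast h3
      constructor
      · rw [div_lt_iff₀ (by positivity)]
        have := Nat.lt_floor_add_one (1 / t)
        rw [div_lt_iff₀ ht0] at this
        linarith
      · rw [le_div_iff₀ hm]
        have := Nat.floor_le (show 0 ≤ 1 / t by positivity)
        rw [le_div_iff₀ ht0] at this
        linarith
  have htsum : ∑' m : ℕ, ∫⁻ t in Im (m + 1), ENNReal.ofReal (Gs s σ k t ^ 2) ≤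
      ENNReal.ofReal (2 * R + 2 * S ^ 2) := by
    refine ENNReal.summable.tsum_le_of_sum_range_le fun n => ?_
    refine (Finset.sum_le_sum fun m _ => hterm (m + 1) (Nat.succ_pos m)).trans ?_
    rw [← ENNReal.ofReal_sum_of_nonneg fun m _ => by positivity]
    apply ENNReal.ofReal_le_ofReal
    have e : ∀ f : ℕ → ℝ, ∑ m ∈ Finset.range n, f (m + 1) = ∑ m ∈ Finset.Icc 1 n, f m := by
      intro f
      rw [Finset.range_eq_Ico, Finset.sum_Ico_add' f 0 n 1]
      refine Finset.sum_congr ?_ fun _ _ => rfl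
      ext x
      simp only [Finset.mem_Ico, Finset.mem_Icc]
      omega
    rw [e (fun m => 2 * (As s σ k m ^ 2 / (m : ℝ) ^ 2) + 2 * S ^ 2 * (1 / ((m : ℝ) * (m + 1)))),
      Finset.sum_add_distrib, ← Finset.mul_sum, ← Finset.mul_sum]
    have htel : ∑ m ∈ Finset.Icc 1 n, (1 / ((m : ℝ) * (m + 1))) ≤ 1 := by
      have e : ∀ M : ℕ, ∑ m ∈ Finset.Icc 1 M, (1 / ((m : ℝ) * (m + 1))) = 1 - 1 / ((M : ℝ) + 1) := by
        intro M
        induction M with
        | zero => simp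
        | succ M ih =>
          rw [Finset.sum_Icc_succ_top (by omega), ih]
          push_cast
          field_simp
          ring
      rw [e n]
      have : 0 ≤ 1 / ((n : ℝ) + 1) := by positivity
      linarith
    have h1 := hsum n
    have h2 : 2 * S ^ 2 * ∑ m ∈ Finset.Icc 1 n, (1 / ((m : ℝ) * (m + 1))) ≤ 2 * S ^ 2 :=
      mul_le_of_le_one_right (by positivity) htel
    linarith
  calc ∫⁻ t in Ioi (0 : ℝ), ENNReal.ofReal (Gs s σ k t ^ 2)
      ≤ ∫⁻ t in Ioi 1 ∪ ⋃ m : ℕ, Im (m + 1), ENNReal.ofReal (Gs s σ k t ^ 2) :=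
        lintegral_mono_set hcover
    _ ≤ (∫⁻ t in Ioi 1, ENNReal.ofReal (Gs s σ k t ^ 2)) +
        ∫⁻ t in ⋃ m : ℕ, Im (m + 1), ENNReal.ofReal (Gs s σ k t ^ 2) := lintegral_union_le _ _ _
    _ ≤ ENNReal.ofReal (S ^ 2) + ENNReal.ofReal (2 * R + 2 * S ^ 2) := by
        refine add_le_add htop ?_
        exact (lintegral_iUnion_le _ _).trans htsum
    _ = ENNReal.ofReal (2 * R + 3 * S ^ 2) := by
        rw [← ENNReal.ofReal_add (by positivity) (by positivity)]
        congr 1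
        ring

end Pool.Agent.NBL
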