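import Mathlib
import Pool.Agent.NBL.Disc

/-!
# From the Bessel property to alternating sums
-/

set_option autoImplicit false

open MeasureTheory Complex Set Filter Topology
open scoped ENNReal

namespace Pool.Agent.NBL

/-- the norm of `L²(0, ∞)` -/
noncomputable def nrm (g : ℝ → ℂ) : ℝ≥0∞ := eLpNorm g 2 (volume.restrict (Ioi 0))

lemma nrm_sq (g : ℝ → ℂ) : nrm g ^ 2 = ∫⁻ t in Ioi (0 : ℝ), ‖g t‖ₑ ^ 2 := sq_eLpNorm _ _

lemma nrm_le {g : ℝ → ℂ} {R : ℝ} (hR : 0 ≤ R)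
    (h : ∫⁻ t in Ioi (0 : ℝ), ‖g t‖ₑ ^ 2 ≤ ENNReal.ofReal (R ^ 2)) : nrm g ≤ ENNReal.ofReal R := by
  rw [← nrm_sq, ENNReal.ofReal_pow hR] at h
  exact (ENNReal.pow_le_pow_left_iff two_ne_zero).1 h

lemma lint_of_int {g : ℝ → ℂ} (hg : Adm g) {R : ℝ} (h : ∫ t in Ioi (0 : ℝ), ‖g t‖ ^ 2 ≤ R) :
    ∫⁻ t in Ioi (0 : ℝ), ‖g t‖ₑ ^ 2 ≤ ENNReal.ofReal R := by
  have h1 : Integrable (fun t => ‖g t‖ ^ 2) (volume.restrict (Ioi 0)) :=
    (memLp_two_iff_integrable_sq_norm hg.1.aestronglyMeasurable).1 hg.memLp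
  simp_rw [enorm_sq]
  rw [← ofReal_integral_eq_lintegral_ofReal h1 (Eventually.of_forall fun t => by positivity)]
  exact ENNReal.ofReal_le_ofReal h

/-- the sum of a block -/
noncomputable def Hs (a : ℕ → ℂ) (s : Finset ℕ) (t : ℝ) : ℂ := ∑ n ∈ s, a n * (h n t : ℂ)

lemma adm_h {n : ℕ} (hn : 0 < n) : Adm (fun t => (h n t : ℂ)) := by
  have h1 := (adm_nb hn).add ((adm_nb (k := n + 1) (by omega)).mul (-1))
  refine cast ?_ h1
  congr 1
  funext t
  rw [h_cast]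
  ring

lemma adm_Hs (a : ℕ → ℂ) {s : Finset ℕ} (hs : ∀ n ∈ s, 0 < n) : Adm (Hs a s) :=
  Adm.sum s fun n hn => (adm_h (hs n hn)).mul (a n)

lemma block {B C : ℝ} (hC0 : 0 ≤ C)
    (hC : ∀ N : ℕ, 1 ≤ N → ∀ a : ℕ → ℂ,
      ∫ t in Ioi (0 : ℝ), ‖∑ n ∈ Finset.Ico N (2 * N), a n * (h n t : ℂ)‖ ^ 2 ≤
      C * (N : ℝ) ^ (2 * B - 2) * ∑ n ∈ Finset.Ico N (2 * N), ‖a n‖ ^ 2)
    {a : ℕ → ℂ} (ha : ∀ n, ‖a n‖ ≤ 1) {N : ℕ} (hN : 1 ≤ N) :
    nrm (Hs a (Finset.Ico N (2 * N))) ≤ ENNReal.ofReal (√C * (N : ℝ) ^ (B - 1 / 2)) := by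
  have hN' : (1 : ℝ) ≤ N := by exact_mod_cast hN
  have hN0 : (0 : ℝ) < N := by linarith
  refine nrm_le (by positivity) ?_
  refine lint_of_int (adm_Hs a fun n hn => ?_) ?_
  · rw [Finset.mem_Ico] at hn
    omega
  refine (hC N hN a).trans ?_
  have h1 : ∑ n ∈ Finset.Ico N (2 * N), ‖a n‖ ^ 2 ≤ N := by
    calc ∑ n ∈ Finset.Ico N (2 * N), ‖a n‖ ^ 2 ≤ ∑ n ∈ Finset.Ico N (2 * N), (1 : ℝ) := by
          refine Finset.sum_le_sum fun n _ => ?_
          exact pow_le_one₀ (norm_nonneg _) (ha n)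
      _ = N := by
          rw [Finset.sum_const, Nat.card_Ico, nsmul_eq_mul, mul_one, two_mul, Nat.add_sub_cancel]
  have h2 : (N : ℝ) ^ (2 * B - 2) * N = ((N : ℝ) ^ (B - 1 / 2)) ^ 2 := by
    rw [← Real.rpow_add_one hN0.ne', ← Real.rpow_natCast, ← Real.rpow_mul hN0.le]
    congr 1
    push_cast
    ring
  rw [mul_pow, Real.sq_sqrt hC0, ← h2, ← mul_assoc]
  exact mul_le_mul_of_nonneg_left h1 (by positivity)

lemma dyadic {B c : ℝ} (hc0 : 0 ≤ c) (hB : B < 1 / 2) {a : ℕ → ℂ}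
    (hblk : ∀ N : ℕ, 1 ≤ N →
      nrm (Hs a (Finset.Ico N (2 * N))) ≤ ENNReal.ofReal (c * (N : ℝ) ^ (B - 1 / 2)))
    {K : ℕ} (hK : 1 ≤ K) (L : ℕ) :
    nrm (Hs a (Finset.Ico K (2 ^ L * K))) ≤
      ENNReal.ofReal (c * (1 / (1 - (2 : ℝ) ^ (B - 1 / 2))) * (K : ℝ) ^ (B - 1 / 2)) := by
  have hK' : (1 : ℝ) ≤ K := by exact_mod_cast hK
  have hK0 : (0 : ℝ) < K := by linarith
  set q : ℝ := (2 : ℝ) ^ (B - 1 / 2) with hq
  have hq0 : 0 < q := by positivity
  have hq1 : q < 1 := Real.rpow_lt_one_of_one_lt_of_neg (by norm_num) (by linarith)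
  have h1 : ∀ L : ℕ, nrm (Hs a (Finset.Ico K (2 ^ L * K))) ≤
      ENNReal.ofReal (∑ l ∈ Finset.range L, c * (K : ℝ) ^ (B - 1 / 2) * q ^ l) := by
    intro L
    induction L with
    | zero =>
      simp only [pow_zero, one_mul, Finset.Ico_self, Finset.range_zero, Finset.sum_empty,
        ENNReal.ofReal_zero, nonpos_iff_eq_zero]
      have : Hs a ∅ = fun _ => 0 := by
        funext t
        simp [Hs]
      rw [this, nrm]
      exact eLpNorm_zero'
    | succ L ih =>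
      have e1 : Hs a (Finset.Ico K (2 ^ (L + 1) * K)) =
          fun t => Hs a (Finset.Ico K (2 ^ L * K)) t +
            Hs a (Finset.Ico (2 ^ L * K) (2 * (2 ^ L * K))) t := by
        funext t
        unfold Hs
        rw [Finset.sum_Ico_consecutive]
        · congr 2
          rw [pow_succ]
          ring
        · exact Nat.le_mul_of_pos_left K (by positivity)
        · omega
      have hA1 : Adm (Hs a (Finset.Ico K (2 ^ L * K))) := adm_Hs a fun n hn => by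
        rw [Finset.mem_Ico] at hn
        omega
      have hpos : 1 ≤ 2 ^ L * K := Nat.one_le_iff_ne_zero.2 (by positivity)
      have hA2 : Adm (Hs a (Finset.Ico (2 ^ L * K) (2 * (2 ^ L * K)))) := adm_Hs a fun n hn => by
        rw [Finset.mem_Ico] at hn
        omega
      rw [e1, Finset.sum_range_succ, ENNReal.ofReal_add (Finset.sum_nonneg fun _ _ => by positivity)
        (by positivity)]
      refine (eLpNorm_add_le hA1.1.aestronglyMeasurable hA2.1.aestronglyMeasurable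
        (by norm_num)).trans ?_
      refine add_le_add ih ((hblk _ hpos).trans (le_of_eq ?_))
      congr 1
      push_cast
      rw [Real.mul_rpow (by positivity) hK0.le, hq, ← Real.rpow_natCast, ← Real.rpow_natCast,
        ← Real.rpow_mul (by norm_num), ← Real.rpow_mul (by norm_num), mul_comm (L : ℝ)]
      ring
  refine (h1 L).trans (ENNReal.ofReal_le_ofReal ?_)
  rw [← Finset.mul_sum]
  have h2 : ∑ l ∈ Finset.range L, q ^ l ≤ 1 / (1 - q) := by
    rw [one_div, ← tsum_geometric_of_lt_one hq0.le hq1]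
    exact (summable_geometric_of_lt_one hq0.le hq1).sum_le_tsum _ fun _ _ => by positivity
  calc c * (K : ℝ) ^ (B - 1 / 2) * ∑ l ∈ Finset.range L, q ^ l
      ≤ c * (K : ℝ) ^ (B - 1 / 2) * (1 / (1 - q)) := by gcongr
    _ = _ := by ring

/-- the norm of one Nyman–Beurling function -/
lemma nb_norm {M : ℕ} (hM : 0 < M) : nrm (nb M) ≤ ENNReal.ofReal (√2 * (M : ℝ) ^ (-(1 / 2) : ℝ)) := by
  have hM' : (0 : ℝ) < M := by exact_mod_cast hM
  refine nrm_le (by positivity) ?_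
  have e1 : (√2 * (M : ℝ) ^ (-(1 / 2) : ℝ)) ^ 2 = 1 / M + 1 / M := by
    rw [mul_pow, Real.sq_sqrt (by norm_num), ← Real.rpow_natCast, ← Real.rpow_mul hM'.le]
    norm_num
    rw [Real.rpow_neg_one]
    ring
  have hcov : Ioi (0 : ℝ) ⊆ Ioc 0 (1 / (M : ℝ)) ∪ Ioi (1 / (M : ℝ)) := by
    intro t ht
    by_cases h : t ≤ 1 / M
    · exact Or.inl ⟨ht, h⟩
    · exact Or.inr (not_le.1 h)
  have h1 : ∫⁻ t in Ioc 0 (1 / (M : ℝ)), ‖nb M t‖ₑ ^ 2 ≤ ENNReal.ofReal (1 / M) := by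
    calc ∫⁻ t in Ioc 0 (1 / (M : ℝ)), ‖nb M t‖ₑ ^ 2 ≤ ∫⁻ t in Ioc 0 (1 / (M : ℝ)), 1 := by
          refine setLIntegral_mono' measurableSet_Ioc fun t _ => ?_
          rw [enorm_sq, ← ENNReal.ofReal_one]
          apply ENNReal.ofReal_le_ofReal
          apply pow_le_one₀ (norm_nonneg _)
          unfold nb
          rw [norm_real, Real.norm_of_nonneg (Int.fract_nonneg _)]
          exact (Int.fract_lt_one _).le
      _ = ENNReal.ofReal (1 / M) := by
          rw [setLIntegral_const, Real.volume_Ioc, one_mul, sub_zero]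
  have h2 : ∫⁻ t in Ioi (1 / (M : ℝ)), ‖nb M t‖ₑ ^ 2 ≤ ENNReal.ofReal (1 / M) := by
    have hi : IntegrableOn (fun t : ℝ => (1 / (M : ℝ)) ^ 2 * t ^ (-2 : ℝ)) (Ioi (1 / (M : ℝ))) :=
      (integrableOn_Ioi_rpow_of_lt (by norm_num) (by positivity)).const_mul _
    calc ∫⁻ t in Ioi (1 / (M : ℝ)), ‖nb M t‖ₑ ^ 2
        ≤ ∫⁻ t in Ioi (1 / (M : ℝ)), ENNReal.ofReal ((1 / (M : ℝ)) ^ 2 * t ^ (-2 : ℝ)) := by
          refine setLIntegral_mono' measurableSet_Ioi fun t ht => ?_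
          have ht0 : 0 < t := lt_trans (by positivity) ht
          rw [enorm_sq]
          apply ENNReal.ofReal_le_ofReal
          unfold nb
          rw [norm_real, Real.norm_of_nonneg (Int.fract_nonneg _)]
          have h3 : Int.fract (1 / (M * t)) ≤ 1 / (M * t) := by
            rw [Int.fract]
            have : (0 : ℝ) ≤ (⌊1 / ((M : ℝ) * t)⌋ : ℝ) := by
              have : (0 : ℤ) ≤ ⌊1 / ((M : ℝ) * t)⌋ := Int.floor_nonneg.2 (by positivity)
              exact_mod_cast this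
            linarith
          calc Int.fract (1 / (M * t)) ^ 2 ≤ (1 / (M * t)) ^ 2 :=
                pow_le_pow_left₀ (Int.fract_nonneg _) h3 2
            _ = (1 / (M : ℝ)) ^ 2 * t ^ (-2 : ℝ) := by
                rw [Real.rpow_neg ht0.le, Real.rpow_two]
                field_simp
      _ = ENNReal.ofReal (∫ t in Ioi (1 / (M : ℝ)), (1 / (M : ℝ)) ^ 2 * t ^ (-2 : ℝ)) := by
          rw [ofReal_integral_eq_lintegral_ofReal hi]
          filter_upwards [ae_restrict_mem measurableSet_Ioi] with t ht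
          have ht0 : 0 < t := lt_trans (by positivity) ht
          positivity
      _ = ENNReal.ofReal (1 / M) := by
          congr 1
          rw [integral_const_mul, integral_Ioi_rpow_of_lt (by norm_num) (by positivity)]
          norm_num
          rw [Real.rpow_neg_one, inv_inv]
          field_simp
  rw [e1, ENNReal.ofReal_add (by positivity) (by positivity)]
  calc ∫⁻ t in Ioi (0 : ℝ), ‖nb M t‖ₑ ^ 2
      ≤ ∫⁻ t in Ioc 0 (1 / (M : ℝ)) ∪ Ioi (1 / (M : ℝ)), ‖nb M t‖ₑ ^ 2 := lintegral_mono_set hcov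
    _ ≤ _ := (lintegral_union_le _ _ _).trans (add_le_add h1 h2)

/-- the coefficients -/
noncomputable def al (k : ℕ → ℕ) (r n : ℕ) : ℝ :=
  ∑ i ∈ Finset.range r, (-1 : ℝ) ^ i * (if k i ≤ n then 1 else 0)

lemma al_norm {k : ℕ → ℕ} (hk : StrictMono k) (r n : ℕ) : ‖(al k r n : ℂ)‖ ≤ 1 := by
  have h1 := alt_bound r (fun i => if k i ≤ n then (1 : ℝ) else 0) (by
    intro i j hij
    simp only
    split_ifs with h1 h2
    · exact le_rfl
    · exact absurd ((hk.monotone hij).trans h1) h2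
    · exact zero_le_one
    · exact le_rfl) (by
    intro i
    split_ifs
    · exact zero_le_one
    · exact le_rfl)
  have e : al k r n = ∑ i ∈ Finset.range r, (-1 : ℝ) ^ i * (if k i ≤ n then (1 : ℝ) else 0) := rfl
  rw [norm_real, e, Real.norm_of_nonneg h1.1]
  refine h1.2.trans ?_
  split_ifs
  · exact le_rfl
  · exact zero_le_one

lemma telesc (u : ℕ → ℂ) {k M : ℕ} (hkM : k ≤ M) :
    u k = ∑ n ∈ Finset.Ico k M, (u n - u (n + 1)) + u M := by
  induction M, hkM using Nat.le_induction with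
  | base => simp
  | succ M hM ih =>
    rw [Finset.sum_Ico_succ_top hM]
    rw [ih]
    ring

lemma alt_eq {k : ℕ → ℕ} {r K M : ℕ} (h1 : ∀ i < r, K ≤ k i) (h2 : ∀ i < r, k i ≤ M) (t : ℝ) :
    ∑ i ∈ Finset.range r, (-1 : ℂ) ^ i * nb (k i) t =
      Hs (fun n => (al k r n : ℂ)) (Finset.Ico K M) t + (al k r M : ℂ) * nb M t := by
  have e1 : ∀ i ∈ Finset.range r, (-1 : ℂ) ^ i * nb (k i) t =
      (∑ n ∈ Finset.Ico K M, (-1 : ℂ) ^ i * (if k i ≤ n then 1 else 0) * (h n t : ℂ)) +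
        (-1 : ℂ) ^ i * nb M t := by
    intro i hi
    rw [Finset.mem_range] at hi
    rw [telesc (fun n => nb n t) (h2 i hi), mul_add, Finset.mul_sum]
    congr 1
    have e2 : Finset.Ico (k i) M = (Finset.Ico K M).filter (fun n => k i ≤ n) := by
      ext n
      simp only [Finset.mem_Ico, Finset.mem_filter]
      have := h1 i hi
      omega
    rw [e2, Finset.sum_filter]
    refine Finset.sum_congr rfl fun n _ => ?_
    split_ifs with h3
    · rw [h_cast]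
      ring
    · ring
  rw [Finset.sum_congr rfl e1, Finset.sum_add_distrib, Finset.sum_comm]
  unfold Hs
  congr 1
  · refine Finset.sum_congr rfl fun n _ => ?_
    rw [← Finset.sum_mul]
    congr 1
    unfold al
    push_cast
    refine Finset.sum_congr rfl fun i _ => ?_
    split_ifs <;> simp
  · rw [← Finset.sum_mul]
    congr 1
    unfold al
    push_cast
    refine Finset.sum_congr rfl fun i hi => ?_
    rw [Finset.mem_range] at hi
    rw [if_pos (h2 i hi)]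
    simp

theorem alternating_core {B c : ℝ} (hB0 : 0 ≤ B) (hB : B < 1 / 2) (hc0 : 0 ≤ c)
    (hblk : ∀ k : ℕ → ℕ, StrictMono k → ∀ r N : ℕ, 1 ≤ N →
      nrm (Hs (fun n => (al k r n : ℂ)) (Finset.Ico N (2 * N))) ≤
        ENNReal.ofReal (c * (N : ℝ) ^ (B - 1 / 2))) :
    ∃ C : ℝ, ∀ k : ℕ → ℕ, StrictMono k → 0 < k 0 → ∀ r M : ℕ,
    ∑ m ∈ Finset.Icc 1 M,
        (∑ i ∈ Finset.range r, (-1 : ℝ) ^ i * Int.fract ((m : ℝ) / k i)) ^ 2 / (m : ℝ) ^ 2 ≤
      C * (k 0 : ℝ) ^ (2 * B - 1) := by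
  set D : ℝ := c * (1 / (1 - (2 : ℝ) ^ (B - 1 / 2))) + √2 with hD
  have hq1 : (2 : ℝ) ^ (B - 1 / 2) < 1 :=
    Real.rpow_lt_one_of_one_lt_of_neg (by norm_num) (by linarith)
  have hq2 : 0 ≤ 1 / (1 - (2 : ℝ) ^ (B - 1 / 2)) := by
    apply div_nonneg zero_le_one
    linarith
  have hD0 : 0 ≤ D := by positivity
  refine ⟨4 * D ^ 2 + 4, fun k hk hk0 r M => ?_⟩
  have hK1 : 1 ≤ k 0 := hk0
  have hK' : (1 : ℝ) ≤ k 0 := by exact_mod_cast hK1
  have hK0 : (0 : ℝ) < k 0 := by linarith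
  have hkpos : ∀ i, 0 < k i := fun i => lt_of_lt_of_le hk0 (hk.monotone (Nat.zero_le i))
  -- a large power of two
  set P : ℕ := 2 ^ (k r) * k 0 with hP
  have hP1 : ∀ i < r, k i ≤ P := by
    intro i hi
    calc k i ≤ k r := hk.monotone hi.le
      _ ≤ 2 ^ (k r) := (Nat.lt_two_pow_self).le
      _ ≤ 2 ^ (k r) * k 0 := Nat.le_mul_of_pos_right _ hk0
  have hP0 : k 0 ≤ P := Nat.le_mul_of_pos_left _ (by positivity)
  have hPpos : 0 < P := by omega
  have hP2 : (k 0 : ℝ) ≤ P := by exact_mod_cast hP0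
  -- the norm
  have hn : nrm (fun t => ∑ i ∈ Finset.range r, (-1 : ℂ) ^ i * nb (k i) t) ≤
      ENNReal.ofReal (D * (k 0 : ℝ) ^ (B - 1 / 2)) := by
    have e : (fun t => ∑ i ∈ Finset.range r, (-1 : ℂ) ^ i * nb (k i) t) =
        (Hs (fun n => (al k r n : ℂ)) (Finset.Ico (k 0) P)) +
          (fun t => (al k r P : ℂ) * nb P t) := by
      funext t
      exact alt_eq (fun i _ => hk.monotone (Nat.zero_le i)) hP1 t
    have hA1 : Adm (Hs (fun n => (al k r n : ℂ)) (Finset.Ico (k 0) P)) := adm_Hs _ fun n hn => by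
      rw [Finset.mem_Ico] at hn
      omega
    have hA2 : Adm (fun t => (al k r P : ℂ) * nb P t) := (adm_nb hPpos).mul _
    rw [e, nrm]
    refine (eLpNorm_add_le hA1.1.aestronglyMeasurable hA2.1.aestronglyMeasurable
      (by norm_num)).trans ?_
    have h1 := dyadic hc0 hB (hblk k hk r) hK1 (k r)
    have h2 : eLpNorm (fun t => (al k r P : ℂ) * nb P t) 2 (volume.restrict (Ioi 0)) ≤
        ENNReal.ofReal (√2 * (k 0 : ℝ) ^ (B - 1 / 2)) := by
      calc eLpNorm (fun t => (al k r P : ℂ) * nb P t) 2 (volume.restrict (Ioi 0))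
          ≤ eLpNorm (nb P) 2 (volume.restrict (Ioi 0)) := by
            refine eLpNorm_mono fun t => ?_
            rw [norm_mul]
            exact mul_le_of_le_one_left (norm_nonneg _) (al_norm hk r P)
        _ ≤ ENNReal.ofReal (√2 * (P : ℝ) ^ (-(1 / 2) : ℝ)) := nb_norm hPpos
        _ ≤ _ := by
            apply ENNReal.ofReal_le_ofReal
            have h3 : (P : ℝ) ^ (-(1 / 2) : ℝ) ≤ (k 0 : ℝ) ^ (-(1 / 2) : ℝ) :=
              Real.rpow_le_rpow_of_nonpos hK0 hP2 (by norm_num)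
            have h4 : (k 0 : ℝ) ^ (-(1 / 2) : ℝ) ≤ (k 0 : ℝ) ^ (B - 1 / 2) :=
              Real.rpow_le_rpow_of_exponent_le hK' (by linarith)
            have h5 := h3.trans h4
            gcongr
    refine (add_le_add h1 h2).trans (le_of_eq ?_)
    rw [← ENNReal.ofReal_add (by positivity) (by positivity)]
    congr 1
    rw [hD]
    ring
  -- the integral
  have hint : ∫⁻ t in Ioi (0 : ℝ), ENNReal.ofReal
      (Gs (Finset.range r) (fun i => (-1 : ℝ) ^ i) k t ^ 2) ≤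
      ENNReal.ofReal ((D * (k 0 : ℝ) ^ (B - 1 / 2)) ^ 2) := by
    rw [ENNReal.ofReal_pow (by positivity)]
    refine le_trans (le_of_eq ?_) (pow_le_pow_left' hn 2)
    rw [nrm_sq]
    refine lintegral_congr fun t => ?_
    rw [enorm_sq]
    congr 1
    have e : ∑ i ∈ Finset.range r, (-1 : ℂ) ^ i * nb (k i) t =
        ((Gs (Finset.range r) (fun i => (-1 : ℝ) ^ i) k t : ℝ) : ℂ) := by
      unfold Gs nb
      push_cast
      rfl
    rw [e, norm_real, Real.norm_eq_abs, sq_abs]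
  have hfin := sum_le_int (fun i _ => hkpos i) (by positivity) hint M
  have hS := alt_bound r (fun i => 1 / (k i : ℝ)) (by
    intro i j hij
    have h1 : (k i : ℝ) ≤ k j := by exact_mod_cast hk.monotone hij
    have h2 : (0 : ℝ) < k i := by exact_mod_cast hkpos i
    exact one_div_le_one_div_of_le h2 h1) (fun i => by positivity)
  have hS2 : Ss (Finset.range r) (fun i => (-1 : ℝ) ^ i) k ^ 2 ≤ (k 0 : ℝ) ^ (2 * B - 1) := by
    have h1 : Ss (Finset.range r) (fun i => (-1 : ℝ) ^ i) k ^ 2 ≤ (1 / (k 0 : ℝ)) ^ 2 :=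
      pow_le_pow_left₀ hS.1 hS.2 2
    refine h1.trans ?_
    rw [one_div, inv_pow, ← Real.rpow_natCast, ← Real.rpow_neg hK0.le]
    apply Real.rpow_le_rpow_of_exponent_le hK'
    push_cast
    linarith
  have e3 : (D * (k 0 : ℝ) ^ (B - 1 / 2)) ^ 2 = D ^ 2 * (k 0 : ℝ) ^ (2 * B - 1) := by
    rw [mul_pow, ← Real.rpow_natCast ((k 0 : ℝ) ^ (B - 1 / 2)), ← Real.rpow_mul hK0.le]
    congr 2
    push_cast
    ring
  rw [e3] at hfin
  calc _ ≤ 4 * (D ^ 2 * (k 0 : ℝ) ^ (2 * B - 1)) +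
        4 * Ss (Finset.range r) (fun i => (-1 : ℝ) ^ i) k ^ 2 := hfin
    _ ≤ 4 * (D ^ 2 * (k 0 : ℝ) ^ (2 * B - 1)) + 4 * (k 0 : ℝ) ^ (2 * B - 1) := by linarith
    _ = _ := by ring

theorem alternating_of_bessel {A : ℝ} (hA : 0 ≤ A) (hb : Bessel A) : Alternating A := by
  intro B hAB hB
  obtain ⟨C, hC⟩ := hb B hAB
  have hC0 : 0 ≤ C := by
    have h1 := hC 1 le_rfl (fun _ => 1)
    have h2 : 0 ≤ ∫ t in Ioi (0 : ℝ), ‖∑ n ∈ Finset.Ico 1 (2 * 1), (1 : ℂ) * (h n t : ℂ)‖ ^ 2 :=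
      integral_nonneg fun t => by positivity
    have h3 := h2.trans h1
    simpa using h3
  exact alternating_core (by linarith) hB (Real.sqrt_nonneg C)
    fun k hk r N hN => block hC0 hC (fun n => al_norm hk r n) hN

end Pool.Agent.NBL
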