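import Mathlib
import Pool.Agent.NBL.BesselA

/-!
# The norm of one function
-/

set_option autoImplicit false

open MeasureTheory Complex Set Filter Topology
open scoped ENNReal

namespace Pool.Agent.NBL

lemma h_abs_le_one (N : ℕ) (t : ℝ) : |h N t| ≤ 1 := by
  unfold h
  have h1 := Int.fract_nonneg (1 / (N * t))
  have h2 := Int.fract_lt_one (1 / (N * t))
  have h3 := Int.fract_nonneg (1 / ((N + 1) * t))
  have h4 := Int.fract_lt_one (1 / ((N + 1) * t))
  rw [abs_le]
  constructor <;> linarith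

lemma h_pt {N : ℕ} (hN : 1 ≤ N) {t : ℝ} (ht : 0 < t) :
    ‖(h N t : ℂ)‖ₑ ^ 2 ≤ (Ioc (0 : ℝ) (1 / (N : ℝ) ^ 2)).indicator (fun _ => (1 : ℝ≥0∞)) t +
      (Ioi (1 / (N : ℝ) ^ 2)).indicator
        (fun t => ENNReal.ofReal ((1 / (N * (N + 1) : ℝ)) ^ 2 * t ^ (-2 : ℝ))) t +
      ∑ j ∈ Finset.Icc 1 N, (Ioc (1 / (((N : ℝ) + 1) * j)) (1 / (N * j))).indicator
        (fun _ => (1 : ℝ≥0∞)) t := by
  have hN' : (1 : ℝ) ≤ N := by exact_mod_cast hN
  have hN0 : (0 : ℝ) < N := by linarith
  have hone : ‖(h N t : ℂ)‖ₑ ^ 2 ≤ 1 := by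
    rw [enorm_sq, ← ENNReal.ofReal_one]
    apply ENNReal.ofReal_le_ofReal
    rw [norm_real, Real.norm_eq_abs]
    have := h_abs_le_one N t
    have h0 := abs_nonneg (h N t)
    nlinarith
  by_cases htN : t ≤ 1 / (N : ℝ) ^ 2
  · rw [indicator_of_mem (show t ∈ Ioc (0 : ℝ) (1 / (N : ℝ) ^ 2) from ⟨ht, htN⟩)]
    refine hone.trans ?_
    rw [add_assoc]
    exact le_self_add
  · rw [not_le] at htN
    rw [indicator_of_mem (show t ∈ Ioi (1 / (N : ℝ) ^ 2) from htN)]
    set j : ℤ := ⌊1 / (N * t)⌋ with hj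
    set i : ℤ := ⌊1 / ((N + 1) * t)⌋ with hi
    have hval : h N t = 1 / (N * (N + 1)) * t⁻¹ - ((j - i : ℤ) : ℝ) := by
      unfold h Int.fract
      rw [← hj, ← hi]
      push_cast
      field_simp
      ring
    have hij : i ≤ j := by
      apply Int.floor_mono
      apply one_div_le_one_div_of_le (by positivity)
      nlinarith
    have htinv : t⁻¹ < (N : ℝ) ^ 2 := by
      rw [inv_lt_comm₀ ht (by positivity)]
      simpa using htN
    by_cases hJ : j - i = 0
    · refine le_trans ?_ (show ENNReal.ofReal ((1 / (N * (N + 1) : ℝ)) ^ 2 * t ^ (-2 : ℝ)) ≤ _ from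
        le_trans le_add_self le_self_add)
      rw [enorm_sq, hval, hJ]
      apply ENNReal.ofReal_le_ofReal
      rw [Int.cast_zero, sub_zero, norm_real, Real.norm_eq_abs, sq_abs, mul_pow,
        Real.rpow_neg ht.le, Real.rpow_two, inv_pow]
    · have hj1 : i + 1 ≤ j := by omega
      have h1 : (j : ℝ) ≤ 1 / (N * t) := Int.floor_le _
      have h2 : 1 / ((N + 1) * t) < (i : ℝ) + 1 := Int.lt_floor_add_one _
      have hi0 : 0 ≤ i := Int.floor_nonneg.2 (by positivity)
      have hj0 : 1 ≤ j := by omega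
      have h1' : (j : ℝ) * N ≤ t⁻¹ := by
        rw [le_div_iff₀ (by positivity)] at h1
        rw [← one_div, le_div_iff₀ ht]
        linarith
      have h2' : t⁻¹ < ((i : ℝ) + 1) * (N + 1) := by
        rw [div_lt_iff₀ (by positivity)] at h2
        rw [← one_div, div_lt_iff₀ ht]
        linarith
      have hjN : (j : ℝ) < N := by nlinarith
      have hjN' : j ≤ N := by
        have : (j : ℝ) ≤ ((N : ℤ) : ℝ) := by push_cast; exact hjN.le
        exact_mod_cast this
      have hji : (i : ℝ) + 1 ≤ j := by exact_mod_cast hj1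
      have hmem : j.toNat ∈ Finset.Icc 1 N := by
        rw [Finset.mem_Icc]
        omega
      have hjc : ((j.toNat : ℕ) : ℝ) = (j : ℝ) := by
        have : ((j.toNat : ℕ) : ℤ) = j := Int.toNat_of_nonneg (by omega)
        exact_mod_cast this
      have hjpos : (0 : ℝ) < j := by
        have : (1 : ℝ) ≤ j := by exact_mod_cast hj0
        linarith
      have htj : t ∈ Ioc (1 / (((N : ℝ) + 1) * (j.toNat : ℕ))) (1 / (N * (j.toNat : ℕ))) := by
        rw [hjc]
        constructor
        · rw [one_div, inv_lt_comm₀ (by positivity) ht]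
          nlinarith
        · rw [one_div, le_inv_comm₀ ht (by positivity)]
          linarith
      refine hone.trans (le_trans ?_ le_add_self)
      refine le_trans ?_ (Finset.single_le_sum (f := fun j : ℕ =>
        (Ioc (1 / (((N : ℝ) + 1) * j)) (1 / (N * j))).indicator (fun _ => (1 : ℝ≥0∞)) t)
        (fun _ _ => zero_le) hmem)
      rw [indicator_of_mem htj]

lemma h_norm {N : ℕ} (hN : 1 ≤ N) :
    ∫⁻ t in Ioi (0 : ℝ), ‖(h N t : ℂ)‖ₑ ^ 2 ≤
      ENNReal.ofReal ((3 + Real.log N) / (N : ℝ) ^ 2) := by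
  have hN' : (1 : ℝ) ≤ N := by exact_mod_cast hN
  have hN0 : (0 : ℝ) < N := by linarith
  have hlog : 0 ≤ Real.log N := Real.log_nonneg hN'
  have hm1 : Measurable fun t : ℝ =>
      (Ioc (0 : ℝ) (1 / (N : ℝ) ^ 2)).indicator (fun _ => (1 : ℝ≥0∞)) t :=
    measurable_const.indicator measurableSet_Ioc
  have hm2 : Measurable fun t : ℝ => (Ioi (1 / (N : ℝ) ^ 2)).indicator
        (fun t => ENNReal.ofReal ((1 / (N * (N + 1) : ℝ)) ^ 2 * t ^ (-2 : ℝ))) t := by
    refine Measurable.indicator ?_ measurableSet_Ioi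
    fun_prop
  have hm3 : ∀ j : ℕ, Measurable fun t : ℝ =>
      (Ioc (1 / (((N : ℝ) + 1) * j)) (1 / (N * j))).indicator (fun _ => (1 : ℝ≥0∞)) t :=
    fun j => measurable_const.indicator measurableSet_Ioc
  calc ∫⁻ t in Ioi (0 : ℝ), ‖(h N t : ℂ)‖ₑ ^ 2
      ≤ ∫⁻ t in Ioi (0 : ℝ), ((Ioc (0 : ℝ) (1 / (N : ℝ) ^ 2)).indicator (fun _ => (1 : ℝ≥0∞)) t +
      (Ioi (1 / (N : ℝ) ^ 2)).indicator
        (fun t => ENNReal.ofReal ((1 / (N * (N + 1) : ℝ)) ^ 2 * t ^ (-2 : ℝ))) t +
      ∑ j ∈ Finset.Icc 1 N, (Ioc (1 / (((N : ℝ) + 1) * j)) (1 / (N * j))).indicator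
        (fun _ => (1 : ℝ≥0∞)) t) := setLIntegral_mono' measurableSet_Ioi fun t ht => h_pt hN ht
    _ ≤ ∫⁻ t, ((Ioc (0 : ℝ) (1 / (N : ℝ) ^ 2)).indicator (fun _ => (1 : ℝ≥0∞)) t +
      (Ioi (1 / (N : ℝ) ^ 2)).indicator
        (fun t => ENNReal.ofReal ((1 / (N * (N + 1) : ℝ)) ^ 2 * t ^ (-2 : ℝ))) t +
      ∑ j ∈ Finset.Icc 1 N, (Ioc (1 / (((N : ℝ) + 1) * j)) (1 / (N * j))).indicator
        (fun _ => (1 : ℝ≥0∞)) t) := setLIntegral_le_lintegral _ _
    _ = ENNReal.ofReal (1 / (N : ℝ) ^ 2) +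
        ENNReal.ofReal ((1 / (N * (N + 1) : ℝ)) ^ 2 * (N : ℝ) ^ 2) +
        ∑ j ∈ Finset.Icc 1 N, ENNReal.ofReal (1 / (N * j) - 1 / (((N : ℝ) + 1) * j)) := by
        have hm12 : Measurable fun t : ℝ =>
            (Ioc (0 : ℝ) (1 / (N : ℝ) ^ 2)).indicator (fun _ => (1 : ℝ≥0∞)) t +
            (Ioi (1 / (N : ℝ) ^ 2)).indicator
              (fun t => ENNReal.ofReal ((1 / (N * (N + 1) : ℝ)) ^ 2 * t ^ (-2 : ℝ))) t := hm1.add hm2
        rw [lintegral_add_left hm12, lintegral_add_left hm1,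
          lintegral_finsetSum _ fun j _ => hm3 j]
        congr 1
        · congr 1
          · rw [lintegral_indicator measurableSet_Ioc, setLIntegral_const, one_mul,
              Real.volume_Ioc, sub_zero]
          · rw [lintegral_indicator measurableSet_Ioi,
              ← ofReal_integral_eq_lintegral_ofReal]
            · rw [integral_const_mul, integral_Ioi_rpow_of_lt (by norm_num) (by positivity)]
              congr 2
              rw [show (-2 + 1 : ℝ) = -1 by norm_num, Real.rpow_neg_one]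
              field_simp
            · exact (integrableOn_Ioi_rpow_of_lt (by norm_num) (by positivity)).const_mul _
            · filter_upwards [ae_restrict_mem measurableSet_Ioi] with t ht
              have : 0 < t := lt_trans (by positivity) ht
              positivity
        · refine Finset.sum_congr rfl fun j _ => ?_
          rw [lintegral_indicator measurableSet_Ioc, setLIntegral_const, one_mul,
            Real.volume_Ioc]
    _ = ENNReal.ofReal (1 / (N : ℝ) ^ 2 + (1 / (N * (N + 1) : ℝ)) ^ 2 * (N : ℝ) ^ 2 +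
        ∑ j ∈ Finset.Icc 1 N, (1 / (N * j) - 1 / (((N : ℝ) + 1) * j))) := by
        have hnn : ∀ j ∈ Finset.Icc 1 N, (0 : ℝ) ≤ 1 / (N * j) - 1 / (((N : ℝ) + 1) * j) := by
          intro j hj
          rw [Finset.mem_Icc] at hj
          have hj0 : (0 : ℝ) < j := by
            have : 0 < j := by omega
            exact_mod_cast this
          have : 1 / (((N : ℝ) + 1) * j) ≤ 1 / (N * j) :=
            one_div_le_one_div_of_le (by positivity) (by nlinarith)
          linarith
        rw [ENNReal.ofReal_add (by positivity) (Finset.sum_nonneg hnn),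
          ENNReal.ofReal_add (by positivity) (by positivity),
          ENNReal.ofReal_sum_of_nonneg hnn]
    _ ≤ _ := by
        apply ENNReal.ofReal_le_ofReal
        have h1 : (1 / (N * (N + 1) : ℝ)) ^ 2 * (N : ℝ) ^ 2 ≤ 1 / (N : ℝ) ^ 2 := by
          have e : (1 / (N * (N + 1) : ℝ)) ^ 2 * (N : ℝ) ^ 2 = 1 / ((N : ℝ) + 1) ^ 2 := by
            field_simp
          rw [e]
          exact one_div_le_one_div_of_le (by positivity) (by nlinarith)
        have h2 : ∑ j ∈ Finset.Icc 1 N, (1 / (N * j) - 1 / (((N : ℝ) + 1) * j)) ≤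
            (1 + Real.log N) / (N : ℝ) ^ 2 := by
          have e : ∀ j ∈ Finset.Icc 1 N, (1 / (N * j) - 1 / (((N : ℝ) + 1) * j)) =
              1 / (N * (N + 1)) * ((j : ℝ))⁻¹ := by
            intro j hj
            rw [Finset.mem_Icc] at hj
            have hj0 : (0 : ℝ) < j := by
              have : 0 < j := by omega
              exact_mod_cast this
            field_simp
            ring
          rw [Finset.sum_congr rfl e, ← Finset.mul_sum]
          have h3 : ∑ j ∈ Finset.Icc 1 N, ((j : ℝ))⁻¹ ≤ 1 + Real.log N := by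
            have := harmonic_le_one_add_log N
            rw [harmonic_eq_sum_Icc] at this
            push_cast at this
            exact this
          calc 1 / ((N : ℝ) * (N + 1)) * ∑ j ∈ Finset.Icc 1 N, ((j : ℝ))⁻¹
              ≤ 1 / (N : ℝ) ^ 2 * (1 + Real.log N) := by
                refine mul_le_mul ?_ h3 (Finset.sum_nonneg fun j _ => by positivity) (by positivity)
                exact one_div_le_one_div_of_le (by positivity) (by nlinarith)
            _ = _ := by ring
        calc _ ≤ 1 / (N : ℝ) ^ 2 + 1 / (N : ℝ) ^ 2 + (1 + Real.log N) / (N : ℝ) ^ 2 := by gcongr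
          _ = _ := by ring

end Pool.Agent.NBL
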