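import Mathlib
import Pool.Agent.Lib.ThickFailure

/-!
# On the Lindelöf hypothesis small values of zeta are rare
-/

set_option autoImplicit false

open MeasureTheory Complex Set Filter Topology
open Pool.Agent.Lib.TwoConst Pool.Agent.Lib.ZetaLine Pool.Agent.Lib.ThickFailure

namespace Pool.Agent.NBL

lemma norm_term (t : ℝ) (n : ℕ) :
    ‖(1 : ℂ) / ((n : ℂ) + 1) ^ (2 + (t : ℂ) * I)‖ = 1 / ((n : ℝ) + 1) ^ 2 := by
  have h1 : ((n : ℂ) + 1) = (((n : ℝ) + 1 : ℝ) : ℂ) := by push_cast; ring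
  have hpos : (0 : ℝ) < (n : ℝ) + 1 := by positivity
  rw [norm_div, norm_one, h1, Complex.norm_cpow_eq_rpow_re_of_pos hpos]
  have h2 : (2 + (t : ℂ) * I).re = 2 := by simp
  rw [h2]
  norm_num

lemma hasSum_tail : HasSum (fun n : ℕ => (1 : ℝ) / ((n : ℝ) + 1 + 1) ^ 2)
    (Real.pi ^ 2 / 6 - 1) := by
  have h := hasSum_zeta_two
  have h2 := (hasSum_nat_add_iff' 2).2 h
  have e : (∑ i ∈ Finset.range 2, (1 : ℝ) / (i : ℝ) ^ 2) = 1 := by
    rw [Finset.sum_range_succ, Finset.sum_range_succ, Finset.sum_range_zero]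
    norm_num
  rw [e] at h2
  refine h2.congr_fun ?_
  intro n
  push_cast
  ring_nf

/-- a lower bound on the line `Re s = 2` -/
theorem zeta_two_lower (t : ℝ) : (1 / 4 : ℝ) ≤ ‖riemannZeta (2 + t * I)‖ := by
  have hs : (1 : ℝ) < (2 + (t : ℂ) * I).re := by simp
  rw [zeta_eq_tsum_one_div_nat_add_one_cpow hs]
  have hsum0 : Summable (fun n : ℕ => ‖(1 : ℂ) / ((n : ℂ) + 1) ^ (2 + (t : ℂ) * I)‖) := by
    have : (fun n : ℕ => ‖(1 : ℂ) / ((n : ℂ) + 1) ^ (2 + (t : ℂ) * I)‖) =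
        fun n : ℕ => (1 : ℝ) / ((n : ℝ) + 1) ^ 2 := by
      funext n; exact norm_term t n
    rw [this]
    have h := (summable_nat_add_iff 1).2 hasSum_zeta_two.summable
    refine h.congr ?_
    intro n
    push_cast
    rfl
  have hsum := hsum0.of_norm
  rw [hsum.tsum_eq_zero_add]
  have h0 : (1 : ℂ) / (((0 : ℕ) : ℂ) + 1) ^ (2 + (t : ℂ) * I) = 1 := by simp
  rw [h0]
  have hsum1 : Summable (fun n : ℕ => ‖(1 : ℂ) / (((n + 1 : ℕ) : ℂ) + 1) ^ (2 + (t : ℂ) * I)‖) :=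
    (summable_nat_add_iff 1).2 hsum0
  have hb : ‖∑' n : ℕ, (1 : ℂ) / (((n + 1 : ℕ) : ℂ) + 1) ^ (2 + (t : ℂ) * I)‖ ≤
      Real.pi ^ 2 / 6 - 1 := by
    refine (norm_tsum_le_tsum_norm hsum1).trans ?_
    have : (fun n : ℕ => ‖(1 : ℂ) / (((n + 1 : ℕ) : ℂ) + 1) ^ (2 + (t : ℂ) * I)‖) =
        fun n : ℕ => (1 : ℝ) / ((n : ℝ) + 1 + 1) ^ 2 := by
      funext n
      rw [norm_term t (n + 1)]
      push_cast
      rfl
    rw [this, hasSum_tail.tsum_eq]
  have hpi : Real.pi ^ 2 / 6 - 1 ≤ 3 / 4 := by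
    have h1 := Real.pi_lt_d2
    have h2 := Real.pi_pos
    nlinarith
  have htri := norm_sub_norm_le (1 : ℂ)
    (-∑' n : ℕ, (1 : ℂ) / (((n + 1 : ℕ) : ℂ) + 1) ^ (2 + (t : ℂ) * I))
  rw [norm_neg, sub_neg_eq_add, norm_one] at htri
  linarith

lemma boundOn_of_line (h : ∀ ε : ℝ, 0 < ε → ∃ C : ℝ, ∀ t : ℝ,
    ‖riemannZeta (1 / 2 + t * I)‖ ≤ C * (1 + |t|) ^ ((0 : ℝ) + ε)) {B : ℝ} (hB : 0 < B) :
    BoundOn (1 / 2) B := by
  obtain ⟨c, hc, hD⟩ := (result 0 le_rfl).1 h (B / 2) (by linarith)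
  have := boundOn_of_density (E := B / 2) (by linarith) hc hD (B / 2) (by linarith)
  rwa [add_halves] at this

/-- the measure of the set of small values in a unit interval -/
theorem small_rare (h : ∀ ε : ℝ, 0 < ε → ∃ C : ℝ, ∀ t : ℝ,
    ‖riemannZeta (1 / 2 + t * I)‖ ≤ C * (1 + |t|) ^ ((0 : ℝ) + ε)) {ε δ : ℝ} (hε : 0 < ε)
    (hδ : 0 < δ) :
    ∃ T₀ : ℝ, ∀ T : ℝ, T₀ ≤ T →
      volume.real {t : ℝ | t ∈ Icc T (T + 1) ∧ ‖riemannZeta (1 / 2 + t * I)‖ < T ^ (-ε)} ≤ δ := by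
  -- parameters
  set β : ℝ := min 1 (δ * ε / 100) with hβ
  have hβ0 : 0 < β := lt_min one_pos (by positivity)
  have hβ1 : β ≤ 1 := min_le_left _ _
  have hβ2 : β ≤ δ * ε / 100 := min_le_right _ _
  obtain ⟨C, T₁, hC, hT₁, hC'⟩ := boundOn_of_line h hβ0
  set η : ℝ := δ / 20 with hη
  have hη0 : 0 < η := by positivity
  set K : ℝ := 3 + 1 / η with hK
  have hηi : 0 < 1 / η := by positivity
  have hpi := Real.pi_gt_three
  have hKL2 : 2 * (1 / 2) / (Real.pi * (K - 1 / 2)) ≤ η := by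
    rw [div_le_iff₀ (by
      have : 0 < K - 1 / 2 := by rw [hK]; linarith
      positivity)]
    have h1 : 1 / η ≤ K - 1 / 2 := by rw [hK]; linarith
    have h2 : 1 ≤ η * (K - 1 / 2) := by
      calc (1 : ℝ) = η * (1 / η) := by field_simp
        _ ≤ η * (K - 1 / 2) := mul_le_mul_of_nonneg_left h1 hη0.le
    nlinarith
  have hK3 : 3 < K := by rw [hK]; linarith
  -- the limit
  have hlim : Tendsto (fun T : ℝ => (2 * C) * T ^ (-(6 / 100 * (δ * ε)))) atTop
      (𝓝 ((2 * C) * 0)) :=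
    (tendsto_rpow_neg_atTop (by positivity)).const_mul _
  rw [mul_zero] at hlim
  obtain ⟨T₂, hT₂⟩ := (eventually_atTop).1 (hlim.eventually (gt_mem_nhds
    (show (0 : ℝ) < 1 / 4 by norm_num)))
  refine ⟨max T₂ (T₁ + K + 1), fun T hT => ?_⟩
  have hTa : T₂ ≤ T := (le_max_left _ _).trans hT
  have hTb : T₁ + K + 1 ≤ T := (le_max_right _ _).trans hT
  have hT1 : 1 ≤ T := by linarith
  have hT0 : 0 < T := by linarith
  have hsmall := hT₂ T hTa
  by_contra hcon
  rw [not_le] at hcon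
  set S : Set ℝ := {t : ℝ | t ∈ Icc T (T + 1) ∧ ‖riemannZeta (1 / 2 + t * I)‖ < T ^ (-ε)} with hS
  set T' : ℝ := T + 1 / 2 with hT'
  set P₀ : ℝ := T ^ (-ε) with hP₀
  have hP₀0 : 0 < P₀ := by positivity
  let f : ℂ → ℂ := fun z => riemannZeta (1 / 2 + T' * I + z)
  let w : ℝ → ℝ := fun y => W P₀ (T' + y)
  have hw : Continuous w := (continuous_W P₀).comp (continuous_const.add continuous_id)
  set Λ : ℝ := (ε + β) * Real.log T with hΛ
  have hlogT : 0 ≤ Real.log T := Real.log_nonneg hT1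
  have hΛ0 : 0 ≤ Λ := mul_nonneg (by linarith) hlogT
  set M₀ : ℝ := 2 * C * T ^ β with hM₀
  have hTβ : 0 < T ^ β := by positivity
  have hM₀0 : 0 ≤ M₀ := by positivity
  have him : ∀ z : ℂ, (1 / 2 + T' * I + z).im = T' + z.im := by intro z; simp
  have hre : ∀ z : ℂ, (1 / 2 + T' * I + z).re = 1 / 2 + z.re := by intro z; simp
  have hfd : ∀ z : ℂ, 0 ≤ z.re → z.re ≤ K → |z.im| ≤ K → DifferentiableAt ℂ f z := by
    intro z h1 _ h3
    have hne : 1 / 2 + T' * I + z ≠ 1 := by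
      intro h
      have := congrArg Complex.im h
      rw [him, one_im] at this
      rw [abs_le] at h3
      linarith
    have := differentiableAt_riemannZeta hne
    exact this.comp z (by fun_prop)
  have h2β : (2 : ℝ) ^ β ≤ 2 := by
    calc (2 : ℝ) ^ β ≤ (2 : ℝ) ^ (1 : ℝ) := Real.rpow_le_rpow_of_exponent_le (by norm_num) hβ1
      _ = 2 := Real.rpow_one 2
  have hfb : ∀ z : ℂ, 0 ≤ z.re → z.re ≤ K → |z.im| ≤ K → ‖f z‖ ≤ M₀ := by
    intro z h1 _ h3
    rw [abs_le] at h3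
    have h4 := hC' (1 / 2 + T' * I + z) (by rw [hre]; linarith) (by rw [him]; linarith)
    refine h4.trans ?_
    rw [him]
    have h5 : (T' + z.im) ^ β ≤ (2 * T) ^ β :=
      Real.rpow_le_rpow (by linarith) (by linarith) hβ0.le
    rw [Real.mul_rpow (by norm_num) hT0.le] at h5
    calc C * (T' + z.im) ^ β ≤ C * (2 ^ β * T ^ β) := by gcongr
      _ ≤ C * (2 * T ^ β) := by gcongr
      _ = M₀ := by rw [hM₀]; ring
  have hl : ∀ y : ℝ, |y| ≤ K → ‖f (y * I)‖ * Real.exp (Λ * w y) ≤ M₀ := by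
    intro y hy
    have hfy : f (y * I) = riemannZeta (1 / 2 + ((T' + y : ℝ) : ℂ) * I) := by
      simp only [f]
      congr 1
      push_cast
      ring
    by_cases hbig : 2 * P₀ ≤ ‖riemannZeta (1 / 2 + ((T' + y : ℝ) : ℂ) * I)‖
    · have h0 : w y = 0 := W_eq_zero hP₀0 hbig
      rw [h0, mul_zero, Real.exp_zero, mul_one]
      exact hfb _ (by simp) (by simpa using (by linarith : (0 : ℝ) ≤ K)) (by simpa using hy)
    · push Not at hbig
      rw [hfy]
      have h1 : Real.exp (Λ * w y) ≤ T ^ (ε + β) := by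
        rw [Real.rpow_def_of_pos hT0, Real.exp_le_exp]
        have := W_le_one P₀ (T' + y)
        calc Λ * w y ≤ Λ * 1 := mul_le_mul_of_nonneg_left this hΛ0
          _ = Real.log T * (ε + β) := by rw [hΛ]; ring
      have h2 : T ^ (-ε) * T ^ (ε + β) = T ^ β := by
        rw [← Real.rpow_add hT0]; congr 1; ring
      calc ‖riemannZeta (1 / 2 + ((T' + y : ℝ) : ℂ) * I)‖ * Real.exp (Λ * w y)
          ≤ (2 * P₀) * T ^ (ε + β) := by
            apply mul_le_mul hbig.le h1 (Real.exp_pos _).le (by positivity)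
        _ = 2 * T ^ β := by rw [← h2, hP₀]; ring
        _ ≤ M₀ := by
            rw [hM₀]
            have : T ^ β ≤ C * T ^ β := le_mul_of_one_le_left hTβ.le hC
            linarith
  obtain ⟨x₀, hx₀, hx₀a, hmain⟩ := two_const hw (fun t => W_nonneg _ _) (fun t => W_le_one _ _)
    (L := 1 / 2) (K := K) (η := η) (a := 1) (Λ := Λ) (M₀ := M₀) (by norm_num) hη0 one_pos hΛ0 hM₀0
    hKL2 (by linarith) hfd hfb hl
  have hm := hmain (3 / 2) (by norm_num) (by linarith)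
  -- the Poisson integral
  have hSm : MeasurableSet S := by
    exact measurableSet_Icc.inter
      (measurableSet_lt continuous_zeta_line.norm.measurable measurable_const)
  have hint : δ ≤ ∫ t in (-(1 / 2) : ℝ)..(1 / 2), w t := by
    have hshift : ∫ t in (-(1 / 2) : ℝ)..(1 / 2), w t = ∫ t in T..(T + 1), W P₀ t := by
      have := intervalIntegral.integral_comp_add_left (f := W P₀) (a := -(1 / 2)) (b := 1 / 2) T'
      simp only [w]
      rw [this, hT']
      congr 1 <;> ring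
    rw [hshift]
    refine hcon.le.trans ?_
    exact Pool.Agent.Lib.PoissonLower.integral_ge (continuous_W P₀) (W_nonneg P₀) zero_le_one hSm
      (fun t ht => ht.1) fun t ht => W_eq_one hP₀0 ht.2.le
  have hu : 12 / 100 * δ ≤ 1 / Real.pi * ∫ t in (-(1 / 2) : ℝ)..(1 / 2),
      w t * P (3 / 2 + x₀) 0 t := by
    have h1 : 38 / 100 * ∫ t in (-(1 / 2) : ℝ)..(1 / 2), w t ≤
        ∫ t in (-(1 / 2) : ℝ)..(1 / 2), w t * P (3 / 2 + x₀) 0 t := by
      rw [← intervalIntegral.integral_const_mul]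
      apply intervalIntegral.integral_mono_on (by norm_num)
      · exact (continuous_const.mul hw).intervalIntegrable _ _
      · exact (hw.mul (continuous_P (by linarith) 0)).intervalIntegrable _ _
      · intro t ht
        rw [mul_comm]
        apply mul_le_mul_of_nonneg_left _ (W_nonneg _ _)
        unfold P
        rw [le_div_iff₀ (by positivity)]
        have h2 : t ^ 2 ≤ 1 / 4 := by nlinarith [ht.1, ht.2]
        have h3 : (0 - t) ^ 2 = t ^ 2 := by ring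
        rw [h3]
        nlinarith
    have h2 : 38 / 100 * δ ≤ ∫ t in (-(1 / 2) : ℝ)..(1 / 2), w t * P (3 / 2 + x₀) 0 t := by
      linarith
    have h3 : 6 / 19 ≤ 1 / Real.pi := by
      rw [div_le_div_iff₀ (by norm_num) Real.pi_pos]
      linarith [Real.pi_lt_d2]
    calc 12 / 100 * δ = 6 / 19 * (38 / 100 * δ) := by ring
      _ ≤ 1 / Real.pi * ∫ t in (-(1 / 2) : ℝ)..(1 / 2), w t * P (3 / 2 + x₀) 0 t :=
          mul_le_mul h3 h2 (by positivity) (by positivity)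
  -- conclusion
  have hfx : f ((3 / 2 : ℝ) : ℂ) = riemannZeta (2 + T' * I) := by
    simp only [f]
    congr 1
    push_cast
    ring
  rw [hfx] at hm
  have hz := zeta_two_lower T'
  have h6 : (1 / 4) * Real.exp (Λ * (12 / 100 * δ)) ≤ M₀ * Real.exp (Λ * η) := by
    refine le_trans ?_ hm
    gcongr
  have h7 : 1 / 4 ≤ M₀ * Real.exp (-(Λ * (7 / 100 * δ))) := by
    have e1 : Real.exp (Λ * (12 / 100 * δ)) * Real.exp (-(Λ * (12 / 100 * δ))) = 1 := by
      rw [← Real.exp_add]; simp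
    calc (1 : ℝ) / 4 = (1 / 4 * Real.exp (Λ * (12 / 100 * δ))) *
          Real.exp (-(Λ * (12 / 100 * δ))) := by rw [mul_assoc, e1, mul_one]
      _ ≤ (M₀ * Real.exp (Λ * η)) * Real.exp (-(Λ * (12 / 100 * δ))) := by gcongr
      _ = M₀ * Real.exp (-(Λ * (7 / 100 * δ))) := by
          rw [mul_assoc, ← Real.exp_add, hη]
          congr 2
          ring
  have h8 : M₀ * Real.exp (-(Λ * (7 / 100 * δ))) ≤ (2 * C) * T ^ (-(6 / 100 * (δ * ε))) := by
    rw [hM₀, mul_assoc]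
    apply mul_le_mul_of_nonneg_left _ (by linarith)
    rw [Real.rpow_def_of_pos hT0, Real.rpow_def_of_pos hT0, ← Real.exp_add]
    apply Real.exp_le_exp.2
    rw [hΛ]
    have h9 : β ≤ (ε + β) * (7 / 100 * δ) - 6 / 100 * (δ * ε) := by
      have : 0 ≤ β * (7 / 100 * δ) := by positivity
      linarith
    nlinarith
  linarith

lemma norm_zeta_neg (x : ℝ) :
    ‖riemannZeta (1 / 2 + ((-x : ℝ) : ℂ) * I)‖ = ‖riemannZeta (1 / 2 + (x : ℂ) * I)‖ := by
  have h : (1 / 2 + ((-x : ℝ) : ℂ) * I) = (starRingEnd ℂ) (1 / 2 + (x : ℂ) * I) := by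
    apply Complex.ext <;> simp
  rw [h, riemannZeta_conj, Complex.norm_conj]

end Pool.Agent.NBL
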