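import Mathlib
import Pool.Agent.NBL.Alt
import Pool.Agent.NBL.Diag
import Pool.Agent.NBL.Small

/-!
# The mean square on the critical line
-/

set_option autoImplicit false

open MeasureTheory Complex Set Filter Topology
open scoped ENNReal

namespace Pool.Agent.NBL

/-- a lower bound in the half plane `Re s ≥ 2` -/
theorem zeta_lower {s : ℂ} (hs2 : 2 ≤ s.re) : (1 / 4 : ℝ) ≤ ‖riemannZeta s‖ := by
  have hs : (1 : ℝ) < s.re := by linarith
  have hterm : ∀ n : ℕ, ‖(1 : ℂ) / ((n : ℂ) + 1) ^ s‖ ≤ 1 / ((n : ℝ) + 1) ^ 2 := by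
    intro n
    have h1 : ((n : ℂ) + 1) = (((n : ℝ) + 1 : ℝ) : ℂ) := by push_cast; ring
    have hpos : (0 : ℝ) < (n : ℝ) + 1 := by positivity
    have h1' : (1 : ℝ) ≤ (n : ℝ) + 1 := by
      have : (0 : ℝ) ≤ n := Nat.cast_nonneg n
      linarith
    rw [norm_div, norm_one, h1, Complex.norm_cpow_eq_rpow_re_of_pos hpos]
    apply one_div_le_one_div_of_le (by positivity)
    calc ((n : ℝ) + 1) ^ 2 = ((n : ℝ) + 1) ^ (2 : ℝ) := by norm_num
      _ ≤ ((n : ℝ) + 1) ^ s.re := Real.rpow_le_rpow_of_exponent_le h1' hs2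
  rw [zeta_eq_tsum_one_div_nat_add_one_cpow hs]
  have hsq : Summable (fun n : ℕ => 1 / ((n : ℝ) + 1) ^ 2) := by
    have h := (summable_nat_add_iff 1).2 hasSum_zeta_two.summable
    refine h.congr ?_
    intro n
    push_cast
    rfl
  have hsum0 : Summable (fun n : ℕ => ‖(1 : ℂ) / ((n : ℂ) + 1) ^ s‖) :=
    Summable.of_nonneg_of_le (fun n => norm_nonneg _) hterm hsq
  have hsum := hsum0.of_norm
  rw [hsum.tsum_eq_zero_add]
  have h0 : (1 : ℂ) / (((0 : ℕ) : ℂ) + 1) ^ s = 1 := by simp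
  rw [h0]
  have hsum1 : Summable (fun n : ℕ => ‖(1 : ℂ) / (((n + 1 : ℕ) : ℂ) + 1) ^ s‖) :=
    (summable_nat_add_iff 1).2 hsum0
  have hb : ‖∑' n : ℕ, (1 : ℂ) / (((n + 1 : ℕ) : ℂ) + 1) ^ s‖ ≤ Real.pi ^ 2 / 6 - 1 := by
    refine (norm_tsum_le_tsum_norm hsum1).trans ?_
    rw [← hasSum_tail.tsum_eq]
    refine hsum1.tsum_le_tsum (fun n => ?_) hasSum_tail.summable
    refine (hterm (n + 1)).trans (le_of_eq ?_)
    push_cast
    rfl
  have hpi : Real.pi ^ 2 / 6 - 1 ≤ 3 / 4 := by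
    have h1 := Real.pi_lt_d2
    have h2 := Real.pi_pos
    nlinarith
  have htri := norm_sub_norm_le (1 : ℂ) (-∑' n : ℕ, (1 : ℂ) / (((n + 1 : ℕ) : ℂ) + 1) ^ s)
  rw [norm_neg, sub_neg_eq_add, norm_one] at htri
  linarith

/-- the Mellin transform of `h_M` -/
lemma mellin_h {M : ℕ} (hM : 1 ≤ M) (t : ℝ) :
    mellin (fun x => (h M x : ℂ)) (1 / 2 + t * I) =
      -(riemannZeta (1 / 2 + t * I) *
        (((M : ℂ) ^ (-(1 / 2 + t * I)) - ((M + 1 : ℕ) : ℂ) ^ (-(1 / 2 + t * I))) /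
          (1 / 2 + t * I))) := by
  set c : ℕ → ℂ := fun k => if k = M then 1 else -1 with hc
  have hs : ∀ k ∈ ({M, M + 1} : Finset ℕ), 0 < k := by
    intro k hk
    rw [Finset.mem_insert, Finset.mem_singleton] at hk
    omega
  have h1 := mellin_nb_sum hs c t
  have hne : M ≠ M + 1 := by omega
  have hc1 : c M = 1 := by simp [hc]
  have hc2 : c (M + 1) = -1 := by simp [hc]
  have e1 : (fun x => ∑ k ∈ ({M, M + 1} : Finset ℕ), c k * nb k x) = fun x => (h M x : ℂ) := by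
    funext x
    rw [Finset.sum_pair hne, hc1, hc2, h_cast]
    ring
  have e2 : Dp {M, M + 1} c t =
      (M : ℂ) ^ (-(1 / 2 + t * I)) - ((M + 1 : ℕ) : ℂ) ^ (-(1 / 2 + t * I)) := by
    unfold Dp
    rw [Finset.sum_pair hne, hc1, hc2]
    ring
  rw [e1, e2] at h1
  exact h1

lemma kernel_low {N M : ℕ} (hN : 1 ≤ N) (hM : M = 2 * N + 1) {t : ℝ} (ht : |t| ≤ N) :
    1 / (4 * (M : ℝ) * (M + 1) ^ 2) ≤
      ‖((M : ℂ) ^ (-(1 / 2 + t * I)) - ((M + 1 : ℕ) : ℂ) ^ (-(1 / 2 + t * I))) /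
          (1 / 2 + t * I)‖ ^ 2 := by
  have hM0 : (0 : ℝ) < M := by
    have : 0 < M := by omega
    exact_mod_cast this
  have hMr : (M : ℝ) = 2 * N + 1 := by rw [hM]; push_cast; ring
  set s : ℂ := 1 / 2 + t * I with hs
  have hs0 : s ≠ 0 := by
    intro h
    have h2 := (half_norm t).2.1
    rw [← hs, h, norm_zero] at h2
    norm_num at h2
  have hsn : ‖s‖ ≤ 1 / 2 + N := by
    have := (half_norm t).2.2
    rw [← hs] at this
    linarith
  set lam : ℝ := Real.log ((M + 1) / M) with hlam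
  have hquot : (0 : ℝ) < (M + 1) / M := by positivity
  have hlam1 : 1 / ((M : ℝ) + 1) ≤ lam := by
    have := Real.one_sub_inv_le_log_of_pos hquot
    rw [← hlam] at this
    have e : 1 - ((M + 1 : ℝ) / M)⁻¹ = 1 / ((M : ℝ) + 1) := by
      rw [inv_div]
      field_simp
      ring
    linarith
  have hlam2 : lam ≤ 1 / M := by
    have := Real.log_le_sub_one_of_pos hquot
    rw [← hlam] at this
    have e : (M + 1 : ℝ) / M - 1 = 1 / M := by
      field_simp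
      ring
    linarith
  have hlam0 : 0 < lam := lt_of_lt_of_le (by positivity) hlam1
  have hMc : (M : ℂ) ≠ 0 := by exact_mod_cast hM0.ne'
  have hfac : (M : ℂ) ^ (-s) - ((M + 1 : ℕ) : ℂ) ^ (-s) =
      (M : ℂ) ^ (-s) * (1 - cexp (-(s * lam))) := by
    have h1 : ((M + 1 : ℕ) : ℂ) = (M : ℂ) * (((M + 1) / M : ℝ) : ℂ) := by
      push_cast
      field_simp
    have h2 : ((M + 1 : ℕ) : ℂ) ^ (-s) = (M : ℂ) ^ (-s) * (((M + 1) / M : ℝ) : ℂ) ^ (-s) := by
      rw [h1]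
      have h4 := mul_cpow_ofReal_nonneg (Nat.cast_nonneg M : (0 : ℝ) ≤ (M : ℝ)) hquot.le (-s)
      rwa [ofReal_natCast] at h4
    have h3 : (((M + 1) / M : ℝ) : ℂ) ^ (-s) = cexp (-(s * lam)) := by
      rw [cpow_def_of_ne_zero (by exact_mod_cast hquot.ne'), ← ofReal_log hquot.le, hlam]
      congr 1
      ring
    rw [h2, h3]
    ring
  have hz : ‖-(s * lam)‖ ≤ 1 / 2 := by
    rw [norm_neg, norm_mul, norm_real, Real.norm_of_nonneg hlam0.le]
    calc ‖s‖ * lam ≤ (1 / 2 + N) * (1 / M) := by gcongr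
      _ = 1 / 2 := by
          rw [hMr]
          field_simp
          ring
  have hexp := norm_exp_sub_one_sub_id_le (x := -(s * lam)) (hz.trans (by norm_num))
  have hlow : ‖s‖ * lam / 2 ≤ ‖1 - cexp (-(s * lam))‖ := by
    have h1 : ‖-(s * (lam : ℂ))‖ = ‖s‖ * lam := by
      rw [norm_neg, norm_mul, norm_real, Real.norm_of_nonneg hlam0.le]
    have h2 : ‖-(s * (lam : ℂ))‖ ≤ ‖1 - cexp (-(s * lam))‖ +
        ‖cexp (-(s * lam)) - 1 - -(s * lam)‖ := by
      have h3 := norm_add_le (1 - cexp (-(s * lam))) (cexp (-(s * lam)) - 1 - -(s * lam))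
      have h4 : (1 - cexp (-(s * lam))) + (cexp (-(s * lam)) - 1 - -(s * lam)) = s * lam := by ring
      rw [h4] at h3
      rwa [norm_neg]
    rw [h1] at h2 hz hexp
    have h5 : (‖s‖ * lam) ^ 2 ≤ (‖s‖ * lam) * (1 / 2) := by
      rw [pow_two]
      exact mul_le_mul_of_nonneg_left hz (by positivity)
    linarith
  have hMn : ‖(M : ℂ) ^ (-s)‖ ^ 2 = 1 / M := by
    have h1 : (M : ℂ) = ((M : ℝ) : ℂ) := by push_cast; rfl
    have h2 : (-s).re = -(1 / 2) := by rw [hs]; simp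
    rw [h1, norm_cpow_eq_rpow_re_of_pos hM0, h2, ← Real.rpow_natCast, ← Real.rpow_mul hM0.le]
    norm_num
    rw [Real.rpow_neg_one]
  have hsn0 : 0 < ‖s‖ := norm_pos_iff.2 hs0
  rw [hfac, norm_div, norm_mul, div_pow, mul_pow, hMn, le_div_iff₀ (by positivity)]
  have h6 : (‖s‖ * (1 / ((M : ℝ) + 1)) / 2) ^ 2 ≤ ‖1 - cexp (-(s * lam))‖ ^ 2 := by
    apply pow_le_pow_left₀ (by positivity)
    refine le_trans ?_ hlow
    gcongr
  calc 1 / (4 * (M : ℝ) * (M + 1) ^ 2) * ‖s‖ ^ 2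
      = 1 / M * (‖s‖ * (1 / ((M : ℝ) + 1)) / 2) ^ 2 := by
        field_simp
        ring
    _ ≤ 1 / M * ‖1 - cexp (-(s * lam))‖ ^ 2 := by gcongr

/-- the mean square on the critical line -/
theorem mean_sq {N : ℕ} (hN : 1 ≤ N) :
    ∫⁻ t in Icc (-(N : ℝ)) N, ‖riemannZeta (1 / 2 + t * I)‖ₑ ^ 2 ≤
      ENNReal.ofReal (480 * Real.pi * N * (1 + Real.log N)) := by
  have hN' : (1 : ℝ) ≤ N := by exact_mod_cast hN
  have hN0 : (0 : ℝ) < N := by linarith
  set M : ℕ := 2 * N + 1 with hM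
  have hM1 : 1 ≤ M := by omega
  have hMr : (M : ℝ) = 2 * N + 1 := by rw [hM]; push_cast; ring
  have hM0 : (0 : ℝ) < M := by rw [hMr]; linarith
  have hpi := Real.pi_pos
  have hpl := plancherel (adm_h (n := M) (by omega))
  have hnorm := h_norm hM1
  rw [hpl] at hnorm
  set k : ℝ := 1 / (4 * (M : ℝ) * (M + 1) ^ 2) with hk
  have hk0 : 0 < k := by positivity
  have h1 : ENNReal.ofReal k * ∫⁻ t in Icc (-(N : ℝ)) N, ‖riemannZeta (1 / 2 + t * I)‖ₑ ^ 2 ≤
      ∫⁻ t : ℝ, ‖mellin (fun x => (h M x : ℂ)) (1 / 2 + t * I)‖ₑ ^ 2 := by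
    rw [← lintegral_const_mul' _ _ ENNReal.ofReal_ne_top]
    refine (setLIntegral_mono' measurableSet_Icc fun t ht => ?_).trans
      (setLIntegral_le_lintegral _ _)
    rw [mellin_h hM1, enorm_neg, enorm_mul, mul_pow, mul_comm (ENNReal.ofReal k)]
    gcongr
    rw [enorm_sq]
    apply ENNReal.ofReal_le_ofReal
    exact kernel_low hN hM (abs_le.2 ht)
  have h2 : ENNReal.ofReal (1 / (2 * Real.pi)) * (ENNReal.ofReal k *
      ∫⁻ t in Icc (-(N : ℝ)) N, ‖riemannZeta (1 / 2 + t * I)‖ₑ ^ 2) ≤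
      ENNReal.ofReal ((3 + Real.log M) / (M : ℝ) ^ 2) := le_trans (by gcongr) hnorm
  have h3 : ENNReal.ofReal (2 * Real.pi / k) * (ENNReal.ofReal (1 / (2 * Real.pi)) *
      (ENNReal.ofReal k * ∫⁻ t in Icc (-(N : ℝ)) N, ‖riemannZeta (1 / 2 + t * I)‖ₑ ^ 2)) =
      ∫⁻ t in Icc (-(N : ℝ)) N, ‖riemannZeta (1 / 2 + t * I)‖ₑ ^ 2 := by
    rw [← mul_assoc, ← mul_assoc, ← ENNReal.ofReal_mul (by positivity),
      ← ENNReal.ofReal_mul (by positivity)]
    have e : 2 * Real.pi / k * (1 / (2 * Real.pi)) * k = 1 := by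
      field_simp
    rw [e]
    simp
  rw [← h3]
  refine (mul_le_mul_right h2 _).trans ?_
  rw [← ENNReal.ofReal_mul (by positivity)]
  apply ENNReal.ofReal_le_ofReal
  have hlogN : 0 ≤ Real.log N := Real.log_nonneg hN'
  have hlogM : Real.log M ≤ 2 + Real.log N := by
    have h4 : (M : ℝ) ≤ 3 * N := by rw [hMr]; linarith
    have h5 := Real.log_le_log hM0 h4
    rw [Real.log_mul (by norm_num) hN0.ne'] at h5
    have h6 : Real.log 3 ≤ 2 := by
      have := Real.log_le_sub_one_of_pos (show (0 : ℝ) < 3 by norm_num)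
      linarith
    linarith
  have hlogM0 : 0 ≤ Real.log M := Real.log_nonneg (by rw [hMr]; linarith)
  have e1 : 2 * Real.pi / k * ((3 + Real.log M) / (M : ℝ) ^ 2) =
      8 * Real.pi * ((M + 1) ^ 2 / M) * (3 + Real.log M) := by
    rw [hk]
    field_simp
    ring
  rw [e1]
  have h7 : ((M : ℝ) + 1) ^ 2 / M ≤ 12 * N := by
    rw [div_le_iff₀ hM0, hMr]
    nlinarith
  have h8 : 3 + Real.log M ≤ 5 * (1 + Real.log N) := by linarith
  calc 8 * Real.pi * ((M + 1) ^ 2 / M) * (3 + Real.log M)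
      ≤ 8 * Real.pi * (12 * N) * (5 * (1 + Real.log N)) := by gcongr
    _ = 480 * Real.pi * N * (1 + Real.log N) := by ring

end Pool.Agent.NBL
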