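import Mathlib
import Pool.Agent.NBL.Upper
import Pool.Agent.Lib.ThickFailure

/-!
# Local mean squares and large values
-/

set_option autoImplicit false

open MeasureTheory Complex Set Filter Topology
open scoped ENNReal

namespace Pool.Agent.NBL

/-- few large values -/
lemma density {B B' K : ℝ} (hB0 : 0 ≤ B) (hBB : B < B') (hK0 : 0 ≤ K)
    (hK : ∀ T : ℝ, 60 ≤ T →
      ∫⁻ t in Icc (T - 1 / 10) (T + 1 / 10), ‖riemannZeta (1 / 2 + t * I)‖ₑ ^ 2 ≤
        ENNReal.ofReal (K * T ^ (2 * B))) {δ : ℝ} (hδ : 0 < δ) :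
    ∃ T₀ : ℝ, ∀ T : ℝ, T₀ ≤ T → (1 / 2) * δ ≤ volume.real
      {t : ℝ | t ∈ Icc T (T + δ) ∧ ‖riemannZeta (1 / 2 + t * I)‖ ≤ T ^ B'} := by
  set n : ℕ := ⌈5 * δ⌉₊ with hn
  -- the limit
  have hlim : Tendsto (fun T : ℝ => (n * K * (2 : ℝ) ^ (2 * B)) * T ^ (-(2 * (B' - B)))) atTop
      (𝓝 ((n * K * (2 : ℝ) ^ (2 * B)) * 0)) :=
    (tendsto_rpow_neg_atTop (by linarith)).const_mul _
  rw [mul_zero] at hlim
  have hev := hlim.eventually (gt_mem_nhds (show (0 : ℝ) < δ / 2 by positivity))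
  obtain ⟨T₁, hT₁⟩ := (eventually_atTop).1 hev
  refine ⟨max T₁ (max 60 (δ + 1)), fun T hT => ?_⟩
  have hTa : T₁ ≤ T := (le_max_left _ _).trans hT
  have hTb : 60 ≤ T := (le_max_left _ _).trans ((le_max_right _ _).trans hT)
  have hTc : δ + 1 ≤ T := (le_max_right _ _).trans ((le_max_right _ _).trans hT)
  have hT0 : 0 < T := by linarith
  have hsmall := hT₁ T hTa
  set G : Set ℝ := {t : ℝ | t ∈ Icc T (T + δ) ∧ ‖riemannZeta (1 / 2 + t * I)‖ ≤ T ^ B'} with hG
  set Bd : Set ℝ := {t : ℝ | t ∈ Icc T (T + δ) ∧ T ^ B' < ‖riemannZeta (1 / 2 + t * I)‖} with hBd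
  have hcont := Pool.Agent.Lib.ThickFailure.continuous_zeta_line
  have hBdm : MeasurableSet Bd := by
    exact measurableSet_Icc.inter (measurableSet_lt measurable_const hcont.norm.measurable)
  -- the cover
  have hcov : Icc T (T + δ) ⊆ ⋃ i : Fin n,
      Icc ((T + (i : ℕ) / 5 + 1 / 10) - 1 / 10) ((T + ((i : ℕ) : ℝ) / 5 + 1 / 10) + 1 / 10) := by
    intro t ht
    have hn1 : 5 * δ ≤ n := Nat.le_ceil _
    have hn0 : 0 < n := Nat.ceil_pos.2 (by positivity)
    rw [mem_iUnion]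
    by_cases hend : ⌊5 * (t - T)⌋₊ < n
    · refine ⟨⟨⌊5 * (t - T)⌋₊, hend⟩, ?_, ?_⟩
      · have := Nat.floor_le (show 0 ≤ 5 * (t - T) by linarith [ht.1])
        simp only
        linarith
      · have := Nat.lt_floor_add_one (5 * (t - T))
        simp only
        linarith
    · rw [not_lt] at hend
      have h2 : ((n - 1 : ℕ) : ℝ) = n - 1 := by
        rw [Nat.cast_sub (by omega)]
        simp
      refine ⟨⟨n - 1, by omega⟩, ?_, ?_⟩
      · have h1 : (n : ℝ) ≤ 5 * (t - T) :=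
          (Nat.le_floor_iff (by linarith [ht.1])).1 hend
        simp only
        rw [h2]
        linarith
      · simp only
        rw [h2]
        linarith [ht.2]
  have hms : ∫⁻ t in Icc T (T + δ), ‖riemannZeta (1 / 2 + t * I)‖ₑ ^ 2 ≤
      ENNReal.ofReal (n * (K * (2 * T) ^ (2 * B))) := by
    calc ∫⁻ t in Icc T (T + δ), ‖riemannZeta (1 / 2 + t * I)‖ₑ ^ 2
        ≤ ∫⁻ t in ⋃ i : Fin n,
          Icc ((T + (i : ℕ) / 5 + 1 / 10) - 1 / 10) ((T + ((i : ℕ) : ℝ) / 5 + 1 / 10) + 1 / 10),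
          ‖riemannZeta (1 / 2 + t * I)‖ₑ ^ 2 := lintegral_mono_set hcov
      _ ≤ ∑' i : Fin n, ∫⁻ t in
          Icc ((T + (i : ℕ) / 5 + 1 / 10) - 1 / 10) ((T + ((i : ℕ) : ℝ) / 5 + 1 / 10) + 1 / 10),
          ‖riemannZeta (1 / 2 + t * I)‖ₑ ^ 2 := lintegral_iUnion_le _ _
      _ = ∑ i : Fin n, ∫⁻ t in
          Icc ((T + (i : ℕ) / 5 + 1 / 10) - 1 / 10) ((T + ((i : ℕ) : ℝ) / 5 + 1 / 10) + 1 / 10),
          ‖riemannZeta (1 / 2 + t * I)‖ₑ ^ 2 := tsum_fintype _
      _ ≤ ∑ i : Fin n, ENNReal.ofReal (K * (2 * T) ^ (2 * B)) := by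
          refine Finset.sum_le_sum fun i _ => ?_
          have hi1 : ((i : ℕ) : ℝ) + 1 ≤ n := by exact_mod_cast i.2
          have hn2 : (n : ℝ) < 5 * δ + 1 := Nat.ceil_lt_add_one (by positivity)
          have hi0 : (0 : ℝ) ≤ ((i : ℕ) : ℝ) := by positivity
          refine (hK (T + (i : ℕ) / 5 + 1 / 10) (by linarith)).trans ?_
          apply ENNReal.ofReal_le_ofReal
          refine mul_le_mul_of_nonneg_left ?_ hK0
          exact Real.rpow_le_rpow (by linarith) (by linarith) (by linarith)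
      _ = _ := by
          rw [Finset.sum_const, Finset.card_univ, Fintype.card_fin, nsmul_eq_mul,
            ENNReal.ofReal_mul (p := (n : ℝ)) (by positivity), ENNReal.ofReal_natCast]
  -- Chebyshev
  have hcheb : ENNReal.ofReal (T ^ (2 * B')) * volume Bd ≤
      ENNReal.ofReal (n * (K * (2 * T) ^ (2 * B))) := by
    calc ENNReal.ofReal (T ^ (2 * B')) * volume Bd
        = ∫⁻ t in Bd, ENNReal.ofReal (T ^ (2 * B')) := by rw [setLIntegral_const]
      _ ≤ ∫⁻ t in Bd, ‖riemannZeta (1 / 2 + t * I)‖ₑ ^ 2 := by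
          refine setLIntegral_mono' hBdm fun t ht => ?_
          rw [enorm_sq]
          apply ENNReal.ofReal_le_ofReal
          calc T ^ (2 * B') = (T ^ B') ^ 2 := by
                rw [← Real.rpow_natCast, ← Real.rpow_mul hT0.le, mul_comm]
                norm_num
            _ ≤ ‖riemannZeta (1 / 2 + t * I)‖ ^ 2 :=
                pow_le_pow_left₀ (by positivity) ht.2.le 2
      _ ≤ ∫⁻ t in Icc T (T + δ), ‖riemannZeta (1 / 2 + t * I)‖ₑ ^ 2 :=
          lintegral_mono_set fun t ht => ht.1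
      _ ≤ _ := hms
  have hBdfin : volume Bd ≠ ∞ := by
    refine ne_top_of_le_ne_top ?_ (measure_mono (fun t ht => ht.1 : Bd ⊆ Icc T (T + δ)))
    rw [Real.volume_Icc]
    exact ENNReal.ofReal_ne_top
  have hBdr : volume.real Bd ≤ δ / 2 := by
    have h1 : T ^ (2 * B') * volume.real Bd ≤ n * (K * (2 * T) ^ (2 * B)) := by
      have h2 := ENNReal.toReal_mono ENNReal.ofReal_ne_top hcheb
      rw [ENNReal.toReal_mul, ENNReal.toReal_ofReal (by positivity),
        ENNReal.toReal_ofReal (by positivity)] at h2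
      exact h2
    have h3 : (2 * T) ^ (2 * B) = (2 : ℝ) ^ (2 * B) * T ^ (2 * B) :=
      Real.mul_rpow (by norm_num) hT0.le
    have h4 : T ^ (2 * B) = T ^ (2 * B') * T ^ (-(2 * (B' - B))) := by
      rw [← Real.rpow_add hT0]
      congr 1
      ring
    have h5 : T ^ (2 * B') * volume.real Bd ≤
        T ^ (2 * B') * ((n * K * (2 : ℝ) ^ (2 * B)) * T ^ (-(2 * (B' - B)))) := by
      refine h1.trans (le_of_eq ?_)
      rw [h3, h4]
      ring
    have h6 : volume.real Bd ≤ (n * K * (2 : ℝ) ^ (2 * B)) * T ^ (-(2 * (B' - B))) :=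
      le_of_mul_le_mul_left h5 (by positivity)
    linarith
  have hun : Icc T (T + δ) ⊆ G ∪ Bd := by
    intro t ht
    by_cases h : ‖riemannZeta (1 / 2 + t * I)‖ ≤ T ^ B'
    · exact Or.inl ⟨ht, h⟩
    · exact Or.inr ⟨ht, not_le.1 h⟩
  have hfinG : volume (G ∪ Bd) ≠ ∞ := by
    refine ne_top_of_le_ne_top ?_ (measure_mono
      (fun t ht => ht.elim (fun h => h.1) (fun h => h.1) : G ∪ Bd ⊆ Icc T (T + δ)))
    rw [Real.volume_Icc]
    exact ENNReal.ofReal_ne_top
  have h1 : δ ≤ volume.real (G ∪ Bd) := by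
    have h2 : volume.real (Icc T (T + δ)) = δ := by
      rw [Real.volume_real_Icc_of_le (by linarith)]
      ring
    rw [← h2]
    exact measureReal_mono hun hfinG
  have h2 : volume.real (G ∪ Bd) ≤ volume.real G + volume.real Bd := measureReal_union_le _ _
  linarith

end Pool.Agent.NBL
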