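import Mathlib
import Pool.Agent.NBL.Adm
import Pool.Agent.NBL.Upper

/-!
# Nyman–Beurling functions with a real parameter
-/

set_option autoImplicit false

open MeasureTheory Complex Set Filter Topology
open scoped ENNReal

namespace Pool.Agent.NBL

/-- the Nyman–Beurling function `t ↦ {θ / t}` -/
noncomputable def nr (θ t : ℝ) : ℂ := ((Int.fract (θ / t) : ℝ) : ℂ)

/-- the indicator function of `(0, θ]` -/
noncomputable def cr (θ t : ℝ) : ℂ := if t ≤ θ then 1 else 0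

lemma nr_mellin {θ : ℝ} (hθ : 0 < θ) {s : ℂ} (h0 : 0 < s.re) (h1 : s.re < 1) :
    mellin (nr θ) s = -((θ : ℂ) ^ s * riemannZeta s / s) := by
  have hθ' : (0 : ℝ) < θ⁻¹ := inv_pos.2 hθ
  have e : mellin (nr θ) s =
      mellin (fun t => (fun t : ℝ => ((Int.fract (1 / t) : ℝ) : ℂ)) (θ⁻¹ * t)) s := by
    unfold mellin
    refine setIntegral_congr_fun measurableSet_Ioi fun t ht => ?_
    have ht' : (0 : ℝ) < t := ht
    simp only [nr]
    have : θ / t = 1 / (θ⁻¹ * t) := by field_simp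
    rw [this]
  rw [e, mellin_comp_mul_left (fun t : ℝ => ((Int.fract (1 / t) : ℝ) : ℂ)) s hθ',
    fract_mellin h0 h1, smul_eq_mul]
  have : ((θ⁻¹ : ℝ) : ℂ) ^ (-s) = (θ : ℂ) ^ s := by
    rw [ofReal_inv, cpow_neg, Complex.inv_cpow _ _ (by
      rw [arg_ofReal_of_nonneg hθ.le]; exact Real.pi_pos.ne), inv_inv]
  rw [this]
  ring

lemma cr_mellin {θ : ℝ} (hθ : 0 < θ) {s : ℂ} (h0 : 0 < s.re) :
    mellin (cr θ) s = (θ : ℂ) ^ s / s := by
  have hs0 : s ≠ 0 := by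
    rintro rfl
    simp at h0
  have h3 : ∀ t : ℝ, (t : ℂ) ^ (s - 1) • cr θ t =
      (Iic θ).indicator (fun t : ℝ => (t : ℂ) ^ (s - 1)) t := by
    intro t
    by_cases ht : t ≤ θ
    · rw [indicator_of_mem (show t ∈ Iic θ from ht), cr, if_pos ht, smul_eq_mul, mul_one]
    · rw [indicator_of_notMem (show t ∉ Iic θ from ht), cr, if_neg ht, smul_zero]
  unfold mellin
  simp_rw [h3]
  rw [setIntegral_indicator measurableSet_Iic, Ioi_inter_Iic,
    ← intervalIntegral.integral_of_le hθ.le, integral_cpow (Or.inl (by simp; linarith))]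
  simp only [sub_add_cancel]
  rw [ofReal_zero, zero_cpow hs0, sub_zero]

lemma adm_of_bound {g : ℝ → ℂ} (hg : Measurable g) {M θ : ℝ} (hM : 0 ≤ M) (_hθ : 0 < θ)
    (h1 : ∀ t : ℝ, 0 < t → ‖g t‖ ≤ M) (h2 : ∀ t : ℝ, 0 < t → ‖g t‖ ≤ M * (θ / t)) : Adm g := by
  refine ⟨hg, M * max 1 θ, by positivity, fun t ht => ?_⟩
  rw [mul_assoc, mul_min_of_nonneg _ _ (by positivity), mul_min_of_nonneg _ _ hM]
  refine le_min ((h1 t ht).trans ?_) ((h2 t ht).trans ?_)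
  · rw [mul_one]
    exact le_mul_of_one_le_right hM (le_max_left _ _)
  · rw [mul_one_div]
    gcongr
    exact le_max_right _ _

lemma nr_norm_le {θ : ℝ} (hθ : 0 < θ) {t : ℝ} (ht : 0 < t) : ‖nr θ t‖ ≤ 1 ∧ ‖nr θ t‖ ≤ θ / t := by
  unfold nr
  rw [norm_real, Real.norm_of_nonneg (Int.fract_nonneg _)]
  refine ⟨(Int.fract_lt_one _).le, ?_⟩
  rw [Int.fract]
  have : (0 : ℝ) ≤ (⌊θ / t⌋ : ℝ) := by
    have : (0 : ℤ) ≤ ⌊θ / t⌋ := Int.floor_nonneg.2 (by positivity)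
    exact_mod_cast this
  linarith

lemma adm_nr {θ : ℝ} (hθ : 0 < θ) : Adm (nr θ) := by
  refine adm_of_bound (M := 1) (θ := θ) ?_ zero_le_one hθ (fun t ht => (nr_norm_le hθ ht).1)
    fun t ht => by rw [one_mul]; exact (nr_norm_le hθ ht).2
  unfold nr
  exact measurable_ofReal.comp (measurable_fract.comp (measurable_const.div measurable_id))

lemma adm_cr {θ : ℝ} (hθ : 0 < θ) : Adm (cr θ) := by
  refine adm_of_bound (M := 1) (θ := θ) ?_ zero_le_one hθ (fun t ht => ?_) fun t ht => ?_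
  · unfold cr
    exact Measurable.ite (measurableSet_le measurable_id measurable_const) measurable_const
      measurable_const
  · unfold cr
    split_ifs <;> simp
  · unfold cr
    split_ifs with h
    · rw [one_mul, norm_one, le_div_iff₀ ht]
      linarith
    · rw [norm_zero, one_mul]
      positivity

/-- the Dirichlet polynomial on the critical line -/
noncomputable def Dr (s : Finset ℕ) (c : ℕ → ℂ) (θ : ℕ → ℝ) (t : ℝ) : ℂ :=
  ∑ k ∈ s, c k * (θ k : ℂ) ^ (1 / 2 + t * I : ℂ)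

lemma mellin_nr_sum {s : Finset ℕ} {θ : ℕ → ℝ} (hs : ∀ k ∈ s, 0 < θ k) (c : ℕ → ℂ) (t : ℝ) :
    mellin (fun x => ∑ k ∈ s, c k * nr (θ k) x) (1 / 2 + t * I) =
      -(riemannZeta (1 / 2 + t * I) * (Dr s c θ t / (1 / 2 + t * I))) := by
  have h0 : 0 < (1 / 2 + t * I : ℂ).re := by simp
  have h1 : (1 / 2 + t * I : ℂ).re < 1 := by simp; norm_num
  rw [mellin_sum s c (fun k hk => adm_nr (hs k hk)) h0 h1, Dr]
  rw [Finset.sum_div, Finset.mul_sum, ← Finset.sum_neg_distrib]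
  refine Finset.sum_congr rfl fun k hk => ?_
  rw [nr_mellin (hs k hk) h0 h1]
  ring

lemma mellin_cr_sum {s : Finset ℕ} {θ : ℕ → ℝ} (hs : ∀ k ∈ s, 0 < θ k) (c : ℕ → ℂ) (t : ℝ) :
    mellin (fun x => ∑ k ∈ s, c k * cr (θ k) x) (1 / 2 + t * I) =
      Dr s c θ t / (1 / 2 + t * I) := by
  have h0 : 0 < (1 / 2 + t * I : ℂ).re := by simp
  have h1 : (1 / 2 + t * I : ℂ).re < 1 := by simp; norm_num
  rw [mellin_sum s c (fun k hk => adm_cr (hs k hk)) h0 h1, Dr]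
  rw [Finset.sum_div]
  refine Finset.sum_congr rfl fun k hk => ?_
  rw [cr_mellin (hs k hk) h0]
  ring

lemma adm_nr_sum {s : Finset ℕ} {θ : ℕ → ℝ} (hs : ∀ k ∈ s, 0 < θ k) (c : ℕ → ℂ) :
    Adm (fun x => ∑ k ∈ s, c k * nr (θ k) x) :=
  Adm.sum s fun k hk => (adm_nr (hs k hk)).mul (c k)

lemma adm_cr_sum {s : Finset ℕ} {θ : ℕ → ℝ} (hs : ∀ k ∈ s, 0 < θ k) (c : ℕ → ℂ) :
    Adm (fun x => ∑ k ∈ s, c k * cr (θ k) x) :=
  Adm.sum s fun k hk => (adm_cr (hs k hk)).mul (c k)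

end Pool.Agent.NBL
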