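import Mathlib
import Pool.Agent.NBL.RMel
import Pool.Agent.NBL.BesselA

/-!
# The upper bound for sums with bounded partial sums
-/

set_option autoImplicit false

open MeasureTheory Complex Set Filter Topology
open scoped ENNReal

namespace Pool.Agent.NBL

/-- all step functions with bounded partial sums -/
def Steps (A : ℝ) : Prop :=
  ∀ B : ℝ, A < B → B < 1 / 2 → ∃ C : ℝ, ∀ (r : ℕ) (c : ℕ → ℂ) (θ : ℕ → ℝ),
    (∀ j, ‖∑ i ∈ Finset.range j, c i‖ ≤ 1) → Antitone θ → (∀ i, 0 < θ i) →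
    ∫ t in Ioi (0 : ℝ), ‖∑ i ∈ Finset.range r, c i * ((Int.fract (θ i / t) : ℝ) : ℂ)‖ ^ 2 ≤
      C * θ 0 * (r : ℝ) ^ (2 * B)

lemma initial {c : ℕ → ℂ} {P : ℕ → Prop} [DecidablePred P] (hP : ∀ i j, i ≤ j → P j → P i)
    (r : ℕ) : ∃ j, ∑ i ∈ Finset.range r, (if P i then c i else 0) = ∑ i ∈ Finset.range j, c i := by
  induction r with
  | zero => exact ⟨0, by simp⟩
  | succ r ih =>
    by_cases h : P r
    · refine ⟨r + 1, Finset.sum_congr rfl fun i hi => ?_⟩
      rw [Finset.mem_range] at hi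
      rw [if_pos (hP i r (by omega) h)]
    · rw [Finset.sum_range_succ, if_neg h, add_zero]
      exact ih

section

variable {c : ℕ → ℂ} {θ : ℕ → ℝ}

lemma F_le (hc : ∀ j, ‖∑ i ∈ Finset.range j, c i‖ ≤ 1) (hθ : Antitone θ) (r : ℕ) (t : ℝ) :
    ‖∑ i ∈ Finset.range r, c i * cr (θ i) t‖ ≤ 1 := by
  obtain ⟨j, hj⟩ := initial (c := c) (P := fun i => t ≤ θ i)
    (fun i j hij h => h.trans (hθ hij)) r
  have : ∑ i ∈ Finset.range r, c i * cr (θ i) t =
      ∑ i ∈ Finset.range r, (if t ≤ θ i then c i else 0) := by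
    refine Finset.sum_congr rfl fun i _ => ?_
    unfold cr
    split_ifs <;> simp
  rw [this, hj]
  exact hc j

lemma F_zero (hθ : Antitone θ) (r : ℕ) {t : ℝ} (ht : θ 0 < t) :
    ∑ i ∈ Finset.range r, c i * cr (θ i) t = 0 := by
  refine Finset.sum_eq_zero fun i _ => ?_
  have : ¬ t ≤ θ i := not_le.2 ((hθ (Nat.zero_le i)).trans_lt ht)
  rw [cr, if_neg this, mul_zero]

lemma F_int (hc : ∀ j, ‖∑ i ∈ Finset.range j, c i‖ ≤ 1) (hθ : Antitone θ) (r : ℕ) :
    ∫⁻ t in Ioi (0 : ℝ), ‖∑ i ∈ Finset.range r, c i * cr (θ i) t‖ₑ ^ 2 ≤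
      ENNReal.ofReal (θ 0) := by
  calc ∫⁻ t in Ioi (0 : ℝ), ‖∑ i ∈ Finset.range r, c i * cr (θ i) t‖ₑ ^ 2
      ≤ ∫⁻ t in Ioi (0 : ℝ), (Iic (θ 0)).indicator (fun _ => (1 : ℝ≥0∞)) t := by
        refine setLIntegral_mono' measurableSet_Ioi fun t _ => ?_
        by_cases h : t ≤ θ 0
        · rw [indicator_of_mem (show t ∈ Iic (θ 0) from h), enorm_sq, ← ENNReal.ofReal_one]
          apply ENNReal.ofReal_le_ofReal
          exact pow_le_one₀ (norm_nonneg _) (F_le hc hθ r t)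
        · rw [F_zero hθ r (not_le.1 h)]
          simp
    _ = ENNReal.ofReal (θ 0) := by
        rw [lintegral_indicator measurableSet_Iic, setLIntegral_const, one_mul,
          Measure.restrict_apply measurableSet_Iic, Iic_inter_Ioi, Real.volume_Ioc, sub_zero]

lemma c_le (hc : ∀ j, ‖∑ i ∈ Finset.range j, c i‖ ≤ 1) (i : ℕ) : ‖c i‖ ≤ 2 := by
  have h1 : c i = ∑ k ∈ Finset.range (i + 1), c k - ∑ k ∈ Finset.range i, c k := by
    rw [Finset.sum_range_succ]
    ring
  rw [h1]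
  refine (norm_sub_le _ _).trans ?_
  linarith [hc (i + 1), hc i]

/-- the difference of a step function and its dilation -/
noncomputable def Dd (c : ℕ → ℂ) (θ : ℕ → ℝ) (r : ℕ) (a t : ℝ) : ℂ :=
  ∑ i ∈ Finset.range r, c i * cr (θ i) t - ∑ i ∈ Finset.range r, c i * cr (θ i / a) t

lemma Dd_int (hc : ∀ j, ‖∑ i ∈ Finset.range j, c i‖ ≤ 1) (hθ : Antitone θ) (hpos : ∀ i, 0 < θ i)
    (r : ℕ) {a : ℝ} (ha : 1 < a) :
    ∫⁻ t in Ioi (0 : ℝ), ‖Dd c θ r a t‖ₑ ^ 2 ≤ ENNReal.ofReal (4 * r * θ 0 * (1 - 1 / a)) := by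
  have ha0 : 0 < a := by linarith
  have ha1 : 1 / a < 1 := by rw [div_lt_one ha0]; exact ha
  have hθa : Antitone fun i => θ i / a := fun i j hij =>
    div_le_div_of_nonneg_right (hθ hij) ha0.le
  have hD1 : ∀ t, ‖Dd c θ r a t‖ ≤ 2 := by
    intro t
    refine (norm_sub_le _ _).trans ?_
    linarith [F_le hc hθ r t, F_le hc hθa r t]
  have hD2 : ∀ t, ‖Dd c θ r a t‖ ≤ ∑ i ∈ Finset.range r,
      2 * (Ioc (θ i / a) (θ i)).indicator (fun _ => (1 : ℝ)) t := by
    intro t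
    unfold Dd
    rw [← Finset.sum_sub_distrib]
    refine (norm_sum_le _ _).trans (Finset.sum_le_sum fun i _ => ?_)
    rw [← mul_sub, norm_mul]
    refine mul_le_mul (c_le hc i) ?_ (norm_nonneg _) (by norm_num)
    have hle : θ i / a ≤ θ i := by
      rw [div_le_iff₀ ha0]
      nlinarith [hpos i]
    unfold cr
    by_cases h1 : t ≤ θ i
    · by_cases h2 : t ≤ θ i / a
      · rw [if_pos h1, if_pos h2, sub_self, norm_zero]
        exact indicator_nonneg (fun _ _ => zero_le_one) _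
      · rw [if_pos h1, if_neg h2, indicator_of_mem (show t ∈ Ioc (θ i / a) (θ i) from
          ⟨not_le.1 h2, h1⟩)]
        simp
    · rw [if_neg h1, if_neg (fun h2 => h1 (h2.trans hle)), sub_self, norm_zero]
      exact indicator_nonneg (fun _ _ => zero_le_one) _
  calc ∫⁻ t in Ioi (0 : ℝ), ‖Dd c θ r a t‖ₑ ^ 2
      ≤ ∫⁻ t in Ioi (0 : ℝ), ∑ i ∈ Finset.range r,
          ENNReal.ofReal (4 * (Ioc (θ i / a) (θ i)).indicator (fun _ => (1 : ℝ)) t) := by
        refine setLIntegral_mono' measurableSet_Ioi fun t _ => ?_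
        rw [enorm_sq, ← ENNReal.ofReal_sum_of_nonneg fun i _ => by
          have : 0 ≤ (Ioc (θ i / a) (θ i)).indicator (fun _ => (1 : ℝ)) t :=
            indicator_nonneg (fun _ _ => zero_le_one) _
          positivity]
        apply ENNReal.ofReal_le_ofReal
        calc ‖Dd c θ r a t‖ ^ 2 = ‖Dd c θ r a t‖ * ‖Dd c θ r a t‖ := sq _
          _ ≤ 2 * ∑ i ∈ Finset.range r, 2 * (Ioc (θ i / a) (θ i)).indicator (fun _ => (1 : ℝ)) t :=
              mul_le_mul (hD1 t) (hD2 t) (norm_nonneg _) (by norm_num)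
          _ = _ := by
              rw [Finset.mul_sum]
              refine Finset.sum_congr rfl fun i _ => ?_
              ring
    _ ≤ ∫⁻ t, ∑ i ∈ Finset.range r,
          ENNReal.ofReal (4 * (Ioc (θ i / a) (θ i)).indicator (fun _ => (1 : ℝ)) t) :=
        setLIntegral_le_lintegral _ _
    _ = ∑ i ∈ Finset.range r, ENNReal.ofReal (4 * (θ i - θ i / a)) := by
        rw [lintegral_finsetSum _ fun i _ => by
          exact (((measurable_const.indicator measurableSet_Ioc).const_mul 4).ennreal_ofReal)]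
        refine Finset.sum_congr rfl fun i _ => ?_
        have e : ∀ t : ℝ, ENNReal.ofReal (4 * (Ioc (θ i / a) (θ i)).indicator (fun _ => (1 : ℝ)) t) =
            (Ioc (θ i / a) (θ i)).indicator (fun _ => (4 : ℝ≥0∞)) t := by
          intro t
          by_cases h : t ∈ Ioc (θ i / a) (θ i)
          · rw [indicator_of_mem h, indicator_of_mem h]
            simp
          · rw [indicator_of_notMem h, indicator_of_notMem h]
            simp
        simp_rw [e]
        rw [lintegral_indicator measurableSet_Ioc, setLIntegral_const, Real.volume_Ioc,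
          ENNReal.ofReal_mul (by norm_num)]
        simp
    _ ≤ ENNReal.ofReal (4 * r * θ 0 * (1 - 1 / a)) := by
        have h0 : ∀ i ∈ Finset.range r, 0 ≤ 4 * (θ i - θ i / a) := by
          intro i _
          have : θ i / a ≤ θ i := by
            rw [div_le_iff₀ ha0]
            nlinarith [hpos i]
          linarith
        rw [← ENNReal.ofReal_sum_of_nonneg h0]
        apply ENNReal.ofReal_le_ofReal
        calc ∑ i ∈ Finset.range r, 4 * (θ i - θ i / a)
            ≤ ∑ i ∈ Finset.range r, 4 * (θ 0 * (1 - 1 / a)) := by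
              refine Finset.sum_le_sum fun i _ => ?_
              have e : θ i - θ i / a = θ i * (1 - 1 / a) := by ring
              rw [e]
              have := hθ (Nat.zero_le i)
              have h2 : 0 ≤ 1 - 1 / a := by linarith
              gcongr
          _ = _ := by
              rw [Finset.sum_const, Finset.card_range, nsmul_eq_mul]
              ring

lemma Dd_adm (hpos : ∀ i, 0 < θ i) (r : ℕ) {a : ℝ} (ha : 1 < a) : Adm (Dd c θ r a) := by
  have h1 : Adm fun t => ∑ i ∈ Finset.range r, c i * cr (θ i) t :=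
    adm_cr_sum (fun i _ => hpos i) c
  have h2 : Adm fun t => ∑ i ∈ Finset.range r, c i * cr (θ i / a) t :=
    adm_cr_sum (θ := fun i => θ i / a) (fun i _ => div_pos (hpos i) (by linarith)) c
  refine cast ?_ (h1.add (h2.mul (-1)))
  congr 1
  funext t
  unfold Dd
  ring

lemma Dd_mellin (hpos : ∀ i, 0 < θ i) (r : ℕ) {a : ℝ} (ha : 1 < a) (t : ℝ) :
    mellin (Dd c θ r a) (1 / 2 + t * I) =
      (1 - (a : ℂ) ^ (-(1 / 2 + t * I) : ℂ)) *
        mellin (fun x => ∑ i ∈ Finset.range r, c i * cr (θ i) x) (1 / 2 + t * I) := by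
  have ha0 : 0 < a := by linarith
  have hpa : ∀ i ∈ Finset.range r, 0 < θ i / a := fun i _ => div_pos (hpos i) ha0
  have h0 : 0 < (1 / 2 + t * I : ℂ).re := by simp
  have h1 : (1 / 2 + t * I : ℂ).re < 1 := by simp; norm_num
  have h2 := (adm_cr_sum (s := Finset.range r) (fun i _ => hpos i) c).conv h0 h1
  have h3 := (adm_cr_sum (θ := fun i => θ i / a) hpa c).conv h0 h1
  have h4 := (hasMellin_sub h2 h3).2
  have e : Dd c θ r a = fun t => ∑ i ∈ Finset.range r, c i * cr (θ i) t -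
    ∑ i ∈ Finset.range r, c i * cr (θ i / a) t := rfl
  rw [e, h4, mellin_cr_sum (fun i _ => hpos i), mellin_cr_sum (θ := fun i => θ i / a) hpa]
  have h5 : Dr (Finset.range r) c (fun i => θ i / a) t =
      (a : ℂ) ^ (-(1 / 2 + t * I) : ℂ) * Dr (Finset.range r) c θ t := by
    unfold Dr
    rw [Finset.mul_sum]
    refine Finset.sum_congr rfl fun i _ => ?_
    have h6 : ((θ i / a : ℝ) : ℂ) ^ (1 / 2 + t * I : ℂ) =
        (θ i : ℂ) ^ (1 / 2 + t * I : ℂ) * (a : ℂ) ^ (-(1 / 2 + t * I) : ℂ) := by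
      rw [div_eq_mul_inv, ofReal_mul, mul_cpow_ofReal_nonneg (hpos i).le (inv_pos.2 ha0).le,
        ofReal_inv, cpow_neg, Complex.inv_cpow _ _ (by
          rw [arg_ofReal_of_nonneg ha0.le]; exact Real.pi_pos.ne)]
    rw [h6]
    ring
  rw [h5]
  ring

end

/-- the multiplier is not small -/
lemma mult_low {R t : ℝ} (hR : 1 ≤ R) (h1 : R ≤ |t|) (h2 : |t| ≤ 2 * R) :
    1 / 5 ≤ ‖1 - ((Real.exp (1 / (2 * R)) : ℝ) : ℂ) ^ (-(1 / 2 + t * I) : ℂ)‖ := by
  have hR0 : 0 < R := by linarith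
  have e : ((Real.exp (1 / (2 * R)) : ℝ) : ℂ) ^ (-(1 / 2 + t * I) : ℂ) =
      cexp (((-(1 / (4 * R)) : ℝ) : ℂ) + ((-(t / (2 * R)) : ℝ) : ℂ) * I) := by
    rw [cpow_def_of_ne_zero (by exact_mod_cast (Real.exp_pos _).ne'),
      ← ofReal_log (Real.exp_pos _).le, Real.log_exp]
    congr 1
    push_cast
    field_simp
    ring
  have him : (1 - cexp (((-(1 / (4 * R)) : ℝ) : ℂ) + ((-(t / (2 * R)) : ℝ) : ℂ) * I)).im =
      Real.exp (-(1 / (4 * R))) * Real.sin (t / (2 * R)) := by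
    rw [sub_im, one_im, Complex.exp_im]
    have e1 : (((-(1 / (4 * R)) : ℝ) : ℂ) + ((-(t / (2 * R)) : ℝ) : ℂ) * I).re = -(1 / (4 * R)) := by
      simp only [add_re, ofReal_re, mul_re, I_re, mul_zero, ofReal_im, I_im, mul_one, sub_self,
        add_zero]
    have e2 : (((-(1 / (4 * R)) : ℝ) : ℂ) + ((-(t / (2 * R)) : ℝ) : ℂ) * I).im = -(t / (2 * R)) := by
      simp only [add_im, ofReal_im, mul_im, I_re, mul_zero, ofReal_re, I_im, mul_one, add_zero,
        zero_add]
    rw [e1, e2, Real.sin_neg]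
    ring
  have hsin : 1 / Real.pi ≤ |Real.sin (t / (2 * R))| := by
    have h3 : |Real.sin (t / (2 * R))| = Real.sin (|t| / (2 * R)) := by
      rcases le_total 0 t with ht | ht
      · rw [abs_of_nonneg ht, abs_of_nonneg]
        apply Real.sin_nonneg_of_nonneg_of_le_pi (by positivity)
        rw [abs_of_nonneg ht] at h2
        have : t / (2 * R) ≤ 1 := by rw [div_le_one (by positivity)]; exact h2
        linarith [Real.pi_gt_three]
      · have e3 : t / (2 * R) = -(|t| / (2 * R)) := by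
          rw [abs_of_nonpos ht]
          ring
        rw [e3, Real.sin_neg, abs_neg, abs_of_nonneg]
        apply Real.sin_nonneg_of_nonneg_of_le_pi (by positivity)
        have : |t| / (2 * R) ≤ 1 := by rw [div_le_one (by positivity)]; exact h2
        linarith [Real.pi_gt_three]
    rw [h3]
    have h4 : 1 / 2 ≤ |t| / (2 * R) := by
      rw [le_div_iff₀ (by positivity)]
      linarith
    have h5 : |t| / (2 * R) ≤ 1 := by rw [div_le_one (by positivity)]; exact h2
    have h6 := Real.mul_le_sin (x := |t| / (2 * R)) (by linarith)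
      (by linarith [Real.pi_gt_three])
    refine le_trans ?_ h6
    calc 1 / Real.pi = 2 / Real.pi * (1 / 2) := by ring
      _ ≤ 2 / Real.pi * (|t| / (2 * R)) := by gcongr
  have hexp : 3 / 4 ≤ Real.exp (-(1 / (4 * R))) := by
    have h7 := Real.add_one_le_exp (-(1 / (4 * R)))
    have h8 : 1 / (4 * R) ≤ 1 / 4 := one_div_le_one_div_of_le (by norm_num) (by linarith)
    linarith
  have h9 := abs_im_le_norm (1 - cexp (((-(1 / (4 * R)) : ℝ) : ℂ) + ((-(t / (2 * R)) : ℝ) : ℂ) * I))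
  rw [him, abs_mul, abs_of_pos (Real.exp_pos _)] at h9
  rw [e]
  refine le_trans ?_ h9
  have hpi : 4 / 15 ≤ 1 / Real.pi := by
    rw [div_le_div_iff₀ (by norm_num) Real.pi_pos]
    linarith [Real.pi_lt_d2]
  calc (1 : ℝ) / 5 = 3 / 4 * (4 / 15) := by norm_num
    _ ≤ Real.exp (-(1 / (4 * R))) * |Real.sin (t / (2 * R))| :=
        mul_le_mul hexp (hpi.trans hsin) (by norm_num) (Real.exp_pos _).le

theorem steps_of_mu {A : ℝ} (hA : 0 ≤ A) (hMu : Mu A) : Steps A := by
  intro B hAB hB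
  obtain ⟨C, hz⟩ := hMu (B - A) (by linarith)
  rw [show A + (B - A) = B by ring] at hz
  have hC : 0 ≤ C := by
    have := (norm_nonneg _).trans (hz 0)
    simpa using this
  have hB0 : 0 < B := by linarith
  set q : ℝ := (2 : ℝ) ^ (2 * B - 1) with hq
  have hq0 : 0 < q := by positivity
  have hq1 : q < 1 := Real.rpow_lt_one_of_one_lt_of_neg (by norm_num) (by linarith)
  have hq2 : 0 ≤ 1 / (1 - q) := by
    apply div_nonneg zero_le_one
    linarith
  refine ⟨2 * C ^ 2 + 200 * C ^ 2 * (1 / (1 - q)), fun r c θ hc hθ hpos => ?_⟩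
  have hθ0 := hpos 0
  rcases Nat.eq_zero_or_pos r with hr | hr
  · subst hr
    simp [Real.zero_rpow (by linarith : 2 * B ≠ 0)]
  have hr1 : (1 : ℝ) ≤ r := by exact_mod_cast hr
  have hr0 : (0 : ℝ) < r := by linarith
  have hspos : ∀ i ∈ Finset.range r, 0 < θ i := fun i _ => hpos i
  set G : ℝ → ℂ := fun x => ∑ i ∈ Finset.range r, c i * nr (θ i) x with hG
  set F : ℝ → ℂ := fun x => ∑ i ∈ Finset.range r, c i * cr (θ i) x with hF
  change ∫ t in Ioi (0 : ℝ), ‖G t‖ ^ 2 ≤ _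
  refine integral_le_of_lintegral (adm_nr_sum hspos c).1 (by positivity) ?_
  have hGp := plancherel (adm_nr_sum hspos c)
  have hFp := plancherel (adm_cr_sum hspos c)
  change ∫⁻ t in Ioi (0 : ℝ), ‖G t‖ₑ ^ 2 = _ at hGp
  change ∫⁻ t in Ioi (0 : ℝ), ‖F t‖ₑ ^ 2 = _ at hFp
  set Φ : ℝ → ℝ≥0∞ := fun t => ‖mellin G (1 / 2 + t * I)‖ₑ ^ 2 with hΦ
  set Ψ : ℝ → ℝ≥0∞ := fun t => ‖mellin F (1 / 2 + t * I)‖ₑ ^ 2 with hΨ
  have hpi : (0 : ℝ) < 2 * Real.pi := by positivity
  have hΨint : ∫⁻ t, Ψ t ≤ ENNReal.ofReal (2 * Real.pi * θ 0) := by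
    calc ∫⁻ t, Ψ t = ENNReal.ofReal (2 * Real.pi) * (ENNReal.ofReal (1 / (2 * Real.pi)) *
          ∫⁻ t, Ψ t) := by
          rw [← mul_assoc, ← ENNReal.ofReal_mul hpi.le, mul_one_div_cancel hpi.ne']
          simp
      _ ≤ ENNReal.ofReal (2 * Real.pi) * ENNReal.ofReal (θ 0) := by
          rw [← hFp]
          gcongr
          exact F_int hc hθ r
      _ = _ := by rw [← ENNReal.ofReal_mul hpi.le]
  have hΦ1 : ∀ t : ℝ, Φ t = ‖riemannZeta (1 / 2 + t * I)‖ₑ ^ 2 * Ψ t := by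
    intro t
    simp only [hΦ, hΨ, hG, hF]
    rw [mellin_nr_sum hspos, mellin_cr_sum hspos, enorm_neg, enorm_mul, mul_pow]
  have hzb : ∀ {t R : ℝ}, 1 ≤ R → |t| ≤ R → ‖riemannZeta (1 / 2 + t * I)‖ₑ ^ 2 ≤
      ENNReal.ofReal (2 * C ^ 2 * R ^ (2 * B)) := by
    intro t R hR ht
    have hR0 : 0 < R := by linarith
    rw [enorm_sq]
    apply ENNReal.ofReal_le_ofReal
    have h2 : ‖riemannZeta (1 / 2 + t * I)‖ ≤ C * (2 * R) ^ B :=
      (hz t).trans (mul_le_mul_of_nonneg_left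
        (Real.rpow_le_rpow (by positivity) (by linarith) hB0.le) hC)
    calc ‖riemannZeta (1 / 2 + t * I)‖ ^ 2 ≤ (C * (2 * R) ^ B) ^ 2 :=
          pow_le_pow_left₀ (norm_nonneg _) h2 2
      _ = C ^ 2 * (2 : ℝ) ^ (2 * B) * R ^ (2 * B) := by
          rw [mul_pow, ← Real.rpow_natCast, ← Real.rpow_natCast ((2 * R) ^ B),
            ← Real.rpow_mul (by positivity), Real.mul_rpow (by norm_num) hR0.le]
          push_cast
          rw [mul_comm B 2]
          ring
      _ ≤ C ^ 2 * 2 * R ^ (2 * B) := by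
          have h3 : (2 : ℝ) ^ (2 * B) ≤ 2 := by
            calc (2 : ℝ) ^ (2 * B) ≤ (2 : ℝ) ^ (1 : ℝ) :=
                  Real.rpow_le_rpow_of_exponent_le (by norm_num) (by linarith)
              _ = 2 := Real.rpow_one 2
          gcongr
      _ = 2 * C ^ 2 * R ^ (2 * B) := by ring
  set Bl : ℕ → Set ℝ := fun j => {t : ℝ | 2 ^ j * (r : ℝ) ≤ |t| ∧ |t| ≤ 2 ^ (j + 1) * r} with hBl
  have hBlm : ∀ j, MeasurableSet (Bl j) := by
    intro j
    exact (measurableSet_le measurable_const continuous_abs.measurable).inter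
      (measurableSet_le continuous_abs.measurable measurable_const)
  have hcover : (univ : Set ℝ) ⊆ Icc (-(r : ℝ)) r ∪ ⋃ j, Bl j := by
    intro t _
    by_cases ht : |t| ≤ r
    · exact Or.inl (abs_le.1 ht)
    · right
      rw [not_le] at ht
      have h1 : 1 ≤ |t| / r := by rw [le_div_iff₀ hr0]; linarith
      obtain ⟨n, hn1, hn2⟩ := exists_nat_pow_near h1 (one_lt_two)
      rw [mem_iUnion]
      refine ⟨n, ?_, ?_⟩
      · rwa [le_div_iff₀ hr0] at hn1
      · rw [div_lt_iff₀ hr0] at hn2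
        exact hn2.le
  have hblock : ∀ j : ℕ, ∫⁻ t in Bl j, Φ t ≤
      ENNReal.ofReal (2 * Real.pi * (200 * C ^ 2 * θ 0 * (r : ℝ) ^ (2 * B) * q ^ j)) := by
    intro j
    set R : ℝ := 2 ^ j * r with hR
    have hR1 : 1 ≤ R := by
      have : (1 : ℝ) ≤ 2 ^ j := one_le_pow₀ (by norm_num)
      nlinarith
    have hR0 : 0 < R := by linarith
    set a : ℝ := Real.exp (1 / (2 * R)) with ha
    have ha1 : 1 < a := by
      rw [ha]
      exact Real.one_lt_exp_iff.2 (by positivity)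
    have hDp := plancherel (Dd_adm (c := c) hpos r ha1)
    have hDint : ∫⁻ t : ℝ, ‖mellin (Dd c θ r a) (1 / 2 + t * I)‖ₑ ^ 2 ≤
        ENNReal.ofReal (2 * Real.pi * (2 * r * θ 0 / R)) := by
      calc ∫⁻ t : ℝ, ‖mellin (Dd c θ r a) (1 / 2 + t * I)‖ₑ ^ 2
          = ENNReal.ofReal (2 * Real.pi) * (ENNReal.ofReal (1 / (2 * Real.pi)) *
            ∫⁻ t : ℝ, ‖mellin (Dd c θ r a) (1 / 2 + t * I)‖ₑ ^ 2) := by
            rw [← mul_assoc, ← ENNReal.ofReal_mul hpi.le, mul_one_div_cancel hpi.ne']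
            simp
        _ ≤ ENNReal.ofReal (2 * Real.pi) * ENNReal.ofReal (4 * r * θ 0 * (1 - 1 / a)) := by
            rw [← hDp]
            gcongr
            exact Dd_int hc hθ hpos r ha1
        _ ≤ ENNReal.ofReal (2 * Real.pi) * ENNReal.ofReal (2 * r * θ 0 / R) := by
            gcongr
            have h1 : 1 - 1 / a ≤ 1 / (2 * R) := by
              rw [ha, one_div, ← Real.exp_neg]
              linarith [Real.add_one_le_exp (-(1 / (2 * R)))]
            calc 4 * r * θ 0 * (1 - 1 / a) ≤ 4 * r * θ 0 * (1 / (2 * R)) := by gcongr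
              _ = 2 * r * θ 0 / R := by
                  field_simp
                  ring
        _ = _ := by rw [← ENNReal.ofReal_mul hpi.le]
    have h1 : ∀ t ∈ Bl j, Φ t ≤ ENNReal.ofReal (100 * C ^ 2 * R ^ (2 * B)) *
        ‖mellin (Dd c θ r a) (1 / 2 + t * I)‖ₑ ^ 2 := by
      intro t ht
      obtain ⟨ht1, ht2⟩ := ht
      have ht3 : |t| ≤ 2 * R := by
        rw [hR]
        rw [pow_succ] at ht2
        linarith
      have h3 := hzb (t := t) (R := 2 * R) (by linarith) ht3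
      have h4 := mult_low hR1 ht1 ht3
      rw [hΦ1]
      have h5 : Ψ t ≤ ENNReal.ofReal 25 * ‖mellin (Dd c θ r a) (1 / 2 + t * I)‖ₑ ^ 2 := by
        simp only [hΨ]
        rw [Dd_mellin hpos r ha1, enorm_sq, enorm_sq, ← ENNReal.ofReal_mul (by norm_num)]
        apply ENNReal.ofReal_le_ofReal
        rw [norm_mul, mul_pow, ← mul_assoc]
        have h6 : 1 ≤ 25 * ‖1 - (a : ℂ) ^ (-(1 / 2 + t * I) : ℂ)‖ ^ 2 := by
          have h7 : (1 / 5 : ℝ) ^ 2 ≤ ‖1 - (a : ℂ) ^ (-(1 / 2 + t * I) : ℂ)‖ ^ 2 :=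
            pow_le_pow_left₀ (by norm_num) h4 2
          norm_num at h7 ⊢
          linarith
        exact le_mul_of_one_le_left (by positivity) h6
      calc ‖riemannZeta (1 / 2 + t * I)‖ₑ ^ 2 * Ψ t
          ≤ ENNReal.ofReal (2 * C ^ 2 * (2 * R) ^ (2 * B)) *
            (ENNReal.ofReal 25 * ‖mellin (Dd c θ r a) (1 / 2 + t * I)‖ₑ ^ 2) := mul_le_mul' h3 h5
        _ = ENNReal.ofReal (25 * (2 * C ^ 2 * (2 * R) ^ (2 * B))) *
            ‖mellin (Dd c θ r a) (1 / 2 + t * I)‖ₑ ^ 2 := by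
            rw [ENNReal.ofReal_mul (p := 25) (by norm_num)]
            ring
        _ ≤ _ := by
            refine mul_le_mul_left (ENNReal.ofReal_le_ofReal ?_) _
            have h3 : (2 : ℝ) ^ (2 * B) ≤ 2 := by
              calc (2 : ℝ) ^ (2 * B) ≤ (2 : ℝ) ^ (1 : ℝ) :=
                    Real.rpow_le_rpow_of_exponent_le (by norm_num) (by linarith)
                _ = 2 := Real.rpow_one 2
            rw [Real.mul_rpow (by norm_num) hR0.le]
            have h8 : 0 ≤ C ^ 2 * R ^ (2 * B) := by positivity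
            nlinarith
    calc ∫⁻ t in Bl j, Φ t
        ≤ ∫⁻ t in Bl j, ENNReal.ofReal (100 * C ^ 2 * R ^ (2 * B)) *
          ‖mellin (Dd c θ r a) (1 / 2 + t * I)‖ₑ ^ 2 := setLIntegral_mono' (hBlm j) h1
      _ ≤ ∫⁻ t : ℝ, ENNReal.ofReal (100 * C ^ 2 * R ^ (2 * B)) *
          ‖mellin (Dd c θ r a) (1 / 2 + t * I)‖ₑ ^ 2 := setLIntegral_le_lintegral _ _
      _ = ENNReal.ofReal (100 * C ^ 2 * R ^ (2 * B)) *
          ∫⁻ t : ℝ, ‖mellin (Dd c θ r a) (1 / 2 + t * I)‖ₑ ^ 2 := by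
          rw [lintegral_const_mul' _ _ ENNReal.ofReal_ne_top]
      _ ≤ ENNReal.ofReal (100 * C ^ 2 * R ^ (2 * B)) *
          ENNReal.ofReal (2 * Real.pi * (2 * r * θ 0 / R)) := by gcongr
      _ = ENNReal.ofReal (2 * Real.pi * (200 * C ^ 2 * θ 0 * (r * (R ^ (2 * B) / R)))) := by
          rw [← ENNReal.ofReal_mul (by positivity)]
          congr 1
          ring
      _ = _ := by
          congr 1
          have e1 : (r : ℝ) * (R ^ (2 * B) / R) = (r : ℝ) ^ (2 * B) * q ^ j := by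
            rw [← Real.rpow_sub_one hR0.ne', hR, Real.mul_rpow (by positivity) hr0.le, hq,
              ← Real.rpow_natCast, ← Real.rpow_natCast, ← Real.rpow_mul (by norm_num),
              ← Real.rpow_mul (by norm_num), mul_comm ((2 * B - 1)) (j : ℝ),
              Real.rpow_sub_one hr0.ne']
            field_simp
          rw [e1]
          ring
  have hfin : ∫⁻ t, Φ t ≤ ENNReal.ofReal (2 * Real.pi *
      ((2 * C ^ 2 + 200 * C ^ 2 * (1 / (1 - q))) * θ 0 * (r : ℝ) ^ (2 * B))) := by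
    calc ∫⁻ t, Φ t = ∫⁻ t in univ, Φ t := by rw [Measure.restrict_univ]
      _ ≤ ∫⁻ t in Icc (-(r : ℝ)) r ∪ ⋃ j, Bl j, Φ t := lintegral_mono_set hcover
      _ ≤ (∫⁻ t in Icc (-(r : ℝ)) r, Φ t) + ∫⁻ t in ⋃ j, Bl j, Φ t := lintegral_union_le _ _ _
      _ ≤ (∫⁻ t in Icc (-(r : ℝ)) r, Φ t) + ∑' j, ∫⁻ t in Bl j, Φ t := by
          gcongr
          exact lintegral_iUnion_le _ _
      _ ≤ ENNReal.ofReal (2 * Real.pi * (2 * C ^ 2 * θ 0 * (r : ℝ) ^ (2 * B))) +
          ENNReal.ofReal (2 * Real.pi * (200 * C ^ 2 * θ 0 * (r : ℝ) ^ (2 * B)) * (1 / (1 - q))) := by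
          refine add_le_add ?_ ?_
          · calc ∫⁻ t in Icc (-(r : ℝ)) r, Φ t
                ≤ ∫⁻ t in Icc (-(r : ℝ)) r, ENNReal.ofReal (2 * C ^ 2 * (r : ℝ) ^ (2 * B)) * Ψ t := by
                  refine setLIntegral_mono' measurableSet_Icc fun t ht => ?_
                  rw [hΦ1]
                  exact mul_le_mul_left (hzb hr1 (abs_le.2 ht)) _
              _ ≤ ∫⁻ t, ENNReal.ofReal (2 * C ^ 2 * (r : ℝ) ^ (2 * B)) * Ψ t :=
                  setLIntegral_le_lintegral _ _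
              _ = ENNReal.ofReal (2 * C ^ 2 * (r : ℝ) ^ (2 * B)) * ∫⁻ t, Ψ t := by
                  rw [lintegral_const_mul' _ _ ENNReal.ofReal_ne_top]
              _ ≤ ENNReal.ofReal (2 * C ^ 2 * (r : ℝ) ^ (2 * B)) *
                  ENNReal.ofReal (2 * Real.pi * θ 0) := by gcongr
              _ = _ := by
                  rw [← ENNReal.ofReal_mul (by positivity)]
                  congr 1
                  ring
          · refine (ENNReal.tsum_le_tsum hblock).trans ?_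
            have e2 : ∀ j : ℕ, 2 * Real.pi * (200 * C ^ 2 * θ 0 * (r : ℝ) ^ (2 * B) * q ^ j) =
                2 * Real.pi * (200 * C ^ 2 * θ 0 * (r : ℝ) ^ (2 * B)) * q ^ j := fun j => by ring
            simp_rw [e2]
            rw [← ENNReal.ofReal_tsum_of_nonneg (fun j => by positivity)
              ((summable_geometric_of_lt_one hq0.le hq1).mul_left _), tsum_mul_left,
              tsum_geometric_of_lt_one hq0.le hq1, one_div]
      _ = _ := by
          rw [← ENNReal.ofReal_add (by positivity) (by positivity)]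
          congr 1
          ring
  rw [hGp]
  calc ENNReal.ofReal (1 / (2 * Real.pi)) * ∫⁻ t, Φ t
      ≤ ENNReal.ofReal (1 / (2 * Real.pi)) * ENNReal.ofReal (2 * Real.pi *
      ((2 * C ^ 2 + 200 * C ^ 2 * (1 / (1 - q))) * θ 0 * (r : ℝ) ^ (2 * B))) := by gcongr
    _ = _ := by
        rw [← ENNReal.ofReal_mul (by positivity), ← mul_assoc, one_div_mul_cancel hpi.ne', one_mul]

end Pool.Agent.NBL
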