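import Mathlib
import Pool.Agent.NBL.RUp
import Pool.Agent.NBL.Alt
import Pool.Agent.NBL.Dens

/-!
# The powers of `2 ^ (1 / r)`
-/

set_option autoImplicit false

open MeasureTheory Complex Set Filter Topology
open scoped ENNReal

namespace Pool.Agent.NBL

/-- the explicit sequence of integrals -/
def Powers (A : ℝ) : Prop :=
  ∀ B : ℝ, A < B → B < 1 / 2 → ∃ C : ℝ, ∀ r : ℕ,
    ∫ t in Ioi (0 : ℝ), (∑ i ∈ Finset.range r,
      (-1 : ℝ) ^ i * Int.fract ((2 : ℝ) ^ (-(i / r : ℝ)) / t)) ^ 2 ≤ C * (r : ℝ) ^ (2 * B)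

/-- the parameters -/
noncomputable def th (r i : ℕ) : ℝ := (2 : ℝ) ^ (-(i / r : ℝ))

lemma th_pos (r i : ℕ) : 0 < th r i := by
  unfold th
  positivity

lemma th_anti (r : ℕ) : Antitone (th r) := by
  intro i j hij
  unfold th
  apply Real.rpow_le_rpow_of_exponent_le (by norm_num)
  have : (i : ℝ) ≤ j := by exact_mod_cast hij
  have h2 : (i : ℝ) / r ≤ j / r := by gcongr
  linarith

lemma alt_partial (j : ℕ) : ‖∑ i ∈ Finset.range j, (-1 : ℂ) ^ i‖ ≤ 1 := by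
  have h := alt_bound j (fun _ => (1 : ℝ)) (fun _ _ _ => le_rfl) (fun _ => zero_le_one)
  have e : ∑ i ∈ Finset.range j, (-1 : ℂ) ^ i =
      ((∑ i ∈ Finset.range j, (-1 : ℝ) ^ i * 1 : ℝ) : ℂ) := by
    push_cast
    simp
  rw [e, norm_real, Real.norm_of_nonneg h.1]
  exact h.2

lemma powers_eq (r : ℕ) (t : ℝ) :
    (∑ i ∈ Finset.range r, (-1 : ℝ) ^ i * Int.fract ((2 : ℝ) ^ (-(i / r : ℝ)) / t)) ^ 2 =
      ‖∑ i ∈ Finset.range r, (-1 : ℂ) ^ i * nr (th r i) t‖ ^ 2 := by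
  have e : ∑ i ∈ Finset.range r, (-1 : ℂ) ^ i * nr (th r i) t =
      ((∑ i ∈ Finset.range r, (-1 : ℝ) ^ i * Int.fract ((2 : ℝ) ^ (-(i / r : ℝ)) / t) : ℝ) : ℂ) := by
    unfold nr th
    push_cast
    rfl
  rw [e, norm_real, Real.norm_eq_abs, sq_abs]

theorem powers_of_steps {A : ℝ} (h : Steps A) : Powers A := by
  intro B hAB hB
  obtain ⟨C, hC⟩ := h B hAB hB
  refine ⟨C, fun r => ?_⟩
  have h1 := hC r (fun i => (-1 : ℂ) ^ i) (th r) alt_partial (th_anti r) (th_pos r)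
  simp_rw [powers_eq]
  have e : th r 0 = 1 := by
    unfold th
    simp
  rw [e, mul_one] at h1
  exact h1

lemma geo_lower {r : ℕ} (hr : 3 ≤ r) {t : ℝ}
    (ht : |t - Real.pi * r / Real.log 2| ≤ 12 / 5) :
    (r : ℝ) / 15 ≤ ‖Dr (Finset.range r) (fun i => (-1 : ℂ) ^ i) (th r) t‖ := by
  have hr3 : (3 : ℝ) ≤ r := by exact_mod_cast hr
  have hr0 : (0 : ℝ) < r := by linarith
  have hl1 := Real.log_two_gt_d9
  have hl2 := Real.log_two_lt_d9
  have hl0 : 0 < Real.log 2 := by linarith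
  set τ : ℝ := t - Real.pi * r / Real.log 2 with hτ
  set z : ℂ := (1 / 2 + τ * I) * ((Real.log 2 / r : ℝ) : ℂ) with hz
  set w : ℂ := cexp (-z) with hw
  -- the sum is geometric
  have hterm : ∀ i : ℕ, (-1 : ℂ) ^ i * ((th r i : ℝ) : ℂ) ^ (1 / 2 + t * I : ℂ) = w ^ i := by
    intro i
    have e1 : ((th r i : ℝ) : ℂ) ^ (1 / 2 + t * I : ℂ) =
        cexp (-(((Real.log 2 * i / r : ℝ) : ℂ) * (1 / 2 + t * I))) := by
      rw [cpow_def_of_ne_zero (by exact_mod_cast (th_pos r i).ne'), ← ofReal_log (th_pos r i).le,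
        th, Real.log_rpow (by norm_num)]
      congr 1
      push_cast
      ring
    have e2 : (-1 : ℂ) ^ i = cexp (((Real.pi * i : ℝ) : ℂ) * I) := by
      rw [← Complex.exp_pi_mul_I, ← Complex.exp_nat_mul]
      congr 1
      push_cast
      ring
    rw [e1, e2, hw, ← Complex.exp_nat_mul, ← Complex.exp_add]
    congr 1
    have ht' : t = τ + Real.pi * r / Real.log 2 := by rw [hτ]; ring
    rw [hz, ht']
    have hl' : (Real.log 2 : ℂ) ≠ 0 := by exact_mod_cast hl0.ne'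
    have hr' : (r : ℂ) ≠ 0 := by exact_mod_cast hr0.ne'
    push_cast
    field_simp
    ring
  have hQ : Dr (Finset.range r) (fun i => (-1 : ℂ) ^ i) (th r) t = ∑ i ∈ Finset.range r, w ^ i := by
    unfold Dr
    exact Finset.sum_congr rfl fun i _ => hterm i
  have hgeo : (∑ i ∈ Finset.range r, w ^ i) * (w - 1) = w ^ r - 1 := geom_sum_mul w r
  -- the numerator
  have hnum : 29 / 100 ≤ ‖w ^ r - 1‖ := by
    have h1 : ‖w ^ r‖ = Real.exp (-(Real.log 2 / 2)) := by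
      rw [hw, ← Complex.exp_nat_mul, Complex.norm_exp]
      congr 1
      rw [hz]
      have hr' : (r : ℂ) ≠ 0 := by exact_mod_cast hr0.ne'
      have : (r : ℂ) * -((1 / 2 + τ * I) * ((Real.log 2 / r : ℝ) : ℂ)) =
          ((-(Real.log 2 / 2) : ℝ) : ℂ) + ((-(τ * Real.log 2) : ℝ) : ℂ) * I := by
        push_cast
        field_simp
        ring
      rw [this]
      simp only [add_re, ofReal_re, mul_re, I_re, mul_zero, ofReal_im, I_im, mul_one, sub_self,
        add_zero]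
    have h2 : Real.exp (-(Real.log 2 / 2)) ≤ 71 / 100 := by
      have h3 : Real.exp (-(Real.log 2 / 2)) ^ 2 = 1 / 2 := by
        rw [← Real.exp_nat_mul]
        push_cast
        rw [show 2 * -(Real.log 2 / 2) = -Real.log 2 by ring, Real.exp_neg,
          Real.exp_log (by norm_num)]
        norm_num
      by_contra h4
      rw [not_le] at h4
      have := pow_lt_pow_left₀ h4 (by norm_num) two_ne_zero
      rw [h3] at this
      norm_num at this
    have h5 := norm_sub_norm_le (1 : ℂ) (w ^ r)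
    rw [norm_one, h1, norm_sub_rev] at h5
    linarith
  -- the denominator
  have hden : ‖w - 1‖ ≤ 21 / 5 / r := by
    have hzn : ‖z‖ ≤ (29 / 10) * (7 / 10) / r := by
      rw [hz, norm_mul, norm_real, Real.norm_of_nonneg (by positivity)]
      have h1 : ‖(1 / 2 + τ * I : ℂ)‖ ≤ 29 / 10 := by
        refine (half_norm τ).2.2.trans ?_
        linarith
      calc ‖(1 / 2 + τ * I : ℂ)‖ * (Real.log 2 / r) ≤ 29 / 10 * ((7 / 10) / r) := by
            apply mul_le_mul h1 _ (by positivity) (by norm_num)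
            gcongr
            linarith
        _ = _ := by ring
    have h2 : ‖-z‖ ≤ 1 := by
      rw [norm_neg]
      refine hzn.trans ?_
      rw [div_le_one hr0]
      linarith
    have h3 := Complex.norm_exp_sub_one_le h2
    rw [norm_neg] at h3
    refine h3.trans ?_
    calc 2 * ‖z‖ ≤ 2 * ((29 / 10) * (7 / 10) / r) := by linarith
      _ = (203 / 50) / r := by ring
      _ ≤ 21 / 5 / r := div_le_div_of_nonneg_right (by norm_num) hr0.le
  rw [hQ]
  have h6 : 29 / 100 ≤ ‖∑ i ∈ Finset.range r, w ^ i‖ * ‖w - 1‖ := by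
    rw [← norm_mul, hgeo]
    exact hnum
  have h7 : 29 / 100 ≤ ‖∑ i ∈ Finset.range r, w ^ i‖ * (21 / 5 / r) :=
    h6.trans (mul_le_mul_of_nonneg_left hden (norm_nonneg _))
  have h8 : ‖∑ i ∈ Finset.range r, w ^ i‖ * (21 / 5 / r) =
      (21 / 5) * ‖∑ i ∈ Finset.range r, w ^ i‖ / r := by ring
  rw [h8, le_div_iff₀ hr0] at h7
  linarith

lemma local_pow {B C : ℝ} {r : ℕ} (hr : 3 ≤ r)
    (hC : ∫ t in Ioi (0 : ℝ), (∑ i ∈ Finset.range r,
      (-1 : ℝ) ^ i * Int.fract ((2 : ℝ) ^ (-(i / r : ℝ)) / t)) ^ 2 ≤ C * (r : ℝ) ^ (2 * B)) :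
    ∫⁻ t in Icc (Real.pi * r / Real.log 2 - 12 / 5) (Real.pi * r / Real.log 2 + 12 / 5),
      ‖riemannZeta (1 / 2 + t * I)‖ₑ ^ 2 ≤
      ENNReal.ofReal (16200 * Real.pi * C * (r : ℝ) ^ (2 * B)) := by
  have hr3 : (3 : ℝ) ≤ r := by exact_mod_cast hr
  have hr0 : (0 : ℝ) < r := by linarith
  have hl1 := Real.log_two_gt_d9
  have hl0 : 0 < Real.log 2 := by linarith
  have hpos : ∀ i ∈ Finset.range r, 0 < th r i := fun i _ => th_pos r i
  simp_rw [powers_eq] at hC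
  have hadm := adm_nr_sum hpos (fun i => (-1 : ℂ) ^ i)
  have h3 := lint_of_int hadm hC
  rw [plancherel hadm] at h3
  have hT : Real.pi * r / Real.log 2 ≤ 5 * r := by
    rw [div_le_iff₀ hl0]
    have : Real.pi ≤ 5 * Real.log 2 := by linarith [Real.pi_lt_d2]
    nlinarith
  have hT0 : 0 ≤ Real.pi * r / Real.log 2 := by positivity
  have hpt : ∀ t ∈ Icc (Real.pi * r / Real.log 2 - 12 / 5) (Real.pi * r / Real.log 2 + 12 / 5),
      ‖riemannZeta (1 / 2 + t * I)‖ₑ ^ 2 ≤ ENNReal.ofReal 8100 *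
        ‖mellin (fun x => ∑ i ∈ Finset.range r, (-1 : ℂ) ^ i * nr (th r i) x)
          (1 / 2 + t * I)‖ₑ ^ 2 := by
    intro t ht
    have ht' : |t - Real.pi * r / Real.log 2| ≤ 12 / 5 := by
      rw [abs_le]
      constructor
      · linarith [ht.1]
      · linarith [ht.2]
    have hQ := geo_lower hr ht'
    rw [mellin_nr_sum hpos, enorm_neg, enorm_sq, enorm_sq, ← ENNReal.ofReal_mul (by norm_num)]
    apply ENNReal.ofReal_le_ofReal
    rw [norm_mul, norm_div, mul_pow, div_pow]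
    have hs1 := (half_norm t).2.2
    have hs2 : 0 < ‖(1 / 2 + t * I : ℂ)‖ := lt_of_lt_of_le (by norm_num) (half_norm t).2.1
    have hta : |t| ≤ 5 * r + 12 / 5 := by
      rw [abs_le]
      constructor
      · linarith [ht.1]
      · linarith [ht.2]
    have hs3 : ‖(1 / 2 + t * I : ℂ)‖ ≤ 6 * r := by linarith
    have hQ2 := pow_le_pow_left₀ (by positivity) hQ 2
    have h5 : 1 ≤ 8100 * (‖Dr (Finset.range r) (fun i => (-1 : ℂ) ^ i) (th r) t‖ ^ 2 /
        ‖(1 / 2 + t * I : ℂ)‖ ^ 2) := by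
      have h6 : ‖(1 / 2 + t * I : ℂ)‖ ^ 2 ≤ (6 * r) ^ 2 := pow_le_pow_left₀ hs2.le hs3 2
      rw [← mul_div_assoc, le_div_iff₀ (by positivity), one_mul]
      calc ‖(1 / 2 + t * I : ℂ)‖ ^ 2 ≤ (6 * r) ^ 2 := h6
        _ = 8100 * ((r : ℝ) / 15) ^ 2 := by ring
        _ ≤ _ := mul_le_mul_of_nonneg_left hQ2 (by norm_num)
    calc ‖riemannZeta (1 / 2 + t * I)‖ ^ 2 = ‖riemannZeta (1 / 2 + t * I)‖ ^ 2 * 1 :=
          (mul_one _).symm
      _ ≤ ‖riemannZeta (1 / 2 + t * I)‖ ^ 2 *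
          (8100 * (‖Dr (Finset.range r) (fun i => (-1 : ℂ) ^ i) (th r) t‖ ^ 2 /
        ‖(1 / 2 + t * I : ℂ)‖ ^ 2)) := mul_le_mul_of_nonneg_left h5 (by positivity)
      _ = _ := by ring
  set G : ℝ → ℂ := fun x => ∑ i ∈ Finset.range r, (-1 : ℂ) ^ i * nr (th r i) x with hG
  have h4 : ∫⁻ t : ℝ, ‖mellin G (1 / 2 + t * I)‖ₑ ^ 2 ≤
      ENNReal.ofReal (2 * Real.pi * (C * (r : ℝ) ^ (2 * B))) := by
    have hpi : (0 : ℝ) < 2 * Real.pi := by positivity
    calc ∫⁻ t : ℝ, ‖mellin G (1 / 2 + t * I)‖ₑ ^ 2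
        = ENNReal.ofReal (2 * Real.pi) * (ENNReal.ofReal (1 / (2 * Real.pi)) *
          ∫⁻ t : ℝ, ‖mellin G (1 / 2 + t * I)‖ₑ ^ 2) := by
          rw [← mul_assoc, ← ENNReal.ofReal_mul hpi.le, mul_one_div_cancel hpi.ne']
          simp
      _ ≤ ENNReal.ofReal (2 * Real.pi) * ENNReal.ofReal (C * (r : ℝ) ^ (2 * B)) := by
          gcongr
      _ = _ := by rw [← ENNReal.ofReal_mul hpi.le]
  set J : Set ℝ := Icc (Real.pi * r / Real.log 2 - 12 / 5) (Real.pi * r / Real.log 2 + 12 / 5)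
    with hJ
  calc ∫⁻ t in J, ‖riemannZeta (1 / 2 + t * I)‖ₑ ^ 2
      ≤ ∫⁻ t in J, ENNReal.ofReal 8100 * ‖mellin G (1 / 2 + t * I)‖ₑ ^ 2 :=
        setLIntegral_mono' measurableSet_Icc hpt
    _ ≤ ∫⁻ t : ℝ, ENNReal.ofReal 8100 * ‖mellin G (1 / 2 + t * I)‖ₑ ^ 2 :=
        setLIntegral_le_lintegral _ _
    _ = ENNReal.ofReal 8100 * ∫⁻ t : ℝ, ‖mellin G (1 / 2 + t * I)‖ₑ ^ 2 := by
        rw [lintegral_const_mul' _ _ ENNReal.ofReal_ne_top]
    _ ≤ ENNReal.ofReal 8100 * ENNReal.ofReal (2 * Real.pi * (C * (r : ℝ) ^ (2 * B))) := by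
        gcongr
    _ = _ := by
        rw [← ENNReal.ofReal_mul (by norm_num)]
        congr 1
        ring

/-- every large `T` is close to one of the points `π r / log 2` -/
lemma near_point {T : ℝ} (hT : 60 ≤ T) : ∃ r : ℕ, 12 ≤ r ∧ (r : ℝ) ≤ T ∧
    |T - Real.pi * r / Real.log 2| ≤ 23 / 10 := by
  have hl1 := Real.log_two_gt_d9
  have hl2 := Real.log_two_lt_d9
  have hl0 : 0 < Real.log 2 := by linarith
  have hp := Real.pi_pos
  have hp1 := Real.pi_gt_three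
  have hp2 := Real.pi_lt_d2
  set x : ℝ := T * Real.log 2 / Real.pi with hx
  have hx0 : 0 ≤ x + 1 / 2 := by positivity
  have hx1 : x ≤ T / 4 := by
    rw [hx, div_le_iff₀ hp]
    nlinarith
  have hx2 : 13 ≤ x := by
    rw [hx, le_div_iff₀ hp]
    nlinarith
  set r : ℕ := ⌊x + 1 / 2⌋₊ with hr
  have h1 : (r : ℝ) ≤ x + 1 / 2 := Nat.floor_le hx0
  have h2 : x + 1 / 2 < r + 1 := Nat.lt_floor_add_one _
  refine ⟨r, ?_, by linarith, ?_⟩
  · have : (12 : ℝ) ≤ r := by linarith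
    exact_mod_cast this
  · have e : T - Real.pi * r / Real.log 2 = (Real.pi / Real.log 2) * (x - r) := by
      rw [hx]
      field_simp
    rw [e, abs_mul, abs_of_pos (by positivity)]
    have h3 : |x - r| ≤ 1 / 2 := by
      rw [abs_le]
      constructor <;> linarith
    have h4 : Real.pi / Real.log 2 ≤ 23 / 5 := by
      rw [div_le_iff₀ hl0]
      linarith
    calc Real.pi / Real.log 2 * |x - r| ≤ 23 / 5 * (1 / 2) :=
          mul_le_mul h4 h3 (abs_nonneg _) (by norm_num)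
      _ = 23 / 10 := by norm_num

theorem mu_of_powers {A : ℝ} (hA : 0 ≤ A) (hA1 : A < 1 / 2) (hg : Powers A) : Mu A := by
  refine (Pool.Agent.Lib.ThickFailure.result A hA).2 fun B' hB' => ?_
  set B : ℝ := min ((A + B') / 2) ((A + 1 / 2) / 2) with hB
  have hB1 : A < B := lt_min (by linarith) (by linarith)
  have hB2 : B < 1 / 2 := lt_of_le_of_lt (min_le_right _ _) (by linarith)
  have hB3 : B < B' := lt_of_le_of_lt (min_le_left _ _) (by linarith)
  have hB0 : 0 ≤ B := by linarith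
  obtain ⟨C, hC⟩ := hg B hB1 hB2
  have hC0 : 0 ≤ C := by
    have h1 := hC 1
    have h2 : 0 ≤ ∫ t in Ioi (0 : ℝ), (∑ i ∈ Finset.range 1,
      (-1 : ℝ) ^ i * Int.fract ((2 : ℝ) ^ (-(i / ((1 : ℕ) : ℝ) : ℝ)) / t)) ^ 2 :=
      integral_nonneg fun t => by positivity
    have h3 := h2.trans h1
    simpa using h3
  refine ⟨1 / 2, by norm_num, fun δ hδ => ?_⟩
  refine density (K := 16200 * Real.pi * C) hB0 hB3 (by positivity) (fun T hT => ?_) hδ
  obtain ⟨r, hr3, hrT, hrd⟩ := near_point hT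
  rw [abs_le] at hrd
  refine (lintegral_mono_set (t := Icc (Real.pi * r / Real.log 2 - 12 / 5)
    (Real.pi * r / Real.log 2 + 12 / 5)) ?_).trans ((local_pow (by omega) (hC r)).trans ?_)
  · apply Icc_subset_Icc <;> linarith
  · apply ENNReal.ofReal_le_ofReal
    have : (r : ℝ) ^ (2 * B) ≤ T ^ (2 * B) := Real.rpow_le_rpow (by positivity) hrT (by linarith)
    gcongr

end Pool.Agent.NBL
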