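import Mathlib
import Pool.Agent.NBL.RPow

/-!
# An explicit sequence of rational numbers
-/

set_option autoImplicit false

open MeasureTheory Complex Set Filter Topology
open scoped ENNReal

namespace Pool.Agent.NBL

/-- the explicit sequence of rational numbers -/
def Ints (A : ℝ) : Prop :=
  ∀ B : ℝ, A < B → B < 1 / 2 → ∃ C : ℝ, ∀ r : ℕ,
    ∑ m ∈ Finset.Icc 1 (r ^ 3), (∑ i ∈ Finset.range r,
      (-1 : ℝ) ^ i * Int.fract ((m : ℝ) / ⌈(5 * r : ℝ) * (2 : ℝ) ^ (i / r : ℝ)⌉₊)) ^ 2 /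
        (m : ℝ) ^ 2 ≤ C * (r : ℝ) ^ (2 * B - 1)

/-- the integers -/
noncomputable def kz (r i : ℕ) : ℕ := ⌈(5 * r : ℝ) * (2 : ℝ) ^ (i / r : ℝ)⌉₊

lemma kz_ge {r : ℕ} (i : ℕ) : (5 * r : ℝ) * (2 : ℝ) ^ (i / r : ℝ) ≤ kz r i := Nat.le_ceil _

lemma kz_lt (r i : ℕ) : (kz r i : ℝ) < (5 * r : ℝ) * (2 : ℝ) ^ (i / r : ℝ) + 1 :=
  Nat.ceil_lt_add_one (by positivity)

lemma kz_pos {r : ℕ} (hr : 0 < r) (i : ℕ) : 0 < kz r i := by
  have : (0 : ℝ) < r := by exact_mod_cast hr
  exact Nat.ceil_pos.2 (by positivity)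

lemma kz_mono {r : ℕ} : Monotone (kz r) := by
  intro i j hij
  apply Nat.ceil_mono
  have h1 : (i : ℝ) ≤ j := by exact_mod_cast hij
  have h2 : (i : ℝ) / r ≤ j / r := by gcongr
  have h3 : (2 : ℝ) ^ (i / r : ℝ) ≤ (2 : ℝ) ^ (j / r : ℝ) :=
    Real.rpow_le_rpow_of_exponent_le (by norm_num) h2
  gcongr

lemma kz_ge5 {r : ℕ} (i : ℕ) : (5 * r : ℝ) ≤ kz r i := by
  refine le_trans ?_ (kz_ge i)
  have : (1 : ℝ) ≤ (2 : ℝ) ^ (i / r : ℝ) := Real.one_le_rpow (by norm_num) (by positivity)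
  exact le_mul_of_one_le_right (by positivity) this

lemma Gz_eq {r : ℕ} (t : ℝ) :
    ∑ i ∈ Finset.range r, (-1 : ℂ) ^ i * nr (1 / (kz r i : ℝ)) t =
      ((Gs (Finset.range r) (fun i => (-1 : ℝ) ^ i) (kz r) t : ℝ) : ℂ) := by
  unfold nr Gs
  push_cast
  refine Finset.sum_congr rfl fun i _ => ?_
  rw [div_div]

lemma Sz_bound {r : ℕ} (hr : 0 < r) :
    Ss (Finset.range r) (fun i => (-1 : ℝ) ^ i) (kz r) ^ 2 ≤ (1 / (5 * r : ℝ)) ^ 2 := by
  have hr0 : (0 : ℝ) < r := by exact_mod_cast hr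
  have h1 := alt_bound r (fun i => 1 / (kz r i : ℝ)) (by
    intro i j hij
    have h1 : (kz r i : ℝ) ≤ kz r j := by exact_mod_cast kz_mono hij
    have h2 : (0 : ℝ) < kz r i := by exact_mod_cast kz_pos hr i
    exact one_div_le_one_div_of_le h2 h1) (fun i => by positivity)
  refine pow_le_pow_left₀ h1.1 (h1.2.trans ?_) 2
  exact one_div_le_one_div_of_le (by positivity) (kz_ge5 0)

theorem ints_of_steps {A : ℝ} (hA : 0 ≤ A) (h : Steps A) : Ints A := by
  intro B hAB hB
  obtain ⟨C, hC⟩ := h B hAB hB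
  have hC0 : 0 ≤ C := by
    have h1 := hC 1 (fun i => (-1 : ℂ) ^ i) (th 1) alt_partial (th_anti 1) (th_pos 1)
    have h2 : 0 ≤ ∫ t in Ioi (0 : ℝ), ‖∑ i ∈ Finset.range 1, (-1 : ℂ) ^ i *
      ((Int.fract (th 1 i / t) : ℝ) : ℂ)‖ ^ 2 := integral_nonneg fun t => by positivity
    have h3 := h2.trans h1
    simpa [th] using h3
  refine ⟨4 * C + 4, fun r => ?_⟩
  rcases Nat.eq_zero_or_pos r with hr | hr
  · subst hr
    simp [Real.zero_rpow (by linarith : 2 * B - 1 ≠ 0)]
  have hr1 : (1 : ℝ) ≤ r := by exact_mod_cast hr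
  have hr0 : (0 : ℝ) < r := by linarith
  have hkpos : ∀ i, (0 : ℝ) < kz r i := fun i => by exact_mod_cast kz_pos hr i
  have h1 := hC r (fun i => (-1 : ℂ) ^ i) (fun i => 1 / (kz r i : ℝ)) alt_partial (by
    intro i j hij
    have h1 : (kz r i : ℝ) ≤ kz r j := by exact_mod_cast kz_mono hij
    exact one_div_le_one_div_of_le (hkpos i) h1) (fun i => by
      have := hkpos i
      positivity)
  have hadm : Adm (fun t => ∑ i ∈ Finset.range r, (-1 : ℂ) ^ i * nr (1 / (kz r i : ℝ)) t) :=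
    adm_nr_sum (θ := fun i => 1 / (kz r i : ℝ)) (fun i _ => by
      have := hkpos i
      positivity) _
  have h2 := lint_of_int hadm h1
  set R : ℝ := C * (r : ℝ) ^ (2 * B - 1) with hR
  have hR0 : 0 ≤ R := by positivity
  have hint : ∫⁻ t in Ioi (0 : ℝ), ENNReal.ofReal
      (Gs (Finset.range r) (fun i => (-1 : ℝ) ^ i) (kz r) t ^ 2) ≤ ENNReal.ofReal R := by
    refine le_trans (le_of_eq ?_) (h2.trans (ENNReal.ofReal_le_ofReal ?_))
    · refine lintegral_congr fun t => ?_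
      rw [Gz_eq, enorm_sq, norm_real, Real.norm_eq_abs, sq_abs]
    · have h3 : 1 / (kz r 0 : ℝ) ≤ 1 / r := one_div_le_one_div_of_le hr0 (by
        have := kz_ge5 (r := r) 0
        linarith)
      calc C * (1 / (kz r 0 : ℝ)) * (r : ℝ) ^ (2 * B) ≤ C * (1 / r) * (r : ℝ) ^ (2 * B) := by
            gcongr
        _ = R := by
            rw [hR, Real.rpow_sub_one hr0.ne']
            ring
  have hfin := sum_le_int (fun i _ => kz_pos hr i) hR0 hint (r ^ 3)
  have hS := Sz_bound hr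
  have hS2 : (1 / (5 * r : ℝ)) ^ 2 ≤ (r : ℝ) ^ (2 * B - 1) := by
    have h3 : (1 / (5 * r : ℝ)) ^ 2 ≤ (1 / (r : ℝ)) ^ 2 := by
      apply pow_le_pow_left₀ (by positivity)
      exact one_div_le_one_div_of_le hr0 (by linarith)
    refine h3.trans ?_
    rw [one_div, inv_pow, ← Real.rpow_natCast, ← Real.rpow_neg hr0.le]
    apply Real.rpow_le_rpow_of_exponent_le hr1
    push_cast
    linarith
  calc _ ≤ 4 * R + 4 * Ss (Finset.range r) (fun i => (-1 : ℝ) ^ i) (kz r) ^ 2 := hfin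
    _ ≤ 4 * R + 4 * (r : ℝ) ^ (2 * B - 1) := by linarith
    _ = _ := by
        rw [hR]
        ring

lemma int_lower {r : ℕ} (hr : 12 ≤ r) {t : ℝ}
    (ht : |t - Real.pi * r / Real.log 2| ≤ 12 / 5) :
    √(r : ℝ) / 25 ≤ ‖Dr (Finset.range r) (fun i => (-1 : ℂ) ^ i) (fun i => 1 / (kz r i : ℝ)) t‖ := by
  have hr3 : (12 : ℝ) ≤ r := by exact_mod_cast hr
  have hr0 : (0 : ℝ) < r := by linarith
  have hrn : 0 < r := by omega
  have hl1 := Real.log_two_gt_d9
  have hl2 := Real.log_two_lt_d9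
  have hl0 : 0 < Real.log 2 := by linarith
  set T : ℝ := Real.pi * r / Real.log 2 with hT
  have hT0 : 0 < T := by positivity
  set τ : ℝ := t - T with hτ
  set cc0 : ℝ := t * Real.log (5 * r) + (9 / 20 + τ * (7 / 20)) with hcc
  have hterm : ∀ i ∈ Finset.range r, (7 / 50) * (1 / √(11 * r)) ≤
      (((-1 : ℂ) ^ i * (((1 / (kz r i : ℝ) : ℝ) : ℂ) ^ (1 / 2 + t * I : ℂ))) *
        cexp ((cc0 : ℂ) * I)).re := by
    intro i hi
    rw [Finset.mem_range] at hi
    have hir : (i : ℝ) / r ≤ 1 := by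
      rw [div_le_one hr0]
      exact_mod_cast hi.le
    have hir0 : 0 ≤ (i : ℝ) / r := by positivity
    set y : ℝ := (5 * r : ℝ) * (2 : ℝ) ^ (i / r : ℝ) with hy
    have hp1 : (1 : ℝ) ≤ (2 : ℝ) ^ (i / r : ℝ) := Real.one_le_rpow (by norm_num) hir0
    have hp2 : (2 : ℝ) ^ (i / r : ℝ) ≤ 2 := by
      calc (2 : ℝ) ^ (i / r : ℝ) ≤ (2 : ℝ) ^ (1 : ℝ) :=
            Real.rpow_le_rpow_of_exponent_le (by norm_num) hir
        _ = 2 := Real.rpow_one 2
    have hy1 : 5 * (r : ℝ) ≤ y := le_mul_of_one_le_right (by positivity) hp1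
    have hy2 : y ≤ 10 * r := by
      rw [hy]
      nlinarith
    have hy0 : 0 < y := by linarith
    set k : ℝ := (kz r i : ℝ) with hk
    have hk1 : y ≤ k := kz_ge i
    have hk2 : k < y + 1 := kz_lt r i
    have hk0 : 0 < k := by linarith
    set φ : ℝ := T * Real.log (k / y) with hφ
    set ℓ : ℝ := Real.log (k / (5 * r)) with hℓ
    have hly : Real.log y = Real.log (5 * r) + (i / r) * Real.log 2 := by
      rw [hy, Real.log_mul (by positivity) (by positivity), Real.log_rpow (by norm_num)]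
    have hφ0 : 0 ≤ φ := by
      have : 0 ≤ Real.log (k / y) := Real.log_nonneg (by rw [le_div_iff₀ hy0]; linarith)
      positivity
    have hTr : T / (5 * r) ≤ 91 / 100 := by
      rw [hT, div_div, div_le_iff₀ (by positivity)]
      have : Real.pi ≤ 91 / 100 * (5 * Real.log 2) := by linarith [Real.pi_lt_d2]
      nlinarith
    have hφ1 : φ ≤ 91 / 100 := by
      have h4 := Real.log_le_sub_one_of_pos (div_pos hk0 hy0)
      have h5 : k / y - 1 ≤ 1 / (5 * r) := by
        have : k / y - 1 = (k - y) / y := by field_simp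
        rw [this]
        calc (k - y) / y ≤ 1 / y := by
              gcongr
              linarith
          _ ≤ 1 / (5 * r) := one_div_le_one_div_of_le (by positivity) hy1
      calc φ ≤ T * (1 / (5 * r)) := mul_le_mul_of_nonneg_left (h4.trans h5) hT0.le
        _ = T / (5 * r) := by ring
        _ ≤ _ := hTr
    have hℓ0 : 0 ≤ ℓ := Real.log_nonneg (by
      rw [le_div_iff₀ (by positivity)]
      linarith)
    have hℓ1 : ℓ ≤ 702 / 1000 := by
      have h6 : k / (5 * r) ≤ 2 * (1 + 1 / (10 * r)) := by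
        rw [div_le_iff₀ (by positivity)]
        have : 2 * (1 + 1 / (10 * (r : ℝ))) * (5 * r) = 10 * r + 1 := by
          field_simp
          ring
        rw [this]
        linarith
      have h7 : ℓ ≤ Real.log 2 + Real.log (1 + 1 / (10 * r)) := by
        rw [← Real.log_mul (by norm_num) (by positivity)]
        exact Real.log_le_log (by positivity) h6
      have h8 : Real.log (1 + 1 / (10 * (r : ℝ))) ≤ 1 / (10 * r) := by
        have := Real.log_le_sub_one_of_pos (show (0 : ℝ) < 1 + 1 / (10 * r) by positivity)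
        linarith
      have h9 : 1 / (10 * (r : ℝ)) ≤ 1 / 120 := one_div_le_one_div_of_le (by norm_num) (by linarith)
      linarith
    set ψ : ℝ := (9 / 20 + τ * (7 / 20)) - φ - τ * ℓ with hψ
    have hψb : |ψ| ≤ 131 / 100 := by
      have h10 : |9 / 20 - φ| ≤ 46 / 100 := by
        rw [abs_le]
        constructor <;> linarith
      have h11 : |τ * (7 / 20 - ℓ)| ≤ (12 / 5) * (352 / 1000) := by
        rw [abs_mul]
        apply mul_le_mul ht _ (abs_nonneg _) (by norm_num)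
        rw [abs_le]
        constructor <;> linarith
      have h12 : ψ = (9 / 20 - φ) + τ * (7 / 20 - ℓ) := by
        rw [hψ]
        ring
      rw [h12]
      refine (abs_add_le _ _).trans ?_
      linarith
    have h10 : 7 / 50 ≤ Real.cos ψ := by
      have := Real.one_sub_sq_div_two_le_cos (x := ψ)
      have h11 : ψ ^ 2 ≤ (131 / 100) ^ 2 := by
        rw [← sq_abs ψ]
        exact pow_le_pow_left₀ (abs_nonneg _) hψb 2
      norm_num at h11
      linarith
    have hkc : (k : ℂ) ≠ 0 := by exact_mod_cast hk0.ne'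
    have hval : ((-1 : ℂ) ^ i * (((1 / k : ℝ) : ℂ) ^ (1 / 2 + t * I : ℂ))) *
        cexp ((cc0 : ℂ) * I) = ((1 / √k : ℝ) : ℂ) * cexp ((ψ : ℂ) * I) := by
      have e1 : (-1 : ℂ) ^ i = cexp (((Real.pi * i : ℝ) : ℂ) * I) := by
        rw [← Complex.exp_pi_mul_I, ← Complex.exp_nat_mul]
        congr 1
        push_cast
        ring
      have e2 : ((1 / k : ℝ) : ℂ) ^ (1 / 2 + t * I : ℂ) =
          ((1 / √k : ℝ) : ℂ) * cexp (((-t * Real.log k : ℝ) : ℂ) * I) := by
        have hk1' : ((1 / k : ℝ) : ℂ) ≠ 0 := by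
          have : (0 : ℝ) < 1 / k := by positivity
          exact_mod_cast this.ne'
        rw [show (1 / 2 + t * I : ℂ) = ((1 / 2 : ℝ) : ℂ) + (t : ℂ) * I by push_cast; ring,
          cpow_add _ _ hk1']
        congr 1
        · rw [← ofReal_cpow (by positivity)]
          congr 1
          rw [← Real.sqrt_eq_rpow, one_div, one_div, Real.sqrt_inv]
        · rw [cpow_def_of_ne_zero hk1', ← ofReal_log (by positivity), one_div, Real.log_inv]
          congr 1
          push_cast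
          ring
      rw [e1, e2]
      rw [show cexp (((Real.pi * i : ℝ) : ℂ) * I) * (((1 / √k : ℝ) : ℂ) *
        cexp (((-t * Real.log k : ℝ) : ℂ) * I)) * cexp ((cc0 : ℂ) * I) =
        ((1 / √k : ℝ) : ℂ) * (cexp (((Real.pi * i : ℝ) : ℂ) * I) *
        cexp (((-t * Real.log k : ℝ) : ℂ) * I) * cexp ((cc0 : ℂ) * I)) by ring,
        ← Complex.exp_add, ← Complex.exp_add]
      congr 2
      have hreal : Real.pi * i + -t * Real.log k + cc0 = ψ := by
        have e3 : Real.log k = φ / T + Real.log y := by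
          rw [hφ, Real.log_div hk0.ne' hy0.ne']
          field_simp
          ring
        have e4 : ℓ = φ / T + (i / r) * Real.log 2 := by
          rw [hℓ, Real.log_div hk0.ne' (by positivity), e3, hly]
          ring
        have e5 : T * ((i / r : ℝ) * Real.log 2) = Real.pi * i := by
          rw [hT]
          field_simp
        have e6 : t = T + τ := by rw [hτ]; ring
        have e7 : T * (φ / T) = φ := mul_div_cancel₀ _ hT0.ne'
        rw [hψ, hcc, e4, e3, hly]
        linear_combination (-1 : ℝ) * e7 - e5 - (φ / T + (i / r : ℝ) * Real.log 2) * e6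
      rw [← hreal]
      push_cast
      ring
    rw [hval, re_ofReal_mul, exp_ofReal_mul_I_re]
    have h12 : 1 / √(11 * (r : ℝ)) ≤ 1 / √k := by
      apply one_div_le_one_div_of_le (Real.sqrt_pos.2 hk0)
      apply Real.sqrt_le_sqrt
      linarith
    have h13 : 0 ≤ 1 / √k := by positivity
    calc 7 / 50 * (1 / √(11 * (r : ℝ))) ≤ 7 / 50 * (1 / √k) := by linarith
      _ ≤ Real.cos ψ * (1 / √k) := mul_le_mul_of_nonneg_right h10 h13
      _ = 1 / √k * Real.cos ψ := mul_comm _ _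
  have h1 : (Finset.range r).card • ((7 / 50) * (1 / √(11 * (r : ℝ)))) ≤
      (Dr (Finset.range r) (fun i => (-1 : ℂ) ^ i) (fun i => 1 / (kz r i : ℝ)) t *
        cexp ((cc0 : ℂ) * I)).re := by
    rw [Dr, Finset.sum_mul, re_sum]
    exact Finset.card_nsmul_le_sum _ _ _ hterm
  have h2 : (Dr (Finset.range r) (fun i => (-1 : ℂ) ^ i) (fun i => 1 / (kz r i : ℝ)) t *
        cexp ((cc0 : ℂ) * I)).re ≤
      ‖Dr (Finset.range r) (fun i => (-1 : ℂ) ^ i) (fun i => 1 / (kz r i : ℝ)) t‖ := by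
    refine (re_le_norm _).trans ?_
    rw [norm_mul, norm_exp_ofReal_mul_I, mul_one]
  refine le_trans ?_ (h1.trans h2)
  rw [nsmul_eq_mul, Finset.card_range]
  have hs3 : √(11 * (r : ℝ)) = √11 * √(r : ℝ) := Real.sqrt_mul (by norm_num) _
  have hs4 : √11 ≤ 7 / 2 := by
    rw [Real.sqrt_le_left (by norm_num)]
    norm_num
  have hsT : 0 < √(r : ℝ) := Real.sqrt_pos.2 hr0
  have hs30 : 0 < √11 := by positivity
  have hTT : √(r : ℝ) * √(r : ℝ) = r := Real.mul_self_sqrt hr0.le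
  rw [hs3]
  have e : (r : ℝ) * (7 / 50 * (1 / (√11 * √(r : ℝ)))) = (7 / 50) * (√(r : ℝ) / √11) := by
    nth_rewrite 1 [← hTT]
    field_simp
  rw [e]
  have h5 : √(r : ℝ) / (7 / 2) ≤ √(r : ℝ) / √11 := div_le_div_of_nonneg_left hsT.le hs30 hs4
  linarith

end Pool.Agent.NBL
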