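import Mathlib
import Pool.Agent.NBL.RInt

/-!
# An explicit sequence of rational numbers: the converse
-/

set_option autoImplicit false

open MeasureTheory Complex Set Filter Topology
open scoped ENNReal

namespace Pool.Agent.NBL

lemma As_abs (r m : ℕ) :
    As (Finset.range r) (fun i => (-1 : ℝ) ^ i) (kz r) m ^ 2 ≤ (r : ℝ) ^ 2 := by
  have h1 : |As (Finset.range r) (fun i => (-1 : ℝ) ^ i) (kz r) m| ≤ r := by
    unfold As
    refine (Finset.abs_sum_le_sum_abs _ _).trans ?_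
    calc ∑ i ∈ Finset.range r, |(-1 : ℝ) ^ i * Int.fract ((m : ℝ) / kz r i)|
        ≤ ∑ i ∈ Finset.range r, (1 : ℝ) := by
          refine Finset.sum_le_sum fun i _ => ?_
          rw [abs_mul, abs_pow, abs_neg, abs_one, one_pow, one_mul,
            abs_of_nonneg (Int.fract_nonneg _)]
          exact (Int.fract_lt_one _).le
      _ = r := by simp
  rw [← sq_abs]
  exact pow_le_pow_left₀ (abs_nonneg _) h1 2

lemma tail_bound {C D : ℝ} {r : ℕ} (hr : 0 < r)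
    (hC : ∑ m ∈ Finset.Icc 1 (r ^ 3),
      As (Finset.range r) (fun i => (-1 : ℝ) ^ i) (kz r) m ^ 2 / (m : ℝ) ^ 2 ≤ C)
    (hD : 1 / (r : ℝ) ≤ D) (M : ℕ) :
    ∑ m ∈ Finset.Icc 1 M,
      As (Finset.range r) (fun i => (-1 : ℝ) ^ i) (kz r) m ^ 2 / (m : ℝ) ^ 2 ≤ C + D := by
  have hr0 : (0 : ℝ) < r := by exact_mod_cast hr
  have hD0 : 0 ≤ D := le_trans (by positivity) hD
  have hsub : Finset.Icc 1 M ⊆ Finset.Icc 1 (r ^ 3) ∪ Finset.Ioc (r ^ 3) (max M (r ^ 3)) := by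
    intro m hm
    rw [Finset.mem_Icc] at hm
    rw [Finset.mem_union, Finset.mem_Icc, Finset.mem_Ioc]
    by_cases h : m ≤ r ^ 3
    · exact Or.inl ⟨hm.1, h⟩
    · exact Or.inr ⟨by omega, hm.2.trans (le_max_left _ _)⟩
  have h1 : ∑ m ∈ Finset.Ioc (r ^ 3) (max M (r ^ 3)),
      As (Finset.range r) (fun i => (-1 : ℝ) ^ i) (kz r) m ^ 2 / (m : ℝ) ^ 2 ≤ 1 / r := by
    calc ∑ m ∈ Finset.Ioc (r ^ 3) (max M (r ^ 3)),
        As (Finset.range r) (fun i => (-1 : ℝ) ^ i) (kz r) m ^ 2 / (m : ℝ) ^ 2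
        ≤ ∑ m ∈ Finset.Ioc (r ^ 3) (max M (r ^ 3)), (r : ℝ) ^ 2 * ((m : ℝ) ^ 2)⁻¹ := by
          refine Finset.sum_le_sum fun m _ => ?_
          rw [div_eq_mul_inv]
          exact mul_le_mul_of_nonneg_right (As_abs r m) (by positivity)
      _ = (r : ℝ) ^ 2 * ∑ m ∈ Finset.Ioc (r ^ 3) (max M (r ^ 3)), ((m : ℝ) ^ 2)⁻¹ := by
          rw [Finset.mul_sum]
      _ ≤ (r : ℝ) ^ 2 * (((r ^ 3 : ℕ) : ℝ)⁻¹ - ((max M (r ^ 3) : ℕ) : ℝ)⁻¹) := by
          apply mul_le_mul_of_nonneg_left _ (by positivity)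
          exact sum_Ioc_inv_sq_le_sub (by positivity) (le_max_right _ _)
      _ ≤ (r : ℝ) ^ 2 * (((r ^ 3 : ℕ) : ℝ)⁻¹) := by
          apply mul_le_mul_of_nonneg_left _ (by positivity)
          have : 0 ≤ ((max M (r ^ 3) : ℕ) : ℝ)⁻¹ := by positivity
          linarith
      _ = 1 / r := by
          push_cast
          field_simp
  calc ∑ m ∈ Finset.Icc 1 M,
      As (Finset.range r) (fun i => (-1 : ℝ) ^ i) (kz r) m ^ 2 / (m : ℝ) ^ 2
      ≤ ∑ m ∈ Finset.Icc 1 (r ^ 3) ∪ Finset.Ioc (r ^ 3) (max M (r ^ 3)),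
        As (Finset.range r) (fun i => (-1 : ℝ) ^ i) (kz r) m ^ 2 / (m : ℝ) ^ 2 :=
        Finset.sum_le_sum_of_subset_of_nonneg hsub fun m _ _ => by positivity
    _ ≤ ∑ m ∈ Finset.Icc 1 (r ^ 3),
        As (Finset.range r) (fun i => (-1 : ℝ) ^ i) (kz r) m ^ 2 / (m : ℝ) ^ 2 +
        ∑ m ∈ Finset.Ioc (r ^ 3) (max M (r ^ 3)),
        As (Finset.range r) (fun i => (-1 : ℝ) ^ i) (kz r) m ^ 2 / (m : ℝ) ^ 2 := by
        rw [← Finset.sum_union_inter]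
        have : 0 ≤ ∑ m ∈ Finset.Icc 1 (r ^ 3) ∩ Finset.Ioc (r ^ 3) (max M (r ^ 3)),
          As (Finset.range r) (fun i => (-1 : ℝ) ^ i) (kz r) m ^ 2 / (m : ℝ) ^ 2 :=
          Finset.sum_nonneg fun m _ => by positivity
        linarith
    _ ≤ C + D := by linarith

lemma local_int {B C : ℝ} (hB0 : 0 ≤ B) (hC0 : 0 ≤ C) {r : ℕ} (hr : 12 ≤ r)
    (hC : ∑ m ∈ Finset.Icc 1 (r ^ 3), (∑ i ∈ Finset.range r,
      (-1 : ℝ) ^ i * Int.fract ((m : ℝ) / ⌈(5 * r : ℝ) * (2 : ℝ) ^ (i / r : ℝ)⌉₊)) ^ 2 /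
        (m : ℝ) ^ 2 ≤ C * (r : ℝ) ^ (2 * B - 1)) :
    ∫⁻ t in Icc (Real.pi * r / Real.log 2 - 12 / 5) (Real.pi * r / Real.log 2 + 12 / 5),
      ‖riemannZeta (1 / 2 + t * I)‖ₑ ^ 2 ≤
      ENNReal.ofReal (45000 * Real.pi * (2 * C + 5) * (r : ℝ) ^ (2 * B)) := by
  have hr3 : (12 : ℝ) ≤ r := by exact_mod_cast hr
  have hr1 : (1 : ℝ) ≤ r := by linarith
  have hr0 : (0 : ℝ) < r := by linarith
  have hrn : 0 < r := by omega
  have hl1 := Real.log_two_gt_d9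
  have hl0 : 0 < Real.log 2 := by linarith
  have hkpos : ∀ i, (0 : ℝ) < kz r i := fun i => by exact_mod_cast kz_pos hrn i
  set θ : ℕ → ℝ := fun i => 1 / (kz r i : ℝ) with hθ
  have hpos : ∀ i ∈ Finset.range r, 0 < θ i := fun i _ => by
    have := hkpos i
    simp only [hθ]
    positivity
  have hD : 1 / (r : ℝ) ≤ (r : ℝ) ^ (2 * B - 1) := by
    rw [one_div, ← Real.rpow_neg_one]
    exact Real.rpow_le_rpow_of_exponent_le hr1 (by linarith)
  have hsum := tail_bound hrn hC hD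
  have h1 := int_le_sum (fun i _ => kz_pos hrn i) (by positivity) hsum
  have hS := Sz_bound hrn
  have hS2 : (1 / (5 * r : ℝ)) ^ 2 ≤ (r : ℝ) ^ (2 * B - 1) := by
    have h3 : (1 / (5 * r : ℝ)) ^ 2 ≤ (1 / (r : ℝ)) ^ 2 := by
      apply pow_le_pow_left₀ (by positivity)
      exact one_div_le_one_div_of_le hr0 (by linarith)
    refine h3.trans ?_
    rw [one_div, inv_pow, ← Real.rpow_natCast, ← Real.rpow_neg hr0.le]
    apply Real.rpow_le_rpow_of_exponent_le hr1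
    push_cast
    linarith
  set G : ℝ → ℂ := fun x => ∑ i ∈ Finset.range r, (-1 : ℂ) ^ i * nr (θ i) x with hG
  have hadm : Adm G := adm_nr_sum hpos (fun i => (-1 : ℂ) ^ i)
  have h3 : ∫⁻ t in Ioi (0 : ℝ), ‖G t‖ₑ ^ 2 ≤
      ENNReal.ofReal ((2 * C + 5) * (r : ℝ) ^ (2 * B - 1)) := by
    refine le_trans (le_of_eq ?_) (h1.trans (ENNReal.ofReal_le_ofReal ?_))
    · refine lintegral_congr fun t => ?_
      have e : G t = ((Gs (Finset.range r) (fun i => (-1 : ℝ) ^ i) (kz r) t : ℝ) : ℂ) := Gz_eq t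
      rw [e, enorm_sq, norm_real, Real.norm_eq_abs, sq_abs]
    · have h4 : Ss (Finset.range r) (fun i => (-1 : ℝ) ^ i) (kz r) ^ 2 ≤
        (r : ℝ) ^ (2 * B - 1) := hS.trans hS2
      linarith
  rw [plancherel hadm] at h3
  have hT : Real.pi * r / Real.log 2 ≤ 5 * r := by
    rw [div_le_iff₀ hl0]
    have : Real.pi ≤ 5 * Real.log 2 := by linarith [Real.pi_lt_d2]
    nlinarith
  have hT0 : 0 ≤ Real.pi * r / Real.log 2 := by positivity
  have hpt : ∀ t ∈ Icc (Real.pi * r / Real.log 2 - 12 / 5) (Real.pi * r / Real.log 2 + 12 / 5),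
      ‖riemannZeta (1 / 2 + t * I)‖ₑ ^ 2 ≤ ENNReal.ofReal (22500 * r) *
        ‖mellin G (1 / 2 + t * I)‖ₑ ^ 2 := by
    intro t ht
    have ht' : |t - Real.pi * r / Real.log 2| ≤ 12 / 5 := by
      rw [abs_le]
      constructor
      · linarith [ht.1]
      · linarith [ht.2]
    have hQ := int_lower hr ht'
    have hmel := mellin_nr_sum hpos (fun i => (-1 : ℂ) ^ i) t
    rw [show mellin G (1 / 2 + t * I) = _ from hmel, enorm_neg, enorm_sq, enorm_sq,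
      ← ENNReal.ofReal_mul (by positivity)]
    apply ENNReal.ofReal_le_ofReal
    rw [norm_mul, norm_div, mul_pow, div_pow]
    have hs1 := (half_norm t).2.2
    have hs2 : 0 < ‖(1 / 2 + t * I : ℂ)‖ := lt_of_lt_of_le (by norm_num) (half_norm t).2.1
    have hta : |t| ≤ 5 * r + 12 / 5 := by
      rw [abs_le]
      constructor
      · linarith [ht.1]
      · linarith [ht.2]
    have hs3 : ‖(1 / 2 + t * I : ℂ)‖ ≤ 6 * r := by linarith
    have hQ2 := pow_le_pow_left₀ (by positivity) hQ 2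
    rw [div_pow, Real.sq_sqrt hr0.le] at hQ2
    set Q : ℂ := Dr (Finset.range r) (fun i => (-1 : ℂ) ^ i) θ t with hQd
    have h5 : 1 ≤ 22500 * r * (‖Q‖ ^ 2 / ‖(1 / 2 + t * I : ℂ)‖ ^ 2) := by
      have h6 : ‖(1 / 2 + t * I : ℂ)‖ ^ 2 ≤ (6 * r) ^ 2 := pow_le_pow_left₀ hs2.le hs3 2
      rw [← mul_div_assoc, le_div_iff₀ (by positivity), one_mul]
      calc ‖(1 / 2 + t * I : ℂ)‖ ^ 2 ≤ (6 * r) ^ 2 := h6
        _ = 22500 * r * ((r : ℝ) / 25 ^ 2) := by ring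
        _ ≤ _ := mul_le_mul_of_nonneg_left hQ2 (by positivity)
    calc ‖riemannZeta (1 / 2 + t * I)‖ ^ 2 = ‖riemannZeta (1 / 2 + t * I)‖ ^ 2 * 1 :=
          (mul_one _).symm
      _ ≤ ‖riemannZeta (1 / 2 + t * I)‖ ^ 2 *
          (22500 * r * (‖Q‖ ^ 2 / ‖(1 / 2 + t * I : ℂ)‖ ^ 2)) :=
          mul_le_mul_of_nonneg_left h5 (by positivity)
      _ = _ := by ring
  have h4 : ∫⁻ t : ℝ, ‖mellin G (1 / 2 + t * I)‖ₑ ^ 2 ≤
      ENNReal.ofReal (2 * Real.pi * ((2 * C + 5) * (r : ℝ) ^ (2 * B - 1))) := by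
    have hpi : (0 : ℝ) < 2 * Real.pi := by positivity
    calc ∫⁻ t : ℝ, ‖mellin G (1 / 2 + t * I)‖ₑ ^ 2
        = ENNReal.ofReal (2 * Real.pi) * (ENNReal.ofReal (1 / (2 * Real.pi)) *
          ∫⁻ t : ℝ, ‖mellin G (1 / 2 + t * I)‖ₑ ^ 2) := by
          rw [← mul_assoc, ← ENNReal.ofReal_mul hpi.le, mul_one_div_cancel hpi.ne']
          simp
      _ ≤ ENNReal.ofReal (2 * Real.pi) *
          ENNReal.ofReal ((2 * C + 5) * (r : ℝ) ^ (2 * B - 1)) := by gcongr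
      _ = _ := by rw [← ENNReal.ofReal_mul hpi.le]
  set J : Set ℝ := Icc (Real.pi * r / Real.log 2 - 12 / 5) (Real.pi * r / Real.log 2 + 12 / 5)
    with hJ
  calc ∫⁻ t in J, ‖riemannZeta (1 / 2 + t * I)‖ₑ ^ 2
      ≤ ∫⁻ t in J, ENNReal.ofReal (22500 * r) * ‖mellin G (1 / 2 + t * I)‖ₑ ^ 2 :=
        setLIntegral_mono' measurableSet_Icc hpt
    _ ≤ ∫⁻ t : ℝ, ENNReal.ofReal (22500 * r) * ‖mellin G (1 / 2 + t * I)‖ₑ ^ 2 :=
        setLIntegral_le_lintegral _ _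
    _ = ENNReal.ofReal (22500 * r) * ∫⁻ t : ℝ, ‖mellin G (1 / 2 + t * I)‖ₑ ^ 2 := by
        rw [lintegral_const_mul' _ _ ENNReal.ofReal_ne_top]
    _ ≤ ENNReal.ofReal (22500 * r) *
        ENNReal.ofReal (2 * Real.pi * ((2 * C + 5) * (r : ℝ) ^ (2 * B - 1))) := by
        gcongr
    _ = _ := by
        rw [← ENNReal.ofReal_mul (by positivity)]
        congr 1
        have e : (r : ℝ) * (r : ℝ) ^ (2 * B - 1) = (r : ℝ) ^ (2 * B) := by
          rw [mul_comm, ← Real.rpow_add_one hr0.ne']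
          congr 1
          ring
        rw [← e]
        ring

theorem mu_of_ints {A : ℝ} (hA : 0 ≤ A) (hA1 : A < 1 / 2) (hg : Ints A) : Mu A := by
  refine (Pool.Agent.Lib.ThickFailure.result A hA).2 fun B' hB' => ?_
  set B : ℝ := min ((A + B') / 2) ((A + 1 / 2) / 2) with hB
  have hB1 : A < B := lt_min (by linarith) (by linarith)
  have hB2 : B < 1 / 2 := lt_of_le_of_lt (min_le_right _ _) (by linarith)
  have hB3 : B < B' := lt_of_le_of_lt (min_le_left _ _) (by linarith)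
  have hB0 : 0 ≤ B := by linarith
  obtain ⟨C, hC⟩ := hg B hB1 hB2
  have hC0 : 0 ≤ C := by
    have h3 := le_trans (Finset.sum_nonneg fun m _ => by positivity) (hC 1)
    simpa using h3
  refine ⟨1 / 2, by norm_num, fun δ hδ => ?_⟩
  refine density (K := 45000 * Real.pi * (2 * C + 5)) hB0 hB3 (by positivity)
    (fun T hT => ?_) hδ
  obtain ⟨r, hr3, hrT, hrd⟩ := near_point hT
  rw [abs_le] at hrd
  refine (lintegral_mono_set (t := Icc (Real.pi * r / Real.log 2 - 12 / 5)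
    (Real.pi * r / Real.log 2 + 12 / 5)) ?_).trans ((local_int hB0 hC0 hr3 (hC r)).trans ?_)
  · apply Icc_subset_Icc <;> linarith
  · apply ENNReal.ofReal_le_ofReal
    have : (r : ℝ) ^ (2 * B) ≤ T ^ (2 * B) := Real.rpow_le_rpow (by positivity) hrT (by linarith)
    gcongr

end Pool.Agent.NBL
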