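import Mathlib
import Pool.Agent.NBL.RIntB

/-!
# From all increasing sequences to the explicit one
-/

set_option autoImplicit false

open MeasureTheory Complex Set Filter Topology
open scoped ENNReal

namespace Pool.Agent.NBL

lemma kz_strict {r : ℕ} (hr : 0 < r) : StrictMono (kz r) := by
  have hr0 : (0 : ℝ) < r := by exact_mod_cast hr
  refine strictMono_nat_of_lt_succ fun i => ?_
  have h2 := kz_lt r i
  have h3 := kz_ge (r := r) (i + 1)
  have h1 : (1 : ℝ) ≤ (2 : ℝ) ^ (i / r : ℝ) := Real.one_le_rpow (by norm_num) (by positivity)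
  have h4 : (5 * r : ℝ) * (2 : ℝ) ^ (i / r : ℝ) + 1 ≤
      (5 * r : ℝ) * (2 : ℝ) ^ ((i + 1 : ℕ) / r : ℝ) := by
    have e : (2 : ℝ) ^ ((i + 1 : ℕ) / r : ℝ) = (2 : ℝ) ^ (i / r : ℝ) * (2 : ℝ) ^ (1 / r : ℝ) := by
      rw [← Real.rpow_add (by norm_num)]
      congr 1
      push_cast
      ring
    have h5 : 1 + Real.log 2 / r ≤ (2 : ℝ) ^ (1 / r : ℝ) := by
      rw [Real.rpow_def_of_pos (by norm_num)]
      have := Real.add_one_le_exp (Real.log 2 * (1 / r))
      calc 1 + Real.log 2 / r = Real.log 2 * (1 / r) + 1 := by ring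
        _ ≤ _ := this
    have h6 : 1 ≤ (5 * r : ℝ) * (2 : ℝ) ^ (i / r : ℝ) * (Real.log 2 / r) := by
      have hl := Real.log_two_gt_d9
      calc (1 : ℝ) ≤ 5 * Real.log 2 := by linarith
        _ = (5 * r : ℝ) * 1 * (Real.log 2 / r) := by field_simp
        _ ≤ _ := by gcongr
    rw [e]
    have h7 : 0 < (5 * r : ℝ) * (2 : ℝ) ^ (i / r : ℝ) := by positivity
    calc (5 * r : ℝ) * (2 : ℝ) ^ (i / r : ℝ) + 1
        ≤ (5 * r : ℝ) * (2 : ℝ) ^ (i / r : ℝ) +
          (5 * r : ℝ) * (2 : ℝ) ^ (i / r : ℝ) * (Real.log 2 / r) := by linarith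
      _ = (5 * r : ℝ) * (2 : ℝ) ^ (i / r : ℝ) * (1 + Real.log 2 / r) := by ring
      _ ≤ (5 * r : ℝ) * (2 : ℝ) ^ (i / r : ℝ) * (2 : ℝ) ^ (1 / r : ℝ) :=
          mul_le_mul_of_nonneg_left h5 h7.le
      _ = _ := by ring
  have h5 : (kz r i : ℝ) < kz r (i + 1) := by linarith
  exact_mod_cast h5

theorem ints_of_alternating {A : ℝ} (h : Alternating A) : Ints A := by
  intro B hAB hB
  obtain ⟨C, hC⟩ := h B hAB hB
  have hC0 : 0 ≤ C := by
    by_contra h
    have h1 := hC (fun n => n + 1) (fun a b h => by simpa using h) (by simp) 0 0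
    simp at h1
    exact h h1
  refine ⟨C, fun r => ?_⟩
  rcases Nat.eq_zero_or_pos r with hr | hr
  · subst hr
    simp [Real.zero_rpow (by linarith : 2 * B - 1 ≠ 0)]
  have hr0 : (0 : ℝ) < r := by exact_mod_cast hr
  refine (hC (kz r) (kz_strict hr) (kz_pos hr 0) r (r ^ 3)).trans ?_
  refine mul_le_mul_of_nonneg_left ?_ hC0
  refine Real.rpow_le_rpow_of_nonpos hr0 ?_ (by linarith)
  have := kz_ge5 (r := r) 0
  linarith

end Pool.Agent.NBL
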