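import Mathlib
import Pool.Agent.NBL.Small

/-!
# The zeros on the critical line form a null set
-/

set_option autoImplicit false

open MeasureTheory Complex Set Filter Topology

namespace Pool.Agent.NBL

lemma zeta_analytic : AnalyticOnNhd ℂ riemannZeta {1}ᶜ := by
  refine DifferentiableOn.analyticOnNhd (fun z hz => ?_) isOpen_compl_singleton
  exact (differentiableAt_riemannZeta hz).differentiableWithinAt

lemma exists_ne_zero : ∃ x : ℝ, riemannZeta (1 / 2 + x * I) ≠ 0 := by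
  by_contra hcon
  push Not at hcon
  have hpre : IsPreconnected ({1}ᶜ : Set ℂ) :=
    (isConnected_compl_singleton_of_one_lt_rank (by simp) 1).isPreconnected
  have hfreq : ∃ᶠ z in 𝓝[≠] (1 / 2 : ℂ), riemannZeta z = 0 := by
    have htend : Tendsto (fun x : ℝ => (1 / 2 : ℂ) + x * I) (𝓝[≠] 0) (𝓝[≠] (1 / 2 : ℂ)) := by
      refine tendsto_nhdsWithin_of_tendsto_nhds_of_eventually_within _ ?_ ?_
      · have : Tendsto (fun x : ℝ => (1 / 2 : ℂ) + x * I) (𝓝 0) (𝓝 (1 / 2 + ((0 : ℝ) : ℂ) * I)) :=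
          Continuous.tendsto (by fun_prop) 0
        simp only [ofReal_zero, zero_mul, add_zero] at this
        exact this.mono_left nhdsWithin_le_nhds
      · filter_upwards [self_mem_nhdsWithin] with x hx
        simp only [mem_compl_iff, mem_singleton_iff, add_eq_left, mul_eq_zero, ofReal_eq_zero,
          I_ne_zero, or_false]
        exact hx
    refine htend.frequently ?_
    exact (Eventually.of_forall fun x => hcon x).frequently
  have h := zeta_analytic.eqOn_zero_of_preconnected_of_frequently_eq_zero hpre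
    (show (1 / 2 : ℂ) ∈ ({1}ᶜ : Set ℂ) by
      simp only [mem_compl_iff, mem_singleton_iff]
      norm_num) hfreq
  have h2 : riemannZeta 2 = 0 := h (show (2 : ℂ) ∈ ({1}ᶜ : Set ℂ) by
    simp only [mem_compl_iff, mem_singleton_iff]
    norm_num)
  have h3 := zeta_two_lower 0
  simp only [ofReal_zero, zero_mul, add_zero] at h3
  rw [h2, norm_zero] at h3
  norm_num at h3

lemma zeta_line_analytic : AnalyticOnNhd ℝ (fun t : ℝ => riemannZeta (1 / 2 + t * I)) univ := by
  intro t _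
  have h1 : AnalyticAt ℂ riemannZeta (1 / 2 + (t : ℂ) * I) := by
    apply zeta_analytic
    simp only [mem_compl_iff, mem_singleton_iff]
    intro h
    have := congrArg Complex.re h
    norm_num at this
  have h2 : AnalyticAt ℝ (fun t : ℝ => (1 / 2 : ℂ) + (t : ℂ) * I) t := by
    have : AnalyticAt ℝ (fun t : ℝ => (t : ℂ)) t := Complex.ofRealCLM.analyticAt t
    exact analyticAt_const.add (this.mul analyticAt_const)
  exact AnalyticAt.fun_comp (f := fun t : ℝ => (1 / 2 : ℂ) + (t : ℂ) * I) h1.restrictScalars h2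

/-- the zeros on the critical line form a null set -/
lemma zeros_null : volume {t : ℝ | riemannZeta (1 / 2 + t * I) = 0} = 0 := by
  obtain ⟨x, hx⟩ := exists_ne_zero
  have h1 := zeta_line_analytic.preimage_zero_mem_codiscrete (x := x) hx
  have h2 := ae_restrict_le_codiscreteWithin (μ := volume) (U := (univ : Set ℝ))
    MeasurableSet.univ h1
  rw [Measure.restrict_univ, mem_ae_iff] at h2
  convert h2 using 2
  ext t
  simp

/-- the set of small values in a unit window -/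
def SV (N : ℕ) (ε x : ℝ) : Set ℝ :=
  {t : ℝ | t ∈ Icc x (x + 1) ∧ ‖riemannZeta (1 / 2 + t * I)‖ < (N : ℝ) ^ (-ε)}

lemma SV_meas (N : ℕ) (ε x : ℝ) : MeasurableSet (SV N ε x) :=
  measurableSet_Icc.inter (measurableSet_lt
    Pool.Agent.Lib.ThickFailure.continuous_zeta_line.norm.measurable measurable_const)

lemma compact_small {R δ : ℝ} (hδ : 0 < δ) : ∃ κ : ℝ, 0 < κ ∧
    volume.real {t : ℝ | t ∈ Icc (-R) R ∧ ‖riemannZeta (1 / 2 + t * I)‖ < κ} ≤ δ := by
  set S : ℕ → Set ℝ := fun n => {t : ℝ | t ∈ Icc (-R) R ∧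
    ‖riemannZeta (1 / 2 + t * I)‖ < 1 / ((n : ℝ) + 1)} with hS
  have hmeas : ∀ n, MeasurableSet (S n) := fun n => measurableSet_Icc.inter (measurableSet_lt
    Pool.Agent.Lib.ThickFailure.continuous_zeta_line.norm.measurable measurable_const)
  have hanti : Antitone S := by
    intro m n hmn t ht
    refine ⟨ht.1, ht.2.trans_le ?_⟩
    apply one_div_le_one_div_of_le (by positivity)
    have : (m : ℝ) ≤ n := by exact_mod_cast hmn
    linarith
  have hfin : ∃ n, volume (S n) ≠ ⊤ := by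
    refine ⟨0, ne_top_of_le_ne_top ?_ (measure_mono (fun t ht => ht.1 : S 0 ⊆ Icc (-R) R))⟩
    rw [Real.volume_Icc]
    exact ENNReal.ofReal_ne_top
  have hlim := tendsto_measure_iInter_atTop (μ := volume)
    (fun n => (hmeas n).nullMeasurableSet) hanti hfin
  have hinter : volume (⋂ n, S n) = 0 := by
    refine measure_mono_null ?_ zeros_null
    intro t ht
    rw [mem_iInter] at ht
    by_contra hne
    have hpos : 0 < ‖riemannZeta (1 / 2 + t * I)‖ := norm_pos_iff.2 hne
    obtain ⟨n, hn⟩ := exists_nat_one_div_lt hpos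
    exact absurd (ht n).2 (not_lt.2 hn.le)
  rw [hinter] at hlim
  have hev := hlim.eventually (gt_mem_nhds (show (0 : ENNReal) < ENNReal.ofReal δ by
    rw [ENNReal.ofReal_pos]; exact hδ))
  obtain ⟨n, hn⟩ := hev.exists
  refine ⟨1 / ((n : ℝ) + 1), by positivity, ?_⟩
  have := ENNReal.toReal_mono ENNReal.ofReal_ne_top hn.le
  rw [ENNReal.toReal_ofReal hδ.le] at this
  exact this

/-- on the Lindelöf hypothesis small values are rare in every unit window up to height `Λ N` -/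
theorem windows (h : ∀ ε : ℝ, 0 < ε → ∃ C : ℝ, ∀ t : ℝ,
    ‖riemannZeta (1 / 2 + t * I)‖ ≤ C * (1 + |t|) ^ ((0 : ℝ) + ε)) {ε δ Λ : ℝ} (hε : 0 < ε)
    (hδ : 0 < δ) (hΛ : 1 ≤ Λ) :
    ∃ N₀ : ℕ, ∀ N : ℕ, N₀ ≤ N → ∀ x : ℝ, |x| ≤ Λ * N → volume.real (SV N ε x) ≤ δ := by
  obtain ⟨T₀, hT₀⟩ := small_rare h (ε := ε / 2) (δ := δ) (by linarith) hδ
  set T₁ : ℝ := max T₀ (Λ ^ 2 + 1) with hT₁
  have hT₁a : T₀ ≤ T₁ := le_max_left _ _
  have hT₁b : Λ ^ 2 + 1 ≤ T₁ := le_max_right _ _
  have hΛ0 : 0 < Λ := by linarith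
  have hT₁0 : 1 < T₁ := by nlinarith
  obtain ⟨κ, hκ, hκm⟩ := compact_small (R := T₁ + 1) hδ
  have hlim : Tendsto (fun N : ℕ => (N : ℝ) ^ (-ε)) atTop (𝓝 0) :=
    (tendsto_rpow_neg_atTop hε).comp tendsto_natCast_atTop_atTop
  obtain ⟨N₁, hN₁⟩ := (eventually_atTop).1 (hlim.eventually (gt_mem_nhds hκ))
  refine ⟨max N₁ 1, fun N hN x hx => ?_⟩
  have hNa : N₁ ≤ N := (le_max_left _ _).trans hN
  have hNb : (1 : ℝ) ≤ N := by exact_mod_cast (le_max_right _ _).trans hN
  have hN0 : (0 : ℝ) < N := by linarith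
  have hfinw : ∀ y : ℝ, volume (Icc y (y + 1)) ≠ ⊤ := by
    intro y
    rw [Real.volume_Icc]
    exact ENNReal.ofReal_ne_top
  -- the key comparison for large heights
  have hcmp : ∀ y : ℝ, T₁ ≤ y → y ≤ Λ * N → (N : ℝ) ^ (-ε) ≤ y ^ (-(ε / 2)) := by
    intro y hy1 hy2
    have hy0 : 0 < y := by linarith
    have h1 : y ≤ (N : ℝ) ^ 2 ∨ (N : ℝ) ^ 2 < y := le_or_gt _ _
    have h2 : y ≤ (N : ℝ) ^ 2 := by
      have h3 : Λ ^ 2 ≤ y := by linarith
      have h4 : Λ ^ 2 ≤ Λ * N := by linarith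
      have h5 : Λ ≤ N := by nlinarith
      nlinarith
    calc (N : ℝ) ^ (-ε) = ((N : ℝ) ^ 2) ^ (-(ε / 2)) := by
          rw [← Real.rpow_natCast, ← Real.rpow_mul hN0.le]
          congr 1
          push_cast
          ring
      _ ≤ y ^ (-(ε / 2)) := Real.rpow_le_rpow_of_nonpos hy0 h2 (by linarith)
  rw [abs_le] at hx
  rcases le_or_gt T₁ x with h1 | h1
  · -- positive heights
    refine (measureReal_mono (fun t ht => ?_) ?_).trans (hT₀ x (hT₁a.trans h1))
    · exact ⟨ht.1, ht.2.trans_le (hcmp x h1 hx.2)⟩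
    · exact ne_top_of_le_ne_top (hfinw x) (measure_mono fun t ht => ht.1)
  · rcases le_or_gt x (-T₁ - 1) with h2 | h2
    · -- negative heights
      have hneg : SV N ε x ⊆ (fun t : ℝ => -t) ⁻¹' {t : ℝ | t ∈ Icc (-x - 1) (-x - 1 + 1) ∧
          ‖riemannZeta (1 / 2 + t * I)‖ < (-x - 1) ^ (-(ε / 2))} := by
        intro t ht
        refine ⟨⟨by linarith [ht.1.2], by linarith [ht.1.1]⟩, ?_⟩
        simp only
        rw [norm_zeta_neg]
        exact ht.2.trans_le (hcmp (-x - 1) (by linarith) (by linarith [hx.1]))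
      have hmeas : MeasurableSet {t : ℝ | t ∈ Icc (-x - 1) (-x - 1 + 1) ∧
          ‖riemannZeta (1 / 2 + t * I)‖ < (-x - 1) ^ (-(ε / 2))} :=
        measurableSet_Icc.inter (measurableSet_lt
          Pool.Agent.Lib.ThickFailure.continuous_zeta_line.norm.measurable measurable_const)
      have hvol : volume ((fun t : ℝ => -t) ⁻¹' {t : ℝ | t ∈ Icc (-x - 1) (-x - 1 + 1) ∧
          ‖riemannZeta (1 / 2 + t * I)‖ < (-x - 1) ^ (-(ε / 2))}) =
          volume {t : ℝ | t ∈ Icc (-x - 1) (-x - 1 + 1) ∧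
          ‖riemannZeta (1 / 2 + t * I)‖ < (-x - 1) ^ (-(ε / 2))} :=
        (Measure.measurePreserving_neg volume).measure_preimage hmeas.nullMeasurableSet
      have hle : volume (SV N ε x) ≤ volume {t : ℝ | t ∈ Icc (-x - 1) (-x - 1 + 1) ∧
          ‖riemannZeta (1 / 2 + t * I)‖ < (-x - 1) ^ (-(ε / 2))} := by
        rw [← hvol]
        exact measure_mono hneg
      refine (ENNReal.toReal_mono ?_ hle).trans (hT₀ (-x - 1) (by linarith))
      exact ne_top_of_le_ne_top (hfinw (-x - 1)) (measure_mono fun t ht => ht.1)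
    · -- bounded heights
      refine (measureReal_mono (fun t ht => ?_) ?_).trans hκm
      · exact ⟨⟨by linarith [ht.1.1], by linarith [ht.1.2]⟩, ht.2.trans (hN₁ N hNa)⟩
      · refine ne_top_of_le_ne_top ?_ (measure_mono
          (fun t ht => ht.1 : _ ⊆ Icc (-(T₁ + 1)) (T₁ + 1)))
        rw [Real.volume_Icc]
        exact ENNReal.ofReal_ne_top

end Pool.Agent.NBL
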