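import Mathlib
import Pool.Agent.NBL.BesselA
import Pool.Agent.NBL.Null

/-!
# Lower bounds: tools
-/

set_option autoImplicit false

open MeasureTheory Complex Set Filter Topology
open scoped ENNReal

namespace Pool.Agent.NBL

/-- lower bound for the step function -/
lemma F_lower {N : ℕ} (hN : 1 ≤ N) (a : ℕ → ℂ) :
    ENNReal.ofReal ((∑ n ∈ Finset.Ico N (2 * N), ‖a n‖ ^ 2) / (4 * (N : ℝ) ^ 2)) ≤
      ∫⁻ t in Ioi (0 : ℝ), ‖∑ k ∈ Finset.Icc N (2 * N), cc N a k * ch k t‖ₑ ^ 2 := by
  have hN' : (0 : ℝ) < N := by exact_mod_cast hN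
  set s := Finset.Ico N (2 * N) with hs
  have hval : ∀ n ∈ s, ∀ t ∈ Ioc (1 / ((n : ℝ) + 1)) (1 / n),
      ∑ k ∈ Finset.Icc N (2 * N), cc N a k * ch k t = a n := by
    intro n hn t ht
    rw [hs, Finset.mem_Ico] at hn
    have hn0 : (0 : ℝ) < n := by
      have : 0 < n := by omega
      exact_mod_cast this
    have ht0 : 0 < t := lt_trans (by positivity) ht.1
    have hfl : ⌊1 / t⌋₊ = n := by
      rw [Nat.floor_eq_iff (by positivity)]
      have h1 := ht.1
      have h2 := ht.2
      rw [div_lt_iff₀ (by positivity)] at h1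
      rw [le_div_iff₀ hn0] at h2
      constructor
      · rw [le_div_iff₀ ht0]
        linarith
      · rw [div_lt_iff₀ ht0]
        linarith
    rw [← abel hN a fun k => ch k t]
    have hdiff : ∀ m ∈ Finset.Ico N (2 * N), a m * (ch m t - ch (m + 1) t) =
        if m = n then a m else 0 := by
      intro m hm
      rw [Finset.mem_Ico] at hm
      rw [ch_floor (by omega) ht0, ch_floor (by omega) ht0, hfl]
      by_cases h1 : m = n
      · rw [if_pos h1, if_pos (by omega), if_neg (by omega)]
        ring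
      · rw [if_neg h1]
        by_cases h2 : m ≤ n
        · rw [if_pos h2, if_pos (by omega)]
          ring
        · rw [if_neg h2, if_neg (by omega)]
          ring
    rw [Finset.sum_congr rfl hdiff, Finset.sum_ite_eq', if_pos (by rw [Finset.mem_Ico]; exact hn)]
  have hpos : ∀ n ∈ s, (0 : ℝ) < n := by
    intro n hn
    rw [hs, Finset.mem_Ico] at hn
    have : 0 < n := by omega
    exact_mod_cast this
  calc ENNReal.ofReal ((∑ n ∈ s, ‖a n‖ ^ 2) / (4 * (N : ℝ) ^ 2))
      ≤ ENNReal.ofReal (∑ n ∈ s, ‖a n‖ ^ 2 * (1 / n - 1 / ((n : ℝ) + 1))) := by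
        apply ENNReal.ofReal_le_ofReal
        rw [Finset.sum_div]
        refine Finset.sum_le_sum fun n hn => ?_
        have hn0 := hpos n hn
        rw [hs, Finset.mem_Ico] at hn
        have h1 : (n : ℝ) + 1 ≤ 2 * N := by exact_mod_cast hn.2
        rw [div_eq_mul_inv]
        refine mul_le_mul_of_nonneg_left ?_ (by positivity)
        rw [div_sub_div _ _ hn0.ne' (by positivity), ← one_div]
        rw [show (1 : ℝ) * (n + 1) - n * 1 = 1 by ring]
        apply one_div_le_one_div_of_le (by positivity)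
        nlinarith
    _ = ∑ n ∈ s, ∫⁻ t in Ioc (1 / ((n : ℝ) + 1)) (1 / n),
          ‖∑ k ∈ Finset.Icc N (2 * N), cc N a k * ch k t‖ₑ ^ 2 := by
        rw [ENNReal.ofReal_sum_of_nonneg]
        · refine Finset.sum_congr rfl fun n hn => ?_
          rw [setLIntegral_congr_fun (g := fun _ => ‖a n‖ₑ ^ 2) measurableSet_Ioc
            (fun t ht => by simp only; rw [hval n hn t ht]),
            setLIntegral_const, Real.volume_Ioc, enorm_sq, ENNReal.ofReal_mul (by positivity)]
        · intro n hn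
          have hn0 := hpos n hn
          have h1 : 1 / ((n : ℝ) + 1) ≤ 1 / n := one_div_le_one_div_of_le hn0 (by linarith)
          have : 0 ≤ 1 / (n : ℝ) - 1 / ((n : ℝ) + 1) := by linarith
          positivity
    _ ≤ _ := by
        rw [← lintegral_biUnion_finset]
        · refine lintegral_mono_set ?_
          intro t ht
          simp only [mem_iUnion] at ht
          obtain ⟨n, hn, ht⟩ := ht
          have hn0 := hpos n hn
          exact lt_trans (by positivity) ht.1
        · intro m hm n hn hmn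
          rw [Function.onFun, Set.disjoint_left]
          intro t ht1 ht2
          have hm0 := hpos m hm
          have hn0 := hpos n hn
          have ht0 : 0 < t := lt_trans (by positivity) ht1.1
          apply hmn
          have key : ∀ k : ℕ, (0 : ℝ) < k → t ∈ Ioc (1 / ((k : ℝ) + 1)) (1 / k) → ⌊1 / t⌋₊ = k := by
            intro k hk0 hk
            rw [Nat.floor_eq_iff (by positivity)]
            have h1 := hk.1
            have h2 := hk.2
            rw [div_lt_iff₀ (by positivity)] at h1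
            rw [le_div_iff₀ hk0] at h2
            constructor
            · rw [le_div_iff₀ ht0]
              linarith
            · rw [div_lt_iff₀ ht0]
              linarith
          exact (key m hm0 ht1).symm.trans (key n hn0 ht2)
        · intro m _
          exact measurableSet_Ioc

/-- high frequencies -/
lemma high_freq {N : ℕ} (hN : 1 ≤ N) (a : ℕ → ℂ) {R : ℝ} (hR : (N : ℝ) ≤ R) :
    ∫⁻ t in {t : ℝ | R ≤ |t|}, ‖Dp (Finset.Icc N (2 * N)) (cc N a) t / (1 / 2 + t * I)‖ₑ ^ 2 ≤
      ENNReal.ofReal (16 * Kmv * (∑ n ∈ Finset.Ico N (2 * N), ‖a n‖ ^ 2) / (N * R)) := by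
  have hN' : (1 : ℝ) ≤ N := by exact_mod_cast hN
  have hN0 : (0 : ℝ) < N := by linarith
  have hR0 : 0 < R := by linarith
  have hK := Kmv_pos
  set D : ℝ → ℂ := fun t => Dp (Finset.Icc N (2 * N)) (cc N a) t with hD
  set S : ℝ := ∑ n ∈ Finset.Ico N (2 * N), ‖a n‖ ^ 2 with hS
  have hS0 : 0 ≤ S := by positivity
  set Bl : ℕ → Set ℝ := fun j => {t : ℝ | 2 ^ j * R ≤ |t| ∧ |t| ≤ 2 ^ (j + 1) * R} with hBl
  have hBlm : ∀ j, MeasurableSet (Bl j) := by
    intro j
    exact (measurableSet_le measurable_const continuous_abs.measurable).inter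
      (measurableSet_le continuous_abs.measurable measurable_const)
  have hcover : {t : ℝ | R ≤ |t|} ⊆ ⋃ j, Bl j := by
    intro t ht
    have h1 : 1 ≤ |t| / R := by
      rw [le_div_iff₀ hR0, one_mul]
      exact ht
    obtain ⟨n, hn1, hn2⟩ := exists_nat_pow_near h1 (one_lt_two)
    rw [mem_iUnion]
    refine ⟨n, ?_, ?_⟩
    · rwa [le_div_iff₀ hR0] at hn1
    · rw [div_lt_iff₀ hR0] at hn2
      exact hn2.le
  have hblock : ∀ j : ℕ, ∫⁻ t in Bl j, ‖D t / (1 / 2 + t * I)‖ₑ ^ 2 ≤
      ENNReal.ofReal (8 * Kmv * S / (N * R) * (1 / 2) ^ j) := by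
    intro j
    set T : ℝ := 2 ^ (j + 1) * R with hT
    have hTN : (N : ℝ) ≤ T := by
      have : (1 : ℝ) ≤ 2 ^ (j + 1) := one_le_pow₀ (by norm_num)
      nlinarith
    have hT0 : 0 < T := by linarith
    have h1 : ∀ t ∈ Bl j, ‖D t / (1 / 2 + t * I)‖ₑ ^ 2 ≤ ENNReal.ofReal (4 / T ^ 2) * ‖D t‖ₑ ^ 2 := by
      intro t ht
      obtain ⟨ht1, ht2⟩ := ht
      have ht3 : T / 2 ≤ |t| := by
        rw [hT, pow_succ]
        linarith
      rw [enorm_sq, enorm_sq, ← ENNReal.ofReal_mul (by positivity)]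
      apply ENNReal.ofReal_le_ofReal
      rw [norm_div]
      have h3 := (half_norm t).1
      calc (‖D t‖ / ‖(1 / 2 + t * I : ℂ)‖) ^ 2 ≤ (‖D t‖ / (T / 2)) ^ 2 := by
            apply pow_le_pow_left₀ (by positivity)
            exact div_le_div_of_nonneg_left (norm_nonneg _) (by positivity) (ht3.trans h3)
        _ = 4 / T ^ 2 * ‖D t‖ ^ 2 := by
            field_simp
            ring
    have hsub : Bl j ⊆ Icc (-T) T := fun t ht => abs_le.1 ht.2
    calc ∫⁻ t in Bl j, ‖D t / (1 / 2 + t * I)‖ₑ ^ 2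
        ≤ ∫⁻ t in Bl j, ENNReal.ofReal (4 / T ^ 2) * ‖D t‖ₑ ^ 2 := setLIntegral_mono' (hBlm j) h1
      _ ≤ ∫⁻ t in Icc (-T) T, ENNReal.ofReal (4 / T ^ 2) * ‖D t‖ₑ ^ 2 := lintegral_mono_set hsub
      _ = ENNReal.ofReal (4 / T ^ 2) * ∫⁻ t in Icc (-T) T, ‖D t‖ₑ ^ 2 := by
          rw [lintegral_const_mul' _ _ ENNReal.ofReal_ne_top]
      _ ≤ ENNReal.ofReal (4 / T ^ 2) * ENNReal.ofReal (Kmv * T *
            ((1 / N) * ∑ k ∈ Finset.Icc N (2 * N), ‖cc N a k‖ ^ 2)) := by
          gcongr
          exact mean_value hN hTN (cc N a)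
      _ ≤ ENNReal.ofReal (4 / T ^ 2) * ENNReal.ofReal (Kmv * T * ((1 / N) * (4 * S))) := by
          gcongr
          exact cc_norm hN a
      _ = _ := by
          rw [← ENNReal.ofReal_mul (by positivity)]
          congr 1
          rw [hT, pow_succ]
          rw [div_pow, one_pow]
          field_simp
          ring
  calc _ ≤ ∫⁻ t in ⋃ j, Bl j, ‖D t / (1 / 2 + t * I)‖ₑ ^ 2 := lintegral_mono_set hcover
    _ ≤ ∑' j, ∫⁻ t in Bl j, ‖D t / (1 / 2 + t * I)‖ₑ ^ 2 := lintegral_iUnion_le _ _
    _ ≤ ∑' j, ENNReal.ofReal (8 * Kmv * S / (N * R) * (1 / 2) ^ j) := ENNReal.tsum_le_tsum hblock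
    _ = ENNReal.ofReal (16 * Kmv * S / (N * R)) := by
        rw [← ENNReal.ofReal_tsum_of_nonneg (fun j => by positivity)
          ((summable_geometric_of_lt_one (by norm_num) (by norm_num)).mul_left _), tsum_mul_left,
          tsum_geometric_of_lt_one (by norm_num) (by norm_num)]
        congr 1
        ring

/-- a local Sobolev inequality -/
lemma sob {g g' : ℝ → ℂ} (hg : ∀ t, HasDerivAt g (g' t) t) (hg' : Continuous g') {x t : ℝ}
    (ht : t ∈ Icc x (x + 1)) :
    ‖g t‖ ^ 2 ≤ 2 * ∫ u in x..(x + 1), (‖g u‖ ^ 2 + ‖g' u‖ ^ 2) := by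
  have hgc : Continuous g := continuous_iff_continuousAt.2 fun t => (hg t).continuousAt
  set m : ℝ := ∫ u in x..(x + 1), ‖g' u‖ with hm
  have hm0 : 0 ≤ m := intervalIntegral.integral_nonneg (by linarith) fun u _ => norm_nonneg _
  have h1 : ∀ u ∈ Icc x (x + 1), ‖g t‖ ≤ ‖g u‖ + m := by
    intro u hu
    have e : g t - g u = ∫ v in u..t, g' v :=
      (intervalIntegral.integral_eq_sub_of_hasDerivAt (fun v _ => hg v)
        (hg'.intervalIntegrable _ _)).symm
    have h2 : ‖g t - g u‖ ≤ m := by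
      rw [e]
      refine (intervalIntegral.norm_integral_le_abs_integral_norm).trans ?_
      rcases le_total u t with hut | hut
      · rw [abs_of_nonneg (intervalIntegral.integral_nonneg hut fun v _ => norm_nonneg _)]
        exact intervalIntegral.integral_mono_interval hu.1 hut ht.2
          (Eventually.of_forall fun v => norm_nonneg _) (hg'.norm.intervalIntegrable _ _)
      · rw [intervalIntegral.integral_symm, abs_neg,
          abs_of_nonneg (intervalIntegral.integral_nonneg hut fun v _ => norm_nonneg _)]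
        exact intervalIntegral.integral_mono_interval ht.1 hut hu.2
          (Eventually.of_forall fun v => norm_nonneg _) (hg'.norm.intervalIntegrable _ _)
    have h3 : ‖g t‖ ≤ ‖g t - g u‖ + ‖g u‖ := by
      simpa using norm_add_le (g t - g u) (g u)
    linarith
  have hcs : m ^ 2 ≤ ∫ u in x..(x + 1), ‖g' u‖ ^ 2 := by
    have h2 : 0 ≤ ∫ u in x..(x + 1), (‖g' u‖ - m) ^ 2 :=
      intervalIntegral.integral_nonneg (by linarith) fun u _ => sq_nonneg _
    have h3 : ∫ u in x..(x + 1), (‖g' u‖ - m) ^ 2 =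
        (∫ u in x..(x + 1), ‖g' u‖ ^ 2) - 2 * m * m + m ^ 2 := by
      have e : ∀ u, (‖g' u‖ - m) ^ 2 = ‖g' u‖ ^ 2 - 2 * m * ‖g' u‖ + m ^ 2 := fun u => by ring
      simp_rw [e]
      rw [intervalIntegral.integral_add, intervalIntegral.integral_sub,
        intervalIntegral.integral_const_mul, intervalIntegral.integral_const, ← hm]
      · simp
      · exact (hg'.norm.pow 2).intervalIntegrable _ _
      · exact (continuous_const.mul hg'.norm).intervalIntegrable _ _
      · exact ((hg'.norm.pow 2).sub (continuous_const.mul hg'.norm)).intervalIntegrable _ _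
      · exact continuous_const.intervalIntegrable _ _
    rw [h3] at h2
    nlinarith
  have h4 : ∀ u ∈ Icc x (x + 1), ‖g t‖ ^ 2 ≤ 2 * ‖g u‖ ^ 2 + 2 * m ^ 2 := by
    intro u hu
    have h5 := h1 u hu
    have h6 : ‖g t‖ ^ 2 ≤ (‖g u‖ + m) ^ 2 := pow_le_pow_left₀ (norm_nonneg _) h5 2
    nlinarith [sq_nonneg (‖g u‖ - m)]
  have h7 := intervalIntegral.integral_mono_on (a := x) (b := x + 1) (μ := volume) (by linarith)
    (f := fun _ => ‖g t‖ ^ 2) (g := fun u => 2 * ‖g u‖ ^ 2 + 2 * m ^ 2)
    (continuous_const.intervalIntegrable _ _)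
    (((continuous_const.mul (hgc.norm.pow 2)).add continuous_const).intervalIntegrable _ _) h4
  rw [intervalIntegral.integral_const, intervalIntegral.integral_add,
    intervalIntegral.integral_const_mul, intervalIntegral.integral_const] at h7
  · have e := intervalIntegral.integral_add (μ := volume) (a := x) (b := x + 1)
      (f := fun u => ‖g u‖ ^ 2) (g := fun u => ‖g' u‖ ^ 2)
      ((hgc.norm.pow 2).intervalIntegrable _ _) ((hg'.norm.pow 2).intervalIntegrable _ _)
    rw [e]
    simp only [add_sub_cancel_left, one_smul] at h7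
    linarith
  · exact (continuous_const.mul (hgc.norm.pow 2)).intervalIntegrable _ _
  · exact continuous_const.intervalIntegrable _ _

end Pool.Agent.NBL
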