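import Mathlib
import Pool.Agent.NBL.Riesz

/-!
# Lower bounds: the exceptional set
-/

set_option autoImplicit false

open MeasureTheory Complex Set Filter Topology
open scoped ENNReal

namespace Pool.Agent.NBL

/-- the coefficients of the derivative -/
noncomputable def dc (N : ℕ) (a : ℕ → ℂ) (k : ℕ) : ℂ :=
  cc N a k * ((Real.log k - Real.log N : ℝ) : ℂ)

lemma Dp_deriv {N : ℕ} (hN : 1 ≤ N) (a : ℕ → ℂ) (t : ℝ) :
    HasDerivAt (fun t : ℝ => cexp (((t * Real.log N : ℝ) : ℂ) * I) *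
        Dp (Finset.Icc N (2 * N)) (cc N a) t)
      (-(I * cexp (((t * Real.log N : ℝ) : ℂ) * I) * Dp (Finset.Icc N (2 * N)) (dc N a) t)) t := by
  have h1 : ∀ k ∈ Finset.Icc N (2 * N), ∀ t : ℝ, cexp (((t * Real.log N : ℝ) : ℂ) * I) *
      (cc N a k * (k : ℂ) ^ (-(1 / 2 + t * I))) =
      (cc N a k * ((k : ℝ) ^ (-(1 / 2) : ℝ) : ℝ)) *
        cexp ((t : ℂ) * (((Real.log N - Real.log k : ℝ) : ℂ) * I)) := by
    intro k hk t
    rw [Finset.mem_Icc] at hk
    have hk0 : (0 : ℝ) < k := by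
      have : 0 < k := by omega
      exact_mod_cast this
    have hk1 : (k : ℂ) ≠ 0 := by exact_mod_cast hk0.ne'
    have e : (k : ℂ) ^ (-(1 / 2 + t * I)) = (((k : ℝ) ^ (-(1 / 2) : ℝ) : ℝ) : ℂ) *
        cexp (((-t * Real.log k : ℝ) : ℂ) * I) := by
      rw [show (-(1 / 2 + t * I) : ℂ) = ((-(1 / 2) : ℝ) : ℂ) + ((-t : ℝ) : ℂ) * I by
        push_cast; ring, cpow_add _ _ hk1]
      congr 1
      · rw [ofReal_cpow hk0.le]
        push_cast
        rfl
      · rw [cpow_def_of_ne_zero hk1, ← natCast_log]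
        congr 1
        push_cast
        ring
    rw [e]
    rw [show cexp (((t * Real.log N : ℝ) : ℂ) * I) * (cc N a k *
      ((((k : ℝ) ^ (-(1 / 2) : ℝ) : ℝ) : ℂ) * cexp (((-t * Real.log k : ℝ) : ℂ) * I))) =
      (cc N a k * ((k : ℝ) ^ (-(1 / 2) : ℝ) : ℝ)) * (cexp (((t * Real.log N : ℝ) : ℂ) * I) *
        cexp (((-t * Real.log k : ℝ) : ℂ) * I)) by ring, ← Complex.exp_add]
    congr 2
    push_cast
    ring
  have h2 : (fun t : ℝ => cexp (((t * Real.log N : ℝ) : ℂ) * I) *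
        Dp (Finset.Icc N (2 * N)) (cc N a) t) =
      fun t : ℝ => ∑ k ∈ Finset.Icc N (2 * N), (cc N a k * ((k : ℝ) ^ (-(1 / 2) : ℝ) : ℝ)) *
        cexp ((t : ℂ) * (((Real.log N - Real.log k : ℝ) : ℂ) * I)) := by
    funext t
    unfold Dp
    rw [Finset.mul_sum]
    exact Finset.sum_congr rfl fun k hk => h1 k hk t
  have h3 : -(I * cexp (((t * Real.log N : ℝ) : ℂ) * I) *
        Dp (Finset.Icc N (2 * N)) (dc N a) t) =
      ∑ k ∈ Finset.Icc N (2 * N), (cc N a k * ((k : ℝ) ^ (-(1 / 2) : ℝ) : ℝ)) *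
        (cexp ((t : ℂ) * (((Real.log N - Real.log k : ℝ) : ℂ) * I)) *
          (((Real.log N - Real.log k : ℝ) : ℂ) * I)) := by
    unfold Dp dc
    rw [Finset.mul_sum, ← Finset.sum_neg_distrib]
    refine Finset.sum_congr rfl fun k hk => ?_
    have := h1 k hk t
    rw [← mul_assoc (cc N a k * ((k : ℝ) ^ (-(1 / 2) : ℝ) : ℝ)), ← this]
    push_cast
    ring
  rw [h2, h3]
  refine HasDerivAt.fun_sum fun k _ => ?_
  refine HasDerivAt.const_mul _ ?_
  have h4 : HasDerivAt (fun t : ℝ => (t : ℂ) * (((Real.log N - Real.log k : ℝ) : ℂ) * I))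
      (((Real.log N - Real.log k : ℝ) : ℂ) * I) t := by
    have := (Complex.ofRealCLM.hasDerivAt (x := t)).mul_const
      ((((Real.log N - Real.log k : ℝ) : ℂ) * I))
    simpa using this
  exact h4.cexp

lemma Dp_cont {s : Finset ℕ} (hs : ∀ k ∈ s, 0 < k) (c : ℕ → ℂ) : Continuous (Dp s c) := by
  unfold Dp
  refine continuous_finsetSum _ fun k hk => ?_
  have : (k : ℂ) ≠ 0 := by
    have := hs k hk
    exact_mod_cast this.ne'
  refine continuous_const.mul ?_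
  exact Continuous.const_cpow (by fun_prop) (Or.inl this)

lemma half_ne (t : ℝ) : (1 / 2 + t * I : ℂ) ≠ 0 := by
  intro h
  have := (half_norm t).2.1
  rw [h, norm_zero] at this
  norm_num at this

/-- local bound with weight -/
lemma local_sup {N : ℕ} (hN : 1 ≤ N) (a : ℕ → ℂ) {x t : ℝ} (ht : t ∈ Icc x (x + 1)) :
    ‖Dp (Finset.Icc N (2 * N)) (cc N a) t / (1 / 2 + t * I)‖ₑ ^ 2 ≤
      18 * ∫⁻ u in Ioc x (x + 1), (‖Dp (Finset.Icc N (2 * N)) (cc N a) u / (1 / 2 + u * I)‖ₑ ^ 2 +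
        ‖Dp (Finset.Icc N (2 * N)) (dc N a) u / (1 / 2 + u * I)‖ₑ ^ 2) := by
  have hspos : ∀ k ∈ Finset.Icc N (2 * N), 0 < k := by
    intro k hk
    rw [Finset.mem_Icc] at hk
    omega
  set D : ℝ → ℂ := Dp (Finset.Icc N (2 * N)) (cc N a) with hD
  set D' : ℝ → ℂ := Dp (Finset.Icc N (2 * N)) (dc N a) with hD'
  have hDc : Continuous D := Dp_cont hspos _
  have hDc' : Continuous D' := Dp_cont hspos _
  have h1 := sob (g' := fun t => -(I * cexp (((t * Real.log N : ℝ) : ℂ) * I) * D' t))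
    (fun t => Dp_deriv hN a t) (by fun_prop) ht
  simp only [norm_mul, norm_neg, norm_exp_ofReal_mul_I, one_mul, norm_I] at h1
  have hsc : Continuous fun u : ℝ => (1 / 2 + u * I : ℂ) := by fun_prop
  have hc1 : Continuous fun u : ℝ => ‖D u / (1 / 2 + u * I)‖ ^ 2 + ‖D' u / (1 / 2 + u * I)‖ ^ 2 :=
    ((hDc.div hsc half_ne).norm.pow 2).add ((hDc'.div hsc half_ne).norm.pow 2)
  have h2 : ∫ u in x..(x + 1), (‖D u‖ ^ 2 + ‖D' u‖ ^ 2) ≤
      9 * ‖(1 / 2 + t * I : ℂ)‖ ^ 2 * ∫ u in x..(x + 1),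
        (‖D u / (1 / 2 + u * I)‖ ^ 2 + ‖D' u / (1 / 2 + u * I)‖ ^ 2) := by
    rw [← intervalIntegral.integral_const_mul]
    apply intervalIntegral.integral_mono_on (by linarith)
    · exact ((hDc.norm.pow 2).add (hDc'.norm.pow 2)).intervalIntegrable _ _
    · exact (continuous_const.mul hc1).intervalIntegrable _ _
    · intro u hu
      have h3 : ‖(1 / 2 + u * I : ℂ)‖ ≤ 3 * ‖(1 / 2 + t * I : ℂ)‖ := by
        have h4 : ‖(1 / 2 + u * I : ℂ) - (1 / 2 + t * I)‖ ≤ 1 := by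
          rw [show (1 / 2 + u * I : ℂ) - (1 / 2 + t * I) = ((u - t : ℝ) : ℂ) * I by
            push_cast; ring, norm_mul, norm_I, mul_one, norm_real, Real.norm_eq_abs, abs_le]
          constructor <;> linarith [hu.1, hu.2, ht.1, ht.2]
        have h5 := norm_sub_norm_le (1 / 2 + u * I : ℂ) (1 / 2 + t * I)
        have h6 := (half_norm t).2.1
        linarith
      have h7 : 0 < ‖(1 / 2 + u * I : ℂ)‖ := norm_pos_iff.2 (half_ne u)
      rw [norm_div, norm_div, div_pow, div_pow]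
      have h8 : ‖(1 / 2 + u * I : ℂ)‖ ^ 2 ≤ 9 * ‖(1 / 2 + t * I : ℂ)‖ ^ 2 := by
        calc ‖(1 / 2 + u * I : ℂ)‖ ^ 2 ≤ (3 * ‖(1 / 2 + t * I : ℂ)‖) ^ 2 :=
              pow_le_pow_left₀ h7.le h3 2
          _ = _ := by ring
      rw [← add_div, mul_div_assoc', le_div_iff₀ (by positivity), mul_comm]
      exact mul_le_mul_of_nonneg_right h8 (by positivity)
  have h3 : ‖D t / (1 / 2 + t * I)‖ ^ 2 ≤ 18 * ∫ u in x..(x + 1),
        (‖D u / (1 / 2 + u * I)‖ ^ 2 + ‖D' u / (1 / 2 + u * I)‖ ^ 2) := by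
    have h7 : 0 < ‖(1 / 2 + t * I : ℂ)‖ := norm_pos_iff.2 (half_ne t)
    rw [norm_div, div_pow, div_le_iff₀ (by positivity)]
    calc ‖D t‖ ^ 2 ≤ 2 * ∫ u in x..(x + 1), (‖D u‖ ^ 2 + ‖D' u‖ ^ 2) := h1
      _ ≤ 2 * (9 * ‖(1 / 2 + t * I : ℂ)‖ ^ 2 * ∫ u in x..(x + 1),
        (‖D u / (1 / 2 + u * I)‖ ^ 2 + ‖D' u / (1 / 2 + u * I)‖ ^ 2)) := by linarith
      _ = _ := by ring
  rw [enorm_sq]
  refine (ENNReal.ofReal_le_ofReal h3).trans (le_of_eq ?_)
  rw [ENNReal.ofReal_mul (by norm_num), intervalIntegral.integral_of_le (by linarith),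
    ofReal_integral_eq_lintegral_ofReal]
  · congr 1
    · simp
    · refine lintegral_congr fun u => ?_
      rw [ENNReal.ofReal_add (by positivity) (by positivity), enorm_sq, enorm_sq]
  · exact (hc1.continuousOn.integrableOn_compact isCompact_Icc).mono_set Ioc_subset_Icc_self
  · exact Eventually.of_forall fun u => by positivity

end Pool.Agent.NBL
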