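import Mathlib
import Pool.Agent.NBL.Riesz2

/-!
# Lower bounds on the Lindelöf hypothesis
-/

set_option autoImplicit false

open MeasureTheory Complex Set Filter Topology
open scoped ENNReal

namespace Pool.Agent.NBL

lemma enorm_sq_add_le (z w : ℂ) : ‖z - w‖ₑ ^ 2 ≤ 2 * ‖z‖ₑ ^ 2 + ENNReal.ofReal (2 * ‖w‖ ^ 2) := by
  have h2 : (2 : ℝ≥0∞) = ENNReal.ofReal 2 := by simp
  rw [enorm_sq, enorm_sq, h2, ← ENNReal.ofReal_mul (by norm_num),
    ← ENNReal.ofReal_add (by positivity) (by positivity)]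
  apply ENNReal.ofReal_le_ofReal
  have h1 := norm_sub_le z w
  have h3 : ‖z - w‖ ^ 2 ≤ (‖z‖ + ‖w‖) ^ 2 := pow_le_pow_left₀ (norm_nonneg _) h1 2
  nlinarith [sq_nonneg (‖z‖ - ‖w‖)]

/-- the step function attached to the derivative -/
lemma Ft_norm {N : ℕ} (hN : 1 ≤ N) (a : ℕ → ℂ) :
    ∫⁻ t in Ioi (0 : ℝ), ‖∑ k ∈ Finset.Icc N (2 * N), dc N a k * ch k t‖ₑ ^ 2 ≤
      ENNReal.ofReal (4 * (∑ n ∈ Finset.Ico N (2 * N), ‖a n‖ ^ 2) / (N : ℝ) ^ 2) := by
  have hN' : (0 : ℝ) < N := by exact_mod_cast hN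
  set S : ℝ := ∑ n ∈ Finset.Ico N (2 * N), ‖a n‖ ^ 2 with hS
  have hS0 : 0 ≤ S := by positivity
  set L : ℕ → ℝ := fun k => Real.log k - Real.log N with hL
  set b : ℕ → ℂ := fun n => a n * ((L n : ℝ) : ℂ) with hb
  have hbn : ∑ n ∈ Finset.Ico N (2 * N), ‖b n‖ ^ 2 ≤ S := by
    rw [hS]
    refine Finset.sum_le_sum fun n hn => ?_
    rw [Finset.mem_Ico] at hn
    have hn1 : (N : ℝ) ≤ n := by exact_mod_cast hn.1
    have hn2 : (n : ℝ) ≤ 2 * N := by exact_mod_cast hn.2.le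
    have hn0 : (0 : ℝ) < n := by linarith
    have hL0 : 0 ≤ L n := by
      simp only [hL]
      have := Real.log_le_log hN' hn1
      linarith
    have hL1 : L n ≤ 1 := by
      simp only [hL]
      have h1 := Real.log_le_log hn0 hn2
      rw [Real.log_mul (by norm_num) hN'.ne'] at h1
      have := Real.log_two_lt_d9
      linarith
    simp only [hb]
    rw [norm_mul, norm_real, Real.norm_of_nonneg hL0, mul_pow]
    have : L n ^ 2 ≤ 1 := by nlinarith
    nlinarith [sq_nonneg ‖a n‖]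
  have hid : ∀ t : ℝ, ∑ k ∈ Finset.Icc N (2 * N), dc N a k * ch k t =
      (∑ k ∈ Finset.Icc N (2 * N), cc N b k * ch k t) -
      ∑ n ∈ Finset.Ico N (2 * N), a n * ((L (n + 1) - L n : ℝ) : ℂ) * ch (n + 1) t := by
    intro t
    have e1 : ∑ k ∈ Finset.Icc N (2 * N), dc N a k * ch k t =
        ∑ k ∈ Finset.Icc N (2 * N), cc N a k * (((L k : ℝ) : ℂ) * ch k t) := by
      refine Finset.sum_congr rfl fun k _ => ?_
      simp only [dc, hL]
      ring
    rw [e1, ← abel hN a fun k => ((L k : ℝ) : ℂ) * ch k t, ← abel hN b fun k => ch k t,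
      ← Finset.sum_sub_distrib]
    refine Finset.sum_congr rfl fun n _ => ?_
    simp only [hb]
    push_cast
    ring
  have hsec : ∀ t : ℝ, 0 < t →
      ‖∑ n ∈ Finset.Ico N (2 * N), a n * ((L (n + 1) - L n : ℝ) : ℂ) * ch (n + 1) t‖ ^ 2 ≤
      (Ioc (0 : ℝ) (1 / N)).indicator (fun _ => S / N) t := by
    intro t ht
    by_cases htN : t ≤ 1 / N
    · rw [indicator_of_mem (show t ∈ Ioc (0 : ℝ) (1 / N) from ⟨ht, htN⟩)]
      have h1 : ‖∑ n ∈ Finset.Ico N (2 * N), a n * ((L (n + 1) - L n : ℝ) : ℂ) * ch (n + 1) t‖ ≤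
          ∑ n ∈ Finset.Ico N (2 * N), ‖a n‖ * (1 / N) := by
        refine (norm_sum_le _ _).trans (Finset.sum_le_sum fun n hn => ?_)
        rw [Finset.mem_Ico] at hn
        have hn1 : (N : ℝ) ≤ n := by exact_mod_cast hn.1
        have hn0 : (0 : ℝ) < n := by linarith
        rw [norm_mul, norm_mul, norm_real]
        have h2 : ‖ch (n + 1) t‖ ≤ 1 := by
          unfold ch
          split_ifs <;> simp
        have h3 : ‖L (n + 1) - L n‖ ≤ 1 / N := by
          simp only [hL]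
          have e : Real.log ((n + 1 : ℕ) : ℝ) - Real.log N - (Real.log n - Real.log N) =
              Real.log (1 + 1 / n) := by
            push_cast
            rw [show (1 : ℝ) + 1 / n = (n + 1) / n by field_simp,
              Real.log_div (by positivity) hn0.ne']
            ring
          rw [e, Real.norm_of_nonneg (Real.log_nonneg (by
            have : 0 ≤ 1 / (n : ℝ) := by positivity
            linarith))]
          have h4 := Real.log_le_sub_one_of_pos (show 0 < 1 + 1 / (n : ℝ) by positivity)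
          have h5 : 1 / (n : ℝ) ≤ 1 / N := one_div_le_one_div_of_le hN' hn1
          linarith
        calc ‖a n‖ * ‖L (n + 1) - L n‖ * ‖ch (n + 1) t‖ ≤ ‖a n‖ * (1 / N) * 1 := by gcongr
          _ = ‖a n‖ * (1 / N) := mul_one _
      have h2 : (∑ n ∈ Finset.Ico N (2 * N), ‖a n‖ * (1 / N)) ^ 2 ≤
          S * ∑ n ∈ Finset.Ico N (2 * N), (1 / (N : ℝ)) ^ 2 :=
        Finset.sum_mul_sq_le_sq_mul_sq _ _ _
      calc _ ≤ (∑ n ∈ Finset.Ico N (2 * N), ‖a n‖ * (1 / N)) ^ 2 :=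
            pow_le_pow_left₀ (norm_nonneg _) h1 2
        _ ≤ S * ∑ n ∈ Finset.Ico N (2 * N), (1 / (N : ℝ)) ^ 2 := h2
        _ = S / N := by
            rw [Finset.sum_const, Nat.card_Ico, nsmul_eq_mul, show 2 * N - N = N by omega]
            field_simp
    · rw [indicator_of_notMem (show t ∉ Ioc (0 : ℝ) (1 / N) from fun h => htN h.2)]
      have : ∑ n ∈ Finset.Ico N (2 * N), a n * ((L (n + 1) - L n : ℝ) : ℂ) * ch (n + 1) t = 0 := by
        refine Finset.sum_eq_zero fun n hn => ?_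
        rw [Finset.mem_Ico] at hn
        have hn1 : (N : ℝ) ≤ n := by exact_mod_cast hn.1
        unfold ch
        rw [if_neg, mul_zero]
        rw [not_le] at htN ⊢
        refine lt_of_le_of_lt ?_ htN
        apply one_div_le_one_div_of_le hN'
        push_cast
        linarith
      rw [this]
      simp
  calc ∫⁻ t in Ioi (0 : ℝ), ‖∑ k ∈ Finset.Icc N (2 * N), dc N a k * ch k t‖ₑ ^ 2
      ≤ ∫⁻ t in Ioi (0 : ℝ), (2 * ‖∑ k ∈ Finset.Icc N (2 * N), cc N b k * ch k t‖ₑ ^ 2 +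
          (Ioc (0 : ℝ) (1 / N)).indicator (fun _ => ENNReal.ofReal (2 * (S / N))) t) := by
        refine setLIntegral_mono' measurableSet_Ioi fun t ht => ?_
        rw [hid t]
        refine (enorm_sq_add_le _ _).trans (add_le_add le_rfl ?_)
        have := hsec t ht
        refine (ENNReal.ofReal_le_ofReal (mul_le_mul_of_nonneg_left this (by norm_num))).trans ?_
        by_cases htN : t ∈ Ioc (0 : ℝ) (1 / N)
        · rw [indicator_of_mem htN, indicator_of_mem htN]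
        · rw [indicator_of_notMem htN, indicator_of_notMem htN]
          simp
    _ = 2 * (∫⁻ t in Ioi (0 : ℝ), ‖∑ k ∈ Finset.Icc N (2 * N), cc N b k * ch k t‖ₑ ^ 2) +
          ∫⁻ t in Ioi (0 : ℝ),
            (Ioc (0 : ℝ) (1 / N)).indicator (fun _ => ENNReal.ofReal (2 * (S / N))) t := by
        rw [lintegral_add_right _ (measurable_const.indicator measurableSet_Ioc),
          lintegral_const_mul' _ _ (by simp)]
    _ ≤ 2 * ENNReal.ofReal ((N : ℝ) ^ (-2 : ℝ) * S) + ENNReal.ofReal (2 * S / (N : ℝ) ^ 2) := by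
        gcongr
        · refine (F_norm hN b).trans (ENNReal.ofReal_le_ofReal ?_)
          gcongr
        · refine (setLIntegral_le_lintegral _ _).trans ?_
          rw [lintegral_indicator measurableSet_Ioc, setLIntegral_const, Real.volume_Ioc,
            ← ENNReal.ofReal_mul (by positivity)]
          apply ENNReal.ofReal_le_ofReal
          apply le_of_eq
          field_simp
          ring
    _ = _ := by
        have h2 : (2 : ℝ≥0∞) = ENNReal.ofReal 2 := by simp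
        rw [h2, ← ENNReal.ofReal_mul (by norm_num),
          ← ENNReal.ofReal_add (by positivity) (by positivity)]
        congr 1
        rw [Real.rpow_neg hN'.le, Real.rpow_two]
        field_simp
        ring

/-- the contribution of an exceptional set -/
lemma exc {N : ℕ} (hN : 1 ≤ N) (a : ℕ → ℂ) {E : Set ℝ} (hE : MeasurableSet E) {δ : ℝ≥0∞}
    (hδ : ∀ n : ℤ, volume (E ∩ Ioc (n : ℝ) (n + 1)) ≤ δ) :
    ∫⁻ t in E, ‖Dp (Finset.Icc N (2 * N)) (cc N a) t / (1 / 2 + t * I)‖ₑ ^ 2 ≤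
      18 * δ * ∫⁻ u, (‖Dp (Finset.Icc N (2 * N)) (cc N a) u / (1 / 2 + u * I)‖ₑ ^ 2 +
        ‖Dp (Finset.Icc N (2 * N)) (dc N a) u / (1 / 2 + u * I)‖ₑ ^ 2) := by
  set g : ℝ → ℝ≥0∞ := fun t => ‖Dp (Finset.Icc N (2 * N)) (cc N a) t / (1 / 2 + t * I)‖ₑ ^ 2 with hg
  set w : ℝ → ℝ≥0∞ := fun u => ‖Dp (Finset.Icc N (2 * N)) (cc N a) u / (1 / 2 + u * I)‖ₑ ^ 2 +
        ‖Dp (Finset.Icc N (2 * N)) (dc N a) u / (1 / 2 + u * I)‖ₑ ^ 2 with hw
  change ∫⁻ t in E, g t ≤ 18 * δ * ∫⁻ u, w u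
  have hcov : E = ⋃ n : ℤ, E ∩ Ioc (n : ℝ) (n + 1) := by
    rw [← inter_iUnion, iUnion_Ioc_intCast, inter_univ]
  have hpart : ∀ n : ℤ, ∫⁻ t in E ∩ Ioc (n : ℝ) (n + 1), g t ≤
      18 * δ * ∫⁻ u in Ioc (n : ℝ) (n + 1), w u := by
    intro n
    calc ∫⁻ t in E ∩ Ioc (n : ℝ) (n + 1), g t
        ≤ ∫⁻ t in E ∩ Ioc (n : ℝ) (n + 1), (18 * ∫⁻ u in Ioc (n : ℝ) (n + 1), w u) := by
          refine setLIntegral_mono' (hE.inter measurableSet_Ioc) fun t ht => ?_
          exact local_sup hN a (Ioc_subset_Icc_self ht.2)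
      _ = (18 * ∫⁻ u in Ioc (n : ℝ) (n + 1), w u) * volume (E ∩ Ioc (n : ℝ) (n + 1)) := by
          rw [setLIntegral_const]
      _ ≤ (18 * ∫⁻ u in Ioc (n : ℝ) (n + 1), w u) * δ := by
          gcongr
          exact hδ n
      _ = _ := by ring
  calc ∫⁻ t in E, g t = ∫⁻ t in ⋃ n : ℤ, E ∩ Ioc (n : ℝ) (n + 1), g t := by rw [← hcov]
    _ ≤ ∑' n : ℤ, ∫⁻ t in E ∩ Ioc (n : ℝ) (n + 1), g t := lintegral_iUnion_le _ _
    _ ≤ ∑' n : ℤ, 18 * δ * ∫⁻ u in Ioc (n : ℝ) (n + 1), w u := ENNReal.tsum_le_tsum hpart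
    _ = 18 * δ * ∑' n : ℤ, ∫⁻ u in Ioc (n : ℝ) (n + 1), w u := ENNReal.tsum_mul_left
    _ = 18 * δ * ∫⁻ u, w u := by
        rw [← lintegral_iUnion (fun n => measurableSet_Ioc) (pairwise_disjoint_Ioc_intCast ℝ),
          iUnion_Ioc_intCast, Measure.restrict_univ]

end Pool.Agent.NBL
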