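import Mathlib
import Pool.Agent.NBL.Riesz3

/-!
# The lower Riesz bound on the Lindelöf hypothesis
-/

set_option autoImplicit false

open MeasureTheory Complex Set Filter Topology
open scoped ENNReal

namespace Pool.Agent.NBL

theorem riesz_lower (h : ∀ ε : ℝ, 0 < ε → ∃ C : ℝ, ∀ t : ℝ,
    ‖riemannZeta (1 / 2 + t * I)‖ ≤ C * (1 + |t|) ^ ((0 : ℝ) + ε)) {ε : ℝ} (hε : 0 < ε) :
    ∃ N₀ : ℕ, ∀ N : ℕ, N₀ ≤ N → 1 ≤ N → ∀ a : ℕ → ℂ,
      ENNReal.ofReal (1 / 8 * (N : ℝ) ^ (-2 - 2 * ε) * ∑ n ∈ Finset.Ico N (2 * N), ‖a n‖ ^ 2) ≤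
        ∫⁻ t in Ioi (0 : ℝ), ‖∑ k ∈ Finset.Icc N (2 * N), cc N a k * nb k t‖ₑ ^ 2 := by
  have hK := Kmv_pos
  set Λ : ℝ := 64 * Kmv + 1 with hΛ
  have hΛ1 : 1 ≤ Λ := by linarith
  obtain ⟨N₀, hN₀⟩ := windows h hε (δ := 1 / 4000) (by norm_num) (Λ := 2 * Λ) (by linarith)
  refine ⟨N₀, fun N hN hN1 a => ?_⟩
  have hN' : (1 : ℝ) ≤ N := by exact_mod_cast hN1
  have hN0 : (0 : ℝ) < N := by linarith
  have hspos : ∀ k ∈ Finset.Icc N (2 * N), 0 < k := by
    intro k hk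
    rw [Finset.mem_Icc] at hk
    omega
  set S : ℝ := ∑ n ∈ Finset.Ico N (2 * N), ‖a n‖ ^ 2 with hS
  have hS0 : 0 ≤ S := by positivity
  set R : ℝ := Λ * N with hR
  have hNR : (N : ℝ) ≤ R := by nlinarith
  set g : ℝ → ℝ≥0∞ := fun t => ‖Dp (Finset.Icc N (2 * N)) (cc N a) t / (1 / 2 + t * I)‖ₑ ^ 2 with hg
  set g' : ℝ → ℝ≥0∞ := fun t => ‖Dp (Finset.Icc N (2 * N)) (dc N a) t / (1 / 2 + t * I)‖ₑ ^ 2 with hg'
  set Z : ℝ → ℝ≥0∞ := fun t => ‖riemannZeta (1 / 2 + t * I)‖ₑ ^ 2 with hZ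
  have hpi : (0 : ℝ) < 2 * Real.pi := by positivity
  have hpi3 := Real.pi_gt_three
  have hpi4 := Real.pi_lt_d2
  -- Plancherel
  have hF : ∫⁻ t in Ioi (0 : ℝ), ‖∑ k ∈ Finset.Icc N (2 * N), cc N a k * ch k t‖ₑ ^ 2 =
      ENNReal.ofReal (1 / (2 * Real.pi)) * ∫⁻ t, g t := by
    rw [plancherel (adm_ch_sum hspos (cc N a))]
    simp_rw [mellin_ch_sum hspos]
    rfl
  have hF' : ∫⁻ t in Ioi (0 : ℝ), ‖∑ k ∈ Finset.Icc N (2 * N), dc N a k * ch k t‖ₑ ^ 2 =
      ENNReal.ofReal (1 / (2 * Real.pi)) * ∫⁻ t, g' t := by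
    rw [plancherel (adm_ch_sum hspos (dc N a))]
    simp_rw [mellin_ch_sum hspos]
    rfl
  have hG : ∫⁻ t in Ioi (0 : ℝ), ‖∑ k ∈ Finset.Icc N (2 * N), cc N a k * nb k t‖ₑ ^ 2 =
      ENNReal.ofReal (1 / (2 * Real.pi)) * ∫⁻ t, Z t * g t := by
    rw [plancherel (adm_nb_sum hspos (cc N a))]
    simp_rw [mellin_nb_sum hspos, enorm_neg, enorm_mul, mul_pow]
    rfl
  have hinv : ∀ x : ℝ≥0∞, ENNReal.ofReal (2 * Real.pi) * (ENNReal.ofReal (1 / (2 * Real.pi)) * x) =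
      x := by
    intro x
    rw [← mul_assoc, ← ENNReal.ofReal_mul hpi.le]
    rw [show 2 * Real.pi * (1 / (2 * Real.pi)) = 1 by field_simp]
    simp
  -- size of the transforms
  have hg_low : ENNReal.ofReal (3 / 2 * (S / (N : ℝ) ^ 2)) ≤ ∫⁻ t, g t := by
    have h1 := F_lower hN1 a
    rw [hF] at h1
    have h2 := mul_le_mul_right h1 (ENNReal.ofReal (2 * Real.pi))
    rw [hinv, ← ENNReal.ofReal_mul hpi.le] at h2
    refine (ENNReal.ofReal_le_ofReal ?_).trans h2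
    have h3 : 0 ≤ S / (N : ℝ) ^ 2 := by positivity
    have h4 : 2 * Real.pi * (S / (4 * (N : ℝ) ^ 2)) = Real.pi / 2 * (S / (N : ℝ) ^ 2) := by
      field_simp
      ring
    rw [← hS, h4]
    nlinarith
  have hg_up : ∫⁻ t, g t ≤ ENNReal.ofReal (2 * Real.pi * (S / (N : ℝ) ^ 2)) := by
    have h1 := F_norm hN1 a
    rw [hF] at h1
    have h2 := mul_le_mul_right h1 (ENNReal.ofReal (2 * Real.pi))
    rw [hinv, ← ENNReal.ofReal_mul hpi.le] at h2
    refine h2.trans (ENNReal.ofReal_le_ofReal (le_of_eq ?_))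
    rw [Real.rpow_neg hN0.le, Real.rpow_two, ← hS]
    field_simp
  have hg'_up : ∫⁻ t, g' t ≤ ENNReal.ofReal (2 * Real.pi * (4 * (S / (N : ℝ) ^ 2))) := by
    have h1 := Ft_norm hN1 a
    rw [hF'] at h1
    have h2 := mul_le_mul_right h1 (ENNReal.ofReal (2 * Real.pi))
    rw [hinv, ← ENNReal.ofReal_mul hpi.le] at h2
    refine h2.trans (ENNReal.ofReal_le_ofReal (le_of_eq ?_))
    rw [← hS]
    ring
  -- the high frequencies
  have hhigh : ∫⁻ t in {t : ℝ | R ≤ |t|}, g t ≤ ENNReal.ofReal (1 / 4 * (S / (N : ℝ) ^ 2)) := by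
    refine (high_freq hN1 a hNR).trans (ENNReal.ofReal_le_ofReal ?_)
    rw [← hS, hR]
    have h3 : 0 ≤ S / (N : ℝ) ^ 2 := by positivity
    have h4 : 16 * Kmv * S / (N * (Λ * N)) = 16 * Kmv / Λ * (S / (N : ℝ) ^ 2) := by
      field_simp
    rw [h4]
    refine mul_le_mul_of_nonneg_right ?_ h3
    rw [div_le_iff₀ (by linarith)]
    linarith
  -- the exceptional set
  set E : Set ℝ := {t : ℝ | t ∈ Icc (-R) R ∧ ‖riemannZeta (1 / 2 + t * I)‖ < (N : ℝ) ^ (-ε)} with hE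
  have hEm : MeasurableSet E := measurableSet_Icc.inter (measurableSet_lt
    Pool.Agent.Lib.ThickFailure.continuous_zeta_line.norm.measurable measurable_const)
  have hEw : ∀ n : ℤ, volume (E ∩ Ioc (n : ℝ) (n + 1)) ≤ ENNReal.ofReal (1 / 4000) := by
    intro n
    by_cases hn : |(n : ℝ)| ≤ 2 * Λ * N
    · have h1 : E ∩ Ioc (n : ℝ) (n + 1) ⊆ SV N ε n := fun t ht =>
        ⟨Ioc_subset_Icc_self ht.2, ht.1.2⟩
      have hfin : volume (SV N ε n) ≠ ⊤ := by
        refine ne_top_of_le_ne_top ?_ (measure_mono (fun t ht => ht.1 : SV N ε n ⊆ Icc (n : ℝ) (n + 1)))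
        rw [Real.volume_Icc]
        exact ENNReal.ofReal_ne_top
      calc volume (E ∩ Ioc (n : ℝ) (n + 1)) ≤ volume (SV N ε n) := measure_mono h1
        _ = ENNReal.ofReal (volume.real (SV N ε n)) := (ofReal_measureReal hfin).symm
        _ ≤ ENNReal.ofReal (1 / 4000) := ENNReal.ofReal_le_ofReal (hN₀ N hN n hn)
    · have h1 : E ∩ Ioc (n : ℝ) (n + 1) = ∅ := by
        rw [eq_empty_iff_forall_notMem]
        intro t ht
        apply hn
        have h2 := ht.1.1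
        have h3 := ht.2
        rw [mem_Icc] at h2
        rw [mem_Ioc] at h3
        have h4 : R + 1 ≤ 2 * Λ * N := by
          rw [hR]
          nlinarith
        rw [abs_le]
        constructor <;> linarith [h2.1, h2.2, h3.1, h3.2]
      rw [h1, measure_empty]
      exact zero_le
  have hexc : ∫⁻ t in E, g t ≤ ENNReal.ofReal (1 / 4 * (S / (N : ℝ) ^ 2)) := by
    have hgm : Measurable g := by
      have h1 : Continuous fun t : ℝ =>
          Dp (Finset.Icc N (2 * N)) (cc N a) t / (1 / 2 + t * I) :=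
        (Dp_cont hspos _).div (by fun_prop) half_ne
      exact h1.measurable.enorm.pow_const 2
    refine (exc hN1 a hEm hEw).trans ?_
    change 18 * ENNReal.ofReal (1 / 4000) * ∫⁻ u, (g u + g' u) ≤ _
    rw [lintegral_add_left hgm]
    have h18 : (18 : ℝ≥0∞) = ENNReal.ofReal 18 := by simp
    calc 18 * ENNReal.ofReal (1 / 4000) * ((∫⁻ u, g u) + ∫⁻ u, g' u)
        ≤ 18 * ENNReal.ofReal (1 / 4000) * (ENNReal.ofReal (2 * Real.pi * (S / (N : ℝ) ^ 2)) +
            ENNReal.ofReal (2 * Real.pi * (4 * (S / (N : ℝ) ^ 2)))) := by gcongr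
      _ = ENNReal.ofReal (18 * (1 / 4000) * (10 * Real.pi * (S / (N : ℝ) ^ 2))) := by
          rw [h18, ← ENNReal.ofReal_mul (by norm_num),
            ← ENNReal.ofReal_add (by positivity) (by positivity),
            ← ENNReal.ofReal_mul (by norm_num)]
          congr 1
          ring
      _ ≤ _ := by
          apply ENNReal.ofReal_le_ofReal
          have h3 : 0 ≤ S / (N : ℝ) ^ 2 := by positivity
          nlinarith
  -- the rest
  set W : Set ℝ := {t : ℝ | (N : ℝ) ^ (-ε) ≤ ‖riemannZeta (1 / 2 + t * I)‖} with hW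
  have hWm : MeasurableSet W := measurableSet_le measurable_const
    Pool.Agent.Lib.ThickFailure.continuous_zeta_line.norm.measurable
  have hcov : (univ : Set ℝ) ⊆ ({t : ℝ | R ≤ |t|} ∪ E) ∪ W := by
    intro t _
    by_cases h1 : R ≤ |t|
    · exact Or.inl (Or.inl h1)
    · by_cases h2 : (N : ℝ) ^ (-ε) ≤ ‖riemannZeta (1 / 2 + t * I)‖
      · exact Or.inr h2
      · refine Or.inl (Or.inr ⟨?_, not_le.1 h2⟩)
        rw [not_le] at h1
        exact abs_le.1 h1.le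
  have hWlow : ENNReal.ofReal (S / (N : ℝ) ^ 2) ≤ ∫⁻ t in W, g t := by
    have h1 : ENNReal.ofReal (3 / 2 * (S / (N : ℝ) ^ 2)) ≤
        ENNReal.ofReal (1 / 2 * (S / (N : ℝ) ^ 2)) + ∫⁻ t in W, g t := by
      calc ENNReal.ofReal (3 / 2 * (S / (N : ℝ) ^ 2)) ≤ ∫⁻ t, g t := hg_low
        _ = ∫⁻ t in univ, g t := by rw [Measure.restrict_univ]
        _ ≤ ∫⁻ t in ({t : ℝ | R ≤ |t|} ∪ E) ∪ W, g t := lintegral_mono_set hcov
        _ ≤ (∫⁻ t in {t : ℝ | R ≤ |t|} ∪ E, g t) + ∫⁻ t in W, g t := lintegral_union_le _ _ _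
        _ ≤ ((∫⁻ t in {t : ℝ | R ≤ |t|}, g t) + ∫⁻ t in E, g t) + ∫⁻ t in W, g t := by
            gcongr
            exact lintegral_union_le _ _ _
        _ ≤ (ENNReal.ofReal (1 / 4 * (S / (N : ℝ) ^ 2)) +
              ENNReal.ofReal (1 / 4 * (S / (N : ℝ) ^ 2))) + ∫⁻ t in W, g t := by gcongr
        _ = _ := by
            rw [← ENNReal.ofReal_add (by positivity) (by positivity)]
            congr 2
            ring
    have h2 : ENNReal.ofReal (3 / 2 * (S / (N : ℝ) ^ 2)) =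
        ENNReal.ofReal (1 / 2 * (S / (N : ℝ) ^ 2)) + ENNReal.ofReal (S / (N : ℝ) ^ 2) := by
      rw [← ENNReal.ofReal_add (by positivity) (by positivity)]
      congr 1
      ring
    rw [h2] at h1
    exact ENNReal.le_of_add_le_add_left ENNReal.ofReal_ne_top h1
  have hZlow : ENNReal.ofReal ((N : ℝ) ^ (-(2 * ε)) * (S / (N : ℝ) ^ 2)) ≤ ∫⁻ t, Z t * g t := by
    calc ENNReal.ofReal ((N : ℝ) ^ (-(2 * ε)) * (S / (N : ℝ) ^ 2))
        = ENNReal.ofReal ((N : ℝ) ^ (-(2 * ε))) * ENNReal.ofReal (S / (N : ℝ) ^ 2) :=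
          ENNReal.ofReal_mul (by positivity)
      _ ≤ ENNReal.ofReal ((N : ℝ) ^ (-(2 * ε))) * ∫⁻ t in W, g t := by gcongr
      _ = ∫⁻ t in W, ENNReal.ofReal ((N : ℝ) ^ (-(2 * ε))) * g t := by
          rw [lintegral_const_mul' _ _ ENNReal.ofReal_ne_top]
      _ ≤ ∫⁻ t in W, Z t * g t := by
          refine setLIntegral_mono' hWm fun t ht => ?_
          gcongr
          simp only [hZ]
          rw [enorm_sq]
          apply ENNReal.ofReal_le_ofReal
          calc (N : ℝ) ^ (-(2 * ε)) = ((N : ℝ) ^ (-ε)) ^ 2 := by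
                rw [← Real.rpow_natCast, ← Real.rpow_mul hN0.le]
                congr 1
                push_cast
                ring
            _ ≤ ‖riemannZeta (1 / 2 + t * I)‖ ^ 2 := pow_le_pow_left₀ (by positivity) ht 2
      _ ≤ ∫⁻ t, Z t * g t := setLIntegral_le_lintegral _ _
  rw [hG]
  calc ENNReal.ofReal (1 / 8 * (N : ℝ) ^ (-2 - 2 * ε) * S)
      ≤ ENNReal.ofReal (1 / (2 * Real.pi) * ((N : ℝ) ^ (-(2 * ε)) * (S / (N : ℝ) ^ 2))) := by
        apply ENNReal.ofReal_le_ofReal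
        have e : (N : ℝ) ^ (-2 - 2 * ε) * S = (N : ℝ) ^ (-(2 * ε)) * (S / (N : ℝ) ^ 2) := by
          rw [show (-2 - 2 * ε : ℝ) = -(2 * ε) + -2 by ring, Real.rpow_add hN0,
            Real.rpow_neg hN0.le 2, Real.rpow_two]
          field_simp
        rw [mul_assoc, e]
        refine mul_le_mul_of_nonneg_right ?_ (by positivity)
        apply one_div_le_one_div_of_le hpi
        linarith
    _ = ENNReal.ofReal (1 / (2 * Real.pi)) *
          ENNReal.ofReal ((N : ℝ) ^ (-(2 * ε)) * (S / (N : ℝ) ^ 2)) :=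
        ENNReal.ofReal_mul (by positivity)
    _ ≤ _ := by gcongr

end Pool.Agent.NBL
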