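import Mathlib
import Pool.Agent.NBL.RAlt
import Pool.Agent.NBL.Riesz4
import Pool.Agent.NBL.Diag

/-!
# The Lindelöf hypothesis and the condition numbers of the Gram matrices
-/

set_option autoImplicit false

open MeasureTheory Complex Set Filter Topology
open scoped ENNReal

namespace Pool.Agent.NBL

/-- two-sided bounds -/
def TwoSided : Prop :=
  ∀ ε : ℝ, 0 < ε → ∃ N₀ : ℕ, ∀ N : ℕ, N₀ ≤ N → ∀ a : ℕ → ℂ,
    (N : ℝ) ^ (-2 - ε) * ∑ n ∈ Finset.Ico N (2 * N), ‖a n‖ ^ 2 ≤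
        ∫ t in Ioi (0 : ℝ), ‖∑ n ∈ Finset.Ico N (2 * N), a n * (h n t : ℂ)‖ ^ 2 ∧
      ∫ t in Ioi (0 : ℝ), ‖∑ n ∈ Finset.Ico N (2 * N), a n * (h n t : ℂ)‖ ^ 2 ≤
        (N : ℝ) ^ (-2 + ε) * ∑ n ∈ Finset.Ico N (2 * N), ‖a n‖ ^ 2

/-- the Gram matrices are well conditioned -/
def Cond : Prop :=
  ∀ ε : ℝ, 0 < ε → ∃ N₀ : ℕ, ∀ N : ℕ, N₀ ≤ N → ∀ a b : ℕ → ℂ,
    ∑ n ∈ Finset.Ico N (2 * N), ‖a n‖ ^ 2 = ∑ n ∈ Finset.Ico N (2 * N), ‖b n‖ ^ 2 →
      ∫ t in Ioi (0 : ℝ), ‖∑ n ∈ Finset.Ico N (2 * N), a n * (h n t : ℂ)‖ ^ 2 ≤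
        (N : ℝ) ^ ε * ∫ t in Ioi (0 : ℝ), ‖∑ n ∈ Finset.Ico N (2 * N), b n * (h n t : ℂ)‖ ^ 2

lemma eventually_const_le {K ε : ℝ} (hε : 0 < ε) :
    ∃ N₀ : ℕ, ∀ N : ℕ, N₀ ≤ N → K ≤ (N : ℝ) ^ ε := by
  have hlim : Tendsto (fun N : ℕ => (N : ℝ) ^ ε) atTop atTop :=
    (tendsto_rpow_atTop hε).comp tendsto_natCast_atTop_atTop
  exact eventually_atTop.1 (hlim.eventually_ge_atTop K)

lemma int_ge {g : ℝ → ℂ} (hg : Adm g) {R : ℝ}
    (h : ENNReal.ofReal R ≤ ∫⁻ t in Ioi (0 : ℝ), ‖g t‖ₑ ^ 2) :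
    R ≤ ∫ t in Ioi (0 : ℝ), ‖g t‖ ^ 2 := by
  have h1 : Integrable (fun t => ‖g t‖ ^ 2) (volume.restrict (Ioi 0)) :=
    (memLp_two_iff_integrable_sq_norm hg.1.aestronglyMeasurable).1 hg.memLp
  simp_rw [enorm_sq] at h
  rw [← ofReal_integral_eq_lintegral_ofReal h1 (Eventually.of_forall fun t => by positivity)] at h
  exact (ENNReal.ofReal_le_ofReal_iff (integral_nonneg fun t => by positivity)).1 h

theorem twoSided_of_mu (hMu : Mu 0) : TwoSided := by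
  intro ε hε
  obtain ⟨C, hC⟩ := bessel_of_mu le_rfl (by norm_num) hMu (ε / 4) (by linarith)
  obtain ⟨N₁, hN₁⟩ := riesz_lower hMu (ε := ε / 4) (by linarith)
  obtain ⟨N₂, hN₂⟩ := eventually_const_le (K := max C 8) (ε := ε / 2) (by linarith)
  refine ⟨max (max N₁ N₂) 1, fun N hN a => ?_⟩
  have hNa : N₁ ≤ N := (le_max_left _ _).trans ((le_max_left _ _).trans hN)
  have hNb : N₂ ≤ N := (le_max_right _ _).trans ((le_max_left _ _).trans hN)
  have hN1 : 1 ≤ N := (le_max_right _ _).trans hN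
  have hN' : (1 : ℝ) ≤ N := by exact_mod_cast hN1
  have hN0 : (0 : ℝ) < N := by linarith
  have hspos : ∀ n ∈ Finset.Ico N (2 * N), 0 < n := by
    intro n hn
    rw [Finset.mem_Ico] at hn
    omega
  set S : ℝ := ∑ n ∈ Finset.Ico N (2 * N), ‖a n‖ ^ 2 with hS
  have hS0 : 0 ≤ S := by positivity
  have hK := hN₂ N hNb
  have hK1 : C ≤ (N : ℝ) ^ (ε / 2) := (le_max_left _ _).trans hK
  have hK2 : 8 ≤ (N : ℝ) ^ (ε / 2) := (le_max_right _ _).trans hK
  constructor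
  · refine int_ge (adm_Hs a hspos) ?_
    have h1 := hN₁ N hNa hN1 a
    simp_rw [← G_eq hN1] at h1
    refine (ENNReal.ofReal_le_ofReal ?_).trans h1
    have e : (N : ℝ) ^ (-2 - 2 * (ε / 4)) = (N : ℝ) ^ (-2 - ε) * (N : ℝ) ^ (ε / 2) := by
      rw [← Real.rpow_add hN0]
      congr 1
      ring
    rw [e, ← hS]
    have h3 : 0 ≤ (N : ℝ) ^ (-2 - ε) * S := by positivity
    nlinarith
  · refine (hC N hN1 a).trans ?_
    rw [← hS]
    have e : (N : ℝ) ^ (-2 + ε) = (N : ℝ) ^ (2 * (ε / 4) - 2) * (N : ℝ) ^ (ε / 2) := by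
      rw [← Real.rpow_add hN0]
      congr 1
      ring
    rw [e]
    have h3 : 0 ≤ (N : ℝ) ^ (2 * (ε / 4) - 2) * S := by positivity
    nlinarith

theorem cond_of_twoSided (hT : TwoSided) : Cond := by
  intro ε hε
  obtain ⟨N₀, hN₀⟩ := hT (ε / 2) (by linarith)
  refine ⟨max N₀ 1, fun N hN a b hab => ?_⟩
  have hNa : N₀ ≤ N := (le_max_left _ _).trans hN
  have hN1 : 1 ≤ N := (le_max_right _ _).trans hN
  have hN' : (1 : ℝ) ≤ N := by exact_mod_cast hN1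
  have hN0 : (0 : ℝ) < N := by linarith
  have h1 := (hN₀ N hNa a).2
  have h2 := (hN₀ N hNa b).1
  rw [← hab] at h2
  refine h1.trans ?_
  have e : (N : ℝ) ^ (-2 + ε / 2) = (N : ℝ) ^ ε * (N : ℝ) ^ (-2 - ε / 2) := by
    rw [← Real.rpow_add hN0]
    congr 1
    ring
  rw [e, mul_assoc]
  exact mul_le_mul_of_nonneg_left h2 (by positivity)

lemma h_int {N : ℕ} (hN : 1 ≤ N) {η : ℝ} (hη : 0 < η) :
    ∫ t in Ioi (0 : ℝ), ‖(h N t : ℂ)‖ ^ 2 ≤ (3 + 1 / η) * (N : ℝ) ^ (η - 2) := by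
  have hN' : (1 : ℝ) ≤ N := by exact_mod_cast hN
  have hN0 : (0 : ℝ) < N := by linarith
  refine integral_le_of_lintegral (adm_h hN).1 (by positivity) ?_
  refine (h_norm hN).trans (ENNReal.ofReal_le_ofReal ?_)
  have h1 := Real.log_le_rpow_div hN0.le hη
  have h2 : 1 ≤ (N : ℝ) ^ η := Real.one_le_rpow hN' hη.le
  rw [Real.rpow_sub hN0, Real.rpow_two, mul_div_assoc']
  gcongr
  have e : (N : ℝ) ^ η / η = 1 / η * (N : ℝ) ^ η := by ring
  nlinarith

/-- a crude bound -/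
lemma crude {B : ℝ} (hB : 0 < B) {N : ℕ} (hN : 1 ≤ N) (a : ℕ → ℂ) :
    ∫ t in Ioi (0 : ℝ), ‖∑ n ∈ Finset.Ico N (2 * N), a n * (h n t : ℂ)‖ ^ 2 ≤
      (∑ n ∈ Finset.Ico N (2 * N), ‖a n‖ ^ 2) * (N * ((4 + 1 / B) * (N : ℝ) ^ (2 * B - 2))) := by
  have hN' : (1 : ℝ) ≤ N := by exact_mod_cast hN
  have hN0 : (0 : ℝ) < N := by linarith
  have hspos : ∀ n ∈ Finset.Ico N (2 * N), 0 < n := by
    intro n hn
    rw [Finset.mem_Ico] at hn
    omega
  set S : ℝ := ∑ n ∈ Finset.Ico N (2 * N), ‖a n‖ ^ 2 with hS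
  have hS0 : 0 ≤ S := by positivity
  have hint : ∀ n ∈ Finset.Ico N (2 * N),
      Integrable (fun t => ‖(h n t : ℂ)‖ ^ 2) (volume.restrict (Ioi 0)) := fun n hn =>
    (memLp_two_iff_integrable_sq_norm (adm_h (hspos n hn)).1.aestronglyMeasurable).1
      (adm_h (hspos n hn)).memLp
  have hintG : Integrable (fun t => ‖∑ n ∈ Finset.Ico N (2 * N), a n * (h n t : ℂ)‖ ^ 2)
      (volume.restrict (Ioi 0)) :=
    (memLp_two_iff_integrable_sq_norm (adm_Hs a hspos).1.aestronglyMeasurable).1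
      (adm_Hs a hspos).memLp
  calc ∫ t in Ioi (0 : ℝ), ‖∑ n ∈ Finset.Ico N (2 * N), a n * (h n t : ℂ)‖ ^ 2
      ≤ ∫ t in Ioi (0 : ℝ), S * ∑ n ∈ Finset.Ico N (2 * N), ‖(h n t : ℂ)‖ ^ 2 := by
        refine integral_mono hintG ((integrable_finsetSum _ hint).const_mul _) fun t => ?_
        have h1 : ‖∑ n ∈ Finset.Ico N (2 * N), a n * (h n t : ℂ)‖ ≤
            ∑ n ∈ Finset.Ico N (2 * N), ‖a n‖ * ‖(h n t : ℂ)‖ := by
          refine (norm_sum_le _ _).trans (le_of_eq (Finset.sum_congr rfl fun n _ => norm_mul _ _))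
        exact (pow_le_pow_left₀ (norm_nonneg _) h1 2).trans
          (Finset.sum_mul_sq_le_sq_mul_sq _ _ _)
    _ = S * ∑ n ∈ Finset.Ico N (2 * N), ∫ t in Ioi (0 : ℝ), ‖(h n t : ℂ)‖ ^ 2 := by
        rw [integral_const_mul, integral_finsetSum _ hint]
    _ ≤ S * ∑ n ∈ Finset.Ico N (2 * N), ((4 + 1 / B) * (N : ℝ) ^ (2 * B - 2)) := by
        gcongr with n hn
        have hn1 := hspos n hn
        have hnn : (N : ℝ) ≤ n := by
          rw [Finset.mem_Ico] at hn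
          exact_mod_cast hn.1
        have hη : 0 < min B 1 := lt_min hB one_pos
        refine (h_int hn1 hη).trans ?_
        have h1 : 1 / min B 1 ≤ 1 + 1 / B := by
          have hB' : 0 < 1 / B := by positivity
          rcases le_total B 1 with h | h
          · rw [min_eq_left h]
            linarith
          · rw [min_eq_right h]
            linarith
        have h2 : (n : ℝ) ^ (min B 1 - 2) ≤ (N : ℝ) ^ (2 * B - 2) := by
          calc (n : ℝ) ^ (min B 1 - 2) ≤ (N : ℝ) ^ (min B 1 - 2) :=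
                Real.rpow_le_rpow_of_nonpos hN0 hnn (by linarith [min_le_right B 1])
            _ ≤ (N : ℝ) ^ (2 * B - 2) := by
                apply Real.rpow_le_rpow_of_exponent_le hN'
                linarith [min_le_left B 1]
        have h3 : 0 < (n : ℝ) := by linarith
        calc (3 + 1 / min B 1) * (n : ℝ) ^ (min B 1 - 2)
            ≤ (4 + 1 / B) * (n : ℝ) ^ (min B 1 - 2) :=
              mul_le_mul_of_nonneg_right (by linarith) (by positivity)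
          _ ≤ (4 + 1 / B) * (N : ℝ) ^ (2 * B - 2) := by gcongr
    _ = S * (N * ((4 + 1 / B) * (N : ℝ) ^ (2 * B - 2))) := by
        rw [Finset.sum_const, Nat.card_Ico, nsmul_eq_mul, show 2 * N - N = N by omega]

theorem bessel_of_cond (hc : Cond) : Bessel 0 := by
  intro B hB
  obtain ⟨N₀, hN₀⟩ := hc B hB
  refine ⟨(4 + 1 / B) * (1 + N₀), fun N hN a => ?_⟩
  have hN' : (1 : ℝ) ≤ N := by exact_mod_cast hN
  have hN0 : (0 : ℝ) < N := by linarith
  have hspos : ∀ n ∈ Finset.Ico N (2 * N), 0 < n := by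
    intro n hn
    rw [Finset.mem_Ico] at hn
    omega
  set S : ℝ := ∑ n ∈ Finset.Ico N (2 * N), ‖a n‖ ^ 2 with hS
  have hS0 : 0 ≤ S := by positivity
  have hN₀0 : (0 : ℝ) ≤ N₀ := Nat.cast_nonneg _
  rcases le_or_gt N₀ N with hNN | hNN
  · -- comparison with one function
    set b : ℕ → ℂ := fun n => if n = N then ((√S : ℝ) : ℂ) else 0 with hb
    have hmem : N ∈ Finset.Ico N (2 * N) := by
      rw [Finset.mem_Ico]
      omega
    have hbS : ∑ n ∈ Finset.Ico N (2 * N), ‖b n‖ ^ 2 = S := by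
      have : ∀ n ∈ Finset.Ico N (2 * N), ‖b n‖ ^ 2 = if n = N then S else 0 := by
        intro n _
        simp only [hb]
        split_ifs
        · rw [norm_real, Real.norm_of_nonneg (Real.sqrt_nonneg _), Real.sq_sqrt hS0]
        · simp
      rw [Finset.sum_congr rfl this, Finset.sum_ite_eq', if_pos hmem]
    have hbG : ∀ t : ℝ, ∑ n ∈ Finset.Ico N (2 * N), b n * (h n t : ℂ) =
        ((√S : ℝ) : ℂ) * (h N t : ℂ) := by
      intro t
      have : ∀ n ∈ Finset.Ico N (2 * N), b n * (h n t : ℂ) =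
          if n = N then ((√S : ℝ) : ℂ) * (h n t : ℂ) else 0 := by
        intro n _
        simp only [hb]
        split_ifs
        · rfl
        · simp
      rw [Finset.sum_congr rfl this, Finset.sum_ite_eq', if_pos hmem]
    have h1 := hN₀ N hNN a b (by rw [hbS])
    simp_rw [hbG] at h1
    have h2 : ∫ t in Ioi (0 : ℝ), ‖((√S : ℝ) : ℂ) * (h N t : ℂ)‖ ^ 2 =
        S * ∫ t in Ioi (0 : ℝ), ‖(h N t : ℂ)‖ ^ 2 := by
      rw [← integral_const_mul]
      congr 1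
      funext t
      rw [norm_mul, mul_pow, norm_real, Real.norm_of_nonneg (Real.sqrt_nonneg _),
        Real.sq_sqrt hS0]
    rw [h2] at h1
    refine h1.trans ?_
    have h3 := h_int hN hB
    calc (N : ℝ) ^ B * (S * ∫ t in Ioi (0 : ℝ), ‖(h N t : ℂ)‖ ^ 2)
        ≤ (N : ℝ) ^ B * (S * ((3 + 1 / B) * (N : ℝ) ^ (B - 2))) := by gcongr
      _ = (3 + 1 / B) * 1 * (N : ℝ) ^ (2 * B - 2) * S := by
          rw [show (2 * B - 2 : ℝ) = B + (B - 2) by ring, Real.rpow_add hN0]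
          ring
      _ ≤ (4 + 1 / B) * (1 + N₀) * (N : ℝ) ^ (2 * B - 2) * S := by
          gcongr
          · norm_num
          · linarith
  · -- small `N`
    refine (crude hB hN a).trans ?_
    have hNN' : (N : ℝ) ≤ 1 + N₀ := by
      have : (N : ℝ) ≤ N₀ := by exact_mod_cast hNN.le
      linarith
    have h3 : 0 ≤ (4 + 1 / B) * (N : ℝ) ^ (2 * B - 2) * S := by positivity
    rw [← hS]
    nlinarith

end Pool.Agent.NBL
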