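import Mathlib
import Pool.Agent.NBL.Ms

/-!
# Small values on the critical line have small measure, unconditionally
-/

set_option autoImplicit false

open MeasureTheory Complex Set Filter Topology
open Pool.Agent.Lib.TwoConst Pool.Agent.Lib.ZetaLine Pool.Agent.Lib.ThickFailure
open scoped ENNReal

namespace Pool.Agent.NBL

/-- `ζ(s) (s - 1) / (s + 1)` at `s = 1/2 + z` -/
noncomputable def fz (z : ℂ) : ℂ := riemannZeta₁ (1 / 2 + z) / (3 / 2 + z)

lemma fz_den {z : ℂ} (hz : 0 ≤ z.re) : (3 / 2 + z : ℂ) ≠ 0 := by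
  intro h
  have := congrArg Complex.re h
  simp at this
  linarith

lemma fz_diff {z : ℂ} (hz : 0 ≤ z.re) : DifferentiableAt ℂ fz z := by
  unfold fz
  refine DifferentiableAt.div ?_ (by fun_prop) (fz_den hz)
  exact (differentiable_riemannZeta₁ _).comp z (by fun_prop)

lemma fz_norm {z : ℂ} (h1 : (1 / 2 + z : ℂ) ≠ 1) :
    ‖fz z‖ = ‖riemannZeta (1 / 2 + z)‖ * (‖(-1 / 2 + z : ℂ)‖ / ‖(3 / 2 + z : ℂ)‖) := by
  have h2 : riemannZeta₁ (1 / 2 + z) = (-1 / 2 + z) * riemannZeta (1 / 2 + z) := by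
    rw [riemannZeta_eq_inv_sub_mul h1]
    have h3 : (1 / 2 + z - 1 : ℂ) ≠ 0 := sub_ne_zero.2 h1
    have h4 : (-1 / 2 + z : ℂ) = 1 / 2 + z - 1 := by ring
    rw [h4, ← mul_assoc, mul_inv_cancel₀ h3, one_mul]
  unfold fz
  rw [h2, norm_div, norm_mul]
  ring

lemma ratio_le {z : ℂ} (hz : 0 ≤ z.re) : ‖(-1 / 2 + z : ℂ)‖ / ‖(3 / 2 + z : ℂ)‖ ≤ 1 := by
  have h0 : 0 < ‖(3 / 2 + z : ℂ)‖ := norm_pos_iff.2 (fz_den hz)
  rw [div_le_one h0]
  rw [Complex.norm_def, Complex.norm_def]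
  apply Real.sqrt_le_sqrt
  rw [normSq_apply, normSq_apply]
  have e1 : (-1 / 2 + z : ℂ).re = -1 / 2 + z.re := by simp
  have e2 : (-1 / 2 + z : ℂ).im = z.im := by simp
  have e3 : (3 / 2 + z : ℂ).re = 3 / 2 + z.re := by simp
  have e4 : (3 / 2 + z : ℂ).im = z.im := by simp
  rw [e1, e2, e3, e4]
  nlinarith

lemma fz_line (t : ℝ) : ‖fz (t * I)‖ ≤ ‖riemannZeta (1 / 2 + t * I)‖ := by
  have h1 : (1 / 2 + t * I : ℂ) ≠ 1 := by
    intro h
    have := congrArg Complex.re h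
    norm_num at this
  have h0 : 0 ≤ (t * I : ℂ).re := by simp
  rw [fz_norm h1]
  exact mul_le_of_le_one_right (norm_nonneg _) (ratio_le h0)

lemma fz_cont : Continuous fun t : ℝ => fz (t * I) := by
  rw [continuous_iff_continuousAt]
  intro t
  have h1 : ContinuousAt fz (t * I) := (fz_diff (by simp)).continuousAt
  exact ContinuousAt.comp (f := fun t : ℝ => (t * I : ℂ)) h1 (by fun_prop)

lemma fz_bound : ∃ C : ℝ, 1 ≤ C ∧ ∀ z : ℂ, 0 ≤ z.re → ‖fz z‖ ≤ C * (2 + ‖z‖) := by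
  obtain ⟨C, hC, h⟩ := Pool.Agent.Lib.ZetaCrude.norm_zeta_le_crude
  obtain ⟨C', hC'⟩ := (isCompact_closedBall (1 : ℂ) 1).exists_bound_of_continuousOn
    (differentiable_riemannZeta₁.continuous.continuousOn)
  refine ⟨C + |C'|, by linarith [abs_nonneg C'], fun z hz => ?_⟩
  have hz0 : 0 ≤ ‖z‖ := norm_nonneg z
  by_cases h1 : 1 ≤ ‖(1 / 2 + z : ℂ) - 1‖
  · have hne : (1 / 2 + z : ℂ) ≠ 1 := by
      intro h2
      rw [h2, sub_self, norm_zero] at h1
      linarith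
    rw [fz_norm hne]
    have h2 := h (1 / 2 + z) (by
      have : (1 / 2 + z : ℂ).re = 1 / 2 + z.re := by simp
      rw [this]
      linarith) h1
    have h3 : ‖(1 / 2 + z : ℂ)‖ ≤ 1 / 2 + ‖z‖ := by
      refine (norm_add_le _ _).trans ?_
      simp
    calc ‖riemannZeta (1 / 2 + z)‖ * (‖(-1 / 2 + z : ℂ)‖ / ‖(3 / 2 + z : ℂ)‖)
        ≤ ‖riemannZeta (1 / 2 + z)‖ := mul_le_of_le_one_right (norm_nonneg _) (ratio_le hz)
      _ ≤ C * (1 + ‖(1 / 2 + z : ℂ)‖) := h2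
      _ ≤ (C + |C'|) * (2 + ‖z‖) := by
          apply mul_le_mul _ _ (by positivity) (by positivity)
          · linarith [abs_nonneg C']
          · linarith
  · rw [not_le] at h1
    have h2 := hC' (1 / 2 + z) (by
      rw [Metric.mem_closedBall, dist_eq_norm]
      exact h1.le)
    have h3 : 1 ≤ ‖(3 / 2 + z : ℂ)‖ := by
      have h4 := abs_re_le_norm (3 / 2 + z : ℂ)
      have h5 : (3 / 2 + z : ℂ).re = 3 / 2 + z.re := by simp
      rw [h5, abs_of_nonneg (by linarith)] at h4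
      linarith
    unfold fz
    rw [norm_div]
    calc ‖riemannZeta₁ (1 / 2 + z)‖ / ‖(3 / 2 + z : ℂ)‖ ≤ ‖riemannZeta₁ (1 / 2 + z)‖ / 1 :=
          div_le_div_of_nonneg_left (norm_nonneg _) one_pos h3
      _ = ‖riemannZeta₁ (1 / 2 + z)‖ := div_one _
      _ ≤ |C'| := h2.trans (le_abs_self _)
      _ ≤ (C + |C'|) * (2 + ‖z‖) := by nlinarith [abs_nonneg C']

lemma fz_low {N : ℕ} (hN : 2 ≤ N) : 1 / 10 ≤ ‖fz ((N : ℝ) : ℂ)‖ := by
  have hN' : (2 : ℝ) ≤ N := by exact_mod_cast hN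
  have h0 : 0 ≤ (((N : ℝ) : ℂ)).re := by simp
  have hne : (1 / 2 + ((N : ℝ) : ℂ) : ℂ) ≠ 1 := by
    intro h
    have := congrArg Complex.re h
    simp at this
    linarith
  rw [fz_norm hne]
  have h1 : 1 / 4 ≤ ‖riemannZeta (1 / 2 + ((N : ℝ) : ℂ))‖ := by
    apply zeta_lower
    have : (1 / 2 + ((N : ℝ) : ℂ) : ℂ).re = 1 / 2 + N := by simp
    rw [this]
    linarith
  have h2 : ‖(-1 / 2 + ((N : ℝ) : ℂ) : ℂ)‖ = N - 1 / 2 := by
    rw [show (-1 / 2 + ((N : ℝ) : ℂ) : ℂ) = ((N - 1 / 2 : ℝ) : ℂ) by push_cast; ring, norm_real,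
      Real.norm_of_nonneg (by linarith)]
  have h3 : ‖(3 / 2 + ((N : ℝ) : ℂ) : ℂ)‖ = N + 3 / 2 := by
    rw [show (3 / 2 + ((N : ℝ) : ℂ) : ℂ) = ((N + 3 / 2 : ℝ) : ℂ) by push_cast; ring, norm_real,
      Real.norm_of_nonneg (by linarith)]
  rw [h2, h3]
  have h4 : 2 / 5 ≤ ((N : ℝ) - 1 / 2) / (N + 3 / 2) := by
    rw [le_div_iff₀ (by linarith)]
    linarith
  calc (1 : ℝ) / 10 = 1 / 4 * (2 / 5) := by norm_num
    _ ≤ _ := by gcongr

/-- the weighted two-constants theorem at a far point -/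
lemma far_point {N : ℕ} (hN : 2 ≤ N) {L K κ M₀ P₀ : ℝ} (hL : (N : ℝ) ≤ L) (hκ : 0 < κ)
    (hK : 2 * L / (Real.pi * (K - L)) ≤ κ) (hLK : L < K) (hM₀ : 1 < M₀)
    (hM : ∀ z : ℂ, 0 ≤ z.re → z.re ≤ K → |z.im| ≤ K → ‖fz z‖ ≤ M₀) (hP₀ : 0 < P₀) (hP₁ : P₀ ≤ 1) :
    ∃ x₀ : ℝ, 0 < x₀ ∧ x₀ < 1 ∧
      1 / Real.pi * ∫ t in (-L)..L, (Real.log M₀ - Real.log (max ‖fz (t * I)‖ P₀)) *
        P (N + x₀) 0 t ≤
      Real.log 10 + Real.log M₀ + (Real.log M₀ - Real.log P₀) * κ := by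
  have hN' : (2 : ℝ) ≤ N := by exact_mod_cast hN
  have hL0 : 0 < L := by linarith
  have hM0 : 0 < M₀ := by linarith
  have hlM : 0 < Real.log M₀ := Real.log_pos hM₀
  have hlP : Real.log P₀ ≤ 0 := Real.log_nonpos hP₀.le hP₁
  set Λ : ℝ := Real.log M₀ - Real.log P₀ with hΛ
  have hΛ0 : 0 < Λ := by rw [hΛ]; linarith
  set g : ℝ → ℝ := fun t => Real.log (max ‖fz (t * I)‖ P₀) with hg
  have hmaxpos : ∀ t : ℝ, 0 < max ‖fz (t * I)‖ P₀ := fun t => lt_max_of_lt_right hP₀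
  have hgc : Continuous g := by
    refine Continuous.log ?_ fun t => (hmaxpos t).ne'
    exact fz_cont.norm.max continuous_const
  set w : ℝ → ℝ := fun t => max 0 (min 1 ((Real.log M₀ - g t) / Λ)) with hw
  have hwc : Continuous w :=
    continuous_const.max (continuous_const.min ((continuous_const.sub hgc).div_const Λ))
  have hw0 : ∀ t, 0 ≤ w t := fun t => le_max_left _ _
  have hw1 : ∀ t, w t ≤ 1 := fun t => max_le zero_le_one (min_le_left _ _)
  have hweq : ∀ t : ℝ, |t| ≤ K → Λ * w t = Real.log M₀ - g t := by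
    intro t ht
    have h1 : g t ≤ Real.log M₀ := by
      apply Real.log_le_log (hmaxpos t)
      apply max_le _ (by linarith)
      exact hM _ (by simp) (by simp; linarith) (by simpa using ht)
    have h2 : Real.log P₀ ≤ g t := Real.log_le_log hP₀ (le_max_right _ _)
    have h3 : 0 ≤ (Real.log M₀ - g t) / Λ := div_nonneg (by linarith) hΛ0.le
    have h4 : (Real.log M₀ - g t) / Λ ≤ 1 := by
      rw [div_le_one hΛ0, hΛ]
      linarith
    simp only [hw]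
    rw [min_eq_right h4, max_eq_right h3]
    field_simp
  obtain ⟨x₀, hx₀, hx₁, hmain⟩ := two_const hwc hw0 hw1 (f := fz) (L := L) (K := K) (η := κ)
    (a := 1) (Λ := Λ) (M₀ := M₀) hL0 hκ one_pos hΛ0.le hM0.le hK hLK
    (fun z h1 _ _ => fz_diff h1) hM (by
      intro y hy
      rw [hweq y hy, Real.exp_sub, Real.exp_log hM0, Real.exp_log (hmaxpos y),
        mul_div_assoc', div_le_iff₀ (hmaxpos y), mul_comm]
      exact mul_le_mul_of_nonneg_left (le_max_left _ _) hM0.le)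
  refine ⟨x₀, hx₀, hx₁, ?_⟩
  have h1 := hmain N (by linarith) (by linarith)
  have h2 := fz_low hN
  have h3 : (1 / 10) * Real.exp (Λ * (1 / Real.pi * ∫ t in (-L)..L, w t * P (N + x₀) 0 t)) ≤
      M₀ * Real.exp (Λ * κ) := le_trans (by gcongr) h1
  have h4 := Real.log_le_log (by positivity) h3
  rw [Real.log_mul (by norm_num) (Real.exp_pos _).ne', Real.log_exp,
    Real.log_mul hM0.ne' (Real.exp_pos _).ne', Real.log_exp, one_div, Real.log_inv] at h4
  have h5 : 1 / Real.pi * ∫ t in (-L)..L, (Real.log M₀ - g t) * P (N + x₀) 0 t =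
      Λ * (1 / Real.pi * ∫ t in (-L)..L, w t * P (N + x₀) 0 t) := by
    have h6 : ∫ t in (-L)..L, (Real.log M₀ - g t) * P (N + x₀) 0 t =
        ∫ t in (-L)..L, Λ * (w t * P (N + x₀) 0 t) := by
      apply intervalIntegral.integral_congr
      intro t ht
      rw [uIcc_of_le (by linarith)] at ht
      have h7 : |t| ≤ K := (abs_le.2 ht).trans hLK.le
      simp only
      rw [← hweq t h7]
      ring
    rw [h6, intervalIntegral.integral_const_mul]
    ring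
  rw [h5]
  simp only [one_div] at h4 ⊢
  linarith

end Pool.Agent.NBL
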