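import Mathlib
import Pool.Agent.NBL.Rare

/-!
# Small values on the critical line have small measure, unconditionally: conclusion
-/

set_option autoImplicit false

open MeasureTheory Complex Set Filter Topology
open Pool.Agent.Lib.TwoConst Pool.Agent.Lib.ZetaLine Pool.Agent.Lib.ThickFailure
open scoped ENNReal

namespace Pool.Agent.NBL

/-- small values of zeta up to height `R` -/
def SmallSet (N : ℕ) (ε R : ℝ) : Set ℝ :=
  {t : ℝ | t ∈ Icc (-R) R ∧ ‖riemannZeta (1 / 2 + t * I)‖ < (N : ℝ) ^ (-ε)}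

lemma SmallSet_meas (N : ℕ) (ε R : ℝ) : MeasurableSet (SmallSet N ε R) :=
  measurableSet_Icc.inter (measurableSet_lt continuous_zeta_line.norm.measurable measurable_const)

lemma mean_sq_int {N : ℕ} (hN : 1 ≤ N) :
    ∫ t in (-(N : ℝ))..N, ‖riemannZeta (1 / 2 + t * I)‖ ^ 2 ≤
      480 * Real.pi * N * (1 + Real.log N) := by
  have hN' : (1 : ℝ) ≤ N := by exact_mod_cast hN
  have hlog : 0 ≤ Real.log N := Real.log_nonneg hN'
  have h1 := mean_sq hN
  have hc : Continuous fun t : ℝ => ‖riemannZeta (1 / 2 + t * I)‖ ^ 2 :=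
    continuous_zeta_line.norm.pow 2
  rw [intervalIntegral.integral_of_le (by linarith), ← integral_Icc_eq_integral_Ioc,
    integral_eq_lintegral_of_nonneg_ae (Eventually.of_forall fun t => by positivity)
      hc.aestronglyMeasurable]
  simp_rw [enorm_sq] at h1
  exact ENNReal.toReal_le_of_le_ofReal (by positivity) h1

lemma g_le {N : ℕ} (hN : 2 ≤ N) {κ ε : ℝ} (hκ : 0 ≤ κ) (hε : Real.log 2 ≤ ε * Real.log N) (t : ℝ) :
    Real.log (max ‖fz (t * I)‖ ((N : ℝ) ^ (-ε))) ≤ κ * Real.log N +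
      (N : ℝ) ^ (-(2 * κ)) * ‖riemannZeta (1 / 2 + t * I)‖ ^ 2 -
      (ε * Real.log N - Real.log 2) * W ((N : ℝ) ^ (-ε)) t := by
  have hN0 : (0 : ℝ) < N := by
    have : 0 < N := by omega
    exact_mod_cast this
  set P₀ : ℝ := (N : ℝ) ^ (-ε) with hP₀
  have hP : 0 < P₀ := by positivity
  have hline := fz_line t
  have hκ' : 0 < (N : ℝ) ^ κ := by positivity
  have hsq0 : 0 ≤ (N : ℝ) ^ (-(2 * κ)) * ‖riemannZeta (1 / 2 + t * I)‖ ^ 2 := by positivity
  have hκ0 : 0 ≤ κ * Real.log N := by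
    have : 0 ≤ Real.log N := Real.log_nonneg (by
      have : 1 ≤ N := by omega
      exact_mod_cast this)
    positivity
  by_cases hc : 2 * P₀ ≤ ‖riemannZeta (1 / 2 + t * I)‖
  · rw [W_eq_zero hP hc, mul_zero, sub_zero]
    have hz : 0 < ‖riemannZeta (1 / 2 + t * I)‖ := by linarith
    have h1 : max ‖fz (t * I)‖ P₀ ≤ ‖riemannZeta (1 / 2 + t * I)‖ := max_le hline (by linarith)
    have h2 := Real.log_le_log (lt_max_of_lt_right hP) h1
    have h3 : Real.log ‖riemannZeta (1 / 2 + t * I)‖ = κ * Real.log N +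
        Real.log (‖riemannZeta (1 / 2 + t * I)‖ / (N : ℝ) ^ κ) := by
      rw [Real.log_div hz.ne' hκ'.ne', Real.log_rpow hN0]
      ring
    have h4 := Real.log_le_sub_one_of_pos (show 0 < ‖riemannZeta (1 / 2 + t * I)‖ / (N : ℝ) ^ κ by
      positivity)
    have h5 : (N : ℝ) ^ (-(2 * κ)) * ‖riemannZeta (1 / 2 + t * I)‖ ^ 2 =
        (‖riemannZeta (1 / 2 + t * I)‖ / (N : ℝ) ^ κ) ^ 2 := by
      rw [div_pow, Real.rpow_neg hN0.le, show 2 * κ = κ * ((2 : ℕ) : ℝ) by push_cast; ring,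
        Real.rpow_mul hN0.le, Real.rpow_natCast]
      field_simp
    rw [h5]
    nlinarith [sq_nonneg (‖riemannZeta (1 / 2 + t * I)‖ / (N : ℝ) ^ κ)]
  · rw [not_le] at hc
    have h1 : max ‖fz (t * I)‖ P₀ ≤ 2 * P₀ := max_le (hline.trans hc.le) (by linarith)
    have h2 := Real.log_le_log (lt_max_of_lt_right hP) h1
    rw [Real.log_mul (by norm_num) hP.ne', hP₀, Real.log_rpow hN0] at h2
    have h3 : (ε * Real.log N - Real.log 2) * W P₀ t ≤ (ε * Real.log N - Real.log 2) * 1 :=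
      mul_le_mul_of_nonneg_left (W_le_one _ _) (by linarith)
    linarith

lemma P_le {x : ℝ} {N : ℕ} (hN : 1 ≤ N) (hx : (N : ℝ) ≤ x) (t : ℝ) : P x 0 t ≤ 1 / N := by
  have hN0 : (0 : ℝ) < N := by exact_mod_cast hN
  have hx0 : 0 < x := by linarith
  unfold P
  rw [div_le_div_iff₀ (by positivity) hN0]
  nlinarith [sq_nonneg (0 - t)]

lemma P_ge {x Λ₀ : ℝ} {N : ℕ} (hN : 1 ≤ N) (hx : (N : ℝ) ≤ x) (hx1 : x ≤ 2 * N) {t : ℝ}
    (ht : |t| ≤ Λ₀ * N) : 1 / (N * (4 + Λ₀ ^ 2)) ≤ P x 0 t := by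
  have hN0 : (0 : ℝ) < N := by exact_mod_cast hN
  have hx0 : 0 < x := by linarith
  unfold P
  have h1 : t ^ 2 ≤ (Λ₀ * N) ^ 2 := by
    rw [← sq_abs t]
    exact pow_le_pow_left₀ (abs_nonneg t) ht 2
  rw [div_le_div_iff₀ (by positivity) (by positivity)]
  have h2 : x ^ 2 ≤ 4 * (N : ℝ) ^ 2 := by nlinarith
  have h3 : (0 - t) ^ 2 = t ^ 2 := by ring
  rw [h3, one_mul]
  calc x ^ 2 + t ^ 2 ≤ 4 * (N : ℝ) ^ 2 + (Λ₀ * N) ^ 2 := add_le_add h2 h1
    _ = N * (N * (4 + Λ₀ ^ 2)) := by ring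
    _ ≤ x * (N * (4 + Λ₀ ^ 2)) := by
        apply mul_le_mul_of_nonneg_right hx (by positivity)

lemma IP_ge {x L κ : ℝ} (hx : 0 < x) (hL : 0 < L) (hxL : x / L ≤ κ) :
    Real.pi * (1 - κ) ≤ ∫ t in (-L)..L, P x 0 t := by
  have hpi := Real.pi_gt_three
  have hκ : 0 < κ := lt_of_lt_of_le (by positivity) hxL
  rw [integral_P hx]
  have e1 : (-L - 0) / x = -((L - 0) / x) := by ring
  rw [e1, Real.arctan_neg]
  simp only [sub_zero]
  have e2 : Real.arctan (L / x) = Real.pi / 2 - Real.arctan (x / L) := by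
    rw [← Real.arctan_inv_of_pos (by positivity : 0 < x / L), inv_div]
  rw [e2]
  have e3 : Real.arctan (x / L) ≤ x / L := by
    have h := Real.lt_tan (x := Real.arctan (x / L)) (Real.arctan_pos.mpr (by positivity))
      (Real.arctan_lt_pi_div_two _)
    rw [Real.tan_arctan] at h
    exact h.le
  nlinarith

/-- the integral inequality -/
lemma far_bound {N A : ℕ} (hN : 2 ≤ N) {Λ₀ κ ε M₀ x₀ : ℝ} (hΛ : 1 ≤ Λ₀) (hA : Λ₀ ≤ A)
    (hκ : 0 < κ) (hAκ : 2 / κ ≤ A) (hx₀ : 0 < x₀) (hx₁ : x₀ < 1) (hM₀ : 1 < M₀)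
    (hε : Real.log 2 ≤ ε * Real.log N) :
    Real.log M₀ * (1 - κ) - κ * Real.log N -
        (N : ℝ) ^ (-(2 * κ)) * (480 * A * (1 + Real.log ((A * N : ℕ) : ℝ))) +
        (ε * Real.log N - Real.log 2) *
          (1 / (Real.pi * (N * (4 + Λ₀ ^ 2))) * volume.real (SmallSet N ε (Λ₀ * N))) ≤
      1 / Real.pi * ∫ t in (-((A * N : ℕ) : ℝ))..((A * N : ℕ) : ℝ),
        (Real.log M₀ - Real.log (max ‖fz (t * I)‖ ((N : ℝ) ^ (-ε)))) * P (N + x₀) 0 t := by
  have hN' : (2 : ℝ) ≤ N := by exact_mod_cast hN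
  have hN0 : (0 : ℝ) < N := by linarith
  have hA1 : (1 : ℝ) ≤ A := hΛ.trans hA
  have hA0 : 1 ≤ A := by exact_mod_cast hA1
  have hpi := Real.pi_pos
  have hlogN : 0 ≤ Real.log N := Real.log_nonneg (by linarith)
  have hlM : 0 < Real.log M₀ := Real.log_pos hM₀
  have hANcast : ((A * N : ℕ) : ℝ) = A * N := by push_cast; ring
  set L : ℝ := ((A * N : ℕ) : ℝ) with hL
  have hL0 : 0 < L := by rw [hANcast]; positivity
  have hNL : Λ₀ * N ≤ L := by
    rw [hANcast]
    exact mul_le_mul_of_nonneg_right hA hN0.le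
  set x : ℝ := N + x₀ with hx
  have hxN : (N : ℝ) ≤ x := by linarith
  have hx2 : x ≤ 2 * N := by linarith
  have hx0 : 0 < x := by linarith
  set P₀ : ℝ := (N : ℝ) ^ (-ε) with hP₀
  have hP : 0 < P₀ := by positivity
  have hPc := continuous_P hx0 0
  have hWc := continuous_W P₀
  set Z : ℝ → ℝ := fun t => ‖riemannZeta (1 / 2 + t * I)‖ ^ 2 with hZ
  have hZc : Continuous Z := continuous_zeta_line.norm.pow 2
  have hgc : Continuous fun t : ℝ => Real.log (max ‖fz (t * I)‖ P₀) :=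
    Continuous.log (fz_cont.norm.max continuous_const) fun t => (lt_max_of_lt_right hP).ne'
  set q : ℝ := (N : ℝ) ^ (-(2 * κ)) with hq
  have hq0 : 0 < q := by positivity
  set b : ℝ := ε * Real.log N - Real.log 2 with hb
  have hb0 : 0 ≤ b := by rw [hb]; linarith
  have hIP0 : 0 ≤ ∫ t in (-L)..L, P x 0 t :=
    intervalIntegral.integral_nonneg (by linarith) fun t _ => P_nonneg hx0.le 0 t
  have hIP1 : ∫ t in (-L)..L, P x 0 t ≤ Real.pi := integral_P_le hx0 0 _ _
  have hIP2 : Real.pi * (1 - κ) ≤ ∫ t in (-L)..L, P x 0 t := by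
    apply IP_ge hx0 hL0
    rw [hANcast, div_le_iff₀ (by positivity)]
    rw [div_le_iff₀ hκ] at hAκ
    calc x ≤ 2 * N := hx2
      _ ≤ (A * κ) * N := mul_le_mul_of_nonneg_right hAκ hN0.le
      _ = κ * (A * N) := by ring
  -- the zeta term
  have hZint : ∫ t in (-L)..L, Z t * P x 0 t ≤ 480 * Real.pi * A * (1 + Real.log L) := by
    have hAN : 1 ≤ A * N := Nat.mul_pos (by omega) (by omega)
    calc ∫ t in (-L)..L, Z t * P x 0 t ≤ ∫ t in (-L)..L, Z t * (1 / N) := by
          apply intervalIntegral.integral_mono_on (by linarith)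
          · exact (hZc.mul hPc).intervalIntegrable _ _
          · exact (hZc.mul continuous_const).intervalIntegrable _ _
          · intro t _
            exact mul_le_mul_of_nonneg_left (P_le (by omega) hxN t) (by positivity)
      _ = (∫ t in (-L)..L, Z t) * (1 / N) := by rw [intervalIntegral.integral_mul_const]
      _ ≤ (480 * Real.pi * L * (1 + Real.log L)) * (1 / N) := by
          gcongr
          exact mean_sq_int hAN
      _ = 480 * Real.pi * A * (1 + Real.log L) := by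
          rw [hANcast]
          field_simp
  -- the weight
  have hWint : 1 / (N * (4 + Λ₀ ^ 2)) * volume.real (SmallSet N ε (Λ₀ * N)) ≤
      ∫ t in (-L)..L, W P₀ t * P x 0 t := by
    have hR0 : 0 < Λ₀ * N := by positivity
    have h1 : volume.real (SmallSet N ε (Λ₀ * N)) ≤
        ∫ t in (-(Λ₀ * N))..(-(Λ₀ * N) + 2 * (Λ₀ * N)), W P₀ t := by
      refine Pool.Agent.Lib.PoissonLower.integral_ge hWc (W_nonneg P₀) (by linarith)
        (SmallSet_meas N ε _) (fun t ht => ?_) fun t ht => W_eq_one hP ht.2.le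
      rw [show -(Λ₀ * N) + 2 * (Λ₀ * N) = Λ₀ * N by ring]
      exact ht.1
    rw [show -(Λ₀ * N) + 2 * (Λ₀ * N) = Λ₀ * N by ring] at h1
    calc 1 / (N * (4 + Λ₀ ^ 2)) * volume.real (SmallSet N ε (Λ₀ * N))
        ≤ 1 / (N * (4 + Λ₀ ^ 2)) * ∫ t in (-(Λ₀ * N))..(Λ₀ * N), W P₀ t := by gcongr
      _ = ∫ t in (-(Λ₀ * N))..(Λ₀ * N), 1 / (N * (4 + Λ₀ ^ 2)) * W P₀ t := by
          rw [intervalIntegral.integral_const_mul]
      _ ≤ ∫ t in (-(Λ₀ * N))..(Λ₀ * N), W P₀ t * P x 0 t := by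
          apply intervalIntegral.integral_mono_on (by linarith)
          · exact (continuous_const.mul hWc).intervalIntegrable _ _
          · exact (hWc.mul hPc).intervalIntegrable _ _
          · intro t ht
            rw [mul_comm]
            exact mul_le_mul_of_nonneg_left (P_ge (by omega) hxN hx2 (abs_le.2 ht))
              (W_nonneg _ _)
      _ ≤ ∫ t in (-L)..L, W P₀ t * P x 0 t := by
          apply intervalIntegral.integral_mono_interval (by linarith) (by linarith) (by linarith)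
          · exact Eventually.of_forall fun t => mul_nonneg (W_nonneg _ _) (P_nonneg hx0.le 0 t)
          · exact (hWc.mul hPc).intervalIntegrable _ _
  -- the comparison
  have hmain : ∫ t in (-L)..L, ((Real.log M₀ - κ * Real.log N) * P x 0 t - q * (Z t * P x 0 t) +
        b * (W P₀ t * P x 0 t)) ≤
      ∫ t in (-L)..L, (Real.log M₀ - Real.log (max ‖fz (t * I)‖ P₀)) * P x 0 t := by
    apply intervalIntegral.integral_mono_on (by linarith)
    · exact (((continuous_const.mul hPc).sub (continuous_const.mul (hZc.mul hPc))).add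
        (continuous_const.mul (hWc.mul hPc))).intervalIntegrable _ _
    · exact ((continuous_const.sub hgc).mul hPc).intervalIntegrable _ _
    · intro t _
      have h1 := g_le hN hκ.le hε t
      have h2 : (Real.log M₀ - κ * Real.log N) * P x 0 t - q * (Z t * P x 0 t) +
          b * (W P₀ t * P x 0 t) =
          (Real.log M₀ - (κ * Real.log N + q * Z t - b * W P₀ t)) * P x 0 t := by ring
      rw [h2]
      apply mul_le_mul_of_nonneg_right _ (P_nonneg hx0.le 0 t)
      have h3 : Real.log (max ‖fz (t * I)‖ P₀) ≤ κ * Real.log N + q * Z t - b * W P₀ t := h1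
      linarith
  rw [intervalIntegral.integral_add, intervalIntegral.integral_sub,
    intervalIntegral.integral_const_mul, intervalIntegral.integral_const_mul,
    intervalIntegral.integral_const_mul] at hmain
  rotate_left
  · exact (continuous_const.mul hPc).intervalIntegrable _ _
  · exact (continuous_const.mul (hZc.mul hPc)).intervalIntegrable _ _
  · exact ((continuous_const.mul hPc).sub
      (continuous_const.mul (hZc.mul hPc))).intervalIntegrable _ _
  · exact (continuous_const.mul (hWc.mul hPc)).intervalIntegrable _ _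
  refine le_trans ?_ (mul_le_mul_of_nonneg_left hmain (by positivity : 0 ≤ 1 / Real.pi))
  have h4 : Real.log M₀ * (Real.pi * (1 - κ)) ≤ Real.log M₀ * ∫ t in (-L)..L, P x 0 t :=
    mul_le_mul_of_nonneg_left hIP2 hlM.le
  have h5 : κ * Real.log N * ∫ t in (-L)..L, P x 0 t ≤ κ * Real.log N * Real.pi :=
    mul_le_mul_of_nonneg_left hIP1 (by positivity)
  have h6 : q * ∫ t in (-L)..L, Z t * P x 0 t ≤ q * (480 * Real.pi * A * (1 + Real.log L)) :=
    mul_le_mul_of_nonneg_left hZint hq0.le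
  have h7 : b * (1 / (N * (4 + Λ₀ ^ 2)) * volume.real (SmallSet N ε (Λ₀ * N))) ≤
      b * ∫ t in (-L)..L, W P₀ t * P x 0 t := mul_le_mul_of_nonneg_left hWint hb0
  have h8 : Real.log M₀ * (1 - κ) - κ * Real.log N - q * (480 * A * (1 + Real.log L)) +
      b * (1 / (Real.pi * (N * (4 + Λ₀ ^ 2))) * volume.real (SmallSet N ε (Λ₀ * N))) =
      1 / Real.pi * (Real.log M₀ * (Real.pi * (1 - κ)) - κ * Real.log N * Real.pi -
        q * (480 * Real.pi * A * (1 + Real.log L)) +
        b * (1 / (N * (4 + Λ₀ ^ 2)) * volume.real (SmallSet N ε (Λ₀ * N)))) := by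
    field_simp
  rw [h8]
  apply mul_le_mul_of_nonneg_left _ (by positivity)
  linarith


lemma ev_const_le {K ε : ℝ} (hε : 0 < ε) :
    ∃ N₀ : ℕ, ∀ N : ℕ, N₀ ≤ N → K ≤ (N : ℝ) ^ ε := by
  have hlim : Tendsto (fun N : ℕ => (N : ℝ) ^ ε) atTop atTop :=
    (tendsto_rpow_atTop hε).comp tendsto_natCast_atTop_atTop
  exact eventually_atTop.1 (hlim.eventually_ge_atTop K)

end Pool.Agent.NBL
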