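import Mathlib
import Pool.Agent.NBL.Rare2

/-!
# Tools in the half-plane
-/

set_option autoImplicit false

open MeasureTheory Complex Set Filter Topology Bornology Asymptotics
open Pool.Agent.Lib.TwoConst Pool.Agent.Lib.ZetaLine Pool.Agent.Lib.ThickFailure
open scoped ENNReal

namespace Pool.Agent.NBL

/-- Jensen's inequality in the half-plane, with a cutoff -/
lemma jen {f : ℂ → ℂ} {L K κ a M₀ P₀ : ℝ} (hL : 0 < L) (hκ : 0 < κ) (ha : 0 < a)
    (hK : 2 * L / (Real.pi * (K - L)) ≤ κ) (hLK : L < K) (hP₀ : 0 < P₀) (hPM : P₀ < M₀)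
    (hfc : Continuous fun t : ℝ => f (t * I))
    (hf : ∀ z : ℂ, 0 ≤ z.re → z.re ≤ K → |z.im| ≤ K → DifferentiableAt ℂ f z)
    (hM : ∀ z : ℂ, 0 ≤ z.re → z.re ≤ K → |z.im| ≤ K → ‖f z‖ ≤ M₀) :
    ∃ x₀ : ℝ, 0 < x₀ ∧ x₀ < a ∧ ∀ x : ℝ, 0 < x → x < K →
      ‖f x‖ * Real.exp (1 / Real.pi * ∫ t in (-L)..L,
        (Real.log M₀ - Real.log (max ‖f (t * I)‖ P₀)) * P (x + x₀) 0 t) ≤
      M₀ * Real.exp ((Real.log M₀ - Real.log P₀) * κ) := by
  have hM0 : 0 < M₀ := hP₀.trans hPM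
  have hlP : Real.log P₀ < Real.log M₀ := Real.log_lt_log hP₀ hPM
  set Λ : ℝ := Real.log M₀ - Real.log P₀ with hΛ
  have hΛ0 : 0 < Λ := by rw [hΛ]; linarith
  set g : ℝ → ℝ := fun t => Real.log (max ‖f (t * I)‖ P₀) with hg
  have hmaxpos : ∀ t : ℝ, 0 < max ‖f (t * I)‖ P₀ := fun t => lt_max_of_lt_right hP₀
  have hgc : Continuous g := by
    refine Continuous.log ?_ fun t => (hmaxpos t).ne'
    exact hfc.norm.max continuous_const
  set w : ℝ → ℝ := fun t => max 0 (min 1 ((Real.log M₀ - g t) / Λ)) with hw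
  have hwc : Continuous w :=
    continuous_const.max (continuous_const.min ((continuous_const.sub hgc).div_const Λ))
  have hw0 : ∀ t, 0 ≤ w t := fun t => le_max_left _ _
  have hw1 : ∀ t, w t ≤ 1 := fun t => max_le zero_le_one (min_le_left _ _)
  have hweq : ∀ t : ℝ, |t| ≤ K → Λ * w t = Real.log M₀ - g t := by
    intro t ht
    have h1 : g t ≤ Real.log M₀ := by
      apply Real.log_le_log (hmaxpos t)
      apply max_le _ (by linarith)
      exact hM _ (by simp) (by simp; linarith) (by simpa using ht)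
    have h2 : Real.log P₀ ≤ g t := Real.log_le_log hP₀ (le_max_right _ _)
    have h3 : 0 ≤ (Real.log M₀ - g t) / Λ := div_nonneg (by linarith) hΛ0.le
    have h4 : (Real.log M₀ - g t) / Λ ≤ 1 := by
      rw [div_le_one hΛ0, hΛ]
      linarith
    simp only [hw]
    rw [min_eq_right h4, max_eq_right h3]
    field_simp
  obtain ⟨x₀, hx₀, hx₁, hmain⟩ := two_const hwc hw0 hw1 (f := f) (L := L) (K := K) (η := κ)
    (a := a) (Λ := Λ) (M₀ := M₀) hL hκ ha hΛ0.le hM0.le hK hLK hf hM (by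
      intro y hy
      rw [hweq y hy, Real.exp_sub, Real.exp_log hM0, Real.exp_log (hmaxpos y),
        mul_div_assoc', div_le_iff₀ (hmaxpos y), mul_comm]
      exact mul_le_mul_of_nonneg_left (le_max_left _ _) hM0.le)
  refine ⟨x₀, hx₀, hx₁, fun x hx hxK => ?_⟩
  have h1 := hmain x hx hxK
  have h5 : 1 / Real.pi * ∫ t in (-L)..L, (Real.log M₀ - Real.log (max ‖f (t * I)‖ P₀)) *
      P (x + x₀) 0 t = Λ * (1 / Real.pi * ∫ t in (-L)..L, w t * P (x + x₀) 0 t) := by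
    have h6 : ∫ t in (-L)..L, (Real.log M₀ - Real.log (max ‖f (t * I)‖ P₀)) * P (x + x₀) 0 t =
        ∫ t in (-L)..L, Λ * (w t * P (x + x₀) 0 t) := by
      apply intervalIntegral.integral_congr
      intro t ht
      rw [uIcc_of_le (by linarith)] at ht
      have h7 : |t| ≤ K := (abs_le.2 ht).trans hLK.le
      simp only
      have h8 := hweq t h7
      rw [← mul_assoc, h8]
    rw [h6, intervalIntegral.integral_const_mul]
    ring
  rw [h5]
  exact h1

/-- a bound in the half-plane `Re s ≥ 2` -/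
theorem zeta_upper {s : ℂ} (hs2 : 2 ≤ s.re) : ‖riemannZeta s‖ ≤ 2 := by
  have hs : (1 : ℝ) < s.re := by linarith
  have hterm : ∀ n : ℕ, ‖(1 : ℂ) / ((n : ℂ) + 1) ^ s‖ ≤ 1 / ((n : ℝ) + 1) ^ 2 := by
    intro n
    have h1 : ((n : ℂ) + 1) = (((n : ℝ) + 1 : ℝ) : ℂ) := by push_cast; ring
    have hpos : (0 : ℝ) < (n : ℝ) + 1 := by positivity
    have h1' : (1 : ℝ) ≤ (n : ℝ) + 1 := by
      have : (0 : ℝ) ≤ n := Nat.cast_nonneg n
      linarith
    rw [norm_div, norm_one, h1, Complex.norm_cpow_eq_rpow_re_of_pos hpos]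
    apply one_div_le_one_div_of_le (by positivity)
    calc ((n : ℝ) + 1) ^ 2 = ((n : ℝ) + 1) ^ (2 : ℝ) := by norm_num
      _ ≤ ((n : ℝ) + 1) ^ s.re := Real.rpow_le_rpow_of_exponent_le h1' hs2
  rw [zeta_eq_tsum_one_div_nat_add_one_cpow hs]
  have hz := hasSum_zeta_two
  have hsq : Summable (fun n : ℕ => 1 / ((n : ℝ) + 1) ^ 2) := by
    have h := (summable_nat_add_iff 1).2 hz.summable
    refine h.congr ?_
    intro n
    push_cast
    rfl
  have hsum0 : Summable (fun n : ℕ => ‖(1 : ℂ) / ((n : ℂ) + 1) ^ s‖) :=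
    Summable.of_nonneg_of_le (fun n => norm_nonneg _) hterm hsq
  have hval : ∑' n : ℕ, 1 / ((n : ℝ) + 1) ^ 2 = Real.pi ^ 2 / 6 := by
    have h1 := hz.tsum_eq
    rw [hz.summable.tsum_eq_zero_add] at h1
    simp only [Nat.cast_zero, ne_eq, OfNat.ofNat_ne_zero, not_false_eq_true, zero_pow, div_zero,
      zero_add, Nat.cast_add, Nat.cast_one] at h1
    exact h1
  refine (norm_tsum_le_tsum_norm hsum0).trans ((hsum0.tsum_le_tsum hterm hsq).trans ?_)
  rw [hval]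
  have h1 := Real.pi_lt_d2
  have h2 := Real.pi_pos
  nlinarith

/-- the Lindelöf bound in the half-plane -/
lemma fz_lh (h : Mu 0) {β : ℝ} (hβ : 0 < β) :
    ∃ C : ℝ, 1 ≤ C ∧ ∀ z : ℂ, 0 ≤ z.re → ‖fz z‖ ≤ C * (2 + ‖z‖) ^ β := by
  obtain ⟨C₁, hC₁⟩ := h β hβ
  obtain ⟨C₂, hC₂, hcr⟩ := fz_bound
  have hC₁0 : 0 ≤ C₁ := by
    have := hC₁ 0
    simp only [abs_zero, add_zero, Real.one_rpow, mul_one] at this
    exact (norm_nonneg _).trans this
  have hn : ∀ z : ℂ, 0 ≤ z.re → ‖(2 + z) ^ (-(β : ℂ))‖ = ‖2 + z‖ ^ (-β) := by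
    intro z hz
    have hne : (2 + z : ℂ) ≠ 0 := by
      intro h
      have := congrArg Complex.re h
      simp at this
      linarith
    rw [norm_cpow_of_ne_zero hne]
    simp
  have h2z : ∀ z : ℂ, 0 ≤ z.re → 2 ≤ ‖2 + z‖ ∧ ‖2 + z‖ ≤ 2 + ‖z‖ := by
    intro z hz
    constructor
    · have h1 := abs_re_le_norm (2 + z)
      have h2 : (2 + z).re = 2 + z.re := by simp
      rw [h2, abs_of_nonneg (by linarith)] at h1
      linarith
    · refine (norm_add_le _ _).trans ?_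
      simp
  set g : ℂ → ℂ := fun z => fz z * (2 + z) ^ (-(β : ℂ)) with hg
  have hgd : ∀ z : ℂ, 0 ≤ z.re → DifferentiableAt ℂ g z := by
    intro z hz
    refine (fz_diff hz).mul ?_
    refine DifferentiableAt.cpow (by fun_prop) (by fun_prop) (Or.inl ?_)
    simp
    linarith
  have hbd : ∀ z : ℂ, 0 ≤ z.re → ‖g z‖ ≤ C₂ * (2 + ‖z‖) := by
    intro z hz
    simp only [hg]
    rw [norm_mul, hn z hz]
    have h1 : ‖2 + z‖ ^ (-β) ≤ 1 :=
      Real.rpow_le_one_of_one_le_of_nonpos (by linarith [(h2z z hz).1]) (by linarith)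
    calc ‖fz z‖ * ‖2 + z‖ ^ (-β) ≤ (C₂ * (2 + ‖z‖)) * 1 :=
          mul_le_mul (hcr z hz) h1 (by positivity) (by positivity)
      _ = _ := mul_one _
  have hmain : ∀ z : ℂ, 0 ≤ z.re → ‖g z‖ ≤ C₁ * 2 ^ β := by
    intro z hz
    refine PhragmenLindelof.right_half_plane_of_bounded_on_real (f := g) ?_ ?_ ?_ ?_ hz
    · refine DifferentiableOn.diffContOnCl ?_
      intro w hw
      have hcl : closure {z : ℂ | 0 < z.re} ⊆ {z : ℂ | 0 ≤ z.re} :=
        closure_minimal (fun z (hz : 0 < z.re) => hz.le) (isClosed_le continuous_const continuous_re)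
      exact (hgd w (hcl hw)).differentiableWithinAt
    · refine ⟨1, by norm_num, 1, ?_⟩
      refine IsBigO.of_bound (2 * C₂) ?_
      rw [eventually_inf_principal]
      refine Eventually.of_forall fun w hw => ?_
      refine (hbd w (le_of_lt hw)).trans ?_
      rw [Real.rpow_one, one_mul, Real.norm_of_nonneg (Real.exp_pos _).le]
      have h1 := Real.add_one_le_exp ‖w‖
      have h2 := norm_nonneg w
      nlinarith
    · refine ⟨2, ?_⟩
      rw [eventually_map]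
      filter_upwards [eventually_ge_atTop (3 / 2 : ℝ)] with x hx
      simp only [hg]
      have hx0 : 0 ≤ ((x : ℂ)).re := by simp; linarith
      rw [norm_mul, hn _ hx0]
      have h1 : ‖(2 + (x : ℂ) : ℂ)‖ ^ (-β) ≤ 1 :=
        Real.rpow_le_one_of_one_le_of_nonpos (by linarith [(h2z _ hx0).1]) (by linarith)
      have hne : (1 / 2 + (x : ℂ) : ℂ) ≠ 1 := by
        intro h
        have := congrArg Complex.re h
        simp at this
        linarith
      have h2 : ‖fz x‖ ≤ 2 := by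
        rw [fz_norm hne]
        have h3 : ‖riemannZeta (1 / 2 + (x : ℂ))‖ ≤ 2 := by
          apply zeta_upper
          simp
          linarith
        have h4 := ratio_le hx0
        calc _ ≤ ‖riemannZeta (1 / 2 + (x : ℂ))‖ * 1 := by gcongr
          _ ≤ 2 := by linarith
      calc ‖fz x‖ * ‖(2 + (x : ℂ) : ℂ)‖ ^ (-β) ≤ 2 * 1 :=
            mul_le_mul h2 h1 (by positivity) (by norm_num)
        _ = 2 := mul_one 2
    · intro x
      simp only [hg]
      have hx0 : 0 ≤ ((x : ℂ) * I).re := by simp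
      rw [norm_mul, hn _ hx0]
      have h1 := hC₁ x
      rw [zero_add] at h1
      have h2 : (1 + |x|) ≤ 2 * ‖(2 + (x : ℂ) * I : ℂ)‖ := by
        have h3 := (h2z _ hx0).1
        have h4 := abs_im_le_norm (2 + (x : ℂ) * I)
        have h5 : (2 + (x : ℂ) * I).im = x := by simp
        rw [h5] at h4
        linarith
      have hp : 0 < ‖(2 + (x : ℂ) * I : ℂ)‖ := by linarith [(h2z _ hx0).1]
      calc ‖fz (x * I)‖ * ‖(2 + (x : ℂ) * I : ℂ)‖ ^ (-β)
          ≤ (C₁ * (1 + |x|) ^ β) * ‖(2 + (x : ℂ) * I : ℂ)‖ ^ (-β) := by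
            gcongr
            exact (fz_line x).trans h1
        _ ≤ (C₁ * (2 * ‖(2 + (x : ℂ) * I : ℂ)‖) ^ β) * ‖(2 + (x : ℂ) * I : ℂ)‖ ^ (-β) := by
            gcongr
        _ = C₁ * 2 ^ β := by
            rw [Real.mul_rpow (by norm_num) hp.le, mul_assoc, mul_assoc, ← Real.rpow_add hp,
              add_neg_cancel, Real.rpow_zero, mul_one]
  refine ⟨max 1 (C₁ * 2 ^ β), le_max_left _ _, fun z hz => ?_⟩
  have h1 := hmain z hz
  simp only [hg] at h1
  rw [norm_mul, hn z hz] at h1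
  have hp : 0 < ‖2 + z‖ := by linarith [(h2z z hz).1]
  have h2 : ‖fz z‖ = (‖fz z‖ * ‖2 + z‖ ^ (-β)) * ‖2 + z‖ ^ β := by
    rw [mul_assoc, ← Real.rpow_add hp, neg_add_cancel, Real.rpow_zero, mul_one]
  rw [h2]
  calc (‖fz z‖ * ‖2 + z‖ ^ (-β)) * ‖2 + z‖ ^ β ≤ (C₁ * 2 ^ β) * ‖2 + z‖ ^ β := by gcongr
    _ ≤ max 1 (C₁ * 2 ^ β) * (2 + ‖z‖) ^ β := by
        gcongr
        · exact le_max_right _ _
        · exact (h2z z hz).2

/-- a lower bound at distance `3/2` from the critical line -/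
lemma fz_low2 (y : ℝ) : 1 / 12 ≤ ‖fz ((3 / 2 : ℝ) + y * I)‖ := by
  have hne : (1 / 2 + (((3 / 2 : ℝ) : ℂ) + y * I) : ℂ) ≠ 1 := by
    intro h
    have := congrArg Complex.re h
    norm_num at this
  rw [fz_norm hne]
  have h1 : 1 / 4 ≤ ‖riemannZeta (1 / 2 + (((3 / 2 : ℝ) : ℂ) + y * I))‖ := by
    apply zeta_lower
    norm_num
  have h2 : 1 / 3 ≤ ‖(-1 / 2 + (((3 / 2 : ℝ) : ℂ) + y * I) : ℂ)‖ /
      ‖(3 / 2 + (((3 / 2 : ℝ) : ℂ) + y * I) : ℂ)‖ := by
    have e1 : ‖(-1 / 2 + (((3 / 2 : ℝ) : ℂ) + y * I) : ℂ)‖ ^ 2 = 1 + y ^ 2 := by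
      rw [← normSq_eq_norm_sq, normSq_apply]
      simp
      ring
    have e2 : ‖(3 / 2 + (((3 / 2 : ℝ) : ℂ) + y * I) : ℂ)‖ ^ 2 = 9 + y ^ 2 := by
      rw [← normSq_eq_norm_sq, normSq_apply]
      simp
      ring
    have hp : 0 < ‖(3 / 2 + (((3 / 2 : ℝ) : ℂ) + y * I) : ℂ)‖ := by
      by_contra hcon
      have : ‖(3 / 2 + (((3 / 2 : ℝ) : ℂ) + y * I) : ℂ)‖ = 0 :=
        le_antisymm (not_lt.1 hcon) (norm_nonneg _)
      rw [this] at e2
      nlinarith
    rw [le_div_iff₀ hp]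
    have h3 : ‖(3 / 2 + (((3 / 2 : ℝ) : ℂ) + y * I) : ℂ)‖ ^ 2 ≤
        (3 * ‖(-1 / 2 + (((3 / 2 : ℝ) : ℂ) + y * I) : ℂ)‖) ^ 2 := by
      rw [mul_pow, e1, e2]
      nlinarith [sq_nonneg y]
    have h4 := (pow_le_pow_iff_left₀ hp.le (by positivity) (by norm_num : (2 : ℕ) ≠ 0)).1 h3
    linarith
  calc (1 : ℝ) / 12 = 1 / 4 * (1 / 3) := by norm_num
    _ ≤ _ := by gcongr

end Pool.Agent.NBL
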