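import Mathlib
import Pool.Agent.NBL.Half
import Pool.Agent.NBL.Cond

/-!
# The whole range: step functions and their transforms
-/

set_option autoImplicit false

open MeasureTheory Complex Set Filter Topology
open scoped ENNReal

namespace Pool.Agent.NBL

/-- the characteristic function of `(1/(n+1), 1/n]` -/
noncomputable def chi (n : ℕ) (t : ℝ) : ℂ := ch n t - ch (n + 1) t

lemma adm_chi {n : ℕ} (hn : 0 < n) : Adm (chi n) := by
  have h1 := (adm_ch hn).add ((adm_ch (k := n + 1) (by omega)).mul (-1))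
  refine cast ?_ h1
  congr 1
  funext t
  unfold chi
  ring

/-- the numerator of its transform -/
noncomputable def un (n : ℕ) (s : ℂ) : ℂ := (n : ℂ) ^ (-s) - ((n + 1 : ℕ) : ℂ) ^ (-s)

lemma mellin_chi {n : ℕ} (hn : 0 < n) {s : ℂ} (h0 : 0 < s.re) (h1 : s.re < 1) :
    mellin (chi n) s = un n s / s := by
  set c : ℕ → ℂ := fun k => if k = n then 1 else -1 with hc
  have hs : ∀ k ∈ ({n, n + 1} : Finset ℕ), 0 < k := by
    intro k hk
    rw [Finset.mem_insert, Finset.mem_singleton] at hk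
    omega
  have hne : n ≠ n + 1 := by omega
  have h2 := mellin_sum ({n, n + 1} : Finset ℕ) c (fun k hk => adm_ch (hs k hk)) h0 h1
  rw [Finset.sum_pair hne] at h2
  have hc1 : c n = 1 := by simp [hc]
  have hc2 : c (n + 1) = -1 := by simp [hc]
  have e1 : (fun x => ∑ k ∈ ({n, n + 1} : Finset ℕ), c k * ch k x) = chi n := by
    funext x
    rw [Finset.sum_pair hne, hc1, hc2]
    unfold chi
    ring
  rw [e1, hc1, hc2, ch_mellin hn h0, ch_mellin (by omega) h0] at h2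
  rw [h2]
  unfold un
  ring

/-- step functions -/
noncomputable def Fs (N : ℕ) (b : ℕ → ℂ) (t : ℝ) : ℂ := ∑ n ∈ Finset.Icc 1 N, b n * chi n t

/-- the numerators of their transforms -/
noncomputable def Nm (N : ℕ) (b : ℕ → ℂ) (s : ℂ) : ℂ := ∑ n ∈ Finset.Icc 1 N, b n * un n s

lemma pos_of_mem {N n : ℕ} (h : n ∈ Finset.Icc 1 N) : 0 < n := by
  rw [Finset.mem_Icc] at h
  omega

lemma adm_Fs (N : ℕ) (b : ℕ → ℂ) : Adm (Fs N b) :=
  Adm.sum _ fun n hn => (adm_chi (pos_of_mem hn)).mul (b n)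

lemma mellin_Fs (N : ℕ) (b : ℕ → ℂ) {s : ℂ} (h0 : 0 < s.re) (h1 : s.re < 1) :
    mellin (Fs N b) s = Nm N b s / s := by
  unfold Nm
  have h2 := mellin_sum (Finset.Icc 1 N) b (fun n hn => adm_chi (pos_of_mem hn)) h0 h1
  have e : (fun t => ∑ n ∈ Finset.Icc 1 N, b n * chi n t) = Fs N b := rfl
  rw [e] at h2
  rw [h2, Finset.sum_div]
  refine Finset.sum_congr rfl fun n hn => ?_
  rw [mellin_chi (pos_of_mem hn) h0 h1, mul_div_assoc]

lemma mellin_Hs (N : ℕ) (b : ℕ → ℂ) (t : ℝ) :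
    mellin (Hs b (Finset.Icc 1 N)) (1 / 2 + t * I) =
      -(riemannZeta (1 / 2 + t * I) * (Nm N b (1 / 2 + t * I) / (1 / 2 + t * I))) := by
  have h0 : 0 < (1 / 2 + t * I : ℂ).re := by simp
  have h1 : (1 / 2 + t * I : ℂ).re < 1 := by simp; norm_num
  have h2 := mellin_sum (Finset.Icc 1 N) b (g := fun n t => (h n t : ℂ))
    (fun n hn => adm_h (pos_of_mem hn)) h0 h1
  have e : (fun t => ∑ n ∈ Finset.Icc 1 N, b n * ((h n t : ℝ) : ℂ)) = Hs b (Finset.Icc 1 N) := rfl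
  rw [e] at h2
  rw [h2]
  unfold Nm
  rw [Finset.sum_div, Finset.mul_sum, ← Finset.sum_neg_distrib]
  refine Finset.sum_congr rfl fun n hn => ?_
  rw [mellin_h (pos_of_mem hn)]
  unfold un
  ring

lemma floor_iff {n : ℕ} (hn : 0 < n) {t : ℝ} (ht : 0 < t) :
    t ∈ Ioc (1 / ((n : ℝ) + 1)) (1 / n) ↔ ⌊1 / t⌋₊ = n := by
  have hn0 : (0 : ℝ) < n := by exact_mod_cast hn
  rw [Nat.floor_eq_iff (by positivity), mem_Ioc, div_lt_iff₀ (by positivity), le_div_iff₀ hn0,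
    le_div_iff₀ ht, div_lt_iff₀ ht]
  constructor
  · rintro ⟨h1, h2⟩
    constructor <;> linarith
  · rintro ⟨h1, h2⟩
    constructor <;> linarith

lemma chi_eq {n : ℕ} (hn : 0 < n) {t : ℝ} (ht : 0 < t) :
    chi n t = if ⌊1 / t⌋₊ = n then 1 else 0 := by
  unfold chi
  rw [ch_floor hn ht, ch_floor (by omega) ht]
  by_cases h1 : ⌊1 / t⌋₊ = n
  · rw [if_pos h1, if_pos (by omega), if_neg (by omega)]
    ring
  · rw [if_neg h1]
    by_cases h2 : n ≤ ⌊1 / t⌋₊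
    · rw [if_pos h2, if_pos (by omega)]
      ring
    · rw [if_neg h2, if_neg (by omega)]
      ring

lemma Fs_eq (N : ℕ) (b : ℕ → ℂ) {t : ℝ} (ht : 0 < t) :
    Fs N b t = if ⌊1 / t⌋₊ ∈ Finset.Icc 1 N then b ⌊1 / t⌋₊ else 0 := by
  unfold Fs
  have h1 : ∀ n ∈ Finset.Icc 1 N, b n * chi n t = if n = ⌊1 / t⌋₊ then b n else 0 := by
    intro n hn
    rw [chi_eq (pos_of_mem hn) ht]
    by_cases h2 : ⌊1 / t⌋₊ = n
    · rw [if_pos h2, if_pos h2.symm, mul_one]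
    · rw [if_neg h2, if_neg (fun h => h2 h.symm), mul_zero]
  rw [Finset.sum_congr rfl h1, Finset.sum_ite_eq']

lemma Fs_sq (N : ℕ) (b : ℕ → ℂ) :
    ∫⁻ t in Ioi (0 : ℝ), ‖Fs N b t‖ₑ ^ 2 =
      ENNReal.ofReal (∑ n ∈ Finset.Icc 1 N, ‖b n‖ ^ 2 * (1 / n - 1 / ((n : ℝ) + 1))) := by
  have hpt : ∀ t ∈ Ioi (0 : ℝ), ‖Fs N b t‖ₑ ^ 2 = ∑ n ∈ Finset.Icc 1 N,
      (Ioc (1 / ((n : ℝ) + 1)) (1 / n)).indicator (fun _ => ENNReal.ofReal (‖b n‖ ^ 2)) t := by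
    intro t ht
    have h1 : ∀ n ∈ Finset.Icc 1 N, (Ioc (1 / ((n : ℝ) + 1)) (1 / n)).indicator
        (fun _ => ENNReal.ofReal (‖b n‖ ^ 2)) t =
        if n = ⌊1 / t⌋₊ then ENNReal.ofReal (‖b n‖ ^ 2) else 0 := by
      intro n hn
      by_cases h2 : ⌊1 / t⌋₊ = n
      · rw [if_pos h2.symm, indicator_of_mem ((floor_iff (pos_of_mem hn) ht).2 h2)]
      · rw [if_neg (fun h => h2 h.symm), indicator_of_notMem
          (fun h => h2 ((floor_iff (pos_of_mem hn) ht).1 h))]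
    rw [Finset.sum_congr rfl h1, Finset.sum_ite_eq', Fs_eq N b ht]
    split_ifs with h2
    · exact enorm_sq _
    · simp
  rw [setLIntegral_congr_fun measurableSet_Ioi hpt, lintegral_finsetSum _ fun n _ =>
    measurable_const.indicator measurableSet_Ioc, ENNReal.ofReal_sum_of_nonneg]
  · refine Finset.sum_congr rfl fun n hn => ?_
    have hn0 : (0 : ℝ) < n := by exact_mod_cast pos_of_mem hn
    rw [lintegral_indicator measurableSet_Ioc, setLIntegral_const, Measure.restrict_apply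
      measurableSet_Ioc, ENNReal.ofReal_mul (by positivity)]
    congr 1
    have h3 : Ioc (1 / ((n : ℝ) + 1)) (1 / n) ∩ Ioi 0 = Ioc (1 / ((n : ℝ) + 1)) (1 / n) := by
      rw [inter_eq_left]
      intro t ht
      exact lt_trans (by positivity) ht.1
    rw [h3, Real.volume_Ioc]
  · intro n hn
    have hn0 : (0 : ℝ) < n := by exact_mod_cast pos_of_mem hn
    have h1 : 1 / ((n : ℝ) + 1) ≤ 1 / n := one_div_le_one_div_of_le hn0 (by linarith)
    have : 0 ≤ 1 / (n : ℝ) - 1 / ((n : ℝ) + 1) := by linarith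
    positivity

/-- the shifted step function -/
noncomputable def Fx (N : ℕ) (b : ℕ → ℂ) (x : ℝ) (t : ℝ) : ℂ :=
  (t : ℂ) ^ (-(x : ℂ)) • Fs N b t

lemma Fs_supp {N : ℕ} {b : ℕ → ℂ} {t : ℝ} (ht : 0 < t) (h : Fs N b t ≠ 0) :
    t ≤ 1 ∧ 1 / ((N : ℝ) + 1) ≤ t := by
  rw [Fs_eq N b ht] at h
  by_cases h1 : ⌊1 / t⌋₊ ∈ Finset.Icc 1 N
  · rw [Finset.mem_Icc] at h1
    constructor
    · have h2 : (1 : ℝ) ≤ 1 / t := by
        have h3 := Nat.floor_le (show (0 : ℝ) ≤ 1 / t by positivity)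
        have h4 : (1 : ℝ) ≤ (⌊1 / t⌋₊ : ℝ) := by exact_mod_cast h1.1
        linarith
      rw [le_div_iff₀ ht] at h2
      linarith
    · have h2 := Nat.lt_floor_add_one (1 / t)
      have h3 : (⌊1 / t⌋₊ : ℝ) ≤ N := by exact_mod_cast h1.2
      have h4 : 1 / t ≤ N + 1 := by linarith
      rw [div_le_iff₀ (by positivity)]
      rw [div_le_iff₀ ht] at h4
      linarith
  · rw [if_neg h1] at h
    exact absurd rfl h

lemma adm_Fx (N : ℕ) (b : ℕ → ℂ) {x : ℝ} (hx : 0 ≤ x) : Adm (Fx N b x) := by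
  obtain ⟨hm, M, hM, hb⟩ := adm_Fs N b
  refine ⟨?_, ((N : ℝ) + 1) ^ x * M, by positivity, fun t ht => ?_⟩
  · unfold Fx
    exact ((measurable_ofReal.pow_const _).smul hm)
  · unfold Fx
    by_cases h1 : Fs N b t = 0
    · rw [h1, smul_zero, norm_zero]
      have : (0 : ℝ) ≤ min 1 (1 / t) := le_min zero_le_one (by positivity)
      positivity
    · obtain ⟨h2, h3⟩ := Fs_supp ht h1
      rw [norm_smul, norm_cpow_eq_rpow_re_of_pos ht]
      have e : (-(x : ℂ)).re = -x := by simp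
      rw [e, mul_assoc]
      refine mul_le_mul ?_ (hb t ht) (norm_nonneg _) (by positivity)
      calc t ^ (-x) ≤ (1 / ((N : ℝ) + 1)) ^ (-x) :=
            Real.rpow_le_rpow_of_nonpos (by positivity) h3 (by linarith)
        _ = ((N : ℝ) + 1) ^ x := by
            rw [one_div, Real.inv_rpow (by positivity), Real.rpow_neg (by positivity), inv_inv]

lemma mellin_Fx (N : ℕ) (b : ℕ → ℂ) {x : ℝ} (hx : 0 ≤ x) (hx1 : x < 1 / 2) (y : ℝ) :
    mellin (Fx N b x) (1 / 2 + y * I) =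
      Nm N b (1 / 2 - x + y * I) / (1 / 2 - x + y * I) := by
  unfold Fx
  rw [mellin_cpow_smul]
  have e : (1 / 2 + y * I + -(x : ℂ) : ℂ) = 1 / 2 - x + y * I := by ring
  rw [e, mellin_Fs]
  · simp
    linarith
  · simp
    linarith

lemma Fx_sq (N : ℕ) (b : ℕ → ℂ) {x : ℝ} (hx : 0 ≤ x) :
    ENNReal.ofReal (∑ n ∈ Finset.Icc 1 N, ‖b n‖ ^ 2 * (1 / n - 1 / ((n : ℝ) + 1))) ≤
      ∫⁻ t in Ioi (0 : ℝ), ‖Fx N b x t‖ₑ ^ 2 := by
  rw [← Fs_sq]
  refine setLIntegral_mono' measurableSet_Ioi fun t ht => ?_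
  by_cases h1 : Fs N b t = 0
  · rw [h1]
    simp
  · obtain ⟨h2, h3⟩ := Fs_supp ht h1
    rw [enorm_sq, enorm_sq]
    apply ENNReal.ofReal_le_ofReal
    unfold Fx
    rw [norm_smul, norm_cpow_eq_rpow_re_of_pos ht]
    have e : (-(x : ℂ)).re = -x := by simp
    rw [e]
    have h4 : 1 ≤ t ^ (-x) := Real.one_le_rpow_of_pos_of_le_one_of_nonpos ht h2 (by linarith)
    apply pow_le_pow_left₀ (norm_nonneg _)
    exact le_mul_of_one_le_left (norm_nonneg _) h4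

/-- the function in the left half-plane -/
noncomputable def qf (N : ℕ) (b : ℕ → ℂ) (z : ℂ) : ℂ :=
  Nm N b (1 / 2 + z) * ((N + 1 : ℕ) : ℂ) ^ z / (1 / 2 - z)

lemma un_diff {n : ℕ} (hn : 0 < n) (s : ℂ) : DifferentiableAt ℂ (un n) s := by
  unfold un
  have h1 : (n : ℂ) ≠ 0 := by exact_mod_cast hn.ne'
  have h2 : ((n + 1 : ℕ) : ℂ) ≠ 0 := by exact_mod_cast (Nat.succ_ne_zero n)
  refine DifferentiableAt.sub ?_ ?_
  · exact (differentiableAt_id.neg).const_cpow (Or.inl h1)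
  · exact (differentiableAt_id.neg).const_cpow (Or.inl h2)

lemma Nm_diff (N : ℕ) (b : ℕ → ℂ) (s : ℂ) : DifferentiableAt ℂ (Nm N b) s := by
  unfold Nm
  exact DifferentiableAt.fun_sum fun n hn => (un_diff (pos_of_mem hn) s).const_mul (b n)

lemma qf_diff (N : ℕ) (b : ℕ → ℂ) {z : ℂ} (hz : z.re ≤ 0) : DifferentiableAt ℂ (qf N b) z := by
  unfold qf
  have h1 : ((N + 1 : ℕ) : ℂ) ≠ 0 := by exact_mod_cast (Nat.succ_ne_zero N)
  have h2 : (1 / 2 - z : ℂ) ≠ 0 := by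
    intro h
    have := congrArg Complex.re h
    simp at this
    linarith
  refine DifferentiableAt.div ?_ (by fun_prop) h2
  refine DifferentiableAt.mul ?_ (differentiableAt_id.const_cpow (Or.inl h1))
  exact (Nm_diff N b (1 / 2 + z)).comp z (by fun_prop)

lemma term_le {k M : ℕ} (hk : 0 < k) (hkM : k ≤ M) {z : ℂ} (hz : z.re ≤ 0) :
    ‖(k : ℂ) ^ (-(1 / 2 + z)) * (M : ℂ) ^ z‖ ≤ 1 := by
  have hk0 : (0 : ℝ) < k := by exact_mod_cast hk
  have hk1 : (1 : ℝ) ≤ k := by exact_mod_cast hk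
  have hM0 : (0 : ℝ) < M := by
    have : 0 < M := by omega
    exact_mod_cast this
  have hkM' : (k : ℝ) ≤ M := by exact_mod_cast hkM
  rw [norm_mul, norm_natCast_cpow_of_pos hk, norm_natCast_cpow_of_pos (by omega)]
  have e : (-(1 / 2 + z)).re = -(1 / 2) + -z.re := by
    simp
    ring
  rw [e, Real.rpow_add hk0]
  have h1 : (k : ℝ) ^ (-(1 / 2) : ℝ) ≤ 1 := Real.rpow_le_one_of_one_le_of_nonpos hk1 (by norm_num)
  have h2 : (k : ℝ) ^ (-z.re) * (M : ℝ) ^ z.re ≤ 1 := by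
    calc (k : ℝ) ^ (-z.re) * (M : ℝ) ^ z.re ≤ (M : ℝ) ^ (-z.re) * (M : ℝ) ^ z.re := by
          gcongr
          linarith
      _ = 1 := by rw [← Real.rpow_add hM0, neg_add_cancel, Real.rpow_zero]
  calc (k : ℝ) ^ (-(1 / 2) : ℝ) * (k : ℝ) ^ (-z.re) * (M : ℝ) ^ z.re
      = (k : ℝ) ^ (-(1 / 2) : ℝ) * ((k : ℝ) ^ (-z.re) * (M : ℝ) ^ z.re) := by ring
    _ ≤ 1 * 1 := mul_le_mul h1 h2 (by positivity) zero_le_one
    _ = 1 := one_mul 1

lemma qf_bound (N : ℕ) (b : ℕ → ℂ) {z : ℂ} (hz : z.re ≤ 0) :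
    ‖qf N b z‖ ≤ 4 * ∑ n ∈ Finset.Icc 1 N, ‖b n‖ := by
  unfold qf Nm
  rw [norm_div, Finset.sum_mul]
  have h1 : 1 / 2 ≤ ‖(1 / 2 - z : ℂ)‖ := by
    have h2 := abs_re_le_norm (1 / 2 - z : ℂ)
    have h3 : (1 / 2 - z : ℂ).re = 1 / 2 - z.re := by simp
    rw [h3, abs_of_nonneg (by linarith)] at h2
    linarith
  have h4 : ‖∑ n ∈ Finset.Icc 1 N, b n * un n (1 / 2 + z) * ((N + 1 : ℕ) : ℂ) ^ z‖ ≤
      2 * ∑ n ∈ Finset.Icc 1 N, ‖b n‖ := by
    rw [Finset.mul_sum]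
    refine (norm_sum_le _ _).trans (Finset.sum_le_sum fun n hn => ?_)
    rw [Finset.mem_Icc] at hn
    have e : b n * un n (1 / 2 + z) * ((N + 1 : ℕ) : ℂ) ^ z =
        b n * ((n : ℂ) ^ (-(1 / 2 + z)) * ((N + 1 : ℕ) : ℂ) ^ z -
          ((n + 1 : ℕ) : ℂ) ^ (-(1 / 2 + z)) * ((N + 1 : ℕ) : ℂ) ^ z) := by
      unfold un
      ring
    rw [e, norm_mul, mul_comm 2]
    refine mul_le_mul_of_nonneg_left ?_ (norm_nonneg _)
    refine (norm_sub_le _ _).trans ?_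
    have h5 := term_le (k := n) (M := N + 1) (by omega) (by omega) hz
    have h6 := term_le (k := n + 1) (M := N + 1) (by omega) (by omega) hz
    linarith
  have hS : 0 ≤ ∑ n ∈ Finset.Icc 1 N, ‖b n‖ := Finset.sum_nonneg fun _ _ => norm_nonneg _
  rw [div_le_iff₀ (by linarith)]
  nlinarith

lemma qf_line (N : ℕ) (b : ℕ → ℂ) (t : ℝ) :
    ‖qf N b (t * I)‖ = ‖Nm N b (1 / 2 + t * I) / (1 / 2 + t * I)‖ := by
  unfold qf
  rw [norm_div, norm_mul, norm_natCast_cpow_of_pos (by omega), norm_div]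
  have e1 : ((t : ℂ) * I).re = 0 := by simp
  have e2 : ‖(1 / 2 - t * I : ℂ)‖ = ‖(1 / 2 + t * I : ℂ)‖ := by
    have h1 : ‖(1 / 2 - t * I : ℂ)‖ ^ 2 = ‖(1 / 2 + t * I : ℂ)‖ ^ 2 := by
      rw [← normSq_eq_norm_sq, ← normSq_eq_norm_sq, normSq_apply, normSq_apply]
      simp
    exact (pow_left_inj₀ (norm_nonneg _) (norm_nonneg _) (by norm_num)).1 h1
  rw [e1, Real.rpow_zero, mul_one, e2]

lemma qf_left (N : ℕ) (b : ℕ → ℂ) {x : ℝ} (hx : 0 ≤ x) (hx1 : x ≤ 1 / 4) (y : ℝ) :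
    ‖Nm N b (1 / 2 - x + y * I) / (1 / 2 - x + y * I)‖ ≤
      3 * ((N : ℝ) + 1) ^ x * ‖qf N b (-x + y * I)‖ := by
  unfold qf
  have e0 : (1 / 2 + (-x + y * I) : ℂ) = 1 / 2 - x + y * I := by ring
  rw [e0, norm_div, norm_div, norm_mul, norm_natCast_cpow_of_pos (by omega)]
  have e1 : (-(x : ℂ) + y * I).re = -x := by simp
  have e2 : (1 / 2 - (-(x : ℂ) + y * I) : ℂ) = 1 / 2 + x - y * I := by ring
  rw [e1, e2]
  have h1 : ‖(1 / 2 + x - y * I : ℂ)‖ ^ 2 = (1 / 2 + x) ^ 2 + y ^ 2 := by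
    rw [← normSq_eq_norm_sq, normSq_apply]
    simp
    ring
  have h2 : ‖(1 / 2 - x + y * I : ℂ)‖ ^ 2 = (1 / 2 - x) ^ 2 + y ^ 2 := by
    rw [← normSq_eq_norm_sq, normSq_apply]
    simp
    ring
  have hp1 : 0 < ‖(1 / 2 + x - y * I : ℂ)‖ := by
    by_contra hcon
    have : ‖(1 / 2 + x - y * I : ℂ)‖ = 0 := le_antisymm (not_lt.1 hcon) (norm_nonneg _)
    rw [this] at h1
    nlinarith [sq_nonneg y]
  have hp2 : 0 < ‖(1 / 2 - x + y * I : ℂ)‖ := by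
    by_contra hcon
    have : ‖(1 / 2 - x + y * I : ℂ)‖ = 0 := le_antisymm (not_lt.1 hcon) (norm_nonneg _)
    rw [this] at h2
    nlinarith [sq_nonneg y]
  have h3 : ‖(1 / 2 + x - y * I : ℂ)‖ ≤ 3 * ‖(1 / 2 - x + y * I : ℂ)‖ := by
    have h4 : ‖(1 / 2 + x - y * I : ℂ)‖ ^ 2 ≤ (3 * ‖(1 / 2 - x + y * I : ℂ)‖) ^ 2 := by
      rw [mul_pow, h1, h2]
      nlinarith [sq_nonneg y]
    exact (pow_le_pow_iff_left₀ hp1.le (by positivity) (by norm_num : (2 : ℕ) ≠ 0)).1 h4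
  have hN : (0 : ℝ) < (N : ℝ) + 1 := by positivity
  have e3 : ((N + 1 : ℕ) : ℝ) = (N : ℝ) + 1 := by push_cast; ring
  rw [e3]
  have h5 : ((N : ℝ) + 1) ^ x * ((N : ℝ) + 1) ^ (-x) = 1 := by
    rw [← Real.rpow_add hN, add_neg_cancel, Real.rpow_zero]
  have hA := norm_nonneg (Nm N b (1 / 2 - x + y * I))
  rw [div_le_iff₀ hp2]
  calc ‖Nm N b (1 / 2 - x + y * I)‖
      = ‖Nm N b (1 / 2 - x + y * I)‖ * (((N : ℝ) + 1) ^ x * ((N : ℝ) + 1) ^ (-x)) *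
          (‖(1 / 2 + x - y * I : ℂ)‖ / ‖(1 / 2 + x - y * I : ℂ)‖) := by
        rw [h5, div_self hp1.ne']
        ring
    _ ≤ ‖Nm N b (1 / 2 - x + y * I)‖ * (((N : ℝ) + 1) ^ x * ((N : ℝ) + 1) ^ (-x)) *
          (3 * ‖(1 / 2 - x + y * I : ℂ)‖ / ‖(1 / 2 + x - y * I : ℂ)‖) := by
        gcongr
    _ = _ := by ring

end Pool.Agent.NBL
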