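import Mathlib
import Pool.Agent.NBL.GDef

/-!
# The pointwise inequality
-/

set_option autoImplicit false

open MeasureTheory Complex Set Filter Topology
open Pool.Agent.Lib.TwoConst Pool.Agent.Lib.ZetaLine Pool.Agent.Lib.ThickFailure
open scoped ENNReal

namespace Pool.Agent.NBL

/-- Jensen's inequality for the truncated Poisson measure -/
lemma jensen_w {L x' : ℝ} (hL : 0 < L) (hx : 0 < x') {w : ℝ → ℝ} (hw : Continuous w) {w₀ : ℝ}
    (hw₀ : 0 < w₀) (hww : ∀ t, w₀ ≤ w t) (hm : 1 / 2 ≤ 1 / Real.pi * ∫ t in (-L)..L, P x' 0 t) :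
    1 / Real.pi * ∫ t in (-L)..L, Real.log (w t) * P x' 0 t ≤
      Real.log (1 / Real.pi * ∫ t in (-L)..L, w t * P x' 0 t) + Real.log 2 -
        (1 - 1 / Real.pi * ∫ t in (-L)..L, P x' 0 t) * Real.log w₀ := by
  have hpi := Real.pi_pos
  have hPc := continuous_P hx 0
  set m : ℝ := 1 / Real.pi * ∫ t in (-L)..L, P x' 0 t with hmd
  set W : ℝ := 1 / Real.pi * ∫ t in (-L)..L, w t * P x' 0 t with hWd
  have hm0 : 0 < m := by linarith
  have hm1 : m ≤ 1 := by
    rw [hmd]
    have := integral_P_le hx 0 (-L) L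
    rw [one_div_mul_eq_div, div_le_one hpi]
    exact this
  have hWm : w₀ * m ≤ W := by
    rw [hmd, hWd]
    have h1 : ∫ t in (-L)..L, w₀ * P x' 0 t ≤ ∫ t in (-L)..L, w t * P x' 0 t := by
      apply intervalIntegral.integral_mono_on (by linarith)
      · exact (continuous_const.mul hPc).intervalIntegrable _ _
      · exact (hw.mul hPc).intervalIntegrable _ _
      · intro t _
        exact mul_le_mul_of_nonneg_right (hww t) (P_nonneg hx.le 0 t)
    rw [intervalIntegral.integral_const_mul] at h1
    calc w₀ * (1 / Real.pi * ∫ t in (-L)..L, P x' 0 t) =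
          1 / Real.pi * (w₀ * ∫ t in (-L)..L, P x' 0 t) := by ring
      _ ≤ _ := mul_le_mul_of_nonneg_left h1 (by positivity)
  have hW0 : 0 < W := lt_of_lt_of_le (by positivity) hWm
  set θ : ℝ := W / m with hθ
  have hθ0 : 0 < θ := by positivity
  have hθw : w₀ ≤ θ := by rw [hθ, le_div_iff₀ hm0]; exact hWm
  have hlc : Continuous fun t => Real.log (w t) :=
    Continuous.log hw fun t => (lt_of_lt_of_le hw₀ (hww t)).ne'
  have h1 : ∫ t in (-L)..L, Real.log (w t) * P x' 0 t ≤
      ∫ t in (-L)..L, ((Real.log θ - 1) * P x' 0 t + 1 / θ * (w t * P x' 0 t)) := by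
    apply intervalIntegral.integral_mono_on (by linarith)
    · exact (hlc.mul hPc).intervalIntegrable _ _
    · exact ((continuous_const.mul hPc).add
        (continuous_const.mul (hw.mul hPc))).intervalIntegrable _ _
    · intro t _
      have hwt : 0 < w t := lt_of_lt_of_le hw₀ (hww t)
      have h2 := Real.log_le_sub_one_of_pos (show 0 < w t / θ by positivity)
      rw [Real.log_div hwt.ne' hθ0.ne'] at h2
      have h3 : Real.log (w t) ≤ Real.log θ - 1 + 1 / θ * w t := by
        have : 1 / θ * w t = w t / θ := by ring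
        linarith
      calc Real.log (w t) * P x' 0 t ≤ (Real.log θ - 1 + 1 / θ * w t) * P x' 0 t :=
            mul_le_mul_of_nonneg_right h3 (P_nonneg hx.le 0 t)
        _ = _ := by ring
  rw [intervalIntegral.integral_add, intervalIntegral.integral_const_mul,
    intervalIntegral.integral_const_mul] at h1
  rotate_left
  · exact (continuous_const.mul hPc).intervalIntegrable _ _
  · exact (continuous_const.mul (hw.mul hPc)).intervalIntegrable _ _
  have h4 : 1 / Real.pi * ∫ t in (-L)..L, Real.log (w t) * P x' 0 t ≤ m * Real.log θ := by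
    calc 1 / Real.pi * ∫ t in (-L)..L, Real.log (w t) * P x' 0 t
        ≤ 1 / Real.pi * ((Real.log θ - 1) * (∫ t in (-L)..L, P x' 0 t) +
            1 / θ * ∫ t in (-L)..L, w t * P x' 0 t) :=
          mul_le_mul_of_nonneg_left h1 (by positivity)
      _ = (Real.log θ - 1) * m + 1 / θ * W := by rw [hmd, hWd]; ring
      _ = m * Real.log θ := by
          have : 1 / θ * W = m := by
            rw [hθ]
            field_simp
          rw [this]
          ring
  refine h4.trans ?_
  have h5 : Real.log w₀ ≤ Real.log θ := Real.log_le_log hw₀ hθw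
  have h6 : Real.log θ ≤ Real.log W + Real.log 2 := by
    rw [← Real.log_mul hW0.ne' (by norm_num)]
    apply Real.log_le_log hθ0
    rw [hθ, div_le_iff₀ hm0]
    nlinarith
  nlinarith

lemma P_two {x x' : ℝ} (hx : 0 < x) (h1 : x ≤ x') (h2 : x' ≤ 2 * x) (t : ℝ) :
    P x' 0 t ≤ 2 * P x 0 t := by
  have hx' : 0 < x' := by linarith
  unfold P
  rw [← mul_div_assoc, div_le_div_iff₀ (by positivity) (by positivity)]
  have h3 : x' * x ^ 2 ≤ 2 * x * x' ^ 2 := by
    have := mul_nonneg (mul_nonneg hx'.le hx.le) (by linarith : 0 ≤ 2 * x' - x)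
    nlinarith
  have h4 : x' * (0 - t) ^ 2 ≤ 2 * x * (0 - t) ^ 2 := mul_le_mul_of_nonneg_right h2 (sq_nonneg _)
  nlinarith

lemma P_far {x x' X : ℝ} (hx : 0 < x) (hx4 : x ≤ 1 / 4) (h1 : x ≤ x') (h2 : x' ≤ 2 * x)
    (h3 : 3 / 2 ≤ X) (h4 : X ≤ 5 / 2) (t : ℝ) : P x' 0 t ≤ 5 / (2 * x) * P X 0 t := by
  unfold P
  have hx' : 0 < x' := by linarith
  have hX : 0 < X := by linarith
  rw [← mul_div_assoc, div_le_div_iff₀ (by positivity) (by positivity)]
  have e : 5 / (2 * x) * X * (x' ^ 2 + (0 - t) ^ 2) =
      X / x * (5 / 2) * (x' ^ 2 + (0 - t) ^ 2) := by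
    field_simp
  rw [e]
  have h5 : 1 ≤ X / x := by
    rw [le_div_iff₀ hx]
    linarith
  have h6 : X * x' ≤ X / x * (x' ^ 2) := by
    rw [div_mul_eq_mul_div, le_div_iff₀ hx]
    nlinarith [mul_nonneg hX.le (mul_nonneg hx'.le (sub_nonneg.2 h1))]
  have h7 : x' * X ^ 2 ≤ X / x * (5 / 2) * x' ^ 2 := by
    calc x' * X ^ 2 = (X * x') * X := by ring
      _ ≤ (X / x * x' ^ 2) * (5 / 2) := mul_le_mul h6 h4 hX.le (by positivity)
      _ = _ := by ring
  have h8 : x' * (0 - t) ^ 2 ≤ X / x * (5 / 2) * (0 - t) ^ 2 := by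
    apply mul_le_mul_of_nonneg_right _ (sq_nonneg _)
    nlinarith
  nlinarith

/-- the pointwise inequality -/
lemma pointwise {N : ℕ} {b : ℕ → ℂ} {x y κ L K Mu Mv P₀ P₁ P₂ : ℝ} (hx : 0 < x)
    (hx4 : x ≤ 1 / 4) (hκ : 0 < κ) (hκ2 : κ ≤ 1 / 2) (hL : 0 < L)
    (hK : 2 * L / (Real.pi * (K - L)) ≤ κ) (hLK : L < K) (hK2 : 3 / 2 < K) (hxL : 2 * x / L ≤ κ)
    (hMu : 1 ≤ Mu) (hMv : 1 ≤ Mv) (hP₀ : 0 < P₀) (hP₁ : 0 < P₁) (hP₂ : 0 < P₂) (hP₂1 : P₂ ≤ 1)
    (h02 : Mu * P₀ ≤ P₂) (h12 : Mv * P₁ ≤ P₂) (hP₀v : P₀ < Mv) (hP₁u : P₁ < Mu)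
    (hv : ∀ z : ℂ, z.re ≤ 0 → ‖qf N b z‖ ≤ Mv)
    (hu : ∀ z : ℂ, 0 ≤ z.re → z.re ≤ K → |z.im| ≤ K → ‖fz (z + y * I)‖ ≤ Mu) :
    ‖qf N b (-x + y * I)‖ ^ 2 ≤
      2 * Real.exp (2 * (κ * Real.log Mv + κ * (Real.log Mv - Real.log P₀) +
        5 / (2 * x) * (Real.log 12 + Real.log Mu + κ * (Real.log Mu - Real.log P₁))) -
        2 * κ * Real.log P₂) *
      (2 / Real.pi * (∫ t in (-L)..L, (‖fz (((y - t : ℝ) : ℂ) * I)‖ *
        ‖qf N b (((y - t : ℝ) : ℂ) * I)‖) ^ 2 * P x 0 t) + 2 * P₂ ^ 2) := by
  have hpi := Real.pi_pos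
  have hlMu : 0 ≤ Real.log Mu := Real.log_nonneg hMu
  have hlMv : 0 ≤ Real.log Mv := Real.log_nonneg hMv
  have hlP2 : Real.log P₂ ≤ 0 := Real.log_nonpos hP₂.le hP₂1
  set u : ℝ → ℝ := fun t => ‖fz (((y - t : ℝ) : ℂ) * I)‖ with hud
  set v : ℝ → ℝ := fun t => ‖qf N b (((y - t : ℝ) : ℂ) * I)‖ with hvd
  have huc : Continuous u := (fz_cont.comp (continuous_const.sub continuous_id)).norm
  have hqc : Continuous fun t : ℝ => qf N b (t * I) := by
    rw [continuous_iff_continuousAt]
    intro t
    have h1 : ContinuousAt (qf N b) (t * I) := (qf_diff N b (by simp)).continuousAt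
    exact ContinuousAt.comp (f := fun t : ℝ => (t * I : ℂ)) h1 (by fun_prop)
  have hvc : Continuous v := (hqc.comp (continuous_const.sub continuous_id)).norm
  have hu0 : ∀ t, 0 ≤ u t := fun t => norm_nonneg _
  have hv0 : ∀ t, 0 ≤ v t := fun t => norm_nonneg _
  have hvM : ∀ t, v t ≤ Mv := fun t => hv _ (by simp)
  -- Jensen for the Dirichlet polynomial, on the left
  obtain ⟨x₀, hx₀, hx₀a, h1⟩ := jen (f := fun z => qf N b (y * I - z)) (L := L) (K := K) (κ := κ)
    (a := x) (M₀ := Mv) (P₀ := P₀) hL hκ hx hK hLK hP₀ hP₀v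
    (by
      have : (fun t : ℝ => qf N b (y * I - t * I)) = fun t : ℝ => qf N b (((y - t : ℝ) : ℂ) * I) := by
        funext t
        congr 1
        push_cast
        ring
      rw [this]
      exact hqc.comp (continuous_const.sub continuous_id))
    (fun z hz _ _ => by
      have h2 : DifferentiableAt ℂ (qf N b) (y * I - z) := qf_diff N b (by simp; linarith)
      exact DifferentiableAt.comp (g := qf N b) (f := fun z : ℂ => y * I - z) z h2 (by fun_prop))
    (fun z hz _ _ => hv _ (by simp; linarith))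
  have h1x := h1 x hx (by linarith)
  -- Jensen for zeta
  obtain ⟨x₁, hx₁, hx₁a, h2⟩ := jen (f := fun z => fz (z + y * I)) (L := L) (K := K) (κ := κ)
    (a := 1) (M₀ := Mu) (P₀ := P₁) hL hκ one_pos hK hLK hP₁ hP₁u
    (by
      have : (fun t : ℝ => fz (t * I + y * I)) = fun t : ℝ => fz (((y + t : ℝ) : ℂ) * I) := by
        funext t
        congr 1
        push_cast
        ring
      rw [this]
      exact fz_cont.comp (continuous_const.add continuous_id))
    (fun z hz _ _ => by
      have h3 : DifferentiableAt ℂ fz (z + y * I) := fz_diff (by simp; linarith)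
      exact DifferentiableAt.comp (g := fz) (f := fun z : ℂ => z + y * I) z h3 (by fun_prop))
    hu
  have h2x := h2 (3 / 2) (by norm_num) hK2
  set x' : ℝ := x + x₀ with hx'
  set X : ℝ := 3 / 2 + x₁ with hXd
  have hx'0 : 0 < x' := by linarith
  have hX0 : 0 < X := by linarith
  have hPc := continuous_P hx'0 0
  have hPXc := continuous_P hX0 0
  have hPc1 := continuous_P hx 0
  -- the mass
  set m : ℝ := 1 / Real.pi * ∫ t in (-L)..L, P x' 0 t with hmd
  have hm : 1 - κ ≤ m := by
    have h3 := IP_ge hx'0 hL (κ := κ) (by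
      refine le_trans ?_ hxL
      gcongr
      linarith)
    rw [hmd, one_div_mul_eq_div, le_div_iff₀ hpi]
    linarith
  have hm1 : m ≤ 1 := by
    rw [hmd, one_div_mul_eq_div, div_le_one hpi]
    exact integral_P_le hx'0 0 (-L) L
  -- the zeta integral
  set H : ℝ := 1 / Real.pi * ∫ t in (-L)..L, (Real.log Mu - Real.log (max (u t) P₁)) * P X 0 t with hH
  have hHle : H ≤ Real.log 12 + Real.log Mu + κ * (Real.log Mu - Real.log P₁) := by
    have e1 : ∫ t in (-L)..L, (Real.log Mu - Real.log (max ‖fz (t * I + y * I)‖ P₁)) * P X 0 t =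
        ∫ t in (-L)..L, (Real.log Mu - Real.log (max (u t) P₁)) * P X 0 t := by
      have h3 := intervalIntegral.integral_comp_neg (a := -L) (b := L)
        (f := fun t : ℝ => (Real.log Mu - Real.log (max ‖fz (t * I + y * I)‖ P₁)) * P X 0 t)
      rw [neg_neg] at h3
      rw [← h3]
      apply intervalIntegral.integral_congr
      intro t _
      simp only [hud]
      have e2 : (((-t : ℝ) : ℂ) * I + y * I : ℂ) = ((y - t : ℝ) : ℂ) * I := by
        push_cast
        ring
      have e3 : P X 0 (-t) = P X 0 t := by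
        unfold P
        ring
      rw [e2, e3]
    rw [e1] at h2x
    have h3 : 1 / 12 ≤ ‖fz ((3 / 2 : ℝ) + y * I)‖ := fz_low2 y
    have h4 : 1 / 12 * Real.exp H ≤ Mu * Real.exp ((Real.log Mu - Real.log P₁) * κ) :=
      le_trans (mul_le_mul_of_nonneg_right h3 (Real.exp_pos _).le) h2x
    have h5 := Real.log_le_log (by positivity) h4
    rw [Real.log_mul (by norm_num) (Real.exp_pos _).ne', Real.log_exp,
      Real.log_mul (by linarith) (Real.exp_pos _).ne', Real.log_exp, one_div, Real.log_inv] at h5
    linarith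
  -- the comparison
  have hB1 : 1 / Real.pi * ∫ t in (-L)..L, Real.log (max (v t) P₀) * P x' 0 t ≤
      1 / Real.pi * (∫ t in (-L)..L, Real.log (max (u t * v t) P₂) * P x' 0 t) +
        5 / (2 * x) * H := by
    have hlu : Continuous fun t => Real.log Mu - Real.log (max (u t) P₁) :=
      continuous_const.sub (Continuous.log (huc.max continuous_const)
        fun t => (lt_max_of_lt_right hP₁).ne')
    have hlv : Continuous fun t => Real.log (max (v t) P₀) :=
      Continuous.log (hvc.max continuous_const) fun t => (lt_max_of_lt_right hP₀).ne'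
    have hluv : Continuous fun t => Real.log (max (u t * v t) P₂) :=
      Continuous.log ((huc.mul hvc).max continuous_const) fun t => (lt_max_of_lt_right hP₂).ne'
    have h3 : ∫ t in (-L)..L, Real.log (max (v t) P₀) * P x' 0 t ≤
        ∫ t in (-L)..L, (Real.log (max (u t * v t) P₂) * P x' 0 t +
          5 / (2 * x) * ((Real.log Mu - Real.log (max (u t) P₁)) * P X 0 t)) := by
      apply intervalIntegral.integral_mono_on (by linarith)
      · exact (hlv.mul hPc).intervalIntegrable _ _
      · exact ((hluv.mul hPc).add (continuous_const.mul (hlu.mul hPXc))).intervalIntegrable _ _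
      · intro t ht
        have hMt : u t ≤ Mu := by
          have h4 := hu ((-t : ℝ) * I) (by simp) (by simp; linarith) (by
            simp only [mul_im, ofReal_re, I_im, mul_one, ofReal_im, I_re, mul_zero, add_zero,
              abs_neg]
            exact (abs_le.2 ht).trans hLK.le)
          have e2 : (((-t : ℝ) : ℂ) * I + y * I : ℂ) = ((y - t : ℝ) : ℂ) * I := by
            push_cast
            ring
          rw [e2] at h4
          exact h4
        have hd0 : 0 ≤ Real.log Mu - Real.log (max (u t) P₁) := by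
          have := Real.log_le_log (lt_max_of_lt_right hP₁) (max_le hMt hP₁u.le)
          linarith
        have hkey : Real.log (max (v t) P₀) ≤ Real.log (max (u t * v t) P₂) +
            (Real.log Mu - Real.log (max (u t) P₁)) := by
          by_cases hc : P₁ ≤ u t
          · rw [max_eq_left hc]
            have hu1 : 0 < u t := lt_of_lt_of_le hP₁ hc
            have h5 : max (v t) P₀ * u t ≤ max (u t * v t) P₂ := by
              rw [max_mul_of_nonneg _ _ hu1.le]
              apply max_le_max
              · exact le_of_eq (mul_comm _ _)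
              · refine le_trans ?_ h02
                rw [mul_comm]
                exact mul_le_mul_of_nonneg_right hMt hP₀.le
            have h6 := Real.log_le_log (mul_pos (lt_max_of_lt_right hP₀) hu1) h5
            rw [Real.log_mul (lt_max_of_lt_right hP₀).ne' hu1.ne'] at h6
            linarith
          · rw [not_le] at hc
            rw [max_eq_right hc.le]
            have h5 : Real.log (max (v t) P₀) ≤ Real.log Mv :=
              Real.log_le_log (lt_max_of_lt_right hP₀) (max_le (hvM t) hP₀v.le)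
            have h6 : Real.log P₂ ≤ Real.log (max (u t * v t) P₂) :=
              Real.log_le_log hP₂ (le_max_right _ _)
            have h7 := Real.log_le_log (by positivity) h12
            rw [Real.log_mul (by linarith) hP₁.ne'] at h7
            linarith
        have h8 := P_far hx hx4 (x' := x') (by linarith) (by linarith) (X := X) (by linarith)
          (by linarith) t
        calc Real.log (max (v t) P₀) * P x' 0 t
            ≤ (Real.log (max (u t * v t) P₂) + (Real.log Mu - Real.log (max (u t) P₁))) *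
                P x' 0 t := mul_le_mul_of_nonneg_right hkey (P_nonneg hx'0.le 0 t)
          _ = Real.log (max (u t * v t) P₂) * P x' 0 t +
                (Real.log Mu - Real.log (max (u t) P₁)) * P x' 0 t := by ring
          _ ≤ Real.log (max (u t * v t) P₂) * P x' 0 t +
                (Real.log Mu - Real.log (max (u t) P₁)) * (5 / (2 * x) * P X 0 t) := by
              gcongr
          _ = _ := by ring
    rw [intervalIntegral.integral_add, intervalIntegral.integral_const_mul] at h3
    rotate_left
    · exact (hluv.mul hPc).intervalIntegrable _ _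
    · exact (continuous_const.mul (hlu.mul hPXc)).intervalIntegrable _ _
    calc _ ≤ 1 / Real.pi * ((∫ t in (-L)..L, Real.log (max (u t * v t) P₂) * P x' 0 t) +
          5 / (2 * x) * ∫ t in (-L)..L, (Real.log Mu - Real.log (max (u t) P₁)) * P X 0 t) :=
          mul_le_mul_of_nonneg_left h3 (by positivity)
      _ = _ := by rw [hH]; ring
  -- Jensen for the product
  set W : ℝ := 1 / Real.pi * ∫ t in (-L)..L, (max (u t * v t) P₂) ^ 2 * P x' 0 t with hW
  have hwc : Continuous fun t => (max (u t * v t) P₂) ^ 2 :=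
    ((huc.mul hvc).max continuous_const).pow 2
  have hww : ∀ t, P₂ ^ 2 ≤ (max (u t * v t) P₂) ^ 2 := fun t =>
    pow_le_pow_left₀ hP₂.le (le_max_right _ _) 2
  have hJ := jensen_w hL hx'0 hwc (w₀ := P₂ ^ 2) (by positivity) hww (by
    rw [← hmd]
    linarith)
  rw [← hmd, ← hW] at hJ
  have hJ2 : 2 * (1 / Real.pi * ∫ t in (-L)..L, Real.log (max (u t * v t) P₂) * P x' 0 t) ≤
      Real.log W + Real.log 2 - 2 * κ * Real.log P₂ := by
    have e1 : ∫ t in (-L)..L, Real.log ((max (u t * v t) P₂) ^ 2) * P x' 0 t =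
        2 * ∫ t in (-L)..L, Real.log (max (u t * v t) P₂) * P x' 0 t := by
      rw [← intervalIntegral.integral_const_mul]
      apply intervalIntegral.integral_congr
      intro t _
      simp only [Real.log_pow]
      push_cast
      ring
    rw [e1, Real.log_pow] at hJ
    push_cast at hJ
    have h3 : (1 - m) * (2 * Real.log P₂) ≥ κ * (2 * Real.log P₂) :=
      mul_le_mul_of_nonpos_right (by linarith) (by linarith)
    linarith
  have hW0 : 0 < W := by
    rw [hW]
    have h3 : ∫ t in (-L)..L, P₂ ^ 2 * P x' 0 t ≤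
        ∫ t in (-L)..L, (max (u t * v t) P₂) ^ 2 * P x' 0 t := by
      apply intervalIntegral.integral_mono_on (by linarith)
      · exact (continuous_const.mul hPc).intervalIntegrable _ _
      · exact (hwc.mul hPc).intervalIntegrable _ _
      · intro t _
        exact mul_le_mul_of_nonneg_right (hww t) (P_nonneg hx'0.le 0 t)
    rw [intervalIntegral.integral_const_mul] at h3
    have h4 : 0 < ∫ t in (-L)..L, P x' 0 t := by
      have h5 : 0 < m := by linarith
      rw [hmd] at h5
      exact pos_of_mul_pos_right h5 (by positivity)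
    have h6 : 0 < P₂ ^ 2 * ∫ t in (-L)..L, P x' 0 t := by positivity
    have h7 : 0 < ∫ t in (-L)..L, (max (u t * v t) P₂) ^ 2 * P x' 0 t := lt_of_lt_of_le h6 h3
    positivity
  have hWle : W ≤ 2 / Real.pi * (∫ t in (-L)..L, (u t * v t) ^ 2 * P x 0 t) + 2 * P₂ ^ 2 := by
    have h3 : ∫ t in (-L)..L, (max (u t * v t) P₂) ^ 2 * P x' 0 t ≤
        ∫ t in (-L)..L, (2 * ((u t * v t) ^ 2 * P x 0 t) + 2 * P₂ ^ 2 * P x 0 t) := by
      apply intervalIntegral.integral_mono_on (by linarith)
      · exact (hwc.mul hPc).intervalIntegrable _ _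
      · exact ((continuous_const.mul (((huc.mul hvc).pow 2).mul hPc1)).add
          (continuous_const.mul hPc1)).intervalIntegrable _ _
      · intro t _
        have h4 : (max (u t * v t) P₂) ^ 2 ≤ (u t * v t) ^ 2 + P₂ ^ 2 := by
          rcases le_total (u t * v t) P₂ with h5 | h5
          · rw [max_eq_right h5]
            nlinarith [sq_nonneg (u t * v t)]
          · rw [max_eq_left h5]
            nlinarith [sq_nonneg P₂]
        have h5 := P_two hx (x' := x') (by linarith) (by linarith) t
        have h6 := P_nonneg hx'0.le 0 t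
        calc (max (u t * v t) P₂) ^ 2 * P x' 0 t ≤ ((u t * v t) ^ 2 + P₂ ^ 2) * (2 * P x 0 t) :=
              mul_le_mul h4 h5 h6 (by positivity)
          _ = _ := by ring
    rw [intervalIntegral.integral_add, intervalIntegral.integral_const_mul,
      intervalIntegral.integral_const_mul] at h3
    rotate_left
    · exact (continuous_const.mul (((huc.mul hvc).pow 2).mul hPc1)).intervalIntegrable _ _
    · exact (continuous_const.mul hPc1).intervalIntegrable _ _
    have h4 := integral_P_le hx 0 (-L) L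
    rw [hW]
    calc 1 / Real.pi * ∫ t in (-L)..L, (max (u t * v t) P₂) ^ 2 * P x' 0 t
        ≤ 1 / Real.pi * (2 * (∫ t in (-L)..L, (u t * v t) ^ 2 * P x 0 t) +
            2 * P₂ ^ 2 * ∫ t in (-L)..L, P x 0 t) := mul_le_mul_of_nonneg_left h3 (by positivity)
      _ ≤ 1 / Real.pi * (2 * (∫ t in (-L)..L, (u t * v t) ^ 2 * P x 0 t) +
            2 * P₂ ^ 2 * Real.pi) := by gcongr
      _ = _ := by
          field_simp
  -- conclusion
  have e0 : (y * I - ((x : ℝ) : ℂ) : ℂ) = -x + y * I := by ring
  simp only [e0] at h1x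
  have hvt : ∀ t : ℝ, ‖qf N b (y * I - t * I)‖ = v t := by
    intro t
    simp only [hvd]
    congr 2
    push_cast
    ring
  simp_rw [hvt] at h1x
  rcases (norm_nonneg (qf N b (-x + y * I))).eq_or_lt with hz | hz
  · rw [← hz]
    have h3 : 0 ≤ 2 / Real.pi * (∫ t in (-L)..L, (u t * v t) ^ 2 * P x 0 t) + 2 * P₂ ^ 2 :=
      hW0.le.trans hWle
    have : (0 : ℝ) ^ 2 = 0 := by norm_num
    rw [this]
    positivity
  · have h3 := Real.log_le_log (by positivity) h1x
    rw [Real.log_mul hz.ne' (Real.exp_pos _).ne', Real.log_exp,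
      Real.log_mul (by linarith) (Real.exp_pos _).ne', Real.log_exp] at h3
    have e1 : 1 / Real.pi * ∫ t in (-L)..L, (Real.log Mv - Real.log (max (v t) P₀)) * P x' 0 t =
        m * Real.log Mv - 1 / Real.pi * ∫ t in (-L)..L, Real.log (max (v t) P₀) * P x' 0 t := by
      have hlv : Continuous fun t => Real.log (max (v t) P₀) :=
        Continuous.log (hvc.max continuous_const) fun t => (lt_max_of_lt_right hP₀).ne'
      have e2 : ∫ t in (-L)..L, (Real.log Mv - Real.log (max (v t) P₀)) * P x' 0 t =
          (∫ t in (-L)..L, Real.log Mv * P x' 0 t) -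
            ∫ t in (-L)..L, Real.log (max (v t) P₀) * P x' 0 t := by
        have h9 := intervalIntegral.integral_sub (μ := volume) (a := -L) (b := L)
          (f := fun t => Real.log Mv * P x' 0 t) (g := fun t => Real.log (max (v t) P₀) * P x' 0 t)
          ((continuous_const.mul hPc).intervalIntegrable _ _)
          ((hlv.mul hPc).intervalIntegrable _ _)
        rw [← h9]
        apply intervalIntegral.integral_congr
        intro t _
        simp only
        ring
      rw [e2, intervalIntegral.integral_const_mul, hmd]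
      ring
    rw [e1] at h3
    set E : ℝ := 2 * (κ * Real.log Mv + κ * (Real.log Mv - Real.log P₀) +
        5 / (2 * x) * (Real.log 12 + Real.log Mu + κ * (Real.log Mu - Real.log P₁))) -
        2 * κ * Real.log P₂ with hE
    have h4 : 5 / (2 * x) * H ≤
        5 / (2 * x) * (Real.log 12 + Real.log Mu + κ * (Real.log Mu - Real.log P₁)) :=
      mul_le_mul_of_nonneg_left hHle (by positivity)
    have h5 : (1 - m) * Real.log Mv ≤ κ * Real.log Mv :=
      mul_le_mul_of_nonneg_right (by linarith) hlMv
    have h6 : 2 * Real.log ‖qf N b (-x + y * I)‖ ≤ Real.log W + Real.log 2 + E := by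
      rw [hE]
      linarith
    have h7 : ‖qf N b (-x + y * I)‖ ^ 2 ≤ 2 * Real.exp E * W := by
      have e3 : ‖qf N b (-x + y * I)‖ ^ 2 =
          Real.exp (2 * Real.log ‖qf N b (-x + y * I)‖) := by
        rw [two_mul, Real.exp_add, Real.exp_log hz]
        ring
      rw [e3]
      calc Real.exp (2 * Real.log ‖qf N b (-x + y * I)‖) ≤
            Real.exp (Real.log W + Real.log 2 + E) := Real.exp_le_exp.2 h6
        _ = 2 * Real.exp E * W := by
            rw [Real.exp_add, Real.exp_add, Real.exp_log hW0, Real.exp_log (by norm_num)]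
            ring
    exact h7.trans (mul_le_mul_of_nonneg_left hWle (by positivity))

end Pool.Agent.NBL
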