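import Mathlib
import Pool.Agent.NBL.Rare2

/-!
# Small values on the critical line have small measure, unconditionally: conclusion
-/

set_option autoImplicit false

open MeasureTheory Complex Set Filter Topology
open Pool.Agent.Lib.TwoConst Pool.Agent.Lib.ZetaLine Pool.Agent.Lib.ThickFailure
open scoped ENNReal

namespace Pool.Agent.NBL

/-- the measure of the set of small values up to height `Λ₀ N` -/
theorem rare_core {C : ℝ} (hC : 1 ≤ C) (hbd : ∀ z : ℂ, 0 ≤ z.re → ‖fz z‖ ≤ C * (2 + ‖z‖))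
    {ε κ Λ₀ : ℝ} {N A : ℕ} (hN2 : 2 ≤ N) (hε : 0 < ε) (hκ : 0 < κ) (hΛ : 1 ≤ Λ₀)
    (hA1 : Λ₀ ≤ A) (hA2 : 2 / κ ≤ A) (hn1 : (10 : ℝ) ≤ (N : ℝ) ^ κ)
    (hn2 : 960 * A / κ ≤ (N : ℝ) ^ (2 * κ)) (hn3 : (4 : ℝ) ≤ (N : ℝ) ^ ε)
    (hDN : C * (2 + 2 * A * (1 + 1 / κ)) ≤ N) (hAN : 3 * (A : ℝ) ≤ N) :
    volume.real (SmallSet N ε (Λ₀ * N)) ≤
      2 * (7 + ε) * κ / ε * (Real.pi * (4 + Λ₀ ^ 2)) * N := by
  have hpi := Real.pi_gt_three
  have hpi2 := Real.pi_lt_d2
  have hA0 : (1 : ℝ) ≤ A := hΛ.trans hA1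
  set D : ℝ := C * (2 + 2 * A * (1 + 1 / κ)) with hD
  have hN' : (2 : ℝ) ≤ N := by exact_mod_cast hN2
  have hN0 : (0 : ℝ) < N := by linarith
  have hlogN : 0 < Real.log N := Real.log_pos (by linarith)
  -- logarithms
  have l1 : Real.log 10 ≤ κ * Real.log N := by
    have := Real.log_le_log (by norm_num) hn1
    rwa [Real.log_rpow hN0] at this
  have l3 : 2 * Real.log 2 ≤ ε * Real.log N := by
    have := Real.log_le_log (by norm_num) hn3
    rw [Real.log_rpow hN0, show (4 : ℝ) = 2 ^ 2 by norm_num, Real.log_pow] at this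
    push_cast at this
    exact this
  have hlog2 : 0 < Real.log 2 := Real.log_pos (by norm_num)
  set L : ℝ := ((A * N : ℕ) : ℝ) with hL
  have hANcast : L = A * N := by rw [hL]; push_cast; ring
  have hL0 : 0 < L := by rw [hANcast]; positivity
  have hNL : (N : ℝ) ≤ L := by rw [hANcast]; nlinarith
  have l2 : 1 + Real.log L ≤ 2 * Real.log N := by
    rw [hANcast, Real.log_mul (by linarith) hN0.ne']
    have h1 := Real.log_le_log (by linarith) hAN
    rw [Real.log_mul (by norm_num) (by linarith)] at h1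
    have h2 : 1 ≤ Real.log 3 := by
      rw [Real.le_log_iff_exp_le (by norm_num)]
      have := Real.exp_one_lt_d9
      linarith
    linarith
  have hq : (N : ℝ) ^ (-(2 * κ)) * (480 * A * (1 + Real.log L)) ≤ κ * Real.log N := by
    have h2 : (N : ℝ) ^ (-(2 * κ)) * (960 * A) ≤ κ := by
      rw [Real.rpow_neg hN0.le, inv_mul_le_iff₀ (by positivity)]
      rw [div_le_iff₀ hκ] at hn2
      linarith
    calc (N : ℝ) ^ (-(2 * κ)) * (480 * A * (1 + Real.log L))
        ≤ (N : ℝ) ^ (-(2 * κ)) * (480 * A * (2 * Real.log N)) := by gcongr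
      _ = ((N : ℝ) ^ (-(2 * κ)) * (960 * A)) * Real.log N := by ring
      _ ≤ κ * Real.log N := mul_le_mul_of_nonneg_right h2 hlogN.le
  -- the box
  set K : ℝ := L * (1 + 1 / κ) with hK
  have hκi : 0 < 1 / κ := by positivity
  have hKL : K - L = L / κ := by rw [hK]; ring
  have hLK : L < K := by
    have : 0 < L / κ := by positivity
    linarith
  have hKκ : 2 * L / (Real.pi * (K - L)) ≤ κ := by
    rw [hKL]
    have e : 2 * L / (Real.pi * (L / κ)) = 2 / Real.pi * κ := by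
      field_simp
    rw [e]
    have : 2 / Real.pi ≤ 1 := by
      rw [div_le_one (by linarith)]
      linarith
    nlinarith
  set M₀ : ℝ := C * (2 + 2 * K) with hM₀
  have hK0 : 0 < K := by linarith
  have hM₀1 : 1 < M₀ := by rw [hM₀]; nlinarith
  have hM₀0 : 0 < M₀ := by linarith
  have hM₀N : M₀ ≤ (N : ℝ) ^ 2 := by
    calc M₀ = C * (2 + 2 * A * (1 + 1 / κ) * N) := by rw [hM₀, hK, hANcast]; ring
      _ ≤ C * (2 * N + 2 * A * (1 + 1 / κ) * N) := by
          have : (2 : ℝ) ≤ 2 * N := by linarith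
          gcongr
      _ = D * N := by rw [hD]; ring
      _ ≤ N * N := mul_le_mul_of_nonneg_right hDN hN0.le
      _ = (N : ℝ) ^ 2 := (pow_two _).symm
  have hlM : Real.log M₀ ≤ 2 * Real.log N := by
    have := Real.log_le_log hM₀0 hM₀N
    rw [Real.log_pow] at this
    push_cast at this
    exact this
  have hlM0 : 0 < Real.log M₀ := Real.log_pos hM₀1
  have hMb : ∀ z : ℂ, 0 ≤ z.re → z.re ≤ K → |z.im| ≤ K → ‖fz z‖ ≤ M₀ := by
    intro z h1 h2 h3
    refine (hbd z h1).trans ?_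
    rw [hM₀]
    have h4 := norm_le_abs_re_add_abs_im z
    rw [abs_of_nonneg h1] at h4
    have h5 : 2 + ‖z‖ ≤ 2 + 2 * K := by linarith
    exact mul_le_mul_of_nonneg_left h5 (by linarith)
  have hP₁ : (N : ℝ) ^ (-ε) ≤ 1 := Real.rpow_le_one_of_one_le_of_nonpos (by linarith) (by linarith)
  obtain ⟨x₀, hx₀, hx₁, h1⟩ := far_point hN2 (L := L) (K := K) (κ := κ) (M₀ := M₀)
    (P₀ := (N : ℝ) ^ (-ε)) hNL hκ hKκ hLK hM₀1 hMb (by positivity) hP₁
  have h2 := far_bound (N := N) (A := A) hN2 (Λ₀ := Λ₀) (κ := κ) (ε := ε) (M₀ := M₀) (x₀ := x₀)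
    hΛ hA1 hκ hA2 hx₀ hx₁ hM₀1 (by linarith)
  have h3 := h2.trans h1
  rw [Real.log_rpow hN0, ← hL] at h3
  set v : ℝ := volume.real (SmallSet N ε (Λ₀ * N)) with hv
  have hv0 : 0 ≤ v := measureReal_nonneg
  set c : ℝ := 1 / (Real.pi * (N * (4 + Λ₀ ^ 2))) with hc
  have hc0 : 0 < c := by positivity
  have h4 : (ε * Real.log N - Real.log 2) * (c * v) ≤ (7 + ε) * κ * Real.log N := by
    have e1 : κ * Real.log M₀ ≤ κ * (2 * Real.log N) := mul_le_mul_of_nonneg_left hlM hκ.le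
    have e2 : (Real.log M₀ - -ε * Real.log N) * κ ≤ (2 * Real.log N - -ε * Real.log N) * κ :=
      mul_le_mul_of_nonneg_right (by linarith) hκ.le
    nlinarith
  have h5 : ε / 2 * Real.log N * (c * v) ≤ (7 + ε) * κ * Real.log N := by
    refine le_trans ?_ h4
    apply mul_le_mul_of_nonneg_right _ (by positivity)
    linarith
  have h6 : ε / 2 * (c * v) ≤ (7 + ε) * κ := by
    have e : ε / 2 * Real.log N * (c * v) = (ε / 2 * (c * v)) * Real.log N := by ring
    rw [e] at h5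
    exact le_of_mul_le_mul_right h5 hlogN
  have h9 : v = (ε / 2 * (c * v)) * (2 / ε * (Real.pi * (N * (4 + Λ₀ ^ 2)))) := by
    rw [hc]
    field_simp
  rw [h9]
  calc (ε / 2 * (c * v)) * (2 / ε * (Real.pi * (N * (4 + Λ₀ ^ 2))))
      ≤ ((7 + ε) * κ) * (2 / ε * (Real.pi * (N * (4 + Λ₀ ^ 2)))) :=
        mul_le_mul_of_nonneg_right h6 (by positivity)
    _ = _ := by
        field_simp

/-- the logarithmic scale -/
noncomputable def kap (N : ℕ) : ℝ := Real.log (Real.log N) / Real.log N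

lemma rpow_kap {N : ℕ} (hN : 0 < Real.log N) (c : ℝ) :
    (N : ℝ) ^ (c * kap N) = (Real.log N) ^ c := by
  have hN0 : (0 : ℝ) < N := by
    by_contra h
    have h1 : (N : ℝ) = 0 := le_antisymm (not_lt.1 h) (Nat.cast_nonneg N)
    rw [h1, Real.log_zero] at hN
    exact lt_irrefl _ hN
  rw [Real.rpow_def_of_pos hN0, Real.rpow_def_of_pos hN]
  congr 1
  unfold kap
  field_simp

/-- unconditionally, `|ζ(1/2 + it)|` is at least `(log N) ^ (-K)` up to height `Λ₀ N` outside a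
set of measure `δ N` -/
theorem rare_log {δ Λ₀ : ℝ} (hδ : 0 < δ) (hΛ : 1 ≤ Λ₀) :
    ∃ K₀ : ℝ, 1 ≤ K₀ ∧ ∃ N₀ : ℕ, ∀ N : ℕ, N₀ ≤ N →
      volume.real (SmallSet N (K₀ * kap N) (Λ₀ * N)) ≤ δ * N := by
  obtain ⟨C, hC, hbd⟩ := fz_bound
  have hpi := Real.pi_gt_three
  have hpi2 := Real.pi_lt_d2
  set K₀ : ℝ := max 1 (16 * Real.pi * (4 + Λ₀ ^ 2) / δ) with hK₀
  have hK1 : 1 ≤ K₀ := le_max_left _ _
  have hK2 : 16 * Real.pi * (4 + Λ₀ ^ 2) / δ ≤ K₀ := le_max_right _ _
  have hK0 : 0 < K₀ := by linarith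
  have t1 : Tendsto (fun N : ℕ => Real.log N) atTop atTop :=
    Real.tendsto_log_atTop.comp tendsto_natCast_atTop_atTop
  have t2 : Tendsto (fun N : ℕ => Real.log (Real.log N)) atTop atTop :=
    Real.tendsto_log_atTop.comp t1
  have e1 := t1.eventually_ge_atTop (3 * (1 + Λ₀))
  have e2 := t2.eventually_ge_atTop 960
  have e3 : ∀ᶠ N : ℕ in atTop, K₀ * Real.log (Real.log N) ≤ Real.log N := by
    have h1 := (Real.isLittleO_log_id_atTop.comp_tendsto t1).def (show 0 < 1 / K₀ by positivity)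
    filter_upwards [h1, t1.eventually_ge_atTop 0, t2.eventually_ge_atTop 0] with N h2 h3 h4
    simp only [Function.comp, id] at h2
    rw [Real.norm_of_nonneg h3, Real.norm_of_nonneg h4] at h2
    calc K₀ * Real.log (Real.log N) ≤ K₀ * (1 / K₀ * Real.log N) :=
          mul_le_mul_of_nonneg_left h2 hK0.le
      _ = Real.log N := by field_simp
  have e4 : ∀ᶠ N : ℕ in atTop, 6 * C * Real.log N ^ 2 ≤ N := by
    have h1 := ((Real.isLittleO_pow_log_id_atTop (n := 2)).comp_tendsto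
      (tendsto_natCast_atTop_atTop (R := ℝ))).def (show 0 < 1 / (6 * C) by positivity)
    filter_upwards [h1] with N h2
    simp only [Function.comp, id] at h2
    rw [Real.norm_of_nonneg (by positivity), Real.norm_of_nonneg (by positivity)] at h2
    calc 6 * C * Real.log N ^ 2 ≤ 6 * C * (1 / (6 * C) * N) :=
          mul_le_mul_of_nonneg_left h2 (by linarith)
      _ = N := by
          have : C ≠ 0 := by linarith
          field_simp
  obtain ⟨N₀, hN₀⟩ := eventually_atTop.1 (e1.and (e2.and (e3.and e4)))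
  refine ⟨K₀, hK1, max N₀ 2, fun N hN => ?_⟩
  obtain ⟨f1, f2, f3, f4⟩ := hN₀ N ((le_max_left _ _).trans hN)
  have hN2 : 2 ≤ N := (le_max_right _ _).trans hN
  have hN' : (2 : ℝ) ≤ N := by exact_mod_cast hN2
  have hN0 : (0 : ℝ) < N := by linarith
  set l : ℝ := Real.log N with hl
  set m : ℝ := Real.log l with hm
  have hl6 : 6 ≤ l := by linarith
  have hl0 : 0 < l := by linarith
  have hm0 : 0 < m := by linarith
  have hκ : 0 < kap N := by
    unfold kap
    exact div_pos hm0 hl0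
  have hκe : kap N = m / l := rfl
  set A : ℕ := ⌈max Λ₀ (2 / kap N)⌉₊ with hAd
  have hA : max Λ₀ (2 / kap N) ≤ (A : ℝ) := Nat.le_ceil _
  have hA1 : Λ₀ ≤ A := (le_max_left _ _).trans hA
  have hA2 : 2 / kap N ≤ A := (le_max_right _ _).trans hA
  have hml : 2 / kap N ≤ l / 3 := by
    rw [hκe, div_div_eq_mul_div, div_le_div_iff₀ hm0 (by norm_num)]
    nlinarith
  have hAl : (A : ℝ) ≤ l := by
    have h1 : (A : ℝ) < max Λ₀ (2 / kap N) + 1 := Nat.ceil_lt_add_one (by positivity)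
    have h2 : max Λ₀ (2 / kap N) ≤ l / 3 := max_le (by linarith) hml
    linarith
  have hA0 : (0 : ℝ) ≤ A := Nat.cast_nonneg A
  have r1 : (N : ℝ) ^ kap N = l := by
    have := rpow_kap (N := N) hl0 1
    rwa [one_mul, Real.rpow_one] at this
  have r2 : (N : ℝ) ^ (2 * kap N) = l ^ 2 := by
    have := rpow_kap (N := N) hl0 2
    rwa [Real.rpow_two] at this
  have r3 : (N : ℝ) ^ (K₀ * kap N) = l ^ K₀ := rpow_kap (N := N) hl0 K₀
  have hl10 : 10 ≤ l := by
    have h1 : Real.exp m = l := Real.exp_log hl0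
    have h2 := Real.add_one_le_exp m
    linarith
  have hκ1 : 1 / kap N ≤ l := by
    rw [hκe, one_div_div, div_le_iff₀ hm0]
    nlinarith
  have hmain := rare_core hC hbd (ε := K₀ * kap N) (κ := kap N) (Λ₀ := Λ₀) (N := N) (A := A) hN2
    (by positivity) hκ hΛ hA1 hA2 (by rw [r1]; exact hl10) (by
      rw [r2, hκe, div_div_eq_mul_div, div_le_iff₀ hm0]
      calc 960 * (A : ℝ) * l ≤ 960 * l * l := by gcongr
        _ = l ^ 2 * 960 := by ring
        _ ≤ l ^ 2 * m := by gcongr) (by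
      rw [r3]
      calc (4 : ℝ) ≤ l := by linarith
        _ = l ^ (1 : ℝ) := (Real.rpow_one l).symm
        _ ≤ l ^ K₀ := Real.rpow_le_rpow_of_exponent_le (by linarith) hK1) (by
      refine le_trans ?_ f4
      calc C * (2 + 2 * A * (1 + 1 / kap N)) ≤ C * (2 + 2 * l * (1 + l)) := by gcongr
        _ ≤ C * (6 * l ^ 2) := by
            apply mul_le_mul_of_nonneg_left _ (by linarith)
            nlinarith
        _ = 6 * C * l ^ 2 := by ring) (by
      refine le_trans ?_ f4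
      nlinarith)
  refine hmain.trans ?_
  have hkk : K₀ * kap N ≤ 1 := by
    rw [hκe, ← mul_div_assoc, div_le_one hl0]
    exact f3
  have h1 : 2 * (7 + K₀ * kap N) * kap N / (K₀ * kap N) ≤ 16 / K₀ := by
    have e : 2 * (7 + K₀ * kap N) * kap N / (K₀ * kap N) = 2 * (7 + K₀ * kap N) / K₀ := by
      field_simp
    rw [e]
    gcongr
    linarith
  have h2 : 16 / K₀ * (Real.pi * (4 + Λ₀ ^ 2)) ≤ δ := by
    rw [div_mul_eq_mul_div, div_le_iff₀ hK0]
    rw [div_le_iff₀ hδ] at hK2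
    linarith
  have h3 : 0 ≤ Real.pi * (4 + Λ₀ ^ 2) := by positivity
  calc 2 * (7 + K₀ * kap N) * kap N / (K₀ * kap N) * (Real.pi * (4 + Λ₀ ^ 2)) * N
      ≤ 16 / K₀ * (Real.pi * (4 + Λ₀ ^ 2)) * N := by gcongr
    _ ≤ δ * N := by gcongr

end Pool.Agent.NBL
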