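import Mathlib
import Pool.Agent.NBL.Adm

/-!
# Diagonalisation of a finite family of functions
-/

set_option autoImplicit false

open MeasureTheory Complex Set Filter Topology
open scoped ENNReal InnerProductSpace ComplexConjugate

namespace Pool.Agent.NBL

lemma int_conj_mul {g h : ℝ → ℂ} (hg : Adm g) (hh : Adm h) :
    Integrable (fun t => conj (g t) * h t) (volume.restrict (Ioi 0)) := by
  have h1 : MemLp (fun t => conj (g t)) 2 (volume.restrict (Ioi 0)) := by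
    have h2 := hg.memLp
    refine MemLp.of_le h2 ?_ ?_
    · exact (continuous_conj.comp_aestronglyMeasurable hg.1.aestronglyMeasurable)
    · exact Eventually.of_forall fun t => by simp
  exact h1.integrable_mul hh.memLp

lemma quad_int {N : ℕ} {g : Fin N → ℝ → ℂ} (hg : ∀ i, Adm (g i)) (a : Fin N → ℂ) :
    ((∫ t in Ioi (0 : ℝ), ‖∑ j, a j * g j t‖ ^ 2 : ℝ) : ℂ) =
      ∑ i, conj (a i) * ∑ j, (∫ t in Ioi (0 : ℝ), conj (g i t) * g j t) * a j := by
  have e1 : ∀ i, conj (a i) * ∑ j, (∫ t in Ioi (0 : ℝ), conj (g i t) * g j t) * a j =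
      ∫ t in Ioi (0 : ℝ), ∑ j, (conj (a i) * a j) * (conj (g i t) * g j t) := by
    intro i
    rw [integral_finsetSum _ fun j _ => (int_conj_mul (hg i) (hg j)).const_mul _, Finset.mul_sum]
    refine Finset.sum_congr rfl fun j _ => ?_
    rw [integral_const_mul]
    ring
  simp_rw [e1]
  have e2 : ((∫ t in Ioi (0 : ℝ), ‖∑ j, a j * g j t‖ ^ 2 : ℝ) : ℂ) =
      ∫ t in Ioi (0 : ℝ), ((‖∑ j, a j * g j t‖ ^ 2 : ℝ) : ℂ) := integral_complex_ofReal.symm
  rw [e2, ← integral_finsetSum]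
  · refine integral_congr_ae (Eventually.of_forall fun t => ?_)
    simp only
    have h2 : ∑ i, ∑ j, (conj (a i) * a j) * (conj (g i t) * g j t) =
        conj (∑ i, a i * g i t) * ∑ j, a j * g j t := by
      rw [map_sum, Finset.sum_mul_sum]
      refine Finset.sum_congr rfl fun i _ => Finset.sum_congr rfl fun j _ => ?_
      rw [map_mul]
      ring
    rw [h2, ← normSq_eq_conj_mul_self, normSq_eq_norm_sq]
  · intro i _
    exact integrable_finsetSum _ fun j _ => (int_conj_mul (hg i) (hg j)).const_mul _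

/-- the quadratic form of a finite family is diagonal in an orthonormal basis -/
theorem spectral {N : ℕ} (g : Fin N → ℝ → ℂ) (hg : ∀ i, Adm (g i)) :
    ∃ (v : OrthonormalBasis (Fin N) ℂ (EuclideanSpace ℂ (Fin N))) (lam : Fin N → ℝ),
      (∀ a : EuclideanSpace ℂ (Fin N), ∫ t in Ioi (0 : ℝ), ‖∑ j, a j * g j t‖ ^ 2 =
        ∑ i, lam i * ‖⟪v i, a⟫_ℂ‖ ^ 2) ∧
      ∑ i, lam i = ∑ j, ∫ t in Ioi (0 : ℝ), ‖g j t‖ ^ 2 := by
  set G : Matrix (Fin N) (Fin N) ℂ :=
    Matrix.of fun i j => ∫ t in Ioi (0 : ℝ), conj (g i t) * g j t with hG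
  have hH : G.IsHermitian := by
    ext i j
    rw [Matrix.conjTranspose_apply, hG, Matrix.of_apply, Matrix.of_apply]
    change conj (∫ t in Ioi (0 : ℝ), conj (g j t) * g i t) = _
    rw [← integral_conj]
    refine integral_congr_ae (Eventually.of_forall fun t => ?_)
    simp only [map_mul, conj_conj]
    ring
  have hT := Matrix.isSymmetric_toEuclideanLin_iff.2 hH
  set T := G.toEuclideanLin with hTd
  have hn : Module.finrank ℂ (EuclideanSpace ℂ (Fin N)) = N := by simp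
  set v := hT.eigenvectorBasis hn with hv
  set lam := hT.eigenvalues hn with hlam
  have hq : ∀ a : EuclideanSpace ℂ (Fin N),
      ((∫ t in Ioi (0 : ℝ), ‖∑ j, a j * g j t‖ ^ 2 : ℝ) : ℂ) = ⟪a, T a⟫_ℂ := by
    intro a
    rw [quad_int hg (fun j => a j), PiLp.inner_apply]
    refine Finset.sum_congr rfl fun i _ => ?_
    have : (T a) i = ∑ j, (∫ t in Ioi (0 : ℝ), conj (g i t) * g j t) * a j := by
      rw [hTd]
      rfl
    rw [this]
    rw [mul_comm]
    rfl
  have hq2 : ∀ a : EuclideanSpace ℂ (Fin N), ∫ t in Ioi (0 : ℝ), ‖∑ j, a j * g j t‖ ^ 2 =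
        ∑ i, lam i * ‖⟪v i, a⟫_ℂ‖ ^ 2 := by
    intro a
    have h1 := hq a
    have h2 : ⟪a, T a⟫_ℂ = ((∑ i, lam i * ‖⟪v i, a⟫_ℂ‖ ^ 2 : ℝ) : ℂ) := by
      rw [← v.sum_inner_mul_inner a (T a)]
      push_cast
      refine Finset.sum_congr rfl fun i _ => ?_
      have h3 : ⟪v i, T a⟫_ℂ = (lam i : ℂ) * ⟪v i, a⟫_ℂ := by
        rw [← hT (v i) a, hv, hT.apply_eigenvectorBasis hn i, inner_smul_left]
        rw [hlam]
        simp
      rw [h3, ← inner_conj_symm a (v i)]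
      have h4 : conj ⟪v i, a⟫_ℂ * ⟪v i, a⟫_ℂ = ((‖⟪v i, a⟫_ℂ‖ ^ 2 : ℝ) : ℂ) := by
        rw [← normSq_eq_conj_mul_self, normSq_eq_norm_sq]
      calc conj ⟪v i, a⟫_ℂ * ((lam i : ℂ) * ⟪v i, a⟫_ℂ) =
            (lam i : ℂ) * (conj ⟪v i, a⟫_ℂ * ⟪v i, a⟫_ℂ) := by ring
        _ = (lam i : ℂ) * (‖⟪v i, a⟫_ℂ‖ : ℂ) ^ 2 := by
            rw [h4]
            push_cast
            rfl
    rw [h2] at h1
    exact_mod_cast h1
  refine ⟨v, lam, hq2, ?_⟩
  have h5 : ∀ j : Fin N, ∫ t in Ioi (0 : ℝ), ‖g j t‖ ^ 2 =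
      ∑ i, lam i * ‖⟪v i, EuclideanSpace.basisFun (Fin N) ℂ j⟫_ℂ‖ ^ 2 := by
    intro j
    rw [← hq2]
    refine integral_congr_ae (Eventually.of_forall fun t => ?_)
    simp only [EuclideanSpace.basisFun_apply, PiLp.single_apply]
    congr 2
    simp
  simp_rw [h5]
  rw [Finset.sum_comm]
  refine Finset.sum_congr rfl fun i _ => ?_
  rw [← Finset.mul_sum]
  have h6 := (EuclideanSpace.basisFun (Fin N) ℂ).sum_sq_norm_inner_left (v i)
  rw [h6, v.norm_eq_one]
  ring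

end Pool.Agent.NBL
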