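import Mathlib
import Pool.Agent.NBL.Spec
import Pool.Agent.NBL.Rare3
import Pool.Agent.NBL.Cond

/-!
# The eigenvalues of the Gram matrices, unconditionally: tools
-/

set_option autoImplicit false

open MeasureTheory Complex Set Filter Topology
open scoped ENNReal InnerProductSpace ComplexConjugate

namespace Pool.Agent.NBL

/-- extension of a vector to a sequence -/
noncomputable def xt (N : ℕ) (a : Fin N → ℂ) (n : ℕ) : ℂ :=
  if h : n - N < N then a ⟨n - N, h⟩ else 0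

lemma xt_sum {N : ℕ} {β : Type*} [AddCommMonoid β] (F : ℕ → ℂ → β) (a : Fin N → ℂ) :
    ∑ n ∈ Finset.Ico N (2 * N), F n (xt N a n) = ∑ i : Fin N, F (N + i) (a i) := by
  rw [Finset.sum_Ico_eq_sum_range, show 2 * N - N = N by omega, Finset.sum_range]
  refine Finset.sum_congr rfl fun i _ => ?_
  have : xt N a (N + i) = a i := by
    unfold xt
    rw [dif_pos (by omega)]
    congr 1
    ext
    simp
  rw [this]

/-- the transforms of the characteristic functions of the intervals `(1/(n+1), 1/n]` -/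
noncomputable def wv (N : ℕ) (t : ℝ) (i : Fin N) : ℂ :=
  (((N + i : ℕ) : ℂ) ^ (-(1 / 2 + t * I)) - ((N + i + 1 : ℕ) : ℂ) ^ (-(1 / 2 + t * I))) /
    (1 / 2 + t * I)

lemma Dp_wv {N : ℕ} (hN : 1 ≤ N) (a : Fin N → ℂ) (t : ℝ) :
    Dp (Finset.Icc N (2 * N)) (cc N (xt N a)) t / (1 / 2 + t * I) = ∑ i, a i * wv N t i := by
  unfold Dp
  rw [← abel hN (xt N a) fun k => (k : ℂ) ^ (-(1 / 2 + t * I)),
    xt_sum (fun n z => z * ((n : ℂ) ^ (-(1 / 2 + t * I)) -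
      ((n + 1 : ℕ) : ℂ) ^ (-(1 / 2 + t * I)))) a, Finset.sum_div]
  refine Finset.sum_congr rfl fun i _ => ?_
  unfold wv
  rw [mul_div_assoc]

lemma wv_norm {N : ℕ} (hN : 1 ≤ N) (t : ℝ) (i : Fin N) : ‖wv N t i‖ ^ 2 ≤ 1 / (N : ℝ) ^ 3 := by
  have hN0 : (0 : ℝ) < N := by exact_mod_cast hN
  set s : ℂ := 1 / 2 + t * I with hs
  have hs0 : s ≠ 0 := half_ne t
  set M : ℝ := ((N + i : ℕ) : ℝ) with hMd
  have hM : (N : ℝ) ≤ M := by
    rw [hMd]
    push_cast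
    linarith [(Nat.cast_nonneg (i : ℕ) : (0 : ℝ) ≤ ((i : ℕ) : ℝ))]
  have hM0 : 0 < M := by linarith
  have hd : ∀ x ∈ Icc M (M + 1), HasDerivWithinAt
      (fun y : ℝ => (y : ℂ) ^ ((-s - 1) + 1) / ((-s - 1) + 1)) ((x : ℂ) ^ (-s - 1))
      (Icc M (M + 1)) x := by
    intro x hx
    have hx0 : x ≠ 0 := (lt_of_lt_of_le hM0 hx.1).ne'
    refine (hasDerivAt_ofReal_cpow_const' hx0 ?_).hasDerivWithinAt
    intro h
    apply hs0
    linear_combination -h
  have hb : ∀ x ∈ Ico M (M + 1), ‖(x : ℂ) ^ (-s - 1)‖ ≤ (N : ℝ) ^ (-(3 / 2) : ℝ) := by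
    intro x hx
    have hx0 : 0 < x := lt_of_lt_of_le hM0 hx.1
    rw [norm_cpow_eq_rpow_re_of_pos hx0]
    have e : (-s - 1).re = -(3 / 2) := by
      rw [hs]
      simp
      norm_num
    rw [e]
    exact Real.rpow_le_rpow_of_nonpos hN0 (hM.trans hx.1) (by norm_num)
  have h1 := norm_image_sub_le_of_norm_deriv_le_segment' hd hb (M + 1)
    (right_mem_Icc.2 (by linarith))
  have e1 : (fun y : ℝ => (y : ℂ) ^ ((-s - 1) + 1) / ((-s - 1) + 1)) (M + 1) -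
      (fun y : ℝ => (y : ℂ) ^ ((-s - 1) + 1) / ((-s - 1) + 1)) M = wv N t i := by
    unfold wv
    rw [← hs]
    simp only [sub_add_cancel]
    rw [hMd]
    push_cast
    field_simp
    ring
  rw [e1, add_sub_cancel_left, mul_one] at h1
  calc ‖wv N t i‖ ^ 2 ≤ ((N : ℝ) ^ (-(3 / 2) : ℝ)) ^ 2 := pow_le_pow_left₀ (norm_nonneg _) h1 2
    _ = 1 / (N : ℝ) ^ 3 := by
        rw [← Real.rpow_natCast, ← Real.rpow_mul hN0.le, one_div, ← Real.rpow_natCast,
          ← Real.rpow_neg hN0.le]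
        norm_num

/-- Bessel's inequality -/
lemma bessel_wv {N : ℕ} (hN : 1 ≤ N) (v : OrthonormalBasis (Fin N) ℂ (EuclideanSpace ℂ (Fin N)))
    (J : Finset (Fin N)) (t : ℝ) :
    ∑ i ∈ J, ‖Dp (Finset.Icc N (2 * N)) (cc N (xt N (v i))) t / (1 / 2 + t * I)‖ ^ 2 ≤
      1 / (N : ℝ) ^ 2 := by
  have hN0 : (0 : ℝ) < N := by exact_mod_cast hN
  set w : EuclideanSpace ℂ (Fin N) := WithLp.toLp 2 fun i => conj (wv N t i) with hw
  have h1 : ∀ i, Dp (Finset.Icc N (2 * N)) (cc N (xt N (v i))) t / (1 / 2 + t * I) =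
      ⟪w, v i⟫_ℂ := by
    intro i
    rw [Dp_wv hN, PiLp.inner_apply]
    refine Finset.sum_congr rfl fun j _ => ?_
    rw [hw]
    change v i j * wv N t j = v i j * conj (conj (wv N t j))
    rw [conj_conj]
  calc ∑ i ∈ J, ‖Dp (Finset.Icc N (2 * N)) (cc N (xt N (v i))) t / (1 / 2 + t * I)‖ ^ 2
      ≤ ∑ i, ‖Dp (Finset.Icc N (2 * N)) (cc N (xt N (v i))) t / (1 / 2 + t * I)‖ ^ 2 :=
        Finset.sum_le_sum_of_subset_of_nonneg (Finset.subset_univ _) fun _ _ _ => by positivity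
    _ = ‖w‖ ^ 2 := by
        simp_rw [h1]
        exact v.sum_sq_norm_inner_left w
    _ = ∑ i, ‖wv N t i‖ ^ 2 := by
        rw [EuclideanSpace.norm_sq_eq]
        refine Finset.sum_congr rfl fun i _ => ?_
        rw [hw]
        simp
    _ ≤ ∑ _i : Fin N, 1 / (N : ℝ) ^ 3 := Finset.sum_le_sum fun i _ => wv_norm hN t i
    _ = 1 / (N : ℝ) ^ 2 := by
        rw [Finset.sum_const, Finset.card_univ, Fintype.card_fin, nsmul_eq_mul]
        field_simp

/-- the number of vectors which live on a small set -/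
lemma card_small {N : ℕ} (hN : 1 ≤ N)
    (v : OrthonormalBasis (Fin N) ℂ (EuclideanSpace ℂ (Fin N))) (J : Finset (Fin N)) {E : Set ℝ}
    {δ : ℝ} (hδ : 0 ≤ δ) (hE : volume E ≤ ENNReal.ofReal (δ * N))
    (hJ : ∀ i ∈ J, ENNReal.ofReal (1 / (N : ℝ) ^ 2) ≤ ∫⁻ t in E,
      ‖Dp (Finset.Icc N (2 * N)) (cc N (xt N (v i))) t / (1 / 2 + t * I)‖ₑ ^ 2) :
    (J.card : ℝ) ≤ δ * N := by
  have hN0 : (0 : ℝ) < N := by exact_mod_cast hN
  have hspos : ∀ k ∈ Finset.Icc N (2 * N), 0 < k := by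
    intro k hk
    rw [Finset.mem_Icc] at hk
    omega
  have hm : ∀ i, Measurable fun t : ℝ =>
      ‖Dp (Finset.Icc N (2 * N)) (cc N (xt N (v i))) t / (1 / 2 + t * I)‖ₑ ^ 2 := by
    intro i
    have h1 : Continuous fun t : ℝ =>
        Dp (Finset.Icc N (2 * N)) (cc N (xt N (v i))) t / (1 / 2 + t * I) :=
      (Dp_cont hspos _).div (by fun_prop) half_ne
    exact h1.measurable.enorm.pow_const 2
  have h1 : ENNReal.ofReal (J.card * (1 / (N : ℝ) ^ 2)) ≤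
      ENNReal.ofReal (1 / (N : ℝ) ^ 2 * (δ * N)) := by
    calc ENNReal.ofReal (J.card * (1 / (N : ℝ) ^ 2))
        = ∑ _i ∈ J, ENNReal.ofReal (1 / (N : ℝ) ^ 2) := by
          rw [Finset.sum_const, nsmul_eq_mul, ENNReal.ofReal_mul (by positivity)]
          simp
      _ ≤ ∑ i ∈ J, ∫⁻ t in E,
            ‖Dp (Finset.Icc N (2 * N)) (cc N (xt N (v i))) t / (1 / 2 + t * I)‖ₑ ^ 2 :=
          Finset.sum_le_sum hJ
      _ = ∫⁻ t in E, ∑ i ∈ J,
            ‖Dp (Finset.Icc N (2 * N)) (cc N (xt N (v i))) t / (1 / 2 + t * I)‖ₑ ^ 2 :=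
          (lintegral_finsetSum _ fun i _ => hm i).symm
      _ ≤ ∫⁻ _t in E, ENNReal.ofReal (1 / (N : ℝ) ^ 2) := by
          refine lintegral_mono fun t => ?_
          simp_rw [enorm_sq]
          rw [← ENNReal.ofReal_sum_of_nonneg fun _ _ => by positivity]
          exact ENNReal.ofReal_le_ofReal (bessel_wv hN v J t)
      _ = ENNReal.ofReal (1 / (N : ℝ) ^ 2) * volume E := by rw [setLIntegral_const]
      _ ≤ ENNReal.ofReal (1 / (N : ℝ) ^ 2) * ENNReal.ofReal (δ * N) := by gcongr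
      _ = _ := (ENNReal.ofReal_mul (by positivity)).symm
  rw [ENNReal.ofReal_le_ofReal_iff (by positivity), mul_comm] at h1
  exact le_of_mul_le_mul_left h1 (by positivity)

/-- vectors with a small quadratic form live on the set of small values of zeta -/
lemma small_vec {ε : ℝ} {N : ℕ} (hN1 : 1 ≤ N) (a : ℕ → ℂ)
    (hsm : ∫⁻ t in Ioi (0 : ℝ), ‖∑ n ∈ Finset.Ico N (2 * N), a n * (h n t : ℂ)‖ₑ ^ 2 ≤
      ENNReal.ofReal ((N : ℝ) ^ (-(2 * ε)) / (8 * Real.pi) *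
        ((∑ n ∈ Finset.Ico N (2 * N), ‖a n‖ ^ 2) / (N : ℝ) ^ 2))) :
    ENNReal.ofReal ((∑ n ∈ Finset.Ico N (2 * N), ‖a n‖ ^ 2) / (N : ℝ) ^ 2) ≤
      ∫⁻ t in SmallSet N ε ((64 * Kmv + 1) * N),
        ‖Dp (Finset.Icc N (2 * N)) (cc N a) t / (1 / 2 + t * I)‖ₑ ^ 2 := by
  have hK := Kmv_pos
  set Λ : ℝ := 64 * Kmv + 1 with hΛ
  have hΛ1 : 1 ≤ Λ := by linarith
  have hN' : (1 : ℝ) ≤ N := by exact_mod_cast hN1
  have hN0 : (0 : ℝ) < N := by linarith
  have hspos : ∀ k ∈ Finset.Icc N (2 * N), 0 < k := by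
    intro k hk
    rw [Finset.mem_Icc] at hk
    omega
  simp_rw [G_eq hN1] at hsm
  set S : ℝ := ∑ n ∈ Finset.Ico N (2 * N), ‖a n‖ ^ 2 with hS
  have hS0 : 0 ≤ S := by positivity
  set R : ℝ := Λ * N with hR
  have hNR : (N : ℝ) ≤ R := by nlinarith
  set g : ℝ → ℝ≥0∞ := fun t => ‖Dp (Finset.Icc N (2 * N)) (cc N a) t / (1 / 2 + t * I)‖ₑ ^ 2 with hg
  set Z : ℝ → ℝ≥0∞ := fun t => ‖riemannZeta (1 / 2 + t * I)‖ₑ ^ 2 with hZ
  have hpi : (0 : ℝ) < 2 * Real.pi := by positivity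
  have hpi3 := Real.pi_gt_three
  have hpi4 := Real.pi_lt_d2
  -- Plancherel
  have hF : ∫⁻ t in Ioi (0 : ℝ), ‖∑ k ∈ Finset.Icc N (2 * N), cc N a k * ch k t‖ₑ ^ 2 =
      ENNReal.ofReal (1 / (2 * Real.pi)) * ∫⁻ t, g t := by
    rw [plancherel (adm_ch_sum hspos (cc N a))]
    simp_rw [mellin_ch_sum hspos]
    rfl
  have hG : ∫⁻ t in Ioi (0 : ℝ), ‖∑ k ∈ Finset.Icc N (2 * N), cc N a k * nb k t‖ₑ ^ 2 =
      ENNReal.ofReal (1 / (2 * Real.pi)) * ∫⁻ t, Z t * g t := by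
    rw [plancherel (adm_nb_sum hspos (cc N a))]
    simp_rw [mellin_nb_sum hspos, enorm_neg, enorm_mul, mul_pow]
    rfl
  have hinv : ∀ x : ℝ≥0∞, ENNReal.ofReal (2 * Real.pi) * (ENNReal.ofReal (1 / (2 * Real.pi)) * x) =
      x := by
    intro x
    rw [← mul_assoc, ← ENNReal.ofReal_mul hpi.le]
    rw [show 2 * Real.pi * (1 / (2 * Real.pi)) = 1 by field_simp]
    simp
  -- size of the transforms
  have hg_low : ENNReal.ofReal (3 / 2 * (S / (N : ℝ) ^ 2)) ≤ ∫⁻ t, g t := by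
    have h1 := F_lower hN1 a
    rw [hF] at h1
    have h2 := mul_le_mul_right h1 (ENNReal.ofReal (2 * Real.pi))
    rw [hinv, ← ENNReal.ofReal_mul hpi.le] at h2
    refine (ENNReal.ofReal_le_ofReal ?_).trans h2
    have h3 : 0 ≤ S / (N : ℝ) ^ 2 := by positivity
    have h4 : 2 * Real.pi * (S / (4 * (N : ℝ) ^ 2)) = Real.pi / 2 * (S / (N : ℝ) ^ 2) := by
      field_simp
      ring
    rw [← hS, h4]
    nlinarith
  -- the high frequencies
  have hhigh : ∫⁻ t in {t : ℝ | R ≤ |t|}, g t ≤ ENNReal.ofReal (1 / 4 * (S / (N : ℝ) ^ 2)) := by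
    refine (high_freq hN1 a hNR).trans (ENNReal.ofReal_le_ofReal ?_)
    rw [← hS, hR]
    have h3 : 0 ≤ S / (N : ℝ) ^ 2 := by positivity
    have h4 : 16 * Kmv * S / (N * (Λ * N)) = 16 * Kmv / Λ * (S / (N : ℝ) ^ 2) := by
      field_simp
    rw [h4]
    refine mul_le_mul_of_nonneg_right ?_ h3
    rw [div_le_iff₀ (by linarith)]
    linarith
  -- the set of large values
  set W : Set ℝ := {t : ℝ | (N : ℝ) ^ (-ε) ≤ ‖riemannZeta (1 / 2 + t * I)‖} with hW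
  have hWm : MeasurableSet W := measurableSet_le measurable_const
    Pool.Agent.Lib.ThickFailure.continuous_zeta_line.norm.measurable
  have hZg : ∫⁻ t, Z t * g t ≤ ENNReal.ofReal (2 * Real.pi *
      ((N : ℝ) ^ (-(2 * ε)) / (8 * Real.pi) * (S / (N : ℝ) ^ 2))) := by
    rw [hG] at hsm
    have h2 := mul_le_mul_right hsm (ENNReal.ofReal (2 * Real.pi))
    rwa [hinv, ← ENNReal.ofReal_mul hpi.le] at h2
  have hWup : ∫⁻ t in W, g t ≤ ENNReal.ofReal (1 / 4 * (S / (N : ℝ) ^ 2)) := by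
    calc ∫⁻ t in W, g t ≤ ∫⁻ t in W, ENNReal.ofReal ((N : ℝ) ^ (2 * ε)) * (Z t * g t) := by
          refine setLIntegral_mono' hWm fun t ht => ?_
          rw [← mul_assoc]
          refine le_mul_of_one_le_left (zero_le) ?_
          simp only [hZ]
          rw [enorm_sq, ← ENNReal.ofReal_mul (by positivity), ENNReal.one_le_ofReal]
          calc (1 : ℝ) = (N : ℝ) ^ (2 * ε) * ((N : ℝ) ^ (-ε)) ^ 2 := by
                rw [← Real.rpow_natCast, ← Real.rpow_mul hN0.le, ← Real.rpow_add hN0]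
                rw [show 2 * ε + -ε * ((2 : ℕ) : ℝ) = 0 by push_cast; ring, Real.rpow_zero]
            _ ≤ (N : ℝ) ^ (2 * ε) * ‖riemannZeta (1 / 2 + t * I)‖ ^ 2 := by
                gcongr
                exact ht
      _ = ENNReal.ofReal ((N : ℝ) ^ (2 * ε)) * ∫⁻ t in W, Z t * g t := by
          rw [lintegral_const_mul' _ _ ENNReal.ofReal_ne_top]
      _ ≤ ENNReal.ofReal ((N : ℝ) ^ (2 * ε)) * ENNReal.ofReal (2 * Real.pi *
            ((N : ℝ) ^ (-(2 * ε)) / (8 * Real.pi) * (S / (N : ℝ) ^ 2))) := by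
          gcongr
          exact (setLIntegral_le_lintegral _ _).trans hZg
      _ = ENNReal.ofReal ((N : ℝ) ^ (2 * ε) * (2 * Real.pi *
            ((N : ℝ) ^ (-(2 * ε)) / (8 * Real.pi) * (S / (N : ℝ) ^ 2)))) :=
          (ENNReal.ofReal_mul (by positivity)).symm
      _ ≤ _ := by
          apply ENNReal.ofReal_le_ofReal
          apply le_of_eq
          have h5 : 0 < (N : ℝ) ^ (2 * ε) := by positivity
          rw [Real.rpow_neg hN0.le]
          field_simp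
          ring
  have hcov : (univ : Set ℝ) ⊆ ({t : ℝ | R ≤ |t|} ∪ SmallSet N ε R) ∪ W := by
    intro t _
    by_cases h1 : R ≤ |t|
    · exact Or.inl (Or.inl h1)
    · by_cases h2 : (N : ℝ) ^ (-ε) ≤ ‖riemannZeta (1 / 2 + t * I)‖
      · exact Or.inr h2
      · refine Or.inl (Or.inr ⟨?_, not_le.1 h2⟩)
        rw [not_le] at h1
        exact abs_le.1 h1.le
  have h1 : ENNReal.ofReal (3 / 2 * (S / (N : ℝ) ^ 2)) ≤
      ENNReal.ofReal (1 / 2 * (S / (N : ℝ) ^ 2)) + ∫⁻ t in SmallSet N ε R, g t := by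
    calc ENNReal.ofReal (3 / 2 * (S / (N : ℝ) ^ 2)) ≤ ∫⁻ t, g t := hg_low
      _ = ∫⁻ t in univ, g t := by rw [Measure.restrict_univ]
      _ ≤ ∫⁻ t in ({t : ℝ | R ≤ |t|} ∪ SmallSet N ε R) ∪ W, g t := lintegral_mono_set hcov
      _ ≤ (∫⁻ t in {t : ℝ | R ≤ |t|} ∪ SmallSet N ε R, g t) + ∫⁻ t in W, g t :=
          lintegral_union_le _ _ _
      _ ≤ ((∫⁻ t in {t : ℝ | R ≤ |t|}, g t) + ∫⁻ t in SmallSet N ε R, g t) + ∫⁻ t in W, g t := by
          gcongr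
          exact lintegral_union_le _ _ _
      _ ≤ (ENNReal.ofReal (1 / 4 * (S / (N : ℝ) ^ 2)) + ∫⁻ t in SmallSet N ε R, g t) +
            ENNReal.ofReal (1 / 4 * (S / (N : ℝ) ^ 2)) := by gcongr
      _ = (ENNReal.ofReal (1 / 4 * (S / (N : ℝ) ^ 2)) +
            ENNReal.ofReal (1 / 4 * (S / (N : ℝ) ^ 2))) + ∫⁻ t in SmallSet N ε R, g t := by ring
      _ = _ := by
          rw [← ENNReal.ofReal_add (by positivity) (by positivity)]
          congr 2
          ring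
  have h2 : ENNReal.ofReal (3 / 2 * (S / (N : ℝ) ^ 2)) =
      ENNReal.ofReal (1 / 2 * (S / (N : ℝ) ^ 2)) + ENNReal.ofReal (S / (N : ℝ) ^ 2) := by
    rw [← ENNReal.ofReal_add (by positivity) (by positivity)]
    congr 1
    ring
  rw [h2] at h1
  exact ENNReal.le_of_add_le_add_left ENNReal.ofReal_ne_top h1

end Pool.Agent.NBL
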