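import Mathlib
import Pool.Agent.NBL.Eig

/-!
# Almost all eigenvalues of the Gram matrices, unconditionally
-/

set_option autoImplicit false

open MeasureTheory Complex Set Filter Topology
open scoped ENNReal InnerProductSpace ComplexConjugate

namespace Pool.Agent.NBL

lemma card_large {N : ℕ} (hN : 2 ≤ N) {ε K : ℝ} (hε : 0 < ε) (hK : 4 / ε ≤ K)
    (hlog : 4 ≤ Real.log N) (lam : Fin N → ℝ) (hlam : ∀ i, 0 ≤ lam i)
    (hsum : ∑ i, lam i = ∑ j : Fin N, ∫ t in Ioi (0 : ℝ), ‖(h (N + j) t : ℂ)‖ ^ 2)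
    (J : Finset (Fin N)) (hJ : ∀ i ∈ J, K * Real.log N / (N : ℝ) ^ 2 ≤ lam i) :
    (J.card : ℝ) ≤ ε / 2 * N := by
  have hN' : (2 : ℝ) ≤ N := by exact_mod_cast hN
  have hN0 : (0 : ℝ) < N := by linarith
  have hK0 : 0 < K := lt_of_lt_of_le (by positivity) hK
  set l : ℝ := Real.log N with hl
  have hl0 : 0 < l := by linarith
  have hterm : ∀ j : Fin N, ∫ t in Ioi (0 : ℝ), ‖(h (N + j) t : ℂ)‖ ^ 2 ≤
      2 * l / (N : ℝ) ^ 2 := by
    intro j
    have hj : (N : ℝ) ≤ ((N + j : ℕ) : ℝ) := by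
      push_cast
      linarith [(Nat.cast_nonneg (j : ℕ) : (0 : ℝ) ≤ ((j : ℕ) : ℝ))]
    have hj2 : ((N + j : ℕ) : ℝ) ≤ 2 * N := by
      have h1 : N + j ≤ 2 * N := by omega
      exact_mod_cast h1
    have hj0 : (0 : ℝ) < ((N + j : ℕ) : ℝ) := by linarith
    have h2 : Real.log ((N + j : ℕ) : ℝ) ≤ 1 + l := by
      have h3 := Real.log_le_log hj0 hj2
      rw [Real.log_mul (by norm_num) hN0.ne'] at h3
      have := Real.log_two_lt_d9
      linarith
    have h4 : 0 ≤ Real.log ((N + j : ℕ) : ℝ) := Real.log_nonneg (by linarith)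
    refine (integral_le_of_lintegral (adm_h (n := N + j) (by omega)).1 (by positivity)
      (h_norm (N := N + j) (by omega))).trans ?_
    calc (3 + Real.log ((N + j : ℕ) : ℝ)) / ((N + j : ℕ) : ℝ) ^ 2
        ≤ (2 * l) / ((N + j : ℕ) : ℝ) ^ 2 := by
          gcongr
          linarith
      _ ≤ 2 * l / (N : ℝ) ^ 2 := by gcongr
  have h1 : (J.card : ℝ) * (K * l / (N : ℝ) ^ 2) ≤ N * (2 * l / (N : ℝ) ^ 2) := by
    calc (J.card : ℝ) * (K * l / (N : ℝ) ^ 2) = ∑ _i ∈ J, K * l / (N : ℝ) ^ 2 := by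
          rw [Finset.sum_const, nsmul_eq_mul]
      _ ≤ ∑ i ∈ J, lam i := Finset.sum_le_sum hJ
      _ ≤ ∑ i, lam i := Finset.sum_le_sum_of_subset_of_nonneg (Finset.subset_univ _)
          fun i _ _ => hlam i
      _ = ∑ j : Fin N, ∫ t in Ioi (0 : ℝ), ‖(h (N + j) t : ℂ)‖ ^ 2 := hsum
      _ ≤ ∑ _j : Fin N, 2 * l / (N : ℝ) ^ 2 := Finset.sum_le_sum fun j _ => hterm j
      _ = _ := by rw [Finset.sum_const, Finset.card_univ, Fintype.card_fin, nsmul_eq_mul]
  have h2 : (J.card : ℝ) * K ≤ 2 * N := by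
    have e1 : (J.card : ℝ) * (K * l / (N : ℝ) ^ 2) = (J.card : ℝ) * K * (l / (N : ℝ) ^ 2) := by ring
    have e2 : N * (2 * l / (N : ℝ) ^ 2) = 2 * N * (l / (N : ℝ) ^ 2) := by ring
    rw [e1, e2] at h1
    exact le_of_mul_le_mul_right h1 (by positivity)
  have h3 : (J.card : ℝ) * (4 / ε) ≤ 2 * N :=
    (mul_le_mul_of_nonneg_left hK (Nat.cast_nonneg _)).trans h2
  have h4 : (J.card : ℝ) = (J.card : ℝ) * (4 / ε) * (ε / 4) := by field_simp
  rw [h4]
  calc (J.card : ℝ) * (4 / ε) * (ε / 4) ≤ 2 * N * (ε / 4) :=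
        mul_le_mul_of_nonneg_right h3 (by positivity)
    _ = ε / 2 * N := by ring

/-- unconditionally, all but `ε N` eigenvalues of the Gram matrix are
`N ^ (-2) (log N) ^ O(1)` -/
theorem almost_all {ε : ℝ} (hε : 0 < ε) : ∃ K N₀ : ℕ, ∀ N : ℕ, N₀ ≤ N →
    ∃ V : Submodule ℂ (Fin N → ℂ), (1 - ε) * N ≤ Module.finrank ℂ V ∧
      ∀ a ∈ V, ∑ i, ‖a i‖ ^ 2 ≤ Real.log N ^ K * ((N : ℝ) ^ 2 *
          ∫ t in Ioi (0 : ℝ), ‖∑ i : Fin N, a i * (h (N + i) t : ℂ)‖ ^ 2) ∧
        (N : ℝ) ^ 2 * ∫ t in Ioi (0 : ℝ), ‖∑ i : Fin N, a i * (h (N + i) t : ℂ)‖ ^ 2 ≤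
          K * Real.log N * ∑ i, ‖a i‖ ^ 2 := by
  have hKm := Kmv_pos
  have hpi := Real.pi_gt_three
  have hpi4 := Real.pi_lt_d2
  obtain ⟨K₀, hK₀, N₁, hN₁⟩ := rare_log (δ := ε / 2) (Λ₀ := 64 * Kmv + 1) (by linarith)
    (by linarith)
  set K : ℕ := ⌈max (2 * K₀ + 1) (4 / ε)⌉₊ with hKd
  have hKc : max (2 * K₀ + 1) (4 / ε) ≤ (K : ℝ) := Nat.le_ceil _
  have hK1 : 2 * K₀ + 1 ≤ (K : ℝ) := (le_max_left _ _).trans hKc
  have hK2 : 4 / ε ≤ (K : ℝ) := (le_max_right _ _).trans hKc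
  have hK0 : (0 : ℝ) < K := by linarith
  have t1 : Tendsto (fun N : ℕ => Real.log N) atTop atTop :=
    Real.tendsto_log_atTop.comp tendsto_natCast_atTop_atTop
  obtain ⟨N₂, hN₂⟩ := eventually_atTop.1 (t1.eventually_ge_atTop (8 * Real.pi))
  refine ⟨K, max (max N₁ N₂) 2, fun N hN => ?_⟩
  have hNa : N₁ ≤ N := (le_max_left _ _).trans ((le_max_left _ _).trans hN)
  have hNb : N₂ ≤ N := (le_max_right _ _).trans ((le_max_left _ _).trans hN)
  have hN2 : 2 ≤ N := (le_max_right _ _).trans hN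
  have hN1 : 1 ≤ N := by omega
  have hN' : (2 : ℝ) ≤ N := by exact_mod_cast hN2
  have hN0 : (0 : ℝ) < N := by linarith
  have hl8 := hN₂ N hNb
  set l : ℝ := Real.log N with hl
  have hl0 : 0 < l := by linarith
  obtain ⟨v, lam, hq, hsum⟩ := spectral (fun (i : Fin N) t => (h (N + i) t : ℂ))
    fun i => adm_h (by omega)
  -- the eigenvalues are the values of the form
  have hlam : ∀ i, ∫ t in Ioi (0 : ℝ), ‖∑ j, v i j * (h (N + j) t : ℂ)‖ ^ 2 = lam i := by
    intro i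
    rw [hq (v i)]
    have h1 : ∀ j, lam j * ‖⟪v j, v i⟫_ℂ‖ ^ 2 = if j = i then lam i else 0 := by
      intro j
      by_cases hj : j = i
      · rw [if_pos hj, hj]
        have := v.orthonormal.1 i
        rw [inner_self_eq_norm_sq_to_K, this]
        simp
      · rw [if_neg hj, v.orthonormal.2 hj]
        simp
    rw [Finset.sum_congr rfl fun j _ => h1 j, Finset.sum_ite_eq' Finset.univ i]
    simp
  have hlam0 : ∀ i, 0 ≤ lam i := fun i => by
    rw [← hlam i]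
    exact integral_nonneg fun t => by positivity
  -- sets of indices
  classical
  set J : Finset (Fin N) := Finset.univ.filter fun i =>
    1 / (l ^ K * (N : ℝ) ^ 2) ≤ lam i ∧ lam i ≤ K * l / (N : ℝ) ^ 2 with hJ
  set L : Finset (Fin N) := Finset.univ.filter fun i => K * l / (N : ℝ) ^ 2 < lam i with hL
  set M : Finset (Fin N) := Finset.univ.filter fun i => lam i < 1 / (l ^ K * (N : ℝ) ^ 2) with hM
  have hLc : (L.card : ℝ) ≤ ε / 2 * N := by
    refine card_large hN2 hε hK2 (by linarith) lam hlam0 hsum L fun i hi => ?_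
    rw [hL, Finset.mem_filter] at hi
    exact hi.2.le
  have hthr : 1 / (l ^ K * (N : ℝ) ^ 2) ≤
      (N : ℝ) ^ (-(2 * (K₀ * kap N))) / (8 * Real.pi) * (1 / (N : ℝ) ^ 2) := by
    have e1 : (N : ℝ) ^ (-(2 * (K₀ * kap N))) = l ^ (-(2 * K₀)) := by
      rw [← rpow_kap (N := N) hl0]
      congr 1
      ring
    have e2 : 1 / (l ^ K * (N : ℝ) ^ 2) = 1 / l ^ K * (1 / (N : ℝ) ^ 2) := by
      field_simp
    rw [e1, e2]
    have h1 : 8 * Real.pi * l ^ (2 * K₀) ≤ l ^ K := by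
      calc 8 * Real.pi * l ^ (2 * K₀) ≤ l * l ^ (2 * K₀) := by gcongr
        _ = l ^ (2 * K₀ + 1) := by
            rw [Real.rpow_add hl0, Real.rpow_one]
            ring
        _ ≤ l ^ (K : ℝ) := Real.rpow_le_rpow_of_exponent_le (by linarith) hK1
        _ = l ^ K := Real.rpow_natCast _ _
    have h2 : 1 / l ^ K ≤ l ^ (-(2 * K₀)) / (8 * Real.pi) := by
      rw [Real.rpow_neg hl0.le, div_le_div_iff₀ (by positivity) (by positivity), one_mul,
        inv_mul_eq_div, le_div_iff₀ (by positivity)]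
      exact h1
    exact mul_le_mul_of_nonneg_right h2 (by positivity)
  have hMc : (M.card : ℝ) ≤ ε / 2 * N := by
    refine card_small hN1 v M (E := SmallSet N (K₀ * kap N) ((64 * Kmv + 1) * N)) (by linarith)
      ?_ ?_
    · have hfin : volume (SmallSet N (K₀ * kap N) ((64 * Kmv + 1) * N)) ≠ ⊤ := by
        refine ne_top_of_le_ne_top ?_ (measure_mono (fun t ht => ht.1 :
          SmallSet N (K₀ * kap N) ((64 * Kmv + 1) * N) ⊆
            Icc (-((64 * Kmv + 1) * N)) ((64 * Kmv + 1) * N)))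
        rw [Real.volume_Icc]
        exact ENNReal.ofReal_ne_top
      rw [← ofReal_measureReal hfin]
      exact ENNReal.ofReal_le_ofReal (hN₁ N hNa)
    · intro i hi
      rw [hM, Finset.mem_filter] at hi
      have e1 : ∑ n ∈ Finset.Ico N (2 * N), ‖xt N (v i) n‖ ^ 2 = 1 := by
        rw [xt_sum (fun _ z => ‖z‖ ^ 2) (v i), ← EuclideanSpace.norm_sq_eq, v.norm_eq_one]
        norm_num
      have h1 := small_vec (ε := K₀ * kap N) hN1 (xt N (v i))
      rw [e1] at h1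
      refine h1 ?_
      have e2 : ∀ t : ℝ, ∑ n ∈ Finset.Ico N (2 * N), xt N (v i) n * (h n t : ℂ) =
          ∑ j, v i j * (h (N + j) t : ℂ) := fun t =>
        xt_sum (fun n z => z * (h n t : ℂ)) (v i)
      simp_rw [e2]
      refine lint_of_int (g := fun t => ∑ j : Fin N, v i j * (h (N + j) t : ℂ)) ?_ ?_
      · exact Adm.sum _ fun j _ => (adm_h (by omega)).mul (v i j)
      · rw [hlam i]
        exact hi.2.le.trans hthr
  have hcard : (1 - ε) * N ≤ J.card := by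
    have h1 : (Finset.univ : Finset (Fin N)) ⊆ J ∪ (L ∪ M) := by
      intro i _
      rw [Finset.mem_union, Finset.mem_union, hJ, hL, hM]
      simp only [Finset.mem_filter, Finset.mem_univ, true_and]
      by_cases h1 : lam i < 1 / (l ^ K * (N : ℝ) ^ 2)
      · exact Or.inr (Or.inr h1)
      · by_cases h2 : K * l / (N : ℝ) ^ 2 < lam i
        · exact Or.inr (Or.inl h2)
        · exact Or.inl ⟨not_lt.1 h1, not_lt.1 h2⟩
    have h2 : (N : ℝ) ≤ J.card + (L.card + M.card) := by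
      have h3 := (Finset.card_le_card h1).trans (Finset.card_union_le _ _)
      have h4 := Finset.card_union_le L M
      rw [Finset.card_univ, Fintype.card_fin] at h3
      have h5 : N ≤ J.card + (L.card + M.card) := by omega
      exact_mod_cast h5
    linarith
  -- the subspace
  set b : J → EuclideanSpace ℂ (Fin N) := fun i => v i with hb
  have hbi : LinearIndependent ℂ b := v.orthonormal.linearIndependent.comp _ Subtype.val_injective
  set e := WithLp.linearEquiv 2 ℂ (Fin N → ℂ) with he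
  set U : Submodule ℂ (EuclideanSpace ℂ (Fin N)) := Submodule.span ℂ (range b) with hU
  refine ⟨U.map e.toLinearMap, ?_, ?_⟩
  · have h1 : Module.finrank ℂ (U.map e.toLinearMap) = J.card := by
      rw [LinearEquiv.finrank_map_eq e U, hU, finrank_span_eq_card hbi, Fintype.card_coe]
    rw [h1]
    exact hcard
  · intro a ha
    obtain ⟨x, hx, rfl⟩ := ha
    have hx0 : ∀ i, i ∉ J → ⟪v i, x⟫_ℂ = 0 := by
      intro i hi
      have h1 : U ≤ LinearMap.ker (innerSL ℂ (v i)).toLinearMap := by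
        rw [hU, Submodule.span_le]
        rintro y ⟨j, rfl⟩
        change ⟪v i, v j⟫_ℂ = 0
        apply v.orthonormal.2
        intro hij
        apply hi
        rw [hij]
        exact j.2
      exact h1 hx
    have hn : ∑ i, ‖(e.toLinearMap x) i‖ ^ 2 = ∑ i, ‖⟪v i, x⟫_ℂ‖ ^ 2 := by
      rw [v.sum_sq_norm_inner_right x, EuclideanSpace.norm_sq_eq]
      rfl
    have hqx : ∫ t in Ioi (0 : ℝ), ‖∑ i : Fin N, (e.toLinearMap x) i * (h (N + i) t : ℂ)‖ ^ 2 =
        ∑ i, lam i * ‖⟪v i, x⟫_ℂ‖ ^ 2 := hq x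
    rw [hn, hqx]
    simp_rw [Finset.mul_sum]
    constructor
    · refine Finset.sum_le_sum fun i _ => ?_
      by_cases hi : i ∈ J
      · rw [hJ, Finset.mem_filter] at hi
        have h1 := hi.2.1
        rw [div_le_iff₀ (by positivity)] at h1
        calc ‖⟪v i, x⟫_ℂ‖ ^ 2 = 1 * ‖⟪v i, x⟫_ℂ‖ ^ 2 := (one_mul _).symm
          _ ≤ (lam i * (l ^ K * (N : ℝ) ^ 2)) * ‖⟪v i, x⟫_ℂ‖ ^ 2 :=
              mul_le_mul_of_nonneg_right h1 (by positivity)
          _ = _ := by ring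
      · rw [hx0 i hi]
        simp
    · refine Finset.sum_le_sum fun i _ => ?_
      by_cases hi : i ∈ J
      · rw [hJ, Finset.mem_filter] at hi
        have h1 := hi.2.2
        rw [le_div_iff₀ (by positivity)] at h1
        calc (N : ℝ) ^ 2 * (lam i * ‖⟪v i, x⟫_ℂ‖ ^ 2) =
              (lam i * (N : ℝ) ^ 2) * ‖⟪v i, x⟫_ℂ‖ ^ 2 := by ring
          _ ≤ (K * l) * ‖⟪v i, x⟫_ℂ‖ ^ 2 := mul_le_mul_of_nonneg_right h1 (by positivity)
      · rw [hx0 i hi]
        simp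

end Pool.Agent.NBL
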