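import Mathlib
import Pool.Agent.NBL.Point

/-!
# The global lower bound on the Lindelöf hypothesis
-/

set_option autoImplicit false

open MeasureTheory Complex Set Filter Topology
open Pool.Agent.Lib.TwoConst Pool.Agent.Lib.ZetaLine Pool.Agent.Lib.ThickFailure
open scoped ENNReal

namespace Pool.Agent.NBL

/-- tails of `1 / y ^ 2` -/
lemma tail_sq {R : ℝ} (hR0 : 0 < R) :
    ∫⁻ t in {t : ℝ | R ≤ |t|}, ENNReal.ofReal (1 / t ^ 2) ≤ ENNReal.ofReal (8 / R) := by
  set Bl : ℕ → Set ℝ := fun j => {t : ℝ | 2 ^ j * R ≤ |t| ∧ |t| ≤ 2 ^ (j + 1) * R} with hBl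
  have hBlm : ∀ j, MeasurableSet (Bl j) := by
    intro j
    exact (measurableSet_le measurable_const continuous_abs.measurable).inter
      (measurableSet_le continuous_abs.measurable measurable_const)
  have hcover : {t : ℝ | R ≤ |t|} ⊆ ⋃ j, Bl j := by
    intro t ht
    have h1 : 1 ≤ |t| / R := by
      rw [le_div_iff₀ hR0, one_mul]
      exact ht
    obtain ⟨n, hn1, hn2⟩ := exists_nat_pow_near h1 (one_lt_two)
    rw [mem_iUnion]
    refine ⟨n, ?_, ?_⟩
    · rwa [le_div_iff₀ hR0] at hn1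
    · rw [div_lt_iff₀ hR0] at hn2
      exact hn2.le
  have hblock : ∀ j : ℕ, ∫⁻ t in Bl j, ENNReal.ofReal (1 / t ^ 2) ≤
      ENNReal.ofReal (4 / R * (1 / 2) ^ j) := by
    intro j
    have h1 : ∀ t ∈ Bl j, ENNReal.ofReal (1 / t ^ 2) ≤ ENNReal.ofReal (1 / (2 ^ j * R) ^ 2) := by
      intro t ht
      apply ENNReal.ofReal_le_ofReal
      apply one_div_le_one_div_of_le (by positivity)
      rw [← sq_abs t]
      exact pow_le_pow_left₀ (by positivity) ht.1 2
    have hsub : Bl j ⊆ Icc (-(2 ^ (j + 1) * R)) (2 ^ (j + 1) * R) := fun t ht => abs_le.1 ht.2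
    calc ∫⁻ t in Bl j, ENNReal.ofReal (1 / t ^ 2)
        ≤ ∫⁻ _t in Bl j, ENNReal.ofReal (1 / (2 ^ j * R) ^ 2) := setLIntegral_mono' (hBlm j) h1
      _ ≤ ∫⁻ _t in Icc (-(2 ^ (j + 1) * R)) (2 ^ (j + 1) * R),
            ENNReal.ofReal (1 / (2 ^ j * R) ^ 2) := lintegral_mono_set hsub
      _ = ENNReal.ofReal (1 / (2 ^ j * R) ^ 2) *
            ENNReal.ofReal (2 ^ (j + 1) * R - -(2 ^ (j + 1) * R)) := by
          rw [setLIntegral_const, Real.volume_Icc]
      _ = ENNReal.ofReal (4 / R * (1 / 2) ^ j) := by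
          rw [← ENNReal.ofReal_mul (by positivity)]
          congr 1
          rw [pow_succ, div_pow, one_pow]
          field_simp
          ring
  calc _ ≤ ∫⁻ t in ⋃ j, Bl j, ENNReal.ofReal (1 / t ^ 2) := lintegral_mono_set hcover
    _ ≤ ∑' j, ∫⁻ t in Bl j, ENNReal.ofReal (1 / t ^ 2) := lintegral_iUnion_le _ _
    _ ≤ ∑' j, ENNReal.ofReal (4 / R * (1 / 2) ^ j) := ENNReal.tsum_le_tsum hblock
    _ = ENNReal.ofReal (8 / R) := by
        rw [← ENNReal.ofReal_tsum_of_nonneg (fun j => by positivity)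
          ((summable_geometric_of_lt_one (by norm_num) (by norm_num)).mul_left _), tsum_mul_left,
          tsum_geometric_of_lt_one (by norm_num) (by norm_num)]
        congr 1
        ring

/-- convolution with the Poisson kernel -/
lemma conv_le {B : ℝ → ℝ} (hB : Continuous B) {x L : ℝ} (hx : 0 < x) (hL : 0 < L) :
    ∫⁻ y : ℝ, ENNReal.ofReal (∫ t in (-L)..L, B (y - t) ^ 2 * P x 0 t) ≤
      ENNReal.ofReal Real.pi * ∫⁻ y : ℝ, ENNReal.ofReal (B y ^ 2) := by
  have hPc := continuous_P hx 0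
  have h1 : ∀ y : ℝ, ENNReal.ofReal (∫ t in (-L)..L, B (y - t) ^ 2 * P x 0 t) =
      ∫⁻ t in Ioc (-L) L, ENNReal.ofReal (B (y - t) ^ 2 * P x 0 t) := by
    intro y
    have hc : Continuous fun t => B (y - t) ^ 2 * P x 0 t :=
      ((hB.comp (continuous_const.sub continuous_id)).pow 2).mul hPc
    rw [intervalIntegral.integral_of_le (by linarith)]
    refine ofReal_integral_eq_lintegral_ofReal ?_ (Eventually.of_forall fun t => ?_)
    · exact (hc.integrableOn_Icc (a := -L) (b := L)).mono_set Ioc_subset_Icc_self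
    · exact mul_nonneg (sq_nonneg _) (P_nonneg hx.le 0 t)
  simp_rw [h1]
  have hm : Measurable (Function.uncurry fun (y t : ℝ) =>
      ENNReal.ofReal (B (y - t) ^ 2 * P x 0 t)) := by
    apply ENNReal.measurable_ofReal.comp
    apply Continuous.measurable
    exact ((hB.comp (continuous_fst.sub continuous_snd)).pow 2).mul (hPc.comp continuous_snd)
  rw [lintegral_lintegral_swap hm.aemeasurable]
  calc ∫⁻ t in Ioc (-L) L, ∫⁻ y, ENNReal.ofReal (B (y - t) ^ 2 * P x 0 t)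
      = ∫⁻ t in Ioc (-L) L, ENNReal.ofReal (P x 0 t) * ∫⁻ y : ℝ, ENNReal.ofReal (B y ^ 2) := by
        refine lintegral_congr fun t => ?_
        have e1 : ∀ y : ℝ, ENNReal.ofReal (B (y - t) ^ 2 * P x 0 t) =
            ENNReal.ofReal (P x 0 t) * ENNReal.ofReal (B (y - t) ^ 2) := by
          intro y
          rw [mul_comm, ENNReal.ofReal_mul (P_nonneg hx.le 0 t)]
        simp_rw [e1]
        rw [lintegral_const_mul' _ _ ENNReal.ofReal_ne_top]
        congr 1
        exact lintegral_sub_right_eq_self (fun y => ENNReal.ofReal (B y ^ 2)) t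
    _ = (∫⁻ t in Ioc (-L) L, ENNReal.ofReal (P x 0 t)) * ∫⁻ y : ℝ, ENNReal.ofReal (B y ^ 2) :=
        lintegral_mul_const _ (ENNReal.measurable_ofReal.comp hPc.measurable)
    _ ≤ _ := by
        gcongr
        rw [← ofReal_integral_eq_lintegral_ofReal
          ((hPc.integrableOn_Icc (a := -L) (b := L)).mono_set Ioc_subset_Icc_self)
          (Eventually.of_forall fun t => P_nonneg hx.le 0 t),
          ← intervalIntegral.integral_of_le (by linarith)]
        exact ENNReal.ofReal_le_ofReal (integral_P_le hx 0 (-L) L)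

/-- the bound for normalised sequences, with all parameters -/
lemma low_core {N : ℕ} {b : ℕ → ℂ} {x κ L K Mu Mv P₀ P₁ P₂ R : ℝ} (hx : 0 < x)
    (hx4 : x ≤ 1 / 4) (hκ : 0 < κ) (hκ2 : κ ≤ 1 / 2) (hL : 0 < L)
    (hK : 2 * L / (Real.pi * (K - L)) ≤ κ) (hLK : L < K) (hK2 : 3 / 2 < K) (hxL : 2 * x / L ≤ κ)
    (hMu : 1 ≤ Mu) (hMv : 1 ≤ Mv) (hP₀ : 0 < P₀) (hP₁ : 0 < P₁) (hP₂ : 0 < P₂) (hP₂1 : P₂ ≤ 1)
    (h02 : Mu * P₀ ≤ P₂) (h12 : Mv * P₁ ≤ P₂) (hP₀v : P₀ < Mv) (hP₁u : P₁ < Mu) (hR : 0 < R)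
    (hv : 4 * ∑ n ∈ Finset.Icc 1 N, ‖b n‖ ≤ Mv)
    (hu : ∀ y : ℝ, |y| ≤ R → ∀ z : ℂ, 0 ≤ z.re → z.re ≤ K → |z.im| ≤ K → ‖fz (z + y * I)‖ ≤ Mu)
    (hb : 1 / 2 ≤ ∑ n ∈ Finset.Icc 1 N, ‖b n‖ ^ 2 * (1 / n - 1 / ((n : ℝ) + 1)))
    (hhigh : 2 * Mv ^ 2 / R ≤ 1) :
    ENNReal.ofReal 2 ≤ ENNReal.ofReal (18 * ((N : ℝ) + 1) ^ (2 * x) *
      Real.exp (2 * (κ * Real.log Mv + κ * (Real.log Mv - Real.log P₀) +
        5 / (2 * x) * (Real.log 12 + Real.log Mu + κ * (Real.log Mu - Real.log P₁))) -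
        2 * κ * Real.log P₂)) *
      (ENNReal.ofReal (4 * Real.pi) * (∫⁻ t in Ioi (0 : ℝ), ‖Hs b (Finset.Icc 1 N) t‖ₑ ^ 2) +
        ENNReal.ofReal (4 * R * P₂ ^ 2)) := by
  have hpi := Real.pi_pos
  have hpi3 := Real.pi_gt_three
  set E : ℝ := 2 * (κ * Real.log Mv + κ * (Real.log Mv - Real.log P₀) +
        5 / (2 * x) * (Real.log 12 + Real.log Mu + κ * (Real.log Mu - Real.log P₁))) -
        2 * κ * Real.log P₂ with hE
  set T : ℝ → ℂ := fun y => Nm N b (1 / 2 - x + y * I) / (1 / 2 - x + y * I) with hT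
  set IH : ℝ≥0∞ := ∫⁻ t in Ioi (0 : ℝ), ‖Hs b (Finset.Icc 1 N) t‖ₑ ^ 2 with hIH
  have hinv : ∀ z : ℝ≥0∞, ENNReal.ofReal (2 * Real.pi) * (ENNReal.ofReal (1 / (2 * Real.pi)) * z) =
      z := by
    intro z
    rw [← mul_assoc, ← ENNReal.ofReal_mul (by positivity)]
    rw [show 2 * Real.pi * (1 / (2 * Real.pi)) = 1 by field_simp]
    simp
  -- Plancherel on the shifted line
  have h1 : ENNReal.ofReal 3 ≤ ∫⁻ y, ‖T y‖ₑ ^ 2 := by
    have h2 := Fx_sq N b hx.le
    rw [plancherel (adm_Fx N b hx.le)] at h2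
    simp_rw [mellin_Fx N b hx.le (by linarith : x < 1 / 2)] at h2
    have h3 := mul_le_mul_right h2 (ENNReal.ofReal (2 * Real.pi))
    rw [hinv, ← ENNReal.ofReal_mul (by positivity)] at h3
    refine (ENNReal.ofReal_le_ofReal ?_).trans h3
    nlinarith
  -- the high frequencies
  have hTb : ∀ y : ℝ, y ≠ 0 → ‖T y‖ ^ 2 ≤ (Mv / 2) ^ 2 * (1 / y ^ 2) := by
    intro y hy
    simp only [hT]
    rw [norm_div, div_pow, div_eq_mul_one_div]
    have hnum : ‖Nm N b (1 / 2 - x + y * I)‖ ≤ Mv / 2 := by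
      unfold Nm
      have h2 : ‖∑ n ∈ Finset.Icc 1 N, b n * un n (1 / 2 - x + y * I)‖ ≤
          2 * ∑ n ∈ Finset.Icc 1 N, ‖b n‖ := by
        rw [Finset.mul_sum]
        refine (norm_sum_le _ _).trans (Finset.sum_le_sum fun n hn => ?_)
        have hn0 := pos_of_mem hn
        rw [norm_mul, mul_comm 2]
        refine mul_le_mul_of_nonneg_left ?_ (norm_nonneg _)
        have h3 : ∀ k : ℕ, 0 < k → ‖(k : ℂ) ^ (-(1 / 2 - x + y * I))‖ ≤ 1 := by
          intro k hk
          rw [norm_natCast_cpow_of_pos hk]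
          have hk1 : (1 : ℝ) ≤ k := by exact_mod_cast hk
          apply Real.rpow_le_one_of_one_le_of_nonpos hk1
          have e : (-(1 / 2 - x + y * I) : ℂ).re = -(1 / 2 - x) := by simp
          rw [e]
          linarith
        unfold un
        refine (norm_sub_le _ _).trans ?_
        have h4 := h3 n hn0
        have h5 := h3 (n + 1) (by omega)
        linarith
      linarith
    have hden : y ^ 2 ≤ ‖(1 / 2 - x + y * I : ℂ)‖ ^ 2 := by
      rw [← normSq_eq_norm_sq, normSq_apply]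
      simp
      nlinarith [sq_nonneg (1 / 2 - x)]
    have hy2 : 0 < y ^ 2 := by positivity
    apply mul_le_mul (pow_le_pow_left₀ (norm_nonneg _) hnum 2) _ (by positivity) (by positivity)
    exact one_div_le_one_div_of_le hy2 hden
  have h2 : ∫⁻ y in {y : ℝ | R ≤ |y|}, ‖T y‖ₑ ^ 2 ≤ ENNReal.ofReal 1 := by
    have hm : MeasurableSet {y : ℝ | R ≤ |y|} :=
      measurableSet_le measurable_const continuous_abs.measurable
    calc ∫⁻ y in {y : ℝ | R ≤ |y|}, ‖T y‖ₑ ^ 2
        ≤ ∫⁻ y in {y : ℝ | R ≤ |y|}, ENNReal.ofReal ((Mv / 2) ^ 2) * ENNReal.ofReal (1 / y ^ 2) := by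
          refine setLIntegral_mono' hm fun y hy => ?_
          rw [enorm_sq, ← ENNReal.ofReal_mul (by positivity)]
          apply ENNReal.ofReal_le_ofReal
          apply hTb
          intro h0
          rw [mem_ofPred_eq, h0, abs_zero] at hy
          linarith
      _ = ENNReal.ofReal ((Mv / 2) ^ 2) * ∫⁻ y in {y : ℝ | R ≤ |y|}, ENNReal.ofReal (1 / y ^ 2) :=
          lintegral_const_mul' _ _ ENNReal.ofReal_ne_top
      _ ≤ ENNReal.ofReal ((Mv / 2) ^ 2) * ENNReal.ofReal (8 / R) := by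
          gcongr
          exact tail_sq hR
      _ = ENNReal.ofReal (2 * Mv ^ 2 / R) := by
          rw [← ENNReal.ofReal_mul (by positivity)]
          congr 1
          ring
      _ ≤ ENNReal.ofReal 1 := ENNReal.ofReal_le_ofReal hhigh
  -- the low frequencies
  have h3 : ENNReal.ofReal 2 ≤ ∫⁻ y in Icc (-R) R, ‖T y‖ₑ ^ 2 := by
    have h4 : ENNReal.ofReal 3 ≤ ENNReal.ofReal 1 + ∫⁻ y in Icc (-R) R, ‖T y‖ₑ ^ 2 := by
      calc ENNReal.ofReal 3 ≤ ∫⁻ y, ‖T y‖ₑ ^ 2 := h1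
        _ = ∫⁻ y in univ, ‖T y‖ₑ ^ 2 := by rw [Measure.restrict_univ]
        _ ≤ ∫⁻ y in {y : ℝ | R ≤ |y|} ∪ Icc (-R) R, ‖T y‖ₑ ^ 2 := by
            apply lintegral_mono_set
            intro y _
            by_cases hy : R ≤ |y|
            · exact Or.inl hy
            · exact Or.inr (abs_le.1 (not_le.1 hy).le)
        _ ≤ (∫⁻ y in {y : ℝ | R ≤ |y|}, ‖T y‖ₑ ^ 2) + ∫⁻ y in Icc (-R) R, ‖T y‖ₑ ^ 2 :=
            lintegral_union_le _ _ _
        _ ≤ _ := by gcongr
    have h5 : ENNReal.ofReal 3 = ENNReal.ofReal 1 + ENNReal.ofReal 2 := by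
      rw [← ENNReal.ofReal_add (by norm_num) (by norm_num)]
      norm_num
    rw [h5] at h4
    exact ENNReal.le_of_add_le_add_left ENNReal.ofReal_ne_top h4
  refine h3.trans ?_
  set B : ℝ → ℝ := fun t => ‖fz (t * I)‖ * ‖qf N b (t * I)‖ with hB
  have hqc : Continuous fun t : ℝ => qf N b (t * I) := by
    rw [continuous_iff_continuousAt]
    intro t
    have h1 : ContinuousAt (qf N b) (t * I) := (qf_diff N b (by simp)).continuousAt
    exact ContinuousAt.comp (f := fun t : ℝ => (t * I : ℂ)) h1 (by fun_prop)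
  have hBc : Continuous B := fz_cont.norm.mul hqc.norm
  set Ii : ℝ → ℝ := fun y => ∫ t in (-L)..L, B (y - t) ^ 2 * P x 0 t with hIi
  have hIi0 : ∀ y, 0 ≤ Ii y := fun y =>
    intervalIntegral.integral_nonneg (by linarith) fun t _ =>
      mul_nonneg (sq_nonneg _) (P_nonneg hx.le 0 t)
  set A₀ : ℝ := 18 * ((N : ℝ) + 1) ^ (2 * x) * Real.exp E with hA₀
  have hA0 : 0 < A₀ := by positivity
  have hpt : ∀ y ∈ Icc (-R) R, ‖T y‖ₑ ^ 2 ≤
      ENNReal.ofReal A₀ * (ENNReal.ofReal (2 / Real.pi) * ENNReal.ofReal (Ii y) +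
        ENNReal.ofReal (2 * P₂ ^ 2)) := by
    intro y hy
    have hyR : |y| ≤ R := abs_le.2 hy
    have h4 := qf_left N b hx.le hx4 y
    have h5 := pointwise (N := N) (b := b) (y := y) hx hx4 hκ hκ2 hL hK hLK hK2 hxL hMu hMv hP₀
      hP₁ hP₂ hP₂1 h02 h12 hP₀v hP₁u (fun z hz => (qf_bound N b hz).trans hv) (hu y hyR)
    have hN1 : (0 : ℝ) < (N : ℝ) + 1 := by positivity
    rw [enorm_sq, ← ENNReal.ofReal_mul (by positivity), ← ENNReal.ofReal_add (by
      have := hIi0 y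
      positivity) (by positivity), ← ENNReal.ofReal_mul hA0.le]
    apply ENNReal.ofReal_le_ofReal
    calc ‖T y‖ ^ 2 ≤ (3 * ((N : ℝ) + 1) ^ x * ‖qf N b (-x + y * I)‖) ^ 2 :=
          pow_le_pow_left₀ (norm_nonneg _) h4 2
      _ = 9 * ((N : ℝ) + 1) ^ (2 * x) * ‖qf N b (-x + y * I)‖ ^ 2 := by
          rw [mul_pow, mul_pow, ← Real.rpow_natCast (((N : ℝ) + 1) ^ x), ← Real.rpow_mul hN1.le]
          push_cast
          rw [mul_comm x 2]
          ring
      _ ≤ 9 * ((N : ℝ) + 1) ^ (2 * x) * (2 * Real.exp E *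
            (2 / Real.pi * Ii y + 2 * P₂ ^ 2)) := by
          gcongr
      _ = A₀ * (2 / Real.pi * Ii y + 2 * P₂ ^ 2) := by
          rw [hA₀]
          ring
  have hBm : Measurable fun y => ENNReal.ofReal (2 / Real.pi) * ENNReal.ofReal (Ii y) := by
    have h5 : Measurable Ii := by
      have h6 : Continuous fun p : ℝ × ℝ => B (p.1 - p.2) ^ 2 * P x 0 p.2 :=
        ((hBc.comp (continuous_fst.sub continuous_snd)).pow 2).mul
          ((continuous_P hx 0).comp continuous_snd)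
      exact (intervalIntegral.continuous_parametric_intervalIntegral_of_continuous'
        (f := fun y t => B (y - t) ^ 2 * P x 0 t) h6 (-L) L).measurable
    exact (ENNReal.measurable_ofReal.comp h5).const_mul _
  have hB2 : ∫⁻ y : ℝ, ENNReal.ofReal (B y ^ 2) ≤ ENNReal.ofReal (2 * Real.pi) * IH := by
    rw [hIH, plancherel (adm_Hs b fun n hn => pos_of_mem hn), hinv]
    refine lintegral_mono fun t => ?_
    rw [enorm_sq]
    apply ENNReal.ofReal_le_ofReal
    apply pow_le_pow_left₀ (mul_nonneg (norm_nonneg _) (norm_nonneg _))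
    rw [mellin_Hs, norm_neg, norm_mul]
    rw [qf_line]
    exact mul_le_mul_of_nonneg_right (fz_line t) (norm_nonneg _)
  calc ∫⁻ y in Icc (-R) R, ‖T y‖ₑ ^ 2
      ≤ ∫⁻ y in Icc (-R) R, ENNReal.ofReal A₀ * (ENNReal.ofReal (2 / Real.pi) *
          ENNReal.ofReal (Ii y) + ENNReal.ofReal (2 * P₂ ^ 2)) :=
        setLIntegral_mono' measurableSet_Icc hpt
    _ = ENNReal.ofReal A₀ * ((∫⁻ y in Icc (-R) R, ENNReal.ofReal (2 / Real.pi) *
          ENNReal.ofReal (Ii y)) + ENNReal.ofReal (2 * P₂ ^ 2) * ENNReal.ofReal (R - -R)) := by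
        rw [lintegral_const_mul' _ _ ENNReal.ofReal_ne_top, lintegral_add_left hBm,
          setLIntegral_const, Real.volume_Icc]
    _ ≤ ENNReal.ofReal A₀ * (ENNReal.ofReal (4 * Real.pi) * IH +
          ENNReal.ofReal (4 * R * P₂ ^ 2)) := by
        gcongr
        · calc ∫⁻ y in Icc (-R) R, ENNReal.ofReal (2 / Real.pi) * ENNReal.ofReal (Ii y)
              ≤ ∫⁻ y : ℝ, ENNReal.ofReal (2 / Real.pi) * ENNReal.ofReal (Ii y) :=
                setLIntegral_le_lintegral _ _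
            _ = ENNReal.ofReal (2 / Real.pi) * ∫⁻ y : ℝ, ENNReal.ofReal (Ii y) :=
                lintegral_const_mul' _ _ ENNReal.ofReal_ne_top
            _ ≤ ENNReal.ofReal (2 / Real.pi) * (ENNReal.ofReal Real.pi *
                  (ENNReal.ofReal (2 * Real.pi) * IH)) := by
                gcongr
                exact (conv_le hBc hx hL).trans (by gcongr)
            _ = ENNReal.ofReal (4 * Real.pi) * IH := by
                rw [← mul_assoc, ← mul_assoc, ← ENNReal.ofReal_mul (by positivity),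
                  ← ENNReal.ofReal_mul (by positivity)]
                congr 2
                field_simp
                ring
        · rw [← ENNReal.ofReal_mul (by positivity)]
          apply ENNReal.ofReal_le_ofReal
          apply le_of_eq
          ring
    _ = _ := rfl

end Pool.Agent.NBL
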