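import Mathlib
import Pool.Agent.NBL.GDef
import Pool.Agent.NBL.Low
import Pool.Agent.NBL.Eig

/-!
# The whole range, unconditionally: tools
-/

set_option autoImplicit false

open MeasureTheory Complex Set Filter Topology
open scoped ENNReal InnerProductSpace ComplexConjugate

namespace Pool.Agent.NBL

lemma log_sep_full {M : ℕ} (hM : 1 ≤ M) {T : ℝ} (hT : (M : ℝ) ≤ T) :
    ∀ j ∈ Finset.Icc 1 M, ∀ k ∈ Finset.Icc 1 M,
      |(j : ℝ) - k| ≤ 2 * T * |-Real.log j - -Real.log k| := by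
  have hM' : (1 : ℝ) ≤ M := by exact_mod_cast hM
  have main : ∀ j k : ℕ, 1 ≤ j → j ≤ k → k ≤ M →
      (k : ℝ) - j ≤ 2 * T * (Real.log k - Real.log j) := by
    intro j k h1 h2 h3
    have h1' : (1 : ℝ) ≤ j := by exact_mod_cast h1
    have h2' : (j : ℝ) ≤ k := by exact_mod_cast h2
    have h3' : (k : ℝ) ≤ M := by exact_mod_cast h3
    have hj : (0 : ℝ) < j := by linarith
    have hk : (0 : ℝ) < k := by linarith
    have h4 := Real.one_sub_inv_le_log_of_pos (div_pos hk hj)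
    rw [Real.log_div hk.ne' hj.ne', inv_div] at h4
    have h5 : ((k : ℝ) - j) / (2 * T) ≤ 1 - j / k := by
      have : (1 : ℝ) - j / k = (k - j) / k := by field_simp
      rw [this]
      apply div_le_div_of_nonneg_left (by linarith) hk
      linarith
    have hT0 : 0 < 2 * T := by linarith
    calc (k : ℝ) - j = 2 * T * (((k : ℝ) - j) / (2 * T)) := by
          rw [mul_div_cancel₀ _ hT0.ne']
      _ ≤ 2 * T * (Real.log k - Real.log j) := mul_le_mul_of_nonneg_left (h5.trans h4) hT0.le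
  intro j hj k hk
  rw [Finset.mem_Icc] at hj hk
  rcases le_total j k with h | h
  · have h1 := main j k hj.1 h hk.2
    have h2 : (j : ℝ) ≤ k := by exact_mod_cast h
    have h3 : Real.log j ≤ Real.log k := Real.log_le_log (by
      have : (1 : ℝ) ≤ j := by exact_mod_cast hj.1
      linarith) h2
    rw [abs_sub_comm, abs_of_nonneg (by linarith : (0 : ℝ) ≤ k - j),
      show -Real.log j - -Real.log k = Real.log k - Real.log j by ring,
      abs_of_nonneg (by linarith)]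
    exact h1
  · have h1 := main k j hk.1 h hj.2
    have h2 : (k : ℝ) ≤ j := by exact_mod_cast h
    have h3 : Real.log k ≤ Real.log j := Real.log_le_log (by
      have : (1 : ℝ) ≤ k := by exact_mod_cast hk.1
      linarith) h2
    rw [abs_of_nonneg (by linarith : (0 : ℝ) ≤ j - k),
      show -Real.log j - -Real.log k = -(Real.log j - Real.log k) by ring, abs_neg,
      abs_of_nonneg (by linarith)]
    exact h1

/-- mean value theorem for Dirichlet polynomials on long intervals -/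
theorem mean_value_full {M : ℕ} (hM : 1 ≤ M) {T : ℝ} (hT : (M : ℝ) ≤ T) (c : ℕ → ℂ) :
    ∫⁻ t in Icc (-T) T, ‖∑ k ∈ Finset.Icc 1 M, c k * (k : ℂ) ^ (-(1 / 2 + t * I))‖ₑ ^ 2 ≤
      ENNReal.ofReal (Kmv * T * ∑ k ∈ Finset.Icc 1 M, ‖c k‖ ^ 2 / k) := by
  have hM' : (1 : ℝ) ≤ M := by exact_mod_cast hM
  have hT0 : 0 < T := by linarith
  set s := Finset.Icc 1 M with hs
  set b : ℕ → ℂ := fun k => c k * ((k : ℝ) ^ (-(1 / 2) : ℝ) : ℝ) with hb
  set F : ℝ → ℂ := fun t => ∑ k ∈ s, b k * cexp (((-Real.log k * t : ℝ) : ℂ) * I) with hF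
  have hFeq : ∀ t : ℝ, ∑ k ∈ s, c k * (k : ℂ) ^ (-(1 / 2 + t * I)) = F t := by
    intro t
    refine Finset.sum_congr rfl fun k hk => ?_
    rw [hs, Finset.mem_Icc] at hk
    have hk0 : (0 : ℝ) < k := by
      have : (1 : ℝ) ≤ k := by exact_mod_cast hk.1
      linarith
    have hk1 : (k : ℂ) ≠ 0 := by exact_mod_cast hk0.ne'
    simp only [hb]
    rw [mul_assoc]
    congr 1
    rw [show (-(1 / 2 + t * I) : ℂ) = ((-(1 / 2) : ℝ) : ℂ) + ((-t : ℝ) : ℂ) * I by push_cast; ring,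
      cpow_add _ _ hk1]
    congr 1
    · rw [ofReal_cpow hk0.le]
      push_cast
      rfl
    · rw [cpow_def_of_ne_zero hk1, ← natCast_log]
      congr 1
      push_cast
      ring
  obtain ⟨hi, hg⟩ := gauss_mean (s := s) (b := b) (lam := fun k => -Real.log k) hT0
    (log_sep_full hM hT)
  have hFc : Continuous F := by
    simp only [hF]
    fun_prop
  have h1 : ∫⁻ t in Icc (-T) T, ‖∑ k ∈ s, c k * (k : ℂ) ^ (-(1 / 2 + t * I))‖ₑ ^ 2 ≤
      ∫⁻ t, ENNReal.ofReal (Real.exp 1 * (‖F t‖ ^ 2 * Real.exp (-(t / T) ^ 2))) := by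
    refine (setLIntegral_mono' (g := fun t => ENNReal.ofReal (Real.exp 1 * (‖F t‖ ^ 2 *
      Real.exp (-(t / T) ^ 2)))) measurableSet_Icc fun t ht => ?_).trans
      (setLIntegral_le_lintegral _ _)
    rw [hFeq, ← ofReal_norm, ← ENNReal.ofReal_pow (norm_nonneg _)]
    apply ENNReal.ofReal_le_ofReal
    have h2 : 1 ≤ Real.exp 1 * Real.exp (-(t / T) ^ 2) := by
      rw [← Real.exp_add]
      apply Real.one_le_exp
      have : (t / T) ^ 2 ≤ 1 := by
        rw [sq_le_one_iff_abs_le_one, abs_div, abs_of_pos hT0, div_le_one hT0, abs_le]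
        exact ht
      linarith
    nlinarith [sq_nonneg ‖F t‖]
  refine h1.trans ?_
  rw [← ofReal_integral_eq_lintegral_ofReal (hi.const_mul _)
    (Eventually.of_forall fun t => by positivity)]
  apply ENNReal.ofReal_le_ofReal
  rw [integral_const_mul]
  have hsum : ∑ k ∈ s, ‖b k‖ ^ 2 ≤ ∑ k ∈ s, ‖c k‖ ^ 2 / k := by
    refine Finset.sum_le_sum fun k hk => ?_
    rw [hs, Finset.mem_Icc] at hk
    have hk0 : (1 : ℝ) ≤ k := by exact_mod_cast hk.1
    have hk1 : (0 : ℝ) < k := by linarith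
    simp only [hb]
    rw [norm_mul, mul_pow, norm_real, Real.norm_of_nonneg (by positivity), ← Real.rpow_natCast,
      ← Real.rpow_natCast, ← Real.rpow_mul hk1.le]
    norm_num
    rw [Real.rpow_neg_one, div_eq_mul_inv]
  have hth := thS_pos
  calc Real.exp 1 * ∫ t : ℝ, ‖F t‖ ^ 2 * Real.exp (-(t / T) ^ 2)
      ≤ Real.exp 1 * (√Real.pi * T * thS * ∑ k ∈ s, ‖b k‖ ^ 2) :=
        mul_le_mul_of_nonneg_left hg (Real.exp_pos _).le
    _ ≤ Real.exp 1 * (√Real.pi * T * thS * ∑ k ∈ s, ‖c k‖ ^ 2 / k) := by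
        refine mul_le_mul_of_nonneg_left ?_ (Real.exp_pos _).le
        exact mul_le_mul_of_nonneg_left hsum (by positivity)
    _ = Kmv * T * ∑ k ∈ s, ‖c k‖ ^ 2 / k := by
        unfold Kmv
        ring

/-- the mean square of the numerators -/
lemma Nm_mean {N : ℕ} (hN : 1 ≤ N) {T : ℝ} (hT : (N : ℝ) + 1 ≤ T) (b : ℕ → ℂ) :
    ∫⁻ t in Icc (-T) T, ‖Nm N b (1 / 2 + t * I)‖ₑ ^ 2 ≤
      ENNReal.ofReal (4 * Kmv * T * ∑ n ∈ Finset.Icc 1 N, ‖b n‖ ^ 2 / n) := by
  have hN' : (1 : ℝ) ≤ N := by exact_mod_cast hN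
  have hK := Kmv_pos
  have hT0 : 0 < T := by linarith
  set c : ℕ → ℂ := fun k => if 2 ≤ k then b (k - 1) else 0 with hc
  set S : ℝ := ∑ n ∈ Finset.Icc 1 N, ‖b n‖ ^ 2 / n with hS
  have hS0 : 0 ≤ S := Finset.sum_nonneg fun n _ => by positivity
  have e1 : ∀ u : ℕ → ℂ, ∑ k ∈ Finset.Icc 1 (N + 1), c k * u k =
      ∑ n ∈ Finset.Icc 1 N, b n * u (n + 1) := by
    intro u
    have e0 : Finset.Icc 1 (N + 1) = Finset.Ico 1 (N + 2) := by
      ext k; simp only [Finset.mem_Icc, Finset.mem_Ico]; omega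
    have e2 : Finset.Icc 1 N = Finset.Ico 1 (N + 1) := by
      ext k; simp only [Finset.mem_Icc, Finset.mem_Ico]; omega
    rw [e0, Finset.sum_eq_sum_Ico_succ_bot (by omega), e2]
    have hc1 : c 1 = 0 := by simp [hc]
    rw [hc1, zero_mul, zero_add, ← Finset.sum_Ico_add' (fun k => c k * u k) 1 (N + 1) 1]
    refine Finset.sum_congr rfl fun k hk => ?_
    rw [Finset.mem_Ico] at hk
    simp only [hc]
    rw [if_pos (by omega), Nat.add_sub_cancel]
  have e3 : ∀ t : ℝ, Nm N b (1 / 2 + t * I) =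
      (∑ k ∈ Finset.Icc 1 N, b k * (k : ℂ) ^ (-(1 / 2 + t * I))) -
        ∑ k ∈ Finset.Icc 1 (N + 1), c k * (k : ℂ) ^ (-(1 / 2 + t * I)) := by
    intro t
    rw [e1 (fun k => (k : ℂ) ^ (-(1 / 2 + t * I)))]
    unfold Nm un
    rw [← Finset.sum_sub_distrib]
    refine Finset.sum_congr rfl fun k _ => ?_
    ring
  have hc2 : ∑ k ∈ Finset.Icc 1 (N + 1), ‖c k‖ ^ 2 / k ≤ S := by
    have e4 : ∑ k ∈ Finset.Icc 1 (N + 1), ‖c k‖ ^ 2 / (k : ℝ) =
        ∑ n ∈ Finset.Icc 1 N, ‖b n‖ ^ 2 / ((n + 1 : ℕ) : ℝ) := by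
      have e0 : Finset.Icc 1 (N + 1) = Finset.Ico 1 (N + 2) := by
        ext k; simp only [Finset.mem_Icc, Finset.mem_Ico]; omega
      have e2 : Finset.Icc 1 N = Finset.Ico 1 (N + 1) := by
        ext k; simp only [Finset.mem_Icc, Finset.mem_Ico]; omega
      rw [e0, Finset.sum_eq_sum_Ico_succ_bot (by omega), e2]
      have hc1 : c 1 = 0 := by simp [hc]
      rw [hc1, ← Finset.sum_Ico_add' (fun k : ℕ => ‖c k‖ ^ 2 / (k : ℝ)) 1 (N + 1) 1]
      simp only [norm_zero, ne_eq, OfNat.ofNat_ne_zero, not_false_eq_true, zero_pow, zero_div,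
        zero_add]
      refine Finset.sum_congr rfl fun k hk => ?_
      rw [Finset.mem_Ico] at hk
      simp only [hc]
      rw [if_pos (by omega), Nat.add_sub_cancel]
    rw [e4, hS]
    refine Finset.sum_le_sum fun n hn => ?_
    have hn0 : (0 : ℝ) < n := by exact_mod_cast pos_of_mem hn
    apply div_le_div_of_nonneg_left (by positivity) hn0
    push_cast
    linarith
  have m1 := mean_value_full hN (T := T) (by linarith) b
  have m2 := mean_value_full (M := N + 1) (by omega) (T := T) (by push_cast; linarith) c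
  have hmeas : Measurable fun t : ℝ =>
      2 * ‖∑ k ∈ Finset.Icc 1 N, b k * (k : ℂ) ^ (-(1 / 2 + t * I))‖ₑ ^ 2 := by
    have h1 : Continuous fun t : ℝ => ∑ k ∈ Finset.Icc 1 N, b k * (k : ℂ) ^ (-(1 / 2 + t * I)) :=
      Dp_cont (s := Finset.Icc 1 N) (fun k hk => pos_of_mem hk) b
    exact (h1.measurable.enorm.pow_const 2).const_mul 2
  calc ∫⁻ t in Icc (-T) T, ‖Nm N b (1 / 2 + t * I)‖ₑ ^ 2
      ≤ ∫⁻ t in Icc (-T) T, (2 * ‖∑ k ∈ Finset.Icc 1 N, b k * (k : ℂ) ^ (-(1 / 2 + t * I))‖ₑ ^ 2 +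
          2 * ‖∑ k ∈ Finset.Icc 1 (N + 1), c k * (k : ℂ) ^ (-(1 / 2 + t * I))‖ₑ ^ 2) := by
        refine lintegral_mono fun t => ?_
        rw [e3 t]
        refine (enorm_sq_add_le _ _).trans (add_le_add le_rfl ?_)
        rw [enorm_sq, ENNReal.ofReal_mul (by norm_num)]
        simp
    _ = 2 * (∫⁻ t in Icc (-T) T,
          ‖∑ k ∈ Finset.Icc 1 N, b k * (k : ℂ) ^ (-(1 / 2 + t * I))‖ₑ ^ 2) +
        2 * ∫⁻ t in Icc (-T) T,
          ‖∑ k ∈ Finset.Icc 1 (N + 1), c k * (k : ℂ) ^ (-(1 / 2 + t * I))‖ₑ ^ 2 := by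
        rw [lintegral_add_left hmeas, lintegral_const_mul' _ _ (by simp),
          lintegral_const_mul' _ _ (by simp)]
    _ ≤ 2 * ENNReal.ofReal (Kmv * T * S) + 2 * ENNReal.ofReal (Kmv * T * S) := by
        gcongr
        refine m2.trans (ENNReal.ofReal_le_ofReal ?_)
        exact mul_le_mul_of_nonneg_left hc2 (by positivity)
    _ = _ := by
        have h2 : (2 : ℝ≥0∞) = ENNReal.ofReal 2 := by simp
        rw [h2, ← ENNReal.ofReal_mul (by norm_num), ← ENNReal.ofReal_add (by positivity)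
          (by positivity)]
        congr 1
        ring

/-- high frequencies -/
lemma high_full {N : ℕ} (hN : 1 ≤ N) {R : ℝ} (hR : (N : ℝ) + 1 ≤ R) (b : ℕ → ℂ) :
    ∫⁻ t in {t : ℝ | R ≤ |t|}, ‖Nm N b (1 / 2 + t * I) / (1 / 2 + t * I)‖ₑ ^ 2 ≤
      ENNReal.ofReal (16 * Kmv * (∑ n ∈ Finset.Icc 1 N, ‖b n‖ ^ 2 / n) / R) := by
  have hN' : (1 : ℝ) ≤ N := by exact_mod_cast hN
  have hR0 : 0 < R := by linarith
  have hK := Kmv_pos
  set D : ℝ → ℂ := fun t => Nm N b (1 / 2 + t * I) with hD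
  set S : ℝ := ∑ n ∈ Finset.Icc 1 N, ‖b n‖ ^ 2 / n with hS
  have hS0 : 0 ≤ S := Finset.sum_nonneg fun n _ => by positivity
  set Bl : ℕ → Set ℝ := fun j => {t : ℝ | 2 ^ j * R ≤ |t| ∧ |t| ≤ 2 ^ (j + 1) * R} with hBl
  have hBlm : ∀ j, MeasurableSet (Bl j) := by
    intro j
    exact (measurableSet_le measurable_const continuous_abs.measurable).inter
      (measurableSet_le continuous_abs.measurable measurable_const)
  have hcover : {t : ℝ | R ≤ |t|} ⊆ ⋃ j, Bl j := by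
    intro t ht
    have h1 : 1 ≤ |t| / R := by
      rw [le_div_iff₀ hR0, one_mul]
      exact ht
    obtain ⟨n, hn1, hn2⟩ := exists_nat_pow_near h1 (one_lt_two)
    rw [mem_iUnion]
    refine ⟨n, ?_, ?_⟩
    · rwa [le_div_iff₀ hR0] at hn1
    · rw [div_lt_iff₀ hR0] at hn2
      exact hn2.le
  have hblock : ∀ j : ℕ, ∫⁻ t in Bl j, ‖D t / (1 / 2 + t * I)‖ₑ ^ 2 ≤
      ENNReal.ofReal (8 * Kmv * S / R * (1 / 2) ^ j) := by
    intro j
    set T : ℝ := 2 ^ (j + 1) * R with hT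
    have hTN : (N : ℝ) + 1 ≤ T := by
      have : (1 : ℝ) ≤ 2 ^ (j + 1) := one_le_pow₀ (by norm_num)
      nlinarith
    have hT0 : 0 < T := by linarith
    have h1 : ∀ t ∈ Bl j, ‖D t / (1 / 2 + t * I)‖ₑ ^ 2 ≤ ENNReal.ofReal (4 / T ^ 2) * ‖D t‖ₑ ^ 2 := by
      intro t ht
      obtain ⟨ht1, ht2⟩ := ht
      have ht3 : T / 2 ≤ |t| := by
        rw [hT, pow_succ]
        linarith
      rw [enorm_sq, enorm_sq, ← ENNReal.ofReal_mul (by positivity)]
      apply ENNReal.ofReal_le_ofReal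
      rw [norm_div]
      have h3 := (half_norm t).1
      calc (‖D t‖ / ‖(1 / 2 + t * I : ℂ)‖) ^ 2 ≤ (‖D t‖ / (T / 2)) ^ 2 := by
            apply pow_le_pow_left₀ (by positivity)
            exact div_le_div_of_nonneg_left (norm_nonneg _) (by positivity) (ht3.trans h3)
        _ = 4 / T ^ 2 * ‖D t‖ ^ 2 := by
            field_simp
            ring
    have hsub : Bl j ⊆ Icc (-T) T := fun t ht => abs_le.1 ht.2
    calc ∫⁻ t in Bl j, ‖D t / (1 / 2 + t * I)‖ₑ ^ 2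
        ≤ ∫⁻ t in Bl j, ENNReal.ofReal (4 / T ^ 2) * ‖D t‖ₑ ^ 2 := setLIntegral_mono' (hBlm j) h1
      _ ≤ ∫⁻ t in Icc (-T) T, ENNReal.ofReal (4 / T ^ 2) * ‖D t‖ₑ ^ 2 := lintegral_mono_set hsub
      _ = ENNReal.ofReal (4 / T ^ 2) * ∫⁻ t in Icc (-T) T, ‖D t‖ₑ ^ 2 := by
          rw [lintegral_const_mul' _ _ ENNReal.ofReal_ne_top]
      _ ≤ ENNReal.ofReal (4 / T ^ 2) * ENNReal.ofReal (4 * Kmv * T * S) := by
          gcongr
          exact Nm_mean hN hTN b
      _ = _ := by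
          rw [← ENNReal.ofReal_mul (by positivity)]
          congr 1
          rw [hT, pow_succ]
          rw [div_pow, one_pow]
          field_simp
          ring
  calc _ ≤ ∫⁻ t in ⋃ j, Bl j, ‖D t / (1 / 2 + t * I)‖ₑ ^ 2 := lintegral_mono_set hcover
    _ ≤ ∑' j, ∫⁻ t in Bl j, ‖D t / (1 / 2 + t * I)‖ₑ ^ 2 := lintegral_iUnion_le _ _
    _ ≤ ∑' j, ENNReal.ofReal (8 * Kmv * S / R * (1 / 2) ^ j) := ENNReal.tsum_le_tsum hblock
    _ = ENNReal.ofReal (16 * Kmv * S / R) := by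
        rw [← ENNReal.ofReal_tsum_of_nonneg (fun j => by positivity)
          ((summable_geometric_of_lt_one (by norm_num) (by norm_num)).mul_left _), tsum_mul_left,
          tsum_geometric_of_lt_one (by norm_num) (by norm_num)]
        congr 1
        ring

/-- vectors with a small quadratic form live on the set of small values of zeta -/
lemma small_full {ε : ℝ} {N : ℕ} (hN1 : 1 ≤ N) (b : ℕ → ℂ)
    (hb1 : ∑ n ∈ Finset.Icc 1 N, ‖b n‖ ^ 2 / n ≤ N)
    (hb2 : 1 / 2 ≤ ∑ n ∈ Finset.Icc 1 N, ‖b n‖ ^ 2 * (1 / n - 1 / ((n : ℝ) + 1)))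
    (hsm : ∫⁻ t in Ioi (0 : ℝ), ‖Hs b (Finset.Icc 1 N) t‖ₑ ^ 2 ≤
      ENNReal.ofReal ((N : ℝ) ^ (-(2 * ε)) / (8 * Real.pi))) :
    ENNReal.ofReal 2 ≤ ∫⁻ t in SmallSet N ε ((64 * Kmv + 2) * N),
        ‖Nm N b (1 / 2 + t * I) / (1 / 2 + t * I)‖ₑ ^ 2 := by
  have hK := Kmv_pos
  set Λ : ℝ := 64 * Kmv + 2 with hΛ
  have hN' : (1 : ℝ) ≤ N := by exact_mod_cast hN1
  have hN0 : (0 : ℝ) < N := by linarith
  set R : ℝ := Λ * N with hR
  have hNR : (N : ℝ) + 1 ≤ R := by nlinarith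
  have hR0 : 0 < R := by linarith
  set g : ℝ → ℝ≥0∞ := fun t => ‖Nm N b (1 / 2 + t * I) / (1 / 2 + t * I)‖ₑ ^ 2 with hg
  set Z : ℝ → ℝ≥0∞ := fun t => ‖riemannZeta (1 / 2 + t * I)‖ₑ ^ 2 with hZ
  have hpi : (0 : ℝ) < 2 * Real.pi := by positivity
  have hpi3 := Real.pi_gt_three
  have hinv : ∀ x : ℝ≥0∞, ENNReal.ofReal (2 * Real.pi) * (ENNReal.ofReal (1 / (2 * Real.pi)) * x) =
      x := by
    intro x
    rw [← mul_assoc, ← ENNReal.ofReal_mul hpi.le]
    rw [show 2 * Real.pi * (1 / (2 * Real.pi)) = 1 by field_simp]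
    simp
  have hg_low : ENNReal.ofReal 3 ≤ ∫⁻ t, g t := by
    have h1 := Fs_sq N b
    rw [plancherel (adm_Fs N b)] at h1
    have h0 : ∀ t : ℝ, mellin (Fs N b) (1 / 2 + t * I) =
        Nm N b (1 / 2 + t * I) / (1 / 2 + t * I) := fun t =>
      mellin_Fs N b (by simp) (by simp; norm_num)
    simp_rw [h0] at h1
    have h2 := congrArg (fun z => ENNReal.ofReal (2 * Real.pi) * z) h1
    simp only [hinv] at h2
    rw [hg, h2, ← ENNReal.ofReal_mul hpi.le]
    apply ENNReal.ofReal_le_ofReal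
    nlinarith
  have hhigh : ∫⁻ t in {t : ℝ | R ≤ |t|}, g t ≤ ENNReal.ofReal (1 / 4) := by
    refine (high_full hN1 hNR b).trans (ENNReal.ofReal_le_ofReal ?_)
    rw [div_le_iff₀ hR0, hR]
    nlinarith
  set W : Set ℝ := {t : ℝ | (N : ℝ) ^ (-ε) ≤ ‖riemannZeta (1 / 2 + t * I)‖} with hW
  have hWm : MeasurableSet W := measurableSet_le measurable_const
    Pool.Agent.Lib.ThickFailure.continuous_zeta_line.norm.measurable
  have hZg : ∫⁻ t, Z t * g t ≤ ENNReal.ofReal (2 * Real.pi *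
      ((N : ℝ) ^ (-(2 * ε)) / (8 * Real.pi))) := by
    rw [plancherel (adm_Hs b fun n hn => pos_of_mem hn)] at hsm
    simp_rw [mellin_Hs, enorm_neg, enorm_mul, mul_pow] at hsm
    have h2 := mul_le_mul_right hsm (ENNReal.ofReal (2 * Real.pi))
    rwa [hinv, ← ENNReal.ofReal_mul hpi.le] at h2
  have hWup : ∫⁻ t in W, g t ≤ ENNReal.ofReal (1 / 4) := by
    calc ∫⁻ t in W, g t ≤ ∫⁻ t in W, ENNReal.ofReal ((N : ℝ) ^ (2 * ε)) * (Z t * g t) := by
          refine setLIntegral_mono' hWm fun t ht => ?_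
          rw [← mul_assoc]
          refine le_mul_of_one_le_left (zero_le) ?_
          simp only [hZ]
          rw [enorm_sq, ← ENNReal.ofReal_mul (by positivity), ENNReal.one_le_ofReal]
          calc (1 : ℝ) = (N : ℝ) ^ (2 * ε) * ((N : ℝ) ^ (-ε)) ^ 2 := by
                rw [← Real.rpow_natCast, ← Real.rpow_mul hN0.le, ← Real.rpow_add hN0]
                rw [show 2 * ε + -ε * ((2 : ℕ) : ℝ) = 0 by push_cast; ring, Real.rpow_zero]
            _ ≤ (N : ℝ) ^ (2 * ε) * ‖riemannZeta (1 / 2 + t * I)‖ ^ 2 := by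
                gcongr
                exact ht
      _ = ENNReal.ofReal ((N : ℝ) ^ (2 * ε)) * ∫⁻ t in W, Z t * g t := by
          rw [lintegral_const_mul' _ _ ENNReal.ofReal_ne_top]
      _ ≤ ENNReal.ofReal ((N : ℝ) ^ (2 * ε)) * ENNReal.ofReal (2 * Real.pi *
            ((N : ℝ) ^ (-(2 * ε)) / (8 * Real.pi))) := by
          gcongr
          exact (setLIntegral_le_lintegral _ _).trans hZg
      _ = ENNReal.ofReal ((N : ℝ) ^ (2 * ε) * (2 * Real.pi *
            ((N : ℝ) ^ (-(2 * ε)) / (8 * Real.pi)))) :=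
          (ENNReal.ofReal_mul (by positivity)).symm
      _ ≤ _ := by
          apply ENNReal.ofReal_le_ofReal
          apply le_of_eq
          have h5 : 0 < (N : ℝ) ^ (2 * ε) := by positivity
          rw [Real.rpow_neg hN0.le]
          field_simp
          ring
  have hcov : (univ : Set ℝ) ⊆ ({t : ℝ | R ≤ |t|} ∪ SmallSet N ε R) ∪ W := by
    intro t _
    by_cases h1 : R ≤ |t|
    · exact Or.inl (Or.inl h1)
    · by_cases h2 : (N : ℝ) ^ (-ε) ≤ ‖riemannZeta (1 / 2 + t * I)‖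
      · exact Or.inr h2
      · refine Or.inl (Or.inr ⟨?_, not_le.1 h2⟩)
        rw [not_le] at h1
        exact abs_le.1 h1.le
  have h1 : ENNReal.ofReal 3 ≤ ENNReal.ofReal (1 / 2) + ∫⁻ t in SmallSet N ε R, g t := by
    calc ENNReal.ofReal 3 ≤ ∫⁻ t, g t := hg_low
      _ = ∫⁻ t in univ, g t := by rw [Measure.restrict_univ]
      _ ≤ ∫⁻ t in ({t : ℝ | R ≤ |t|} ∪ SmallSet N ε R) ∪ W, g t := lintegral_mono_set hcov
      _ ≤ (∫⁻ t in {t : ℝ | R ≤ |t|} ∪ SmallSet N ε R, g t) + ∫⁻ t in W, g t :=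
          lintegral_union_le _ _ _
      _ ≤ ((∫⁻ t in {t : ℝ | R ≤ |t|}, g t) + ∫⁻ t in SmallSet N ε R, g t) + ∫⁻ t in W, g t := by
          gcongr
          exact lintegral_union_le _ _ _
      _ ≤ (ENNReal.ofReal (1 / 4) + ∫⁻ t in SmallSet N ε R, g t) + ENNReal.ofReal (1 / 4) := by
          gcongr
      _ = (ENNReal.ofReal (1 / 4) + ENNReal.ofReal (1 / 4)) + ∫⁻ t in SmallSet N ε R, g t := by
          ring
      _ = _ := by
          rw [← ENNReal.ofReal_add (by positivity) (by positivity)]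
          congr 2
          norm_num
  have h2 : ENNReal.ofReal 3 = ENNReal.ofReal (1 / 2) + ENNReal.ofReal (5 / 2) := by
    rw [← ENNReal.ofReal_add (by positivity) (by positivity)]
    congr 1
    norm_num
  rw [h2] at h1
  exact (ENNReal.ofReal_le_ofReal (by norm_num)).trans
    (ENNReal.le_of_add_le_add_left ENNReal.ofReal_ne_top h1)

end Pool.Agent.NBL
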