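import Mathlib
import Pool.Agent.NBL.Full

/-!
# The whole range, unconditionally: counting
-/

set_option autoImplicit false

open MeasureTheory Complex Set Filter Topology
open scoped ENNReal InnerProductSpace ComplexConjugate

namespace Pool.Agent.NBL

lemma un_b1 {n : ℕ} (hn : 0 < n) (t : ℝ) :
    ‖un n (1 / 2 + t * I) / (1 / 2 + t * I)‖ ^ 2 ≤ 1 / (n : ℝ) ^ 3 := by
  have hn0 : (0 : ℝ) < n := by exact_mod_cast hn
  set s : ℂ := 1 / 2 + t * I with hs
  have hs0 : s ≠ 0 := half_ne t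
  have hd : ∀ x ∈ Icc (n : ℝ) (n + 1), HasDerivWithinAt
      (fun y : ℝ => (y : ℂ) ^ ((-s - 1) + 1) / ((-s - 1) + 1)) ((x : ℂ) ^ (-s - 1))
      (Icc (n : ℝ) (n + 1)) x := by
    intro x hx
    have hx0 : x ≠ 0 := (lt_of_lt_of_le hn0 hx.1).ne'
    refine (hasDerivAt_ofReal_cpow_const' hx0 ?_).hasDerivWithinAt
    intro h
    apply hs0
    linear_combination -h
  have hb : ∀ x ∈ Ico (n : ℝ) (n + 1), ‖(x : ℂ) ^ (-s - 1)‖ ≤ (n : ℝ) ^ (-(3 / 2) : ℝ) := by
    intro x hx
    have hx0 : 0 < x := lt_of_lt_of_le hn0 hx.1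
    rw [norm_cpow_eq_rpow_re_of_pos hx0]
    have e : (-s - 1).re = -(3 / 2) := by
      rw [hs]
      simp
      norm_num
    rw [e]
    exact Real.rpow_le_rpow_of_nonpos hn0 hx.1 (by norm_num)
  have h1 := norm_image_sub_le_of_norm_deriv_le_segment' hd hb (n + 1)
    (right_mem_Icc.2 (by linarith))
  have e1 : (fun y : ℝ => (y : ℂ) ^ ((-s - 1) + 1) / ((-s - 1) + 1)) ((n : ℝ) + 1) -
      (fun y : ℝ => (y : ℂ) ^ ((-s - 1) + 1) / ((-s - 1) + 1)) n = un n s / s := by
    unfold un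
    simp only [sub_add_cancel]
    push_cast
    field_simp
    ring
  rw [e1, add_sub_cancel_left, mul_one] at h1
  calc ‖un n s / s‖ ^ 2 ≤ ((n : ℝ) ^ (-(3 / 2) : ℝ)) ^ 2 := pow_le_pow_left₀ (norm_nonneg _) h1 2
    _ = 1 / (n : ℝ) ^ 3 := by
        rw [← Real.rpow_natCast, ← Real.rpow_mul hn0.le, one_div, ← Real.rpow_natCast,
          ← Real.rpow_neg hn0.le]
        norm_num

lemma un_b2 {n : ℕ} (hn : 0 < n) {t : ℝ} (ht : t ≠ 0) :
    ‖un n (1 / 2 + t * I) / (1 / 2 + t * I)‖ ^ 2 ≤ 4 / n * (1 / t ^ 2) := by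
  have hn0 : (0 : ℝ) < n := by exact_mod_cast hn
  have ht2 : 0 < t ^ 2 := by positivity
  have hk : ∀ k : ℕ, n ≤ k → ‖(k : ℂ) ^ (-(1 / 2 + t * I))‖ ≤ (n : ℝ) ^ (-(1 / 2) : ℝ) := by
    intro k hk
    rw [norm_natCast_cpow_of_pos (by omega)]
    have e : (-(1 / 2 + t * I) : ℂ).re = -(1 / 2) := by simp
    rw [e]
    exact Real.rpow_le_rpow_of_nonpos hn0 (by exact_mod_cast hk) (by norm_num)
  have h1 : ‖un n (1 / 2 + t * I)‖ ≤ 2 * (n : ℝ) ^ (-(1 / 2) : ℝ) := by
    unfold un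
    refine (norm_sub_le _ _).trans ?_
    have h2 := hk n le_rfl
    have h3 := hk (n + 1) (by omega)
    linarith
  have h2 : t ^ 2 ≤ ‖(1 / 2 + t * I : ℂ)‖ ^ 2 := by
    rw [← sq_abs t]
    exact pow_le_pow_left₀ (abs_nonneg _) (half_norm t).1 2
  rw [norm_div, div_pow, div_eq_mul_one_div]
  apply mul_le_mul _ (one_div_le_one_div_of_le ht2 h2) (by positivity) (by positivity)
  calc ‖un n (1 / 2 + t * I)‖ ^ 2 ≤ (2 * (n : ℝ) ^ (-(1 / 2) : ℝ)) ^ 2 :=
        pow_le_pow_left₀ (norm_nonneg _) h1 2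
    _ = 4 / n := by
        rw [mul_pow, ← Real.rpow_natCast ((n : ℝ) ^ (-(1 / 2) : ℝ)), ← Real.rpow_mul hn0.le]
        norm_num
        rw [Real.rpow_neg_one]
        ring

/-- the kernel on the diagonal -/
noncomputable def kr (N : ℕ) (t : ℝ) : ℝ :=
  ∑ n ∈ Finset.Icc 1 N, (n : ℝ) ^ 2 * ‖un n (1 / 2 + t * I) / (1 / 2 + t * I)‖ ^ 2

lemma kr_term (n : ℕ) : Measurable fun t : ℝ =>
    ENNReal.ofReal ((n : ℝ) ^ 2 * ‖un n (1 / 2 + t * I) / (1 / 2 + t * I)‖ ^ 2) := by
  rcases Nat.eq_zero_or_pos n with hn | hn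
  · rw [hn]
    simp
  · have h1 : Continuous fun t : ℝ => un n (1 / 2 + t * I) / (1 / 2 + t * I) := by
      have h2 : Continuous fun t : ℝ => un n (1 / 2 + t * I) := by
        unfold un
        have h3 : (n : ℂ) ≠ 0 := by exact_mod_cast hn.ne'
        have h4 : ((n + 1 : ℕ) : ℂ) ≠ 0 := by exact_mod_cast (Nat.succ_ne_zero n)
        exact (Continuous.const_cpow (by fun_prop) (Or.inl h3)).sub
          (Continuous.const_cpow (by fun_prop) (Or.inl h4))
      exact h2.div (by fun_prop) half_ne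
    exact ENNReal.measurable_ofReal.comp
      ((continuous_const.mul (h1.norm.pow 2)).measurable)

/-- the kernel is small in the mean on sets of small measure -/
lemma kr_set {N : ℕ} (hN : 1 ≤ N) {ρ δ' : ℝ} (hρ : 0 < ρ) (hδ' : 0 ≤ δ') {E : Set ℝ}
    (hEm : MeasurableSet E) (hE : volume E ≤ ENNReal.ofReal (δ' * N)) :
    ∫⁻ t in E, ENNReal.ofReal (kr N t) ≤ ENNReal.ofReal ((36 * ρ + 4 * δ' / ρ ^ 4) * N) := by
  have hN' : (1 : ℝ) ≤ N := by exact_mod_cast hN
  have hN0 : (0 : ℝ) < N := by linarith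
  set A : Set ℝ := {t : ℝ | |t| ≤ ρ ^ 2 * N} with hA
  have hAm : MeasurableSet A := measurableSet_le continuous_abs.measurable measurable_const
  have hsplit : E ⊆ A ∪ (E \ A) := by
    intro t ht
    by_cases h : t ∈ A
    · exact Or.inl h
    · exact Or.inr ⟨ht, h⟩
  -- low frequencies
  have hlow : ∫⁻ t in A, ENNReal.ofReal (kr N t) ≤ ENNReal.ofReal (36 * ρ * N) := by
    have h1 : ∀ t : ℝ, ENNReal.ofReal (kr N t) = ∑ n ∈ Finset.Icc 1 N,
        ENNReal.ofReal ((n : ℝ) ^ 2 * ‖un n (1 / 2 + t * I) / (1 / 2 + t * I)‖ ^ 2) := by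
      intro t
      unfold kr
      exact ENNReal.ofReal_sum_of_nonneg fun n _ => by positivity
    simp_rw [h1]
    rw [lintegral_finsetSum _ fun n _ => kr_term n]
    have hterm : ∀ n ∈ Finset.Icc 1 N, ∫⁻ t in A,
        ENNReal.ofReal ((n : ℝ) ^ 2 * ‖un n (1 / 2 + t * I) / (1 / 2 + t * I)‖ ^ 2) ≤
        ENNReal.ofReal (if (n : ℝ) ≤ ρ * N then 34 else 2 * ρ) := by
      intro n hn
      have hn0 : (0 : ℝ) < n := by exact_mod_cast pos_of_mem hn
      have hp1 : ∀ t : ℝ, (n : ℝ) ^ 2 * ‖un n (1 / 2 + t * I) / (1 / 2 + t * I)‖ ^ 2 ≤ 1 / n := by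
        intro t
        calc (n : ℝ) ^ 2 * ‖un n (1 / 2 + t * I) / (1 / 2 + t * I)‖ ^ 2 ≤
              (n : ℝ) ^ 2 * (1 / (n : ℝ) ^ 3) :=
              mul_le_mul_of_nonneg_left (un_b1 (pos_of_mem hn) t) (by positivity)
          _ = 1 / n := by field_simp
      split_ifs with hc
      · have hp2 : ∀ t : ℝ, t ≠ 0 →
            (n : ℝ) ^ 2 * ‖un n (1 / 2 + t * I) / (1 / 2 + t * I)‖ ^ 2 ≤
              4 * n * (1 / t ^ 2) := by
          intro t ht
          calc (n : ℝ) ^ 2 * ‖un n (1 / 2 + t * I) / (1 / 2 + t * I)‖ ^ 2 ≤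
                (n : ℝ) ^ 2 * (4 / n * (1 / t ^ 2)) :=
                mul_le_mul_of_nonneg_left (un_b2 (pos_of_mem hn) ht) (by positivity)
            _ = 4 * n * (1 / t ^ 2) := by field_simp
        have hcov : A ⊆ Icc (-(n : ℝ)) n ∪ {t : ℝ | (n : ℝ) ≤ |t|} := by
          intro t _
          rcases le_total |t| (n : ℝ) with h | h
          · exact Or.inl (abs_le.1 h)
          · exact Or.inr h
        have hm : MeasurableSet {t : ℝ | (n : ℝ) ≤ |t|} :=
          measurableSet_le measurable_const continuous_abs.measurable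
        calc _ ≤ ∫⁻ t in Icc (-(n : ℝ)) n ∪ {t : ℝ | (n : ℝ) ≤ |t|},
              ENNReal.ofReal ((n : ℝ) ^ 2 * ‖un n (1 / 2 + t * I) / (1 / 2 + t * I)‖ ^ 2) :=
              lintegral_mono_set hcov
          _ ≤ (∫⁻ t in Icc (-(n : ℝ)) n,
              ENNReal.ofReal ((n : ℝ) ^ 2 * ‖un n (1 / 2 + t * I) / (1 / 2 + t * I)‖ ^ 2)) +
              ∫⁻ t in {t : ℝ | (n : ℝ) ≤ |t|},
              ENNReal.ofReal ((n : ℝ) ^ 2 * ‖un n (1 / 2 + t * I) / (1 / 2 + t * I)‖ ^ 2) :=
              lintegral_union_le _ _ _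
          _ ≤ (∫⁻ _t in Icc (-(n : ℝ)) n, ENNReal.ofReal (1 / n)) +
              ∫⁻ t in {t : ℝ | (n : ℝ) ≤ |t|},
                ENNReal.ofReal (4 * n) * ENNReal.ofReal (1 / t ^ 2) := by
              gcongr ?_ + ?_
              · exact lintegral_mono fun t => ENNReal.ofReal_le_ofReal (hp1 t)
              · refine setLIntegral_mono' hm fun t ht => ?_
                rw [← ENNReal.ofReal_mul (by positivity)]
                apply ENNReal.ofReal_le_ofReal
                apply hp2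
                intro h0
                rw [mem_ofPred_eq, h0, abs_zero] at ht
                linarith
          _ ≤ ENNReal.ofReal 2 + ENNReal.ofReal 32 := by
              gcongr ?_ + ?_
              · rw [setLIntegral_const, Real.volume_Icc, ← ENNReal.ofReal_mul (by positivity)]
                apply ENNReal.ofReal_le_ofReal
                apply le_of_eq
                field_simp
                ring
              · rw [lintegral_const_mul' _ _ ENNReal.ofReal_ne_top]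
                calc ENNReal.ofReal (4 * n) *
                      ∫⁻ t in {t : ℝ | (n : ℝ) ≤ |t|}, ENNReal.ofReal (1 / t ^ 2)
                    ≤ ENNReal.ofReal (4 * n) * ENNReal.ofReal (8 / n) := by
                      gcongr
                      exact tail_sq hn0
                  _ = ENNReal.ofReal 32 := by
                      rw [← ENNReal.ofReal_mul (by positivity)]
                      congr 1
                      field_simp
                      norm_num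
          _ = ENNReal.ofReal 34 := by
              rw [← ENNReal.ofReal_add (by norm_num) (by norm_num)]
              norm_num
      · rw [not_le] at hc
        have hsub : A ⊆ Icc (-(ρ ^ 2 * N)) (ρ ^ 2 * N) := fun t ht => abs_le.1 ht
        calc _ ≤ ∫⁻ t in Icc (-(ρ ^ 2 * N)) (ρ ^ 2 * N),
              ENNReal.ofReal ((n : ℝ) ^ 2 * ‖un n (1 / 2 + t * I) / (1 / 2 + t * I)‖ ^ 2) :=
              lintegral_mono_set hsub
          _ ≤ ∫⁻ _t in Icc (-(ρ ^ 2 * N)) (ρ ^ 2 * N), ENNReal.ofReal (1 / n) :=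
              lintegral_mono fun t => ENNReal.ofReal_le_ofReal (hp1 t)
          _ = ENNReal.ofReal (1 / n * (ρ ^ 2 * N - -(ρ ^ 2 * N))) := by
              rw [setLIntegral_const, Real.volume_Icc, ← ENNReal.ofReal_mul (by positivity)]
          _ ≤ ENNReal.ofReal (2 * ρ) := by
              apply ENNReal.ofReal_le_ofReal
              rw [one_div_mul_eq_div, div_le_iff₀ hn0]
              have : ρ * (ρ * N) ≤ ρ * n := mul_le_mul_of_nonneg_left hc.le hρ.le
              nlinarith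
    refine (Finset.sum_le_sum hterm).trans ?_
    rw [← ENNReal.ofReal_sum_of_nonneg fun n _ => by split_ifs <;> positivity]
    apply ENNReal.ofReal_le_ofReal
    have h2 : ∀ n ∈ Finset.Icc 1 N, (if (n : ℝ) ≤ ρ * N then (34 : ℝ) else 2 * ρ) ≤
        (if n ∈ Finset.Icc 1 ⌊ρ * N⌋₊ then (34 : ℝ) else 0) + 2 * ρ := by
      intro n hn
      have hn1 := pos_of_mem hn
      split_ifs with c1 c2 c2
      · linarith
      · exfalso
        apply c2
        rw [Finset.mem_Icc]
        exact ⟨hn1, Nat.le_floor c1⟩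
      · linarith
      · linarith
    refine (Finset.sum_le_sum h2).trans ?_
    rw [Finset.sum_add_distrib, Finset.sum_const, Nat.card_Icc, Nat.add_sub_cancel, nsmul_eq_mul]
    have h3 : ∑ n ∈ Finset.Icc 1 N, (if n ∈ Finset.Icc 1 ⌊ρ * N⌋₊ then (34 : ℝ) else 0) ≤
        34 * (ρ * N) := by
      rw [← Finset.sum_filter, Finset.sum_const, nsmul_eq_mul]
      have h4 : ((Finset.Icc 1 N).filter fun n => n ∈ Finset.Icc 1 ⌊ρ * N⌋₊).card ≤ ⌊ρ * N⌋₊ := by
        calc _ ≤ (Finset.Icc 1 ⌊ρ * N⌋₊).card := by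
              apply Finset.card_le_card
              intro n hn
              exact (Finset.mem_filter.1 hn).2
          _ = ⌊ρ * N⌋₊ := by rw [Nat.card_Icc, Nat.add_sub_cancel]
      have h5 : (((Finset.Icc 1 N).filter fun n => n ∈ Finset.Icc 1 ⌊ρ * N⌋₊).card : ℝ) ≤
          ρ * N := by
        refine le_trans ?_ (Nat.floor_le (by positivity : 0 ≤ ρ * N))
        exact_mod_cast h4
      linarith
    nlinarith
  -- the rest
  have hrest : ∫⁻ t in E \ A, ENNReal.ofReal (kr N t) ≤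
      ENNReal.ofReal (4 * δ' / ρ ^ 4 * N) := by
    have h1 : ∀ t ∈ E \ A, ENNReal.ofReal (kr N t) ≤ ENNReal.ofReal (4 / ρ ^ 4) := by
      intro t ht
      apply ENNReal.ofReal_le_ofReal
      have ht1 : ρ ^ 2 * N < |t| := by
        have := ht.2
        rw [hA, mem_ofPred_eq, not_le] at this
        exact this
      have ht0 : t ≠ 0 := by
        intro h
        rw [h, abs_zero] at ht1
        have : 0 < ρ ^ 2 * N := by positivity
        linarith
      have ht2 : (ρ ^ 2 * N) ^ 2 ≤ t ^ 2 := by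
        rw [← sq_abs t]
        exact pow_le_pow_left₀ (by positivity) ht1.le 2
      unfold kr
      calc ∑ n ∈ Finset.Icc 1 N, (n : ℝ) ^ 2 * ‖un n (1 / 2 + t * I) / (1 / 2 + t * I)‖ ^ 2
          ≤ ∑ _n ∈ Finset.Icc 1 N, 4 * N * (1 / (ρ ^ 2 * N) ^ 2) := by
            refine Finset.sum_le_sum fun n hn => ?_
            have hn0 : (0 : ℝ) < n := by exact_mod_cast pos_of_mem hn
            have hnN : (n : ℝ) ≤ N := by
              rw [Finset.mem_Icc] at hn
              exact_mod_cast hn.2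
            calc (n : ℝ) ^ 2 * ‖un n (1 / 2 + t * I) / (1 / 2 + t * I)‖ ^ 2
                ≤ (n : ℝ) ^ 2 * (4 / n * (1 / t ^ 2)) :=
                  mul_le_mul_of_nonneg_left (un_b2 (pos_of_mem hn) ht0) (by positivity)
              _ = 4 * n * (1 / t ^ 2) := by field_simp
              _ ≤ 4 * N * (1 / (ρ ^ 2 * N) ^ 2) := by
                  gcongr
        _ = 4 / ρ ^ 4 := by
            rw [Finset.sum_const, Nat.card_Icc, Nat.add_sub_cancel, nsmul_eq_mul]
            field_simp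
    calc ∫⁻ t in E \ A, ENNReal.ofReal (kr N t)
        ≤ ∫⁻ _t in E \ A, ENNReal.ofReal (4 / ρ ^ 4) := setLIntegral_mono' (hEm.diff hAm) h1
      _ = ENNReal.ofReal (4 / ρ ^ 4) * volume (E \ A) := by rw [setLIntegral_const]
      _ ≤ ENNReal.ofReal (4 / ρ ^ 4) * ENNReal.ofReal (δ' * N) := by
          gcongr
          exact (measure_mono sdiff_subset).trans hE
      _ = _ := by
          rw [← ENNReal.ofReal_mul (by positivity)]
          congr 1
          ring
  calc ∫⁻ t in E, ENNReal.ofReal (kr N t) ≤ ∫⁻ t in A ∪ (E \ A), ENNReal.ofReal (kr N t) :=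
        lintegral_mono_set hsplit
    _ ≤ (∫⁻ t in A, ENNReal.ofReal (kr N t)) + ∫⁻ t in E \ A, ENNReal.ofReal (kr N t) :=
        lintegral_union_le _ _ _
    _ ≤ ENNReal.ofReal (36 * ρ * N) + ENNReal.ofReal (4 * δ' / ρ ^ 4 * N) := by gcongr
    _ = _ := by
        rw [← ENNReal.ofReal_add (by positivity) (by positivity)]
        congr 1
        ring

/-- extension of a vector to a sequence on `1, .., N`, times `n` -/
noncomputable def xs (N : ℕ) (a : Fin N → ℂ) (n : ℕ) : ℂ :=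
  if h : n - 1 < N then a ⟨n - 1, h⟩ * n else 0

lemma xs_sum {N : ℕ} {β : Type*} [AddCommMonoid β] (F : ℕ → ℂ → β) (a : Fin N → ℂ) :
    ∑ n ∈ Finset.Icc 1 N, F n (xs N a n) = ∑ i : Fin N, F (i + 1) (a i * ((i : ℕ) + 1 : ℕ)) := by
  have e2 : Finset.Icc 1 N = Finset.Ico 1 (N + 1) := by
    ext k; simp only [Finset.mem_Icc, Finset.mem_Ico]; omega
  rw [e2, Finset.sum_Ico_eq_sum_range, Nat.add_sub_cancel, Finset.sum_range]
  refine Finset.sum_congr rfl fun i _ => ?_
  have : xs N a (1 + i) = a i * ((i : ℕ) + 1 : ℕ) := by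
    unfold xs
    rw [dif_pos (by omega)]
    have e3 : (⟨1 + (i : ℕ) - 1, by omega⟩ : Fin N) = i := by
      ext
      simp
    rw [e3, add_comm 1 (i : ℕ)]
  rw [this, add_comm 1 (i : ℕ)]

/-- Bessel's inequality -/
lemma bessel_kr {N : ℕ} (v : OrthonormalBasis (Fin N) ℂ (EuclideanSpace ℂ (Fin N)))
    (J : Finset (Fin N)) (t : ℝ) :
    ∑ i ∈ J, ‖Nm N (xs N (v i)) (1 / 2 + t * I) / (1 / 2 + t * I)‖ ^ 2 ≤ kr N t := by
  set w : EuclideanSpace ℂ (Fin N) := WithLp.toLp 2 fun i =>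
    conj (((i : ℕ) + 1 : ℕ) * (un (i + 1) (1 / 2 + t * I) / (1 / 2 + t * I))) with hw
  have h1 : ∀ i, Nm N (xs N (v i)) (1 / 2 + t * I) / (1 / 2 + t * I) = ⟪w, v i⟫_ℂ := by
    intro i
    unfold Nm
    rw [xs_sum (fun n z => z * un n (1 / 2 + t * I)), PiLp.inner_apply, Finset.sum_div]
    refine Finset.sum_congr rfl fun j _ => ?_
    rw [hw]
    change _ = v i j * conj (conj (((j : ℕ) + 1 : ℕ) *
      (un (j + 1) (1 / 2 + t * I) / (1 / 2 + t * I))))
    rw [conj_conj]
    ring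
  calc ∑ i ∈ J, ‖Nm N (xs N (v i)) (1 / 2 + t * I) / (1 / 2 + t * I)‖ ^ 2
      ≤ ∑ i, ‖Nm N (xs N (v i)) (1 / 2 + t * I) / (1 / 2 + t * I)‖ ^ 2 :=
        Finset.sum_le_sum_of_subset_of_nonneg (Finset.subset_univ _) fun _ _ _ => by positivity
    _ = ‖w‖ ^ 2 := by
        simp_rw [h1]
        exact v.sum_sq_norm_inner_left w
    _ = kr N t := by
        rw [EuclideanSpace.norm_sq_eq]
        unfold kr
        have e2 : Finset.Icc 1 N = Finset.Ico 1 (N + 1) := by
          ext k; simp only [Finset.mem_Icc, Finset.mem_Ico]; omega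
        rw [e2, Finset.sum_Ico_eq_sum_range, Nat.add_sub_cancel, Finset.sum_range]
        refine Finset.sum_congr rfl fun i _ => ?_
        rw [hw, add_comm 1 (i : ℕ)]
        change ‖conj (((i : ℕ) + 1 : ℕ) * (un (i + 1) (1 / 2 + t * I) / (1 / 2 + t * I)))‖ ^ 2 = _
        rw [RCLike.norm_conj, norm_mul, mul_pow, norm_natCast]

/-- the number of vectors which live on a small set -/
lemma card_full {N : ℕ} (v : OrthonormalBasis (Fin N) ℂ (EuclideanSpace ℂ (Fin N)))
    (J : Finset (Fin N)) {E : Set ℝ} {δ : ℝ} (hδ : 0 ≤ δ)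
    (hE : ∫⁻ t in E, ENNReal.ofReal (kr N t) ≤ ENNReal.ofReal (δ * N))
    (hJ : ∀ i ∈ J, ENNReal.ofReal 2 ≤ ∫⁻ t in E,
      ‖Nm N (xs N (v i)) (1 / 2 + t * I) / (1 / 2 + t * I)‖ₑ ^ 2) :
    (J.card : ℝ) ≤ δ * N := by
  have hm : ∀ i, Measurable fun t : ℝ =>
      ‖Nm N (xs N (v i)) (1 / 2 + t * I) / (1 / 2 + t * I)‖ₑ ^ 2 := by
    intro i
    have h2 : Continuous fun t : ℝ => Nm N (xs N (v i)) (1 / 2 + t * I) := by
      rw [continuous_iff_continuousAt]
      intro t
      have h1 : ContinuousAt (Nm N (xs N (v i))) (1 / 2 + t * I) := (Nm_diff N _ _).continuousAt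
      exact ContinuousAt.comp (f := fun t : ℝ => (1 / 2 + t * I : ℂ)) h1 (by fun_prop)
    exact (h2.div (by fun_prop) half_ne).measurable.enorm.pow_const 2
  have h1 : ENNReal.ofReal (J.card * 2) ≤ ENNReal.ofReal (δ * N) := by
    calc ENNReal.ofReal (J.card * 2)
        = ∑ _i ∈ J, ENNReal.ofReal 2 := by
          rw [Finset.sum_const, nsmul_eq_mul, ENNReal.ofReal_mul (by positivity)]
          simp
      _ ≤ ∑ i ∈ J, ∫⁻ t in E, ‖Nm N (xs N (v i)) (1 / 2 + t * I) / (1 / 2 + t * I)‖ₑ ^ 2 :=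
          Finset.sum_le_sum hJ
      _ = ∫⁻ t in E, ∑ i ∈ J, ‖Nm N (xs N (v i)) (1 / 2 + t * I) / (1 / 2 + t * I)‖ₑ ^ 2 :=
          (lintegral_finsetSum _ fun i _ => hm i).symm
      _ ≤ ∫⁻ t in E, ENNReal.ofReal (kr N t) := by
          refine lintegral_mono fun t => ?_
          simp_rw [enorm_sq]
          rw [← ENNReal.ofReal_sum_of_nonneg fun _ _ => by positivity]
          exact ENNReal.ofReal_le_ofReal (bessel_kr v J t)
      _ ≤ _ := hE
  rw [ENNReal.ofReal_le_ofReal_iff (by positivity)] at h1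
  have : (0 : ℝ) ≤ J.card := Nat.cast_nonneg _
  linarith

end Pool.Agent.NBL
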