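import Mathlib
import Pool.Agent.NBL.Full2
import Pool.Agent.NBL.Eig2

/-!
# Almost all eigenvalues of the Gram matrices of `n h_n`, `n ≤ N`, unconditionally
-/

set_option autoImplicit false

open MeasureTheory Complex Set Filter Topology
open scoped ENNReal InnerProductSpace ComplexConjugate

namespace Pool.Agent.NBL

lemma adm_g {n : ℕ} (hn : 0 < n) : Adm (fun t => (((n : ℝ) * h n t : ℝ) : ℂ)) := by
  have h1 := (adm_h hn).mul (n : ℂ)
  refine cast ?_ h1
  congr 1
  ext t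
  push_cast
  rfl

lemma g_norm {n : ℕ} (hn : 0 < n) :
    ∫ t in Ioi (0 : ℝ), ‖(((n : ℝ) * h n t : ℝ) : ℂ)‖ ^ 2 ≤ 3 + Real.log n := by
  have hn0 : (0 : ℝ) < n := by exact_mod_cast hn
  have hn1 : (1 : ℝ) ≤ n := by exact_mod_cast hn
  have hl : 0 ≤ Real.log n := Real.log_nonneg hn1
  have h1 : ∀ t : ℝ, ‖(((n : ℝ) * h n t : ℝ) : ℂ)‖ ^ 2 = (n : ℝ) ^ 2 * ‖(h n t : ℂ)‖ ^ 2 := by
    intro t
    push_cast
    rw [norm_mul, mul_pow, norm_natCast]
  simp_rw [h1]
  rw [integral_const_mul]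
  have h2 := integral_le_of_lintegral (adm_h hn).1 (by positivity) (h_norm hn)
  calc (n : ℝ) ^ 2 * ∫ t in Ioi (0 : ℝ), ‖(h n t : ℂ)‖ ^ 2
      ≤ (n : ℝ) ^ 2 * ((3 + Real.log n) / (n : ℝ) ^ 2) :=
        mul_le_mul_of_nonneg_left h2 (by positivity)
    _ = 3 + Real.log n := by field_simp

lemma card_large_full {N : ℕ} (hN : 1 ≤ N) {ε K : ℝ} (hε : 0 < ε) (hK : 4 / ε ≤ K)
    (hlog : 3 ≤ Real.log N) (lam : Fin N → ℝ) (hlam : ∀ i, 0 ≤ lam i)
    (hsum : ∑ i, lam i = ∑ j : Fin N,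
      ∫ t in Ioi (0 : ℝ), ‖(((((j : ℕ) + 1 : ℕ) : ℝ) * h (j + 1) t : ℝ) : ℂ)‖ ^ 2)
    (J : Finset (Fin N)) (hJ : ∀ i ∈ J, K * Real.log N ≤ lam i) :
    (J.card : ℝ) ≤ ε / 2 * N := by
  have hN' : (1 : ℝ) ≤ N := by exact_mod_cast hN
  have hN0 : (0 : ℝ) < N := by linarith
  have hK0 : 0 < K := lt_of_lt_of_le (by positivity) hK
  set l : ℝ := Real.log N with hl
  have hl0 : 0 < l := by linarith
  have hterm : ∀ j : Fin N,
      ∫ t in Ioi (0 : ℝ), ‖(((((j : ℕ) + 1 : ℕ) : ℝ) * h (j + 1) t : ℝ) : ℂ)‖ ^ 2 ≤ 2 * l := by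
    intro j
    refine (g_norm (n := j + 1) (by omega)).trans ?_
    have h1 : (((j : ℕ) + 1 : ℕ) : ℝ) ≤ N := by exact_mod_cast j.2
    have h2 : (0 : ℝ) < (((j : ℕ) + 1 : ℕ) : ℝ) := by exact_mod_cast Nat.succ_pos _
    have h3 := Real.log_le_log h2 h1
    linarith
  have h1 : (J.card : ℝ) * (K * l) ≤ N * (2 * l) := by
    calc (J.card : ℝ) * (K * l) = ∑ _i ∈ J, K * l := by
          rw [Finset.sum_const, nsmul_eq_mul]
      _ ≤ ∑ i ∈ J, lam i := Finset.sum_le_sum hJ
      _ ≤ ∑ i, lam i := Finset.sum_le_sum_of_subset_of_nonneg (Finset.subset_univ _)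
          fun i _ _ => hlam i
      _ = _ := hsum
      _ ≤ ∑ _j : Fin N, 2 * l := Finset.sum_le_sum fun j _ => hterm j
      _ = _ := by rw [Finset.sum_const, Finset.card_univ, Fintype.card_fin, nsmul_eq_mul]
  have h2 : (J.card : ℝ) * K ≤ 2 * N := by
    have e1 : (J.card : ℝ) * (K * l) = (J.card : ℝ) * K * l := by ring
    have e2 : N * (2 * l) = 2 * N * l := by ring
    rw [e1, e2] at h1
    exact le_of_mul_le_mul_right h1 hl0
  have h3 : (J.card : ℝ) * (4 / ε) ≤ 2 * N :=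
    (mul_le_mul_of_nonneg_left hK (Nat.cast_nonneg _)).trans h2
  have h4 : (J.card : ℝ) = (J.card : ℝ) * (4 / ε) * (ε / 4) := by field_simp
  rw [h4]
  calc (J.card : ℝ) * (4 / ε) * (ε / 4) ≤ 2 * N * (ε / 4) :=
        mul_le_mul_of_nonneg_right h3 (by positivity)
    _ = ε / 2 * N := by ring

/-- unconditionally, all but `ε N` directions of the Gram matrix of `n h_n`, `n ≤ N`, have a
quadratic form of size `(log N) ^ O(1)` -/
theorem almost_all_full {ε : ℝ} (hε : 0 < ε) : ∃ K N₀ : ℕ, ∀ N : ℕ, N₀ ≤ N →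
    ∃ V : Submodule ℂ (Fin N → ℂ), (1 - ε) * N ≤ Module.finrank ℂ V ∧
      ∀ a ∈ V, ∑ i, ‖a i‖ ^ 2 ≤ Real.log N ^ K * (∫ t in Ioi (0 : ℝ),
          ‖∑ i : Fin N, a i * (((((i : ℕ) + 1 : ℕ) : ℝ) * h (i + 1) t : ℝ) : ℂ)‖ ^ 2) ∧
        ∫ t in Ioi (0 : ℝ),
          ‖∑ i : Fin N, a i * (((((i : ℕ) + 1 : ℕ) : ℝ) * h (i + 1) t : ℝ) : ℂ)‖ ^ 2 ≤
          K * Real.log N * ∑ i, ‖a i‖ ^ 2 := by
  have hKm := Kmv_pos
  have hpi := Real.pi_gt_three
  have hpi4 := Real.pi_lt_d2
  set ρ : ℝ := ε / 144 with hρ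
  have hρ0 : 0 < ρ := by positivity
  set δ' : ℝ := ρ ^ 4 * (ε / 16) with hδ'
  have hδ0 : 0 < δ' := by positivity
  have hδe : 36 * ρ + 4 * δ' / ρ ^ 4 = ε / 2 := by
    rw [hδ', hρ]
    field_simp
    norm_num
  obtain ⟨K₀, hK₀, N₁, hN₁⟩ := rare_log (δ := δ') (Λ₀ := 64 * Kmv + 2) hδ0 (by linarith)
  set K : ℕ := ⌈max (2 * K₀ + 1) (4 / ε)⌉₊ with hKd
  have hKc : max (2 * K₀ + 1) (4 / ε) ≤ (K : ℝ) := Nat.le_ceil _
  have hK1 : 2 * K₀ + 1 ≤ (K : ℝ) := (le_max_left _ _).trans hKc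
  have hK2 : 4 / ε ≤ (K : ℝ) := (le_max_right _ _).trans hKc
  have hK0 : (0 : ℝ) < K := by linarith
  have t1 : Tendsto (fun N : ℕ => Real.log N) atTop atTop :=
    Real.tendsto_log_atTop.comp tendsto_natCast_atTop_atTop
  obtain ⟨N₂, hN₂⟩ := eventually_atTop.1 (t1.eventually_ge_atTop (8 * Real.pi))
  refine ⟨K, max (max N₁ N₂) 1, fun N hN => ?_⟩
  have hNa : N₁ ≤ N := (le_max_left _ _).trans ((le_max_left _ _).trans hN)
  have hNb : N₂ ≤ N := (le_max_right _ _).trans ((le_max_left _ _).trans hN)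
  have hN1 : 1 ≤ N := (le_max_right _ _).trans hN
  have hN' : (1 : ℝ) ≤ N := by exact_mod_cast hN1
  have hN0 : (0 : ℝ) < N := by linarith
  have hl8 := hN₂ N hNb
  set l : ℝ := Real.log N with hl
  have hl0 : 0 < l := by linarith
  obtain ⟨v, lam, hq, hsum⟩ := spectral
    (fun (i : Fin N) t => (((((i : ℕ) + 1 : ℕ) : ℝ) * h (i + 1) t : ℝ) : ℂ))
    fun i => adm_g (n := i + 1) (by omega)
  -- the eigenvalues are the values of the form
  have hlam : ∀ i, ∫ t in Ioi (0 : ℝ),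
      ‖∑ j, v i j * (((((j : ℕ) + 1 : ℕ) : ℝ) * h (j + 1) t : ℝ) : ℂ)‖ ^ 2 = lam i := by
    intro i
    rw [hq (v i)]
    have h1 : ∀ j, lam j * ‖⟪v j, v i⟫_ℂ‖ ^ 2 = if j = i then lam i else 0 := by
      intro j
      by_cases hj : j = i
      · rw [if_pos hj, hj]
        have := v.orthonormal.1 i
        rw [inner_self_eq_norm_sq_to_K, this]
        simp
      · rw [if_neg hj, v.orthonormal.2 hj]
        simp
    rw [Finset.sum_congr rfl fun j _ => h1 j, Finset.sum_ite_eq' Finset.univ i]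
    simp
  have hlam0 : ∀ i, 0 ≤ lam i := fun i => by
    rw [← hlam i]
    exact integral_nonneg fun t => by positivity
  -- sets of indices
  classical
  set J : Finset (Fin N) := Finset.univ.filter fun i =>
    1 / l ^ K ≤ lam i ∧ lam i ≤ K * l with hJ
  set L : Finset (Fin N) := Finset.univ.filter fun i => K * l < lam i with hL
  set M : Finset (Fin N) := Finset.univ.filter fun i => lam i < 1 / l ^ K with hM
  have hLc : (L.card : ℝ) ≤ ε / 2 * N := by
    refine card_large_full hN1 hε hK2 (by linarith) lam hlam0 hsum L fun i hi => ?_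
    rw [hL, Finset.mem_filter] at hi
    exact hi.2.le
  have hthr : 1 / l ^ K ≤ (N : ℝ) ^ (-(2 * (K₀ * kap N))) / (8 * Real.pi) := by
    have e1 : (N : ℝ) ^ (-(2 * (K₀ * kap N))) = l ^ (-(2 * K₀)) := by
      rw [← rpow_kap (N := N) hl0]
      congr 1
      ring
    rw [e1]
    have h1 : 8 * Real.pi * l ^ (2 * K₀) ≤ l ^ K := by
      calc 8 * Real.pi * l ^ (2 * K₀) ≤ l * l ^ (2 * K₀) := by gcongr
        _ = l ^ (2 * K₀ + 1) := by
            rw [Real.rpow_add hl0, Real.rpow_one]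
            ring
        _ ≤ l ^ (K : ℝ) := Real.rpow_le_rpow_of_exponent_le (by linarith) hK1
        _ = l ^ K := Real.rpow_natCast _ _
    rw [Real.rpow_neg hl0.le, div_le_div_iff₀ (by positivity) (by positivity), one_mul,
      inv_mul_eq_div, le_div_iff₀ (by positivity)]
    exact h1
  have hMc : (M.card : ℝ) ≤ ε / 2 * N := by
    refine card_full v M (E := SmallSet N (K₀ * kap N) ((64 * Kmv + 2) * N)) (by linarith)
      ?_ ?_
    · have hfin : volume (SmallSet N (K₀ * kap N) ((64 * Kmv + 2) * N)) ≠ ⊤ := by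
        refine ne_top_of_le_ne_top ?_ (measure_mono (fun t ht => ht.1 :
          SmallSet N (K₀ * kap N) ((64 * Kmv + 2) * N) ⊆
            Icc (-((64 * Kmv + 2) * N)) ((64 * Kmv + 2) * N)))
        rw [Real.volume_Icc]
        exact ENNReal.ofReal_ne_top
      rw [← hδe]
      refine kr_set hN1 hρ0 hδ0.le (SmallSet_meas _ _ _) ?_
      rw [← ofReal_measureReal hfin]
      exact ENNReal.ofReal_le_ofReal (hN₁ N hNa)
    · intro i hi
      rw [hM, Finset.mem_filter] at hi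
      have hu : ∑ j, ‖v i j‖ ^ 2 = 1 := by
        rw [← EuclideanSpace.norm_sq_eq, v.norm_eq_one]
        norm_num
      refine small_full (ε := K₀ * kap N) hN1 (xs N (v i)) ?_ ?_ ?_
      · rw [xs_sum (fun n z => ‖z‖ ^ 2 / n) (v i)]
        calc ∑ j : Fin N, ‖v i j * ((j : ℕ) + 1 : ℕ)‖ ^ 2 / (((j : ℕ) + 1 : ℕ) : ℝ)
            ≤ ∑ j : Fin N, N * ‖v i j‖ ^ 2 := by
              refine Finset.sum_le_sum fun j _ => ?_
              have h1 : (((j : ℕ) + 1 : ℕ) : ℝ) ≤ N := by exact_mod_cast j.2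
              have h2 : (0 : ℝ) < (((j : ℕ) + 1 : ℕ) : ℝ) := by exact_mod_cast Nat.succ_pos _
              rw [norm_mul, mul_pow, norm_natCast, div_le_iff₀ h2]
              nlinarith [mul_le_mul_of_nonneg_left h1
                (by positivity : 0 ≤ ‖v i j‖ ^ 2 * (((j : ℕ) + 1 : ℕ) : ℝ))]
          _ = N := by rw [← Finset.mul_sum, hu, mul_one]
      · rw [xs_sum (fun n z => ‖z‖ ^ 2 * (1 / n - 1 / ((n : ℝ) + 1))) (v i)]
        calc (1 / 2 : ℝ) = ∑ j : Fin N, 1 / 2 * ‖v i j‖ ^ 2 := by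
              rw [← Finset.mul_sum, hu, mul_one]
          _ ≤ _ := by
              refine Finset.sum_le_sum fun j _ => ?_
              have h2 : (1 : ℝ) ≤ (((j : ℕ) + 1 : ℕ) : ℝ) := by
                exact_mod_cast Nat.succ_le_succ (Nat.zero_le _)
              rw [norm_mul, mul_pow, norm_natCast]
              set x : ℝ := (((j : ℕ) + 1 : ℕ) : ℝ) with hx
              have h3 : x ^ 2 * (1 / x - 1 / (x + 1)) = x / (x + 1) := by
                field_simp
                ring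
              have h4 : (1 / 2 : ℝ) ≤ x / (x + 1) := by
                rw [div_le_div_iff₀ (by norm_num) (by linarith)]
                linarith
              calc 1 / 2 * ‖v i j‖ ^ 2 ≤ x / (x + 1) * ‖v i j‖ ^ 2 :=
                    mul_le_mul_of_nonneg_right h4 (by positivity)
                _ = ‖v i j‖ ^ 2 * (x ^ 2 * (1 / x - 1 / (x + 1))) := by
                    rw [h3]
                    ring
                _ = _ := by ring
      · have e2 : ∀ t : ℝ, Hs (xs N (v i)) (Finset.Icc 1 N) t =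
            ∑ j, v i j * (((((j : ℕ) + 1 : ℕ) : ℝ) * h (j + 1) t : ℝ) : ℂ) := by
          intro t
          unfold Hs
          rw [xs_sum (fun n z => z * (h n t : ℂ)) (v i)]
          refine Finset.sum_congr rfl fun j _ => ?_
          push_cast
          ring
        simp_rw [e2]
        refine lint_of_int (g := fun t =>
          ∑ j : Fin N, v i j * (((((j : ℕ) + 1 : ℕ) : ℝ) * h (j + 1) t : ℝ) : ℂ)) ?_ ?_
        · exact Adm.sum _ fun j _ => (adm_g (n := j + 1) (by omega)).mul (v i j)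
        · rw [hlam i]
          exact hi.2.le.trans hthr
  have hcard : (1 - ε) * N ≤ J.card := by
    have h1 : (Finset.univ : Finset (Fin N)) ⊆ J ∪ (L ∪ M) := by
      intro i _
      rw [Finset.mem_union, Finset.mem_union, hJ, hL, hM]
      simp only [Finset.mem_filter, Finset.mem_univ, true_and]
      by_cases h1 : lam i < 1 / l ^ K
      · exact Or.inr (Or.inr h1)
      · by_cases h2 : K * l < lam i
        · exact Or.inr (Or.inl h2)
        · exact Or.inl ⟨not_lt.1 h1, not_lt.1 h2⟩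
    have h2 : (N : ℝ) ≤ J.card + (L.card + M.card) := by
      have h3 := (Finset.card_le_card h1).trans (Finset.card_union_le _ _)
      have h4 := Finset.card_union_le L M
      rw [Finset.card_univ, Fintype.card_fin] at h3
      have h5 : N ≤ J.card + (L.card + M.card) := by omega
      exact_mod_cast h5
    linarith
  -- the subspace
  set b : J → EuclideanSpace ℂ (Fin N) := fun i => v i with hb
  have hbi : LinearIndependent ℂ b := v.orthonormal.linearIndependent.comp _ Subtype.val_injective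
  set e := WithLp.linearEquiv 2 ℂ (Fin N → ℂ) with he
  set U : Submodule ℂ (EuclideanSpace ℂ (Fin N)) := Submodule.span ℂ (range b) with hU
  refine ⟨U.map e.toLinearMap, ?_, ?_⟩
  · have h1 : Module.finrank ℂ (U.map e.toLinearMap) = J.card := by
      rw [LinearEquiv.finrank_map_eq e U, hU, finrank_span_eq_card hbi, Fintype.card_coe]
    rw [h1]
    exact hcard
  · intro a ha
    obtain ⟨x, hx, rfl⟩ := ha
    have hx0 : ∀ i, i ∉ J → ⟪v i, x⟫_ℂ = 0 := by
      intro i hi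
      have h1 : U ≤ LinearMap.ker (innerSL ℂ (v i)).toLinearMap := by
        rw [hU, Submodule.span_le]
        rintro y ⟨j, rfl⟩
        change ⟪v i, v j⟫_ℂ = 0
        apply v.orthonormal.2
        intro hij
        apply hi
        rw [hij]
        exact j.2
      exact h1 hx
    have hn : ∑ i, ‖(e.toLinearMap x) i‖ ^ 2 = ∑ i, ‖⟪v i, x⟫_ℂ‖ ^ 2 := by
      rw [v.sum_sq_norm_inner_right x, EuclideanSpace.norm_sq_eq]
      rfl
    have hqx : ∫ t in Ioi (0 : ℝ), ‖∑ i : Fin N, (e.toLinearMap x) i *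
        (((((i : ℕ) + 1 : ℕ) : ℝ) * h (i + 1) t : ℝ) : ℂ)‖ ^ 2 =
        ∑ i, lam i * ‖⟪v i, x⟫_ℂ‖ ^ 2 := hq x
    rw [hn, hqx]
    simp_rw [Finset.mul_sum]
    constructor
    · refine Finset.sum_le_sum fun i _ => ?_
      by_cases hi : i ∈ J
      · rw [hJ, Finset.mem_filter] at hi
        have h1 := hi.2.1
        rw [div_le_iff₀ (by positivity)] at h1
        calc ‖⟪v i, x⟫_ℂ‖ ^ 2 = 1 * ‖⟪v i, x⟫_ℂ‖ ^ 2 := (one_mul _).symm
          _ ≤ (lam i * l ^ K) * ‖⟪v i, x⟫_ℂ‖ ^ 2 :=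
              mul_le_mul_of_nonneg_right h1 (by positivity)
          _ = _ := by ring
      · rw [hx0 i hi]
        simp
    · refine Finset.sum_le_sum fun i _ => ?_
      by_cases hi : i ∈ J
      · rw [hJ, Finset.mem_filter] at hi
        have h1 := hi.2.2
        exact mul_le_mul_of_nonneg_right h1 (by positivity)
      · rw [hx0 i hi]
        simp

end Pool.Agent.NBL
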