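import Mathlib
import Pool.Agent.NBL.Cond

/-!
# All choices of signs
-/

set_option autoImplicit false

open MeasureTheory Complex Set Filter Topology
open scoped ENNReal

namespace Pool.Agent.NBL

/-- all choices of signs -/
def Signs (A : ℝ) : Prop :=
  ∀ B : ℝ, A < B → B < 1 / 2 → ∃ C : ℝ, ∀ N : ℕ, 1 ≤ N → ∀ σ : ℕ → ℝ,
    (∀ n, σ n = 1 ∨ σ n = -1) →
    ∫ t in Ioi (0 : ℝ), (∑ n ∈ Finset.Ico N (2 * N), σ n * h n t) ^ 2 ≤ C * (N : ℝ) ^ (2 * B - 1)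

/-- all choices of signs give comparable sizes -/
def SignRatio : Prop :=
  ∀ ε : ℝ, 0 < ε → ∃ N₀ : ℕ, ∀ N : ℕ, N₀ ≤ N → ∀ σ τ : ℕ → ℝ,
    (∀ n, σ n = 1 ∨ σ n = -1) → (∀ n, τ n = 1 ∨ τ n = -1) →
    ∫ t in Ioi (0 : ℝ), (∑ n ∈ Finset.Ico N (2 * N), σ n * h n t) ^ 2 ≤
      (N : ℝ) ^ ε * ∫ t in Ioi (0 : ℝ), (∑ n ∈ Finset.Ico N (2 * N), τ n * h n t) ^ 2

lemma real_sum (σ : ℕ → ℝ) (s : Finset ℕ) (t : ℝ) :
    (∑ n ∈ s, σ n * h n t) ^ 2 = ‖∑ n ∈ s, (σ n : ℂ) * (h n t : ℂ)‖ ^ 2 := by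
  have : ∑ n ∈ s, (σ n : ℂ) * (h n t : ℂ) = ((∑ n ∈ s, σ n * h n t : ℝ) : ℂ) := by
    push_cast
    rfl
  rw [this, norm_real, Real.norm_eq_abs, sq_abs]

lemma sign_sum {σ : ℕ → ℝ} (hσ : ∀ n, σ n = 1 ∨ σ n = -1) (N : ℕ) :
    ∑ n ∈ Finset.Ico N (2 * N), ‖(σ n : ℂ)‖ ^ 2 = N := by
  have : ∀ n ∈ Finset.Ico N (2 * N), ‖(σ n : ℂ)‖ ^ 2 = 1 := by
    intro n _
    rcases hσ n with h | h <;> rw [h] <;> simp
  rw [Finset.sum_congr rfl this, Finset.sum_const, Nat.card_Ico, nsmul_eq_mul, mul_one,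
    show 2 * N - N = N by omega]

lemma al_zero_one {k : ℕ → ℕ} (hk : StrictMono k) (r n : ℕ) : al k r n = 0 ∨ al k r n = 1 := by
  induction r with
  | zero => left; simp [al]
  | succ r ih =>
    by_cases h : k r ≤ n
    · have e : al k (r + 1) n = ∑ i ∈ Finset.range (r + 1), (-1 : ℝ) ^ i := by
        unfold al
        refine Finset.sum_congr rfl fun i hi => ?_
        rw [Finset.mem_range] at hi
        rw [if_pos ((hk.monotone (by omega)).trans h), mul_one]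
      rw [e, neg_one_geom_sum]
      split_ifs
      · exact Or.inl rfl
      · exact Or.inr rfl
    · have e : al k (r + 1) n = al k r n := by
        unfold al
        rw [Finset.sum_range_succ, if_neg h, mul_zero, add_zero]
      rwa [e]

theorem alternating_of_signs {A : ℝ} (hA : 0 ≤ A) (hs : Signs A) : Alternating A := by
  intro B hAB hB
  obtain ⟨C, hC⟩ := hs B hAB hB
  have hC0 : 0 ≤ C := by
    have h1 := hC 1 le_rfl (fun _ => 1) (fun _ => Or.inl rfl)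
    have h2 : 0 ≤ ∫ t in Ioi (0 : ℝ), (∑ n ∈ Finset.Ico 1 (2 * 1), (1 : ℝ) * h n t) ^ 2 :=
      integral_nonneg fun t => by positivity
    have h3 := h2.trans h1
    simpa using h3
  refine alternating_core (by linarith) hB (Real.sqrt_nonneg C) fun k hk r N hN => ?_
  have hN' : (1 : ℝ) ≤ N := by exact_mod_cast hN
  have hN0 : (0 : ℝ) < N := by linarith
  have hspos : ∀ n ∈ Finset.Ico N (2 * N), 0 < n := by
    intro n hn
    rw [Finset.mem_Ico] at hn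
    omega
  set s := Finset.Ico N (2 * N) with hs'
  set σ : ℕ → ℝ := fun n => 2 * al k r n - 1 with hσ
  have hσ1 : ∀ n, σ n = 1 ∨ σ n = -1 := by
    intro n
    simp only [hσ]
    rcases al_zero_one hk r n with h | h
    · right; rw [h]; norm_num
    · left; rw [h]; norm_num
  have h1 := hC N hN σ hσ1
  have h2 := hC N hN (fun _ => 1) (fun _ => Or.inl rfl)
  simp_rw [real_sum] at h1 h2
  have hint : ∀ a : ℕ → ℂ, Integrable (fun t => ‖∑ n ∈ s, a n * (h n t : ℂ)‖ ^ 2)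
      (volume.restrict (Ioi 0)) := fun a =>
    (memLp_two_iff_integrable_sq_norm (adm_Hs a hspos).1.aestronglyMeasurable).1
      (adm_Hs a hspos).memLp
  refine nrm_le (by positivity) (lint_of_int (adm_Hs _ hspos) ?_)
  have hpt : ∀ t : ℝ, ‖Hs (fun n => (al k r n : ℂ)) s t‖ ^ 2 ≤
      (‖∑ n ∈ s, (σ n : ℂ) * (h n t : ℂ)‖ ^ 2 + ‖∑ n ∈ s, ((1 : ℝ) : ℂ) * (h n t : ℂ)‖ ^ 2) / 2 := by
    intro t
    have e : Hs (fun n => (al k r n : ℂ)) s t =
        (∑ n ∈ s, (σ n : ℂ) * (h n t : ℂ) + ∑ n ∈ s, ((1 : ℝ) : ℂ) * (h n t : ℂ)) / 2 := by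
      unfold Hs
      rw [← Finset.sum_add_distrib, Finset.sum_div]
      refine Finset.sum_congr rfl fun n _ => ?_
      simp only [hσ]
      push_cast
      ring
    rw [e, norm_div, Complex.norm_ofNat, div_pow]
    have h3 := norm_add_le (∑ n ∈ s, (σ n : ℂ) * (h n t : ℂ)) (∑ n ∈ s, ((1 : ℝ) : ℂ) * (h n t : ℂ))
    have h4 := pow_le_pow_left₀ (norm_nonneg _) h3 2
    nlinarith [sq_nonneg (‖∑ n ∈ s, (σ n : ℂ) * (h n t : ℂ)‖ -
      ‖∑ n ∈ s, ((1 : ℝ) : ℂ) * (h n t : ℂ)‖)]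
  calc ∫ t in Ioi (0 : ℝ), ‖Hs (fun n => (al k r n : ℂ)) s t‖ ^ 2
      ≤ ∫ t in Ioi (0 : ℝ), (‖∑ n ∈ s, (σ n : ℂ) * (h n t : ℂ)‖ ^ 2 +
          ‖∑ n ∈ s, ((1 : ℝ) : ℂ) * (h n t : ℂ)‖ ^ 2) / 2 :=
        integral_mono (hint _) (((hint _).add (hint _)).div_const 2) hpt
    _ = ((∫ t in Ioi (0 : ℝ), ‖∑ n ∈ s, (σ n : ℂ) * (h n t : ℂ)‖ ^ 2) +
          ∫ t in Ioi (0 : ℝ), ‖∑ n ∈ s, ((1 : ℝ) : ℂ) * (h n t : ℂ)‖ ^ 2) / 2 := by
        rw [integral_div, integral_add (hint _) (hint _)]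
    _ ≤ (C * (N : ℝ) ^ (2 * B - 1) + C * (N : ℝ) ^ (2 * B - 1)) / 2 := by gcongr
    _ = (√C * (N : ℝ) ^ (B - 1 / 2)) ^ 2 := by
        rw [mul_pow, Real.sq_sqrt hC0, ← Real.rpow_natCast, ← Real.rpow_mul hN0.le]
        rw [show (B - 1 / 2) * ((2 : ℕ) : ℝ) = 2 * B - 1 by push_cast; ring]
        ring

theorem signRatio_of_cond (hc : Cond) : SignRatio := by
  intro ε hε
  obtain ⟨N₀, hN₀⟩ := hc ε hε
  refine ⟨N₀, fun N hN σ τ hσ hτ => ?_⟩
  have := hN₀ N hN (fun n => (σ n : ℂ)) (fun n => (τ n : ℂ)) (by rw [sign_sum hσ, sign_sum hτ])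
  simp_rw [real_sum]
  exact this

lemma ones_int {N : ℕ} (hN : 1 ≤ N) :
    ∫ t in Ioi (0 : ℝ), (∑ n ∈ Finset.Ico N (2 * N), (1 : ℝ) * h n t) ^ 2 ≤ 8 * (N : ℝ) ^ (-1 : ℝ) := by
  have hN' : (1 : ℝ) ≤ N := by exact_mod_cast hN
  have hN0 : (0 : ℝ) < N := by linarith
  simp_rw [real_sum]
  have e : ∀ t : ℝ, ∑ n ∈ Finset.Ico N (2 * N), ((1 : ℝ) : ℂ) * (h n t : ℂ) =
      nb N t + (-1) * nb (2 * N) t := by
    intro t
    have h1 := telesc (fun n => nb n t) (show N ≤ 2 * N by omega)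
    simp_rw [← h_cast] at h1
    rw [h1]
    push_cast
    simp
  simp_rw [e]
  have hA1 := adm_nb (k := N) (by omega)
  have hA2 := (adm_nb (k := 2 * N) (by omega)).mul (-1)
  refine integral_le_of_lintegral (hA1.add hA2).1 (by positivity) ?_
  rw [← nrm_sq]
  have h1 : nrm (fun t => nb N t + (-1) * nb (2 * N) t) ≤
      ENNReal.ofReal (2 * √2 * (N : ℝ) ^ (-(1 / 2) : ℝ)) := by
    refine (eLpNorm_add_le (f := nb N) (g := fun t => (-1) * nb (2 * N) t)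
      hA1.1.aestronglyMeasurable hA2.1.aestronglyMeasurable
      (by norm_num)).trans ?_
    have h2 : eLpNorm (fun t => (-1) * nb (2 * N) t) 2 (volume.restrict (Ioi 0)) ≤
        ENNReal.ofReal (√2 * (N : ℝ) ^ (-(1 / 2) : ℝ)) := by
      have h3 : eLpNorm (fun t => (-1) * nb (2 * N) t) 2 (volume.restrict (Ioi 0)) ≤
          nrm (nb (2 * N)) := by
        refine eLpNorm_mono fun t => ?_
        simp
      refine h3.trans ((nb_norm (show 0 < 2 * N by omega)).trans (ENNReal.ofReal_le_ofReal ?_))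
      refine mul_le_mul_of_nonneg_left ?_ (Real.sqrt_nonneg 2)
      refine Real.rpow_le_rpow_of_nonpos hN0 ?_ (by norm_num)
      push_cast
      linarith
    refine (add_le_add (nb_norm (show 0 < N by omega)) h2).trans (le_of_eq ?_)
    rw [← ENNReal.ofReal_add (by positivity) (by positivity)]
    congr 1
    ring
  refine (pow_le_pow_left' h1 2).trans (le_of_eq ?_)
  rw [← ENNReal.ofReal_pow (by positivity)]
  congr 1
  rw [mul_pow, mul_pow, Real.sq_sqrt (by norm_num), ← Real.rpow_natCast, ← Real.rpow_natCast,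
    ← Real.rpow_mul hN0.le]
  norm_num

theorem signs_of_signRatio (hr : SignRatio) : Signs 0 := by
  intro B hB _
  obtain ⟨N₀, hN₀⟩ := hr B hB
  refine ⟨(8 + (4 + 1 / B)) * (1 + N₀), fun N hN σ hσ => ?_⟩
  have hN' : (1 : ℝ) ≤ N := by exact_mod_cast hN
  have hN0 : (0 : ℝ) < N := by linarith
  have hN₀0 : (0 : ℝ) ≤ N₀ := Nat.cast_nonneg _
  have hBp : 0 < 1 / B := by positivity
  rcases le_or_gt N₀ N with hNN | hNN
  · have h1 := hN₀ N hNN σ (fun _ => 1) hσ (fun _ => Or.inl rfl)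
    refine h1.trans ?_
    calc (N : ℝ) ^ B * ∫ t in Ioi (0 : ℝ), (∑ n ∈ Finset.Ico N (2 * N), (1 : ℝ) * h n t) ^ 2
        ≤ (N : ℝ) ^ B * (8 * (N : ℝ) ^ (-1 : ℝ)) := by
          gcongr
          exact ones_int hN
      _ = 8 * (N : ℝ) ^ (B + -1) := by
          rw [Real.rpow_add hN0]
          ring
      _ ≤ 8 * (N : ℝ) ^ (2 * B - 1) := by
          gcongr
          linarith
      _ ≤ (8 + (4 + 1 / B)) * (1 + N₀) * (N : ℝ) ^ (2 * B - 1) := by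
          refine mul_le_mul_of_nonneg_right ?_ (by positivity)
          nlinarith
  · have h1 := crude hB hN (fun n => (σ n : ℂ))
    simp_rw [real_sum]
    refine h1.trans ?_
    rw [sign_sum hσ]
    have hNN' : (N : ℝ) ≤ 1 + N₀ := by
      have : (N : ℝ) ≤ N₀ := by exact_mod_cast hNN.le
      linarith
    have e : (N : ℝ) ^ (2 * B - 1) = (N : ℝ) ^ (2 * B - 2) * N := by
      rw [← Real.rpow_add_one hN0.ne']
      congr 1
      ring
    rw [e]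
    have h3 : 0 ≤ (N : ℝ) ^ (2 * B - 2) * N := by positivity
    calc (N : ℝ) * (N * ((4 + 1 / B) * (N : ℝ) ^ (2 * B - 2)))
        = ((4 + 1 / B) * N) * ((N : ℝ) ^ (2 * B - 2) * N) := by ring
      _ ≤ ((8 + (4 + 1 / B)) * (1 + N₀)) * ((N : ℝ) ^ (2 * B - 2) * N) := by
          refine mul_le_mul_of_nonneg_right ?_ h3
          nlinarith

end Pool.Agent.NBL
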