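import Mathlib
import Pool.Agent.NBL.Signs

/-!
# The Bessel sequence
-/

set_option autoImplicit false

open MeasureTheory Complex Set Filter Topology
open scoped ENNReal

namespace Pool.Agent.NBL

/-- the functions `n ^ (1 - B) h_n`, `n ≥ 1`, form a Bessel sequence in `L²(0, ∞)` -/
def BesselSeq (A : ℝ) : Prop :=
  ∀ B : ℝ, A < B → B < 1 / 2 → ∃ C : ℝ, ∀ (M : ℕ) (a : ℕ → ℂ),
    ∫ t in Ioi (0 : ℝ), ‖∑ n ∈ Finset.Icc 1 M, a n * (((n : ℝ) ^ (1 - B) * h n t : ℝ) : ℂ)‖ ^ 2 ≤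
      C * ∑ n ∈ Finset.Icc 1 M, ‖a n‖ ^ 2

theorem besselSeq_of_bessel {A : ℝ} (hA : 0 ≤ A) (hb : Bessel A) : BesselSeq A := by
  intro B hAB hB
  set B' : ℝ := (A + B) / 2 with hB'
  have hB1 : A < B' := by rw [hB']; linarith
  have hB2 : B' < B := by rw [hB']; linarith
  obtain ⟨C, hC⟩ := hb B' hB1
  have hC0 : 0 ≤ C := by
    have h1 := hC 1 le_rfl (fun _ => 1)
    have h2 : 0 ≤ ∫ t in Ioi (0 : ℝ), ‖∑ n ∈ Finset.Ico 1 (2 * 1), (1 : ℂ) * (h n t : ℂ)‖ ^ 2 :=
      integral_nonneg fun t => by positivity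
    have h3 := h2.trans h1
    simpa using h3
  set β : ℝ := 1 / 2 - (B - B') with hβ
  have hβ1 : β < 1 / 2 := by rw [hβ]; linarith
  set q : ℝ := 1 / (1 - (2 : ℝ) ^ (β - 1 / 2)) with hq
  have hq1 : (2 : ℝ) ^ (β - 1 / 2) < 1 :=
    Real.rpow_lt_one_of_one_lt_of_neg (by norm_num) (by linarith)
  have hq0 : 0 ≤ q := by
    apply div_nonneg zero_le_one
    linarith
  refine ⟨(2 * √C * q) ^ 2, fun M a => ?_⟩
  set S : ℝ := ∑ n ∈ Finset.Icc 1 M, ‖a n‖ ^ 2 with hS
  have hS0 : 0 ≤ S := by positivity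
  set b : ℕ → ℂ := fun n => if n ∈ Finset.Icc 1 M then a n * (((n : ℝ) ^ (1 - B) : ℝ) : ℂ) else 0
    with hbd
  have hblk : ∀ N : ℕ, 1 ≤ N → nrm (Hs b (Finset.Ico N (2 * N))) ≤
      ENNReal.ofReal (2 * √C * √S * (N : ℝ) ^ (β - 1 / 2)) := by
    intro N hN
    have hN' : (1 : ℝ) ≤ N := by exact_mod_cast hN
    have hN0 : (0 : ℝ) < N := by linarith
    refine nrm_le (by positivity) ?_
    refine lint_of_int (adm_Hs b fun n hn => ?_) ?_
    · rw [Finset.mem_Ico] at hn
      omega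
    refine (hC N hN b).trans ?_
    have h1 : ∑ n ∈ Finset.Ico N (2 * N), ‖b n‖ ^ 2 ≤ (2 * N : ℝ) ^ (2 - 2 * B) * S := by
      have h2 : ∀ n ∈ Finset.Ico N (2 * N), ‖b n‖ ^ 2 ≤
          (2 * N : ℝ) ^ (2 - 2 * B) * (if n ∈ Finset.Icc 1 M then ‖a n‖ ^ 2 else 0) := by
        intro n hn
        rw [Finset.mem_Ico] at hn
        have hn0 : (0 : ℝ) < n := by
          have : 0 < n := by omega
          exact_mod_cast this
        have hn2 : (n : ℝ) ≤ 2 * N := by exact_mod_cast hn.2.le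
        simp only [hbd]
        split_ifs
        · rw [norm_mul, norm_real, Real.norm_of_nonneg (by positivity), mul_pow, mul_comm]
          refine mul_le_mul_of_nonneg_right ?_ (by positivity)
          rw [← Real.rpow_natCast, ← Real.rpow_mul hn0.le]
          calc (n : ℝ) ^ ((1 - B) * ((2 : ℕ) : ℝ)) = (n : ℝ) ^ (2 - 2 * B) := by
                congr 1
                push_cast
                ring
            _ ≤ (2 * N : ℝ) ^ (2 - 2 * B) := Real.rpow_le_rpow hn0.le hn2 (by linarith)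
        · simp
      refine (Finset.sum_le_sum h2).trans ?_
      rw [← Finset.mul_sum]
      refine mul_le_mul_of_nonneg_left ?_ (by positivity)
      rw [← Finset.sum_filter]
      rw [hS]
      refine Finset.sum_le_sum_of_subset_of_nonneg ?_ fun n _ _ => by positivity
      intro n hn
      exact (Finset.mem_filter.1 hn).2
    have h3 : (2 * N : ℝ) ^ (2 - 2 * B) ≤ 4 * (N : ℝ) ^ (2 - 2 * B) := by
      rw [Real.mul_rpow (by norm_num) hN0.le]
      refine mul_le_mul_of_nonneg_right ?_ (by positivity)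
      calc (2 : ℝ) ^ (2 - 2 * B) ≤ (2 : ℝ) ^ (2 : ℝ) :=
            Real.rpow_le_rpow_of_exponent_le (by norm_num) (by linarith)
        _ = 4 := by norm_num
    calc C * (N : ℝ) ^ (2 * B' - 2) * ∑ n ∈ Finset.Ico N (2 * N), ‖b n‖ ^ 2
        ≤ C * (N : ℝ) ^ (2 * B' - 2) * (4 * (N : ℝ) ^ (2 - 2 * B) * S) := by
          gcongr
          exact h1.trans (mul_le_mul_of_nonneg_right h3 hS0)
      _ = (2 * √C * √S * (N : ℝ) ^ (β - 1 / 2)) ^ 2 := by
          rw [mul_pow, mul_pow, mul_pow, Real.sq_sqrt hC0, Real.sq_sqrt hS0,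
            ← Real.rpow_natCast ((N : ℝ) ^ (β - 1 / 2)), ← Real.rpow_mul hN0.le]
          have e : (N : ℝ) ^ ((β - 1 / 2) * ((2 : ℕ) : ℝ)) =
              (N : ℝ) ^ (2 * B' - 2) * (N : ℝ) ^ (2 - 2 * B) := by
            rw [← Real.rpow_add hN0]
            congr 1
            rw [hβ]
            push_cast
            ring
          rw [e]
          ring
  have hall := dyadic (by positivity) hβ1 hblk (le_refl 1) M
  have heq : ∀ t : ℝ, Hs b (Finset.Ico 1 (2 ^ M * 1)) t =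
      ∑ n ∈ Finset.Icc 1 M, a n * (((n : ℝ) ^ (1 - B) * h n t : ℝ) : ℂ) := by
    intro t
    unfold Hs
    have hsub : Finset.Icc 1 M ⊆ Finset.Ico 1 (2 ^ M * 1) := by
      intro n hn
      rw [Finset.mem_Icc] at hn
      rw [Finset.mem_Ico, mul_one]
      exact ⟨hn.1, lt_of_le_of_lt hn.2 Nat.lt_two_pow_self⟩
    rw [← Finset.sum_subset hsub]
    · refine Finset.sum_congr rfl fun n hn => ?_
      simp only [hbd]
      rw [if_pos hn]
      push_cast
      ring
    · intro n _ hn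
      simp only [hbd]
      rw [if_neg hn, zero_mul]
  have hadm : Adm (Hs b (Finset.Ico 1 (2 ^ M * 1))) := adm_Hs b fun n hn => by
    rw [Finset.mem_Ico] at hn
    omega
  simp_rw [← heq]
  refine integral_le_of_lintegral hadm.1 (by positivity) ?_
  rw [← nrm_sq]
  refine (pow_le_pow_left' hall 2).trans (le_of_eq ?_)
  rw [← ENNReal.ofReal_pow (by positivity)]
  congr 1
  rw [Nat.cast_one, Real.one_rpow, mul_one, ← hq]
  rw [mul_pow, mul_pow, Real.sq_sqrt hS0, mul_pow (2 * √C)]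
  ring

theorem signs_of_besselSeq {A : ℝ} (hb : BesselSeq A) : Signs A := by
  intro B hAB hB
  obtain ⟨C, hC⟩ := hb B hAB hB
  have hC0 : 0 ≤ C := by
    have h1 := hC 1 (fun _ => 1)
    have h2 : 0 ≤ ∫ t in Ioi (0 : ℝ), ‖∑ n ∈ Finset.Icc (1 : ℕ) 1,
        (1 : ℂ) * (((n : ℝ) ^ (1 - B) * h n t : ℝ) : ℂ)‖ ^ 2 :=
      integral_nonneg fun t => by positivity
    have h3 := h2.trans h1
    simpa using h3
  refine ⟨C, fun N hN σ hσ => ?_⟩
  have hN' : (1 : ℝ) ≤ N := by exact_mod_cast hN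
  have hN0 : (0 : ℝ) < N := by linarith
  set a : ℕ → ℂ := fun n => if n ∈ Finset.Ico N (2 * N) then
    (((n : ℝ) ^ (B - 1) * σ n : ℝ) : ℂ) else 0 with ha
  have hsub : Finset.Ico N (2 * N) ⊆ Finset.Icc 1 (2 * N) := by
    intro n hn
    rw [Finset.mem_Ico] at hn
    rw [Finset.mem_Icc]
    omega
  have h1 := hC (2 * N) a
  have heq : ∀ t : ℝ, ∑ n ∈ Finset.Icc 1 (2 * N), a n * (((n : ℝ) ^ (1 - B) * h n t : ℝ) : ℂ) =
      ∑ n ∈ Finset.Ico N (2 * N), (σ n : ℂ) * (h n t : ℂ) := by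
    intro t
    rw [← Finset.sum_subset hsub]
    · refine Finset.sum_congr rfl fun n hn => ?_
      simp only [ha]
      rw [if_pos hn, ← ofReal_mul, ← ofReal_mul]
      congr 1
      have hn0 : (0 : ℝ) < n := by
        rw [Finset.mem_Ico] at hn
        have : 0 < n := by omega
        exact_mod_cast this
      have e : (n : ℝ) ^ (B - 1) * (n : ℝ) ^ (1 - B) = 1 := by
        rw [← Real.rpow_add hn0, show (B - 1 + (1 - B) : ℝ) = 0 by ring, Real.rpow_zero]
      calc (n : ℝ) ^ (B - 1) * σ n * ((n : ℝ) ^ (1 - B) * h n t) =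
            ((n : ℝ) ^ (B - 1) * (n : ℝ) ^ (1 - B)) * (σ n * h n t) := by ring
        _ = _ := by rw [e, one_mul]
    · intro n _ hn
      simp only [ha]
      rw [if_neg hn, zero_mul]
  have hsum : ∑ n ∈ Finset.Icc 1 (2 * N), ‖a n‖ ^ 2 ≤ (N : ℝ) ^ (2 * B - 1) := by
    rw [← Finset.sum_subset hsub]
    · have h2 : ∀ n ∈ Finset.Ico N (2 * N), ‖a n‖ ^ 2 ≤ (N : ℝ) ^ (2 * B - 2) := by
        intro n hn
        simp only [ha]
        rw [if_pos hn]
        rw [Finset.mem_Ico] at hn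
        have hnn : (N : ℝ) ≤ n := by exact_mod_cast hn.1
        have hn0 : (0 : ℝ) < n := by linarith
        have hs1 : σ n ^ 2 = 1 := by
          rcases hσ n with h | h <;> rw [h] <;> norm_num
        rw [norm_real, Real.norm_eq_abs, sq_abs, mul_pow, hs1, mul_one, ← Real.rpow_natCast,
          ← Real.rpow_mul hn0.le]
        calc (n : ℝ) ^ ((B - 1) * ((2 : ℕ) : ℝ)) = (n : ℝ) ^ (2 * B - 2) := by
              congr 1
              push_cast
              ring
          _ ≤ (N : ℝ) ^ (2 * B - 2) := Real.rpow_le_rpow_of_nonpos hN0 hnn (by linarith)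
      refine (Finset.sum_le_sum h2).trans (le_of_eq ?_)
      rw [Finset.sum_const, Nat.card_Ico, nsmul_eq_mul, show 2 * N - N = N by omega, mul_comm,
        ← Real.rpow_add_one hN0.ne']
      congr 1
      ring
    · intro n _ hn
      simp only [ha]
      rw [if_neg hn]
      simp
  simp_rw [heq] at h1
  simp_rw [real_sum]
  exact h1.trans (mul_le_mul_of_nonneg_left hsum hC0)

end Pool.Agent.NBL
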