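import Mathlib
import Pool.Agent.NBL.Low

/-!
# The global lower bound on the Lindelöf hypothesis: conclusion
-/

set_option autoImplicit false

open MeasureTheory Complex Set Filter Topology
open scoped ENNReal

namespace Pool.Agent.NBL

lemma lower_norm (hMu : Mu 0) {ε : ℝ} (hε : 0 < ε) (hε1 : ε ≤ 1) : ∃ N₀ : ℕ, ∀ N : ℕ, N₀ ≤ N →
    ∀ b : ℕ → ℂ, (∀ n ∈ Finset.Icc 1 N, ‖b n‖ ≤ n) →
    1 / 2 ≤ ∑ n ∈ Finset.Icc 1 N, ‖b n‖ ^ 2 * (1 / n - 1 / ((n : ℝ) + 1)) →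
    ENNReal.ofReal ((N : ℝ) ^ (-ε)) ≤ ∫⁻ t in Ioi (0 : ℝ), ‖Hs b (Finset.Icc 1 N) t‖ₑ ^ 2 := by
  have hpi := Real.pi_gt_three
  have hpi2 := Real.pi_lt_d2
  have hlog12 : 0 < Real.log 12 := Real.log_pos (by norm_num)
  set x : ℝ := ε / 16 with hxd
  have hx : 0 < x := by positivity
  have hx4 : x ≤ 1 / 16 := by rw [hxd]; linarith
  set κ : ℝ := ε * x / 1000 with hκd
  have hκ : 0 < κ := by positivity
  have hκ2 : κ ≤ 1 / 16000 := by
    rw [hκd]
    have : ε * x ≤ 1 * (1 / 16) := mul_le_mul hε1 hx4 hx.le zero_le_one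
    linarith
  set β : ℝ := ε * x / 100 with hβd
  have hβ : 0 < β := by positivity
  have hβ1 : β ≤ 1 := by
    rw [hβd]
    have : ε * x ≤ 1 * (1 / 16) := mul_le_mul hε1 hx4 hx.le zero_le_one
    linarith
  set L : ℝ := 1 / κ with hLd
  have hL : 0 < L := by positivity
  have hL1 : 1 ≤ L := by
    rw [hLd, le_div_iff₀ hκ]
    linarith
  set K : ℝ := L * (1 + 1 / κ) with hKd
  have hKL : K - L = L / κ := by rw [hKd]; ring
  have hLK : L < K := by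
    have : 0 < L / κ := by positivity
    linarith
  have hK : 2 * L / (Real.pi * (K - L)) ≤ κ := by
    rw [hKL]
    have e : 2 * L / (Real.pi * (L / κ)) = 2 / Real.pi * κ := by
      field_simp
    rw [e]
    have : 2 / Real.pi ≤ 1 := by
      rw [div_le_one (by linarith)]
      linarith
    nlinarith
  have hK2 : 3 / 2 < K := by
    have h1 : 1 ≤ L / κ := by
      rw [le_div_iff₀ hκ]
      linarith
    linarith
  have hK0 : 0 < K := by linarith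
  have hxL : 2 * x / L ≤ κ := by
    rw [hLd, div_div_eq_mul_div, div_one]
    nlinarith
  obtain ⟨C, hC, hbd⟩ := fz_lh hMu (β := β / 9) (by positivity)
  set A₁ : ℝ := 36 * Real.exp (5 / x * Real.log 12) with hA₁
  have hA1 : 0 < A₁ := by positivity
  obtain ⟨n1, hn1⟩ := ev_const_le (K := C) (ε := β / 9) (by positivity)
  obtain ⟨n2, hn2⟩ := ev_const_le (K := 17 * A₁) (ε := 3 * ε / 4) (by positivity)
  obtain ⟨n3, hn3⟩ := exists_nat_ge (3 + 2 * K)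
  refine ⟨max (max n1 n2) (max n3 4), fun N hN b hb hb2 => ?_⟩
  have hNa : n1 ≤ N := (le_max_left _ _).trans ((le_max_left _ _).trans hN)
  have hNb : n2 ≤ N := (le_max_right _ _).trans ((le_max_left _ _).trans hN)
  have hNc : n3 ≤ N := (le_max_left _ _).trans ((le_max_right _ _).trans hN)
  have hN4 : 4 ≤ N := (le_max_right _ _).trans ((le_max_right _ _).trans hN)
  have hN' : (4 : ℝ) ≤ N := by exact_mod_cast hN4
  have hN0 : (0 : ℝ) < N := by linarith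
  have hN1 : (1 : ℝ) ≤ N := by linarith
  have hNK : 3 + 2 * K ≤ N := hn3.trans (by exact_mod_cast hNc)
  have hCN := hn1 N hNa
  have hAN := hn2 N hNb
  set l : ℝ := Real.log N with hl
  have hl0 : 0 < l := Real.log_pos (by linarith)
  have hlp : ∀ c : ℝ, Real.log ((N : ℝ) ^ c) = c * l := fun c => Real.log_rpow hN0 c
  have hadd : ∀ c d : ℝ, (N : ℝ) ^ c * (N : ℝ) ^ d = (N : ℝ) ^ (c + d) := fun c d =>
    (Real.rpow_add hN0 c d).symm
  have hmono : ∀ {c d : ℝ}, c ≤ d → (N : ℝ) ^ c ≤ (N : ℝ) ^ d := fun h =>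
    Real.rpow_le_rpow_of_exponent_le hN1 h
  have hone : ∀ {c : ℝ}, 0 ≤ c → 1 ≤ (N : ℝ) ^ c := fun h => Real.one_le_rpow hN1 h
  have hle1 : ∀ {c : ℝ}, c ≤ 0 → (N : ℝ) ^ c ≤ 1 := fun h =>
    Real.rpow_le_one_of_one_le_of_nonpos hN1 h
  -- the sum of the coefficients
  have hsumb : 4 * ∑ n ∈ Finset.Icc 1 N, ‖b n‖ ≤ (N : ℝ) ^ (3 : ℝ) := by
    have h1 : ∑ n ∈ Finset.Icc 1 N, ‖b n‖ ≤ ∑ _n ∈ Finset.Icc 1 N, (N : ℝ) := by
      refine Finset.sum_le_sum fun n hn => (hb n hn).trans ?_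
      rw [Finset.mem_Icc] at hn
      exact_mod_cast hn.2
    rw [Finset.sum_const, Nat.card_Icc, nsmul_eq_mul, Nat.add_sub_cancel] at h1
    have e : (N : ℝ) ^ (3 : ℝ) = (N : ℝ) ^ 3 := by
      rw [← Real.rpow_natCast]
      norm_num
    rw [e]
    nlinarith
  have hu : ∀ y : ℝ, |y| ≤ (N : ℝ) ^ (7 : ℝ) → ∀ z : ℂ, 0 ≤ z.re → z.re ≤ K → |z.im| ≤ K →
      ‖fz (z + y * I)‖ ≤ (N : ℝ) ^ β := by
    intro y hy z hz1 hz2 hz3
    have h1 := hbd (z + y * I) (by simpa using hz1)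
    have h2 : ‖z + y * I‖ ≤ 2 * K + (N : ℝ) ^ (7 : ℝ) := by
      have h3 := norm_le_abs_re_add_abs_im z
      rw [abs_of_nonneg hz1] at h3
      have h4 : ‖(y : ℂ) * I‖ = |y| := by simp
      refine (norm_add_le _ _).trans ?_
      rw [h4]
      linarith
    have h7 : 1 ≤ (N : ℝ) ^ (7 : ℝ) := hone (by norm_num)
    have h3 : 2 + ‖z + y * I‖ ≤ (N : ℝ) ^ (8 : ℝ) := by
      have e : (N : ℝ) ^ (8 : ℝ) = N * (N : ℝ) ^ (7 : ℝ) := by
        rw [show (8 : ℝ) = 1 + 7 by norm_num, ← hadd, Real.rpow_one]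
      rw [e]
      nlinarith
    calc ‖fz (z + y * I)‖ ≤ C * (2 + ‖z + y * I‖) ^ (β / 9) := h1
      _ ≤ (N : ℝ) ^ (β / 9) * ((N : ℝ) ^ (8 : ℝ)) ^ (β / 9) := by
          gcongr
      _ = (N : ℝ) ^ β := by
          rw [← Real.rpow_mul hN0.le, hadd]
          congr 1
          ring
  have hcore := low_core (N := N) (b := b) (x := x) (κ := κ) (L := L) (K := K)
    (Mu := (N : ℝ) ^ β) (Mv := (N : ℝ) ^ (3 : ℝ)) (P₀ := (N : ℝ) ^ (-6 : ℝ))
    (P₁ := (N : ℝ) ^ (-8 : ℝ)) (P₂ := (N : ℝ) ^ (-5 : ℝ)) (R := (N : ℝ) ^ (7 : ℝ)) hx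
    (by linarith) hκ (by linarith) hL hK hLK hK2 hxL (hone hβ.le) (hone (by norm_num))
    (by positivity) (by positivity) (by positivity) (hle1 (by norm_num))
    (by rw [hadd]; exact hmono (by linarith)) (by rw [hadd]; exact hmono (by norm_num))
    (lt_of_lt_of_le (Real.rpow_lt_one_of_one_lt_of_neg (by linarith) (by norm_num))
      (hone (by norm_num)))
    (lt_of_lt_of_le (Real.rpow_lt_one_of_one_lt_of_neg (by linarith) (by norm_num))
      (hone hβ.le))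
    (by positivity) hsumb hu hb2 (by
      rw [div_le_one (by positivity)]
      have e : ((N : ℝ) ^ (3 : ℝ)) ^ 2 = (N : ℝ) ^ (6 : ℝ) := by
        rw [sq, hadd]
        norm_num
      rw [e, show (7 : ℝ) = 1 + 6 by norm_num, ← hadd, Real.rpow_one]
      have : 0 < (N : ℝ) ^ (6 : ℝ) := by positivity
      exact mul_le_mul_of_nonneg_right (by linarith) this.le)
  simp only [hlp] at hcore
  set IH : ℝ≥0∞ := ∫⁻ t in Ioi (0 : ℝ), ‖Hs b (Finset.Icc 1 N) t‖ₑ ^ 2 with hIH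
  by_contra hcon
  rw [not_le] at hcon
  set E : ℝ := 2 * (κ * (3 * l) + κ * (3 * l - -6 * l) +
        5 / (2 * x) * (Real.log 12 + β * l + κ * (β * l - -8 * l))) - 2 * κ * (-5 * l) with hE
  have hEle : E ≤ 5 / x * Real.log 12 + ε / 10 * l := by
    have e1 : E = 34 * κ * l + 5 / x * Real.log 12 + 5 / x * (β + κ * (β + 8)) * l := by
      rw [hE]
      ring
    rw [e1]
    have h1 : 5 / x * (β + κ * (β + 8)) ≤ 95 / 1000 * ε := by
      have h2 : β + κ * (β + 8) ≤ ε * x / 100 + 9 * (ε * x / 1000) := by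
        have h3 : κ * (β + 8) ≤ κ * 9 := mul_le_mul_of_nonneg_left (by linarith) hκ.le
        rw [← hβd, ← hκd]
        linarith
      calc 5 / x * (β + κ * (β + 8)) ≤ 5 / x * (ε * x / 100 + 9 * (ε * x / 1000)) :=
            mul_le_mul_of_nonneg_left h2 (by positivity)
        _ = 95 / 1000 * ε := by
            field_simp
            ring
    have h4 : 34 * κ ≤ 5 / 1000 * ε := by
      rw [hκd]
      nlinarith
    have h5 : 34 * κ * l ≤ 5 / 1000 * ε * l := mul_le_mul_of_nonneg_right h4 hl0.le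
    have h6 : 5 / x * (β + κ * (β + 8)) * l ≤ 95 / 1000 * ε * l :=
      mul_le_mul_of_nonneg_right h1 hl0.le
    linarith
  set A₀ : ℝ := 18 * ((N : ℝ) + 1) ^ (2 * x) * Real.exp E with hA₀
  have hA0 : 0 < A₀ := by positivity
  have hA0le : A₀ ≤ A₁ * (N : ℝ) ^ (ε / 4) := by
    have h1 : ((N : ℝ) + 1) ^ (2 * x) ≤ 2 * (N : ℝ) ^ (ε / 8) := by
      calc ((N : ℝ) + 1) ^ (2 * x) ≤ (2 * N) ^ (2 * x) :=
            Real.rpow_le_rpow (by positivity) (by linarith) (by positivity)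
        _ = 2 ^ (2 * x) * (N : ℝ) ^ (2 * x) := Real.mul_rpow (by norm_num) hN0.le
        _ ≤ 2 ^ (1 : ℝ) * (N : ℝ) ^ (ε / 8) := by
            apply mul_le_mul _ _ (by positivity) (by positivity)
            · exact Real.rpow_le_rpow_of_exponent_le (by norm_num) (by linarith)
            · apply hmono
              rw [hxd]
              linarith
        _ = 2 * (N : ℝ) ^ (ε / 8) := by rw [Real.rpow_one]
    have h2 : Real.exp E ≤ Real.exp (5 / x * Real.log 12) * (N : ℝ) ^ (ε / 10) := by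
      calc Real.exp E ≤ Real.exp (5 / x * Real.log 12 + ε / 10 * l) := Real.exp_le_exp.2 hEle
        _ = _ := by
            rw [Real.exp_add, Real.rpow_def_of_pos hN0, ← hl]
            congr 2
            ring
    calc A₀ ≤ 18 * (2 * (N : ℝ) ^ (ε / 8)) *
          (Real.exp (5 / x * Real.log 12) * (N : ℝ) ^ (ε / 10)) := by
          rw [hA₀]
          gcongr
      _ = A₁ * ((N : ℝ) ^ (ε / 8) * (N : ℝ) ^ (ε / 10)) := by
          rw [hA₁]
          ring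
      _ ≤ A₁ * (N : ℝ) ^ (ε / 4) := by
          rw [hadd]
          apply mul_le_mul_of_nonneg_left (hmono (by linarith)) hA1.le
  have h1 : ENNReal.ofReal 2 ≤ ENNReal.ofReal (A₀ * (4 * Real.pi * (N : ℝ) ^ (-ε) +
      4 * (N : ℝ) ^ (7 : ℝ) * ((N : ℝ) ^ (-5 : ℝ)) ^ 2)) := by
    calc ENNReal.ofReal 2 ≤ ENNReal.ofReal A₀ * (ENNReal.ofReal (4 * Real.pi) * IH +
          ENNReal.ofReal (4 * (N : ℝ) ^ (7 : ℝ) * ((N : ℝ) ^ (-5 : ℝ)) ^ 2)) := hcore
      _ ≤ ENNReal.ofReal A₀ * (ENNReal.ofReal (4 * Real.pi) * ENNReal.ofReal ((N : ℝ) ^ (-ε)) +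
          ENNReal.ofReal (4 * (N : ℝ) ^ (7 : ℝ) * ((N : ℝ) ^ (-5 : ℝ)) ^ 2)) := by
          gcongr
      _ = _ := by
          rw [← ENNReal.ofReal_mul (by positivity), ← ENNReal.ofReal_add (by positivity)
            (by positivity), ← ENNReal.ofReal_mul hA0.le]
  rw [ENNReal.ofReal_le_ofReal_iff (by positivity)] at h1
  have h2 : 4 * (N : ℝ) ^ (7 : ℝ) * ((N : ℝ) ^ (-5 : ℝ)) ^ 2 ≤ 4 * (N : ℝ) ^ (-ε) := by
    have e : (N : ℝ) ^ (7 : ℝ) * ((N : ℝ) ^ (-5 : ℝ)) ^ 2 = (N : ℝ) ^ (-3 : ℝ) := by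
      rw [sq, hadd, hadd]
      norm_num
    rw [mul_assoc, e]
    exact mul_le_mul_of_nonneg_left (hmono (by linarith)) (by norm_num)
  have h3 : A₀ * (4 * Real.pi * (N : ℝ) ^ (-ε) +
      4 * (N : ℝ) ^ (7 : ℝ) * ((N : ℝ) ^ (-5 : ℝ)) ^ 2) ≤ 1 := by
    calc _ ≤ (A₁ * (N : ℝ) ^ (ε / 4)) * (17 * (N : ℝ) ^ (-ε)) := by
          apply mul_le_mul hA0le _ (by positivity) (by positivity)
          have : 4 * Real.pi * (N : ℝ) ^ (-ε) ≤ 13 * (N : ℝ) ^ (-ε) := by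
            apply mul_le_mul_of_nonneg_right _ (by positivity)
            linarith
          linarith
      _ = 17 * A₁ * (N : ℝ) ^ (-(3 * ε / 4)) := by
          have e : (N : ℝ) ^ (-(3 * ε / 4)) = (N : ℝ) ^ (ε / 4) * (N : ℝ) ^ (-ε) := by
            rw [hadd]
            congr 1
            ring
          rw [e]
          ring
      _ ≤ (N : ℝ) ^ (3 * ε / 4) * (N : ℝ) ^ (-(3 * ε / 4)) :=
          mul_le_mul_of_nonneg_right hAN (by positivity)
      _ = 1 := by rw [hadd, add_neg_cancel, Real.rpow_zero]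
  linarith

/-- the global lower bound -/
theorem lower_global (hMu : Mu 0) {ε : ℝ} (hε : 0 < ε) : ∃ N₀ : ℕ, ∀ N : ℕ, N₀ ≤ N →
    ∀ a : ℕ → ℂ, (N : ℝ) ^ (-ε) * ∑ n ∈ Finset.Icc 1 N, ‖a n‖ ^ 2 ≤
      ∫ t in Ioi (0 : ℝ), ‖∑ n ∈ Finset.Icc 1 N, a n * ((n * h n t : ℝ) : ℂ)‖ ^ 2 := by
  obtain ⟨N₀, hN₀⟩ := lower_norm hMu (ε := min ε 1) (lt_min hε one_pos) (min_le_right _ _)
  refine ⟨max N₀ 1, fun N hN a => ?_⟩
  have hN1 : 1 ≤ N := (le_max_right _ _).trans hN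
  have hN' : (1 : ℝ) ≤ N := by exact_mod_cast hN1
  set S : ℝ := ∑ n ∈ Finset.Icc 1 N, ‖a n‖ ^ 2 with hS
  have hS0 : 0 ≤ S := Finset.sum_nonneg fun _ _ => by positivity
  rcases hS0.eq_or_lt with hS1 | hS1
  · rw [← hS1, mul_zero]
    exact integral_nonneg fun t => by positivity
  have hsq : 0 < √S := Real.sqrt_pos.2 hS1
  set b : ℕ → ℂ := fun n => ((√S)⁻¹ : ℝ) * (a n * n) with hb
  have hbn : ∀ n, ‖b n‖ = (√S)⁻¹ * (‖a n‖ * n) := by
    intro n
    simp only [hb]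
    rw [norm_mul, norm_mul, norm_real, Real.norm_of_nonneg (by positivity), norm_natCast]
  have h1 := hN₀ N ((le_max_left _ _).trans hN) b (by
    intro n hn
    rw [hbn]
    have h2 : ‖a n‖ ≤ √S := by
      apply Real.le_sqrt_of_sq_le
      exact Finset.single_le_sum (f := fun n => ‖a n‖ ^ 2) (fun _ _ => by positivity) hn
    calc (√S)⁻¹ * (‖a n‖ * n) ≤ (√S)⁻¹ * (√S * n) := by gcongr
      _ = n := by field_simp) (by
    have h2 : ∀ n ∈ Finset.Icc 1 N, 1 / 2 * (S⁻¹ * ‖a n‖ ^ 2) ≤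
        ‖b n‖ ^ 2 * (1 / n - 1 / ((n : ℝ) + 1)) := by
      intro n hn
      have hn0 : (1 : ℝ) ≤ n := by exact_mod_cast pos_of_mem hn
      have hn1 : (0 : ℝ) < n := by linarith
      rw [hbn, mul_pow, mul_pow, inv_pow, Real.sq_sqrt hS0]
      have e : S⁻¹ * (‖a n‖ ^ 2 * (n : ℝ) ^ 2) * (1 / n - 1 / ((n : ℝ) + 1)) =
          (S⁻¹ * ‖a n‖ ^ 2) * (n / (n + 1)) := by
        field_simp
        ring
      rw [e, mul_comm (1 / 2 : ℝ)]
      refine mul_le_mul_of_nonneg_left ?_ (by positivity)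
      rw [div_le_div_iff₀ (by norm_num) (by positivity)]
      linarith
    calc (1 : ℝ) / 2 = 1 / 2 * (S⁻¹ * S) := by rw [inv_mul_cancel₀ hS1.ne', mul_one]
      _ = ∑ n ∈ Finset.Icc 1 N, 1 / 2 * (S⁻¹ * ‖a n‖ ^ 2) := by
          rw [← Finset.mul_sum, ← Finset.mul_sum]
      _ ≤ _ := Finset.sum_le_sum h2)
  have h3 := int_ge (adm_Hs b fun n hn => pos_of_mem hn) h1
  have e1 : ∀ t : ℝ, ‖Hs b (Finset.Icc 1 N) t‖ ^ 2 =
      S⁻¹ * ‖∑ n ∈ Finset.Icc 1 N, a n * ((n * h n t : ℝ) : ℂ)‖ ^ 2 := by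
    intro t
    have e2 : Hs b (Finset.Icc 1 N) t = ((√S)⁻¹ : ℝ) *
        ∑ n ∈ Finset.Icc 1 N, a n * ((n * h n t : ℝ) : ℂ) := by
      unfold Hs
      rw [Finset.mul_sum]
      refine Finset.sum_congr rfl fun n _ => ?_
      simp only [hb]
      push_cast
      ring
    rw [e2, norm_mul, mul_pow, norm_real, Real.norm_of_nonneg (by positivity), inv_pow,
      Real.sq_sqrt hS0]
  simp_rw [e1] at h3
  rw [integral_const_mul] at h3
  have h4 : (N : ℝ) ^ (-ε) ≤ (N : ℝ) ^ (-min ε 1) :=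
    Real.rpow_le_rpow_of_exponent_le hN' (neg_le_neg (min_le_left _ _))
  have h5 := h4.trans h3
  calc (N : ℝ) ^ (-ε) * S ≤ (S⁻¹ * ∫ t in Ioi (0 : ℝ),
        ‖∑ n ∈ Finset.Icc 1 N, a n * ((n * h n t : ℝ) : ℂ)‖ ^ 2) * S :=
        mul_le_mul_of_nonneg_right h5 hS0
    _ = _ := by
        field_simp

end Pool.Agent.NBL
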