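import Mathlib
import Pool.Agent.NBL.Low2
import Pool.Agent.NBL.Glob

/-!
# The whole range `n ≤ N`: two-sided bounds and condition numbers
-/

set_option autoImplicit false

open MeasureTheory Complex Set Filter Topology
open scoped ENNReal ComplexConjugate

namespace Pool.Agent.NBL

/-- the quadratic form of the functions `n h_n`, `n ≤ N` -/
noncomputable def Q (N : ℕ) (a : ℕ → ℂ) : ℝ :=
  ∫ t in Ioi (0 : ℝ), ‖∑ n ∈ Finset.Icc 1 N, a n * ((n * h n t : ℝ) : ℂ)‖ ^ 2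

/-- two-sided bounds on the whole range -/
def TwoSidedG : Prop :=
  ∀ ε : ℝ, 0 < ε → ∃ N₀ : ℕ, ∀ N : ℕ, N₀ ≤ N → ∀ a : ℕ → ℂ,
    (N : ℝ) ^ (-ε) * ∑ n ∈ Finset.Icc 1 N, ‖a n‖ ^ 2 ≤ Q N a ∧
      Q N a ≤ (N : ℝ) ^ ε * ∑ n ∈ Finset.Icc 1 N, ‖a n‖ ^ 2

/-- condition numbers on the whole range -/
def CondG : Prop :=
  ∀ ε : ℝ, 0 < ε → ∃ N₀ : ℕ, ∀ N : ℕ, N₀ ≤ N → ∀ a b : ℕ → ℂ,
    ∑ n ∈ Finset.Icc 1 N, ‖a n‖ ^ 2 = ∑ n ∈ Finset.Icc 1 N, ‖b n‖ ^ 2 →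
      Q N a ≤ (N : ℝ) ^ ε * Q N b

lemma const_le_rpow (C : ℝ) {ε : ℝ} (hε : 0 < ε) : ∃ N₀ : ℕ, ∀ N : ℕ, N₀ ≤ N →
    C ≤ (N : ℝ) ^ ε := by
  have t1 : Tendsto (fun N : ℕ => (N : ℝ) ^ ε) atTop atTop :=
    (tendsto_rpow_atTop hε).comp tendsto_natCast_atTop_atTop
  obtain ⟨N₀, hN₀⟩ := eventually_atTop.1 (t1.eventually_ge_atTop C)
  exact ⟨N₀, hN₀⟩

theorem upper_global (hb : BesselSeq 0) : ∀ ε : ℝ, 0 < ε → ∃ N₀ : ℕ, ∀ N : ℕ, N₀ ≤ N →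
    ∀ a : ℕ → ℂ, Q N a ≤ (N : ℝ) ^ ε * ∑ n ∈ Finset.Icc 1 N, ‖a n‖ ^ 2 := by
  intro ε hε
  set B : ℝ := min ε 1 / 4 with hB
  have hm : 0 < min ε 1 := lt_min hε one_pos
  have hB0 : 0 < B := by positivity
  have hB1 : B < 1 / 2 := by
    have := min_le_right ε 1
    rw [hB]
    linarith
  obtain ⟨C, hC⟩ := hb B hB0 hB1
  obtain ⟨N₁, hN₁⟩ := const_le_rpow C (ε := ε / 2) (by positivity)
  refine ⟨max N₁ 1, fun N hN a => ?_⟩
  have hNa : N₁ ≤ N := (le_max_left _ _).trans hN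
  have hN1 : 1 ≤ N := (le_max_right _ _).trans hN
  have hN' : (1 : ℝ) ≤ N := by exact_mod_cast hN1
  have hN0 : (0 : ℝ) < N := by linarith
  have h1 := hC N fun n => a n * (((n : ℝ) ^ B : ℝ) : ℂ)
  have e1 : ∀ t : ℝ, ∑ n ∈ Finset.Icc 1 N, a n * (((n : ℝ) ^ B : ℝ) : ℂ) *
      (((n : ℝ) ^ (1 - B) * h n t : ℝ) : ℂ) =
      ∑ n ∈ Finset.Icc 1 N, a n * ((n * h n t : ℝ) : ℂ) := by
    intro t
    refine Finset.sum_congr rfl fun n hn => ?_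
    have hn0 : (0 : ℝ) < n := by
      rw [Finset.mem_Icc] at hn
      have : 0 < n := by omega
      exact_mod_cast this
    rw [mul_assoc, ← ofReal_mul, ← mul_assoc, ← Real.rpow_add hn0,
      show B + (1 - B) = 1 by ring, Real.rpow_one]
  simp_rw [e1] at h1
  refine h1.trans ?_
  have h2 : ∑ n ∈ Finset.Icc 1 N, ‖a n * (((n : ℝ) ^ B : ℝ) : ℂ)‖ ^ 2 ≤
      (N : ℝ) ^ (ε / 2) * ∑ n ∈ Finset.Icc 1 N, ‖a n‖ ^ 2 := by
    rw [Finset.mul_sum]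
    refine Finset.sum_le_sum fun n hn => ?_
    rw [Finset.mem_Icc] at hn
    have hn0 : (0 : ℝ) < n := by
      have : 0 < n := by omega
      exact_mod_cast this
    have hnN : (n : ℝ) ≤ N := by exact_mod_cast hn.2
    rw [norm_mul, mul_pow, mul_comm, norm_real, Real.norm_of_nonneg (by positivity)]
    refine mul_le_mul_of_nonneg_right ?_ (by positivity)
    rw [← Real.rpow_natCast, ← Real.rpow_mul hn0.le]
    calc (n : ℝ) ^ (B * ((2 : ℕ) : ℝ)) ≤ (N : ℝ) ^ (B * ((2 : ℕ) : ℝ)) :=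
          Real.rpow_le_rpow hn0.le hnN (by positivity)
      _ ≤ (N : ℝ) ^ (ε / 2) := by
          apply Real.rpow_le_rpow_of_exponent_le hN'
          have := min_le_left ε 1
          rw [hB]
          push_cast
          linarith
  have hS : 0 ≤ ∑ n ∈ Finset.Icc 1 N, ‖a n * (((n : ℝ) ^ B : ℝ) : ℂ)‖ ^ 2 :=
    Finset.sum_nonneg fun n _ => by positivity
  calc C * ∑ n ∈ Finset.Icc 1 N, ‖a n * (((n : ℝ) ^ B : ℝ) : ℂ)‖ ^ 2
      ≤ (N : ℝ) ^ (ε / 2) * ((N : ℝ) ^ (ε / 2) * ∑ n ∈ Finset.Icc 1 N, ‖a n‖ ^ 2) :=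
        mul_le_mul (hN₁ N hNa) h2 hS (by positivity)
    _ = (N : ℝ) ^ ε * ∑ n ∈ Finset.Icc 1 N, ‖a n‖ ^ 2 := by
        rw [← mul_assoc, ← Real.rpow_add hN0, add_halves]

theorem twoSidedG_of_mu (h : Mu 0) : TwoSidedG := by
  intro ε hε
  obtain ⟨N₁, hN₁⟩ := lower_global h hε
  obtain ⟨N₂, hN₂⟩ := upper_global
    (besselSeq_of_bessel le_rfl (bessel_of_mu le_rfl (by norm_num) h)) ε hε
  refine ⟨max N₁ N₂, fun N hN a => ⟨?_, ?_⟩⟩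
  · exact hN₁ N ((le_max_left _ _).trans hN) a
  · exact hN₂ N ((le_max_right _ _).trans hN) a

lemma Q_smul (N : ℕ) (z : ℝ) (a : ℕ → ℂ) : Q N (fun n => z * a n) = z ^ 2 * Q N a := by
  unfold Q
  rw [← integral_const_mul]
  congr 1
  funext t
  have : ∑ n ∈ Finset.Icc 1 N, z * a n * ((n * h n t : ℝ) : ℂ) =
      z * ∑ n ∈ Finset.Icc 1 N, a n * ((n * h n t : ℝ) : ℂ) := by
    rw [Finset.mul_sum]
    exact Finset.sum_congr rfl fun n _ => mul_assoc _ _ _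
  rw [this, norm_mul, mul_pow, norm_real, Real.norm_eq_abs, sq_abs]

lemma Q_nonneg (N : ℕ) (a : ℕ → ℂ) : 0 ≤ Q N a := integral_nonneg fun t => by positivity

/-- the condition number in homogeneous form -/
lemma condG_hom {N : ℕ} {K : ℝ}
    (hc : ∀ a b : ℕ → ℂ, ∑ n ∈ Finset.Icc 1 N, ‖a n‖ ^ 2 = ∑ n ∈ Finset.Icc 1 N, ‖b n‖ ^ 2 →
      Q N a ≤ K * Q N b) (a b : ℕ → ℂ) :
    Q N a * ∑ n ∈ Finset.Icc 1 N, ‖b n‖ ^ 2 ≤ K * Q N b * ∑ n ∈ Finset.Icc 1 N, ‖a n‖ ^ 2 := by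
  set A : ℝ := ∑ n ∈ Finset.Icc 1 N, ‖a n‖ ^ 2 with hA
  set B : ℝ := ∑ n ∈ Finset.Icc 1 N, ‖b n‖ ^ 2 with hB
  have hA0 : 0 ≤ A := Finset.sum_nonneg fun n _ => by positivity
  have hB0 : 0 ≤ B := Finset.sum_nonneg fun n _ => by positivity
  have e : ∀ (z : ℝ) (x : ℕ → ℂ), ∑ n ∈ Finset.Icc 1 N, ‖(z : ℂ) * x n‖ ^ 2 =
      z ^ 2 * ∑ n ∈ Finset.Icc 1 N, ‖x n‖ ^ 2 := by
    intro z x
    rw [Finset.mul_sum]
    refine Finset.sum_congr rfl fun n _ => ?_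
    rw [norm_mul, mul_pow, norm_real, Real.norm_eq_abs, sq_abs]
  have h1 := hc (fun n => (√B : ℝ) * a n) (fun n => (√A : ℝ) * b n) (by
    rw [e, e, Real.sq_sqrt hB0, Real.sq_sqrt hA0, ← hA, ← hB]
    ring)
  rw [Q_smul, Q_smul, Real.sq_sqrt hB0, Real.sq_sqrt hA0] at h1
  linarith

theorem cond_of_condG (hc : CondG) : Cond := by
  intro ε hε
  obtain ⟨N₁, hN₁⟩ := hc (ε / 2) (by positivity)
  obtain ⟨N₂, hN₂⟩ := const_le_rpow (4 * (2 : ℝ) ^ (ε / 2)) (ε := ε / 2) (by positivity)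
  refine ⟨max (max N₁ N₂) 1, fun N hN a b hab => ?_⟩
  have hNa : N₁ ≤ N := (le_max_left _ _).trans ((le_max_left _ _).trans hN)
  have hNb : N₂ ≤ N := (le_max_right _ _).trans ((le_max_left _ _).trans hN)
  have hN1 : 1 ≤ N := (le_max_right _ _).trans hN
  have hN' : (1 : ℝ) ≤ N := by exact_mod_cast hN1
  have hN0 : (0 : ℝ) < N := by linarith
  have hsub : Finset.Ico N (2 * N) ⊆ Finset.Icc 1 (2 * N) := by
    intro n hn
    rw [Finset.mem_Ico] at hn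
    rw [Finset.mem_Icc]
    omega
  set tr : (ℕ → ℂ) → ℕ → ℂ := fun x n => if n ∈ Finset.Ico N (2 * N) then x n / n else 0 with htr
  have hQ : ∀ x : ℕ → ℂ, Q (2 * N) (tr x) =
      ∫ t in Ioi (0 : ℝ), ‖∑ n ∈ Finset.Ico N (2 * N), x n * (h n t : ℂ)‖ ^ 2 := by
    intro x
    unfold Q
    congr 1
    funext t
    congr 2
    rw [← Finset.sum_subset hsub]
    · refine Finset.sum_congr rfl fun n hn => ?_
      have hn0 : (n : ℂ) ≠ 0 := by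
        rw [Finset.mem_Ico] at hn
        have : n ≠ 0 := by omega
        exact_mod_cast this
      simp only [htr]
      rw [if_pos hn]
      push_cast
      field_simp
    · intro n _ hn
      simp only [htr]
      rw [if_neg hn, zero_mul]
  have hS : ∀ x : ℕ → ℂ, ∑ n ∈ Finset.Icc 1 (2 * N), ‖tr x n‖ ^ 2 =
      ∑ n ∈ Finset.Ico N (2 * N), ‖x n‖ ^ 2 / (n : ℝ) ^ 2 := by
    intro x
    rw [← Finset.sum_subset hsub]
    · refine Finset.sum_congr rfl fun n hn => ?_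
      simp only [htr]
      rw [if_pos hn, norm_div, div_pow, norm_natCast]
    · intro n _ hn
      simp only [htr]
      rw [if_neg hn]
      simp
  have hup : ∀ x : ℕ → ℂ, ∑ n ∈ Finset.Icc 1 (2 * N), ‖tr x n‖ ^ 2 ≤
      (∑ n ∈ Finset.Ico N (2 * N), ‖x n‖ ^ 2) / (N : ℝ) ^ 2 := by
    intro x
    rw [hS, Finset.sum_div]
    refine Finset.sum_le_sum fun n hn => ?_
    rw [Finset.mem_Ico] at hn
    have : (N : ℝ) ≤ n := by exact_mod_cast hn.1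
    gcongr
  have hlo : ∀ x : ℕ → ℂ, (∑ n ∈ Finset.Ico N (2 * N), ‖x n‖ ^ 2) / (4 * (N : ℝ) ^ 2) ≤
      ∑ n ∈ Finset.Icc 1 (2 * N), ‖tr x n‖ ^ 2 := by
    intro x
    rw [hS, Finset.sum_div]
    refine Finset.sum_le_sum fun n hn => ?_
    rw [Finset.mem_Ico] at hn
    have h1 : (n : ℝ) ≤ 2 * N := by exact_mod_cast hn.2.le
    have h2 : (0 : ℝ) < n := by
      have : 0 < n := by omega
      exact_mod_cast this
    have h3 : (n : ℝ) ^ 2 ≤ 4 * (N : ℝ) ^ 2 := by nlinarith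
    gcongr
  have h2N : N₁ ≤ 2 * N := by omega
  have h1 := condG_hom (hN₁ (2 * N) h2N) (tr a) (tr b)
  rw [hQ, hQ] at h1
  set S : ℝ := ∑ n ∈ Finset.Ico N (2 * N), ‖b n‖ ^ 2 with hSd
  have hS0 : 0 ≤ S := Finset.sum_nonneg fun n _ => by positivity
  set X : ℝ := ∫ t in Ioi (0 : ℝ), ‖∑ n ∈ Finset.Ico N (2 * N), a n * (h n t : ℂ)‖ ^ 2 with hX
  set Y : ℝ := ∫ t in Ioi (0 : ℝ), ‖∑ n ∈ Finset.Ico N (2 * N), b n * (h n t : ℂ)‖ ^ 2 with hY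
  have hX0 : 0 ≤ X := integral_nonneg fun t => by positivity
  have hY0 : 0 ≤ Y := integral_nonneg fun t => by positivity
  have hua := hup a
  have hlb := hlo b
  rw [hab] at hua
  rw [← hSd] at hlb
  have hK : ((2 * N : ℕ) : ℝ) ^ (ε / 2) = (2 : ℝ) ^ (ε / 2) * (N : ℝ) ^ (ε / 2) := by
    push_cast
    rw [Real.mul_rpow (by norm_num) hN0.le]
  have h2 : X * (S / (4 * (N : ℝ) ^ 2)) ≤
      (2 : ℝ) ^ (ε / 2) * (N : ℝ) ^ (ε / 2) * Y * (S / (N : ℝ) ^ 2) := by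
    calc X * (S / (4 * (N : ℝ) ^ 2)) ≤ X * ∑ n ∈ Finset.Icc 1 (2 * N), ‖tr b n‖ ^ 2 :=
          mul_le_mul_of_nonneg_left hlb hX0
      _ ≤ ((2 * N : ℕ) : ℝ) ^ (ε / 2) * Y * ∑ n ∈ Finset.Icc 1 (2 * N), ‖tr a n‖ ^ 2 := h1
      _ ≤ ((2 * N : ℕ) : ℝ) ^ (ε / 2) * Y * (S / (N : ℝ) ^ 2) :=
          mul_le_mul_of_nonneg_left hua (by positivity)
      _ = _ := by rw [hK]
  rcases hS0.eq_or_lt with hS1 | hS1
  · -- the zero vector
    have ha : ∀ n ∈ Finset.Ico N (2 * N), a n = 0 := by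
      intro n hn
      have h3 : ∑ n ∈ Finset.Ico N (2 * N), ‖a n‖ ^ 2 = 0 := by rw [hab, ← hS1]
      have h4 := (Finset.sum_eq_zero_iff_of_nonneg (fun n _ => by positivity)).1 h3 n hn
      simpa using h4
    have hX1 : X = 0 := by
      have h5 : ∀ t : ℝ, ‖∑ n ∈ Finset.Ico N (2 * N), a n * (h n t : ℂ)‖ ^ 2 = 0 := by
        intro t
        rw [Finset.sum_eq_zero fun n hn => by rw [ha n hn, zero_mul]]
        simp
      rw [hX]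
      simp_rw [h5]
      simp
    rw [hX1]
    positivity
  · have h3 : X ≤ 4 * (2 : ℝ) ^ (ε / 2) * (N : ℝ) ^ (ε / 2) * Y := by
      have h4 : X * (S / (4 * (N : ℝ) ^ 2)) ≤
          4 * (2 : ℝ) ^ (ε / 2) * (N : ℝ) ^ (ε / 2) * Y * (S / (4 * (N : ℝ) ^ 2)) := by
        refine h2.trans (le_of_eq ?_)
        field_simp
      exact le_of_mul_le_mul_right h4 (by positivity)
    refine h3.trans ?_
    calc 4 * (2 : ℝ) ^ (ε / 2) * (N : ℝ) ^ (ε / 2) * Y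
        ≤ (N : ℝ) ^ (ε / 2) * (N : ℝ) ^ (ε / 2) * Y := by
          gcongr
          exact hN₂ N hNb
      _ = (N : ℝ) ^ ε * Y := by rw [← Real.rpow_add hN0, add_halves]

end Pool.Agent.NBL
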