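import Mathlib
import Pool.Agent.NBL.Glob2

/-!
# The Nyman–Beurling functions themselves
-/

set_option autoImplicit false

open MeasureTheory Complex Set Filter Topology
open scoped ENNReal ComplexConjugate

namespace Pool.Agent.NBL

/-- the form of the Nyman–Beurling functions -/
noncomputable def QB (N : ℕ) (c : ℕ → ℂ) : ℝ :=
  ∫ t in Ioi (0 : ℝ), ‖∑ k ∈ Finset.Icc 1 N, c k * nb k t‖ ^ 2

/-- the form of the indicator functions -/
noncomputable def QP (N : ℕ) (c : ℕ → ℂ) : ℝ :=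
  ∫ t in Ioi (0 : ℝ), ‖∑ k ∈ Finset.Icc 1 N, c k * ch k t‖ ^ 2

/-- the two forms are comparable -/
def NBC : Prop :=
  ∀ ε : ℝ, 0 < ε → ∃ N₀ : ℕ, ∀ N : ℕ, N₀ ≤ N → ∀ c : ℕ → ℂ,
    (N : ℝ) ^ (-ε) * QP N c ≤ QB N c ∧ QB N c ≤ (N : ℝ) ^ ε * QP N c

lemma abel_all (c f : ℕ → ℂ) (M : ℕ) :
    ∑ k ∈ Finset.Icc 1 M, c k * f k =
      ∑ n ∈ Finset.Icc 1 M, (∑ k ∈ Finset.Icc 1 n, c k) * (f n - f (n + 1)) +
        (∑ k ∈ Finset.Icc 1 M, c k) * f (M + 1) := by
  induction M with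
  | zero => simp
  | succ M ih =>
    rw [Finset.sum_Icc_succ_top (by omega), Finset.sum_Icc_succ_top (by omega), ih,
      Finset.sum_Icc_succ_top (by omega : 1 ≤ M + 1) (fun k => c k)]
    ring

/-- truncation -/
noncomputable def trc (N : ℕ) (c : ℕ → ℂ) (k : ℕ) : ℂ := if k ≤ N then c k else 0

/-- partial sums of the truncated sequence -/
noncomputable def psum (N : ℕ) (c : ℕ → ℂ) (n : ℕ) : ℂ := ∑ k ∈ Finset.Icc 1 n, trc N c k

lemma psum_const {N n : ℕ} (c : ℕ → ℂ) (hn : N ≤ n) : psum N c n = psum N c N := by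
  unfold psum
  have hsub : Finset.Icc 1 N ⊆ Finset.Icc 1 n := Finset.Icc_subset_Icc le_rfl hn
  rw [← Finset.sum_subset hsub]
  intro k hk hk2
  unfold trc
  rw [Finset.mem_Icc] at hk hk2
  rw [if_neg (by omega)]

lemma abel_trc {N M : ℕ} (hNM : N ≤ M) (c f : ℕ → ℂ) :
    ∑ k ∈ Finset.Icc 1 N, c k * f k =
      ∑ n ∈ Finset.Icc 1 M, psum N c n * (f n - f (n + 1)) + psum N c N * f (M + 1) := by
  have h1 := abel_all (trc N c) f M
  have hsub : Finset.Icc 1 N ⊆ Finset.Icc 1 M := Finset.Icc_subset_Icc le_rfl hNM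
  have e1 : ∑ k ∈ Finset.Icc 1 M, trc N c k * f k = ∑ k ∈ Finset.Icc 1 N, c k * f k := by
    rw [← Finset.sum_subset hsub]
    · refine Finset.sum_congr rfl fun k hk => ?_
      rw [Finset.mem_Icc] at hk
      unfold trc
      rw [if_pos hk.2]
    · intro k hk hk2
      unfold trc
      rw [Finset.mem_Icc] at hk hk2
      rw [if_neg (by omega), zero_mul]
  rw [e1] at h1
  rw [h1]
  congr 1
  have := psum_const c hNM
  unfold psum at this ⊢
  rw [this]

/-- the triangle inequality -/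
lemma int_add_le {A B C : ℝ → ℂ} (hB : Adm B) (hC : Adm C) (hABC : ∀ t, A t = B t + C t) :
    ∫ t in Ioi (0 : ℝ), ‖A t‖ ^ 2 ≤
      2 * (∫ t in Ioi (0 : ℝ), ‖B t‖ ^ 2) + 2 * ∫ t in Ioi (0 : ℝ), ‖C t‖ ^ 2 := by
  have hint : ∀ {g : ℝ → ℂ}, Adm g → Integrable (fun t => ‖g t‖ ^ 2) (volume.restrict (Ioi 0)) :=
    fun hg => (memLp_two_iff_integrable_sq_norm hg.1.aestronglyMeasurable).1 hg.memLp
  have hA : Adm A := by
    have : A = fun t => B t + C t := funext hABC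
    rw [this]
    exact hB.add hC
  rw [← integral_const_mul, ← integral_const_mul, ← integral_add ((hint hB).const_mul 2)
    ((hint hC).const_mul 2)]
  refine integral_mono (hint hA) (((hint hB).const_mul 2).add ((hint hC).const_mul 2)) fun t => ?_
  simp only [hABC]
  have h1 := norm_add_le (B t) (C t)
  have h2 : ‖B t + C t‖ ^ 2 ≤ (‖B t‖ + ‖C t‖) ^ 2 := pow_le_pow_left₀ (norm_nonneg _) h1 2
  have h3 := sq_nonneg (‖B t‖ - ‖C t‖)
  nlinarith

lemma nb_int {k : ℕ} (hk : 0 < k) : ∫ t in Ioi (0 : ℝ), ‖nb k t‖ ^ 2 ≤ 2 / k := by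
  have hk0 : (0 : ℝ) < k := by exact_mod_cast hk
  refine integral_le_of_lintegral (adm_nb hk).1 (by positivity) ?_
  rw [← nrm_sq]
  refine (pow_le_pow_left' (nb_norm hk) 2).trans (le_of_eq ?_)
  rw [← ENNReal.ofReal_pow (by positivity), mul_pow, Real.sq_sqrt (by norm_num),
    ← Real.rpow_natCast, ← Real.rpow_mul hk0.le]
  congr 1
  norm_num
  rw [Real.rpow_neg_one]
  ring

lemma ch_int {k : ℕ} (hk : 0 < k) : ∫ t in Ioi (0 : ℝ), ‖ch k t‖ ^ 2 = 1 / k := by
  have hk0 : (0 : ℝ) < k := by exact_mod_cast hk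
  have h1 : ∀ t ∈ Ioi (0 : ℝ), ‖ch k t‖ ^ 2 = (Ioc (0 : ℝ) (1 / k)).indicator (fun _ => 1) t := by
    intro t ht
    unfold ch
    by_cases h : t ≤ 1 / k
    · rw [if_pos h, indicator_of_mem (show t ∈ Ioc (0 : ℝ) (1 / k) from ⟨ht, h⟩)]
      simp
    · rw [if_neg h, indicator_of_notMem fun h2 => h h2.2]
      simp
  rw [setIntegral_congr_fun measurableSet_Ioi h1, setIntegral_indicator measurableSet_Ioc]
  have e : Ioi (0 : ℝ) ∩ Ioc 0 (1 / k) = Ioc 0 (1 / (k : ℝ)) := by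
    ext t
    simp only [mem_inter_iff, mem_Ioi, mem_Ioc]
    tauto
  rw [e, setIntegral_const, smul_eq_mul, mul_one, Real.volume_real_Ioc_of_le (by positivity)]
  ring

lemma const_mul_int (z : ℂ) (g : ℝ → ℂ) : ∫ t in Ioi (0 : ℝ), ‖z * g t‖ ^ 2 =
    ‖z‖ ^ 2 * ∫ t in Ioi (0 : ℝ), ‖g t‖ ^ 2 := by
  rw [← integral_const_mul]
  congr 1
  funext t
  rw [norm_mul, mul_pow]

lemma Fs_int (M : ℕ) (b : ℕ → ℂ) : ∫ t in Ioi (0 : ℝ), ‖Fs M b t‖ ^ 2 =
    ∑ n ∈ Finset.Icc 1 M, ‖b n‖ ^ 2 * (1 / n - 1 / ((n : ℝ) + 1)) := by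
  have h1 := Fs_sq M b
  rw [integral_eq_lintegral_of_nonneg_ae (Eventually.of_forall fun t => by positivity)
    ((adm_Fs M b).1.norm.pow_const 2).aestronglyMeasurable]
  simp_rw [enorm_sq] at h1
  rw [h1, ENNReal.toReal_ofReal]
  refine Finset.sum_nonneg fun n hn => ?_
  have hn0 : (0 : ℝ) < n := by exact_mod_cast pos_of_mem hn
  have : 1 / ((n : ℝ) + 1) ≤ 1 / n := one_div_le_one_div_of_le hn0 (by linarith)
  exact mul_nonneg (by positivity) (by linarith)

/-- the main term -/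
noncomputable def Rm (M : ℕ) (b : ℕ → ℂ) : ℝ :=
  ∑ n ∈ Finset.Icc 1 M, ‖b n‖ ^ 2 * (1 / n - 1 / ((n : ℝ) + 1))

lemma term_pos {n : ℕ} (hn : 0 < n) : 0 ≤ (1 / (n : ℝ) - 1 / ((n : ℝ) + 1)) := by
  have hn0 : (0 : ℝ) < n := by exact_mod_cast hn
  have : 1 / ((n : ℝ) + 1) ≤ 1 / n := one_div_le_one_div_of_le hn0 (by linarith)
  linarith

lemma Rm_nonneg (M : ℕ) (b : ℕ → ℂ) : 0 ≤ Rm M b :=
  Finset.sum_nonneg fun n hn => mul_nonneg (by positivity) (term_pos (pos_of_mem hn))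

lemma Rm_le (M : ℕ) (b : ℕ → ℂ) :
    Rm M b ≤ ∑ n ∈ Finset.Icc 1 M, ‖b n / n‖ ^ 2 := by
  refine Finset.sum_le_sum fun n hn => ?_
  have hn0 : (0 : ℝ) < n := by exact_mod_cast pos_of_mem hn
  rw [norm_div, div_pow, norm_natCast, div_eq_mul_one_div (‖b n‖ ^ 2)]
  refine mul_le_mul_of_nonneg_left ?_ (by positivity)
  rw [div_sub_div _ _ (by positivity) (by positivity), div_le_div_iff₀ (by positivity)
    (by positivity)]
  nlinarith

lemma le_Rm (M : ℕ) (b : ℕ → ℂ) :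
    ∑ n ∈ Finset.Icc 1 M, ‖b n / n‖ ^ 2 ≤ 2 * Rm M b := by
  unfold Rm
  rw [Finset.mul_sum]
  refine Finset.sum_le_sum fun n hn => ?_
  have hn0 : (1 : ℝ) ≤ n := by exact_mod_cast pos_of_mem hn
  rw [norm_div, div_pow, norm_natCast, div_eq_mul_one_div]
  have h1 : 1 / (n : ℝ) ^ 2 ≤ 2 * (1 / n - 1 / ((n : ℝ) + 1)) := by
    rw [div_sub_div _ _ (by positivity) (by positivity), mul_div_assoc', div_le_div_iff₀
      (by positivity) (by positivity)]
    nlinarith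
  calc ‖b n‖ ^ 2 * (1 / (n : ℝ) ^ 2) ≤ ‖b n‖ ^ 2 * (2 * (1 / n - 1 / ((n : ℝ) + 1))) :=
        mul_le_mul_of_nonneg_left h1 (by positivity)
    _ = _ := by ring

lemma last_le {N M : ℕ} (hN : 1 ≤ N) (hM : 2 * N ≤ M + 1) (c : ℕ → ℂ) :
    ‖psum N c N‖ ^ 2 ≤ 4 * N * Rm M (psum N c) := by
  have hN' : (1 : ℝ) ≤ N := by exact_mod_cast hN
  have hsub : Finset.Ico N (2 * N) ⊆ Finset.Icc 1 M := by
    intro n hn
    rw [Finset.mem_Ico] at hn
    rw [Finset.mem_Icc]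
    omega
  have h1 : ∑ _n ∈ Finset.Ico N (2 * N), ‖psum N c N‖ ^ 2 * (1 / (4 * (N : ℝ) ^ 2)) ≤
      Rm M (psum N c) := by
    refine le_trans ?_ (Finset.sum_le_sum_of_subset_of_nonneg hsub fun n hn _ =>
      mul_nonneg (by positivity) (term_pos (pos_of_mem hn)))
    refine Finset.sum_le_sum fun n hn => ?_
    rw [Finset.mem_Ico] at hn
    rw [psum_const c hn.1]
    refine mul_le_mul_of_nonneg_left ?_ (by positivity)
    have h2 : (N : ℝ) ≤ n := by exact_mod_cast hn.1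
    have h3 : (n : ℝ) + 1 ≤ 2 * N := by exact_mod_cast hn.2
    have h4 : (0 : ℝ) < n := by linarith
    rw [div_sub_div _ _ (by positivity) (by positivity), div_le_div_iff₀ (by positivity)
      (by positivity)]
    nlinarith
  rw [Finset.sum_const, Nat.card_Ico, nsmul_eq_mul, show 2 * N - N = N by omega] at h1
  have e : (N : ℝ) * (‖psum N c N‖ ^ 2 * (1 / (4 * (N : ℝ) ^ 2))) =
      ‖psum N c N‖ ^ 2 / (4 * N) := by
    field_simp
  rw [e, div_le_iff₀ (by positivity)] at h1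
  linarith

lemma h_nb (n : ℕ) (t : ℝ) : (h n t : ℂ) = nb n t - nb (n + 1) t := h_cast t

theorem nb_of_twoSidedG (h2 : TwoSidedG) : NBC := by
  intro ε₀ hε₀
  set ε : ℝ := min ε₀ 1 / 8 with hεd
  have hm : 0 < min ε₀ 1 := lt_min hε₀ one_pos
  have hε : 0 < ε := by positivity
  have hε1 : 3 * ε ≤ ε₀ := by
    have := min_le_left ε₀ 1
    rw [hεd]
    linarith
  have hε2 : 2 * ε ≤ 1 / 4 := by
    have := min_le_right ε₀ 1
    rw [hεd]
    linarith
  obtain ⟨N₁, hN₁⟩ := h2 ε hε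
  obtain ⟨N₂, hN₂⟩ := const_le_rpow 100 hε
  obtain ⟨N₃, hN₃⟩ := const_le_rpow 100 (ε := 3 / 4) (by norm_num)
  refine ⟨max (max N₁ N₂) (max N₃ 100), fun N hN c => ?_⟩
  have hNa : N₁ ≤ N := (le_max_left _ _).trans ((le_max_left _ _).trans hN)
  have hNb : N₂ ≤ N := (le_max_right _ _).trans ((le_max_left _ _).trans hN)
  have hNc : N₃ ≤ N := (le_max_left _ _).trans ((le_max_right _ _).trans hN)
  have hN100 : 100 ≤ N := (le_max_right _ _).trans ((le_max_right _ _).trans hN)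
  have hN1 : 1 ≤ N := by omega
  have hNr : (100 : ℝ) ≤ N := by exact_mod_cast hN100
  have hN0 : (0 : ℝ) < N := by linarith
  set M : ℕ := N * N with hM
  have hNM : N ≤ M := Nat.le_mul_self N
  have h2NM : 2 * N ≤ M + 1 := by nlinarith
  have hM1 : N₁ ≤ M := hNa.trans hNM
  set b : ℕ → ℂ := psum N c with hb
  set R : ℝ := Rm M b with hR
  have hR0 : 0 ≤ R := Rm_nonneg M b
  set A : ℝ := ∑ n ∈ Finset.Icc 1 M, ‖b n / n‖ ^ 2 with hA
  have hA1 : R ≤ A := Rm_le M b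
  have hA2 : A ≤ 2 * R := le_Rm M b
  have hlast : ‖b N‖ ^ 2 ≤ 4 * N * R := last_le hN1 h2NM c
  -- the two decompositions
  have hMr : ((M + 1 : ℕ) : ℝ) = (N : ℝ) * N + 1 := by rw [hM]; push_cast; ring
  have hF : ∀ t : ℝ, ∑ k ∈ Finset.Icc 1 N, c k * nb k t =
      Hs b (Finset.Icc 1 M) t + b N * nb (M + 1) t := by
    intro t
    rw [abel_trc hNM c fun k => nb k t]
    unfold Hs
    simp_rw [h_nb]
    rfl
  have hG : ∀ t : ℝ, ∑ k ∈ Finset.Icc 1 N, c k * ch k t = Fs M b t + b N * ch (M + 1) t := by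
    intro t
    rw [abel_trc hNM c fun k => ch k t]
    rfl
  have aH : Adm (Hs b (Finset.Icc 1 M)) := adm_Hs b fun n hn => pos_of_mem hn
  have aF : Adm (Fs M b) := adm_Fs M b
  have anb : Adm fun t => b N * nb (M + 1) t := (adm_nb (by omega)).mul _
  have ach : Adm fun t => b N * ch (M + 1) t := (adm_ch (by omega)).mul _
  have anb' : Adm fun t => (-b N) * nb (M + 1) t := (adm_nb (by omega)).mul _
  have ach' : Adm fun t => (-b N) * ch (M + 1) t := (adm_ch (by omega)).mul _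
  have aQ : Adm fun t => ∑ k ∈ Finset.Icc 1 N, c k * nb k t :=
    Adm.sum _ fun k hk => (adm_nb (pos_of_mem hk)).mul _
  have aP : Adm fun t => ∑ k ∈ Finset.Icc 1 N, c k * ch k t :=
    Adm.sum _ fun k hk => (adm_ch (pos_of_mem hk)).mul _
  -- the last term
  have l1 : ∫ t in Ioi (0 : ℝ), ‖b N * nb (M + 1) t‖ ^ 2 ≤ 8 / N * R := by
    rw [const_mul_int]
    calc ‖b N‖ ^ 2 * ∫ t in Ioi (0 : ℝ), ‖nb (M + 1) t‖ ^ 2
        ≤ (4 * N * R) * (2 / ((M + 1 : ℕ) : ℝ)) :=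
          mul_le_mul hlast (nb_int (by omega)) (integral_nonneg fun t => by positivity)
            (by positivity)
      _ ≤ (4 * N * R) * (2 / ((N : ℝ) * N)) := by
          rw [hMr]
          gcongr
          linarith
      _ = 8 / N * R := by field_simp; ring
  have l2 : ∫ t in Ioi (0 : ℝ), ‖b N * ch (M + 1) t‖ ^ 2 ≤ 4 / N * R := by
    rw [const_mul_int]
    calc ‖b N‖ ^ 2 * ∫ t in Ioi (0 : ℝ), ‖ch (M + 1) t‖ ^ 2
        ≤ (4 * N * R) * (1 / ((M + 1 : ℕ) : ℝ)) :=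
          mul_le_mul hlast (ch_int (by omega)).le (integral_nonneg fun t => by positivity)
            (by positivity)
      _ ≤ (4 * N * R) * (1 / ((N : ℝ) * N)) := by
          rw [hMr]
          gcongr
          linarith
      _ = 4 / N * R := by field_simp
  have l1' : ∫ t in Ioi (0 : ℝ), ‖(-b N) * nb (M + 1) t‖ ^ 2 ≤ 8 / N * R := by
    rw [const_mul_int, norm_neg, ← const_mul_int]
    exact l1
  have l2' : ∫ t in Ioi (0 : ℝ), ‖(-b N) * ch (M + 1) t‖ ^ 2 ≤ 4 / N * R := by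
    rw [const_mul_int, norm_neg, ← const_mul_int]
    exact l2
  -- four inequalities
  have q1 := int_add_le aH anb hF
  have q2 := int_add_le (A := Hs b (Finset.Icc 1 M)) aQ anb' fun t => by
    rw [hF]
    ring
  have p1 := int_add_le aF ach hG
  have p2 := int_add_le (A := Fs M b) aP ach' fun t => by
    rw [hG]
    ring
  have hFR : ∫ t in Ioi (0 : ℝ), ‖Fs M b t‖ ^ 2 = R := Fs_int M b
  rw [hFR] at p1 p2
  have hQA : ∫ t in Ioi (0 : ℝ), ‖Hs b (Finset.Icc 1 M) t‖ ^ 2 = Q M fun n => b n / n := by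
    unfold Q Hs
    congr 1
    funext t
    congr 2
    refine Finset.sum_congr rfl fun n hn => ?_
    have hn0 : (n : ℂ) ≠ 0 := by
      have := pos_of_mem hn
      exact_mod_cast this.ne'
    push_cast
    field_simp
  rw [hQA] at q1 q2
  obtain ⟨w1, w2⟩ := hN₁ M hM1 fun n => b n / n
  have hMe : ∀ x : ℝ, (M : ℝ) ^ x = (N : ℝ) ^ (2 * x) := by
    intro x
    rw [hM, Nat.cast_mul, Real.mul_rpow hN0.le hN0.le, ← Real.rpow_add hN0]
    congr 1
    ring
  rw [hMe] at w1 w2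
  rw [← hA] at w1 w2
  change _ ≤ QB N c ∧ QB N c ≤ _
  have eQB : ∫ t in Ioi (0 : ℝ), ‖∑ k ∈ Finset.Icc 1 N, c k * nb k t‖ ^ 2 = QB N c := rfl
  have eQP : ∫ t in Ioi (0 : ℝ), ‖∑ k ∈ Finset.Icc 1 N, c k * ch k t‖ ^ 2 = QP N c := rfl
  rw [eQB] at q1 q2
  rw [eQP] at p1 p2
  have hPnn : 0 ≤ QP N c := integral_nonneg fun t => by positivity
  have hN8 : 8 / (N : ℝ) ≤ 1 / 8 := by
    rw [div_le_div_iff₀ hN0 (by norm_num)]
    linarith
  have hN4 : 4 / (N : ℝ) ≤ 1 / 8 := by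
    rw [div_le_div_iff₀ hN0 (by norm_num)]
    linarith
  have hP1 : QP N c ≤ 4 * R := by
    have := mul_le_mul_of_nonneg_right hN4 hR0
    linarith
  have hP2 : R ≤ 4 * QP N c := by
    have := mul_le_mul_of_nonneg_right hN4 hR0
    linarith
  set E : ℝ := (N : ℝ) ^ (2 * ε) with hE
  have hE1 : 1 ≤ E := Real.one_le_rpow (by linarith) (by positivity)
  have hEn : (N : ℝ) ^ (2 * -ε) = 1 / E := by
    rw [show 2 * -ε = -(2 * ε) by ring, Real.rpow_neg hN0.le, one_div]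
  have hE8 : 100 * E ≤ N := by
    calc 100 * E ≤ (N : ℝ) ^ (3 / 4 : ℝ) * (N : ℝ) ^ (1 / 4 : ℝ) := by
          gcongr
          · exact hN₃ N hNc
          · exact Real.rpow_le_rpow_of_exponent_le (by linarith) hε2
      _ = N := by
          rw [← Real.rpow_add hN0]
          norm_num
  rw [hEn] at w1
  constructor
  · -- the lower bound
    have h3 : R / E ≤ Q M fun n => b n / n := by
      calc R / E = 1 / E * R := by ring
        _ ≤ 1 / E * A := by gcongr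
        _ ≤ _ := w1
    have h4 : 8 / N * R ≤ R / E * (1 / 8) := by
      have h5 : 8 / (N : ℝ) ≤ 1 / E * (1 / 8) := by
        rw [← div_eq_mul_one_div, div_div, div_le_div_iff₀ hN0 (by positivity)]
        linarith
      calc 8 / N * R ≤ 1 / E * (1 / 8) * R := by gcongr
        _ = R / E * (1 / 8) := by ring
    have h5 : R / E ≤ 4 * QB N c := by
      have h6 : 0 ≤ R / E := by positivity
      linarith
    have h7 : QP N c ≤ 16 * E * QB N c := by
      have h8 : R ≤ 4 * QB N c * E := by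
        rwa [div_le_iff₀ (by linarith)] at h5
      linarith
    have h9 : (N : ℝ) ^ (-ε₀) ≤ 1 / (16 * E) := by
      rw [le_div_iff₀ (by positivity)]
      calc (N : ℝ) ^ (-ε₀) * (16 * E) ≤ (N : ℝ) ^ (-(3 * ε)) * ((N : ℝ) ^ ε * E) := by
            gcongr
            · linarith
            · linarith [hN₂ N hNb]
        _ = 1 := by
            rw [hE, ← Real.rpow_add hN0, ← Real.rpow_add hN0,
              show -(3 * ε) + (ε + 2 * ε) = 0 by ring, Real.rpow_zero]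
    calc (N : ℝ) ^ (-ε₀) * QP N c ≤ 1 / (16 * E) * (16 * E * QB N c) :=
          mul_le_mul h9 h7 hPnn (by positivity)
      _ = QB N c := by field_simp
  · -- the upper bound
    have h3 : (Q M fun n => b n / n) ≤ 2 * E * R := by
      calc (Q M fun n => b n / n) ≤ E * A := w2
        _ ≤ E * (2 * R) := by gcongr
        _ = _ := by ring
    have h4 : 8 / N * R ≤ E * R := by
      gcongr
      linarith
    have h5 : QB N c ≤ 24 * E * QP N c := by
      have h6 : E * R ≤ E * (4 * QP N c) := by gcongr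
      linarith
    refine h5.trans ?_
    gcongr
    calc 24 * E ≤ (N : ℝ) ^ ε * (N : ℝ) ^ (2 * ε) := by
          rw [← hE]
          gcongr
          linarith [hN₂ N hNb]
      _ = (N : ℝ) ^ (3 * ε) := by
          rw [← Real.rpow_add hN0]
          congr 1
          ring
      _ ≤ (N : ℝ) ^ ε₀ := Real.rpow_le_rpow_of_exponent_le (by linarith) hε1

end Pool.Agent.NBL
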