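import Mathlib
import Pool.Agent.NBL.Nb

/-!
# Condition numbers, the Gram matrix of the indicator functions, Mellin transforms
-/

set_option autoImplicit false

open MeasureTheory Complex Set Filter Topology
open scoped ENNReal ComplexConjugate

namespace Pool.Agent.NBL

/-- `n a_n`, extended by zero -/
noncomputable def bt (N : ℕ) (a : ℕ → ℂ) (n : ℕ) : ℂ := if n ∈ Finset.Icc 1 N then n * a n else 0

/-- the coefficients of the Nyman–Beurling functions -/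
noncomputable def dcf (N : ℕ) (a : ℕ → ℂ) (k : ℕ) : ℂ := bt N a k - bt N a (k - 1)

lemma dcf_sum (N : ℕ) (a : ℕ → ℂ) (n : ℕ) : ∑ k ∈ Finset.Icc 1 n, dcf N a k = bt N a n := by
  induction n with
  | zero => simp [bt]
  | succ n ih =>
    rw [Finset.sum_Icc_succ_top (by omega), ih]
    unfold dcf
    rw [Nat.add_sub_cancel]
    ring

lemma dcf_abel (N : ℕ) (a f : ℕ → ℂ) :
    ∑ k ∈ Finset.Icc 1 (N + 1), dcf N a k * f k =
      ∑ n ∈ Finset.Icc 1 N, n * a n * (f n - f (n + 1)) := by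
  rw [abel_all (dcf N a) f (N + 1), dcf_sum]
  simp_rw [dcf_sum]
  have h1 : bt N a (N + 1) = 0 := by
    unfold bt
    rw [if_neg]
    rw [Finset.mem_Icc]
    omega
  rw [Finset.sum_Icc_succ_top (by omega), h1, zero_mul, zero_mul, add_zero, add_zero]
  refine Finset.sum_congr rfl fun n hn => ?_
  unfold bt
  rw [if_pos hn]

lemma QB_dcf (N : ℕ) (a : ℕ → ℂ) : QB (N + 1) (dcf N a) = Q N a := by
  unfold QB Q
  congr 1
  funext t
  rw [dcf_abel N a fun k => nb k t]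
  congr 2
  refine Finset.sum_congr rfl fun n _ => ?_
  simp only [← h_nb]
  push_cast
  ring

lemma QP_dcf (N : ℕ) (a : ℕ → ℂ) : QP (N + 1) (dcf N a) = Rm N fun n => n * a n := by
  unfold QP Rm
  rw [← Fs_int]
  congr 1
  funext t
  rw [dcf_abel N a fun k => ch k t]
  rfl

lemma Rm_two (N : ℕ) (a : ℕ → ℂ) :
    (∑ n ∈ Finset.Icc 1 N, ‖a n‖ ^ 2) / 2 ≤ Rm N (fun n => n * a n) ∧
      Rm N (fun n => n * a n) ≤ ∑ n ∈ Finset.Icc 1 N, ‖a n‖ ^ 2 := by
  have e : ∑ n ∈ Finset.Icc 1 N, ‖(n * a n) / n‖ ^ 2 = ∑ n ∈ Finset.Icc 1 N, ‖a n‖ ^ 2 := by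
    refine Finset.sum_congr rfl fun n hn => ?_
    have hn0 : (n : ℂ) ≠ 0 := by
      have := pos_of_mem hn
      exact_mod_cast this.ne'
    rw [mul_div_cancel_left₀ _ hn0]
  constructor
  · have := le_Rm N fun n => n * a n
    rw [e] at this
    linarith
  · exact (Rm_le N fun n => n * a n).trans (le_of_eq e)

theorem condG_of_nb (hn : NBC) : CondG := by
  intro ε hε
  obtain ⟨N₁, hN₁⟩ := hn (ε / 4) (by positivity)
  obtain ⟨N₂, hN₂⟩ := const_le_rpow (2 * (2 : ℝ) ^ (ε / 2)) (ε := ε / 2) (by positivity)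
  refine ⟨max (max N₁ N₂) 1, fun N hN a b hab => ?_⟩
  have hNa : N₁ ≤ N := (le_max_left _ _).trans ((le_max_left _ _).trans hN)
  have hNb : N₂ ≤ N := (le_max_right _ _).trans ((le_max_left _ _).trans hN)
  have hN1 : 1 ≤ N := (le_max_right _ _).trans hN
  have hN' : (1 : ℝ) ≤ N := by exact_mod_cast hN1
  have hN0 : (0 : ℝ) < N := by linarith
  obtain ⟨_, h1⟩ := hN₁ (N + 1) (by omega) (dcf N a)
  obtain ⟨h2, _⟩ := hN₁ (N + 1) (by omega) (dcf N b)
  rw [QB_dcf, QP_dcf] at h1 h2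
  have h3 := (Rm_two N a).2
  have h4 := (Rm_two N b).1
  set S : ℝ := ∑ n ∈ Finset.Icc 1 N, ‖b n‖ ^ 2 with hS
  have hS0 : 0 ≤ S := Finset.sum_nonneg fun n _ => by positivity
  rw [hab] at h3
  set E : ℝ := ((N + 1 : ℕ) : ℝ) ^ (ε / 4) with hE
  have hE0 : 0 < E := by positivity
  have hEn : ((N + 1 : ℕ) : ℝ) ^ (-(ε / 4)) = 1 / E := by
    rw [Real.rpow_neg (by positivity), one_div]
  rw [hEn] at h2
  have h5 : Q N a ≤ E * S := h1.trans (mul_le_mul_of_nonneg_left h3 hE0.le)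
  have h6 : S ≤ 2 * E * Q N b := by
    have h7 : 1 / E * (S / 2) ≤ Q N b := (mul_le_mul_of_nonneg_left h4 (by positivity)).trans h2
    have h8 : 1 / E * (S / 2) = S / (2 * E) := by field_simp
    rw [h8, div_le_iff₀ (by positivity)] at h7
    linarith
  have hE2 : E * E ≤ (2 : ℝ) ^ (ε / 2) * (N : ℝ) ^ (ε / 2) := by
    rw [hE, ← Real.rpow_add (by positivity), ← Real.mul_rpow (by norm_num) hN0.le]
    rw [show ε / 4 + ε / 4 = ε / 2 by ring]
    refine Real.rpow_le_rpow (by positivity) ?_ (by positivity)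
    push_cast
    linarith
  calc Q N a ≤ E * (2 * E * Q N b) := h5.trans (mul_le_mul_of_nonneg_left h6 hE0.le)
    _ = 2 * (E * E) * Q N b := by ring
    _ ≤ 2 * ((2 : ℝ) ^ (ε / 2) * (N : ℝ) ^ (ε / 2)) * Q N b := by
        have := Q_nonneg N b
        gcongr
    _ = (2 * (2 : ℝ) ^ (ε / 2)) * (N : ℝ) ^ (ε / 2) * Q N b := by ring
    _ ≤ (N : ℝ) ^ (ε / 2) * (N : ℝ) ^ (ε / 2) * Q N b := by
        have := Q_nonneg N b
        gcongr
        exact hN₂ N hNb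
    _ = (N : ℝ) ^ ε * Q N b := by rw [← Real.rpow_add hN0, add_halves]

/-- the Gram matrix of the indicator functions -/
lemma QP_eq (N : ℕ) (c : ℕ → ℂ) :
    QP N c = ∑ j ∈ Finset.Icc 1 N, ∑ k ∈ Finset.Icc 1 N,
      (c j * conj (c k)).re / (max j k : ℕ) := by
  have hint : ∀ j ∈ Finset.Icc 1 N, ∀ k ∈ Finset.Icc 1 N, Integrable
      (fun t => (c j * conj (c k)).re * ((ch j t).re * (ch k t).re))
      (volume.restrict (Ioi 0)) := by
    intro j hj k hk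
    refine Integrable.const_mul ?_ _
    have h1 := (adm_ch (pos_of_mem hj)).memLp
    have h2 := (adm_ch (pos_of_mem hk)).memLp
    exact (h1.re).integrable_mul (h2.re)
  have hpt : ∀ t : ℝ, ‖∑ k ∈ Finset.Icc 1 N, c k * ch k t‖ ^ 2 =
      ∑ j ∈ Finset.Icc 1 N, ∑ k ∈ Finset.Icc 1 N,
        (c j * conj (c k)).re * ((ch j t).re * (ch k t).re) := by
    intro t
    have hr : ∀ k, ch k t = ((ch k t).re : ℂ) := by
      intro k
      unfold ch
      split_ifs <;> simp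
    have h1 : (∑ k ∈ Finset.Icc 1 N, c k * ch k t) * conj (∑ k ∈ Finset.Icc 1 N, c k * ch k t) =
        ∑ j ∈ Finset.Icc 1 N, ∑ k ∈ Finset.Icc 1 N,
          (c j * conj (c k)) * (((ch j t).re * (ch k t).re : ℝ) : ℂ) := by
      rw [map_sum, Finset.sum_mul_sum]
      refine Finset.sum_congr rfl fun j _ => Finset.sum_congr rfl fun k _ => ?_
      rw [map_mul, hr j, hr k, conj_ofReal]
      simp only [ofReal_re]
      push_cast
      ring
    rw [mul_conj, normSq_eq_norm_sq] at h1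
    have h2 := congrArg Complex.re h1
    rw [ofReal_re, Complex.re_sum] at h2
    rw [h2]
    refine Finset.sum_congr rfl fun j _ => ?_
    rw [Complex.re_sum]
    refine Finset.sum_congr rfl fun k _ => ?_
    rw [mul_re, ofReal_re, ofReal_im]
    ring
  unfold QP
  simp_rw [hpt]
  rw [integral_finsetSum _ fun j hj => integrable_finsetSum _ fun k hk => hint j hj k hk]
  refine Finset.sum_congr rfl fun j hj => ?_
  rw [integral_finsetSum _ fun k hk => hint j hj k hk]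
  refine Finset.sum_congr rfl fun k hk => ?_
  rw [integral_const_mul, div_eq_mul_one_div]
  congr 1
  have hj0 : (0 : ℝ) < j := by exact_mod_cast pos_of_mem hj
  have hk0 : (0 : ℝ) < k := by exact_mod_cast pos_of_mem hk
  have hm : 0 < max j k := lt_of_lt_of_le (pos_of_mem hj) (le_max_left _ _)
  rw [← ch_int hm]
  refine setIntegral_congr_fun measurableSet_Ioi fun t _ => ?_
  have e1 : t ≤ 1 / ((max j k : ℕ) : ℝ) ↔ t ≤ 1 / (j : ℝ) ∧ t ≤ 1 / (k : ℝ) := by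
    rcases le_total j k with h | h
    · rw [max_eq_right h]
      have : 1 / (k : ℝ) ≤ 1 / j := one_div_le_one_div_of_le hj0 (by exact_mod_cast h)
      exact ⟨fun h2 => ⟨h2.trans this, h2⟩, fun h2 => h2.2⟩
    · rw [max_eq_left h]
      have : 1 / (j : ℝ) ≤ 1 / k := one_div_le_one_div_of_le hk0 (by exact_mod_cast h)
      exact ⟨fun h2 => ⟨h2, h2.trans this⟩, fun h2 => h2.1⟩
  simp only [ch]
  by_cases h1 : t ≤ 1 / (j : ℝ)
  · by_cases h2 : t ≤ 1 / (k : ℝ)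
    · rw [if_pos h1, if_pos h2, if_pos (e1.2 ⟨h1, h2⟩)]
      simp
    · rw [if_pos h1, if_neg h2, if_neg fun h => h2 (e1.1 h).2]
      simp
  · rw [if_neg h1, if_neg fun h => h1 (e1.1 h).1]
    simp

/-- Plancherel's theorem for ordinary integrals -/
lemma plancherel_int {G : ℝ → ℂ} (hG : Adm G) {m : ℝ → ℂ} (hm : Continuous m)
    (h : ∀ τ : ℝ, mellin G (1 / 2 + τ * I) = m τ) :
    ∫ τ : ℝ, ‖m τ‖ ^ 2 = 2 * Real.pi * ∫ t in Ioi (0 : ℝ), ‖G t‖ ^ 2 := by
  have h1 := plancherel hG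
  simp_rw [h, enorm_sq] at h1
  rw [integral_eq_lintegral_of_nonneg_ae (Eventually.of_forall fun t => by positivity)
      (hm.measurable.norm.pow_const 2).aestronglyMeasurable,
    integral_eq_lintegral_of_nonneg_ae (Eventually.of_forall fun t => by positivity)
      (hG.1.norm.pow_const 2).aestronglyMeasurable, h1, ENNReal.toReal_mul,
    ENNReal.toReal_ofReal (by positivity)]
  field_simp

/-- a Dirichlet polynomial -/
noncomputable def DPl (N : ℕ) (c : ℕ → ℂ) (s : ℂ) : ℂ := ∑ k ∈ Finset.Icc 1 N, c k * (k : ℂ) ^ (-s)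

lemma DPl_cont (N : ℕ) (c : ℕ → ℂ) : Continuous fun t : ℝ => DPl N c (1 / 2 + t * I) := by
  unfold DPl
  refine continuous_finsetSum _ fun k hk => ?_
  have h3 : (k : ℂ) ≠ 0 := by
    have := pos_of_mem hk
    exact_mod_cast this.ne'
  exact continuous_const.mul (Continuous.const_cpow (by fun_prop) (Or.inl h3))

lemma half_sq (t : ℝ) : ‖(1 / 2 + t * I : ℂ)‖ ^ 2 = 1 / 4 + t ^ 2 := by
  rw [← normSq_eq_norm_sq, normSq_apply]
  simp
  ring

lemma QP_mellin (N : ℕ) (c : ℕ → ℂ) :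
    ∫ t : ℝ, ‖DPl N c (1 / 2 + t * I)‖ ^ 2 / (1 / 4 + t ^ 2) = 2 * Real.pi * QP N c := by
  have h1 : ∀ t : ℝ, ‖DPl N c (1 / 2 + t * I)‖ ^ 2 / (1 / 4 + t ^ 2) =
      ‖DPl N c (1 / 2 + t * I) / (1 / 2 + t * I)‖ ^ 2 := by
    intro t
    rw [norm_div, div_pow, half_sq]
  simp_rw [h1]
  refine plancherel_int (G := fun t => ∑ k ∈ Finset.Icc 1 N, c k * ch k t)
    (Adm.sum _ fun k hk => (adm_ch (pos_of_mem hk)).mul _)
    ((DPl_cont N c).div (by fun_prop) half_ne) fun τ => ?_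
  rw [mellin_sum (Finset.Icc 1 N) c (fun k hk => adm_ch (pos_of_mem hk)) (by simp)
    (by simp; norm_num)]
  unfold DPl
  rw [Finset.sum_div]
  refine Finset.sum_congr rfl fun k hk => ?_
  rw [ch_mellin (pos_of_mem hk) (by simp)]
  ring

lemma QB_mellin (N : ℕ) (c : ℕ → ℂ) :
    ∫ t : ℝ, ‖riemannZeta (1 / 2 + t * I) * DPl N c (1 / 2 + t * I)‖ ^ 2 / (1 / 4 + t ^ 2) =
      2 * Real.pi * QB N c := by
  have h1 : ∀ t : ℝ, ‖riemannZeta (1 / 2 + t * I) * DPl N c (1 / 2 + t * I)‖ ^ 2 /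
      (1 / 4 + t ^ 2) =
      ‖-(riemannZeta (1 / 2 + t * I) * DPl N c (1 / 2 + t * I) / (1 / 2 + t * I))‖ ^ 2 := by
    intro t
    rw [norm_neg, norm_div _ (1 / 2 + t * I : ℂ), div_pow, half_sq]
  simp_rw [h1]
  refine plancherel_int (G := fun t => ∑ k ∈ Finset.Icc 1 N, c k * nb k t)
    (Adm.sum _ fun k hk => (adm_nb (pos_of_mem hk)).mul _)
    (((Pool.Agent.Lib.ThickFailure.continuous_zeta_line.mul (DPl_cont N c)).div
      (by fun_prop) half_ne).neg) fun τ => ?_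
  rw [mellin_sum (Finset.Icc 1 N) c (fun k hk => adm_nb (pos_of_mem hk)) (by simp)
    (by simp; norm_num)]
  unfold DPl
  rw [Finset.mul_sum, Finset.sum_div, ← Finset.sum_neg_distrib]
  refine Finset.sum_congr rfl fun k hk => ?_
  rw [nb_mellin (pos_of_mem hk) (by simp) (by simp; norm_num)]
  ring

/-- multiplication by zeta changes the norms of Dirichlet polynomials of length `N` by `N ^ o(1)` -/
def ZD : Prop :=
  ∀ ε : ℝ, 0 < ε → ∃ N₀ : ℕ, ∀ N : ℕ, N₀ ≤ N → ∀ c : ℕ → ℂ,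
    (N : ℝ) ^ (-ε) * ∫ t : ℝ, ‖DPl N c (1 / 2 + t * I)‖ ^ 2 / (1 / 4 + t ^ 2) ≤
        ∫ t : ℝ, ‖riemannZeta (1 / 2 + t * I) * DPl N c (1 / 2 + t * I)‖ ^ 2 / (1 / 4 + t ^ 2) ∧
      ∫ t : ℝ, ‖riemannZeta (1 / 2 + t * I) * DPl N c (1 / 2 + t * I)‖ ^ 2 / (1 / 4 + t ^ 2) ≤
        (N : ℝ) ^ ε * ∫ t : ℝ, ‖DPl N c (1 / 2 + t * I)‖ ^ 2 / (1 / 4 + t ^ 2)

theorem zd_iff : ZD ↔ NBC := by
  unfold ZD NBC
  simp_rw [QP_mellin, QB_mellin]
  have hp : (0 : ℝ) < 2 * Real.pi := by positivity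
  have e : ∀ x y z : ℝ, (x * (2 * Real.pi * y) ≤ 2 * Real.pi * z ↔ x * y ≤ z) ∧
      (2 * Real.pi * z ≤ x * (2 * Real.pi * y) ↔ z ≤ x * y) := by
    intro x y z
    have h1 : x * (2 * Real.pi * y) = 2 * Real.pi * (x * y) := by ring
    rw [h1]
    exact ⟨mul_le_mul_iff_right₀ hp, mul_le_mul_iff_right₀ hp⟩
  simp_rw [(e _ _ _).1, (e _ _ _).2]

end Pool.Agent.NBL
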