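import Mathlib
import Pool.Agent.NBL.Nb2
import Pool.Agent.NBL.Full3

/-!
# Almost all Dirichlet polynomials, unconditionally
-/

set_option autoImplicit false

open MeasureTheory Complex Set Filter Topology
open scoped ENNReal ComplexConjugate

namespace Pool.Agent.NBL

/-- extension of a vector to a sequence on `1, .., m` -/
noncomputable def xa (m : ℕ) (a : Fin m → ℂ) (n : ℕ) : ℂ :=
  if h : n - 1 < m then a ⟨n - 1, h⟩ else 0

lemma fin_sum {m : ℕ} {β : Type*} [AddCommMonoid β] (F : ℕ → β) :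
    ∑ n ∈ Finset.Icc 1 m, F n = ∑ i : Fin m, F (i + 1) := by
  have e2 : Finset.Icc 1 m = Finset.Ico 1 (m + 1) := by
    ext k; simp only [Finset.mem_Icc, Finset.mem_Ico]; omega
  rw [e2, Finset.sum_Ico_eq_sum_range, Nat.add_sub_cancel, Finset.sum_range]
  exact Finset.sum_congr rfl fun i _ => by rw [add_comm]

lemma xa_apply {m : ℕ} (a : Fin m → ℂ) (i : Fin m) : xa m a (i + 1) = a i := by
  unfold xa
  rw [dif_pos (by omega)]
  congr 1

lemma bt_add (m : ℕ) (a b : Fin m → ℂ) (n : ℕ) :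
    bt m (xa m (a + b)) n = bt m (xa m a) n + bt m (xa m b) n := by
  unfold bt xa
  split_ifs
  · rw [Pi.add_apply]
    ring
  · simp
  · simp

lemma bt_smul (m : ℕ) (z : ℂ) (a : Fin m → ℂ) (n : ℕ) :
    bt m (xa m (z • a)) n = z * bt m (xa m a) n := by
  unfold bt xa
  split_ifs
  · rw [Pi.smul_apply, smul_eq_mul]
    ring
  · simp
  · simp

/-- the change of coordinates -/
noncomputable def Lm (m : ℕ) : (Fin m → ℂ) →ₗ[ℂ] (Fin (m + 1) → ℂ) where
  toFun a i := dcf m (xa m a) (i + 1)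
  map_add' a b := by
    funext i
    simp only [dcf, bt_add, Pi.add_apply]
    ring
  map_smul' z a := by
    funext i
    simp only [dcf, bt_smul, Pi.smul_apply, smul_eq_mul, RingHom.id_apply]
    ring

lemma Lm_inj (m : ℕ) : Function.Injective (Lm m) := by
  rw [← LinearMap.ker_eq_bot, LinearMap.ker_eq_bot']
  intro a ha
  have h1 : ∀ k ∈ Finset.Icc 1 (m + 1), dcf m (xa m a) k = 0 := by
    intro k hk
    rw [Finset.mem_Icc] at hk
    have h2 := congrFun ha ⟨k - 1, by omega⟩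
    change dcf m (xa m a) (k - 1 + 1) = 0 at h2
    rwa [show k - 1 + 1 = k by omega] at h2
  funext i
  have h3 : bt m (xa m a) (i + 1) = 0 := by
    rw [← dcf_sum]
    refine Finset.sum_eq_zero fun k hk => h1 k ?_
    rw [Finset.mem_Icc] at hk ⊢
    omega
  unfold bt at h3
  rw [if_pos (by rw [Finset.mem_Icc]; omega), xa_apply] at h3
  have h4 : (((i : ℕ) + 1 : ℕ) : ℂ) ≠ 0 := by exact_mod_cast Nat.succ_ne_zero (i : ℕ)
  simpa using (mul_eq_zero.1 h3).resolve_left h4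

/-- unconditionally, multiplication by the zeta function changes the norms of the Dirichlet
polynomials of length `N` in a subspace of codimension at most `ε N` by powers of `log N` only -/
theorem almost_all_D {ε : ℝ} (hε : 0 < ε) : ∃ K N₀ : ℕ, ∀ N : ℕ, N₀ ≤ N →
    ∃ V : Submodule ℂ (Fin N → ℂ), (1 - ε) * N ≤ Module.finrank ℂ V ∧ ∀ c ∈ V,
      ∫ t : ℝ, ‖∑ i : Fin N, c i * (((i : ℕ) + 1 : ℕ) : ℂ) ^ (-(1 / 2 + t * I))‖ ^ 2 /
          (1 / 4 + t ^ 2) ≤
        Real.log N ^ K * (∫ t : ℝ, ‖riemannZeta (1 / 2 + t * I) *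
          ∑ i : Fin N, c i * (((i : ℕ) + 1 : ℕ) : ℂ) ^ (-(1 / 2 + t * I))‖ ^ 2 /
            (1 / 4 + t ^ 2)) ∧
      ∫ t : ℝ, ‖riemannZeta (1 / 2 + t * I) *
          ∑ i : Fin N, c i * (((i : ℕ) + 1 : ℕ) : ℂ) ^ (-(1 / 2 + t * I))‖ ^ 2 /
            (1 / 4 + t ^ 2) ≤
        K * Real.log N * ∫ t : ℝ,
          ‖∑ i : Fin N, c i * (((i : ℕ) + 1 : ℕ) : ℂ) ^ (-(1 / 2 + t * I))‖ ^ 2 /
            (1 / 4 + t ^ 2) := by
  obtain ⟨K, N₁, hN₁⟩ := almost_all_full (ε := ε / 2) (by positivity)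
  obtain ⟨N₂, hN₂⟩ := exists_nat_ge (2 / ε)
  refine ⟨2 * K, max (max (N₁ + 1) N₂) 4, fun N hN => ?_⟩
  have hNa : N₁ + 1 ≤ N := (le_max_left _ _).trans ((le_max_left _ _).trans hN)
  have hNb : N₂ ≤ N := (le_max_right _ _).trans ((le_max_left _ _).trans hN)
  have hN4 : 4 ≤ N := (le_max_right _ _).trans hN
  obtain ⟨m, rfl⟩ : ∃ m, N = m + 1 := ⟨N - 1, by omega⟩
  obtain ⟨V, hV, hVa⟩ := hN₁ m (by omega)
  have hpi := Real.pi_pos
  have hm3 : (3 : ℝ) ≤ m := by
    have : 3 ≤ m := by omega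
    exact_mod_cast this
  have hcast : ((m + 1 : ℕ) : ℝ) = m + 1 := by push_cast; ring
  have hlog1 : 1 ≤ Real.log m := by
    rw [Real.le_log_iff_exp_le (by linarith)]
    have := Real.exp_one_lt_d9
    linarith
  have hlog2 : Real.log m ≤ Real.log ((m + 1 : ℕ) : ℝ) :=
    Real.log_le_log (by linarith) (by rw [hcast]; linarith)
  refine ⟨V.map (Lm m), ?_, ?_⟩
  · rw [← (Submodule.equivMapOfInjective (Lm m) (Lm_inj m) V).finrank_eq]
    refine le_trans ?_ hV
    have h1 : (2 / ε) ≤ (m : ℝ) + 1 := by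
      rw [← hcast]
      exact hN₂.trans (by exact_mod_cast hNb)
    rw [div_le_iff₀ hε] at h1
    rw [hcast]
    nlinarith
  · rintro c ⟨a, ha, rfl⟩
    obtain ⟨h1, h2⟩ := hVa a ha
    have eD : ∀ s : ℂ, ∑ i : Fin (m + 1), (Lm m a) i * (((i : ℕ) + 1 : ℕ) : ℂ) ^ (-s) =
        DPl (m + 1) (dcf m (xa m a)) s := by
      intro s
      unfold DPl
      rw [fin_sum]
      rfl
    simp_rw [eD]
    rw [QP_mellin, QB_mellin, QB_dcf, QP_dcf]
    have eQ : ∫ t in Ioi (0 : ℝ),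
        ‖∑ i : Fin m, a i * (((((i : ℕ) + 1 : ℕ) : ℝ) * h (i + 1) t : ℝ) : ℂ)‖ ^ 2 =
        Q m (xa m a) := by
      unfold Q
      congr 1
      funext t
      rw [fin_sum fun n => xa m a n * ((n * h n t : ℝ) : ℂ)]
      congr 2
      exact Finset.sum_congr rfl fun i _ => by rw [xa_apply]
    have eS : ∑ i, ‖a i‖ ^ 2 = ∑ n ∈ Finset.Icc 1 m, ‖xa m a n‖ ^ 2 := by
      rw [fin_sum fun n => ‖xa m a n‖ ^ 2]
      exact Finset.sum_congr rfl fun i _ => by rw [xa_apply]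
    rw [eQ, eS] at h1 h2
    obtain ⟨r1, r2⟩ := Rm_two m (xa m a)
    set S : ℝ := ∑ n ∈ Finset.Icc 1 m, ‖xa m a n‖ ^ 2 with hS
    set R : ℝ := Rm m fun n => n * xa m a n with hR
    set q : ℝ := Q m (xa m a) with hq
    have hq0 : 0 ≤ q := Q_nonneg _ _
    have hS0 : 0 ≤ S := Finset.sum_nonneg fun n _ => by positivity
    have hR0 : 0 ≤ R := Rm_nonneg _ _
    set l : ℝ := Real.log ((m + 1 : ℕ) : ℝ) with hl
    have hl1 : 1 ≤ l := hlog1.trans hlog2
    constructor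
    · have h3 : R ≤ l ^ (2 * K) * q := by
        calc R ≤ S := r2
          _ ≤ Real.log m ^ K * q := h1
          _ ≤ l ^ (2 * K) * q := by
              refine mul_le_mul_of_nonneg_right ?_ hq0
              calc Real.log m ^ K ≤ l ^ K := pow_le_pow_left₀ (by linarith) hlog2 K
                _ ≤ l ^ (2 * K) := pow_le_pow_right₀ hl1 (by omega)
      calc 2 * Real.pi * R ≤ 2 * Real.pi * (l ^ (2 * K) * q) := by gcongr
        _ = _ := by ring
    · have h3 : q ≤ ((2 * K : ℕ) : ℝ) * l * R := by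
        calc q ≤ K * Real.log m * S := h2
          _ ≤ K * l * (2 * R) := by
              gcongr
              linarith
          _ = _ := by push_cast; ring
      calc 2 * Real.pi * q ≤ 2 * Real.pi * (((2 * K : ℕ) : ℝ) * l * R) := by gcongr
        _ = _ := by ring

end Pool.Agent.NBL
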