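import Mathlib
import Pool.Agent.NBL.Nb2

/-!
# The norm of multiplication by the zeta function on Dirichlet polynomials
-/

set_option autoImplicit false

open MeasureTheory Complex Set Filter Topology
open scoped ENNReal ComplexConjugate

namespace Pool.Agent.NBL

/-- multiplication by zeta has norm `≤ N ^ (A + o(1))` on Dirichlet polynomials of length `N` -/
def ZDU (A : ℝ) : Prop :=
  ∀ B : ℝ, A < B → B < 1 / 2 → ∃ C : ℝ, ∀ (N : ℕ) (c : ℕ → ℂ),
    ∫ t : ℝ, ‖riemannZeta (1 / 2 + t * I) * DPl N c (1 / 2 + t * I)‖ ^ 2 / (1 / 4 + t ^ 2) ≤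
      C * (N : ℝ) ^ (2 * B) * ∫ t : ℝ, ‖DPl N c (1 / 2 + t * I)‖ ^ 2 / (1 / 4 + t ^ 2)

/-- the same for the quadratic forms -/
def NBU (A : ℝ) : Prop :=
  ∀ B : ℝ, A < B → B < 1 / 2 → ∃ C : ℝ, ∀ (N : ℕ) (c : ℕ → ℂ),
    QB N c ≤ C * (N : ℝ) ^ (2 * B) * QP N c

lemma zdu_iff (A : ℝ) : ZDU A ↔ NBU A := by
  unfold ZDU NBU
  simp_rw [QP_mellin, QB_mellin]
  have hp : (0 : ℝ) < 2 * Real.pi := by positivity
  have e : ∀ x y z : ℝ, (2 * Real.pi * z ≤ x * (2 * Real.pi * y) ↔ z ≤ x * y) := by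
    intro x y z
    have h1 : x * (2 * Real.pi * y) = 2 * Real.pi * (x * y) := by ring
    rw [h1]
    exact mul_le_mul_iff_right₀ hp
  simp_rw [e _ _ _]

lemma QP_nonneg (N : ℕ) (c : ℕ → ℂ) : 0 ≤ QP N c := integral_nonneg fun t => by positivity

lemma QB_nonneg (N : ℕ) (c : ℕ → ℂ) : 0 ≤ QB N c := integral_nonneg fun t => by positivity

/-- the Bessel property for the functions `n h_n` -/
lemma Q_upper {A B : ℝ} (hA : 0 ≤ A) (hAB : A < B) (hB : B < 1 / 2) (hb : BesselSeq A) :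
    ∃ C : ℝ, 0 ≤ C ∧ ∀ (N : ℕ) (a : ℕ → ℂ),
      Q N a ≤ C * (N : ℝ) ^ (2 * B) * ∑ n ∈ Finset.Icc 1 N, ‖a n‖ ^ 2 := by
  obtain ⟨C, hC⟩ := hb B hAB hB
  have hB0 : 0 < B := lt_of_le_of_lt hA hAB
  have hC0 : 0 ≤ C := by
    have h1 := hC 1 (fun _ => 1)
    have h2 : 0 ≤ ∫ t in Ioi (0 : ℝ), ‖∑ n ∈ Finset.Icc (1 : ℕ) 1,
        (1 : ℂ) * (((n : ℝ) ^ (1 - B) * h n t : ℝ) : ℂ)‖ ^ 2 :=
      integral_nonneg fun t => by positivity
    have h3 := h2.trans h1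
    simpa using h3
  refine ⟨C, hC0, fun N a => ?_⟩
  have h1 := hC N fun n => a n * (((n : ℝ) ^ B : ℝ) : ℂ)
  have e1 : ∀ t : ℝ, ∑ n ∈ Finset.Icc 1 N, a n * (((n : ℝ) ^ B : ℝ) : ℂ) *
      (((n : ℝ) ^ (1 - B) * h n t : ℝ) : ℂ) =
      ∑ n ∈ Finset.Icc 1 N, a n * ((n * h n t : ℝ) : ℂ) := by
    intro t
    refine Finset.sum_congr rfl fun n hn => ?_
    have hn0 : (0 : ℝ) < n := by exact_mod_cast pos_of_mem hn
    rw [mul_assoc, ← ofReal_mul, ← mul_assoc, ← Real.rpow_add hn0,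
      show B + (1 - B) = 1 by ring, Real.rpow_one]
  simp_rw [e1] at h1
  refine h1.trans ?_
  rw [mul_assoc]
  refine mul_le_mul_of_nonneg_left ?_ hC0
  rw [Finset.mul_sum]
  refine Finset.sum_le_sum fun n hn => ?_
  have hn0 : (0 : ℝ) < n := by exact_mod_cast pos_of_mem hn
  have hnN : (n : ℝ) ≤ N := by
    rw [Finset.mem_Icc] at hn
    exact_mod_cast hn.2
  rw [norm_mul, mul_pow, mul_comm, norm_real, Real.norm_of_nonneg (by positivity)]
  refine mul_le_mul_of_nonneg_right ?_ (by positivity)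
  rw [← Real.rpow_natCast, ← Real.rpow_mul hn0.le]
  calc (n : ℝ) ^ (B * ((2 : ℕ) : ℝ)) ≤ (N : ℝ) ^ (B * ((2 : ℕ) : ℝ)) :=
        Real.rpow_le_rpow hn0.le hnN (by positivity)
    _ = (N : ℝ) ^ (2 * B) := by
        congr 1
        push_cast
        ring

theorem nbu_of_besselSeq {A : ℝ} (hA : 0 ≤ A) (hb : BesselSeq A) : NBU A := by
  intro B hAB hB
  have hB0 : 0 < B := lt_of_le_of_lt hA hAB
  obtain ⟨C, hC0, hC⟩ := Q_upper hA hAB hB hb
  refine ⟨4 * (4 * C * (16 : ℝ) ^ (2 * B) + 1), fun N c => ?_⟩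
  rcases Nat.eq_zero_or_pos N with hN | hN1
  · have h1 : QB N c = 0 := by
      unfold QB
      rw [hN]
      simp
    rw [h1]
    have := QP_nonneg N c
    positivity
  have hN' : (1 : ℝ) ≤ N := by exact_mod_cast hN1
  have hN0 : (0 : ℝ) < N := by linarith
  set M : ℕ := 16 * N with hM
  have hNM : N ≤ M := by omega
  set b : ℕ → ℂ := psum N c with hb'
  set R : ℝ := Rm M b with hR
  have hR0 : 0 ≤ R := Rm_nonneg M b
  set S : ℝ := ∑ n ∈ Finset.Icc 1 M, ‖b n / n‖ ^ 2 with hS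
  have hS1 : S ≤ 2 * R := le_Rm M b
  have hlast : ‖b N‖ ^ 2 ≤ 4 * N * R := last_le hN1 (by omega) c
  have hMr : ((M + 1 : ℕ) : ℝ) = 16 * N + 1 := by rw [hM]; push_cast; ring
  have hF : ∀ t : ℝ, ∑ k ∈ Finset.Icc 1 N, c k * nb k t =
      Hs b (Finset.Icc 1 M) t + b N * nb (M + 1) t := by
    intro t
    rw [abel_trc hNM c fun k => nb k t]
    unfold Hs
    simp_rw [h_nb]
    rfl
  have hG : ∀ t : ℝ, ∑ k ∈ Finset.Icc 1 N, c k * ch k t = Fs M b t + b N * ch (M + 1) t := by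
    intro t
    rw [abel_trc hNM c fun k => ch k t]
    rfl
  have aH : Adm (Hs b (Finset.Icc 1 M)) := adm_Hs b fun n hn => pos_of_mem hn
  have anb : Adm fun t => b N * nb (M + 1) t := (adm_nb (by omega)).mul _
  have ach' : Adm fun t => (-b N) * ch (M + 1) t := (adm_ch (by omega)).mul _
  have aP : Adm fun t => ∑ k ∈ Finset.Icc 1 N, c k * ch k t :=
    Adm.sum _ fun k hk => (adm_ch (pos_of_mem hk)).mul _
  have l1 : ∫ t in Ioi (0 : ℝ), ‖b N * nb (M + 1) t‖ ^ 2 ≤ 1 / 2 * R := by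
    rw [const_mul_int]
    calc ‖b N‖ ^ 2 * ∫ t in Ioi (0 : ℝ), ‖nb (M + 1) t‖ ^ 2
        ≤ (4 * N * R) * (2 / ((M + 1 : ℕ) : ℝ)) :=
          mul_le_mul hlast (nb_int (by omega)) (integral_nonneg fun t => by positivity)
            (by positivity)
      _ ≤ (4 * N * R) * (2 / (16 * (N : ℝ))) := by
          rw [hMr]
          gcongr
          linarith
      _ = 1 / 2 * R := by field_simp; ring
  have l2' : ∫ t in Ioi (0 : ℝ), ‖(-b N) * ch (M + 1) t‖ ^ 2 ≤ 1 / 4 * R := by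
    rw [const_mul_int, norm_neg]
    calc ‖b N‖ ^ 2 * ∫ t in Ioi (0 : ℝ), ‖ch (M + 1) t‖ ^ 2
        ≤ (4 * N * R) * (1 / ((M + 1 : ℕ) : ℝ)) :=
          mul_le_mul hlast (ch_int (by omega)).le (integral_nonneg fun t => by positivity)
            (by positivity)
      _ ≤ (4 * N * R) * (1 / (16 * (N : ℝ))) := by
          rw [hMr]
          gcongr
          linarith
      _ = 1 / 4 * R := by field_simp; ring
  have q1 := int_add_le aH anb hF
  have p2 := int_add_le (A := Fs M b) aP ach' fun t => by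
    rw [hG]
    ring
  have hFR : ∫ t in Ioi (0 : ℝ), ‖Fs M b t‖ ^ 2 = R := Fs_int M b
  rw [hFR] at p2
  have hQA : ∫ t in Ioi (0 : ℝ), ‖Hs b (Finset.Icc 1 M) t‖ ^ 2 = Q M fun n => b n / n := by
    unfold Q Hs
    congr 1
    funext t
    congr 2
    refine Finset.sum_congr rfl fun n hn => ?_
    have hn0 : (n : ℂ) ≠ 0 := by
      have := pos_of_mem hn
      exact_mod_cast this.ne'
    push_cast
    field_simp
  rw [hQA] at q1
  have eQB : ∫ t in Ioi (0 : ℝ), ‖∑ k ∈ Finset.Icc 1 N, c k * nb k t‖ ^ 2 = QB N c := rfl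
  have eQP : ∫ t in Ioi (0 : ℝ), ‖∑ k ∈ Finset.Icc 1 N, c k * ch k t‖ ^ 2 = QP N c := rfl
  rw [eQB] at q1
  rw [eQP] at p2
  have hP2 : R ≤ 4 * QP N c := by linarith
  have w := hC M fun n => b n / n
  rw [← hS] at w
  set E : ℝ := (N : ℝ) ^ (2 * B) with hE
  have hE1 : 1 ≤ E := Real.one_le_rpow hN' (by positivity)
  have hME : (M : ℝ) ^ (2 * B) = (16 : ℝ) ^ (2 * B) * E := by
    rw [hM]
    push_cast
    rw [Real.mul_rpow (by norm_num) hN0.le]
  rw [hME] at w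
  have h3 : (Q M fun n => b n / n) ≤ 2 * C * (16 : ℝ) ^ (2 * B) * E * R := by
    calc (Q M fun n => b n / n) ≤ C * ((16 : ℝ) ^ (2 * B) * E) * S := w
      _ ≤ C * ((16 : ℝ) ^ (2 * B) * E) * (2 * R) := by gcongr
      _ = _ := by ring
  have h4 : R ≤ E * R := le_mul_of_one_le_left hR0 hE1
  have h5 : QB N c ≤ (4 * C * (16 : ℝ) ^ (2 * B) + 1) * E * R := by nlinarith
  calc QB N c ≤ (4 * C * (16 : ℝ) ^ (2 * B) + 1) * E * R := h5
    _ ≤ (4 * C * (16 : ℝ) ^ (2 * B) + 1) * E * (4 * QP N c) := by gcongr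
    _ = _ := by ring

theorem signs_of_nbu {A : ℝ} (hA : 0 ≤ A) (hb : NBU A) : Signs A := by
  intro B hAB hB
  obtain ⟨C', hC'⟩ := hb B hAB hB
  have hB0 : 0 < B := lt_of_le_of_lt hA hAB
  set C : ℝ := max C' 0 with hCd
  have hC0 : 0 ≤ C := le_max_right _ _
  have hC : ∀ (N : ℕ) (c : ℕ → ℂ), QB N c ≤ C * (N : ℝ) ^ (2 * B) * QP N c := by
    intro N c
    refine (hC' N c).trans ?_
    have := QP_nonneg N c
    gcongr
    exact le_max_left _ _
  refine ⟨C * (3 : ℝ) ^ (2 * B), fun N hN σ hσ => ?_⟩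
  have hN' : (1 : ℝ) ≤ N := by exact_mod_cast hN
  have hN0 : (0 : ℝ) < N := by linarith
  set a : ℕ → ℂ := fun n => if n ∈ Finset.Ico N (2 * N) then (σ n : ℂ) / n else 0 with ha
  have hsub : Finset.Ico N (2 * N) ⊆ Finset.Icc 1 (2 * N) := by
    intro n hn
    rw [Finset.mem_Ico] at hn
    rw [Finset.mem_Icc]
    omega
  have h1 := hC (2 * N + 1) (dcf (2 * N) a)
  rw [QB_dcf, QP_dcf] at h1
  have h2 := (Rm_two (2 * N) a).2
  have hsum : ∑ n ∈ Finset.Icc 1 (2 * N), ‖a n‖ ^ 2 ≤ (N : ℝ) ^ (-1 : ℝ) := by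
    rw [← Finset.sum_subset hsub]
    · have h3 : ∀ n ∈ Finset.Ico N (2 * N), ‖a n‖ ^ 2 ≤ 1 / (N : ℝ) ^ 2 := by
        intro n hn
        simp only [ha]
        rw [if_pos hn]
        rw [Finset.mem_Ico] at hn
        have hnn : (N : ℝ) ≤ n := by exact_mod_cast hn.1
        have hs1 : ‖(σ n : ℂ)‖ = 1 := by
          rcases hσ n with h | h <;> rw [h] <;> simp
        rw [norm_div, hs1, norm_natCast, div_pow, one_pow]
        gcongr
      refine (Finset.sum_le_sum h3).trans (le_of_eq ?_)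
      rw [Finset.sum_const, Nat.card_Ico, nsmul_eq_mul, show 2 * N - N = N by omega,
        Real.rpow_neg_one]
      field_simp
    · intro n _ hn
      simp only [ha]
      rw [if_neg hn]
      simp
  have hQ : Q (2 * N) a = ∫ t in Ioi (0 : ℝ), (∑ n ∈ Finset.Ico N (2 * N), σ n * h n t) ^ 2 := by
    simp_rw [real_sum]
    unfold Q
    congr 1
    funext t
    congr 2
    rw [← Finset.sum_subset hsub]
    · refine Finset.sum_congr rfl fun n hn => ?_
      have hn0 : (n : ℂ) ≠ 0 := by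
        rw [Finset.mem_Ico] at hn
        have : n ≠ 0 := by omega
        exact_mod_cast this
      simp only [ha]
      rw [if_pos hn]
      push_cast
      field_simp
    · intro n _ hn
      simp only [ha]
      rw [if_neg hn, zero_mul]
  rw [← hQ]
  have h3 : ((2 * N + 1 : ℕ) : ℝ) ^ (2 * B) ≤ (3 : ℝ) ^ (2 * B) * (N : ℝ) ^ (2 * B) := by
    rw [← Real.mul_rpow (by norm_num) hN0.le]
    refine Real.rpow_le_rpow (by positivity) ?_ (by positivity)
    push_cast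
    linarith
  calc Q (2 * N) a ≤ C * ((2 * N + 1 : ℕ) : ℝ) ^ (2 * B) * Rm (2 * N) fun n => n * a n := h1
    _ ≤ C * ((3 : ℝ) ^ (2 * B) * (N : ℝ) ^ (2 * B)) * (N : ℝ) ^ (-1 : ℝ) := by
        refine mul_le_mul (mul_le_mul_of_nonneg_left h3 hC0) (h2.trans hsum)
          (Rm_nonneg _ _) (by positivity)
    _ = C * (3 : ℝ) ^ (2 * B) * (N : ℝ) ^ (2 * B - 1) := by
        rw [show (2 * B - 1 : ℝ) = 2 * B + -1 by ring, Real.rpow_add hN0]
        ring

end Pool.Agent.NBL
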