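import Mathlib
import Pool.Agent.NBL.Final2
import Pool.Agent.NBM.Dict
import Pool.Agent.NBM.P_UBF
import Pool.Agent.NBM.P_UBH
import Pool.Agent.NBM.P_UBW
import Pool.Agent.NBM.P_SPE
import Pool.Agent.NBM.P_PLN
import Pool.Agent.NBM.P_KRB
import Pool.Agent.NBM.P_LBF
import Pool.Agent.NBM.P_LBT
import Pool.Agent.NBM.P_LBJ
import Pool.Agent.NBM.P_LBK
import Pool.Agent.NBM.P_LBM
import Pool.Agent.NBM.P_PMX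
import Pool.Agent.NBM.P_PRP
import Pool.Agent.NBM.P_TRI
import Pool.Agent.NBM.P_WSM
import Pool.Agent.NBM.P_LHK

/-!
# The Lindelöf hypothesis and multiplication by the zeta function on Dirichlet polynomials
-/

set_option autoImplicit false

open MeasureTheory Set

namespace Pool.Agent.NBL

open Pool.Agent

theorem nbm_ubf : NBM.T_UBF :=
  NBM.p_UBF (NBM.p_UBH NBM.p_SPE NBM.p_PLN (NBM.p_UBW NBM.p_PLN)) NBM.p_KRB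

theorem nbm_lbt : NBM.T_LBT := NBM.p_LBT NBM.p_SPE NBM.p_PLN NBM.p_LBJ NBM.p_LBM NBM.p_LBK

theorem nbm_tri : NBM.T_TRI := NBM.p_TRI (NBM.p_PMX NBM.p_PRP)

/-- the moment dictionary -/
theorem moment_dict :
    ∀ k : ℕ, 1 ≤ k → ∀ θ : ℝ, 1 ≤ θ → (
        (∀ ε : ℝ, 0 < ε → ∃ C : ℝ, ∀ T : ℝ, 1 ≤ T →
          ∫ t in (0 : ℝ)..T, ‖riemannZeta (1 / 2 + t * Complex.I)‖ ^ (2 * k) ≤
            C * T ^ (θ + ε)) ↔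
        (∀ ε : ℝ, 0 < ε → ∃ C : ℝ, ∀ N : ℕ, 1 ≤ N →
          ((NBM.G N) ^ k).trace ≤ C * (N : ℝ) ^ (θ + ε))) :=
  fun _ hk _ hθ => NBM.dict nbm_ubf (NBM.p_LBF (NBM.p_WSM (NBM.p_PMX NBM.p_PRP)) nbm_lbt) nbm_tri hk hθ

theorem lindelof_final3 :
    List.TFAE [
      -- the Lindelöf hypothesis
      (∀ ε : ℝ, 0 < ε → ∃ C : ℝ, ∀ t : ℝ,
        ‖riemannZeta (1 / 2 + t * Complex.I)‖ ≤ C * (1 + |t|) ^ ε),
      -- (1) multiplication by the zeta function on Dirichlet polynomials of length `N`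
      (∀ ε : ℝ, 0 < ε → ∃ N₀ : ℕ, ∀ N : ℕ, N₀ ≤ N → ∀ c : ℕ → ℂ,
        (N : ℝ) ^ (-ε) * ∫ t : ℝ, ‖∑ n ∈ Finset.Icc 1 N, c n *
              (n : ℂ) ^ (-(1 / 2 + t * Complex.I))‖ ^ 2 / (1 / 4 + t ^ 2) ≤
            ∫ t : ℝ, ‖riemannZeta (1 / 2 + t * Complex.I) * ∑ n ∈ Finset.Icc 1 N, c n *
              (n : ℂ) ^ (-(1 / 2 + t * Complex.I))‖ ^ 2 / (1 / 4 + t ^ 2) ∧
          ∫ t : ℝ, ‖riemannZeta (1 / 2 + t * Complex.I) * ∑ n ∈ Finset.Icc 1 N, c n *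
              (n : ℂ) ^ (-(1 / 2 + t * Complex.I))‖ ^ 2 / (1 / 4 + t ^ 2) ≤
            (N : ℝ) ^ ε * ∫ t : ℝ, ‖∑ n ∈ Finset.Icc 1 N, c n *
              (n : ℂ) ^ (-(1 / 2 + t * Complex.I))‖ ^ 2 / (1 / 4 + t ^ 2)),
      -- (2) the Gram matrices of the Nyman–Beurling functions
      (∀ ε : ℝ, 0 < ε → ∃ N₀ : ℕ, ∀ N : ℕ, N₀ ≤ N → ∀ c : ℕ → ℂ,
        (N : ℝ) ^ (-ε) * ∑ j ∈ Finset.Icc 1 N, ∑ k ∈ Finset.Icc 1 N,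
              (c j * (starRingEnd ℂ) (c k)).re / (max j k : ℕ) ≤
            ∫ t in Ioi (0 : ℝ),
              ‖∑ k ∈ Finset.Icc 1 N, c k * ((Int.fract (1 / (k * t)) : ℝ) : ℂ)‖ ^ 2 ∧
          ∫ t in Ioi (0 : ℝ),
              ‖∑ k ∈ Finset.Icc 1 N, c k * ((Int.fract (1 / (k * t)) : ℝ) : ℂ)‖ ^ 2 ≤
            (N : ℝ) ^ ε * ∑ j ∈ Finset.Icc 1 N, ∑ k ∈ Finset.Icc 1 N,
              (c j * (starRingEnd ℂ) (c k)).re / (max j k : ℕ)),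
      -- (3) the condition numbers of the Gram matrices of `n h_n`, `n ≤ N`
      (∀ ε : ℝ, 0 < ε → ∃ N₀ : ℕ, ∀ N : ℕ, N₀ ≤ N → ∀ a b : ℕ → ℂ,
        ∑ n ∈ Finset.Icc 1 N, ‖a n‖ ^ 2 = ∑ n ∈ Finset.Icc 1 N, ‖b n‖ ^ 2 →
          ∫ t in Ioi (0 : ℝ), ‖∑ n ∈ Finset.Icc 1 N, a n * ((n *
              (Int.fract (1 / (n * t)) - Int.fract (1 / ((n + 1) * t))) : ℝ) : ℂ)‖ ^ 2 ≤
            (N : ℝ) ^ ε * ∫ t in Ioi (0 : ℝ), ‖∑ n ∈ Finset.Icc 1 N, b n * ((n *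
              (Int.fract (1 / (n * t)) - Int.fract (1 / ((n + 1) * t))) : ℝ) : ℂ)‖ ^ 2),
      -- (4) the traces of the powers of these Gram matrices
      (∀ k : ℕ, 1 ≤ k → (∀ ε : ℝ, 0 < ε → ∃ C : ℝ, ∀ N : ℕ, 1 ≤ N →
          ((NBM.G N) ^ k).trace ≤ C * (N : ℝ) ^ (1 + ε)))] := by
  have h0 := lindelof_final
  have h4 := NBM.dict_lh nbm_ubf (NBM.p_LBF (NBM.p_WSM (NBM.p_PMX NBM.p_PRP)) nbm_lbt) nbm_tri (NBM.p_LHK (NBM.p_PMX NBM.p_PRP))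
  have e : (∀ ε : ℝ, 0 < ε → ∃ C : ℝ, ∀ t : ℝ,
        ‖riemannZeta (1 / 2 + t * Complex.I)‖ ≤ C * (1 + |t|) ^ ε) ↔ Mu 0 := by
    unfold Mu
    simp only [zero_add]
  tfae_have 1 ↔ 2 := h0.out 0 1
  tfae_have 1 ↔ 3 := h0.out 0 2
  tfae_have 1 ↔ 4 := h0.out 0 3
  tfae_have 1 ↔ 5 := e.trans h4
  tfae_finish

theorem exponent_final3 (A : ℝ) (hA : 0 ≤ A) (hA1 : A < 1 / 2) :
    List.TFAE [
      -- (5) the growth of the zeta function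
      (∀ ε : ℝ, 0 < ε → ∃ C : ℝ, ∀ t : ℝ,
        ‖riemannZeta (1 / 2 + t * Complex.I)‖ ≤ C * (1 + |t|) ^ (A + ε)),
      -- (6) the norm of multiplication by the zeta function
      (∀ B : ℝ, A < B → B < 1 / 2 → ∃ C : ℝ, ∀ (N : ℕ) (c : ℕ → ℂ),
        ∫ t : ℝ, ‖riemannZeta (1 / 2 + t * Complex.I) * ∑ n ∈ Finset.Icc 1 N, c n *
            (n : ℂ) ^ (-(1 / 2 + t * Complex.I))‖ ^ 2 / (1 / 4 + t ^ 2) ≤
          C * (N : ℝ) ^ (2 * B) * ∫ t : ℝ, ‖∑ n ∈ Finset.Icc 1 N, c n *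
            (n : ℂ) ^ (-(1 / 2 + t * Complex.I))‖ ^ 2 / (1 / 4 + t ^ 2)),
      -- (7) an explicit sequence of rational numbers
      (∀ B : ℝ, A < B → B < 1 / 2 → ∃ C : ℝ, ∀ r : ℕ,
        ∑ m ∈ Finset.Icc 1 (r ^ 3), (∑ i ∈ Finset.range r,
          (-1 : ℝ) ^ i * Int.fract ((m : ℝ) / ⌈(5 * r : ℝ) * (2 : ℝ) ^ (i / r : ℝ)⌉₊)) ^ 2 /
            (m : ℝ) ^ 2 ≤ C * (r : ℝ) ^ (2 * B - 1)),
      -- (8) all finite sequences of real dilations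
      (∀ B : ℝ, A < B → B < 1 / 2 → ∃ C : ℝ, ∀ (r : ℕ) (c : ℕ → ℂ) (u : ℕ → ℝ),
        (∀ j, ‖∑ i ∈ Finset.range j, c i‖ ≤ 1) → Antitone u → (∀ i, 0 < u i) →
        ∫ t in Ioi (0 : ℝ), ‖∑ i ∈ Finset.range r, c i * ((Int.fract (u i / t) : ℝ) : ℂ)‖ ^ 2 ≤
          C * u 0 * (r : ℝ) ^ (2 * B))] := by
  have h0 := exponent_final A hA hA1
  tfae_have 1 ↔ 2 := h0.out 0 1
  tfae_have 1 ↔ 3 := h0.out 0 2
  tfae_have 1 ↔ 4 := h0.out 0 4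
  tfae_finish

end Pool.Agent.NBL
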