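import Mathlib
import Pool.Agent.NBL.Final3
import Pool.Agent.NBR.Fin
import Pool.Agent.NBE.Glue
import Pool.Agent.NBE.P_FLR
import Pool.Agent.NBE.P_MOB
import Pool.Agent.NBE.P_INV
import Pool.Agent.NBE.P_PTW
import Pool.Agent.NBE.P_EST
import Pool.Agent.NBE.P_SPC
import Pool.Agent.NBE.P_UPT
import Pool.Agent.NBE.P_FOU
import Pool.Agent.NBE.P_WMI
import Pool.Agent.NBE.P_TWO
import Pool.Agent.NBE.P_LOG

/-!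
# The Lindelöf hypothesis and multiplication by the zeta function on Dirichlet polynomials
-/

set_option autoImplicit false

open MeasureTheory Set

namespace Pool.Agent.NBL

open Pool.Agent

theorem exponent_final4 (A : ℝ) (hA : 0 ≤ A) (hA1 : A < 1 / 2) (w : ℕ → ℝ) (hw0 : ∀ N, 0 ≤ w N)
    (hw : Filter.Tendsto (fun N : ℕ => w N / Real.log N) Filter.atTop (nhds 0)) :
    List.TFAE [
      -- (5) the growth of the zeta function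
      (∀ ε : ℝ, 0 < ε → ∃ C : ℝ, ∀ t : ℝ,
        ‖riemannZeta (1 / 2 + t * Complex.I)‖ ≤ C * (1 + |t|) ^ (A + ε)),
      -- (6) multiplication by the zeta function outside subspaces of dimension `o(log N)`
      (∀ B : ℝ, A < B → B < 1 / 2 → ∃ C : ℝ, ∀ N : ℕ, ∃ V : Submodule ℂ (Fin N → ℂ),
        (N : ℝ) - w N ≤ Module.finrank ℂ V ∧ ∀ c ∈ V,
          ∫ t : ℝ, ‖riemannZeta (1 / 2 + t * Complex.I) * ∑ i : Fin N, c i *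
              (((i : ℕ) + 1 : ℕ) : ℂ) ^ (-(1 / 2 + t * Complex.I))‖ ^ 2 / (1 / 4 + t ^ 2) ≤
            C * (N : ℝ) ^ (2 * B) * ∫ t : ℝ, ‖∑ i : Fin N, c i *
              (((i : ℕ) + 1 : ℕ) : ℂ) ^ (-(1 / 2 + t * Complex.I))‖ ^ 2 / (1 / 4 + t ^ 2)),
      -- (7) an explicit sequence of rational numbers
      (∀ B : ℝ, A < B → B < 1 / 2 → ∃ C : ℝ, ∀ r : ℕ,
        ∑ m ∈ Finset.Icc 1 (r ^ 3), (∑ i ∈ Finset.range r,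
          (-1 : ℝ) ^ i * Int.fract ((m : ℝ) / ⌈(5 * r : ℝ) * (2 : ℝ) ^ (i / r : ℝ)⌉₊)) ^ 2 /
            (m : ℝ) ^ 2 ≤ C * (r : ℝ) ^ (2 * B - 1))] := by
  have h0 := exponent_final3 A hA hA1
  tfae_have 1 ↔ 2 := NBR.six_iff NBR.robust hA hA1 hw0 hw
  tfae_have 1 ↔ 3 := h0.out 0 2
  tfae_finish

/-- the elementary lower bound -/
theorem est : NBE.T_EST :=
  NBE.p_EST (NBE.p_PTW (NBE.p_INV NBE.p_FLR) (NBE.p_MOB NBE.p_FLR))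

/-- traces of squares -/
theorem tr_two : NBM.Tr 2 1 :=
  (NBM.dict nbm_ubf (NBM.p_LBF (NBM.p_WSM (NBM.p_PMX NBM.p_PRP)) nbm_lbt) nbm_tri
    (by norm_num) le_rfl).1 NBE.p_FOU

theorem part_b1 : ∀ (M N : ℕ) (c : ℕ → ℂ), 1 ≤ M → M ≤ N →
      ∫ t : ℝ, ‖∑ n ∈ Finset.Icc M N, c n * (n : ℂ) ^ (-(1 / 2 + t * Complex.I))‖ ^ 2 /
          (1 / 4 + t ^ 2) ≤
        36 * (N / M : ℝ) * ∫ t : ℝ, ‖riemannZeta (1 / 2 + t * Complex.I) *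
          ∑ n ∈ Finset.Icc M N, c n * (n : ℂ) ^ (-(1 / 2 + t * Complex.I))‖ ^ 2 /
            (1 / 4 + t ^ 2) :=
  NBE.lower est

theorem part_b2 : ∀ ε θ : ℝ, 0 < ε → 0 < θ → 1 - 2 * ε < θ → ∃ N₀ : ℕ, ∀ N : ℕ, N₀ ≤ N →
      ∃ V : Submodule ℂ (Fin N → ℂ), (N : ℝ) - (N : ℝ) ^ θ ≤ Module.finrank ℂ V ∧ ∀ c ∈ V,
        (N : ℝ) ^ (-(2 * ε)) * ∫ t : ℝ, ‖∑ i : Fin N, c i * (((i : ℕ) + 1 : ℕ) : ℂ) ^
              (-(1 / 2 + t * Complex.I))‖ ^ 2 / (1 / 4 + t ^ 2) ≤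
            ∫ t : ℝ, ‖riemannZeta (1 / 2 + t * Complex.I) * ∑ i : Fin N, c i *
              (((i : ℕ) + 1 : ℕ) : ℂ) ^ (-(1 / 2 + t * Complex.I))‖ ^ 2 / (1 / 4 + t ^ 2) ∧
          ∫ t : ℝ, ‖riemannZeta (1 / 2 + t * Complex.I) * ∑ i : Fin N, c i *
              (((i : ℕ) + 1 : ℕ) : ℂ) ^ (-(1 / 2 + t * Complex.I))‖ ^ 2 / (1 / 4 + t ^ 2) ≤
            (N : ℝ) ^ ε * ∫ t : ℝ, ‖∑ i : Fin N, c i * (((i : ℕ) + 1 : ℕ) : ℂ) ^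
              (-(1 / 2 + t * Complex.I))‖ ^ 2 / (1 / 4 + t ^ 2) :=
  NBE.p_TWO est NBE.p_WMI (NBE.p_UPT NBE.p_SPC) tr_two

theorem part_b3 : ∀ ε : ℝ, 0 < ε → ∃ K N₀ : ℕ, ∀ N : ℕ, N₀ ≤ N →
      ∃ V : Submodule ℂ (Fin N → ℂ), (1 - ε) * N ≤ Module.finrank ℂ V ∧ ∀ c ∈ V,
        ∫ t : ℝ, ‖∑ i : Fin N, c i * (((i : ℕ) + 1 : ℕ) : ℂ) ^
              (-(1 / 2 + t * Complex.I))‖ ^ 2 / (1 / 4 + t ^ 2) ≤
            (K : ℝ) * (∫ t : ℝ, ‖riemannZeta (1 / 2 + t * Complex.I) * ∑ i : Fin N, c i *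
              (((i : ℕ) + 1 : ℕ) : ℂ) ^ (-(1 / 2 + t * Complex.I))‖ ^ 2 / (1 / 4 + t ^ 2)) ∧
          ∫ t : ℝ, ‖riemannZeta (1 / 2 + t * Complex.I) * ∑ i : Fin N, c i *
              (((i : ℕ) + 1 : ℕ) : ℂ) ^ (-(1 / 2 + t * Complex.I))‖ ^ 2 / (1 / 4 + t ^ 2) ≤
            K * Real.log N * ∫ t : ℝ, ‖∑ i : Fin N, c i * (((i : ℕ) + 1 : ℕ) : ℂ) ^
              (-(1 / 2 + t * Complex.I))‖ ^ 2 / (1 / 4 + t ^ 2) :=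
  NBE.p_LOG est NBE.p_WMI

end Pool.Agent.NBL
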