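import Mathlib
import Pool.Agent.NBL.Glob

/-!
# The Lindelöf hypothesis and the Nyman–Beurling functions

For `0 ≤ A < 1/2` the bound `ζ(1/2 + it) = O(|t| ^ (A + ε))` is equivalent to bounds for alternating
sums of fractional parts.  For `A = 0` the first statement is the Lindelöf hypothesis.
-/

set_option autoImplicit false

open MeasureTheory Set

namespace Pool.Agent.NBL

theorem final (A : ℝ) (hA : 0 ≤ A) (hA1 : A < 1 / 2) :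
    List.TFAE [
      -- (1) the growth of the zeta function
      (∀ ε : ℝ, 0 < ε → ∃ C : ℝ, ∀ t : ℝ,
        ‖riemannZeta (1 / 2 + t * Complex.I)‖ ≤ C * (1 + |t|) ^ (A + ε)),
      -- (2) an explicit sequence of rational numbers
      (∀ B : ℝ, A < B → B < 1 / 2 → ∃ C : ℝ, ∀ r : ℕ,
        ∑ m ∈ Finset.Icc 1 (r ^ 3), (∑ i ∈ Finset.range r,
          (-1 : ℝ) ^ i * Int.fract ((m : ℝ) / ⌈(5 * r : ℝ) * (2 : ℝ) ^ (i / r : ℝ)⌉₊)) ^ 2 /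
            (m : ℝ) ^ 2 ≤ C * (r : ℝ) ^ (2 * B - 1)),
      -- (3) the functions `n ^ (1 - B) h_n`, `n ≥ 1`, form a Bessel sequence
      (∀ B : ℝ, A < B → B < 1 / 2 → ∃ C : ℝ, ∀ (M : ℕ) (a : ℕ → ℂ),
        ∫ t in Ioi (0 : ℝ), ‖∑ n ∈ Finset.Icc 1 M, a n * (((n : ℝ) ^ (1 - B) *
          (Int.fract (1 / (n * t)) - Int.fract (1 / ((n + 1) * t))) : ℝ) : ℂ)‖ ^ 2 ≤
          C * ∑ n ∈ Finset.Icc 1 M, ‖a n‖ ^ 2),
      -- (4) all choices of signs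
      (∀ B : ℝ, A < B → B < 1 / 2 → ∃ C : ℝ, ∀ N : ℕ, 1 ≤ N → ∀ σ : ℕ → ℝ,
        (∀ n, σ n = 1 ∨ σ n = -1) →
        ∫ t in Ioi (0 : ℝ), (∑ n ∈ Finset.Ico N (2 * N), σ n *
          (Int.fract (1 / (n * t)) - Int.fract (1 / ((n + 1) * t)))) ^ 2 ≤
          C * (N : ℝ) ^ (2 * B - 1)),
      -- (5) all increasing sequences of positive integers
      (∀ B : ℝ, A < B → B < 1 / 2 → ∃ C : ℝ, ∀ k : ℕ → ℕ, StrictMono k → 0 < k 0 → ∀ r M : ℕ,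
        ∑ m ∈ Finset.Icc 1 M,
          (∑ i ∈ Finset.range r, (-1 : ℝ) ^ i * Int.fract ((m : ℝ) / k i)) ^ 2 / (m : ℝ) ^ 2 ≤
            C * (k 0 : ℝ) ^ (2 * B - 1)),
      -- (6) all finite sequences of real dilations
      (∀ B : ℝ, A < B → B < 1 / 2 → ∃ C : ℝ, ∀ (r : ℕ) (c : ℕ → ℂ) (u : ℕ → ℝ),
        (∀ j, ‖∑ i ∈ Finset.range j, c i‖ ≤ 1) → Antitone u → (∀ i, 0 < u i) →
        ∫ t in Ioi (0 : ℝ), ‖∑ i ∈ Finset.range r, c i * ((Int.fract (u i / t) : ℝ) : ℂ)‖ ^ 2 ≤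
          C * u 0 * (r : ℝ) ^ (2 * B))] := by
  tfae_have 1 → 6 := fun h => steps_of_mu hA h
  tfae_have 6 → 1 := fun h => mu_of_powers hA hA1 (powers_of_steps h)
  tfae_have 2 → 1 := fun h => mu_of_ints hA hA1 h
  tfae_have 1 → 3 := fun h => besselSeq_of_bessel hA (bessel_of_mu hA hA1 h)
  tfae_have 3 → 4 := fun h => signs_of_besselSeq h
  tfae_have 4 → 5 := fun h => alternating_of_signs hA h
  tfae_have 5 → 2 := fun h => ints_of_alternating h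
  tfae_finish

theorem gram_final :
    List.TFAE [
      -- the Lindelöf hypothesis
      (∀ ε : ℝ, 0 < ε → ∃ C : ℝ, ∀ t : ℝ,
        ‖riemannZeta (1 / 2 + t * Complex.I)‖ ≤ C * (1 + |t|) ^ ε),
      -- (7) the condition numbers of the Gram matrices
      (∀ ε : ℝ, 0 < ε → ∃ N₀ : ℕ, ∀ N : ℕ, N₀ ≤ N → ∀ a b : ℕ → ℂ,
        ∑ n ∈ Finset.Ico N (2 * N), ‖a n‖ ^ 2 = ∑ n ∈ Finset.Ico N (2 * N), ‖b n‖ ^ 2 →
          ∫ t in Ioi (0 : ℝ), ‖∑ n ∈ Finset.Ico N (2 * N), a n *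
              ((Int.fract (1 / (n * t)) - Int.fract (1 / ((n + 1) * t)) : ℝ) : ℂ)‖ ^ 2 ≤
            (N : ℝ) ^ ε * ∫ t in Ioi (0 : ℝ), ‖∑ n ∈ Finset.Ico N (2 * N), b n *
              ((Int.fract (1 / (n * t)) - Int.fract (1 / ((n + 1) * t)) : ℝ) : ℂ)‖ ^ 2),
      -- (8) all choices of signs are comparable
      (∀ ε : ℝ, 0 < ε → ∃ N₀ : ℕ, ∀ N : ℕ, N₀ ≤ N → ∀ σ τ : ℕ → ℝ,
        (∀ n, σ n = 1 ∨ σ n = -1) → (∀ n, τ n = 1 ∨ τ n = -1) →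
          ∫ t in Ioi (0 : ℝ), (∑ n ∈ Finset.Ico N (2 * N), σ n *
              (Int.fract (1 / (n * t)) - Int.fract (1 / ((n + 1) * t)))) ^ 2 ≤
            (N : ℝ) ^ ε * ∫ t in Ioi (0 : ℝ), (∑ n ∈ Finset.Ico N (2 * N), τ n *
              (Int.fract (1 / (n * t)) - Int.fract (1 / ((n + 1) * t)))) ^ 2),
      -- (9) two-sided bounds
      (∀ ε : ℝ, 0 < ε → ∃ N₀ : ℕ, ∀ N : ℕ, N₀ ≤ N → ∀ a : ℕ → ℂ,
        (N : ℝ) ^ (-2 - ε) * ∑ n ∈ Finset.Ico N (2 * N), ‖a n‖ ^ 2 ≤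
            ∫ t in Ioi (0 : ℝ), ‖∑ n ∈ Finset.Ico N (2 * N), a n *
              ((Int.fract (1 / (n * t)) - Int.fract (1 / ((n + 1) * t)) : ℝ) : ℂ)‖ ^ 2 ∧
          ∫ t in Ioi (0 : ℝ), ‖∑ n ∈ Finset.Ico N (2 * N), a n *
              ((Int.fract (1 / (n * t)) - Int.fract (1 / ((n + 1) * t)) : ℝ) : ℂ)‖ ^ 2 ≤
            (N : ℝ) ^ (-2 + ε) * ∑ n ∈ Finset.Ico N (2 * N), ‖a n‖ ^ 2)] := by
  have e : (∀ ε : ℝ, 0 < ε → ∃ C : ℝ, ∀ t : ℝ,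
        ‖riemannZeta (1 / 2 + t * Complex.I)‖ ≤ C * (1 + |t|) ^ ε) ↔ Mu 0 := by
    unfold Mu
    simp only [zero_add]
  rw [e]
  tfae_have 1 → 4 := fun h => twoSided_of_mu h
  tfae_have 4 → 2 := fun h => cond_of_twoSided h
  tfae_have 2 → 3 := fun h => signRatio_of_cond h
  tfae_have 3 → 1 := fun h =>
    mu_of_ints le_rfl (by norm_num)
      (ints_of_alternating (alternating_of_signs le_rfl (signs_of_signRatio h)))
  tfae_finish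

end Pool.Agent.NBL
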