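import Mathlib
import Pool.Agent.NBL.Low2

/-!
# The pointwise inequality, with a mean square bound for zeta
-/

set_option autoImplicit false

open MeasureTheory Complex Set Filter Topology
open Pool.Agent.Lib.TwoConst Pool.Agent.Lib.ZetaLine Pool.Agent.Lib.ThickFailure
open scoped ENNReal

namespace Pool.Agent.NBL

/-- the positive part of the logarithm has a small mean -/
lemma logp_le {L X V : ℝ} (hL : 0 < L) (hX : 3 / 2 ≤ X) (hX2 : X ≤ 5 / 2) {u : ℝ → ℝ}
    (hu : Continuous u) (hV : 1 / Real.pi * ∫ t in (-L)..L, u t ^ 2 * P (3 / 2) 0 t ≤ V) :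
    1 / Real.pi * ∫ t in (-L)..L, Real.log (1 + u t ^ 2) * P X 0 t ≤
      Real.log (1 + 5 / 3 * V) + 1 := by
  have hpi := Real.pi_pos
  have hX0 : 0 < X := by linarith
  have hPc := continuous_P hX0 0
  have hP3 := continuous_P (show (0 : ℝ) < 3 / 2 by norm_num) 0
  have hI3 : 0 ≤ ∫ t in (-L)..L, u t ^ 2 * P (3 / 2) 0 t :=
    intervalIntegral.integral_nonneg (by linarith) fun t _ =>
      mul_nonneg (sq_nonneg _) (P_nonneg (by norm_num) 0 t)
  have hV0 : 0 ≤ V := le_trans (by positivity) hV
  set θ : ℝ := 1 + 5 / 3 * V with hθ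
  have hθ1 : 1 ≤ θ := by linarith
  set m : ℝ := 1 / Real.pi * ∫ t in (-L)..L, P X 0 t with hm
  have hm1 : m ≤ 1 := by
    rw [hm, one_div_mul_eq_div, div_le_one hpi]
    exact integral_P_le hX0 0 (-L) L
  have hm0 : 0 ≤ m := by
    have : 0 ≤ ∫ t in (-L)..L, P X 0 t :=
      intervalIntegral.integral_nonneg (by linarith) fun t _ => P_nonneg hX0.le 0 t
    rw [hm]
    positivity
  set U : ℝ := 1 / Real.pi * ∫ t in (-L)..L, u t ^ 2 * P X 0 t with hU
  have hUV : U ≤ 5 / 3 * V := by
    have h1 : ∫ t in (-L)..L, u t ^ 2 * P X 0 t ≤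
        ∫ t in (-L)..L, 5 / 3 * (u t ^ 2 * P (3 / 2) 0 t) := by
      apply intervalIntegral.integral_mono_on (by linarith)
      · exact ((hu.pow 2).mul hPc).intervalIntegrable _ _
      · exact (continuous_const.mul ((hu.pow 2).mul hP3)).intervalIntegrable _ _
      · intro t _
        have h2 : P X 0 t ≤ 5 / 3 * P (3 / 2) 0 t := by
          unfold P
          rw [← mul_div_assoc, div_le_div_iff₀ (by positivity) (by positivity)]
          nlinarith [sq_nonneg (0 - t), mul_nonneg (by linarith : (0 : ℝ) ≤ 5 / 2 - X)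
            (sq_nonneg (0 - t)), mul_nonneg (by linarith : (0 : ℝ) ≤ X - 3 / 2)
            (by linarith : (0 : ℝ) ≤ X)]
        calc u t ^ 2 * P X 0 t ≤ u t ^ 2 * (5 / 3 * P (3 / 2) 0 t) :=
              mul_le_mul_of_nonneg_left h2 (sq_nonneg _)
          _ = _ := by ring
    rw [intervalIntegral.integral_const_mul] at h1
    calc U ≤ 1 / Real.pi * (5 / 3 * ∫ t in (-L)..L, u t ^ 2 * P (3 / 2) 0 t) :=
          mul_le_mul_of_nonneg_left h1 (by positivity)
      _ = 5 / 3 * (1 / Real.pi * ∫ t in (-L)..L, u t ^ 2 * P (3 / 2) 0 t) := by ring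
      _ ≤ _ := by linarith
  have hlc : Continuous fun t => Real.log (1 + u t ^ 2) :=
    Continuous.log (continuous_const.add (hu.pow 2)) fun t => by positivity
  have h1 : ∫ t in (-L)..L, Real.log (1 + u t ^ 2) * P X 0 t ≤
      ∫ t in (-L)..L, ((Real.log θ - 1 + 1 / θ) * P X 0 t + 1 / θ * (u t ^ 2 * P X 0 t)) := by
    apply intervalIntegral.integral_mono_on (by linarith)
    · exact (hlc.mul hPc).intervalIntegrable _ _
    · exact ((continuous_const.mul hPc).add
        (continuous_const.mul ((hu.pow 2).mul hPc))).intervalIntegrable _ _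
    · intro t _
      have hw : 0 < 1 + u t ^ 2 := by positivity
      have h2 := Real.log_le_sub_one_of_pos (show 0 < (1 + u t ^ 2) / θ by positivity)
      rw [Real.log_div hw.ne' (by linarith)] at h2
      have h3 : Real.log (1 + u t ^ 2) ≤ Real.log θ - 1 + 1 / θ + 1 / θ * u t ^ 2 := by
        have : (1 + u t ^ 2) / θ = 1 / θ + 1 / θ * u t ^ 2 := by ring
        linarith
      calc Real.log (1 + u t ^ 2) * P X 0 t ≤
            (Real.log θ - 1 + 1 / θ + 1 / θ * u t ^ 2) * P X 0 t :=
            mul_le_mul_of_nonneg_right h3 (P_nonneg hX0.le 0 t)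
        _ = _ := by ring
  rw [intervalIntegral.integral_add, intervalIntegral.integral_const_mul,
    intervalIntegral.integral_const_mul] at h1
  rotate_left
  · exact (continuous_const.mul hPc).intervalIntegrable _ _
  · exact (continuous_const.mul ((hu.pow 2).mul hPc)).intervalIntegrable _ _
  have hlθ : 0 ≤ Real.log θ := Real.log_nonneg hθ1
  have hUθ : 1 / θ * U ≤ 1 := by
    rw [one_div_mul_eq_div, div_le_one (by linarith)]
    linarith
  have hiθ : 1 / θ ≤ 1 := by
    rw [div_le_one (by linarith)]
    exact hθ1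
  have hiθ0 : 0 ≤ 1 / θ := by positivity
  calc 1 / Real.pi * ∫ t in (-L)..L, Real.log (1 + u t ^ 2) * P X 0 t
      ≤ 1 / Real.pi * ((Real.log θ - 1 + 1 / θ) * (∫ t in (-L)..L, P X 0 t) +
          1 / θ * ∫ t in (-L)..L, u t ^ 2 * P X 0 t) :=
        mul_le_mul_of_nonneg_left h1 (by positivity)
    _ = (Real.log θ - 1 + 1 / θ) * m + 1 / θ * U := by rw [hm, hU]; ring
    _ ≤ Real.log θ + 1 := by nlinarith

/-- the pointwise inequality, with a mean square bound -/
lemma pointwise2 {N : ℕ} {b : ℕ → ℂ} {x y κ L K Mu Mv P₀ P₁ P₂ V : ℝ} (hx : 0 < x)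
    (hx4 : x ≤ 1 / 4) (hκ : 0 < κ) (hκ2 : κ ≤ 1 / 2) (hL : 0 < L)
    (hK : 2 * L / (Real.pi * (K - L)) ≤ κ) (hLK : L < K) (hK2 : 3 / 2 < K) (hxL : 2 * x / L ≤ κ)
    (hMu : 1 ≤ Mu) (hMv : 1 ≤ Mv) (hP₀ : 0 < P₀) (hP₁ : 0 < P₁) (hP₂ : 0 < P₂) (hP₂1 : P₂ ≤ 1)
    (h02 : Mu * P₀ ≤ P₂) (h12 : Mv * P₁ ≤ P₂) (hP₀v : P₀ < Mv) (hP₁u : P₁ < Mu)
    (hP₁1 : P₁ ≤ 1) (hXL : 5 / 2 / L ≤ κ)
    (hv : ∀ z : ℂ, z.re ≤ 0 → ‖qf N b z‖ ≤ Mv)
    (hu : ∀ z : ℂ, 0 ≤ z.re → z.re ≤ K → |z.im| ≤ K → ‖fz (z + y * I)‖ ≤ Mu)
    (hV : 1 / Real.pi * ∫ t in (-L)..L, ‖fz (((y - t : ℝ) : ℂ) * I)‖ ^ 2 * P (3 / 2) 0 t ≤ V) :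
    ‖qf N b (-x + y * I)‖ ^ 2 ≤
      2 * Real.exp (2 * (κ * Real.log Mv + κ * (Real.log Mv - Real.log P₀) +
        5 / (2 * x) * (Real.log 12 + 1 / 2 + 1 / 2 * Real.log (1 + 5 / 3 * V) + κ * Real.log Mu +
          κ * (Real.log Mu - Real.log P₁))) -
        2 * κ * Real.log P₂) *
      (2 / Real.pi * (∫ t in (-L)..L, (‖fz (((y - t : ℝ) : ℂ) * I)‖ *
        ‖qf N b (((y - t : ℝ) : ℂ) * I)‖) ^ 2 * P x 0 t) + 2 * P₂ ^ 2) := by
  have hpi := Real.pi_pos
  have hlMu : 0 ≤ Real.log Mu := Real.log_nonneg hMu
  have hlMv : 0 ≤ Real.log Mv := Real.log_nonneg hMv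
  have hlP2 : Real.log P₂ ≤ 0 := Real.log_nonpos hP₂.le hP₂1
  set u : ℝ → ℝ := fun t => ‖fz (((y - t : ℝ) : ℂ) * I)‖ with hud
  set v : ℝ → ℝ := fun t => ‖qf N b (((y - t : ℝ) : ℂ) * I)‖ with hvd
  have huc : Continuous u := (fz_cont.comp (continuous_const.sub continuous_id)).norm
  have hqc : Continuous fun t : ℝ => qf N b (t * I) := by
    rw [continuous_iff_continuousAt]
    intro t
    have h1 : ContinuousAt (qf N b) (t * I) := (qf_diff N b (by simp)).continuousAt
    exact ContinuousAt.comp (f := fun t : ℝ => (t * I : ℂ)) h1 (by fun_prop)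
  have hvc : Continuous v := (hqc.comp (continuous_const.sub continuous_id)).norm
  have hu0 : ∀ t, 0 ≤ u t := fun t => norm_nonneg _
  have hv0 : ∀ t, 0 ≤ v t := fun t => norm_nonneg _
  have hvM : ∀ t, v t ≤ Mv := fun t => hv _ (by simp)
  -- Jensen for the Dirichlet polynomial, on the left
  obtain ⟨x₀, hx₀, hx₀a, h1⟩ := jen (f := fun z => qf N b (y * I - z)) (L := L) (K := K) (κ := κ)
    (a := x) (M₀ := Mv) (P₀ := P₀) hL hκ hx hK hLK hP₀ hP₀v
    (by
      have : (fun t : ℝ => qf N b (y * I - t * I)) = fun t : ℝ => qf N b (((y - t : ℝ) : ℂ) * I) := by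
        funext t
        congr 1
        push_cast
        ring
      rw [this]
      exact hqc.comp (continuous_const.sub continuous_id))
    (fun z hz _ _ => by
      have h2 : DifferentiableAt ℂ (qf N b) (y * I - z) := qf_diff N b (by simp; linarith)
      exact DifferentiableAt.comp (g := qf N b) (f := fun z : ℂ => y * I - z) z h2 (by fun_prop))
    (fun z hz _ _ => hv _ (by simp; linarith))
  have h1x := h1 x hx (by linarith)
  -- Jensen for zeta
  obtain ⟨x₁, hx₁, hx₁a, h2⟩ := jen (f := fun z => fz (z + y * I)) (L := L) (K := K) (κ := κ)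
    (a := 1) (M₀ := Mu) (P₀ := P₁) hL hκ one_pos hK hLK hP₁ hP₁u
    (by
      have : (fun t : ℝ => fz (t * I + y * I)) = fun t : ℝ => fz (((y + t : ℝ) : ℂ) * I) := by
        funext t
        congr 1
        push_cast
        ring
      rw [this]
      exact fz_cont.comp (continuous_const.add continuous_id))
    (fun z hz _ _ => by
      have h3 : DifferentiableAt ℂ fz (z + y * I) := fz_diff (by simp; linarith)
      exact DifferentiableAt.comp (g := fz) (f := fun z : ℂ => z + y * I) z h3 (by fun_prop))
    hu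
  have h2x := h2 (3 / 2) (by norm_num) hK2
  set x' : ℝ := x + x₀ with hx'
  set X : ℝ := 3 / 2 + x₁ with hXd
  have hx'0 : 0 < x' := by linarith
  have hX0 : 0 < X := by linarith
  have hPc := continuous_P hx'0 0
  have hPXc := continuous_P hX0 0
  have hPc1 := continuous_P hx 0
  -- the mass
  set m : ℝ := 1 / Real.pi * ∫ t in (-L)..L, P x' 0 t with hmd
  have hm : 1 - κ ≤ m := by
    have h3 := IP_ge hx'0 hL (κ := κ) (by
      refine le_trans ?_ hxL
      gcongr
      linarith)
    rw [hmd, one_div_mul_eq_div, le_div_iff₀ hpi]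
    linarith
  have hm1 : m ≤ 1 := by
    rw [hmd, one_div_mul_eq_div, div_le_one hpi]
    exact integral_P_le hx'0 0 (-L) L
  -- the zeta integral
  set lm : ℝ → ℝ := fun t => max 0 (-Real.log (max (u t) P₁)) with hlm
  have hmaxc : Continuous fun t => Real.log (max (u t) P₁) :=
    Continuous.log (huc.max continuous_const) fun t => (lt_max_of_lt_right hP₁).ne'
  have hlmc : Continuous lm := continuous_const.max hmaxc.neg
  have hlm0 : ∀ t, 0 ≤ lm t := fun t => le_max_left _ _
  set H : ℝ := 1 / Real.pi * ∫ t in (-L)..L, lm t * P X 0 t with hH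
  have hHle : H ≤ Real.log 12 + 1 / 2 + 1 / 2 * Real.log (1 + 5 / 3 * V) + κ * Real.log Mu +
      κ * (Real.log Mu - Real.log P₁) := by
    have e1 : ∫ t in (-L)..L, (Real.log Mu - Real.log (max ‖fz (t * I + y * I)‖ P₁)) * P X 0 t =
        ∫ t in (-L)..L, (Real.log Mu - Real.log (max (u t) P₁)) * P X 0 t := by
      have h3 := intervalIntegral.integral_comp_neg (a := -L) (b := L)
        (f := fun t : ℝ => (Real.log Mu - Real.log (max ‖fz (t * I + y * I)‖ P₁)) * P X 0 t)
      rw [neg_neg] at h3
      rw [← h3]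
      apply intervalIntegral.integral_congr
      intro t _
      simp only [hud]
      have e2 : (((-t : ℝ) : ℂ) * I + y * I : ℂ) = ((y - t : ℝ) : ℂ) * I := by
        push_cast
        ring
      have e3 : P X 0 (-t) = P X 0 t := by
        unfold P
        ring
      rw [e2, e3]
    rw [e1] at h2x
    have h3 : 1 / 12 ≤ ‖fz ((3 / 2 : ℝ) + y * I)‖ := fz_low2 y
    have h4 : 1 / 12 * Real.exp (1 / Real.pi * ∫ t in (-L)..L,
        (Real.log Mu - Real.log (max (u t) P₁)) * P X 0 t) ≤
        Mu * Real.exp ((Real.log Mu - Real.log P₁) * κ) :=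
      le_trans (mul_le_mul_of_nonneg_right h3 (Real.exp_pos _).le) h2x
    have h5 := Real.log_le_log (by positivity) h4
    rw [Real.log_mul (by norm_num) (Real.exp_pos _).ne', Real.log_exp,
      Real.log_mul (by linarith) (Real.exp_pos _).ne', Real.log_exp, one_div, Real.log_inv] at h5
    -- the mass
    have hmX : 1 - κ ≤ 1 / Real.pi * ∫ t in (-L)..L, P X 0 t := by
      have h6 := IP_ge hX0 hL (κ := κ) (by
        refine le_trans ?_ hXL
        gcongr
        linarith)
      rw [one_div_mul_eq_div, le_div_iff₀ hpi]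
      linarith
    have e4 : 1 / Real.pi * ∫ t in (-L)..L, (Real.log Mu - Real.log (max (u t) P₁)) * P X 0 t =
        Real.log Mu * (1 / Real.pi * ∫ t in (-L)..L, P X 0 t) -
          1 / Real.pi * ∫ t in (-L)..L, Real.log (max (u t) P₁) * P X 0 t := by
      have h9 := intervalIntegral.integral_sub (μ := volume) (a := -L) (b := L)
        (f := fun t => Real.log Mu * P X 0 t) (g := fun t => Real.log (max (u t) P₁) * P X 0 t)
        ((continuous_const.mul hPXc).intervalIntegrable _ _)
        ((hmaxc.mul hPXc).intervalIntegrable _ _)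
      have e5 : ∫ t in (-L)..L, (Real.log Mu - Real.log (max (u t) P₁)) * P X 0 t =
          ∫ t in (-L)..L, (Real.log Mu * P X 0 t - Real.log (max (u t) P₁) * P X 0 t) := by
        apply intervalIntegral.integral_congr
        intro t _
        simp only
        ring
      rw [e5, h9, intervalIntegral.integral_const_mul]
      ring
    have h7 : (1 - κ) * Real.log Mu ≤
        Real.log Mu * (1 / Real.pi * ∫ t in (-L)..L, P X 0 t) := by
      rw [mul_comm (Real.log Mu)]
      exact mul_le_mul_of_nonneg_right hmX hlMu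
    -- the positive part
    have h8 : H ≤ 1 / 2 * (1 / Real.pi * ∫ t in (-L)..L, Real.log (1 + u t ^ 2) * P X 0 t) -
        1 / Real.pi * ∫ t in (-L)..L, Real.log (max (u t) P₁) * P X 0 t := by
      have hlc : Continuous fun t => Real.log (1 + u t ^ 2) :=
        Continuous.log (continuous_const.add (huc.pow 2)) fun t => by positivity
      have h9 : ∫ t in (-L)..L, lm t * P X 0 t ≤
          ∫ t in (-L)..L, (1 / 2 * (Real.log (1 + u t ^ 2) * P X 0 t) -
            Real.log (max (u t) P₁) * P X 0 t) := by
        apply intervalIntegral.integral_mono_on (by linarith)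
        · exact (hlmc.mul hPXc).intervalIntegrable _ _
        · exact ((continuous_const.mul (hlc.mul hPXc)).sub (hmaxc.mul hPXc)).intervalIntegrable _ _
        · intro t _
          have h10 : lm t ≤ 1 / 2 * Real.log (1 + u t ^ 2) - Real.log (max (u t) P₁) := by
            have hs1 : 0 ≤ Real.log (1 + u t ^ 2) := Real.log_nonneg (by nlinarith [sq_nonneg (u t)])
            have hs2 : Real.log (max (u t) P₁) ≤ 1 / 2 * Real.log (1 + u t ^ 2) := by
              have h11 : (max (u t) P₁) ^ 2 ≤ 1 + u t ^ 2 := by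
                rcases le_total (u t) P₁ with h | h
                · rw [max_eq_right h]
                  nlinarith [sq_nonneg (u t)]
                · rw [max_eq_left h]
                  linarith
              have hmx : 0 < max (u t) P₁ := lt_max_of_lt_right hP₁
              have h12 := Real.log_le_log (by positivity) h11
              rw [Real.log_pow] at h12
              push_cast at h12
              linarith
            simp only [hlm]
            apply max_le
            · linarith
            · linarith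
          calc lm t * P X 0 t ≤
                (1 / 2 * Real.log (1 + u t ^ 2) - Real.log (max (u t) P₁)) * P X 0 t :=
                mul_le_mul_of_nonneg_right h10 (P_nonneg hX0.le 0 t)
            _ = _ := by ring
      rw [intervalIntegral.integral_sub, intervalIntegral.integral_const_mul] at h9
      rotate_left
      · exact (continuous_const.mul (hlc.mul hPXc)).intervalIntegrable _ _
      · exact (hmaxc.mul hPXc).intervalIntegrable _ _
      calc H ≤ 1 / Real.pi * (1 / 2 * (∫ t in (-L)..L, Real.log (1 + u t ^ 2) * P X 0 t) -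
            ∫ t in (-L)..L, Real.log (max (u t) P₁) * P X 0 t) :=
            mul_le_mul_of_nonneg_left h9 (by positivity)
        _ = _ := by ring
    have h9 := logp_le hL (X := X) (by linarith) (by linarith) huc hV
    linarith
  -- the comparison
  have hB1 : 1 / Real.pi * ∫ t in (-L)..L, Real.log (max (v t) P₀) * P x' 0 t ≤
      1 / Real.pi * (∫ t in (-L)..L, Real.log (max (u t * v t) P₂) * P x' 0 t) +
        5 / (2 * x) * H := by
    have hlv : Continuous fun t => Real.log (max (v t) P₀) :=
      Continuous.log (hvc.max continuous_const) fun t => (lt_max_of_lt_right hP₀).ne'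
    have hluv : Continuous fun t => Real.log (max (u t * v t) P₂) :=
      Continuous.log ((huc.mul hvc).max continuous_const) fun t => (lt_max_of_lt_right hP₂).ne'
    have h3 : ∫ t in (-L)..L, Real.log (max (v t) P₀) * P x' 0 t ≤
        ∫ t in (-L)..L, (Real.log (max (u t * v t) P₂) * P x' 0 t +
          5 / (2 * x) * (lm t * P X 0 t)) := by
      apply intervalIntegral.integral_mono_on (by linarith)
      · exact (hlv.mul hPc).intervalIntegrable _ _
      · exact ((hluv.mul hPc).add (continuous_const.mul (hlmc.mul hPXc))).intervalIntegrable _ _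
      · intro t ht
        have hMt : u t ≤ Mu := by
          have h4 := hu ((-t : ℝ) * I) (by simp) (by simp; linarith) (by
            simp only [mul_im, ofReal_re, I_im, mul_one, ofReal_im, I_re, mul_zero, add_zero,
              abs_neg]
            exact (abs_le.2 ht).trans hLK.le)
          have e2 : (((-t : ℝ) : ℂ) * I + y * I : ℂ) = ((y - t : ℝ) : ℂ) * I := by
            push_cast
            ring
          rw [e2] at h4
          exact h4
        have hkey : Real.log (max (v t) P₀) ≤ Real.log (max (u t * v t) P₂) + lm t := by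
          have hl1 : -Real.log (max (u t) P₁) ≤ lm t := le_max_right _ _
          by_cases hc : P₁ ≤ u t
          · rw [max_eq_left hc] at hl1
            have hu1 : 0 < u t := lt_of_lt_of_le hP₁ hc
            have h5 : max (v t) P₀ * u t ≤ max (u t * v t) P₂ := by
              rw [max_mul_of_nonneg _ _ hu1.le]
              apply max_le_max
              · exact le_of_eq (mul_comm _ _)
              · refine le_trans ?_ h02
                rw [mul_comm]
                exact mul_le_mul_of_nonneg_right hMt hP₀.le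
            have h6 := Real.log_le_log (mul_pos (lt_max_of_lt_right hP₀) hu1) h5
            rw [Real.log_mul (lt_max_of_lt_right hP₀).ne' hu1.ne'] at h6
            linarith
          · rw [not_le] at hc
            rw [max_eq_right hc.le] at hl1
            have h5 : Real.log (max (v t) P₀) ≤ Real.log Mv :=
              Real.log_le_log (lt_max_of_lt_right hP₀) (max_le (hvM t) hP₀v.le)
            have h6 : Real.log P₂ ≤ Real.log (max (u t * v t) P₂) :=
              Real.log_le_log hP₂ (le_max_right _ _)
            have h7 := Real.log_le_log (by positivity) h12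
            rw [Real.log_mul (by linarith) hP₁.ne'] at h7
            linarith
        have h8 := P_far hx hx4 (x' := x') (by linarith) (by linarith) (X := X) (by linarith)
          (by linarith) t
        calc Real.log (max (v t) P₀) * P x' 0 t
            ≤ (Real.log (max (u t * v t) P₂) + lm t) * P x' 0 t :=
              mul_le_mul_of_nonneg_right hkey (P_nonneg hx'0.le 0 t)
          _ = Real.log (max (u t * v t) P₂) * P x' 0 t + lm t * P x' 0 t := by ring
          _ ≤ Real.log (max (u t * v t) P₂) * P x' 0 t +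
                lm t * (5 / (2 * x) * P X 0 t) := by
              have := hlm0 t
              gcongr
          _ = _ := by ring
    rw [intervalIntegral.integral_add, intervalIntegral.integral_const_mul] at h3
    rotate_left
    · exact (hluv.mul hPc).intervalIntegrable _ _
    · exact (continuous_const.mul (hlmc.mul hPXc)).intervalIntegrable _ _
    calc _ ≤ 1 / Real.pi * ((∫ t in (-L)..L, Real.log (max (u t * v t) P₂) * P x' 0 t) +
          5 / (2 * x) * ∫ t in (-L)..L, lm t * P X 0 t) :=
          mul_le_mul_of_nonneg_left h3 (by positivity)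
      _ = _ := by rw [hH]; ring
  -- Jensen for the product
  set W : ℝ := 1 / Real.pi * ∫ t in (-L)..L, (max (u t * v t) P₂) ^ 2 * P x' 0 t with hW
  have hwc : Continuous fun t => (max (u t * v t) P₂) ^ 2 :=
    ((huc.mul hvc).max continuous_const).pow 2
  have hww : ∀ t, P₂ ^ 2 ≤ (max (u t * v t) P₂) ^ 2 := fun t =>
    pow_le_pow_left₀ hP₂.le (le_max_right _ _) 2
  have hJ := jensen_w hL hx'0 hwc (w₀ := P₂ ^ 2) (by positivity) hww (by
    rw [← hmd]
    linarith)
  rw [← hmd, ← hW] at hJ
  have hJ2 : 2 * (1 / Real.pi * ∫ t in (-L)..L, Real.log (max (u t * v t) P₂) * P x' 0 t) ≤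
      Real.log W + Real.log 2 - 2 * κ * Real.log P₂ := by
    have e1 : ∫ t in (-L)..L, Real.log ((max (u t * v t) P₂) ^ 2) * P x' 0 t =
        2 * ∫ t in (-L)..L, Real.log (max (u t * v t) P₂) * P x' 0 t := by
      rw [← intervalIntegral.integral_const_mul]
      apply intervalIntegral.integral_congr
      intro t _
      simp only [Real.log_pow]
      push_cast
      ring
    rw [e1, Real.log_pow] at hJ
    push_cast at hJ
    have h3 : (1 - m) * (2 * Real.log P₂) ≥ κ * (2 * Real.log P₂) :=
      mul_le_mul_of_nonpos_right (by linarith) (by linarith)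
    linarith
  have hW0 : 0 < W := by
    rw [hW]
    have h3 : ∫ t in (-L)..L, P₂ ^ 2 * P x' 0 t ≤
        ∫ t in (-L)..L, (max (u t * v t) P₂) ^ 2 * P x' 0 t := by
      apply intervalIntegral.integral_mono_on (by linarith)
      · exact (continuous_const.mul hPc).intervalIntegrable _ _
      · exact (hwc.mul hPc).intervalIntegrable _ _
      · intro t _
        exact mul_le_mul_of_nonneg_right (hww t) (P_nonneg hx'0.le 0 t)
    rw [intervalIntegral.integral_const_mul] at h3
    have h4 : 0 < ∫ t in (-L)..L, P x' 0 t := by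
      have h5 : 0 < m := by linarith
      rw [hmd] at h5
      exact pos_of_mul_pos_right h5 (by positivity)
    have h6 : 0 < P₂ ^ 2 * ∫ t in (-L)..L, P x' 0 t := by positivity
    have h7 : 0 < ∫ t in (-L)..L, (max (u t * v t) P₂) ^ 2 * P x' 0 t := lt_of_lt_of_le h6 h3
    positivity
  have hWle : W ≤ 2 / Real.pi * (∫ t in (-L)..L, (u t * v t) ^ 2 * P x 0 t) + 2 * P₂ ^ 2 := by
    have h3 : ∫ t in (-L)..L, (max (u t * v t) P₂) ^ 2 * P x' 0 t ≤
        ∫ t in (-L)..L, (2 * ((u t * v t) ^ 2 * P x 0 t) + 2 * P₂ ^ 2 * P x 0 t) := by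
      apply intervalIntegral.integral_mono_on (by linarith)
      · exact (hwc.mul hPc).intervalIntegrable _ _
      · exact ((continuous_const.mul (((huc.mul hvc).pow 2).mul hPc1)).add
          (continuous_const.mul hPc1)).intervalIntegrable _ _
      · intro t _
        have h4 : (max (u t * v t) P₂) ^ 2 ≤ (u t * v t) ^ 2 + P₂ ^ 2 := by
          rcases le_total (u t * v t) P₂ with h5 | h5
          · rw [max_eq_right h5]
            nlinarith [sq_nonneg (u t * v t)]
          · rw [max_eq_left h5]
            nlinarith [sq_nonneg P₂]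
        have h5 := P_two hx (x' := x') (by linarith) (by linarith) t
        have h6 := P_nonneg hx'0.le 0 t
        calc (max (u t * v t) P₂) ^ 2 * P x' 0 t ≤ ((u t * v t) ^ 2 + P₂ ^ 2) * (2 * P x 0 t) :=
              mul_le_mul h4 h5 h6 (by positivity)
          _ = _ := by ring
    rw [intervalIntegral.integral_add, intervalIntegral.integral_const_mul,
      intervalIntegral.integral_const_mul] at h3
    rotate_left
    · exact (continuous_const.mul (((huc.mul hvc).pow 2).mul hPc1)).intervalIntegrable _ _
    · exact (continuous_const.mul hPc1).intervalIntegrable _ _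
    have h4 := integral_P_le hx 0 (-L) L
    rw [hW]
    calc 1 / Real.pi * ∫ t in (-L)..L, (max (u t * v t) P₂) ^ 2 * P x' 0 t
        ≤ 1 / Real.pi * (2 * (∫ t in (-L)..L, (u t * v t) ^ 2 * P x 0 t) +
            2 * P₂ ^ 2 * ∫ t in (-L)..L, P x 0 t) := mul_le_mul_of_nonneg_left h3 (by positivity)
      _ ≤ 1 / Real.pi * (2 * (∫ t in (-L)..L, (u t * v t) ^ 2 * P x 0 t) +
            2 * P₂ ^ 2 * Real.pi) := by gcongr
      _ = _ := by
          field_simp
  -- conclusion
  have e0 : (y * I - ((x : ℝ) : ℂ) : ℂ) = -x + y * I := by ring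
  simp only [e0] at h1x
  have hvt : ∀ t : ℝ, ‖qf N b (y * I - t * I)‖ = v t := by
    intro t
    simp only [hvd]
    congr 2
    push_cast
    ring
  simp_rw [hvt] at h1x
  rcases (norm_nonneg (qf N b (-x + y * I))).eq_or_lt with hz | hz
  · rw [← hz]
    have h3 : 0 ≤ 2 / Real.pi * (∫ t in (-L)..L, (u t * v t) ^ 2 * P x 0 t) + 2 * P₂ ^ 2 :=
      hW0.le.trans hWle
    have : (0 : ℝ) ^ 2 = 0 := by norm_num
    rw [this]
    positivity
  · have h3 := Real.log_le_log (by positivity) h1x
    rw [Real.log_mul hz.ne' (Real.exp_pos _).ne', Real.log_exp,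
      Real.log_mul (by linarith) (Real.exp_pos _).ne', Real.log_exp] at h3
    have e1 : 1 / Real.pi * ∫ t in (-L)..L, (Real.log Mv - Real.log (max (v t) P₀)) * P x' 0 t =
        m * Real.log Mv - 1 / Real.pi * ∫ t in (-L)..L, Real.log (max (v t) P₀) * P x' 0 t := by
      have hlv : Continuous fun t => Real.log (max (v t) P₀) :=
        Continuous.log (hvc.max continuous_const) fun t => (lt_max_of_lt_right hP₀).ne'
      have e2 : ∫ t in (-L)..L, (Real.log Mv - Real.log (max (v t) P₀)) * P x' 0 t =
          (∫ t in (-L)..L, Real.log Mv * P x' 0 t) -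
            ∫ t in (-L)..L, Real.log (max (v t) P₀) * P x' 0 t := by
        have h9 := intervalIntegral.integral_sub (μ := volume) (a := -L) (b := L)
          (f := fun t => Real.log Mv * P x' 0 t) (g := fun t => Real.log (max (v t) P₀) * P x' 0 t)
          ((continuous_const.mul hPc).intervalIntegrable _ _)
          ((hlv.mul hPc).intervalIntegrable _ _)
        rw [← h9]
        apply intervalIntegral.integral_congr
        intro t _
        simp only
        ring
      rw [e2, intervalIntegral.integral_const_mul, hmd]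
      ring
    rw [e1] at h3
    set E : ℝ := 2 * (κ * Real.log Mv + κ * (Real.log Mv - Real.log P₀) +
        5 / (2 * x) * (Real.log 12 + 1 / 2 + 1 / 2 * Real.log (1 + 5 / 3 * V) + κ * Real.log Mu +
          κ * (Real.log Mu - Real.log P₁))) -
        2 * κ * Real.log P₂ with hE
    have h4 : 5 / (2 * x) * H ≤
        5 / (2 * x) * (Real.log 12 + 1 / 2 + 1 / 2 * Real.log (1 + 5 / 3 * V) + κ * Real.log Mu +
          κ * (Real.log Mu - Real.log P₁)) :=
      mul_le_mul_of_nonneg_left hHle (by positivity)
    have h5 : (1 - m) * Real.log Mv ≤ κ * Real.log Mv :=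
      mul_le_mul_of_nonneg_right (by linarith) hlMv
    have h6 : 2 * Real.log ‖qf N b (-x + y * I)‖ ≤ Real.log W + Real.log 2 + E := by
      rw [hE]
      linarith
    have h7 : ‖qf N b (-x + y * I)‖ ^ 2 ≤ 2 * Real.exp E * W := by
      have e3 : ‖qf N b (-x + y * I)‖ ^ 2 =
          Real.exp (2 * Real.log ‖qf N b (-x + y * I)‖) := by
        rw [two_mul, Real.exp_add, Real.exp_log hz]
        ring
      rw [e3]
      calc Real.exp (2 * Real.log ‖qf N b (-x + y * I)‖) ≤
            Real.exp (Real.log W + Real.log 2 + E) := Real.exp_le_exp.2 h6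
        _ = 2 * Real.exp E * W := by
            rw [Real.exp_add, Real.exp_add, Real.exp_log hW0, Real.exp_log (by norm_num)]
            ring
    exact h7.trans (mul_le_mul_of_nonneg_left hWle (by positivity))

end Pool.Agent.NBL
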